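import Mathlib

namespace Pool.Agent.Lib.MP_b2ee0b_nt

open Finset

/-- rising factorial of 5/3 -/
def ph (i : ℕ) : ℚ := ∏ t ∈ range i, ((t : ℚ) + 5 / 3)

lemma ph_succ (i : ℕ) : ph (i + 1) = ph i * ((i : ℚ) + 5 / 3) := by
  unfold ph; rw [prod_range_succ]

lemma ph_pos (i : ℕ) : 0 < ph i := by
  unfold ph; exact prod_pos (fun t _ => by positivity)

/-- coefficients of the Jacobi polynomial -/
def cf (m j : ℕ) : ℚ :=
  (-1 / 9) ^ j * 9 ^ m * (m.choose j : ℚ) * ((2 * m + 1 + j).factorial : ℚ) * ph (2 * m) /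
    (((2 * m + 1).factorial : ℚ) * (m.factorial : ℚ) * ph (m + j))

lemma cf_eq_zero {m j : ℕ} (h : m < j) : cf m j = 0 := by
  unfold cf; rw [Nat.choose_eq_zero_of_lt h]; simp

lemma ch1 (n k : ℕ) : (n.choose (k + 1) : ℚ) = (n.choose k : ℚ) * ((n : ℚ) - k) / (k + 1) := by
  rw [eq_div_iff (by positivity)]
  rcases le_or_gt k n with h | h
  · have := Nat.choose_succ_right_eq n k
    have h2 : ((n.choose (k + 1) * (k + 1) : ℕ) : ℚ) = ((n.choose k * (n - k) : ℕ) : ℚ) := by rw [this]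
    push_cast [Nat.cast_sub h] at h2
    exact h2
  · rw [Nat.choose_eq_zero_of_lt h, Nat.choose_eq_zero_of_lt (by omega)]; simp

lemma ch2 (n k : ℕ) : (n.choose k : ℚ) = ((n + 1).choose k : ℚ) * ((n : ℚ) + 1 - k) / (n + 1) := by
  rw [eq_div_iff (by positivity)]
  rcases le_or_gt k (n + 1) with h | h
  · have := Nat.choose_mul_succ_eq n k
    have h2 : ((n.choose k * (n + 1) : ℕ) : ℚ) = (((n + 1).choose k * (n + 1 - k) : ℕ) : ℚ) := by
      rw [this]
    push_cast [Nat.cast_sub h] at h2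
    exact h2
  · rw [Nat.choose_eq_zero_of_lt h, Nat.choose_eq_zero_of_lt (by omega)]; simp

lemma ch3 (n k : ℕ) : (n.choose k : ℚ) = ((n + 1).choose (k + 1) : ℚ) * ((k : ℚ) + 1) / (n + 1) := by
  rw [eq_div_iff (by positivity)]
  have := Nat.add_one_mul_choose_eq n k
  have h2 : (((n + 1) * n.choose k : ℕ) : ℚ) = (((n + 1).choose (k + 1) * (k + 1) : ℕ) : ℚ) := by
    rw [this]
  push_cast at h2
  linarith

/-- step in j -/
lemma cf_succ (m j : ℕ) : cf m (j + 1) =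
    cf m j * (-1 / 9) * (((m : ℚ) - j) / (j + 1)) * ((2 * m + 2 + j) / (m + j + 5 / 3)) := by
  unfold cf
  rw [ch1 m j, show 2 * m + 1 + (j + 1) = (2 * m + 1 + j) + 1 by ring, Nat.factorial_succ (2 * m + 1 + j),
    show m + (j + 1) = (m + j) + 1 by ring, ph_succ (m + j)]
  have h1 := (ph_pos (m + j)).ne'
  have h2 : ((2 * m + 1).factorial : ℚ) ≠ 0 := by positivity
  have h3 : (m.factorial : ℚ) ≠ 0 := by positivity
  push_cast
  field_simp
  ring

/-- step in m -/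
lemma cf_m (m j : ℕ) : cf m j = cf (m + 1) j * (((m : ℚ) + 1 - j) * (2 * m + 2) * (2 * m + 3) *
    (m + j + 5 / 3)) / (9 * (2 * m + 2 + j) * (2 * m + 3 + j) * (2 * m + 5 / 3) * (2 * m + 8 / 3)) := by
  unfold cf
  rw [ch2 m j, show 2 * (m + 1) + 1 + j = (2 * m + 1 + j) + 1 + 1 by ring,
    Nat.factorial_succ (2 * m + 1 + j + 1), Nat.factorial_succ (2 * m + 1 + j),
    show 2 * (m + 1) + 1 = (2 * m + 1) + 1 + 1 by ring,
    Nat.factorial_succ (2 * m + 1 + 1), Nat.factorial_succ (2 * m + 1), Nat.factorial_succ m,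
    show m + 1 + j = (m + j) + 1 by ring, ph_succ (m + j),
    show 2 * (m + 1) = 2 * m + 1 + 1 by ring, ph_succ (2 * m + 1), ph_succ (2 * m)]
  have h1 := (ph_pos (m + j)).ne'
  have h2 : ((2 * m + 1).factorial : ℚ) ≠ 0 := by positivity
  have h3 : (m.factorial : ℚ) ≠ 0 := by positivity
  push_cast
  field_simp
  ring

/-- diagonal step -/
lemma cf_d (m j : ℕ) : cf m j = cf (m + 1) (j + 1) * (-(((j : ℚ) + 1) * (2 * m + 2) * (2 * m + 3) *
    (m + j + 5 / 3) * (m + j + 8 / 3))) /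
      ((2 * m + 2 + j) * (2 * m + 3 + j) * (2 * m + 4 + j) * (2 * m + 5 / 3) * (2 * m + 8 / 3)) := by
  unfold cf
  rw [ch3 m j, show 2 * (m + 1) + 1 + (j + 1) = (2 * m + 1 + j) + 1 + 1 + 1 by ring,
    Nat.factorial_succ (2 * m + 1 + j + 1 + 1),
    Nat.factorial_succ (2 * m + 1 + j + 1), Nat.factorial_succ (2 * m + 1 + j),
    show 2 * (m + 1) + 1 = (2 * m + 1) + 1 + 1 by ring,
    Nat.factorial_succ (2 * m + 1 + 1), Nat.factorial_succ (2 * m + 1), Nat.factorial_succ m,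
    show m + 1 + (j + 1) = (m + j) + 1 + 1 by ring, ph_succ (m + j + 1), ph_succ (m + j),
    show 2 * (m + 1) = 2 * m + 1 + 1 by ring, ph_succ (2 * m + 1), ph_succ (2 * m)]
  have h1 := (ph_pos (m + j)).ne'
  have h2 : ((2 * m + 1).factorial : ℚ) ≠ 0 := by positivity
  have h3 : (m.factorial : ℚ) ≠ 0 := by positivity
  push_cast
  field_simp
  ring

def cN (u : ℕ) : ℚ := ((u : ℚ) + 2) * (u + 1) * (2 * u + 5)
def cX (u : ℕ) : ℚ := 6 * ((u : ℚ) + 1) * (3 * u + 7) * (3 * u + 5)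
def cY (u : ℕ) : ℚ := 27 * (3 * (u : ℚ) + 7) * (3 * u + 4) * (6 * u + 5)

lemma rec0 (u : ℕ) : 0 = cX u * (3 * cf (u + 1) 0) - 4 * cY u * cf u 0 := by
  rw [cf_m u 0]; unfold cX cY
  push_cast
  field_simp
  ring

lemma rec1 (u : ℕ) : 4 * cN u * cf (u + 2) 0 =
    cX u * (3 * cf (u + 1) 1 + 6 * cf (u + 1) 0) - 4 * cY u * cf u 1 := by
  rw [cf_m u 1, cf_succ (u + 1) 0, cf_m (u + 1) 0]; unfold cN cX cY
  push_cast
  field_simp
  ring

lemma rec2 (u i : ℕ) : 4 * cN u * cf (u + 2) (i + 1) =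
    cX u * (3 * cf (u + 1) (i + 2) + 6 * cf (u + 1) (i + 1) - cf (u + 1) i)
      - 4 * cY u * cf u (i + 2) := by
  rw [cf_m u (i + 2), cf_succ (u + 1) (i + 1), cf_m (u + 1) (i + 1), cf_d (u + 1) i]
  unfold cN cX cY
  push_cast
  field_simp
  ring

lemma cf00 : cf 0 0 = 1 := by simp [cf, ph]
lemma cf10 : cf 1 0 = 24 := by norm_num [cf, ph, prod_range_succ, Nat.factorial]
lemma cf11 : cf 1 1 = -4 := by norm_num [cf, ph, prod_range_succ, Nat.factorial]

/-- factorial divides 3^i times a product along a progression of difference 3 -/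
lemma fact_dvd (a i : ℕ) : i.factorial ∣ 3 ^ i * ∏ t ∈ range i, (a + 3 * t) := by
  obtain ⟨s, u, hu, hi⟩ := Nat.exists_eq_pow_mul_and_not_dvd (Nat.factorial_ne_zero i) 3 (by norm_num)
  have hs : s ≤ i := by
    have : Fact (Nat.Prime 3) := ⟨Nat.prime_three⟩
    have h1 : s ≤ padicValNat 3 i.factorial := by
      rw [← padicValNat_dvd_iff_le (Nat.factorial_ne_zero i)]
      exact ⟨u, hi⟩
    have h2 := sub_one_mul_padicValNat_factorial (p := 3) i
    omega
  have hcop : Nat.Coprime 3 u := (Nat.Prime.coprime_iff_not_dvd Nat.prime_three).2 hu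
  have hu0 : 0 < u := Nat.pos_of_ne_zero (by rintro rfl; simp at hu)
  have h3 : u ∣ ∏ t ∈ range i, (a + 3 * t) := by
    obtain ⟨b, hb⟩ : ∃ b : ℕ, 3 * b ≡ a [MOD u] := by
      have := Nat.ModEq.pow_totient hcop
      have hp : 0 < u.totient := Nat.totient_pos.2 hu0
      refine ⟨3 ^ (u.totient - 1) * a, ?_⟩
      have h4 : 3 * (3 ^ (u.totient - 1) * a) = 3 ^ u.totient * a := by
        rw [← mul_assoc, ← pow_succ']; congr 2; omega
      rw [h4]
      simpa using this.mul_right a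
    have h5 : ∏ t ∈ range i, (a + 3 * t) ≡ ∏ t ∈ range i, (3 * (b + t)) [MOD u] := by
      apply Nat.ModEq.prod
      intro t _
      rw [mul_add]
      exact hb.symm.add_right _
    have h6 : u ∣ ∏ t ∈ range i, (3 * (b + t)) := by
      rw [prod_mul_distrib]
      apply Dvd.dvd.mul_left
      rw [← Nat.ascFactorial_eq_prod_range]
      exact Dvd.dvd.trans ⟨3 ^ s, by rw [hi]; ring⟩ (Nat.factorial_dvd_ascFactorial b i)
    exact (Nat.modEq_zero_iff_dvd).1 (h5.trans ((Nat.modEq_zero_iff_dvd).2 h6))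
  rw [hi]
  exact mul_dvd_mul (pow_dvd_pow 3 hs) h3

lemma ph_add (n i : ℕ) : ph (n + i) * 3 ^ i = ph n * ∏ t ∈ range i, ((3 * n + 5 + 3 * t : ℕ) : ℚ) := by
  induction i with
  | zero => simp
  | succ i ih =>
    rw [← add_assoc, ph_succ, prod_range_succ, ← mul_assoc, ← ih]
    push_cast; ring

lemma cf_int (m j : ℕ) : ∃ z : ℤ, cf m j = z := by
  rcases lt_or_ge m j with h | h
  · exact ⟨0, by simp [cf_eq_zero h]⟩
  obtain ⟨i, rfl⟩ := Nat.exists_eq_add_of_le h
  obtain ⟨g, hg⟩ := fact_dvd (3 * (j + i + j) + 5) i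
  refine ⟨(-1) ^ j * ((2 * (j + i) + 1 + j).choose j : ℕ) * g, ?_⟩
  have h1 := ph_add (j + i + j) i
  have hg' : (3 : ℚ) ^ i * ∏ t ∈ range i, ((3 * (j + i + j) + 5 + 3 * t : ℕ) : ℚ) = (i.factorial : ℚ) * g := by
    exact_mod_cast hg
  have h2 : ph (2 * (j + i)) = ph (j + i + j) * ((i.factorial : ℚ) * g) / 9 ^ i := by
    rw [← hg', show 2 * (j + i) = j + i + j + i by ring, eq_div_iff (by positivity),
      show (9 : ℚ) = 3 * 3 by norm_num, mul_pow, ← mul_assoc, h1]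
    ring
  have h3 : (((j + i).choose j : ℕ) : ℚ) = ((j + i).factorial : ℚ) / (j.factorial * i.factorial) :=
    Nat.cast_add_choose ℚ
  have h4 : (((2 * (j + i) + 1 + j).choose j : ℕ) : ℚ) =
      ((2 * (j + i) + 1 + j).factorial : ℚ) / ((2 * (j + i) + 1).factorial * j.factorial) := by
    rw [← Nat.choose_symm_add]
    exact Nat.cast_add_choose ℚ
  unfold cf
  push_cast
  rw [h2, h3, h4]
  have h5 := (ph_pos (j + i + j)).ne'
  have h6 : ((2 * (j + i) + 1).factorial : ℚ) ≠ 0 := by positivity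
  have h7 : ((j + i).factorial : ℚ) ≠ 0 := by positivity
  have h8 : (j.factorial : ℚ) ≠ 0 := by positivity
  have h9 : (i.factorial : ℚ) ≠ 0 := by positivity
  rw [div_pow, pow_add]
  field_simp

lemma cf0_le (m : ℕ) : |cf m 0| ≤ 36 ^ m := by
  induction m with
  | zero => simp [cf00]
  | succ m ih =>
    have h : cf (m + 1) 0 = cf m 0 * (9 * (2 * m + 5 / 3) * (2 * m + 8 / 3) / ((m + 1) * (m + 5 / 3))) := by
      rw [cf_m m 0]; push_cast; field_simp; ring
    rw [h, abs_mul, pow_succ]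
    apply mul_le_mul ih _ (abs_nonneg _) (by positivity)
    rw [abs_of_nonneg (by positivity), div_le_iff₀ (by positivity)]
    have : (0 : ℚ) ≤ m := by positivity
    nlinarith

lemma cf_le (m j : ℕ) : |cf m j| ≤ 36 ^ m * (m.choose j : ℚ) * (2 / 9) ^ j := by
  induction j with
  | zero => simpa using cf0_le m
  | succ j ih =>
    rcases lt_or_ge m (j + 1) with h | h
    · rw [cf_eq_zero h, abs_zero]; positivity
    have hj : (j : ℚ) + 1 ≤ m := by exact_mod_cast h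
    have h0 : (0 : ℚ) ≤ j := by positivity
    have h1 : (0 : ℚ) ≤ ((m : ℚ) - j) / (j + 1) := div_nonneg (by linarith) (by positivity)
    have h2 : ((2 * m + 2 + j : ℚ)) / (m + j + 5 / 3) ≤ 2 := by
      rw [div_le_iff₀ (by positivity)]; linarith
    rw [cf_succ, abs_mul, abs_mul, abs_mul, abs_of_nonneg h1,
      abs_of_nonneg (a := (2 * m + 2 + j : ℚ) / (m + j + 5 / 3)) (by positivity), ch1 m j,
      show |(-1 / 9 : ℚ)| = 1 / 9 by norm_num [abs_of_neg]]
    calc |cf m j| * (1 / 9) * (((m : ℚ) - j) / (j + 1)) * ((2 * m + 2 + j) / (m + j + 5 / 3))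
        ≤ (36 ^ m * (m.choose j : ℚ) * (2 / 9) ^ j) * (1 / 9) * (((m : ℚ) - j) / (j + 1)) * 2 := by
          gcongr
      _ = _ := by ring

end Pool.Agent.Lib.MP_b2ee0b_nt
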