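import Mathlib
import Pool.Agent.Lib.MP_b2ee0b_nt.Coef

namespace Pool.Agent.Lib.MP_b2ee0b_nt

open Finset Polynomial

noncomputable def Wp (m : ℕ) : ℚ[X] := ∑ j ∈ range (m + 1), monomial j (cf m j)

lemma Wp_coeff (m j : ℕ) : (Wp m).coeff j = cf m j := by
  unfold Wp
  rw [finsetSum_coeff]
  simp only [coeff_monomial]
  rw [sum_ite_eq' (range (m + 1)) j (fun i => cf m i)]
  split_ifs with h
  · rfl
  · rw [cf_eq_zero (by simpa using h)]

lemma Wp_rec (u : ℕ) : C (4 * cN u) * (X * Wp (u + 2)) =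
    C (cX u) * (C 3 * Wp (u + 1) + C 6 * (X * Wp (u + 1)) - X * (X * Wp (u + 1)))
      - C (4 * cY u) * Wp u := by
  ext j
  rcases j with _ | _ | i
  · simp only [coeff_sub, coeff_add, mul_coeff_zero, coeff_X_zero, Wp_coeff, coeff_C_zero]
    linear_combination rec0 u
  · simp only [coeff_C_mul, coeff_sub, coeff_add, coeff_X_mul, Wp_coeff, zero_add]
    simp only [mul_coeff_zero, coeff_X_zero]
    linear_combination rec1 u
  · simp only [coeff_C_mul, coeff_sub, coeff_add, coeff_X_mul, Wp_coeff]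
    linear_combination rec2 u i

noncomputable def Pp (m : ℕ) : ℚ[X] := X ^ (m + 1) * expand ℚ 2 (Wp m)

noncomputable def Fq (K : ℚ) : ℚ[X] := X ^ 4 - C 6 * X ^ 2 + C K * X - C 3

lemma Pp_rec (K : ℚ) (u : ℕ) : C (4 * cN u) * Pp (u + 2) =
    C (cX u) * C K * Pp (u + 1) - C (4 * cY u) * Pp u
      - C (cX u) * (Fq K * (X ^ (u + 1) * expand ℚ 2 (Wp (u + 1)))) := by
  have h := congrArg (expand ℚ 2) (Wp_rec u)
  simp only [map_mul, map_sub, map_add, expand_C, expand_X] at h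
  unfold Pp Fq
  simp only [map_mul]
  have h3 : (C (3 : ℚ)) = 3 := rfl
  have h6 : (C (6 : ℚ)) = 6 := rfl
  rw [h3, h6] at h ⊢
  linear_combination X ^ (u + 1) * h

/-- solutions of the three term recurrence -/
def sq (K x0 x1 : ℚ) : ℕ → ℚ
  | 0 => x0
  | 1 => x1
  | (u + 2) => (cX u * K * sq K x0 x1 (u + 1) - 4 * cY u * sq K x0 x1 u) / (4 * cN u)

lemma cN_pos (u : ℕ) : 0 < cN u := by unfold cN; positivity
lemma cX_pos (u : ℕ) : 0 < cX u := by unfold cX; positivity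
lemma cY_pos (u : ℕ) : 0 < cY u := by unfold cY; positivity

lemma sq_rec (K x0 x1 : ℚ) (u : ℕ) : 4 * cN u * sq K x0 x1 (u + 2) =
    cX u * K * sq K x0 x1 (u + 1) - 4 * cY u * sq K x0 x1 u := by
  have := (cN_pos u).ne'
  rw [sq]; field_simp

def sB (K : ℚ) : ℕ → ℚ := sq K 1 (4 * K)
def sA (K : ℚ) : ℕ → ℚ := sq K 0 12

lemma Pp0 : Pp 0 = X := by
  simp [Pp, Wp, cf00]

lemma Pp1 : Pp 1 = X ^ 2 * (C 24 + C (-4) * X ^ 2) := by
  simp only [Pp, Wp, sum_range_succ, range_zero, sum_empty, zero_add, cf10, cf11, map_add,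
    ← C_mul_X_pow_eq_monomial, map_mul, expand_C, map_pow, expand_X]
  ring

lemma Fq_dvd (K : ℚ) (m : ℕ) : Fq K ∣ Pp m - (C (sB K m) * X - C (sA K m)) := by
  induction m using Nat.twoStepInduction with
  | zero => simp [Pp0, sB, sA, sq]
  | one =>
    refine ⟨C (-4), ?_⟩
    rw [Pp1]
    simp only [sB, sA, sq, Fq, map_mul, map_neg]
    have h3 : (C (3 : ℚ)) = 3 := rfl
    have h6 : (C (6 : ℚ)) = 6 := rfl
    have h4 : (C (4 : ℚ)) = 4 := rfl
    have h12 : (C (12 : ℚ)) = 12 := rfl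
    have h24 : (C (24 : ℚ)) = 24 := rfl
    rw [h3, h6, h4, h12, h24]
    ring
  | more u h0 h1 =>
    have hu : IsUnit (C (4 * cN u)) := isUnit_C.2 (IsUnit.mk0 _ (by have := cN_pos u; positivity))
    rw [← hu.dvd_mul_left]
    have hB := congrArg C (sq_rec K 1 (4 * K) u)
    have hA := congrArg C (sq_rec K 0 12 u)
    have e : C (4 * cN u) * (Pp (u + 2) - (C (sB K (u + 2)) * X - C (sA K (u + 2)))) =
        C (cX u) * C K * (Pp (u + 1) - (C (sB K (u + 1)) * X - C (sA K (u + 1))))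
        - C (4 * cY u) * (Pp u - (C (sB K u) * X - C (sA K u)))
        - C (cX u) * (Fq K * (X ^ (u + 1) * expand ℚ 2 (Wp (u + 1)))) := by
      have hP := Pp_rec K u
      simp only [sB, sA, map_mul, map_sub] at hB hA hP ⊢
      linear_combination hP - X * hB + hA
    rw [e]
    exact ((h1.mul_left _).sub (h0.mul_left _)).sub ((dvd_mul_right _ _).mul_left _)

/-- congruence to a cubic polynomial -/
def R4 (K : ℚ) (P : ℚ[X]) (a b c d : ℚ) : Prop :=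
  Fq K ∣ P - (C a + C b * X + C c * X ^ 2 + C d * X ^ 3)

lemma R4.mulX {K : ℚ} {P : ℚ[X]} {a b c d : ℚ} (h : R4 K P a b c d) :
    R4 K (P * X) (3 * d) (a - K * d) (b + 6 * d) c := by
  have e : P * X - (C (3 * d) + C (a - K * d) * X + C (b + 6 * d) * X ^ 2 + C c * X ^ 3) =
      (P - (C a + C b * X + C c * X ^ 2 + C d * X ^ 3)) * X + Fq K * C d := by
    simp only [Fq, map_mul, map_sub, map_add]; ring
  unfold R4
  rw [e]
  exact (Dvd.dvd.mul_right h _).add (dvd_mul_right _ _)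

lemma R4.smul {K : ℚ} {P : ℚ[X]} {a b c d : ℚ} (h : R4 K P a b c d) (z : ℚ) :
    R4 K (C z * P) (z * a) (z * b) (z * c) (z * d) := by
  have e : C z * P - (C (z * a) + C (z * b) * X + C (z * c) * X ^ 2 + C (z * d) * X ^ 3) =
      C z * (P - (C a + C b * X + C c * X ^ 2 + C d * X ^ 3)) := by
    simp only [map_mul]; ring
  unfold R4
  rw [e]
  exact Dvd.dvd.mul_left h _

lemma R4.add {K : ℚ} {P P' : ℚ[X]} {a b c d a' b' c' d' : ℚ} (h : R4 K P a b c d)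
    (h' : R4 K P' a' b' c' d') : R4 K (P + P') (a + a') (b + b') (c + c') (d + d') := by
  have e : P + P' - (C (a + a') + C (b + b') * X + C (c + c') * X ^ 2 + C (d + d') * X ^ 3) =
      (P - (C a + C b * X + C c * X ^ 2 + C d * X ^ 3)) +
        (P' - (C a' + C b' * X + C c' * X ^ 2 + C d' * X ^ 3)) := by
    simp only [map_add]; ring
  unfold R4
  rw [e]
  exact Dvd.dvd.add h h'

def I4 (K : ℚ) (P : ℚ[X]) : Prop := ∃ a b c d : ℤ, R4 K P a b c d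

lemma I4.smul {K : ℚ} {P : ℚ[X]} (h : I4 K P) (z : ℤ) : I4 K (C (z : ℚ) * P) := by
  obtain ⟨a, b, c, d, h⟩ := h
  exact ⟨z * a, z * b, z * c, z * d, by push_cast; exact h.smul z⟩

lemma I4.add {K : ℚ} {P P' : ℚ[X]} (h : I4 K P) (h' : I4 K P') : I4 K (P + P') := by
  obtain ⟨a, b, c, d, h⟩ := h
  obtain ⟨a', b', c', d', h'⟩ := h'
  exact ⟨a + a', b + b', c + c', d + d', by push_cast; exact h.add h'⟩

lemma I4.zero (K : ℚ) : I4 K 0 := ⟨0, 0, 0, 0, by simp [R4]⟩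

lemma pow_J (K : ℚ) (L h : ℤ) (hK : K * h = L) (n : ℕ) : ∃ a b c d : ℤ,
    R4 K (C ((h : ℚ) ^ n) * X ^ (3 * n + 1)) (h * a) b (h * c) (h * d) := by
  induction n with
  | zero => exact ⟨0, 1, 0, 0, by simp [R4]⟩
  | succ n ih =>
    obtain ⟨a, b, c, d, ih⟩ := ih
    have h3 := (ih.mulX.mulX.mulX).smul h
    refine ⟨3 * (b + 6 * h * d), 3 * h * h * c - L * (b + 6 * h * d),
      3 * h * d - L * c + 6 * (b + 6 * h * d), h * a - L * d + 6 * h * c, ?_⟩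
    have e : C ((h : ℚ) ^ (n + 1)) * X ^ (3 * (n + 1) + 1) =
        C (h : ℚ) * (C ((h : ℚ) ^ n) * X ^ (3 * n + 1) * X * X * X) := by
      rw [pow_succ, map_mul]; ring
    rw [e]
    have e1 : (h : ℚ) * ((3 * (b + 6 * h * d) : ℤ) : ℚ) = h * (3 * (b + 6 * (h * d))) := by
      push_cast; ring
    have e2 : ((3 * h * h * c - L * (b + 6 * h * d) : ℤ) : ℚ) =
        h * (3 * (h * c) - K * (b + 6 * (h * d))) := by push_cast; rw [← hK]; ring
    have e3 : (h : ℚ) * ((3 * h * d - L * c + 6 * (b + 6 * h * d) : ℤ) : ℚ) =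
        h * (3 * (h * d) - K * (h * c) + 6 * (b + 6 * (h * d))) := by push_cast; rw [← hK]; ring
    have e4 : (h : ℚ) * ((h * a - L * d + 6 * h * c : ℤ) : ℚ) =
        h * (h * a - K * (h * d) + 6 * (h * c)) := by push_cast; rw [← hK]; ring
    rw [e1, e2, e3, e4]
    exact h3

lemma pow_I (K : ℚ) (L h : ℤ) (hK : K * h = L) (m i : ℕ) (hi : i ≤ 3 * m + 1) :
    I4 K (C ((h : ℚ) ^ m) * X ^ i) := by
  have up : ∀ n, n ≤ m → I4 K (C ((h : ℚ) ^ n) * X ^ i) → I4 K (C ((h : ℚ) ^ m) * X ^ i) := by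
    intro n hn hI
    obtain ⟨e, rfl⟩ := Nat.exists_eq_add_of_le hn
    have := hI.smul (h ^ e)
    have e1 : C ((h : ℚ) ^ (n + e)) * X ^ i = C (((h ^ e : ℤ)) : ℚ) * (C ((h : ℚ) ^ n) * X ^ i) := by
      push_cast; rw [pow_add, map_mul]; ring
    rwa [e1]
  rcases Nat.eq_zero_or_pos i with rfl | hi0
  · exact up 0 (Nat.zero_le _) ⟨1, 0, 0, 0, by simp [R4]⟩
  obtain ⟨n, hn⟩ : ∃ n, i = 3 * n + 1 ∨ i = 3 * n + 2 ∨ i = 3 * n + 3 := ⟨(i - 1) / 3, by omega⟩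
  obtain ⟨a, b, c, d, hJ⟩ := pow_J K L h hK n
  apply up n (by omega)
  rcases hn with rfl | rfl | rfl
  · exact ⟨h * a, b, h * c, h * d, by push_cast; exact hJ⟩
  · refine ⟨3 * (h * d), h * a - L * d, b + 6 * (h * d), h * c, ?_⟩
    have h1 := hJ.mulX
    have e : (h : ℚ) * a - K * (h * d) = h * a - L * d := by rw [← hK]; ring
    rw [e, mul_assoc, ← pow_succ] at h1
    push_cast; exact h1
  · refine ⟨3 * (h * c), 3 * (h * d) - L * c, h * a - L * d + 6 * (h * c), b + 6 * (h * d), ?_⟩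
    have h1 := hJ.mulX.mulX
    have e : (h : ℚ) * a - K * (h * d) = h * a - L * d := by rw [← hK]; ring
    have e' : 3 * ((h : ℚ) * d) - K * (h * c) = 3 * (h * d) - L * c := by rw [← hK]; ring
    rw [e, e', mul_assoc, mul_assoc, ← pow_two, ← pow_add] at h1
    push_cast; exact h1

lemma sAB_int (K : ℚ) (L h : ℤ) (hK : K * h = L) (m : ℕ) :
    ∃ A B : ℤ, (h : ℚ) ^ m * sA K m = A ∧ (h : ℚ) ^ m * sB K m = B := by
  choose z hz using cf_int
  have h1 : I4 K (C ((h : ℚ) ^ m) * Pp m) := by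
    have e : C ((h : ℚ) ^ m) * Pp m =
        ∑ j ∈ range (m + 1), C ((z m j : ℤ) : ℚ) * (C ((h : ℚ) ^ m) * X ^ (m + 1 + 2 * j)) := by
      simp only [Pp, Wp, map_sum, mul_sum, ← C_mul_X_pow_eq_monomial, map_mul, expand_C, map_pow,
        expand_X, hz]
      apply sum_congr rfl
      intro j _
      ring
    rw [e]
    apply Finset.sum_induction _ (I4 K) (fun _ _ => I4.add) (I4.zero K)
    intro j hj
    have := mem_range.1 hj
    exact (pow_I K L h hK m _ (by omega)).smul _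
  obtain ⟨a, b, c, d, h1⟩ := h1
  have hFqd : (Fq K).degree = 4 := by unfold Fq; compute_degree!
  have h2 : Fq K ∣ C ((a : ℚ) + h ^ m * sA K m) + C ((b : ℚ) - h ^ m * sB K m) * X + C (c : ℚ) * X ^ 2
      + C (d : ℚ) * X ^ 3 := by
    have := ((Fq_dvd K m).mul_left (C ((h : ℚ) ^ m))).sub h1
    have e : C ((h : ℚ) ^ m) * (Pp m - (C (sB K m) * X - C (sA K m))) -
        (C ((h : ℚ) ^ m) * Pp m - (C (a : ℚ) + C (b : ℚ) * X + C (c : ℚ) * X ^ 2 + C (d : ℚ) * X ^ 3)) =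
        C ((a : ℚ) + h ^ m * sA K m) + C ((b : ℚ) - h ^ m * sB K m) * X + C (c : ℚ) * X ^ 2
          + C (d : ℚ) * X ^ 3 := by
      simp only [map_add, map_sub, map_mul]; ring
    rwa [e] at this
  have h3 := eq_zero_of_dvd_of_degree_lt h2 (by rw [hFqd]; compute_degree!)
  have c0 := congrArg (fun p => p.coeff 0) h3
  have c1 := congrArg (fun p => p.coeff 1) h3
  simp only [coeff_add, coeff_C_mul, coeff_X_pow, coeff_X, coeff_C, coeff_zero] at c0 c1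
  norm_num at c0 c1
  exact ⟨-a, b, by push_cast; linarith, by linarith⟩

lemma eval_eq (K : ℚ) (ξ : ℝ) (hξ : ξ ^ 4 - 6 * ξ ^ 2 + K * ξ - 3 = 0) (m : ℕ) :
    (sB K m : ℝ) * ξ - sA K m = ξ ^ (m + 1) * ∑ j ∈ range (m + 1), (cf m j : ℝ) * (ξ ^ 2) ^ j := by
  obtain ⟨g, hg⟩ := Fq_dvd K m
  have h := congrArg (aeval ξ) hg
  have hF : aeval ξ (Fq K) = 0 := by
    simp only [Fq, map_sub, map_add, map_mul, map_pow, aeval_X, aeval_C, eq_ratCast]
    push_cast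
    exact hξ
  rw [map_mul, hF, zero_mul] at h
  simp only [Pp, Wp, map_sub, map_mul, map_pow, aeval_X, aeval_C, expand_aeval, map_sum,
    aeval_monomial, eq_ratCast] at h
  linarith

lemma rem_le (K : ℚ) (ξ : ℝ) (h0 : 0 ≤ ξ) (hξ : ξ ^ 4 - 6 * ξ ^ 2 + K * ξ - 3 = 0) (m : ℕ) :
    |(sB K m : ℝ) * ξ - sA K m| ≤ ξ * (36 * ξ * (2 / 9 * ξ ^ 2 + 1)) ^ m := by
  rw [eval_eq K ξ hξ m, abs_mul, abs_of_nonneg (by positivity : (0 : ℝ) ≤ ξ ^ (m + 1))]
  have h1 : |∑ j ∈ range (m + 1), (cf m j : ℝ) * (ξ ^ 2) ^ j| ≤ 36 ^ m * (2 / 9 * ξ ^ 2 + 1) ^ m := by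
    refine (abs_sum_le_sum_abs _ _).trans ?_
    rw [add_pow, mul_sum]
    apply sum_le_sum
    intro j _
    have h2 : |(cf m j : ℝ)| ≤ 36 ^ m * (m.choose j : ℝ) * (2 / 9) ^ j := by
      have h3 : ((|cf m j| : ℚ) : ℝ) ≤ ((36 ^ m * (m.choose j : ℚ) * (2 / 9) ^ j : ℚ) : ℝ) :=
        Rat.cast_le.2 (cf_le m j)
      push_cast at h3
      exact h3
    rw [abs_mul, abs_of_nonneg (by positivity : (0 : ℝ) ≤ (ξ ^ 2) ^ j)]
    calc |(cf m j : ℝ)| * (ξ ^ 2) ^ j ≤ (36 ^ m * (m.choose j : ℝ) * (2 / 9) ^ j) * (ξ ^ 2) ^ j := by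
          gcongr
      _ = _ := by rw [mul_pow]; ring
  calc ξ ^ (m + 1) * |∑ j ∈ range (m + 1), (cf m j : ℝ) * (ξ ^ 2) ^ j|
      ≤ ξ ^ (m + 1) * (36 ^ m * (2 / 9 * ξ ^ 2 + 1) ^ m) := by gcongr
    _ = _ := by rw [mul_pow, mul_pow]; ring

lemma cXY (K : ℚ) (hK : 400 ≤ K) (u : ℕ) : 4 * cN u ≤ cX u * K - 4 * cY u := by
  have h : cX u * 400 ≤ cX u * K := mul_le_mul_of_nonneg_left hK (cX_pos u).le
  have h0 : (0 : ℚ) ≤ u := by positivity
  have : 4 * cN u + 4 * cY u ≤ cX u * 400 := by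
    unfold cN cX cY
    nlinarith [mul_nonneg h0 h0, mul_nonneg h0 (mul_nonneg h0 h0)]
  linarith

lemma cXN (u : ℕ) : cX u ≤ 27 * cN u := by
  have h0 : (0 : ℚ) ≤ u := by positivity
  unfold cN cX
  nlinarith [mul_nonneg h0 h0, mul_nonneg h0 (mul_nonneg h0 h0)]

lemma sB_bd (K : ℚ) (hK : 400 ≤ K) (m : ℕ) :
    0 < sB K m ∧ sB K m ≤ sB K (m + 1) ∧ sB K (m + 1) ≤ 27 * K / 4 * sB K m := by
  induction m with
  | zero => simp only [sB, sq]; refine ⟨by norm_num, by linarith, by linarith⟩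
  | succ u ih =>
    obtain ⟨h1, h2, _⟩ := ih
    have h := sq_rec K 1 (4 * K) u
    change 4 * cN u * sB K (u + 2) = cX u * K * sB K (u + 1) - 4 * cY u * sB K u at h
    have hN := cN_pos u
    have hY := cY_pos u
    have h3 : 0 < sB K (u + 1) := by linarith
    refine ⟨h3, ?_, ?_⟩
    · have := cXY K hK u
      have h5 : 4 * cN u * sB K (u + 1) ≤ 4 * cN u * sB K (u + 2) := by
        rw [h]; nlinarith
      exact le_of_mul_le_mul_left h5 (by positivity)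
    · have := cXN u
      have h6 : 0 ≤ K * sB K (u + 1) := by positivity
      have h5 : 4 * cN u * sB K (u + 2) ≤ 4 * cN u * (27 * K / 4 * sB K (u + 1)) := by
        rw [h]; nlinarith [mul_pos hY h1]
      exact le_of_mul_le_mul_left h5 (by positivity)

lemma sB_le (K : ℚ) (hK : 400 ≤ K) (m : ℕ) : sB K m ≤ (27 * K / 4) ^ m := by
  induction m with
  | zero => simp [sB, sq]
  | succ u ih =>
    refine (sB_bd K hK u).2.2.trans ?_
    rw [pow_succ']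
    gcongr

lemma rem_nonneg (K : ℚ) (hK : 400 ≤ K) (ξ : ℝ) (h0 : 0 ≤ ξ) (h1 : ξ ≤ 1 / 100)
    (hξ : ξ ^ 4 - 6 * ξ ^ 2 + K * ξ - 3 = 0) (m : ℕ) : 0 ≤ (sB K m : ℝ) * ξ - sA K m := by
  set r : ℕ → ℝ := fun m => (sB K m : ℝ) * ξ - sA K m with hr
  have hrec : ∀ u, 4 * (cN u : ℝ) * r (u + 2) = cX u * K * r (u + 1) - 4 * cY u * r u := by
    intro u
    have hB : 4 * (cN u : ℝ) * sB K (u + 2) = cX u * K * sB K (u + 1) - 4 * cY u * sB K u := by
      exact_mod_cast sq_rec K 1 (4 * K) u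
    have hA : 4 * (cN u : ℝ) * sA K (u + 2) = cX u * K * sA K (u + 1) - 4 * cY u * sA K u := by
      exact_mod_cast sq_rec K 0 12 u
    simp only [hr]
    linear_combination ξ * hB - hA
  have hstep : ∀ u, r (u + 1) < 0 ∧ r (u + 1) ≤ r u → r (u + 2) < 0 ∧ r (u + 2) ≤ r (u + 1) := by
    intro u ⟨ha, hb⟩
    have hN : (0 : ℝ) < cN u := by exact_mod_cast cN_pos u
    have hY : (0 : ℝ) < cY u := by exact_mod_cast cY_pos u
    have hc : 4 * (cN u : ℝ) ≤ cX u * K - 4 * cY u := by exact_mod_cast cXY K hK u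
    have h5 : 4 * (cN u : ℝ) * r (u + 2) ≤ 4 * cN u * r (u + 1) := by
      rw [hrec]; nlinarith
    have h6 := le_of_mul_le_mul_left h5 (by positivity)
    exact ⟨by linarith, h6⟩
  have hsmall : ∀ n, |r n| ≤ (1 / 2 : ℝ) ^ n := by
    intro n
    refine (rem_le K ξ h0 hξ n).trans ?_
    have h2 : 36 * ξ * (2 / 9 * ξ ^ 2 + 1) ≤ 1 / 2 := by nlinarith [mul_nonneg h0 h0]
    calc ξ * (36 * ξ * (2 / 9 * ξ ^ 2 + 1)) ^ n ≤ 1 * (1 / 2) ^ n := by gcongr; linarith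
      _ = _ := one_mul _
  change 0 ≤ r m
  induction m with
  | zero => simp [hr, sB, sA, sq, h0]
  | succ u ih =>
    by_contra hneg
    push Not at hneg
    have hall : ∀ n, r (u + n + 1) < 0 ∧ r (u + n + 1) ≤ r (u + n) ∧ r (u + n + 1) ≤ r (u + 1) := by
      intro n
      induction n with
      | zero => exact ⟨hneg, by simp only [add_zero]; linarith, le_refl _⟩
      | succ n ihn =>
        have := hstep (u + n) ⟨ihn.1, ihn.2.1⟩
        exact ⟨this.1, this.2, this.2.trans ihn.2.2⟩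
    obtain ⟨n, hn⟩ := exists_pow_lt_of_lt_one (show 0 < -r (u + 1) by linarith)
      (show (1 / 2 : ℝ) < 1 by norm_num)
    have h7 := (hall n).2.2
    have h8 := (abs_le.1 (hsmall (u + n + 1))).1
    have h9 : (1 / 2 : ℝ) ^ (u + n + 1) ≤ (1 / 2) ^ n :=
      pow_le_pow_of_le_one (by norm_num) (by norm_num) (by omega)
    linarith

/-- explicit rational approximations to the small root -/
theorem approx (K : ℚ) (L h : ℤ) (hh : 0 < h) (hL : K * h = L) (hK : 400 ≤ K) (ξ : ℝ) (h0 : 0 ≤ ξ)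
    (h1 : ξ ≤ 1 / 100) (hξ : ξ ^ 4 - 6 * ξ ^ 2 + K * ξ - 3 = 0) (m : ℕ) :
    ∃ A B : ℤ, 0 < B ∧ (B : ℝ) ≤ (27 * L / 4) ^ m ∧ 0 ≤ (B : ℝ) * ξ - A ∧
      (B : ℝ) * ξ - A ≤ ξ * (h * (36 * ξ * (2 / 9 * ξ ^ 2 + 1))) ^ m := by
  obtain ⟨A, B, hA, hB⟩ := sAB_int K L h hL m
  have e1 := (sB_bd K hK m).1
  have e2 := sB_le K hK m
  have e3 := rem_nonneg K hK ξ h0 h1 hξ m
  have e4 := (le_abs_self _).trans (rem_le K ξ h0 hξ m)
  have hh' : (0 : ℚ) < (h : ℚ) ^ m := by positivity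
  have hh'' : (0 : ℝ) < (h : ℝ) ^ m := by positivity
  have hA' : (A : ℝ) = (h : ℝ) ^ m * sA K m := by exact_mod_cast hA.symm
  have hB' : (B : ℝ) = (h : ℝ) ^ m * sB K m := by exact_mod_cast hB.symm
  have e5 : (B : ℝ) * ξ - A = (h : ℝ) ^ m * (sB K m * ξ - sA K m) := by rw [hA', hB']; ring
  refine ⟨A, B, ?_, ?_, ?_, ?_⟩
  · have : (0 : ℚ) < B := by rw [← hB]; positivity
    exact_mod_cast this
  · have h5 : (B : ℚ) ≤ (27 * L / 4) ^ m := by
      rw [← hB, ← hL, show 27 * (K * h) / 4 = h * (27 * K / 4) by ring, mul_pow]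
      gcongr
    have : ((B : ℚ) : ℝ) ≤ (((27 * (L : ℚ) / 4) ^ m : ℚ) : ℝ) := Rat.cast_le.2 h5
    push_cast at this
    exact this
  · rw [e5]; positivity
  · rw [e5, mul_pow, mul_left_comm]
    gcongr

end Pool.Agent.Lib.MP_b2ee0b_nt
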