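import Pool.Agent.Lib.MP_b2ee0b_nt.R2

/-! Assembly: all data of the generic case in one structure. -/

namespace Pool.Agent.Lib.MP_b2ee0b_nt

/-- the generic case: two steps down the tree, `d` and then `e`, both positive -/
structure Gen (a b c r s t α β G τ j d ρ y e : ℤ) : Prop where
  D : Dat a b c r s t α β G τ (2 * j) d
  hd : 2 * d = 2 * (a + b + c) + a * b * c - r * s * t
  hρ : 2 * ρ = r * s - a * t
  hy : 2 * y = r * t - b * s
  ρ0 : 0 ≤ ρ
  y0 : 0 ≤ y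
  qρ : ρ ^ 2 = a * d + 4
  qy : y ^ 2 = b * d + 4
  he : 2 * e = 2 * (a + b + d) + a * b * d - r * ρ * y
  db : d < b
  e0 : 0 < e

theorem assemble (H : ∀ a b c r s t α β G τ j d ρ y e : ℤ, ¬ Gen a b c r s t α β G τ j d ρ y e)
    {a b c : ℤ} (ha : a ≠ 0) (hb : b ≠ 0) (hc : c ≠ 0) (hab : a ≠ b) (hac : a ≠ c)
    (hbc : b ≠ c) (h1 : IsSquare (a * b + 4)) (h2 : IsSquare (a * c + 4))
    (h3 : IsSquare (b * c + 4)) : ¬ T3 a b c := by
  refine reduce ?_ ha hb hc hab hac hbc h1 h2 h3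
  intro a b c r s t α β G τ j d D hd
  have a0 := D.ha
  have ab := D.hab
  have bc := D.hbc
  have r0 := D.r0
  have s0 := D.s0
  have t0 := D.t0
  obtain ⟨d', ρ, y, z, e1, hρ, hy, -, qρ, qy, -⟩ := down D.hr D.hs D.ht
  obtain rfl : d = d' := by linarith
  have ρ0 : 0 ≤ ρ := by
    have u : a * t ≤ r * s := by
      apply le_of_pow_le_pow_left₀ two_ne_zero (by positivity)
      rw [mul_pow, mul_pow, D.hr, D.hs, D.ht]
      nlinarith [mul_pos a0 (sub_pos.2 ab), mul_pos a0 (by omega : 0 < c)]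
    omega
  have y0 : 0 ≤ y := by
    have b0 : 0 < b := by omega
    have u : b * s ≤ r * t := by
      apply le_of_pow_le_pow_left₀ two_ne_zero (by positivity)
      rw [mul_pow, mul_pow, D.hr, D.hs, D.ht]
      nlinarith [mul_pos b0 (sub_pos.2 bc), mul_pos a0 b0]
    omega
  obtain ⟨e, -, -, -, he, -⟩ := down (a := a) (b := b) (c := d) D.hr qρ qy
  obtain ⟨db, e0⟩ := lowcase D hρ hy ρ0 y0 qρ qy he
  exact H _ _ _ _ _ _ _ _ _ _ _ _ _ _ _ ⟨D, hd, hρ, hy, ρ0, y0, qρ, qy, he, db, e0⟩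

end Pool.Agent.Lib.MP_b2ee0b_nt
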