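import Pool.Agent.Lib.MP_b2ee0b_nt.IsoE

/-! Base file for the Runge argument: even lift, reduction of the problem, integral atoms. -/

namespace Pool.Agent.Lib.MP_b2ee0b_nt

theorem iso_dat2 {a b c : ℤ} (ha : 0 < a) (hab : a < b) (hbc : b < c) (q1 : IsSquare (a * b + 4))
    (q2 : IsSquare (a * c + 4)) (q3 : IsSquare (b * c + 4)) (h : T3 a b c) :
    ∃ r s t α β G τ j d, Dat a b c r s t α β G τ (2 * j) d ∧
      2 * d = 2 * (a + b + c) + a * b * c - r * s * t := by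
  obtain ⟨r, r0, hr⟩ := iso_root q1
  obtain ⟨s, s0, hs⟩ := iso_root q2
  obtain ⟨t, t0, ht⟩ := iso_root q3
  obtain ⟨α, β, G, τ, hα, hβ, hG, h1, h2, h3, h4⟩ := iso_norm ha hab hbc h
  obtain ⟨d, x, y, d0, x0, y0, qx, qy, ex, -, hlt, hc, hreg⟩ :=
    iso_down ha (by omega) (by omega) hbc r0 s0 t0 hr hs ht
  have hτ := iso_tau_pos ha hab hbc r0 hr hc hα hβ hG h1 h2 h3 h4
  have hd : 0 < d := by
    rcases eq_or_lt_of_le d0 with e | e
    · exact (iso_regular ha hab r0 hr (hreg e.symm) hα hβ hG h1 h2 h3 h4 hτ).elim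
    · exact e
  obtain ⟨m, hm⟩ := iso_cube (x := 4 - τ) (α := α) (β := β) (γ := -G) ha.le (by omega) (by omega)
    r0 s0 t0 hr hs ht (by linarith) (by linarith) (by linarith) (by linarith)
  have hlt' : β < α := by
    apply lt_of_pow_lt_pow_left₀ 2 hα.le
    nlinarith
  have hab0 : 0 < a * b := mul_pos ha (by omega)
  obtain ⟨k1, k2, k3⟩ := iso_k (ρ := r ^ 2) hα hβ hG hlt' h4 (by linarith) (by linarith) hm
  have e2 : 2 * m - 2 * G = 2 * (m - G) := by ring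
  rw [e2] at k1 k2 k3
  refine ⟨r, s, t, α, β, G, τ, m - G, d, ⟨ha, hab, hbc, r0, s0, t0, hr, hs, ht, hα, hβ, hG,
    h1, h2, h3, h4, hτ, by omega, k2, k3, hd, ⟨x, x0, qx⟩, ⟨y, y0, qy⟩, hlt⟩, ?_⟩
  apply mul_left_cancel₀ (a := 2 * a) (by omega)
  linear_combination -4 * qx + (2 * x + r * s - a * t) * ex + s ^ 2 * hr + (a * b + 4) * hs +
    a ^ 2 * ht

/-- the problem is reduced to the impossibility of the sorted positive data -/
theorem reduce (H : ∀ a b c r s t α β G τ j d : ℤ, Dat a b c r s t α β G τ (2 * j) d →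
      2 * d = 2 * (a + b + c) + a * b * c - r * s * t → False)
    {a b c : ℤ} (ha : a ≠ 0) (hb : b ≠ 0) (hc : c ≠ 0) (hab : a ≠ b) (hac : a ≠ c)
    (hbc : b ≠ c) (h1 : IsSquare (a * b + 4)) (h2 : IsSquare (a * c + 4))
    (h3 : IsSquare (b * c + 4)) : ¬ T3 a b c := by
  have srt : ∀ a b c : ℤ, 0 < a → a < b → b < c → IsSquare (a * b + 4) → IsSquare (a * c + 4) →
      IsSquare (b * c + 4) → ¬ T3 a b c := fun a b c x y z q1 q2 q3 h => by
    obtain ⟨r, s, t, α, β, G, τ, j, d, D, e⟩ := iso_dat2 x y z q1 q2 q3 h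
    exact H _ _ _ _ _ _ _ _ _ _ _ _ D e
  have pos : ∀ a b c : ℤ, 0 < a → 0 < b → 0 < c → a ≠ b → a ≠ c → b ≠ c → IsSquare (a * b + 4) →
      IsSquare (a * c + 4) → IsSquare (b * c + 4) → ¬ T3 a b c := by
    intro a b c x y z hab hac hbc h1 h2 h3 h
    have h1' : IsSquare (b * a + 4) := by rwa [mul_comm]
    have h2' : IsSquare (c * a + 4) := by rwa [mul_comm]
    have h3' : IsSquare (c * b + 4) := by rwa [mul_comm]
    rcases lt_or_gt_of_ne hab with u | u <;> rcases lt_or_gt_of_ne hac with v | v <;>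
      rcases lt_or_gt_of_ne hbc with w | w
    · exact srt a b c x u w h1 h2 h3 h
    · exact srt a c b x v w h2 h1 h3' h.swap23
    · omega
    · exact srt c a b z v u h2' h3' h1 h.swap23.swap12
    · exact srt b a c y u v h1' h3 h2 h.swap12
    · omega
    · exact srt b c a y w v h3 h1' h2' h.swap12.swap23
    · exact srt c b a z w u h3' h2' h1' h.swap12.swap23.swap12
  intro h
  rcases iso_sign ha hb hc hab hac hbc h1 h2 h3 h with ⟨x, y, z⟩ | ⟨x, y, z⟩
  · exact pos a b c x y z hab hac hbc h1 h2 h3 h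
  · exact pos (-a) (-b) (-c) (by omega) (by omega) (by omega) (by omega) (by omega) (by omega)
      (by rwa [neg_mul_neg]) (by rwa [neg_mul_neg]) (by rwa [neg_mul_neg]) h.neg

/-- the regular extension with the minus sign, no order or sign assumption -/
theorem down {a b c r s t : ℤ} (hr : r ^ 2 = a * b + 4) (hs : s ^ 2 = a * c + 4)
    (ht : t ^ 2 = b * c + 4) : ∃ d x y z : ℤ, 2 * d = 2 * (a + b + c) + a * b * c - r * s * t ∧
      2 * x = r * s - a * t ∧ 2 * y = r * t - b * s ∧ 2 * z = s * t - c * r ∧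
      x ^ 2 = a * d + 4 ∧ y ^ 2 = b * d + 4 ∧ z ^ 2 = c * d + 4 := by
  have hP : (r * s * t) ^ 2 = (a * b + 4) * (a * c + 4) * (b * c + 4) := by
    rw [← hr, ← hs, ← ht]; ring
  obtain ⟨w, hw⟩ := iso_even_sub (m := r * s * t) (n := a * b * c)
    (k := 2 * (a * b * c * (a + b + c) + 4 * (a * b + a * c + b * c) + 16))
    (by linear_combination hP)
  obtain ⟨x, hx⟩ := iso_even_sub (m := r * s) (n := a * t)
    (k := 2 * (a * b + a * c - a ^ 2 + 4))
    (by linear_combination s ^ 2 * hr + (a * b + 4) * hs - a ^ 2 * ht)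
  obtain ⟨y, hy⟩ := iso_even_sub (m := r * t) (n := b * s)
    (k := 2 * (a * b + b * c - b ^ 2 + 4))
    (by linear_combination t ^ 2 * hr + (a * b + 4) * ht - b ^ 2 * hs)
  obtain ⟨z, hz⟩ := iso_even_sub (m := s * t) (n := c * r)
    (k := 2 * (a * c + b * c - c ^ 2 + 4))
    (by linear_combination t ^ 2 * hs + (a * c + 4) * ht - c ^ 2 * hr)
  refine ⟨a + b + c - w, x, y, z, by linarith, hx.symm, hy.symm, hz.symm, ?_, ?_, ?_⟩
  · have : 4 * x ^ 2 = 4 * (a * (a + b + c - w) + 4) := by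
      linear_combination -(2 * x + r * s - a * t) * hx + s ^ 2 * hr + (a * b + 4) * hs +
        a ^ 2 * ht - 2 * a * hw
    linarith
  · have : 4 * y ^ 2 = 4 * (b * (a + b + c - w) + 4) := by
      linear_combination -(2 * y + r * t - b * s) * hy + t ^ 2 * hr + (a * b + 4) * ht +
        b ^ 2 * hs - 2 * b * hw
    linarith
  · have : 4 * z ^ 2 = 4 * (c * (a + b + c - w) + 4) := by
      linear_combination -(2 * z + s * t - c * r) * hz + t ^ 2 * hs + (a * c + 4) * ht +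
        c ^ 2 * hr - 2 * c * hw
    linarith

/-- a real number with an integer square and a nonzero integer multiple that is an integer -/
theorem int_of_real {u : ℝ} {n p q : ℤ} (h : u ^ 2 = n) (hq : q ≠ 0) (e : q * u = p) :
    ∃ z : ℤ, u = z := by
  have hq' : (q : ℝ) ≠ 0 := by exact_mod_cast hq
  have e1 : u = ((p / q : ℚ) : ℝ) := by push_cast; field_simp; linarith
  have e2 : (p / q : ℚ) ^ 2 = n := by
    have : (((p / q : ℚ) ^ 2 : ℚ) : ℝ) = ((n : ℚ) : ℝ) := by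
      rw [Rat.cast_pow, ← e1, h]; simp
    exact_mod_cast this
  obtain ⟨z, hz⟩ := int_of_sq e2
  exact ⟨z, by rw [e1, hz]; simp⟩

namespace Dat

variable {a b c r s t α β G τ j d : ℤ} (D : Dat a b c r s t α β G τ (2 * j) d)
include D

theorem rpos : 0 < r := by
  have := iso_two_le (mul_pos D.ha (by linarith [D.ha, D.hab])).le D.r0 D.hr
  omega

theorem spos : 0 < s := by
  have := iso_two_le (mul_pos D.ha (by linarith [D.ha, D.hab, D.hbc])).le D.s0 D.hs
  omega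

theorem tpos : 0 < t := by
  have := iso_two_le (mul_pos (by linarith [D.ha, D.hab] : 0 < b)
    (by linarith [D.ha, D.hab, D.hbc])).le D.t0 D.ht
  omega

theorem jpos : 0 < j := by linarith [D.hk]

theorem npos : 0 < α + β - 4 * G - 3 * j := by linarith [D.hL]

theorem lt_βα : β < α := by
  apply lt_of_pow_lt_pow_left₀ 2 D.hα.le
  have : 0 < c := by linarith [D.ha, D.hab, D.hbc]
  nlinarith [D.h2, D.h3, D.hab]

theorem lt_β : β < 2 * G := by
  have h1 := D.lt_βα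
  have h2 := D.hα
  have h3 := D.hG
  by_contra g
  nlinarith [D.h4]

theorem lt_G : G < β := by
  have h2 := D.hα
  have h3 := D.hG
  have h4 := D.hβ
  by_contra g
  nlinarith [D.h4]

theorem er : r ^ 2 * (α + β - 4 * G - 3 * j) = j * (2 * j + 3 * G) ^ 2 := by
  have := D.ek
  linarith

theorem es : s ^ 2 * (α + β - 4 * G - 3 * j) = (j + G + β) * (2 * j + 2 * G - β) ^ 2 := by
  linear_combination D.er + (α + β - 4 * G - 3 * j) * (D.hs - D.hr - D.h2 + D.h1) +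
    (β + G) * D.h4

theorem et : t ^ 2 * (α + β - 4 * G - 3 * j) = (j + G + α) * (α - 2 * G - 2 * j) ^ 2 := by
  linear_combination D.er + (α + β - 4 * G - 3 * j) * (D.ht - D.hr - D.h3 + D.h1) +
    (α + G) * D.h4

/-- the four real roots, their relations with `r, s, t`, and integrality of all products -/
theorem roots : ∃ X Y Z W : ℝ, 0 < X ∧ 0 < Y ∧ 0 < Z ∧ 0 < W ∧
    X ^ 2 = j + G + α ∧ Y ^ 2 = j + G + β ∧ Z ^ 2 = j ∧ W ^ 2 = α + β - 4 * G - 3 * j ∧
    r * W = Z * (2 * j + 3 * G) ∧ s * W = Y * (2 * j + 2 * G - β) ∧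
    t * W = X * (α - 2 * G - 2 * j) ∧
    (∃ z : ℤ, X * Y = z) ∧ (∃ z : ℤ, X * Z = z) ∧ (∃ z : ℤ, Y * Z = z) ∧
    (∃ z : ℤ, X * W = z) ∧ (∃ z : ℤ, Y * W = z) ∧ (∃ z : ℤ, Z * W = z) ∧
    (∃ z : ℤ, X * Y * Z / W = z) := by
  have hα := D.hα
  have hβ := D.hβ
  have hG := D.hG
  have hj := D.jpos
  have hn := D.npos
  have l1 := D.lt_β
  have rp := D.rpos
  have sp := D.spos
  have tp := D.tpos
  have p1 : (0 : ℝ) < j + G + α := by exact_mod_cast (by omega : 0 < j + G + α)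
  have p2 : (0 : ℝ) < j + G + β := by exact_mod_cast (by omega : 0 < j + G + β)
  have p3 : (0 : ℝ) < j := by exact_mod_cast hj
  have p4 : (0 : ℝ) < α + β - 4 * G - 3 * j := by exact_mod_cast hn
  have q1 : (0 : ℝ) < α - 2 * G - 2 * j := by exact_mod_cast (by omega : 0 < α - 2 * G - 2 * j)
  have q2 : (0 : ℝ) < 2 * j + 2 * G - β := by exact_mod_cast (by omega : 0 < 2 * j + 2 * G - β)
  have q3 : (0 : ℝ) < 2 * j + 3 * G := by exact_mod_cast (by omega : 0 < 2 * j + 3 * G)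
  have rp' : (0 : ℝ) < r := by exact_mod_cast rp
  have sp' : (0 : ℝ) < s := by exact_mod_cast sp
  have tp' : (0 : ℝ) < t := by exact_mod_cast tp
  have er : (r : ℝ) ^ 2 * (α + β - 4 * G - 3 * j) = j * (2 * j + 3 * G) ^ 2 := by
    exact_mod_cast D.er
  have es : (s : ℝ) ^ 2 * (α + β - 4 * G - 3 * j) = (j + G + β) * (2 * j + 2 * G - β) ^ 2 := by
    exact_mod_cast D.es
  have et : (t : ℝ) ^ 2 * (α + β - 4 * G - 3 * j) = (j + G + α) * (α - 2 * G - 2 * j) ^ 2 := by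
    exact_mod_cast D.et
  have h4 : (α : ℝ) * β = G * (α + β) := by exact_mod_cast D.h4
  obtain ⟨X, X0, hX⟩ : ∃ X : ℝ, 0 < X ∧ X ^ 2 = j + G + α :=
    ⟨_, Real.sqrt_pos.2 p1, Real.sq_sqrt p1.le⟩
  obtain ⟨Y, Y0, hY⟩ : ∃ X : ℝ, 0 < X ∧ X ^ 2 = j + G + β :=
    ⟨_, Real.sqrt_pos.2 p2, Real.sq_sqrt p2.le⟩
  obtain ⟨Z, Z0, hZ⟩ : ∃ X : ℝ, 0 < X ∧ X ^ 2 = j :=
    ⟨_, Real.sqrt_pos.2 p3, Real.sq_sqrt p3.le⟩
  obtain ⟨W, W0, hW⟩ : ∃ X : ℝ, 0 < X ∧ X ^ 2 = α + β - 4 * G - 3 * j :=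
    ⟨_, Real.sqrt_pos.2 p4, Real.sq_sqrt p4.le⟩
  have f3 : r * W = Z * (2 * j + 3 * G) := by
    apply (pow_left_inj₀ (by positivity) (by positivity) two_ne_zero).1
    rw [mul_pow, mul_pow, hW, hZ, er]
  have f2 : s * W = Y * (2 * j + 2 * G - β) := by
    apply (pow_left_inj₀ (by positivity) (by positivity) two_ne_zero).1
    rw [mul_pow, mul_pow, hW, hY, es]
  have f1 : t * W = X * (α - 2 * G - 2 * j) := by
    apply (pow_left_inj₀ (by positivity) (by positivity) two_ne_zero).1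
    rw [mul_pow, mul_pow, hW, hX, et]
  obtain ⟨xw, exw⟩ : ∃ z : ℤ, X * W = z :=
    int_of_real (n := (j + G + α) * (α + β - 4 * G - 3 * j)) (q := t)
      (p := (j + G + α) * (α - 2 * G - 2 * j)) (by push_cast; rw [mul_pow, hX, hW]) tp.ne'
      (by push_cast; linear_combination X * f1 + (α - 2 * G - 2 * j) * hX)
  obtain ⟨yw, eyw⟩ : ∃ z : ℤ, Y * W = z :=
    int_of_real (n := (j + G + β) * (α + β - 4 * G - 3 * j)) (q := s)
      (p := (j + G + β) * (2 * j + 2 * G - β)) (by push_cast; rw [mul_pow, hY, hW]) sp.ne'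
      (by push_cast; linear_combination Y * f2 + (2 * j + 2 * G - β) * hY)
  obtain ⟨zw, ezw⟩ : ∃ z : ℤ, Z * W = z :=
    int_of_real (n := j * (α + β - 4 * G - 3 * j)) (q := r)
      (p := j * (2 * j + 3 * G)) (by push_cast; rw [mul_pow, hZ, hW]) rp.ne'
      (by push_cast; linear_combination Z * f3 + (2 * j + 3 * G) * hZ)
  obtain ⟨xy, exy⟩ : ∃ z : ℤ, X * Y = z :=
    int_of_real (n := (j + G + α) * (j + G + β)) (q := α + β - 4 * G - 3 * j)
      (p := xw * yw) (by push_cast; rw [mul_pow, hX, hY]) hn.ne'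
      (by push_cast; rw [← exw, ← eyw, ← hW]; ring)
  refine ⟨X, Y, Z, W, X0, Y0, Z0, W0, hX, hY, hZ, hW, f3, f2, f1, ⟨xy, exy⟩, ?_, ?_, ⟨xw, exw⟩,
    ⟨yw, eyw⟩, ⟨zw, ezw⟩, ?_⟩
  · exact int_of_real (n := (j + G + α) * j) (q := α + β - 4 * G - 3 * j)
      (p := xw * zw) (by push_cast; rw [mul_pow, hX, hZ]) hn.ne'
      (by push_cast; rw [← exw, ← ezw, ← hW]; ring)
  · exact int_of_real (n := (j + G + β) * j) (q := α + β - 4 * G - 3 * j)
      (p := yw * zw) (by push_cast; rw [mul_pow, hY, hZ]) hn.ne'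
      (by push_cast; rw [← eyw, ← ezw, ← hW]; ring)
  · refine int_of_real (n := j ^ 2 + 2 * j * G + r ^ 2) (q := α + β - 4 * G - 3 * j)
      (p := xy * zw) ?_ hn.ne' ?_
    · push_cast
      rw [div_pow, mul_pow, mul_pow, hX, hY, hZ, hW, div_eq_iff p4.ne']
      linear_combination -er + j * h4
    · push_cast
      rw [← exy, ← ezw, ← hW]
      field_simp

end Dat

/-- a form in three roots with pairwise integral products has an integral square -/
theorem form_sq {X Y Z : ℝ} {x y z : ℤ} (hX : X ^ 2 = x) (hY : Y ^ 2 = y) (hZ : Z ^ 2 = z)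
    (h1 : ∃ n : ℤ, X * Y = n) (h2 : ∃ n : ℤ, X * Z = n) (h3 : ∃ n : ℤ, Y * Z = n) (g1 g2 g3 : ℤ) :
    ∃ n : ℤ, (g1 * X + g2 * Y + g3 * Z) ^ 2 = n := by
  obtain ⟨u, hu⟩ := h1
  obtain ⟨v, hv⟩ := h2
  obtain ⟨w, hw⟩ := h3
  refine ⟨g1 ^ 2 * x + g2 ^ 2 * y + g3 ^ 2 * z + 2 * g1 * g2 * u + 2 * g1 * g3 * v +
    2 * g2 * g3 * w, ?_⟩
  push_cast
  rw [← hX, ← hY, ← hZ, ← hu, ← hv, ← hw]
  ring

theorem no_int_between {u : ℝ} {n m : ℤ} (h : u = n) (h0 : (m : ℝ) < u) (h1 : u < m + 1) :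
    False := by
  rw [h] at h0 h1
  have a1 : m < n := by exact_mod_cast h0
  have a2 : n < m + 1 := by exact_mod_cast h1
  omega

end Pool.Agent.Lib.MP_b2ee0b_nt
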