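import Pool.Agent.Lib.MP_b2ee0b_nt.BA

/-! Corner where the middle entry is very large with respect to the smallest one. -/

namespace Pool.Agent.Lib.MP_b2ee0b_nt

theorem Dat.r_le_G {a b c r s t α β G τ k d : ℤ} (D : Dat a b c r s t α β G τ k d) : 4 ≤ τ := by
  have h5 := iso_five_le (mul_pos D.ha (by linarith [D.ha, D.hab])) D.r0 D.hr
  have hr := D.hr
  have h1 := D.h1
  have hτ := D.hτ
  have hG := D.hG
  have r0 := D.r0
  have r3 : 3 ≤ r := by nlinarith
  by_contra g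
  have g0 : G < r := by nlinarith
  have : G ^ 2 ≤ (r - 1) ^ 2 := by gcongr; omega
  nlinarith

/-- integer form: the number `2 (2 t - 2 α + β - G) - a u` lies strictly between `-1` and `0` -/
theorem cornerD_int {a b c r s t α β G τ k d : ℤ} (D : Dat a b c r s t α β G τ k d)
    (hd : 2 * d = 2 * (a + b + c) + a * b * c - r * s * t) (H1 : 3 * (β - G) ^ 2 ≤ 2 * t)
    (H2 : a ^ 2 + a * d + 8 < (β - G) ^ 2) : False := by
  obtain ⟨d', u, v, w, hd', hu, -, -, qu, -, -⟩ := down D.hr D.hs D.ht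
  obtain rfl : d = d' := by omega
  have ha := D.ha
  have hab := D.hab
  have hbc := D.hbc
  have t0 := D.t0
  have u0 : 0 ≤ u := by
    have : a * t ≤ r * s := by
      apply le_of_pow_le_pow_left₀ two_ne_zero (mul_nonneg D.r0 D.s0)
      have : (r * s) ^ 2 = (a * t) ^ 2 + 4 * (a * b + a * (c - a) + 4) := by
        linear_combination s ^ 2 * D.hr + (a * b + 4) * D.hs - a ^ 2 * D.ht
      have h1 : 0 < a * b := mul_pos ha (by omega)
      have h2 : 0 < a * (c - a) := mul_pos ha (by omega)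
      linarith
    linarith
  have tα : t ≤ α := by
    apply le_of_pow_le_pow_left₀ two_ne_zero D.hα.le
    linarith [D.ht, D.h3, D.r_le_G]
  obtain ⟨g, hg⟩ : ∃ g, g = 2 * t - 2 * α + (β - G) := ⟨_, rfl⟩
  have e : 4 * t * (2 * g - a * u) = 2 * g ^ 2 + 4 * a ^ 2 + 4 * u ^ 2 + 16 - 6 * (β - G) ^ 2 := by
    rw [hg]
    linear_combination -(2 * u + a * t + r * s) * hu - s ^ 2 * D.hr - (a * b + 4) * D.hs +
      (8 + a ^ 2) * D.ht - 8 * D.h3 + 4 * D.h1 + 4 * D.h2 + 8 * D.h4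
  have tp : 0 < t := by nlinarith [sq_nonneg a, mul_pos ha D.hd]
  have F0 : 0 ≤ 2 * g - a * u := by
    by_contra x
    have : 4 * t * (2 * g - a * u) ≤ 4 * t * (-1) := by gcongr; omega
    nlinarith [sq_nonneg g, sq_nonneg a, sq_nonneg u]
  have g0 : 0 ≤ g := by nlinarith [mul_nonneg ha.le u0]
  have g1 : g ^ 2 ≤ (β - G) ^ 2 := by gcongr; omega
  have : 0 ≤ 4 * t * (2 * g - a * u) := by positivity
  linarith

/-- no counterexample in the corner `r ^ 2 e ^ 5 ≤ 2 q` -/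
theorem cornerD {a b c r s t α β G τ j d : ℤ} (D : Dat a b c r s t α β G τ (2 * j) d)
    (hd : 2 * d = 2 * (a + b + c) + a * b * c - r * s * t) {e q : ℝ} (he : e * (α - G) = G)
    (hq : q * G = 2 * j) (H0 : 4 * e ≤ 1) (H : (r : ℝ) ^ 2 * e ^ 5 ≤ 2 * q) : False := by
  obtain ⟨x, x0, hx⟩ := D.qa
  have ad : (5 : ℝ) ≤ a * d := by exact_mod_cast iso_five_le (mul_pos D.ha D.hd) x0 hx
  have l1 := D.lt_G
  have l2 := D.lt_βα
  have G0 : (0 : ℝ) < G := by exact_mod_cast D.hG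
  have j0 : (0 : ℝ) < j := by exact_mod_cast D.jpos
  have r0 : (0 : ℝ) < r := by exact_mod_cast D.rpos
  have t0 : (0 : ℝ) < t := by exact_mod_cast D.tpos
  have a1 : (1 : ℝ) ≤ a := by exact_mod_cast D.ha
  have ab : (a : ℝ) < b := by exact_mod_cast D.hab
  have bc : (6 : ℝ) * b < c := by exact_mod_cast D.six
  have d0 : (0 : ℝ) < d := by exact_mod_cast D.hd
  have T0 : (0 : ℝ) < α - G := by exact_mod_cast (by omega : 0 < α - G)
  have hc : (a : ℝ) * b * d + a + b + d < c := by exact_mod_cast D.hc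
  have h4 : (α : ℝ) * β = G * (α + β) := by exact_mod_cast D.h4
  have er : (r : ℝ) ^ 2 * (α + β - 4 * G - 3 * j) = j * (2 * j + 3 * G) ^ 2 := by
    exact_mod_cast D.er
  have e1 : (β : ℝ) ^ 2 - G ^ 2 = a * (c - b) := by
    exact_mod_cast (by linear_combination D.h2 - D.h1 : β ^ 2 - G ^ 2 = a * (c - b))
  have e2 : (α : ℝ) ^ 2 - G ^ 2 = b * (c - a) := by
    exact_mod_cast (by linear_combination D.h3 - D.h1 : α ^ 2 - G ^ 2 = b * (c - a))
  have e3 : (t : ℝ) ^ 2 = α ^ 2 - G ^ 2 + r ^ 2 := by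
    exact_mod_cast (by linear_combination D.ht - D.hr - D.h3 + D.h1 : t ^ 2 = α ^ 2 - G ^ 2 + r ^ 2)
  suffices h : (3 : ℝ) * (β - G) ^ 2 ≤ 2 * t ∧ (a : ℝ) ^ 2 + a * d + 8 < (β - G) ^ 2 from
    cornerD_int D hd (by exact_mod_cast h.1) (by exact_mod_cast h.2)
  clear D hd hx l1 l2
  generalize (a : ℝ) = a, (b : ℝ) = b, (c : ℝ) = c, (r : ℝ) = r, (t : ℝ) = t,
    (α : ℝ) = α, (β : ℝ) = β, (G : ℝ) = G, (j : ℝ) = j, (d : ℝ) = d at *
  have e0 : 0 < e := by
    by_contra g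
    have : e * (α - G) ≤ 0 := mul_nonpos_of_nonpos_of_nonneg (not_lt.1 g) T0.le
    linarith
  have hβ : β = G * (1 + e) := by
    apply mul_right_cancel₀ T0.ne'
    linear_combination h4 - G * he
  have hα : e * α = G * (1 + e) := by linear_combination he
  subst hβ
  constructor
  · have u1 : e * (α + G * (1 + e) - 4 * G) = G * (1 - e) ^ 2 := by linear_combination hα
    have u2 : j * (3 * G) ^ 2 ≤ r ^ 2 * (α + G * (1 + e) - 4 * G) := by
      have w1 : j * (3 * G) ^ 2 ≤ j * (2 * j + 3 * G) ^ 2 := by gcongr; linarith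
      have w2 : 0 < r ^ 2 * j := by positivity
      linarith
    have u3 : e * (j * (3 * G) ^ 2) ≤ e * (r ^ 2 * (α + G * (1 + e) - 4 * G)) := by gcongr
    have u4 : (1 - e) ^ 2 ≤ 1 := by nlinarith only [e0, H0]
    have u5 : r ^ 2 * (G * (1 - e) ^ 2) ≤ r ^ 2 * (G * 1) := by gcongr
    have u6 : 9 * e * j * G ≤ r ^ 2 := by
      apply le_of_mul_le_mul_right _ G0
      have : e * (r ^ 2 * (α + G * (1 + e) - 4 * G)) = r ^ 2 * (G * (1 - e) ^ 2) := by
        linear_combination r ^ 2 * u1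
      linarith
    have u7 : 9 * e * j * G * e ^ 5 ≤ r ^ 2 * e ^ 5 := by gcongr
    have u8 : (3 * G * e ^ 3) ^ 2 ≤ 2 ^ 2 := by
      apply le_of_mul_le_mul_right _ j0
      have w : 9 * e * j * G * e ^ 5 * G ≤ 2 * q * G :=
        mul_le_mul_of_nonneg_right (u7.trans H) G0.le
      linarith
    have u9 : 3 * G * e ^ 3 ≤ 2 := le_of_pow_le_pow_left₀ two_ne_zero (by norm_num) u8
    have u10 : G ≤ e * t := by
      apply le_of_pow_le_pow_left₀ two_ne_zero (by positivity)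
      have w1 : (e * t) ^ 2 = G ^ 2 + (2 * e * G ^ 2 + e ^ 2 * r ^ 2) := by
        linear_combination e ^ 2 * e3 + (e * α + G * (1 + e)) * hα
      have w2 : 0 ≤ 2 * e * G ^ 2 + e ^ 2 * r ^ 2 := by positivity
      linarith
    apply le_of_mul_le_mul_left _ e0
    have w : 3 * G * e ^ 3 * G ≤ 2 * G := by gcongr
    linarith
  · have a0 : 0 < a := by linarith
    have b0 : 0 < b := by linarith
    have c0 : 0 < c := by linarith
    have u1 : e ^ 3 * (2 + e) * (b * (c - a)) = (1 + 2 * e) * (a * (c - b)) := by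
      rw [← e1, ← e2]
      linear_combination e * (2 + e) * (e * α + G * (1 + e)) * hα
    have u2 : 5 * a ≤ 12 * e ^ 3 * b := by
      apply le_of_mul_le_mul_right (a := (1 + 2 * e) * c) _ (by positivity)
      have w0 : 0 < c - a := by linarith
      have w1 : e ^ 3 * (2 + e) * (b * (c - a)) ≤ e ^ 3 * (2 * (1 + 2 * e)) * (b * c) := by
        gcongr <;> linarith
      have w2 : (1 + 2 * e) * (a * (5 / 6 * c)) ≤ (1 + 2 * e) * (a * (c - b)) := by
        gcongr
        linarith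
      linarith
    have u3 : 20 * a ≤ 3 * (e * b) := by
      have w1 : e ^ 2 ≤ (1 / 4) ^ 2 := by gcongr; linarith
      have w2 : e ^ 2 * (e * b) ≤ (1 / 4) ^ 2 * (e * b) := by gcongr
      linarith
    have u4 : e * (a * (a * b * d)) ≤ e * (a * (c - b)) := by gcongr; linarith
    have u5 : (G * e) ^ 2 * (2 + e) ≤ (G * e) ^ 2 * (9 / 4) := by gcongr; linarith
    have u6 : a ^ 2 * d * (20 * a) ≤ a ^ 2 * d * (3 * (e * b)) := by gcongr
    have u7 : e * (a * (c - b)) = (G * e) ^ 2 * (2 + e) := by linear_combination -e * e1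
    have u8 : a ^ 2 * 5 ≤ a ^ 2 * (a * d) := by gcongr
    have u9 : 1 * (a * d) ≤ a ^ 2 * (a * d) := by gcongr; exact one_le_pow₀ a1
    linarith

end Pool.Agent.Lib.MP_b2ee0b_nt
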