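import Pool.Agent.Lib.MP_b2ee0b_nt.TMh

/-! The check of one integral form on a polyhedral region. -/

set_option autoImplicit false

namespace Pool.Agent.Lib.MP_b2ee0b_nt.TM

open Finset

def smq (bs : List Bas) (a b c o : ℤ) (x y : ℕ) : Bool :=
  match ubm bs a b c o with
  | some r => Nat.ble (r * y) (Nat.shiftLeft x 2038)
  | none => false

def om (bs : List Bas) (me mq : ℕ) (n1 n2 n3 o1 : ℤ) : Bool :=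
  smq bs 0 12 0 0 me 1024 && smq bs 0 0 12 0 mq 1024 && Nat.ble me 600 && Nat.ble mq 256 &&
  smq bs 0 0 0 n1 ((4096 + 2 * me) * (1024 - me) ^ 2) (1024 ^ 3) &&
  smq bs 0 0 0 n2 ((2048 + 4 * me) * (1024 ^ 2 - me * (1024 + mq)) ^ 2) (1024 ^ 5) &&
  smq bs 0 0 0 (-n3) (1024 ^ 2) ((3072 + mq) ^ 2) &&
  smq bs 0 0 0 o1 (9 * 1024 ^ 3) ((4096 + mq) * (1024 + mq) ^ 2)

def mos : List (ℤ × ℤ × ℤ) := [(0, 0, 0), (-1, 0, -1), (-1, 0, -1), (-1, 0, -1), (-1, 0, -1),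
  (-1, -1, 0), (-1, 0, 0), (-1, -1, -1), (-1, 0, -1), (-1, -1, 0), (-1, 0, 0), (-1, -1, -1)]

def vT (c : Cfg) (r : List T) (t : ℕ × ℕ × ℕ) : T :=
  match mos.getD t.1 0, mos.getD t.2.1 0 with
  | (a, b, d), (a', b', d') => frc (mon c (a + a') (b + b') (d + d') 0) fun m =>
    frc (gt r t.2.2) fun s => mul c m s

def al0 (c : Cfg) (t : T) : T := frc t fun t => al c 0 0 0 0 1 c.D t

def mkK {α : Type} (c : Cfg) (r : List T) : List (ℕ × ℕ × ℕ) → (List T → α) → α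
  | [], k => k []
  | t :: l, k => frc (r.getD (t.1 + 4) bad) fun s => frc (r.getD (t.2.1 + 4) bad) fun u =>
    frc (al0 c (mul c s u)) fun w => mkK c r l fun ks => k (w :: ks)

def xok (t : T) : Bool := t.ok && Nat.beq t.K 0 && Nat.beq t.d2 0

structure Fm where
  c : Cfg
  c' : Cfg
  h : ℕ
  g : ℕ
  pe : ℕ
  pq : ℕ
  nh : ℕ
  zb : ℤ
  zo : ℤ
  pr : List Ins
  tr : List (ℕ × ℕ × ℕ)
  c1 : ℤ
  c2 : ℕ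
  bn : ℕ
  n : ℕ
  m1 : ℕ
  m2 : ℕ
  dn : ℕ
  w0 : ℕ
  w1 : ℕ
  w2 : ℕ
  D : ℕ
  u5 : ℕ
  km : ℕ
  ds : List (ℕ × ℕ × ℕ)

def Fm.ok (F : Fm) : Bool :=
  decide (F.c.g = 2) && F.c.sg && decide (1 ≤ F.c.E) && decide (F.c.E ≤ F.c.E0) &&
  decide (F.c'.g = 1) && F.c'.sg && decide (1 ≤ F.c'.E) && decide (F.c'.E ≤ F.c'.E0) &&
  decide (F.c'.W2 = 1) && decide (1 ≤ F.c'.kb) && decide (F.h * F.zb = 12) &&
  decide (F.h * F.zo = -256 * (F.pe + 1)) && decide (0 < F.c2) && decide (F.bn ≤ F.c1 % F.c2) &&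
  decide (F.bn ≤ F.c2 - F.c1 % F.c2) && decide (F.D ≤ F.w0 * F.ds.length) && decide (0 < F.D)

def hvy {α : Type} (F : Fm) (k : List PB → ℕ → Bool → α) : α :=
  atoms F.c fun r => runT F.c (fun r => fN F.ds.length fun J => fN (F.c.H3 J) fun H =>
  prps F.c (-(2 * F.n)) (-(2 * F.m1)) (-(2 * F.m2)) 0 F.dn J H
    (dv F.c2 (cst F.c (-F.c1)) :: F.tr.map (vT F.c r)) fun Xs Kt o1 =>
  kaps F.c' F.h F.g F.pe F.pq F.nh fun r => mkK F.c' r ((0, 0, 0) :: F.tr) fun ks =>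
  frc (al0 F.c' (r.getD 0 bad)) fun n1 => frc (al0 F.c' (r.getD 1 bad)) fun d1 =>
  frc (al0 F.c' (r.getD 2 bad)) fun n2 => frc (al0 F.c' (r.getD 3 bad)) fun d2 =>
  fN (max n1.M d1.M) fun M1 => fN (max n1.d1 d1.d1) fun u1 =>
  fN (max n2.M d2.M) fun M2 => fN (max n2.d1 d2.d1) fun u2 =>
  blkBs F.c F.c' F.w0 F.w1 F.w2 F.D n1.N d1.N n2.N d2.N M1 u1 M2 u2 F.u5 1 F.km ks Xs F.ds 0
    fun ps o2 => fB (o1 && o2 && xok n1 && xok d1 && xok n2 && xok d2 &&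
      ks.all (kok 1 F.u5 0 F.km F.c') && F.ok) fun o => k ps Kt o) F.pr r

def leafF (F : Fm) (ps : List PB) (Kt : ℕ) (_ : ℕ) (d : List ℤ) (bs : List Bas) : Bool :=
  match d with
  | [me, mq, n1, n2, n3, o1, B] =>
    fZ (-(F.g * F.zb)) fun xb => fZ (-256 * (F.pq + 1) - F.g * F.zo) fun xo =>
    fZ (-12 * F.n) fun a => fZ (-36 * F.m2 - 24) fun b => fZ (-12 * (F.m1 + F.m2)) fun d =>
    fZ (-(F.m1 * o1) - F.m2 * 555 - 2 * (n2 + 661)) fun o =>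
    om bs me.toNat mq.toNat n1 n2 n3 o1 && Nat.ble me.toNat 256 && smq bs 12 0 0 0 1 F.c.E0 &&
    smq bs 0 F.zb 0 F.zo 1 F.c'.E0 && lpb bs 0 xb 12 (-xo) && lpb bs (-a) (-b) (-d) (o + B) &&
    lpb bs (12 * F.D + F.w0 * a) (F.w0 * b) (F.w0 * d) (-(F.w0 * (o + B))) &&
    lpb bs (F.w1 * a) (F.w1 * b) (12 * F.D + F.w1 * d) (-(F.w1 * (o + B)) - F.D * (n3 - n1)) &&
    lpb bs (F.w2 * a) (36 * F.D + F.w2 * b) (12 * F.D + F.w2 * d)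
      (-(F.w2 * (o + B)) - F.D * (n3 - n2)) &&
    match totB F.c' (Nat.shiftLeft (F.bn * F.dn) 2090 / F.c2) bs ps 0 xb 12 xo 0 F.zb 0 F.zo n1 n2 a b d o, ubm bs 0 0 0 (-B) with
    | some r1, some r2 => Nat.blt (F.c2 * (r1 + Nat.shiftLeft (F.km * Kt * r2) 64))
      (Nat.shiftLeft (Nat.shiftLeft (F.bn * F.dn) 64) 2038)
    | _, _ => false
  | _ => false

def chkF (F : Fm) (t : Tr) (G : List Gn) : Bool :=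
  hvy F fun ps Kt o => o && chkT (leafF F ps Kt) (fun _ _ => []) t G

def cases : List (List (ℤ × ℤ × ℤ × ℤ)) := [
  [(-1, -1, 1, 0), (3, 1, 1, 65), (1, 3, 1, 65), (2, -1, 2, 65),
    (-1, 2, 2, 65), (-2, -3, 4, 65), (-3, -2, 4, 65)],
  [(-1, 1, -1, 0), (3, 1, 1, 65), (1, 1, 3, 65), (2, 2, -1, 65),
    (-1, 2, 2, 65), (-2, 4, -3, 65), (-3, 4, -2, 65)],
  [(1, -1, -1, 0), (1, 3, 1, 65), (1, 1, 3, 65), (2, 2, -1, 65),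
    (2, -1, 2, 65), (4, -2, -3, 65), (4, -3, -2, 65)],
  [(-1, 1, 0, 0), (-1, 0, 1, 0), (0, -1, 1, -2), (0, 1, -1, -2),
    (4, 3, 0, 81), (4, 0, 3, 81)],
  [(1, -1, 0, 0), (0, -1, 1, 0), (-1, 0, 1, -2), (1, 0, -1, -2),
    (3, 4, 0, 81), (0, 4, 3, 81)],
  [(1, 0, -1, 0), (0, 1, -1, 0), (-1, 1, 0, -2), (1, -1, 0, -2),
    (3, 0, 4, 81), (0, 3, 4, 81)]]

noncomputable def mv (r s t : ℝ) (p : ℤ × ℤ × ℤ) : ℝ := (1 / r) ^ p.1 * (r / s) ^ p.2.1 * (r / t) ^ p.2.2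

/-- everything that the covering argument uses -/
structure Cx (e q : ℝ) where
  a : ℤ
  b : ℤ
  c : ℤ
  r : ℤ
  s : ℤ
  t : ℤ
  d : ℤ
  ρ : ℤ
  y : ℤ
  θ : ℤ
  f : ℤ
  Θ : ℝ
  τ : List ℤ
  ha : 0 < a
  hb : 0 < b
  hc : 0 < c
  r0 : 0 < r
  s0 : 0 < s
  t0 : 0 < t
  d0 : 0 < d
  f0 : 0 < f
  hr : r ^ 2 = a * b + 4
  hs : s ^ 2 = a * c + 4
  ht : t ^ 2 = b * c + 4
  hd : 2 * d = 2 * (a + b + c) + a * b * c - r * s * t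
  hρ : 2 * ρ = r * s - a * t
  hy : 2 * y = r * t - b * s
  hθ : 2 * θ = ρ * y - d * r
  hw : r * s * t ≤ 2 * (a * b * c)
  rs : r ≤ s
  rt : r ≤ t
  r8 : 8 ≤ r
  e0 : 0 < e
  q0 : 0 < q
  e1 : e ≤ 13 / 25
  q1 : q ≤ 1 / 4
  y1 : r ^ 2 * (A1 e q * D2 e q ^ 2) = s ^ 2 * (q * D3 q ^ 2)
  y2 : r ^ 2 * (A0 e q * D1 e q ^ 2) = t ^ 2 * (e ^ 3 * q * D3 q ^ 2)
  T0 : 0 ≤ Θ
  T2 : Θ ^ 2 = N0 e q * A0 e q
  tau : ∀ i, (τ.getD i 0 : ℤ) * Dk e q = mv r s t (mos.getD i 0) * (kap e q Θ).getD i 0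
  k1 : a ^ 2 * t ^ 2 ≤ r ^ 2 * s ^ 2
  k2 : (r ^ 2 - 4) ^ 2 * s ^ 2 ≤ a ^ 2 * t ^ 2 * r ^ 2
  k3 : a * d * r ^ 2 ≤ s ^ 2
  k4 : s ^ 2 ≤ (a * d + 4) * r ^ 2
  k5 : 5 ≤ a * d
  k6 : d * f * s ^ 2 ≤ t ^ 2
  k7 : 10 * t ^ 2 ≤ 17 * (d * f * s ^ 2)
  cA : r ^ 2 * (4300 * q ^ 3 + 50000 * q * (1 / (r : ℝ) ^ 2)) ^ 4 ≤ 774840978 * q ^ 7 * e ^ 13 → False
  cD : 4 * e ≤ 1 → r ^ 2 * e ^ 5 ≤ 2 * q → False
  fin : ∃ cs ∈ cases, ∀ m ∈ cs, (2 : ℝ) ^ m.2.2.2 ≤ (a : ℝ) ^ m.1 * (d : ℝ) ^ m.2.1 * (f : ℝ) ^ m.2.2.1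

end Pool.Agent.Lib.MP_b2ee0b_nt.TM
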