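import Pool.Agent.Lib.MP_b2ee0b_nt.FinZ
import Pool.Agent.Lib.MP_b2ee0b_nt.CD
import Pool.Agent.Lib.MP_b2ee0b_nt.TMi

/-! From the arithmetic data to the data of the covering argument. -/

namespace Pool.Agent.Lib.MP_b2ee0b_nt

open TM

namespace Br

theorem zp {a d f : ℤ} (a0 : 0 < a) (d0 : 0 < d) (f0 : 0 < f) {i j k n : ℤ}
    (h : 2 ^ n.toNat * (a ^ (-i).toNat * d ^ (-j).toNat * f ^ (-k).toNat) ≤
      2 ^ (-n).toNat * (a ^ i.toNat * d ^ j.toNat * f ^ k.toNat)) :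
    (2 : ℝ) ^ n ≤ (a : ℝ) ^ i * (d : ℝ) ^ j * (f : ℝ) ^ k := by
  have e : ∀ (x : ℝ) (p : ℤ), 0 < x → x ^ p = x ^ p.toNat / x ^ (-p).toNat := fun x p hx => by
    rw [← zpow_natCast, ← zpow_natCast, ← zpow_sub₀ hx.ne', Int.toNat_sub_toNat_neg]
  have a1 : (0 : ℝ) < a := by exact_mod_cast a0
  have d1 : (0 : ℝ) < d := by exact_mod_cast d0
  have f1 : (0 : ℝ) < f := by exact_mod_cast f0
  rw [e _ _ two_pos, e _ _ a1, e _ _ d1, e _ _ f1, div_mul_div_comm, div_mul_div_comm,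
    div_le_div_iff₀ (by positivity) (by positivity), mul_comm _ ((2 : ℝ) ^ (-n).toNat)]
  exact_mod_cast h

def RM (M u v w : ℤ) : Prop :=
  u ≤ v ∧ u ≤ w ∧ v ≤ 4 * w ∧ w ≤ 4 * v ∧ M ≤ u ^ 4 * v ^ 3 ∧ M ≤ u ^ 4 * w ^ 3

theorem RM.symm {M u v w : ℤ} (h : RM M u v w) : RM M u w v :=
  ⟨h.2.1, h.1, h.2.2.2.1, h.2.2.1, h.2.2.2.2.2, h.2.2.2.2.1⟩

theorem rm {M u v w : ℤ} (u0 : 0 < u) (v0 : 0 < v) (h : Reg M u v w) : RM M u v w ∨ RM M v u w := by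
  obtain ⟨h1, h2, h3, -, -, h4, h5, -⟩ := h
  rcases le_total u v with g | g
  · exact Or.inl ⟨g, h1.le, by omega, by omega, h4, h4.trans (by gcongr)⟩
  · exact Or.inr ⟨g, h2.le, by omega, by omega, by linarith, (mul_comm (u ^ 3) _ ▸ h5).trans (by gcongr)⟩

theorem six {a d f : ℤ} (a0 : 0 < a) (d0 : 0 < d) (f0 : 0 < f)
    (h : Reg (2 ^ 81) a d f ∨ Reg (2 ^ 81) a f d ∨ Reg (2 ^ 81) d f a ∨
      Irr (2 ^ 65) a d f ∨ Irr (2 ^ 65) a f d ∨ Irr (2 ^ 65) d f a) :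
    Irr (2 ^ 65) a d f ∨ Irr (2 ^ 65) a f d ∨ Irr (2 ^ 65) d f a ∨
      RM (2 ^ 81) a d f ∨ RM (2 ^ 81) d a f ∨ RM (2 ^ 81) f a d := by
  rcases h with h | h | h | h
  · have := rm a0 d0 h
    tauto
  · have := (rm a0 f0 h).imp_left RM.symm
    tauto
  · have := (rm d0 f0 h).imp RM.symm RM.symm
    tauto
  · tauto

theorem mono {a d f : ℤ} (a0 : 0 < a) (d0 : 0 < d) (f0 : 0 < f)
    (h : Irr (2 ^ 65) a d f ∨ Irr (2 ^ 65) a f d ∨ Irr (2 ^ 65) d f a ∨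
      RM (2 ^ 81) a d f ∨ RM (2 ^ 81) d a f ∨ RM (2 ^ 81) f a d) : ∃ cs ∈ cases, ∀ m ∈ cs,
      (2 : ℝ) ^ m.2.2.2 ≤ (a : ℝ) ^ m.1 * (d : ℝ) ^ m.2.1 * (f : ℝ) ^ m.2.2.1 := by
  simp only [cases, List.mem_cons, List.not_mem_nil, or_false, exists_eq_or_imp, exists_eq_left,
    forall_eq_or_imp, forall_eq]
  rcases h with ⟨h1, h2, h3, h4, h5, h6, h7⟩ | ⟨h1, h2, h3, h4, h5, h6, h7⟩ |
    ⟨h1, h2, h3, h4, h5, h6, h7⟩ | ⟨h1, h2, h3, h4, h5, h6⟩ | ⟨h1, h2, h3, h4, h5, h6⟩ |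
    ⟨h1, h2, h3, h4, h5, h6⟩
  on_goal 1 => refine Or.inl ⟨?_, ?_, ?_, ?_, ?_, ?_, ?_⟩
  on_goal 8 => refine Or.inr (Or.inl ⟨?_, ?_, ?_, ?_, ?_, ?_, ?_⟩)
  on_goal 15 => refine Or.inr (Or.inr (Or.inl ⟨?_, ?_, ?_, ?_, ?_, ?_, ?_⟩))
  on_goal 22 => refine Or.inr (Or.inr (Or.inr (Or.inl ⟨?_, ?_, ?_, ?_, ?_, ?_⟩)))
  on_goal 28 => refine Or.inr (Or.inr (Or.inr (Or.inr (Or.inl ⟨?_, ?_, ?_, ?_, ?_, ?_⟩))))
  on_goal 34 => refine Or.inr (Or.inr (Or.inr (Or.inr (Or.inr ⟨?_, ?_, ?_, ?_, ?_, ?_⟩))))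
  all_goals
    apply zp a0 d0 f0
    simp only [Int.reduceNeg, neg_neg, neg_zero, Int.reduceToNat]
    linarith

theorem big {a d f m : ℤ} (a0 : 0 < a) (d0 : 0 < d) (f0 : 0 < f) (h1 : a ≤ m) (h2 : d ≤ m) (h3 : f ≤ m)
    (h : Irr (2 ^ 65) a d f ∨ Irr (2 ^ 65) a f d ∨ Irr (2 ^ 65) d f a ∨
      RM (2 ^ 81) a d f ∨ RM (2 ^ 81) d a f ∨ RM (2 ^ 81) f a d) : 512 ≤ m := by
  have k1 : ∀ u v w : ℤ, 0 < u → 0 < v → 0 < w → u ≤ m → v ≤ m → w ≤ m → Irr (2 ^ 65) u v w →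
      512 ≤ m := fun u v w _ _ _ _ _ _ g => by
    by_contra c
    have : u ^ 3 * v * w ≤ 512 ^ 3 * 512 * 512 := by gcongr <;> omega
    linarith [g.m1]
  have k2 : ∀ u v w : ℤ, 0 < u → 0 < v → u ≤ m → v ≤ m → RM (2 ^ 81) u v w →
      512 ≤ m := fun u v w _ _ _ _ g => by
    by_contra c
    have : u ^ 4 * v ^ 3 ≤ 512 ^ 4 * 512 ^ 3 := by gcongr <;> omega
    linarith [g.2.2.2.2.1]
  rcases h with h | h | h | h | h | h
  exacts [k1 _ _ _ a0 d0 f0 h1 h2 h3 h, k1 _ _ _ a0 f0 d0 h1 h3 h2 h, k1 _ _ _ d0 f0 a0 h2 h3 h1 h,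
    k2 _ _ _ a0 d0 h1 h2 h, k2 _ _ _ d0 a0 h2 h1 h, k2 _ _ _ f0 a0 h3 h1 h]

theorem sum_le {u v w : ℤ} (u0 : 0 < u) (v0 : 0 < v) (h : 5 ≤ u * v) (hw : 512 ≤ w) :
    4 * (u + v + w) + 8 ≤ u * v * w := by
  have k1 : 5 * w ≤ u * v * w := by gcongr
  have k2 : u * 1 * 512 ≤ u * v * w := by gcongr; omega
  have k3 : 1 * v * 512 ≤ u * v * w := by gcongr; omega
  omega

theorem taus {e q G r s t X Y Z W Θ : ℝ} (e0 : 0 < e) (G0 : 0 < G) (W0 : 0 < W) (r0 : 0 < r)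
    (s0 : 0 < s) (t0 : 0 < t) (hX : 2 * e * X ^ 2 = G * A0 e q) (hZ : 2 * Z ^ 2 = G * q)
    (hW : 2 * e * W ^ 2 = G * N0 e q) (f3 : r * W = Z * G * D3 q) (f2 : s * W = Y * G * D2 e q)
    (f1 : e * t * W = X * G * D1 e q) (hΘ : Θ * G = 2 * e * X * W) (i : ℕ) :
    [1, G / e, G, e * G, Z ^ 2, X * Y, X * Z, Y * Z, X * W, Y * W, Z * W, X * Y * Z / W].getD i 0 *
      Dk e q = mv r s t (mos.getD i 0) * (kap e q Θ).getD i 0 := by
  have m1 : mv r s t (0, 0, 0) = 1 := by simp [mv]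
  have m2 : mv r s t (-1, 0, -1) = t := by simp only [mv]; field_simp
  have m3 : mv r s t (-1, -1, 0) = s := by simp only [mv]; field_simp
  have m4 : mv r s t (-1, 0, 0) = r := by simp only [mv]; field_simp
  have m5 : mv r s t (-1, -1, -1) = s * t / r := by simp only [mv]; field_simp
  have ZD : Z * G * D3 q ≠ 0 := by rw [← f3]; positivity
  have Z0 : Z ≠ 0 := fun h => ZD (by rw [h]; ring)
  have D0 : D3 q ≠ 0 := fun h => ZD (by rw [h]; ring)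
  simp only [kap, Dk]
  generalize D1 e q = d1, D2 e q = d2, D3 q = d3, A0 e q = a0, N0 e q = n0 at *
  obtain rfl : r = Z * G * d3 / W := by field_simp; linarith
  obtain rfl : s = Y * G * d2 / W := by field_simp; linarith
  obtain rfl : t = X * G * d1 / (e * W) := by field_simp; linarith
  obtain rfl : Θ = 2 * e * X * W / G := by field_simp; linarith
  obtain rfl : a0 = 2 * e * X ^ 2 / G := by field_simp; linarith
  obtain rfl : n0 = 2 * e * W ^ 2 / G := by field_simp; linarith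
  obtain rfl : q = 2 * Z ^ 2 / G := by field_simp; linarith
  rcases i with _ | _ | _ | _ | _ | _ | _ | _ | _ | _ | _ | _ | i <;>
    simp only [mos, List.getD_cons_zero, List.getD_cons_succ, List.getD_nil, m1, m2, m3, m4, m5,
      zero_mul, mul_zero] <;> field_simp

end Br

open Br in
theorem Gen.cx {a b c r s t α β G τ j d ρ y f : ℤ} (g : Gen a b c r s t α β G τ j d ρ y f) :
    ∃ e q : ℝ, Nonempty (Cx e q) := by
  have F := g.fin
  obtain ⟨D, hd, hρ, hy, ρ0, y0, qρ, qy, he, db, f0⟩ := g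
  have a0 := D.ha
  have ab := D.hab
  have bc := D.hbc
  have d0 := D.hd
  have hr := D.hr
  have hs := D.hs
  have ht := D.ht
  have hc := D.hc
  have r0 := D.rpos
  have s0 := D.spos
  have t0 := D.tpos
  have b0 : 0 < b := by omega
  have c0 : 0 < c := by omega
  replace F := six a0 d0 f0 F
  obtain ⟨f', σ, θ, -, e1, hσ, hθ, -, qσ, qθ, -⟩ := down (a := a) (b := d) (c := b) qρ hr
    (show y ^ 2 = d * b + 4 by linarith)
  obtain rfl : f = f' := by linarith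
  obtain ⟨f', σ', θ', -, σ0, θ0, qσ', -, hσ', hθ', lo, -⟩ := iso_down a0 d0 ab db ρ0 r0.le y0 qρ hr
    (show y ^ 2 = d * b + 4 by linarith)
  obtain rfl : σ = σ' := by linarith
  obtain rfl : θ = θ' := by linarith
  obtain rfl : f = f' := mul_left_cancel₀ a0.ne' (by linarith)
  have k5 := iso_five_le (mul_pos a0 d0) ρ0 qρ
  have k5' := iso_five_le (mul_pos a0 f0) σ0 qσ
  have k5'' := iso_five_le (mul_pos d0 f0) θ0 qθ
  have m0 : 0 < a * d * f := by positivity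
  have up : b ≤ a * d * f + 2 * (a + d + f) + 4 := by
    have u1 : 2 * r = ρ * σ + a * θ := by
      have : 2 * (2 * r) = 2 * (ρ * σ + a * θ) := by linear_combination -ρ * hσ - a * hθ - r * qρ
      linarith
    have u2 : (2 * r) ^ 2 ≤ 2 * (ρ ^ 2 * σ ^ 2) + 2 * (a ^ 2 * θ ^ 2) := by
      rw [u1]; linarith only [sq_nonneg (ρ * σ - a * θ)]
    rw [mul_pow, hr, qρ, qσ, qθ] at u2
    apply le_of_mul_le_mul_left _ a0
    linarith
  have sm : 4 * (a + d + f) + 8 ≤ a * d * f := by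
    rcases le_total a d with x | x <;> rcases le_total a f with x' | x' <;>
      rcases le_total d f with x'' | x''
    all_goals first
      | linarith [sum_le a0 d0 k5 (big a0 d0 f0 (by omega) (by omega) le_rfl F)]
      | linarith [sum_le a0 f0 k5' (big a0 d0 f0 (by omega) le_rfl (by omega) F)]
      | linarith [sum_le d0 f0 k5'' (big a0 d0 f0 le_rfl (by omega) (by omega) F)]
  have b5 : 512 ≤ b := big a0 d0 f0 ab.le db.le (by omega) F
  have ab1 : 1 * b ≤ a * b := by gcongr; omega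
  have k3 : a * d * r ^ 2 ≤ s ^ 2 := by
    have u1 : 5 * d ≤ a * f * d := by gcongr
    have u2 : a * (a * b * d + 4 * d) ≤ a * c := by gcongr; linarith
    rw [hr, hs]; linarith
  obtain ⟨X, Y, Z, W, X0, Y0, Z0, W0, hX, hY, hZ, hW, f3, f2, f1, ⟨n1, i1⟩, ⟨n2, i2⟩, ⟨n3, i3⟩,
    ⟨n4, i4⟩, ⟨n5, i5⟩, ⟨n6, i6⟩, ⟨n7, i7⟩⟩ := D.roots
  have G0 : (0 : ℝ) < G := by exact_mod_cast D.hG
  have j0 : (0 : ℝ) < j := by exact_mod_cast D.jpos
  have α0 : (0 : ℝ) < α := by exact_mod_cast D.hα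
  have T0 : (0 : ℝ) < α - G := by exact_mod_cast (by linarith [D.lt_G, D.lt_βα] : 0 < α - G)
  have r1 : (0 : ℝ) < r := by exact_mod_cast r0
  have s1 : (0 : ℝ) < s := by exact_mod_cast s0
  have t1 : (0 : ℝ) < t := by exact_mod_cast t0
  have h4 : (α : ℝ) * β = G * (α + β) := by exact_mod_cast D.h4
  have eps : (25 : ℝ) * β < 13 * α := by exact_mod_cast D.eps
  obtain ⟨e, hE⟩ : ∃ e : ℝ, e * (α - G) = G := ⟨_, div_mul_cancel₀ _ T0.ne'⟩
  obtain ⟨q, hq⟩ : ∃ q : ℝ, q * G = 2 * j := ⟨_, div_mul_cancel₀ _ G0.ne'⟩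
  have e0 : 0 < e := (pos_iff_pos_of_mul_pos (by rw [hE]; exact G0)).2 T0
  have q0 : 0 < q := (pos_iff_pos_of_mul_pos (by rw [hq]; positivity)).2 G0
  have hβ : (β : ℝ) = e * α := by
    apply mul_right_cancel₀ T0.ne'
    linear_combination h4 - α * hE
  have e1' : e ≤ 13 / 25 := by
    apply le_of_mul_le_mul_right _ α0
    linarith
  have gX : 2 * e * X ^ 2 = G * A0 e q := by
    simp only [A0]; linear_combination 2 * e * hX + 2 * hE - e * hq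
  have gY : 2 * Y ^ 2 = G * A1 e q := by
    simp only [A1]; linear_combination 2 * hY + 2 * hβ + 2 * hE - hq
  have gZ : 2 * Z ^ 2 = G * q := by linear_combination 2 * hZ - hq
  have gW : 2 * e * W ^ 2 = G * N0 e q := by
    simp only [N0]; linear_combination 2 * e * hW + 2 * e * hβ + 2 * (1 + e) * hE + 3 * e * hq
  have g3 : r * W = Z * G * D3 q := by simp only [D3]; linear_combination f3 - Z * hq
  have g2 : s * W = Y * G * D2 e q := by
    simp only [D2]; linear_combination f2 - Y * hq - Y * hβ - Y * hE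
  have g1 : e * t * W = X * G * D1 e q := by
    simp only [D1]; linear_combination e * f1 + X * hE + e * X * hq
  obtain ⟨Θ, hΘ⟩ : ∃ Θ : ℝ, Θ * G = 2 * e * X * W := ⟨_, div_mul_cancel₀ _ G0.ne'⟩
  have y1 : r ^ 2 * (A1 e q * D2 e q ^ 2) = s ^ 2 * (q * D3 q ^ 2) := by
    apply mul_right_cancel₀ (b := W ^ 2 * G) (by positivity)
    linear_combination (r * W + Z * G * D3 q) * G * A1 e q * D2 e q ^ 2 * g3 -
      (s * W + Y * G * D2 e q) * G * q * D3 q ^ 2 * g2 +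
      G ^ 2 * D3 q ^ 2 * D2 e q ^ 2 * (Y ^ 2 * gZ - Z ^ 2 * gY)
  refine ⟨e, q, ⟨⟨a, b, c, r, s, t, d, ρ, y, θ, f, Θ, [1, α - G, G, β - G, j, n1, n2, n3, n4, n5, n6, n7],
    a0, b0, c0, r0, s0, t0, d0, f0, hr, hs, ht, hd, hρ, hy, hθ, ?_, ?_, ?_, ?_, e0, q0, e1', ?_, y1, ?_,
    ?_, ?_, ?_, ?_, ?_, k3, ?_, k5, ?_, ?_, cornerA D hd hE hq, cornerD D hd hE hq,
    mono a0 d0 f0 F⟩⟩⟩
  · have : 512 * c ≤ a * b * c := by gcongr; omega
    linarith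
  · exact le_of_pow_le_pow_left₀ two_ne_zero s0.le (by linarith only [hr, hs, mul_pos a0 (sub_pos.2 bc)])
  · exact le_of_pow_le_pow_left₀ two_ne_zero t0.le
      (by linarith only [hr, ht, mul_pos b0 (sub_pos.2 (ab.trans bc))])
  · exact le_of_pow_le_pow_left₀ two_ne_zero r0.le (by linarith)
  · have u1 : 5 * r ^ 2 ≤ a * d * r ^ 2 := by gcongr
    have u2 : (5 : ℝ) * r ^ 2 ≤ s ^ 2 := by exact_mod_cast u1.trans k3
    have u3 : 5 * r ^ 2 * (q * D3 q ^ 2) ≤ s ^ 2 * (q * D3 q ^ 2) := by gcongr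
    have u4 : 5 * (q * D3 q ^ 2) ≤ A1 e q * D2 e q ^ 2 := by
      apply le_of_mul_le_mul_left (a := (r : ℝ) ^ 2) _ (by positivity)
      linarith
    simp only [A1, D2, D3] at u4
    have u5 : (4 + 2 * e + q) * (1 - e + q) ^ 2 ≤ (6 + q) * (1 + q) ^ 2 := by
      gcongr <;> linarith
    linarith only [u4, u5, mul_pos q0 q0, mul_pos q0 (mul_pos q0 q0)]
  · apply mul_right_cancel₀ (b := W ^ 2 * G) (by positivity)
    linear_combination (r * W + Z * G * D3 q) * G * A0 e q * D1 e q ^ 2 * g3 -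
      (e * t * W + X * G * D1 e q) * G * e * q * D3 q ^ 2 * g1 +
      G ^ 2 * D3 q ^ 2 * D1 e q ^ 2 * (e * X ^ 2 * gZ - Z ^ 2 * gX)
  · exact ((pos_iff_pos_of_mul_pos (by rw [hΘ]; positivity)).2 G0).le
  · apply mul_right_cancel₀ (b := (G : ℝ) ^ 2) (by positivity)
    linear_combination (Θ * G + 2 * e * X * W) * hΘ + 2 * e * X ^ 2 * gW + G * N0 e q * gX
  · intro i
    rw [← taus e0 G0 W0 r1 s1 t1 gX gZ gW g3 g2 g1 hΘ i, hZ, i1, i2, i3, i4, i5, i6, ← i1]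
    rw [i7, i1, (by field_simp; linarith : (G : ℝ) / e = α - G), (by linarith : e * G = β - G)]
    rcases i with _ | _ | _ | _ | _ | _ | _ | _ | _ | _ | _ | _ | i <;> simp
  · rw [← mul_pow, ← mul_pow]
    exact pow_le_pow_left₀ (by positivity) (by linarith) 2
  · rw [hr, hs, ht]
    linarith only [mul_pos (mul_pos a0 a0) (mul_pos b0 (sub_pos.2 bc)),
      mul_pos (mul_pos a0 a0) (mul_pos a0 b0), mul_pos a0 a0]
  · have u1 : 2 * s = r * ρ + a * y := by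
      have : 2 * (2 * s) = 2 * (r * ρ + a * y) := by linear_combination -r * hρ - a * hy - s * hr
      linarith
    rw [← qρ, ← mul_pow]
    exact pow_le_pow_left₀ s0.le (by linarith) 2
  · have u1 : (a * d * f + d) * c ≤ b * c := by gcongr; omega
    have u2 : 5 * b ≤ a * d * b := by gcongr
    have u3 : d * (4 * f) ≤ d * c := by gcongr; linarith
    rw [hs, ht]; linarith
  · have u1 : 10 * b * c ≤ 17 * (a * d * f) * c := by gcongr ?_ * c; linarith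
    rw [hs, ht]; linarith

end Pool.Agent.Lib.MP_b2ee0b_nt
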