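import Pool.Agent.Lib.MP_b2ee0b_nt.Kp

/-! Corner where the smallest entry is large: polynomial inequalities. -/

namespace Pool.Agent.Lib.MP_b2ee0b_nt.CA

open Iv Iv.Ex

noncomputable def e0r (η ζ κ1 κ2 : ℝ) : ℝ :=
    891 + 297 * κ1 + 686 * ζ * κ2 + 1075 * ζ ^ 2 + 217 * ζ ^ 2 * κ1 + 64 * ζ ^ 3 + 40 * ζ ^ 3 *
    κ2 + 40 * ζ ^ 3 * κ1 + 554 * η * κ2 + 646 * η * ζ * κ2 + 416 * η * ζ ^ 3 + 1075 * η ^ 2 +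
    429 * η ^ 2 * κ1 + 120 * η ^ 2 * ζ * κ2 + 120 * η ^ 2 * ζ * κ1 + 64 * η ^ 3 + 416 * η ^ 3 *
    ζ - 297 * κ2 - 1926 * ζ - 554 * ζ * κ1 - 429 * ζ ^ 2 * κ2 - 104 * ζ ^ 4 - 1926 * η - 686 *
    η * κ1 - 1638 * η * ζ - 646 * η * ζ * κ1 - 64 * η * ζ ^ 2 - 120 * η * ζ ^ 2 * κ2 - 120 * η
    * ζ ^ 2 * κ1 - 217 * η ^ 2 * κ2 - 64 * η ^ 2 * ζ - 624 * η ^ 2 * ζ ^ 2 - 40 * η ^ 3 * κ2 -
    40 * η ^ 3 * κ1 - 104 * η ^ 4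

noncomputable def e1r (η ζ κ1 κ2 : ℝ) : ℝ :=
    3444 + 1148 * κ1 + 1240 * ζ * κ2 + 1372 * ζ ^ 2 * κ2 + 10622 * ζ ^ 3 + 708 * ζ ^ 3 * κ1 +
    200 * ζ ^ 4 * κ2 + 280 * ζ ^ 4 * κ1 + 1028 * η * κ2 + 3244 * η * ζ + 2480 * η * ζ * κ1 +
    1772 * η * ζ ^ 2 * κ2 + 6264 * η * ζ ^ 3 + 2496 * η * ζ ^ 4 + 1108 * η ^ 2 * κ2 + 600 * η ^
    2 * ζ * κ2 + 240 * η ^ 2 * ζ ^ 2 * κ1 + 10622 * η ^ 3 + 1664 * η ^ 3 * κ1 + 6264 * η ^ 3 *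
    ζ + 640 * η ^ 3 * ζ * κ2 + 320 * η ^ 3 * ζ * κ1 + 2496 * η ^ 4 * ζ - 1148 * κ2 - 1382 * ζ -
    1028 * ζ * κ1 - 10542 * ζ ^ 2 - 1108 * ζ ^ 2 * κ1 - 1664 * ζ ^ 3 * κ2 - 1310 * ζ ^ 4 - 832
    * ζ ^ 5 - 1382 * η - 1240 * η * κ1 - 2480 * η * ζ * κ2 - 10622 * η * ζ ^ 2 - 600 * η * ζ ^
    2 * κ1 - 320 * η * ζ ^ 3 * κ2 - 640 * η * ζ ^ 3 * κ1 - 10542 * η ^ 2 - 1372 * η ^ 2 * κ1 -
    10622 * η ^ 2 * ζ - 1772 * η ^ 2 * ζ * κ1 - 9908 * η ^ 2 * ζ ^ 2 - 240 * η ^ 2 * ζ ^ 2 * κ2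
    - 1664 * η ^ 2 * ζ ^ 3 - 708 * η ^ 3 * κ2 - 1664 * η ^ 3 * ζ ^ 2 - 1310 * η ^ 4 - 280 * η ^
    4 * κ2 - 200 * η ^ 4 * κ1 - 832 * η ^ 5

noncomputable def efr (x η ζ κ1 κ2 a b c d : ℝ) : ℝ :=
  κ1 * (297 * d - 40 * d * (a - 1) - 52 * b * η) + κ2 * (40 * d * (b - 1) + 52 * a * ζ - 297 * d) +
    (891 * d * (1 - 2 * x * c) - 640 * η * ζ - 144 * d * ((1 - 2 * x * a) * ζ + (1 - 2 * x * b) * η) -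
      104 * d * (2 * (1 - 2 * x * a) * ζ + 2 * (1 - 2 * x * b) * η + d * (1 - 2 * x) - (1 - 2 * x * c)) -
      1902 * x * d * d)

def e0x (η ζ κ1 κ2 : Ex) : Ex :=
    891 + 297 * κ1 + 686 * ζ * κ2 + 1075 * ζ ^ 2 + 217 * ζ ^ 2 * κ1 + 64 * ζ ^ 3 + 40 * ζ ^ 3 *
    κ2 + 40 * ζ ^ 3 * κ1 + 554 * η * κ2 + 646 * η * ζ * κ2 + 416 * η * ζ ^ 3 + 1075 * η ^ 2 +
    429 * η ^ 2 * κ1 + 120 * η ^ 2 * ζ * κ2 + 120 * η ^ 2 * ζ * κ1 + 64 * η ^ 3 + 416 * η ^ 3 *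
    ζ - 297 * κ2 - 1926 * ζ - 554 * ζ * κ1 - 429 * ζ ^ 2 * κ2 - 104 * ζ ^ 4 - 1926 * η - 686 *
    η * κ1 - 1638 * η * ζ - 646 * η * ζ * κ1 - 64 * η * ζ ^ 2 - 120 * η * ζ ^ 2 * κ2 - 120 * η
    * ζ ^ 2 * κ1 - 217 * η ^ 2 * κ2 - 64 * η ^ 2 * ζ - 624 * η ^ 2 * ζ ^ 2 - 40 * η ^ 3 * κ2 -
    40 * η ^ 3 * κ1 - 104 * η ^ 4

def e1x (η ζ κ1 κ2 : Ex) : Ex :=
    3444 + 1148 * κ1 + 1240 * ζ * κ2 + 1372 * ζ ^ 2 * κ2 + 10622 * ζ ^ 3 + 708 * ζ ^ 3 * κ1 +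
    200 * ζ ^ 4 * κ2 + 280 * ζ ^ 4 * κ1 + 1028 * η * κ2 + 3244 * η * ζ + 2480 * η * ζ * κ1 +
    1772 * η * ζ ^ 2 * κ2 + 6264 * η * ζ ^ 3 + 2496 * η * ζ ^ 4 + 1108 * η ^ 2 * κ2 + 600 * η ^
    2 * ζ * κ2 + 240 * η ^ 2 * ζ ^ 2 * κ1 + 10622 * η ^ 3 + 1664 * η ^ 3 * κ1 + 6264 * η ^ 3 *
    ζ + 640 * η ^ 3 * ζ * κ2 + 320 * η ^ 3 * ζ * κ1 + 2496 * η ^ 4 * ζ - 1148 * κ2 - 1382 * ζ -
    1028 * ζ * κ1 - 10542 * ζ ^ 2 - 1108 * ζ ^ 2 * κ1 - 1664 * ζ ^ 3 * κ2 - 1310 * ζ ^ 4 - 832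
    * ζ ^ 5 - 1382 * η - 1240 * η * κ1 - 2480 * η * ζ * κ2 - 10622 * η * ζ ^ 2 - 600 * η * ζ ^
    2 * κ1 - 320 * η * ζ ^ 3 * κ2 - 640 * η * ζ ^ 3 * κ1 - 10542 * η ^ 2 - 1372 * η ^ 2 * κ1 -
    10622 * η ^ 2 * ζ - 1772 * η ^ 2 * ζ * κ1 - 9908 * η ^ 2 * ζ ^ 2 - 240 * η ^ 2 * ζ ^ 2 * κ2
    - 1664 * η ^ 2 * ζ ^ 3 - 708 * η ^ 3 * κ2 - 1664 * η ^ 3 * ζ ^ 2 - 1310 * η ^ 4 - 280 * η ^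
    4 * κ2 - 200 * η ^ 4 * κ1 - 832 * η ^ 5

def efx (x η ζ κ1 κ2 a b c d : Ex) : Ex :=
  κ1 * (297 * d - 40 * d * (a - 1) - 52 * b * η) + κ2 * (40 * d * (b - 1) + 52 * a * ζ - 297 * d) +
    (891 * d * (1 - 2 * x * c) - 640 * η * ζ - 144 * d * ((1 - 2 * x * a) * ζ + (1 - 2 * x * b) * η) -
      104 * d * (2 * (1 - 2 * x * a) * ζ + 2 * (1 - 2 * x * b) * η + d * (1 - 2 * x) - (1 - 2 * x * c)) -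
      1902 * x * d * d)

def h0x (N1 N3 Dn K1 K2 K0 : Ex) : Ex :=
    (Dn * (Dn * (Dn * (Dn * (891 * K0 + 297 * K1 - 297 * K2) + (N1 * (554 * K2 - 1926 * K0 -
    686 * K1) + N3 ^ 1 * (686 * K2 - 1926 * K0 - 554 * K1))) + (N1 * (N1 * (1075 * K0 + 429 *
    K1 - 217 * K2) + N3 ^ 1 * (646 * K2 - 1638 * K0 - 646 * K1)) + N3 ^ 2 * (1075 * K0 + 217 *
    K1 - 429 * K2))) + (N1 * (N1 * (N1 * (64 * K0 - 40 * K1 - 40 * K2) + N3 ^ 1 * (120 * K1 +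
    120 * K2 - 64 * K0)) + N3 ^ 2 * (0 - 64 * K0 - 120 * K1 - 120 * K2)) + N3 ^ 3 * (64 * K0 +
    40 * K1 + 40 * K2))) + (N1 * (N1 * (N1 * (N1 * (0 - 104 * K0) + N3 ^ 1 * (416 * K0)) + N3 ^
    2 * (0 - 624 * K0)) + N3 ^ 3 * (416 * K0)) + N3 ^ 4 * (0 - 104 * K0)))

def h1x (N1 N3 Dn K1 K2 K0 : Ex) : Ex :=
    (Dn * (Dn * (Dn * (Dn * (Dn * (3444 * K0 + 1148 * K1 - 1148 * K2) + (N1 * (1028 * K2 - 1382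
    * K0 - 1240 * K1) + N3 ^ 1 * (1240 * K2 - 1382 * K0 - 1028 * K1))) + (N1 * (N1 * (1108 * K2
    - 10542 * K0 - 1372 * K1) + N3 ^ 1 * (3244 * K0 + 2480 * K1 - 2480 * K2)) + N3 ^ 2 * (1372
    * K2 - 10542 * K0 - 1108 * K1))) + (N1 * (N1 * (N1 * (10622 * K0 + 1664 * K1 - 708 * K2) +
    N3 ^ 1 * (600 * K2 - 10622 * K0 - 1772 * K1)) + N3 ^ 2 * (1772 * K2 - 10622 * K0 - 600 *
    K1)) + N3 ^ 3 * (10622 * K0 + 708 * K1 - 1664 * K2))) + (N1 * (N1 * (N1 * (N1 * (0 - 1310 *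
    K0 - 200 * K1 - 280 * K2) + N3 ^ 1 * (6264 * K0 + 320 * K1 + 640 * K2)) + N3 ^ 2 * (240 *
    K1 - 9908 * K0 - 240 * K2)) + N3 ^ 3 * (6264 * K0 - 640 * K1 - 320 * K2)) + N3 ^ 4 * (280 *
    K1 + 200 * K2 - 1310 * K0))) + (N1 * (N1 * (N1 * (N1 * (N1 * (0 - 832 * K0) + N3 ^ 1 *
    (2496 * K0)) + N3 ^ 2 * (0 - 1664 * K0)) + N3 ^ 3 * (0 - 1664 * K0)) + N3 ^ 4 * (2496 *
    K0)) + N3 ^ 5 * (0 - 832 * K0)))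

/-- atoms as polynomials in `z = v 0`, `q = v 1` -/
def fz : List Ex :=
  let z : Ex := v 0
  let q : Ex := v 1
  let p1 : Ex := 1 + q * (1 + z)
  let p3 : Ex := 1 - z * q
  let D1 : Ex := (4 + 6 * z + q * (1 + z)) * p1 ^ 2
  let D3 : Ex := (2 + 6 * z + z * q) * p3 ^ 2
  [q * (3 + q) ^ 2 * (1 + z) ^ 3 * D3, z ^ 3 * q * (3 + q) ^ 2 * D1, D1 * D3,
    z * (3 + q) * p1, (3 + q) * (1 + z) * p3, p1 * p3, z, q]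

def H0 : Ex := h0x (v 0) (v 1) (v 2) (v 3) (v 4) (v 5)
def H1 : Ex := h1x (v 0) (v 1) (v 2) (v 3) (v 4) (v 5)

theorem c1 : chkK 1200 64 0 13 12 2000 fz
    (4300 * v 7 ^ 3 * (1 + v 6) ^ 6 * v 5 * v 2 ^ 3 - H0) = true := by decide +kernel
theorem c2 : chkK 1200 64 0 13 12 2000 fz
    (H0 + v 5 * v 2 ^ 2 * (5310 * (1 + v 6) ^ 2 * v 7 * (v 0 * v 1) - v 7 ^ 3 * v 2 ^ 2)) = true := by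
  decide +kernel
theorem c3 : chkK 1200 64 0 13 12 2000 fz
    (50000 * v 7 * (1 + v 6) ^ 6 * v 5 * v 2 ^ 4 - (H1 + 4 * v 7 * v 5 * v 2 ^ 5)) = true := by
  decide +kernel
theorem c4 : chkK 1200 64 0 13 12 2000 fz
    (H1 - (5900 * (1 + v 6) ^ 2 + 4) * v 7 * v 5 * v 2 ^ 5) = true := by decide +kernel
theorem c10 : chkK 300 16 0 13 12 2000 fz (8 * v 7 * v 2 - v 0) = true := by decide +kernel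
theorem c11 : chkK 300 16 0 13 12 2000 fz (2 * v 7 * v 2 - v 1) = true := by decide +kernel
theorem c12 : chkK 300 16 0 13 12 2000 fz (4 * v 5 - v 3) = true := by decide +kernel
theorem c13 : chkK 300 16 0 13 12 2000 fz (7 * v 5 - v 4) = true := by decide +kernel

end Pool.Agent.Lib.MP_b2ee0b_nt.CA
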