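import Pool.Agent.Lib.MP_b2ee0b_nt.CA1

/-! Corner where the smallest entry is large: the real estimate. -/

namespace Pool.Agent.Lib.MP_b2ee0b_nt.CA

open Iv Iv.Ex

theorem quad_root {x σ m : ℝ} (x0 : 0 < x) (h : σ - x * σ ^ 2 = m)
    (h2 : x * σ < 1 / 2) (m0 : -2 ≤ m) (m1 : m ≤ 2) : m ≤ σ ∧ σ ≤ m + 16 * x := by
  have a : -4 ≤ σ ∧ σ ≤ 4 := by
    rcases le_total 0 σ with g | g
    · exact ⟨by linarith, by nlinarith⟩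
    · exact ⟨by nlinarith [mul_nonneg x0.le (sq_nonneg σ)], by linarith⟩
  have b : σ ^ 2 ≤ 16 := by nlinarith [a.1, a.2]
  constructor
  · nlinarith [mul_nonneg x0.le (sq_nonneg σ)]
  · nlinarith

/-- second order expansion of a root of the quadratic recursion -/
theorem root_exp {x σ u w y : ℝ} (x0 : 0 < x) (x1 : x ≤ 2 / 10 ^ 8) (y0 : 0 ≤ y) (y1 : y ≤ 1)
    (h : (σ - x * σ ^ 2) * (1 - 4 * x * y) = u - 4 * x * w) (h2 : x * σ < 1 / 2)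
    (u0 : -3 / 2 ≤ u) (u1 : u ≤ 3 / 2) (w0 : 0 ≤ w) (w1 : w ≤ 1) :
    ∃ i : ℝ, 1 ≤ i ∧ i ≤ 1 + 1 / 1000 ∧ u - 1 / 1000 ≤ σ ∧ σ ≤ u + 1 / 1000 ∧
      σ = u + x * (σ ^ 2 + 4 * (y * u - w) * i) ∧
      σ = u + x * (u ^ 2 + 4 * (y * u - w)) +
        x ^ 2 * ((σ + u) * (σ ^ 2 + 4 * (y * u - w) * i) + 16 * y * (y * u - w) * i) := by
  have xy0 : 0 ≤ x * y := mul_nonneg x0.le y0
  have xy1 : x * y ≤ 2 / 10 ^ 8 := by nlinarith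
  have xw0 : 0 ≤ x * w := mul_nonneg x0.le w0
  have xw1 : x * w ≤ 2 / 10 ^ 8 := by nlinarith
  have p : 0 < 1 - 4 * x * y := by nlinarith
  obtain ⟨i, hi⟩ : ∃ i, i * (1 - 4 * x * y) = 1 := ⟨_, inv_mul_cancel₀ p.ne'⟩
  have i0 : 0 < i := by
    by_contra g
    nlinarith
  have i1 : 1 ≤ i := by nlinarith
  have i2 : i ≤ 1 + 1 / 10 ^ 6 := by nlinarith
  have e : σ - x * σ ^ 2 = (u - 4 * x * w) * i := by
    linear_combination i * h - (σ - x * σ ^ 2) * hi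
  have m0 : u - 1 / 10 ^ 5 ≤ (u - 4 * x * w) * i := by nlinarith
  have m1 : (u - 4 * x * w) * i ≤ u + 1 / 10 ^ 5 := by nlinarith
  obtain ⟨a, b⟩ := quad_root x0 e h2 (by linarith) (by linarith)
  have e1 : σ = u + x * (σ ^ 2 + 4 * (y * u - w) * i) := by
    linear_combination e + u * hi
  refine ⟨i, i1, by linarith, by linarith, by linarith, e1, ?_⟩
  linear_combination e1 + x * (σ + u) * e1 + 4 * x * (y * u - w) * hi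

def bS : List (ℚ × ℚ) :=
  [(49 / 50, 51 / 50), (0, 1 / 200), (0, 1 / 200), (1, 1001 / 1000)]

def bE : List (ℚ × ℚ) :=
  [(0, 1 / 200), (0, 1 / 200), (0, 4), (0, 7), (1, 3), (1, 3), (-12, -8), (10, 20)]

def fE : List Ex :=
  let x : Ex := v 0
  let η : Ex := v 1
  let ζ : Ex := v 2
  let u : Ex := 1 + η - ζ
  let w : Ex := 1 - η + ζ
  let y : Ex := η + ζ - 1
  [x, η, ζ, v 3, v 4, u + x * (u ^ 2 + 4 * (ζ * u - η)) + x ^ 2 * v 5,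
    w + x * (w ^ 2 + 4 * (η * w - ζ)) + x ^ 2 * v 6,
    y + x * (y ^ 2 + 4 * (1 * y - η * ζ)) + x ^ 2 * v 7,
    u ^ 2 - 4 * η + x * (2 * u * (u ^ 2 + 4 * (ζ * u - η)) + 2 * u * (u ^ 2 - 4 * η)) + x ^ 2 * v 8]

def eR : Ex := efx (v 0) (v 1) (v 2) (v 3) (v 4) (v 5) (v 6) (v 7) (v 8) -
  e0x (v 1) (v 2) (v 3) (v 4) - v 0 * e1x (v 1) (v 2) (v 3) (v 4)

theorem c5 : chkS bE fE eR 0 2 (-100000) (2 / 10 ^ 8) 1 = true := by decide +kernel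
theorem c6 : chkS bE fE (0 - eR) 0 2 (-100000) (2 / 10 ^ 8) 1 = true := by decide +kernel

theorem c7 : chk bS ((v 0 + (1 + v 1 - v 2)) * (v 0 ^ 2 + 4 * (v 2 * (1 + v 1 - v 2) - v 1) * v 3) +
    16 * v 2 * (v 2 * (1 + v 1 - v 2) - v 1) * v 3) 0 0 (3 / 2) (5 / 2) = true := by decide +kernel
theorem c8 : chk bS (v 0 ^ 2 + 4 * (v 2 * (1 + v 1 - v 2) - v 1) * v 3) 0 0 (9 / 10) (11 / 10)
    = true := by decide +kernel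
theorem c9 : chk bS ((0 - v 0 + (v 1 + v 2 - 1)) * (v 0 ^ 2 + 4 * (1 * (v 1 + v 2 - 1) - v 1 * v 2) * v 3) +
    16 * 1 * (1 * (v 1 + v 2 - 1) - v 1 * v 2) * v 3) 0 0 (-12) (-8) = true := by decide +kernel

theorem bd0 {x a η d : ℝ} (x0 : 0 ≤ x) (x1 : x ≤ 2 / 10 ^ 8) (a0 : 99 / 100 ≤ a)
    (a1 : a ≤ 101 / 100) (η0 : 0 ≤ η) (η1 : η ≤ 1 / 200) (hd : d * (1 - 2 * x * a) = a ^ 2 - 4 * η) :
    95 / 100 ≤ d ∧ d ≤ 103 / 100 := by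
  have xa0 : 0 ≤ x * a := mul_nonneg x0 (by linarith)
  have xa1 : x * a ≤ 3 / 10 ^ 8 := by nlinarith
  have aa0 : 98 / 100 ≤ a ^ 2 := by nlinarith
  have aa1 : a ^ 2 ≤ 1021 / 1000 := by nlinarith
  constructor
  · by_contra g
    nlinarith
  · by_contra g
    nlinarith

theorem c16 : chk [(99 / 100, 101 / 100), (9 / 10, 11 / 10), (0, 2 / 10 ^ 8), (99 / 100, 101 / 100),
    (95 / 100, 103 / 100)] (2 * v 0 * v 1 + v 2 * v 1 ^ 2 + 2 * v 3 * v 4) 0 0 3 5 = true := by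
  decide +kernel

theorem bd1 {u S x a d : ℝ} (u0 : 99 / 100 ≤ u) (u1 : u ≤ 101 / 100) (S0 : 9 / 10 ≤ S)
    (S1 : S ≤ 11 / 10) (x0 : 0 ≤ x) (x1 : x ≤ 2 / 10 ^ 8) (a0 : 99 / 100 ≤ a) (a1 : a ≤ 101 / 100)
    (d0 : 95 / 100 ≤ d) (d1 : d ≤ 103 / 100) :
    3 ≤ 2 * u * S + x * S ^ 2 + 2 * a * d ∧ 2 * u * S + x * S ^ 2 + 2 * a * d ≤ 5 := by
  have := chk_ok c16 (l := [u, S, x, a, d]) (by
    simp only [Box]
    push_cast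
    exact ⟨⟨u0, u1⟩, ⟨S0, S1⟩, ⟨x0, x1⟩, ⟨a0, a1⟩, ⟨d0, d1⟩, trivial⟩) (by simp)
  simpa only [ev_add, ev_sub, ev_mul, ev_pow, ev_v, ev_nat, List.getD_cons_zero,
    List.getD_cons_succ, pow_zero, mul_one, Nat.cast_ofNat, Rat.cast_ofNat] using this

theorem c17 : chk [(99 / 100, 101 / 100), (9 / 10, 11 / 10), (3 / 2, 5 / 2), (99 / 100, 101 / 100),
    (3, 5), (0, 1 / 200)] (2 * v 0 * v 2 + v 1 ^ 2 + 2 * (v 3 * v 4 + v 1 * (v 0 ^ 2 - 4 * v 5)))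
    0 0 10 20 = true := by
  decide +kernel

theorem bd2 {u S T a D η : ℝ} (u0 : 99 / 100 ≤ u) (u1 : u ≤ 101 / 100) (S0 : 9 / 10 ≤ S)
    (S1 : S ≤ 11 / 10) (T0 : 3 / 2 ≤ T) (T1 : T ≤ 5 / 2) (a0 : 99 / 100 ≤ a) (a1 : a ≤ 101 / 100)
    (D0 : 3 ≤ D) (D1 : D ≤ 5) (η0 : 0 ≤ η) (η1 : η ≤ 1 / 200) :
    10 ≤ 2 * u * T + S ^ 2 + 2 * (a * D + S * (u ^ 2 - 4 * η)) ∧
      2 * u * T + S ^ 2 + 2 * (a * D + S * (u ^ 2 - 4 * η)) ≤ 20 := by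
  have := chk_ok c17 (l := [u, S, T, a, D, η]) (by
    simp only [Box]
    push_cast
    exact ⟨⟨u0, u1⟩, ⟨S0, S1⟩, ⟨T0, T1⟩, ⟨a0, a1⟩, ⟨D0, D1⟩, ⟨η0, η1⟩, trivial⟩) (by simp)
  simpa only [ev_add, ev_sub, ev_mul, ev_pow, ev_v, ev_nat, List.getD_cons_zero,
    List.getD_cons_succ, pow_zero, mul_one, Nat.cast_ofNat, Rat.cast_ofNat] using this

theorem remainder {x η ζ κ1 κ2 a b c d : ℝ} (x0 : 0 < x) (x1 : x ≤ 2 / 10 ^ 8)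
    (η0 : 0 ≤ η) (η1 : η ≤ 1 / 200) (ζ0 : 0 ≤ ζ) (ζ1 : ζ ≤ 1 / 200)
    (k0 : 0 ≤ κ1) (k1 : κ1 ≤ 4) (k2 : 0 ≤ κ2) (k3 : κ2 ≤ 7)
    (ha : (a - x * a ^ 2) * (1 - 4 * x * ζ) = 1 + η - ζ - 4 * x * η) (ga : x * a < 1 / 2)
    (hb : (b - x * b ^ 2) * (1 - 4 * x * η) = 1 - η + ζ - 4 * x * ζ) (gb : x * b < 1 / 2)
    (hc : (c - x * c ^ 2) * (1 - 4 * x * 1) = η + ζ - 1 - 4 * x * (η * ζ)) (gc : x * c < 1 / 2)
    (hd : d * (1 - 2 * x * a) = a ^ 2 - 4 * η) :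
    0 ≤ d ∧ d ≤ 21 / 20 ∧
      |efr x η ζ κ1 κ2 a b c d - e0r η ζ κ1 κ2 - x * e1r η ζ κ1 κ2| ≤ 100000 * x ^ 2 := by
  have ηζ0 : 0 ≤ η * ζ := mul_nonneg η0 ζ0
  have ηζ1 : η * ζ ≤ 1 := by nlinarith
  obtain ⟨i3, i30, i31, a0, a1, ea1, ea⟩ := root_exp x0 x1 ζ0 (by linarith) ha ga (by linarith)
    (by linarith) η0 (by linarith)
  obtain ⟨i2, i20, i21, b0, b1, -, eb⟩ := root_exp x0 x1 η0 (by linarith) hb gb (by linarith)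
    (by linarith) ζ0 (by linarith)
  obtain ⟨i1, i10, i11, c0, c1, -, ec⟩ := root_exp x0 x1 zero_le_one le_rfl hc gc (by linarith)
    (by linarith) ηζ0 ηζ1
  have ba : Box bS [a, η, ζ, i3] := by
    simp only [bS, Box]
    push_cast
    refine ⟨⟨?_, ?_⟩, ⟨?_, ?_⟩, ⟨?_, ?_⟩, ⟨?_, ?_⟩, trivial⟩ <;> linarith
  have bb : Box bS [b, ζ, η, i2] := by
    simp only [bS, Box]
    push_cast
    refine ⟨⟨?_, ?_⟩, ⟨?_, ?_⟩, ⟨?_, ?_⟩, ⟨?_, ?_⟩, trivial⟩ <;> linarith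
  have bc : Box bS [-c, η, ζ, i1] := by
    simp only [bS, Box]
    push_cast
    refine ⟨⟨?_, ?_⟩, ⟨?_, ?_⟩, ⟨?_, ?_⟩, ⟨?_, ?_⟩, trivial⟩ <;> linarith
  have sa := chk_ok c7 ba (by simp)
  have sb := chk_ok c7 bb (by simp)
  have s1 := chk_ok c8 ba (by simp)
  have sc := chk_ok c9 bc (by simp)
  simp only [ev_add, ev_sub, ev_mul, ev_pow, ev_v, ev_nat, List.getD_cons_zero,
    List.getD_cons_succ, pow_zero, mul_one] at sa sb sc s1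
  push_cast at sa sb sc s1
  obtain ⟨Sa, hSa⟩ : ∃ S, S = (a + (1 + η - ζ)) * (a ^ 2 + 4 * (ζ * (1 + η - ζ) - η) * i3) +
    16 * ζ * (ζ * (1 + η - ζ) - η) * i3 := ⟨_, rfl⟩
  obtain ⟨Sb, hSb⟩ : ∃ S, S = (b + (1 - η + ζ)) * (b ^ 2 + 4 * (η * (1 - η + ζ) - ζ) * i2) +
    16 * η * (η * (1 - η + ζ) - ζ) * i2 := ⟨_, rfl⟩
  obtain ⟨Sc, hSc⟩ : ∃ S, S = (c + (η + ζ - 1)) * (c ^ 2 + 4 * (1 * (η + ζ - 1) - η * ζ) * i1) +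
    16 * 1 * (1 * (η + ζ - 1) - η * ζ) * i1 := ⟨_, rfl⟩
  obtain ⟨S1, hS1⟩ : ∃ S, S = a ^ 2 + 4 * (ζ * (1 + η - ζ) - η) * i3 := ⟨_, rfl⟩
  have sa' : 3 / 2 ≤ Sa ∧ Sa ≤ 5 / 2 := by rw [hSa]; exact sa
  have sb' : 3 / 2 ≤ Sb ∧ Sb ≤ 5 / 2 := by
    rw [hSb]
    constructor <;> linarith [sb.1, sb.2]
  have sc' : -12 ≤ Sc ∧ Sc ≤ -8 := by
    rw [hSc]
    constructor <;> linarith [sc.1, sc.2]
  have s1' : 9 / 10 ≤ S1 ∧ S1 ≤ 11 / 10 := by rw [hS1]; exact s1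
  rw [← hSa] at ea
  rw [← hSb] at eb
  rw [← hSc] at ec
  rw [← hS1] at ea1
  obtain ⟨d0, d1⟩ := bd0 x0.le x1 (by linarith) (by linarith) η0 η1 hd
  obtain ⟨D1, hD1⟩ : ∃ D, D = 2 * (1 + η - ζ) * S1 + x * S1 ^ 2 + 2 * a * d := ⟨_, rfl⟩
  obtain ⟨D2, hD2⟩ : ∃ D, D = 2 * (1 + η - ζ) * Sa + S1 ^ 2 +
    2 * (a * D1 + S1 * ((1 + η - ζ) ^ 2 - 4 * η)) := ⟨_, rfl⟩
  have ed1 : d = (1 + η - ζ) ^ 2 - 4 * η + x * D1 := by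
    rw [hD1]
    linear_combination hd + (a + (1 + η - ζ) + x * S1) * ea1
  have es1 : S1 = (1 + η - ζ) ^ 2 + 4 * (ζ * (1 + η - ζ) - η) + x * Sa := by
    apply mul_left_cancel₀ x0.ne'
    linear_combination ea - ea1
  have ed : d = (1 + η - ζ) ^ 2 - 4 * η + x * (2 * (1 + η - ζ) * ((1 + η - ζ) ^ 2 +
      4 * (ζ * (1 + η - ζ) - η)) + 2 * (1 + η - ζ) * ((1 + η - ζ) ^ 2 - 4 * η)) + x ^ 2 * D2 := by
    rw [hD2]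
    linear_combination ed1 + x * hD1 + 2 * x * (1 + η - ζ) * es1 + 2 * x * a * ed1 +
      2 * x * ((1 + η - ζ) ^ 2 - 4 * η) * ea1
  obtain ⟨u, hu⟩ : ∃ u, u = 1 + η - ζ := ⟨_, rfl⟩
  have u0 : 99 / 100 ≤ u := by linarith
  have u1 : u ≤ 101 / 100 := by linarith
  have D10 : 3 ≤ D1 ∧ D1 ≤ 5 := by
    rw [hD1, ← hu]
    exact bd1 u0 u1 s1'.1 s1'.2 x0.le x1 (by linarith) (by linarith) d0 d1
  have D20 : 10 ≤ D2 ∧ D2 ≤ 20 := by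
    rw [hD2, ← hu]
    exact bd2 u0 u1 s1'.1 s1'.2 sa'.1 sa'.2 (by linarith) (by linarith) D10.1 D10.2 η0 η1
  have bx : Box bE [η, ζ, κ1, κ2, Sa, Sb, Sc, D2] := by
    simp only [bE, Box]
    push_cast
    refine ⟨⟨?_, ?_⟩, ⟨?_, ?_⟩, ⟨?_, ?_⟩, ⟨?_, ?_⟩, ⟨?_, ?_⟩, ⟨?_, ?_⟩, ⟨?_, ?_⟩, ⟨?_, ?_⟩,
      trivial⟩ <;> linarith [sa'.1, sa'.2, sb'.1, sb'.2, sc'.1, sc'.2, D20.1, D20.2]
  have hm : fE.map (Ex.ev (fun k => (x :: [η, ζ, κ1, κ2, Sa, Sb, Sc, D2]).getD k 0)) =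
      [x, η, ζ, κ1, κ2, a, b, c, d] := by
    simp only [fE, List.map_cons, List.map_nil, ev_add, ev_sub, ev_mul, ev_pow, ev_v, ev_nat,
      List.getD_cons_zero, List.getD_cons_succ]
    push_cast
    rw [← ea, ← eb, ← ec, ← ed]
  have g1 := chkS_ok c5 bx (x := x) x0.le (by push_cast; linarith)
    (by positivity) hm
  have g2 := chkS_ok c6 bx (x := x) x0.le (by push_cast; linarith)
    (by positivity) hm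
  simp only [eR, efx, e0x, e1x, ev_add, ev_sub, ev_mul, ev_pow, ev_v, ev_nat, List.getD_cons_zero,
    List.getD_cons_succ] at g1 g2
  push_cast at g1 g2
  refine ⟨by linarith, by linarith, ?_⟩
  unfold efr e0r e1r
  rw [abs_le]
  constructor <;> linarith

end Pool.Agent.Lib.MP_b2ee0b_nt.CA
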