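import Pool.Agent.Lib.MP_b2ee0b_nt.CA2
import Pool.Agent.Lib.MP_b2ee0b_nt.BA

/-! Corner where the smallest entry is large. -/

namespace Pool.Agent.Lib.MP_b2ee0b_nt.CA

open Iv Iv.Ex

theorem H0ev (η ζ κ1 κ2 Dn K0 z q : ℝ) :
    H0.ev (fun k => [η * Dn, ζ * Dn, Dn, κ1 * K0, κ2 * K0, K0, z, q].getD k 0) =
      e0r η ζ κ1 κ2 * Dn ^ 4 * K0 := by
  simp only [H0, h0x, ev_add, ev_sub, ev_mul, ev_pow, ev_v, ev_nat, List.getD_cons_zero,
    List.getD_cons_succ]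
  push_cast
  unfold e0r
  ring

theorem H1ev (η ζ κ1 κ2 Dn K0 z q : ℝ) :
    H1.ev (fun k => [η * Dn, ζ * Dn, Dn, κ1 * K0, κ2 * K0, K0, z, q].getD k 0) =
      e1r η ζ κ1 κ2 * Dn ^ 5 * K0 := by
  simp only [H1, h1x, ev_add, ev_sub, ev_mul, ev_pow, ev_v, ev_nat, List.getD_cons_zero,
    List.getD_cons_succ]
  push_cast
  unfold e1r
  ring

theorem zq {z q η ζ κ1 κ2 p1 p3 D1 D3 : ℝ} (z0 : 0 < z) (z1 : 12 * z < 13) (q0 : 0 < q)
    (q1 : 2000 * q < 1) (hp1 : p1 = 1 + q * (1 + z)) (hp3 : p3 = 1 - z * q)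
    (hD1 : D1 = (4 + 6 * z + q * (1 + z)) * p1 ^ 2) (hD3 : D3 = (2 + 6 * z + z * q) * p3 ^ 2)
    (hη : η * D1 = q * (3 + q) ^ 2 * (1 + z) ^ 3) (hζ : ζ * D3 = z ^ 3 * q * (3 + q) ^ 2)
    (h1 : κ1 * p3 = z * (3 + q)) (h2 : κ2 * p1 = (3 + q) * (1 + z)) :
    0 < D1 * D3 ∧ η ≤ 8 * q ∧ ζ ≤ 2 * q ∧ κ1 ≤ 4 ∧ κ2 ≤ 7 ∧
      e0r η ζ κ1 κ2 * (D1 * D3) ≤ 4300 * q ^ 3 * (1 + z) ^ 6 ∧
      q ^ 3 ≤ e0r η ζ κ1 κ2 + 5310 * (1 + z) ^ 2 * q * (η * ζ) ∧
      (e1r η ζ κ1 κ2 + 4 * q) * (D1 * D3) ≤ 50000 * q * (1 + z) ^ 6 ∧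
      5900 * (1 + z) ^ 2 * q ≤ e1r η ζ κ1 κ2 - 4 * q := by
  have p10 : 0 < p1 := by rw [hp1]; positivity
  have p30 : 0 < p3 := by rw [hp3]; nlinarith
  have D10 : 0 < D1 := by rw [hD1]; positivity
  have D30 : 0 < D3 := by rw [hD3]; positivity
  have hm : fz.map (Ex.ev (fun k => [z, q].getD k 0)) =
      [η * (D1 * D3), ζ * (D1 * D3), D1 * D3, κ1 * (p1 * p3), κ2 * (p1 * p3), p1 * p3, z, q] := by
    simp only [fz, List.map_cons, List.map_nil, ev_add, ev_sub, ev_mul, ev_pow, ev_v, ev_nat,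
      List.getD_cons_zero, List.getD_cons_succ]
    push_cast
    rw [← hp1, ← hp3, ← hD1, ← hD3]
    simp only [List.cons.injEq, and_true, true_and]
    exact ⟨by linear_combination -D3 * hη, by linear_combination -D1 * hζ,
      by linear_combination -p1 * h1, by linear_combination -p3 * h2⟩
  have Dn0 : 0 < D1 * D3 := mul_pos D10 D30
  have K00 : 0 < p1 * p3 := mul_pos p10 p30
  generalize D1 * D3 = Dn at *
  generalize p1 * p3 = K0 at *
  have a1 : ((0 : ℕ) : ℝ) ≤ ((12 : ℕ) : ℝ) * z := by push_cast; linarith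
  have a2 : ((12 : ℕ) : ℝ) * z < ((13 : ℕ) : ℝ) := by push_cast; linarith
  have a3 : ((2000 : ℕ) : ℝ) * q < 1 := by push_cast; linarith
  have g1 := chkK_ok c1 (by norm_num) (by norm_num) a1 a2 q0.le a3 hm
  have g2 := chkK_ok c2 (by norm_num) (by norm_num) a1 a2 q0.le a3 hm
  have g3 := chkK_ok c3 (by norm_num) (by norm_num) a1 a2 q0.le a3 hm
  have g4 := chkK_ok c4 (by norm_num) (by norm_num) a1 a2 q0.le a3 hm
  have g10 := chkK_ok c10 (by norm_num) (by norm_num) a1 a2 q0.le a3 hm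
  have g11 := chkK_ok c11 (by norm_num) (by norm_num) a1 a2 q0.le a3 hm
  have g12 := chkK_ok c12 (by norm_num) (by norm_num) a1 a2 q0.le a3 hm
  have g13 := chkK_ok c13 (by norm_num) (by norm_num) a1 a2 q0.le a3 hm
  simp only [ev_add, ev_sub, ev_mul, ev_pow, ev_v, ev_nat, H0ev, H1ev, List.getD_cons_zero,
    List.getD_cons_succ] at g1 g2 g3 g4 g10 g11 g12 g13
  push_cast at g1 g2 g3 g4 g10 g11 g12 g13
  generalize e0r η ζ κ1 κ2 = e0 at *
  generalize e1r η ζ κ1 κ2 = e1 at *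
  refine ⟨Dn0, ?_, ?_, ?_, ?_, ?_, ?_, ?_, ?_⟩
  · exact le_of_mul_le_mul_right (by linarith) Dn0
  · exact le_of_mul_le_mul_right (by linarith) Dn0
  · exact le_of_mul_le_mul_right (by linarith) K00
  · exact le_of_mul_le_mul_right (by linarith) K00
  · exact le_of_mul_le_mul_right (a := K0 * Dn ^ 3) (by linarith) (by positivity)
  · exact le_of_mul_le_mul_right (a := K0 * Dn ^ 4) (by linarith) (by positivity)
  · exact le_of_mul_le_mul_right (a := K0 * Dn ^ 4) (by linarith) (by positivity)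
  · exact le_of_mul_le_mul_right (a := K0 * Dn ^ 5) (by linarith) (by positivity)

theorem est {x E e0 e1 Dn z q y d : ℝ} (x0 : 0 < x) (z0 : 0 < z) (q0 : 0 < q) (Dn0 : 0 < Dn)
    (xq : 25000 * x ≤ q) (d0 : 0 ≤ d) (d1 : d ≤ 21 / 20) (hy : y ≤ x * d ^ 2)
    (hE : |E - e0 - x * e1| ≤ 100000 * x ^ 2)
    (g1 : e0 * Dn ≤ 4300 * q ^ 3 * (1 + z) ^ 6) (g2 : q ^ 3 ≤ e0 + 5310 * (1 + z) ^ 2 * q * y)
    (g3 : (e1 + 4 * q) * Dn ≤ 50000 * q * (1 + z) ^ 6) (g4 : 5900 * (1 + z) ^ 2 * q ≤ e1 - 4 * q) :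
    0 < E ∧ E * Dn ≤ (4300 * q ^ 3 + 50000 * q * x) * (1 + z) ^ 6 := by
  obtain ⟨a1, a2⟩ := abs_le.1 hE
  have b1 : 100000 * x ^ 2 ≤ x * (4 * q) := by nlinarith
  have b2 : d ^ 2 ≤ 10 / 9 := by nlinarith
  have b3 : 9 * y ≤ 10 * x := by nlinarith
  have b4 : x * (5900 * (1 + z) ^ 2 * q) ≤ x * (e1 - 4 * q) := by gcongr
  have b5 : 590 * (1 + z) ^ 2 * q * (9 * y) ≤ 590 * (1 + z) ^ 2 * q * (10 * x) := by gcongr
  have b6 : 0 < q ^ 3 := by positivity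
  have b7 : E * Dn ≤ (e0 + x * (e1 + 4 * q)) * Dn := by
    apply mul_le_mul_of_nonneg_right _ Dn0.le
    linarith
  have b8 : x * ((e1 + 4 * q) * Dn) ≤ x * (50000 * q * (1 + z) ^ 6) := by gcongr
  constructor <;> linarith

theorem rel {a r s t u : ℝ} (s0 : s ≠ 0) (t0 : t ≠ 0)
    (ea : a ^ 2 * (t ^ 2 - 4) = (r ^ 2 - 4) * (s ^ 2 - 4)) (hu : 2 * u = r * s - a * t) :
    u * (r * s - u) * (t ^ 2 - 4) / (s ^ 2 * t ^ 2) =
      1 + r ^ 2 / s ^ 2 - r ^ 2 / t ^ 2 - 4 / s ^ 2 := by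
  have e : u * (r * s - u) * (t ^ 2 - 4) = s ^ 2 * t ^ 2 + r ^ 2 * t ^ 2 - r ^ 2 * s ^ 2 - 4 * t ^ 2 := by
    linear_combination (t ^ 2 - 4) * (a * t + r * s - 2 * u) / 4 * hu - t ^ 2 / 4 * ea
  rw [e]
  field_simp

theorem glue {r s t u v w d κ1 κ2 a b c : ℝ} (r0 : r ≠ 0) (s0 : s ≠ 0) (t0 : t ≠ 0)
    (hu : 2 * u = r * s - a * t) (hv : 2 * v = r * t - b * s) (hw : 2 * w = s * t - c * r) :
    ((297 * d * s - 40 * d * (r * u - s) - 52 * v) * (κ1 * t / r) +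
      (52 * u - 297 * d * t - 40 * d * (t - r * v)) * (κ2 * s / r) +
      (891 * d * c - 640 - 144 * d * (a + b) - 104 * d * (2 * (a + b + d) + (r ^ 2 - 4) * d - c) -
        1902 * d ^ 2)) * (r ^ 2 / s ^ 2 * (r ^ 2 / t ^ 2)) =
    efr (1 / r ^ 2) (r ^ 2 / s ^ 2) (r ^ 2 / t ^ 2) κ1 κ2 (u * r / s) (v * r / t)
      (w * r ^ 2 / (s * t)) (d * r ^ 3 / (s * t)) := by
  have ea : a = (r * s - 2 * u) / t := by field_simp; linarith
  have eb : b = (r * t - 2 * v) / s := by field_simp; linarith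
  have ec : c = (s * t - 2 * w) / r := by field_simp; linarith
  subst ea eb ec
  unfold efr
  field_simp
  ring

/-- consequences of the size hypothesis -/
theorem side {R e q : ℝ} (R0 : 0 < R) (e0 : 0 < e) (e1 : 25 * e < 13) (q0 : 0 < q)
    (H : R * (4300 * q ^ 3 + 50000 * q * (1 / R)) ^ 4 ≤ 774840978 * q ^ 7 * e ^ 13) :
    2000 * q < 1 ∧ 25000 * (1 / R) ≤ q ∧ 1 / R ≤ 2 / 10 ^ 8 := by
  have a0 : e ^ 13 ≤ (13 / 25) ^ 13 := by gcongr; linarith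
  have a1 : 774840978 * q ^ 7 * e ^ 13 ≤ 158000 * q ^ 7 := by
    have : 0 < q ^ 7 := by positivity
    nlinarith
  have b1 : R * (4300 * q ^ 3) ^ 4 ≤ 158000 * q ^ 7 := by
    refine le_trans ?_ (H.trans a1)
    gcongr
    have : 0 ≤ 50000 * q * (1 / R) := by positivity
    linarith
  have b2 : R * (50000 * q * (1 / R)) ^ 4 ≤ 158000 * q ^ 7 := by
    refine le_trans ?_ (H.trans a1)
    gcongr
    have : 0 ≤ 4300 * q ^ 3 := by positivity
    linarith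
  have c1 : 4300 ^ 4 * (R * q * q ^ 4) ≤ 158000 :=
    le_of_mul_le_mul_right (a := q ^ 7) (by linarith) (by positivity)
  have c2 : 50000 ^ 4 ≤ 158000 * (R * q) ^ 3 := by
    apply le_of_mul_le_mul_right (a := q ^ 4 / R ^ 3) _ (by positivity)
    have u1 : R * (50000 * q * (1 / R)) ^ 4 = 50000 ^ 4 * (q ^ 4 / R ^ 3) := by field_simp
    have u2 : 158000 * (R * q) ^ 3 * (q ^ 4 / R ^ 3) = 158000 * q ^ 7 := by field_simp
    linarith
  have d1 : 34000 ≤ R * q := by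
    by_contra g
    have : (R * q) ^ 3 ≤ 34000 ^ 3 := by gcongr; linarith
    linarith
  have d2 : 2000 * q < 1 := by
    by_contra g
    have u1 : (1 / 2000) ^ 4 ≤ q ^ 4 := by gcongr; linarith
    have u2 : 34000 * (1 / 2000) ^ 4 ≤ R * q * q ^ 4 := by gcongr
    linarith
  refine ⟨d2, ?_, ?_⟩
  · rw [mul_one_div, div_le_iff₀ R0]; linarith
  · rw [div_le_iff₀ R0]; nlinarith

end CA

theorem Dat.eps {a b c r s t α β G τ k d : ℤ} (D : Dat a b c r s t α β G τ k d) :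
    25 * β < 13 * α := by
  have hα := D.hα
  have hβ := D.hβ
  have g1 : a * (c - b) * (α + β) ^ 2 = β ^ 3 * (2 * α + β) := by
    linear_combination (α + β) ^ 2 * (D.h1 - D.h2) + (α * β + G * (α + β)) * D.h4
  have g2 : b * (c - a) * (α + β) ^ 2 = α ^ 3 * (α + 2 * β) := by
    linear_combination (α + β) ^ 2 * (D.h1 - D.h3) + (α * β + G * (α + β)) * D.h4
  have g3 : 6 * (a * (c - b)) < b * (c - a) := by
    have u1 : 0 < (b - 6 * a) * c := mul_pos (by linarith [D.ratio]) (by linarith [D.ha, D.hab, D.hbc])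
    have u2 : 0 < a * b := mul_pos D.ha (by linarith [D.ha, D.hab])
    linarith
  have g4 : 6 * (a * (c - b)) * (α + β) ^ 2 < b * (c - a) * (α + β) ^ 2 := by gcongr
  by_contra g
  obtain ⟨w, w0, hw⟩ : ∃ w, 0 ≤ w ∧ w = 25 * β - 13 * α := ⟨_, by omega, rfl⟩
  have g5 : 25 ^ 4 * (6 * (β ^ 3 * (2 * α + β)) - α ^ 3 * (α + 2 * β)) = 33591 * α ^ 4 +
      173578 * α ^ 3 * w + 17784 * α ^ 2 * w ^ 2 + 612 * α * w ^ 3 + 6 * w ^ 4 := by rw [hw]; ring
  have g6 : 0 ≤ 33591 * α ^ 4 + 173578 * α ^ 3 * w + 17784 * α ^ 2 * w ^ 2 + 612 * α * w ^ 3 +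
    6 * w ^ 4 := by positivity
  linarith

open CA in
/-- no counterexample in the corner where the smallest entry is large -/
theorem cornerA {a b c r s t α β G τ j d : ℤ} (D : Dat a b c r s t α β G τ (2 * j) d)
    (hd : 2 * d = 2 * (a + b + c) + a * b * c - r * s * t) {e q : ℝ} (he : e * (α - G) = G)
    (hq : q * G = 2 * j)
    (H : (r : ℝ) ^ 2 * (4300 * q ^ 3 + 50000 * q * (1 / (r : ℝ) ^ 2)) ^ 4 ≤
      774840978 * q ^ 7 * e ^ 13) : False := by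
  obtain ⟨d', u, v, w, hd', hu, hv, hw, qu, -, -⟩ := down D.hr D.hs D.ht
  obtain rfl : d = d' := by omega
  obtain ⟨X, Y, Z, W, X0, Y0, Z0, W0, hX, hY, hZ, hW, f3, f2, f1, i1, i2, i3, -⟩ := D.roots
  obtain ⟨n, hn⟩ := form_sq (x := j + G + α) (y := j + G + β) (z := j) (by push_cast; exact hX)
    (by push_cast; exact hY) hZ i1 i2 i3 (297 * d * s - 40 * d * (r * u - s) - 52 * v)
    (52 * u - 297 * d * t - 40 * d * (t - r * v))
    (891 * d * c - 640 - 144 * d * (a + b) - 104 * d * (2 * (a + b + d) + (r ^ 2 - 4) * d - c) -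
      1902 * d ^ 2)
  push_cast at hn
  have rat := D.eps
  have l1 := D.lt_β
  have l2 := D.npos
  have l3 := D.jpos
  have l4 := D.hG
  have l5 := D.ha
  have l6 := D.hab
  have l7 := D.hbc
  have G0 : (0 : ℝ) < G := by exact_mod_cast l4
  have j0 : (0 : ℝ) < j := by exact_mod_cast l3
  have α0 : (0 : ℝ) < α := by exact_mod_cast D.hα
  have β0 : (0 : ℝ) < β := by exact_mod_cast D.hβ
  have r0 : (0 : ℝ) < r := by exact_mod_cast D.rpos
  have s0 : (0 : ℝ) < s := by exact_mod_cast D.spos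
  have t0 : (0 : ℝ) < t := by exact_mod_cast D.tpos
  have a0 : (0 : ℝ) < a := by exact_mod_cast l5
  have b0 : (0 : ℝ) < b := by exact_mod_cast (by omega : 0 < b)
  have c0 : (0 : ℝ) < c := by exact_mod_cast (by omega : 0 < c)
  have d0 : (1 : ℝ) ≤ d := by exact_mod_cast D.hd
  have T0 : (0 : ℝ) < α - 2 * G := by exact_mod_cast (by omega : 0 < α - 2 * G)
  have q1 : (0 : ℝ) < α - 2 * G - 2 * j := by exact_mod_cast (by omega : 0 < α - 2 * G - 2 * j)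
  have q2 : (0 : ℝ) < 2 * j + 2 * G - β := by exact_mod_cast (by omega : 0 < 2 * j + 2 * G - β)
  have rat' : (25 : ℝ) * β < 13 * α := by exact_mod_cast rat
  have h4 : (α : ℝ) * β = G * (α + β) := by exact_mod_cast D.h4
  have er : (r : ℝ) ^ 2 * (α + β - 4 * G - 3 * j) = j * (2 * j + 3 * G) ^ 2 := by
    exact_mod_cast D.er
  have es : (s : ℝ) ^ 2 * (α + β - 4 * G - 3 * j) = (j + G + β) * (2 * j + 2 * G - β) ^ 2 := by
    exact_mod_cast D.es
  have et : (t : ℝ) ^ 2 * (α + β - 4 * G - 3 * j) = (j + G + α) * (α - 2 * G - 2 * j) ^ 2 := by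
    exact_mod_cast D.et
  have hr : (r : ℝ) ^ 2 = a * b + 4 := by exact_mod_cast D.hr
  have hs : (s : ℝ) ^ 2 = a * c + 4 := by exact_mod_cast D.hs
  have ht : (t : ℝ) ^ 2 = b * c + 4 := by exact_mod_cast D.ht
  have hu' : (2 : ℝ) * u = r * s - a * t := by exact_mod_cast hu
  have hv' : (2 : ℝ) * v = r * t - b * s := by exact_mod_cast hv
  have hw' : (2 : ℝ) * w = s * t - c * r := by exact_mod_cast hw
  have qu' : (u : ℝ) ^ 2 = a * d + 4 := by exact_mod_cast qu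
  clear D hd hd' hu hv hw qu rat l1 l2 l3 l4 l5 l6 l7 i1 i2 i3
  generalize (a : ℝ) = a, (b : ℝ) = b, (c : ℝ) = c, (r : ℝ) = r, (s : ℝ) = s, (t : ℝ) = t,
    (α : ℝ) = α, (β : ℝ) = β, (G : ℝ) = G, (j : ℝ) = j, (d : ℝ) = d, (u : ℝ) = u, (v : ℝ) = v,
    (w : ℝ) = w at *
  obtain ⟨z, hz⟩ : ∃ z, z * (α - 2 * G) = G := ⟨G / (α - 2 * G), div_mul_cancel₀ _ T0.ne'⟩
  have z0 : 0 < z := by
    by_contra g
    have : z * (α - 2 * G) ≤ 0 := mul_nonpos_of_nonpos_of_nonneg (not_lt.1 g) T0.le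
    linarith
  have q0 : 0 < q := by
    by_contra g
    have : q * G ≤ 0 := mul_nonpos_of_nonpos_of_nonneg (not_lt.1 g) G0.le
    linarith
  have T1 : 0 < α - G := by linarith
  have ez : e * (1 + z) = z := by
    apply mul_right_cancel₀ (mul_pos T0 T1).ne'
    linear_combination (α - G) * he + (e - 1) * (α - G) * hz
  have eβ : e * α = β := by
    apply mul_right_cancel₀ T1.ne'
    linear_combination α * he - h4
  have e0 : 0 < e := by
    by_contra g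
    have : e * α ≤ 0 := mul_nonpos_of_nonpos_of_nonneg (not_lt.1 g) α0.le
    linarith
  have e1 : 25 * e < 13 := lt_of_mul_lt_mul_right (a := α) (by linarith) α0.le
  have z1 : 12 * z < 13 := by nlinarith only [ez, e1, z0]
  have hβ : β * (1 + z) = G * (1 + 2 * z) := by linear_combination α * ez - (1 + z) * eβ + hz
  obtain ⟨q3, xq, x1⟩ := side (by positivity) e0 e1 q0 H
  obtain ⟨κ1, hκ1⟩ : ∃ κ, κ * (α - 2 * G - 2 * j) = 2 * j + 3 * G := ⟨_, div_mul_cancel₀ _ q1.ne'⟩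
  obtain ⟨κ2, hκ2⟩ : ∃ κ, κ * (2 * j + 2 * G - β) = 2 * j + 3 * G := ⟨_, div_mul_cancel₀ _ q2.ne'⟩
  have k0 : 0 ≤ κ1 := by
    by_contra g
    have : κ1 * (α - 2 * G - 2 * j) ≤ 0 := mul_nonpos_of_nonpos_of_nonneg (not_le.1 g).le q1.le
    linarith
  have k2 : 0 ≤ κ2 := by
    by_contra g
    have : κ2 * (2 * j + 2 * G - β) ≤ 0 := mul_nonpos_of_nonpos_of_nonneg (not_le.1 g).le q2.le
    linarith
  have eX : X = Z * (κ1 * t / r) := by
    have : X * r = Z * κ1 * t := by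
      apply mul_right_cancel₀ q1.ne'
      linear_combination -r * f1 + t * f3 - Z * t * hκ1
    field_simp
    linear_combination this
  have eY : Y = Z * (κ2 * s / r) := by
    have : Y * r = Z * κ2 * s := by
      apply mul_right_cancel₀ q2.ne'
      linear_combination -r * f2 + s * f3 - Z * s * hκ2
    field_simp
    linear_combination this
  obtain ⟨p1, hp1⟩ : ∃ p, p = 1 + q * (1 + z) := ⟨_, rfl⟩
  obtain ⟨p3, hp3⟩ : ∃ p, p = 1 - z * q := ⟨_, rfl⟩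
  obtain ⟨D1, hD1⟩ : ∃ p, p = (4 + 6 * z + q * (1 + z)) * p1 ^ 2 := ⟨_, rfl⟩
  obtain ⟨D3, hD3⟩ : ∃ p, p = (2 + 6 * z + z * q) * p3 ^ 2 := ⟨_, rfl⟩
  have m1 : (1 + z) * (2 * j + 2 * G - β) = G * p1 := by
    rw [hp1]; linear_combination -hβ - (1 + z) * hq
  have m3 : z * (α - 2 * G - 2 * j) = G * p3 := by
    rw [hp3]; linear_combination hz + z * hq
  have m2 : 2 * (1 + z) * (j + G + β) = G * (4 + 6 * z + q * (1 + z)) := by
    linear_combination 2 * hβ - (1 + z) * hq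
  have m4 : 2 * z * (j + G + α) = G * (2 + 6 * z + z * q) := by
    linear_combination 2 * hz - z * hq
  have m5 : 2 * j + 3 * G = G * (3 + q) := by linear_combination -hq
  have hη : r ^ 2 / s ^ 2 * D1 = q * (3 + q) ^ 2 * (1 + z) ^ 3 := by
    rw [div_mul_eq_mul_div, div_eq_iff (by positivity)]
    apply mul_left_cancel₀ (pow_pos G0 3).ne'
    have u1 : G ^ 3 * D1 = 2 * (1 + z) ^ 3 * ((j + G + β) * (2 * j + 2 * G - β) ^ 2) := by
      calc G ^ 3 * D1 = (G * (4 + 6 * z + q * (1 + z))) * (G * p1) ^ 2 := by rw [hD1]; ring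
        _ = _ := by rw [← m1, ← m2]; ring
    have u2 : G ^ 3 * (q * (3 + q) ^ 2) = 2 * (j * (2 * j + 3 * G) ^ 2) := by
      calc G ^ 3 * (q * (3 + q) ^ 2) = (q * G) * (G * (3 + q)) ^ 2 := by ring
        _ = _ := by rw [← m5, hq]; ring
    rw [← es] at u1
    rw [← er] at u2
    linear_combination r ^ 2 * u1 - (1 + z) ^ 3 * s ^ 2 * u2
  have hζ : r ^ 2 / t ^ 2 * D3 = z ^ 3 * q * (3 + q) ^ 2 := by
    rw [div_mul_eq_mul_div, div_eq_iff (by positivity)]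
    apply mul_left_cancel₀ (pow_pos G0 3).ne'
    have u1 : G ^ 3 * D3 = 2 * z ^ 3 * ((j + G + α) * (α - 2 * G - 2 * j) ^ 2) := by
      calc G ^ 3 * D3 = (G * (2 + 6 * z + z * q)) * (G * p3) ^ 2 := by rw [hD3]; ring
        _ = _ := by rw [← m3, ← m4]; ring
    have u2 : G ^ 3 * (q * (3 + q) ^ 2) = 2 * (j * (2 * j + 3 * G) ^ 2) := by
      calc G ^ 3 * (q * (3 + q) ^ 2) = (q * G) * (G * (3 + q)) ^ 2 := by ring
        _ = _ := by rw [← m5, hq]; ring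
    rw [← et] at u1
    rw [← er] at u2
    linear_combination r ^ 2 * u1 - z ^ 3 * t ^ 2 * u2
  have h1 : κ1 * p3 = z * (3 + q) := by
    apply mul_left_cancel₀ G0.ne'
    linear_combination z * hκ1 - κ1 * m3 + z * m5
  have h2 : κ2 * p1 = (3 + q) * (1 + z) := by
    apply mul_left_cancel₀ G0.ne'
    linear_combination (1 + z) * hκ2 - κ2 * m1 + (1 + z) * m5
  obtain ⟨Dn0, η1, ζ1, k1, k3, g1, g2, g3, g4⟩ := zq z0 z1 q0 q3 hp1 hp3 hD1 hD3 hη hζ h1 h2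
  have ra := rel s0.ne' t0.ne' (by rw [hr, hs, ht]; ring) hu'
  have rb := rel (a := b) (r := r) (s := t) (t := s) t0.ne' s0.ne' (by rw [hr, hs, ht]; ring) hv'
  have rc := rel (a := c) (r := s) (s := t) (t := r) t0.ne' r0.ne' (by rw [hr, hs, ht]; ring) hw'
  obtain ⟨δ0, δ1, hE⟩ := remainder (x := 1 / r ^ 2) (η := r ^ 2 / s ^ 2) (ζ := r ^ 2 / t ^ 2)
    (κ1 := κ1) (κ2 := κ2) (a := u * r / s) (b := v * r / t) (c := w * r ^ 2 / (s * t))
    (d := d * r ^ 3 / (s * t)) (by positivity) x1 (by positivity) (by linarith) (by positivity)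
    (by linarith) k0 k1 k2 k3
    (by
      have u1 : (u * r / s - 1 / r ^ 2 * (u * r / s) ^ 2) * (1 - 4 * (1 / r ^ 2) * (r ^ 2 / t ^ 2)) =
        u * (r * s - u) * (t ^ 2 - 4) / (s ^ 2 * t ^ 2) := by field_simp
      have u2 : 4 * (1 / r ^ 2) * (r ^ 2 / s ^ 2) = 4 / s ^ 2 := by field_simp
      rw [u1, u2, ra])
    (by
      have u1 : 1 / r ^ 2 * (u * r / s) = u / (r * s) := by field_simp
      have : 0 < a * t := by positivity
      rw [u1, div_lt_iff₀ (by positivity)]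
      linarith)
    (by
      have u1 : (v * r / t - 1 / r ^ 2 * (v * r / t) ^ 2) * (1 - 4 * (1 / r ^ 2) * (r ^ 2 / s ^ 2)) =
        v * (r * t - v) * (s ^ 2 - 4) / (t ^ 2 * s ^ 2) := by field_simp
      have u2 : 4 * (1 / r ^ 2) * (r ^ 2 / t ^ 2) = 4 / t ^ 2 := by field_simp
      rw [u1, u2, rb]
      ring)
    (by
      have u1 : 1 / r ^ 2 * (v * r / t) = v / (r * t) := by field_simp
      have : 0 < b * s := by positivity
      rw [u1, div_lt_iff₀ (by positivity)]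
      linarith)
    (by
      have u1 : (w * r ^ 2 / (s * t) - 1 / r ^ 2 * (w * r ^ 2 / (s * t)) ^ 2) *
          (1 - 4 * (1 / r ^ 2) * 1) =
        w * (s * t - w) * (r ^ 2 - 4) / (t ^ 2 * r ^ 2) * (r ^ 2 / s ^ 2) := by field_simp
      rw [u1, rc]
      field_simp)
    (by
      have u1 : 1 / r ^ 2 * (w * r ^ 2 / (s * t)) = w / (s * t) := by field_simp
      have : 0 < c * r := by positivity
      rw [u1, div_lt_iff₀ (by positivity)]
      linarith)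
    (by
      have u1 : d * r ^ 3 / (s * t) * (1 - 2 * (1 / r ^ 2) * (u * r / s)) =
        d * (r * s - 2 * u) / t * (r ^ 2 / s ^ 2) := by field_simp
      have u2 : (u * r / s) ^ 2 - 4 * (r ^ 2 / s ^ 2) = (u ^ 2 - 4) * (r ^ 2 / s ^ 2) := by
        field_simp
      have u3 : d * (r * s - 2 * u) / t = u ^ 2 - 4 := by
        rw [div_eq_iff t0.ne']
        linear_combination -d * hu' - t * qu'
      rw [u1, u2, u3])
  have hy : r ^ 2 / s ^ 2 * (r ^ 2 / t ^ 2) ≤ 1 / r ^ 2 * (d * r ^ 3 / (s * t)) ^ 2 := by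
    have u1 : 1 / r ^ 2 * (d * r ^ 3 / (s * t)) ^ 2 = d ^ 2 * (r ^ 2 / s ^ 2 * (r ^ 2 / t ^ 2)) := by
      field_simp
    rw [u1]
    exact le_mul_of_one_le_left (by positivity) (one_le_pow₀ d0)
  obtain ⟨E0, E1⟩ := est (by positivity) z0 q0 Dn0 xq δ0 δ1 hy hE g1 g2 g3 g4
  rw [← glue r0.ne' s0.ne' t0.ne' hu' hv' hw'] at E0 E1
  have y0 : 0 < r ^ 2 / s ^ 2 * (r ^ 2 / t ^ 2) := by positivity
  have yD : r ^ 2 / s ^ 2 * (r ^ 2 / t ^ 2) * (D1 * D3) = z ^ 3 * q ^ 2 * (3 + q) ^ 4 * (1 + z) ^ 3 := by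
    calc _ = (r ^ 2 / s ^ 2 * D1) * (r ^ 2 / t ^ 2 * D3) := by ring
      _ = _ := by rw [hη, hζ]; ring
  obtain ⟨F, hF⟩ : ∃ F, F = (297 * d * s - 40 * d * (r * u - s) - 52 * v) * (κ1 * t / r) +
      (52 * u - 297 * d * t - 40 * d * (t - r * v)) * (κ2 * s / r) +
      (891 * d * c - 640 - 144 * d * (a + b) - 104 * d * (2 * (a + b + d) + (r ^ 2 - 4) * d - c) -
        1902 * d ^ 2) := ⟨_, rfl⟩
  rw [← hF] at E0 E1
  have F0 : 0 < F := (pos_iff_pos_of_mul_pos E0).2 y0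
  have hn' : j * F ^ 2 = n := by rw [← hn, hF, eX, eY, ← hZ]; ring
  rw [mul_assoc, yD] at E1
  generalize 4300 * q ^ 3 + 50000 * q * (1 / r ^ 2) = U at *
  have jb : 18 * j ^ 2 * (z * (1 + z)) < r ^ 2 * q := by
    have u1 : z * (1 + z) * (α + β - 4 * G) = G := by linear_combination z * hβ + (1 + z) * hz
    have u2 : j * (3 * G) ^ 2 < r ^ 2 * (α + β - 4 * G) := by
      have w1 : j * (3 * G) ^ 2 ≤ j * (2 * j + 3 * G) ^ 2 := by gcongr; linarith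
      have w2 : 0 < r ^ 2 * j := by positivity
      linarith
    have u3 : z * (1 + z) * (j * (3 * G) ^ 2) < z * (1 + z) * (r ^ 2 * (α + β - 4 * G)) := by gcongr
    apply lt_of_mul_lt_mul_left (a := G ^ 2) _ (by positivity)
    have u4 : z * (1 + z) * (r ^ 2 * (α + β - 4 * G)) = r ^ 2 * G := by linear_combination r ^ 2 * u1
    have u5 : G ^ 2 * (r ^ 2 * q) = 2 * j * (r ^ 2 * G) := by linear_combination r ^ 2 * G * hq
    have u6 : 2 * j * (z * (1 + z) * (j * (3 * G) ^ 2)) < 2 * j * (r ^ 2 * G) := by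
      rw [← u4]; gcongr
    linarith
  have F1 : F * (81 * (z ^ 3 * q ^ 2)) ≤ U * (1 + z) ^ 3 := by
    apply le_of_mul_le_mul_right (a := (1 + z) ^ 3) _ (by positivity)
    have u1 : (3 : ℝ) ^ 4 ≤ (3 + q) ^ 4 := by gcongr; linarith
    have u2 : F * (z ^ 3 * q ^ 2 * 3 ^ 4 * (1 + z) ^ 3) ≤
        F * (z ^ 3 * q ^ 2 * (3 + q) ^ 4 * (1 + z) ^ 3) := by gcongr
    linarith
  have F2 : (F * (81 * (z ^ 3 * q ^ 2))) ^ 4 ≤ (U * (1 + z) ^ 3) ^ 4 := by gcongr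
  have F3 : (j * F ^ 2) ^ 2 < 1 := by
    apply lt_of_mul_lt_mul_right (a := 774840978 * q ^ 8 * z ^ 13 * (1 + z)) _ (by positivity)
    calc (j * F ^ 2) ^ 2 * (774840978 * q ^ 8 * z ^ 13 * (1 + z))
        = 18 * j ^ 2 * (z * (1 + z)) * (F * (81 * (z ^ 3 * q ^ 2))) ^ 4 := by ring
      _ < r ^ 2 * q * (F * (81 * (z ^ 3 * q ^ 2))) ^ 4 := by gcongr
      _ ≤ r ^ 2 * q * (U * (1 + z) ^ 3) ^ 4 := by gcongr
      _ = r ^ 2 * U ^ 4 * (q * (1 + z) ^ 12) := by ring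
      _ ≤ 774840978 * q ^ 7 * e ^ 13 * (q * (1 + z) ^ 12) := by gcongr
      _ ≤ 774840978 * q ^ 7 * e ^ 13 * (q * (1 + z) ^ 14) := by gcongr <;> linarith
      _ = 1 * (774840978 * q ^ 8 * (e * (1 + z)) ^ 13 * (1 + z)) := by ring
      _ = _ := by rw [ez]
  have F4 : 0 < j * F ^ 2 := by positivity
  have F5 : j * F ^ 2 < 1 := by nlinarith only [F3, F4]
  exact no_int_between (m := 0) hn' (by simpa using F4) (by simpa using F5)

end Pool.Agent.Lib.MP_b2ee0b_nt
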