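import Pool.Agent.Lib.MP_b2ee0b_nt.CA3

/-! The real chart attached to the data, and crude sizes. -/

namespace Pool.Agent.Lib.MP_b2ee0b_nt

structure Chart (a b c r s t G j z q κ1 κ2 p1 p3 D1 D3 : ℝ) : Prop where
  z0 : 0 < z
  z1 : 12 * z < 13
  q0 : 0 < q
  k1 : 0 < κ1
  k2 : 0 < κ2
  p30 : 0 < p3
  hq : q * G = 2 * j
  hp1 : p1 = 1 + q * (1 + z)
  hp3 : p3 = 1 - z * q
  hD1 : D1 = (4 + 6 * z + q * (1 + z)) * p1 ^ 2
  hD3 : D3 = (2 + 6 * z + z * q) * p3 ^ 2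
  hη : r ^ 2 / s ^ 2 * D1 = q * (3 + q) ^ 2 * (1 + z) ^ 3
  hζ : r ^ 2 / t ^ 2 * D3 = z ^ 3 * q * (3 + q) ^ 2
  h1 : κ1 * p3 = z * (3 + q)
  h2 : κ2 * p1 = (3 + q) * (1 + z)
  hj : 4 * j ^ 2 * (z * (1 + z)) * (3 + q) ^ 2 = r ^ 2 * q * (2 - 3 * q * (z * (1 + z)))
  hz : z ^ 3 * (2 + 3 * z) * (b * (c - a)) = (1 + z) ^ 3 * (1 + 3 * z) * (a * (c - b))
  i1 : ∃ n : ℤ, j * (κ1 * t / r) = n
  i2 : ∃ n : ℤ, j * (κ2 * s / r) = n
  i3 : ∃ n : ℤ, q * κ1 * κ2 / (3 + q) * (s * t / r) = 2 * n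

theorem Dat.chart {a b c r s t α β G τ j d : ℤ} (D : Dat a b c r s t α β G τ (2 * j) d) :
    ∃ z q κ1 κ2 p1 p3 D1 D3 : ℝ, Chart a b c r s t G j z q κ1 κ2 p1 p3 D1 D3 := by
  obtain ⟨X, Y, Z, W, X0, Y0, Z0, W0, hX, hY, hZ, hW, f3, f2, f1, -, i2, i3, -, -, -, i4⟩ := D.roots
  have rat := D.eps
  have l1 := D.lt_β
  have l2 := D.npos
  have l3 := D.jpos
  have l4 := D.hG
  have G0 : (0 : ℝ) < G := by exact_mod_cast l4
  have j0 : (0 : ℝ) < j := by exact_mod_cast l3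
  have α0 : (0 : ℝ) < α := by exact_mod_cast D.hα
  have β0 : (0 : ℝ) < β := by exact_mod_cast D.hβ
  have r0 : (0 : ℝ) < r := by exact_mod_cast D.rpos
  have s0 : (0 : ℝ) < s := by exact_mod_cast D.spos
  have t0 : (0 : ℝ) < t := by exact_mod_cast D.tpos
  have T0 : (0 : ℝ) < α - 2 * G := by exact_mod_cast (by omega : 0 < α - 2 * G)
  have q1 : (0 : ℝ) < α - 2 * G - 2 * j := by exact_mod_cast (by omega : 0 < α - 2 * G - 2 * j)
  have q2 : (0 : ℝ) < 2 * j + 2 * G - β := by exact_mod_cast (by omega : 0 < 2 * j + 2 * G - β)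
  have rat' : (25 : ℝ) * β < 13 * α := by exact_mod_cast rat
  have h4 : (α : ℝ) * β = G * (α + β) := by exact_mod_cast D.h4
  have er : (r : ℝ) ^ 2 * (α + β - 4 * G - 3 * j) = j * (2 * j + 3 * G) ^ 2 := by
    exact_mod_cast D.er
  have es : (s : ℝ) ^ 2 * (α + β - 4 * G - 3 * j) = (j + G + β) * (2 * j + 2 * G - β) ^ 2 := by
    exact_mod_cast D.es
  have et : (t : ℝ) ^ 2 * (α + β - 4 * G - 3 * j) = (j + G + α) * (α - 2 * G - 2 * j) ^ 2 := by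
    exact_mod_cast D.et
  have e1 : (β : ℝ) ^ 2 - G ^ 2 = a * (c - b) := by
    exact_mod_cast (by linear_combination D.h2 - D.h1 : β ^ 2 - G ^ 2 = a * (c - b))
  have e2 : (α : ℝ) ^ 2 - G ^ 2 = b * (c - a) := by
    exact_mod_cast (by linear_combination D.h3 - D.h1 : α ^ 2 - G ^ 2 = b * (c - a))
  clear D rat l1 l2 l3 l4
  generalize (a : ℝ) = a, (b : ℝ) = b, (c : ℝ) = c, (r : ℝ) = r, (s : ℝ) = s, (t : ℝ) = t,
    (α : ℝ) = α, (β : ℝ) = β, (G : ℝ) = G, (j : ℝ) = j at *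
  obtain ⟨z, hz⟩ : ∃ z, z * (α - 2 * G) = G := ⟨G / (α - 2 * G), div_mul_cancel₀ _ T0.ne'⟩
  obtain ⟨q, hq⟩ : ∃ q, q * G = 2 * j := ⟨_, div_mul_cancel₀ _ G0.ne'⟩
  have z0 : 0 < z := (pos_iff_pos_of_mul_pos (by rw [hz]; exact G0)).2 T0
  have q0 : 0 < q := (pos_iff_pos_of_mul_pos (by rw [hq]; positivity)).2 G0
  have hβ : β * (1 + z) = G * (1 + 2 * z) := by
    apply mul_right_cancel₀ T0.ne'
    linear_combination h4 + (β - 2 * G) * hz
  have hα : z * α = G * (1 + 2 * z) := by linear_combination hz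
  have z1 : 12 * z < 13 := by
    have u1 : 25 * β * (z * (1 + z)) < 13 * α * (z * (1 + z)) := by gcongr
    have u2 : 12 * z * (G * (1 + 2 * z)) < 13 * (G * (1 + 2 * z)) := by
      linear_combination u1 - 25 * z * hβ + 13 * (1 + z) * hα
    exact lt_of_mul_lt_mul_right u2 (by positivity)
  obtain ⟨κ1, hκ1⟩ : ∃ κ, κ * (α - 2 * G - 2 * j) = 2 * j + 3 * G := ⟨_, div_mul_cancel₀ _ q1.ne'⟩
  obtain ⟨κ2, hκ2⟩ : ∃ κ, κ * (2 * j + 2 * G - β) = 2 * j + 3 * G := ⟨_, div_mul_cancel₀ _ q2.ne'⟩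
  have k0 : 0 < κ1 := (pos_iff_pos_of_mul_pos (by rw [hκ1]; positivity)).2 q1
  have k2 : 0 < κ2 := (pos_iff_pos_of_mul_pos (by rw [hκ2]; positivity)).2 q2
  have eX : X = Z * (κ1 * t / r) := by
    have : X * r = Z * κ1 * t := by
      apply mul_right_cancel₀ q1.ne'
      linear_combination -r * f1 + t * f3 - Z * t * hκ1
    field_simp
    linear_combination this
  have eY : Y = Z * (κ2 * s / r) := by
    have : Y * r = Z * κ2 * s := by
      apply mul_right_cancel₀ q2.ne'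
      linear_combination -r * f2 + s * f3 - Z * s * hκ2
    field_simp
    linear_combination this
  obtain ⟨p1, hp1⟩ : ∃ p, p = 1 + q * (1 + z) := ⟨_, rfl⟩
  obtain ⟨p3, hp3⟩ : ∃ p, p = 1 - z * q := ⟨_, rfl⟩
  obtain ⟨D1, hD1⟩ : ∃ p, p = (4 + 6 * z + q * (1 + z)) * p1 ^ 2 := ⟨_, rfl⟩
  obtain ⟨D3, hD3⟩ : ∃ p, p = (2 + 6 * z + z * q) * p3 ^ 2 := ⟨_, rfl⟩
  have m1 : (1 + z) * (2 * j + 2 * G - β) = G * p1 := by
    rw [hp1]; linear_combination -hβ - (1 + z) * hq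
  have m3 : z * (α - 2 * G - 2 * j) = G * p3 := by
    rw [hp3]; linear_combination hz + z * hq
  have m2 : 2 * (1 + z) * (j + G + β) = G * (4 + 6 * z + q * (1 + z)) := by
    linear_combination 2 * hβ - (1 + z) * hq
  have m4 : 2 * z * (j + G + α) = G * (2 + 6 * z + z * q) := by
    linear_combination 2 * hz - z * hq
  have m5 : 2 * j + 3 * G = G * (3 + q) := by linear_combination -hq
  have u2 : G ^ 3 * (q * (3 + q) ^ 2) = 2 * (r ^ 2 * (α + β - 4 * G - 3 * j)) := by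
    calc G ^ 3 * (q * (3 + q) ^ 2) = (q * G) * (G * (3 + q)) ^ 2 := by ring
      _ = _ := by rw [← m5, hq, er]; ring
  refine ⟨z, q, κ1, κ2, p1, p3, D1, D3, z0, z1, q0, k0, k2, ?_, hq, hp1, hp3, hD1, hD3, ?_, ?_, ?_,
    ?_, ?_, ?_, ?_, ?_, ?_⟩
  · exact (pos_iff_pos_of_mul_pos (by rw [← m3]; positivity)).1 G0
  · rw [div_mul_eq_mul_div, div_eq_iff (by positivity)]
    apply mul_left_cancel₀ (pow_pos G0 3).ne'
    have u1 : G ^ 3 * D1 = 2 * (1 + z) ^ 3 * ((j + G + β) * (2 * j + 2 * G - β) ^ 2) := by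
      calc G ^ 3 * D1 = (G * (4 + 6 * z + q * (1 + z))) * (G * p1) ^ 2 := by rw [hD1]; ring
        _ = _ := by rw [← m1, ← m2]; ring
    rw [← es] at u1
    linear_combination r ^ 2 * u1 - (1 + z) ^ 3 * s ^ 2 * u2
  · rw [div_mul_eq_mul_div, div_eq_iff (by positivity)]
    apply mul_left_cancel₀ (pow_pos G0 3).ne'
    have u1 : G ^ 3 * D3 = 2 * z ^ 3 * ((j + G + α) * (α - 2 * G - 2 * j) ^ 2) := by
      calc G ^ 3 * D3 = (G * (2 + 6 * z + z * q)) * (G * p3) ^ 2 := by rw [hD3]; ring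
        _ = _ := by rw [← m3, ← m4]; ring
    rw [← et] at u1
    linear_combination r ^ 2 * u1 - z ^ 3 * t ^ 2 * u2
  · apply mul_left_cancel₀ G0.ne'
    linear_combination z * hκ1 - κ1 * m3 + z * m5
  · apply mul_left_cancel₀ G0.ne'
    linear_combination (1 + z) * hκ2 - κ2 * m1 + (1 + z) * m5
  · have u1 : z * (1 + z) * (α + β - 4 * G) = G := by linear_combination z * hβ + (1 + z) * hz
    apply mul_left_cancel₀ G0.ne'
    linear_combination q * (z * (1 + z)) * u2 + 2 * q * r ^ 2 * u1 -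
      (G * (z * (1 + z)) * (3 + q) ^ 2 * (q * G + 2 * j) - 3 * r ^ 2 * q * (z * (1 + z))) * hq
  · rw [← e1, ← e2]
    have u1 : z ^ 2 * (α ^ 2 - G ^ 2) = G ^ 2 * ((1 + z) * (1 + 3 * z)) := by
      linear_combination (z * α + G * (1 + 2 * z)) * hα
    have u3 : (1 + z) ^ 2 * (β ^ 2 - G ^ 2) = G ^ 2 * (z * (2 + 3 * z)) := by
      linear_combination (β * (1 + z) + G * (1 + 2 * z)) * hβ
    linear_combination z * (2 + 3 * z) * u1 - (1 + z) * (1 + 3 * z) * u3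
  · obtain ⟨n, hn⟩ := i2
    exact ⟨n, by rw [← hn, eX, ← hZ]; ring⟩
  · obtain ⟨n, hn⟩ := i3
    exact ⟨n, by rw [← hn, eY, ← hZ]; ring⟩
  · obtain ⟨n, hn⟩ := i4
    have eW : W = Z * (G * (3 + q)) / r := by rw [← m5, ← f3]; field_simp
    have eq : q = 2 * Z ^ 2 / G := by rw [hZ, ← hq]; field_simp
    refine ⟨n, ?_⟩
    rw [← hn, eX, eY, eW]
    generalize 3 + q = w
    rw [eq]
    by_cases g : w = 0
    · simp [g]
    · field_simp

theorem Dat.ab12 {a b c r s t α β G τ k d : ℤ} (D : Dat a b c r s t α β G τ k d) : 12 ≤ a * b := by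
  have h1 := D.ratio
  have h2 := D.ha
  have h3 := D.hr
  have h4 := D.r0
  have : 7 ≤ a * b := by nlinarith
  have : 4 ≤ r := by nlinarith
  nlinarith

theorem Dat.size2 {a b c r s t α β G τ k d : ℤ} (D : Dat a b c r s t α β G τ k d) :
    2847 * (a * d ^ 3) < b ^ 4 := by
  have ha := D.ha
  have hab := D.hab
  have hb : 0 < b := by omega
  have hd := D.hd
  have h12 := D.ab12
  have h1 : (a * b * d) ^ 3 ≤ c ^ 3 := by gcongr; linarith [D.hc]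
  have h2 : (3 * (a * b + 4)) ^ 6 ≤ (4 * (a * b)) ^ 6 :=
    pow_le_pow_left₀ (by positivity) (by linarith) 6
  have h3 : (b - a) ^ 12 ≤ b ^ 12 := pow_le_pow_left₀ (by omega) (by omega) 12
  have h4 : (3 * (a * b + 4)) ^ 6 * (b - a) ^ 12 ≤ (4 * (a * b)) ^ 6 * b ^ 12 := by gcongr
  have h5 : 16000 * a ^ 4 * b ^ 11 * (a * b * d) ^ 3 ≤ 16000 * a ^ 4 * b ^ 11 * c ^ 3 := by gcongr
  have h6 := D.size
  have h7 : 0 < a ^ 6 * b ^ 14 * (a * d ^ 3) := by positivity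
  apply lt_of_mul_lt_mul_left (a := a ^ 6 * b ^ 14) _ (by positivity)
  linarith

namespace Chart

variable {a b c r s t G j z q κ1 κ2 p1 p3 D1 D3 : ℝ} (C : Chart a b c r s t G j z q κ1 κ2 p1 p3 D1 D3)
include C

theorem p10 : 0 < p1 := by
  have := C.z0
  have := C.q0
  rw [C.hp1]; positivity

theorem D10 : 0 < D1 := by
  have := C.z0
  have := C.q0
  have := C.p10
  rw [C.hD1]; positivity

theorem D30 : 0 < D3 := by
  have := C.z0
  have := C.q0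
  have := C.p30
  rw [C.hD3]; positivity

theorem q_le : q ≤ r ^ 2 / s ^ 2 * (q + 6) := by
  have z0 := C.z0
  have q0 := C.q0
  have p0 := C.p10
  have u1 : p1 ≤ (3 + q) * (1 + z) := by rw [C.hp1]; nlinarith
  have u2 : 4 + 6 * z + q * (1 + z) ≤ (q + 6) * (1 + z) := by nlinarith
  have u3 : D1 ≤ (q + 6) * (1 + z) * ((3 + q) * (1 + z)) ^ 2 := by rw [C.hD1]; gcongr
  have u4 : r ^ 2 / s ^ 2 * D1 ≤ r ^ 2 / s ^ 2 * ((q + 6) * (1 + z) * ((3 + q) * (1 + z)) ^ 2) := by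
    gcongr
  apply le_of_mul_le_mul_right (a := (3 + q) ^ 2 * (1 + z) ^ 3) _ (by positivity)
  linarith [C.hη]

theorem j_le : 18 * j ^ 2 * z ≤ r ^ 2 * q := by
  have z0 := C.z0
  have q0 := C.q0
  have u1 : 4 * j ^ 2 * (z * 1) * 3 ^ 2 ≤ 4 * j ^ 2 * (z * (1 + z)) * (3 + q) ^ 2 := by
    gcongr <;> linarith
  have u2 : 0 ≤ r ^ 2 * q * (3 * q * (z * (1 + z))) := by positivity
  linarith [C.hj]

theorem z_ge (a0 : 0 < a) (b0 : 0 < b) (bc : 6 * b ≤ c) : 5 * a ≤ 12 * z ^ 3 * b := by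
  have z0 := C.z0
  have c0 : 0 < c := by linarith
  have u1 : z ^ 3 * (2 + 3 * z) * (b * (c - a)) ≤ z ^ 3 * (2 * (1 + 3 * z)) * (b * c) := by
    have : 0 < a * b := by positivity
    have : z ^ 3 * (2 + 3 * z) * (b * (c - a)) ≤ z ^ 3 * (2 + 3 * z) * (b * c) := by
      gcongr; linarith
    refine this.trans ?_
    gcongr; linarith
  have u2 : 1 ^ 3 * (1 + 3 * z) * (a * (5 / 6 * c)) ≤ (1 + z) ^ 3 * (1 + 3 * z) * (a * (c - b)) := by
    gcongr <;> linarith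
  apply le_of_mul_le_mul_right (a := (1 + 3 * z) * c) _ (by positivity)
  linarith [C.hz]

end Chart

end Pool.Agent.Lib.MP_b2ee0b_nt
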