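import Pool.Agent.Lib.MP_b2ee0b_nt.FCea
import Pool.Agent.Lib.MP_b2ee0b_nt.FCeb
import Pool.Agent.Lib.MP_b2ee0b_nt.FCd
import Pool.Agent.Lib.MP_b2ee0b_nt.FA
import Pool.Agent.Lib.MP_b2ee0b_nt.FPe
import Pool.Agent.Lib.MP_b2ee0b_nt.FW011
import Pool.Agent.Lib.MP_b2ee0b_nt.FW101
import Pool.Agent.Lib.MP_b2ee0b_nt.FW110

/-! The cells and the two corners cover the six regions. -/

set_option autoImplicit false

namespace Pool.Agent.Lib.MP_b2ee0b_nt.TM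

def cells : List (List Gn) := [GCea, GCeb, GCd, GA, GPe, GW011, GW101, GW110]

set_option maxRecDepth 100000 in
theorem top0 : chkC cells (cases.getD 0 [])
    (.dr [534, 256, 53, (-261), 871, 111, 55, 51, 0, 218] [(0, 1, 2)] (.dr [1, 190, 511, 255,
    856, 157, 999992, 1, 0, 218] [(0, 5, 3), (5, 8, 6)] (.dr [1, 168, 511, 255, 851, 172, 999992,
    1, 0, 218] [(0, 5, 3), (5, 8, 6)] (.dr [1, 161, 511, 255, 850, 177, 999992, 1, 0, 218] [(0,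
    5, 3), (5, 8, 6)] (.sp ⟨(-12), 60, (-12), 255⟩ (.lf 2 [] [(0, 7, 6)]) (.dr [1, 1, 511, 255,
    812, 298, 999992, 1, 3536, 1] [(0, 7, 2), (6, 9, 7)] (.sp ⟨1, (-9), 2, 138⟩ (.lf 3 [] [(0, 5,
    10), (0, 7, 2), (0, 9, 7), (0, 11, 9)]) (.lf 4 [] [(0, 2, 7), (0, 7, 9), (0, 9, 11), (0, 10,
    5), (2, 12, 7), (6, 8, 10), (6, 9, 7)])))))))) = true := by decide +kernel

set_option maxRecDepth 100000 in
theorem top1 : chkC cells (cases.getD 1 [])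
    (.dr [534, 256, 53, (-261), 871, 111, 55, 51, 0, 218] [(0, 1, 2)] (.dr [1, 1, 511, 255, 812,
    298, 999992, 1, 1000000, 1] [(5, 6, 8), (5, 8, 7)] (.lf 5 [] [(0, 2, 5), (0, 2, 6), (4, 7,
    9), (4, 10, 8)]))) = true := by decide +kernel

set_option maxRecDepth 100000 in
theorem top2 : chkC cells (cases.getD 2 [])
    (.dr [534, 256, 53, (-261), 871, 111, 55, 51, 0, 218] [(0, 1, 2)] (.dr [534, 1, 53, (-26),
    812, 298, 999992, 1, 1000000, 1] [(1, 5, 12), (5, 7, 10), (5, 10, 8)] (.sp ⟨0, 12, 0, (-512)⟩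
    (.dr [257, 1, 342, 192, 812, 298, 999992, 1, 1000000, 1] [(0, 2, 6), (6, 8, 11), (6, 11, 9)]
    (.sp ⟨0, 12, 0, (-1024)⟩ (.dr [65, 1, 475, 251, 812, 298, 999992, 1, 1000000, 1] [(0, 2, 6),
    (6, 8, 11), (6, 11, 9)] (.sp ⟨(-1), 0, 2, 37⟩ (.sp ⟨(-3), (-39), 15, (-1796)⟩ (.sp ⟨9, (-39),
    (-9), (-2190)⟩ (.lf 1 [] [(0, 1, 7)]) (.dr [16, 1, 503, 255, 812, 298, 999992, 1, 1000000, 1]
    [(0, 8, 9), (8, 10, 13), (8, 13, 11)] (.lf 6 [] [(2, 8, 4), (2, 11, 6), (4, 12, 11), (5, 7,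
    10), (7, 9, 10)]))) (.dr [10, 1, 506, 255, 812, 298, 999992, 1, 1000000, 1] [(0, 7, 9), (0,
    9, 11)] (.sp ⟨9, (-39), (-9), (-2190)⟩ (.lf 6 [] [(0, 6, 8), (0, 8, 13), (0, 12, 6), (5, 13,
    12)]) (.lf 6 [] [(0, 5, 13), (0, 8, 6), (0, 12, 5), (5, 11, 10), (8, 10, 12)])))) (.sp ⟨(-3),
    (-39), 15, (-1796)⟩ (.lf 1 [] [(0, 6, 1)]) (.dr [10, 1, 506, 255, 812, 298, 999992, 1,
    1000000, 1] [(0, 7, 1), (1, 7, 9)] (.sp ⟨9, (-39), (-9), (-2190)⟩ (.lf 7 [] [(0, 5, 13), (0,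
    8, 10), (2, 5, 8), (2, 6, 12), (2, 8, 6)]) (.lf 7 [] [(0, 5, 10), (0, 8, 13), (0, 10,
    8)])))))) (.lf 1 [] [(0, 7, 6)]))) (.lf 1 [] [(0, 7, 6)])))) = true := by decide +kernel

set_option maxRecDepth 100000 in
theorem top3 : chkC cells (cases.getD 3 [])
    (.dr [534, 256, 53, (-261), 871, 111, 55, 51, 0, 218] [(0, 1, 2)] (.dr [17, 1, 502, 255, 812,
    298, 999992, 1, 1000000, 1] [(4, 8, 5), (5, 8, 9)] (.dr [4, 1, 509, 255, 812, 298, 999992, 1,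
    1000000, 1] [(4, 8, 5), (5, 8, 9)] (.lf 8 [] [(0, 6, 9), (0, 8, 7), (4, 8, 5)])))) = true := by decide +kernel

set_option maxRecDepth 100000 in
theorem top4 : chkC cells (cases.getD 4 [])
    (.dr [534, 256, 53, (-261), 871, 111, 55, 51, 0, 218] [(0, 1, 2)] (.dr [10, 1, 506, 255, 812,
    298, 999992, 1, 1000000, 1] [(4, 5, 9), (4, 8, 7), (4, 9, 8)] (.lf 9 [] [(1, 7, 8), (1, 9,
    6), (4, 5, 9)]))) = true := by decide +kernel

set_option maxRecDepth 100000 in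
theorem top5 : chkC cells (cases.getD 5 [])
    (.dr [534, 256, 53, (-261), 871, 111, 55, 51, 0, 218] [(0, 1, 2)] (.dr [12, 1, 505, 255, 812,
    298, 999992, 1, 16210, 1] [(4, 8, 9), (4, 9, 5)] (.dr [5, 1, 509, 255, 812, 298, 999992, 1,
    1000000, 1] [(4, 8, 9), (4, 9, 5)] (.lf 10 [] [(2, 6, 9), (2, 8, 7), (4, 9, 5)])))) = true := by decide +kernel

theorem cover {e q : ℝ} (X : Cx e q) : False := by
  refine cover_of (cells := cells) (fun G hG _ _ _ Y hu => ?_) (fun cs h => ?_) X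
  · simp only [cells, List.mem_cons, List.not_mem_nil, or_false] at hG
    rcases hG with rfl | rfl | rfl | rfl | rfl | rfl | rfl | rfl
    exacts [
      chkF_ok Y hu cCea, chkF_ok Y hu cCeb, chkF_ok Y hu cCd, chkF_ok Y hu cA, chkF_ok Y hu cPe,
      chkF_ok Y hu cW011, chkF_ok Y hu cW101, chkF_ok Y hu cW110]
  · simp only [cases, List.mem_cons, List.not_mem_nil, or_false] at h
    rcases h with rfl | rfl | rfl | rfl | rfl | rfl
    exacts [⟨_, top0⟩, ⟨_, top1⟩, ⟨_, top2⟩, ⟨_, top3⟩, ⟨_, top4⟩, ⟨_, top5⟩]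

end Pool.Agent.Lib.MP_b2ee0b_nt.TM
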