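import Mathlib

namespace Pool.Agent.Lib.MP_b2ee0b_nt

/-- twice the Lucas sequence -/
def us (k : ℤ) : ℕ → ℤ
  | 0 => 0
  | 1 => 2
  | (n + 2) => k * us k (n + 1) - us k n

/-- the Diophantine system attached to a point of order three -/
def Sol (k c : ℤ) : Prop := ∃ e f g : ℤ, e * f = g ^ 2 ∧ 4 * c = e * g ∧
  f ^ 2 - 6 * g ^ 2 + 4 * k * e * g - 3 * e ^ 2 = 16 * (k ^ 2 - 4)

noncomputable def allTo (P : ℕ → Bool) (n : ℕ) : Bool :=
  Nat.rec (motive := fun _ => Bool) true (fun i ih => P i && ih) n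

lemma allTo_spec (P : ℕ → Bool) (n : ℕ) (h : allTo P n = true) : ∀ i < n, P i = true := by
  induction n with
  | zero => intro i hi; omega
  | succ n ih =>
    have h' : (P n && allTo P n) = true := h
    rw [Bool.and_eq_true] at h'
    intro i hi
    rcases Nat.lt_succ_iff_lt_or_eq.1 hi with h1 | rfl
    · exact ih h'.2 i h1
    · exact h'.1

noncomputable def force (n : ℕ) (f : ℕ → Bool) : Bool :=
  Nat.rec (motive := fun _ => Bool) (f 0) (fun m _ => f (Nat.succ m)) n

lemma force_eq (n : ℕ) (f : ℕ → Bool) : force n f = f n := by cases n <;> rfl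

noncomputable def noSol (l k c : ℕ) : Bool :=
  force (256 * c * c * c * c % l) fun c4 => force ((16 * k * c + 64) % l) fun al =>
  force (96 * c * c % l) fun be => force (16 * k * k % l) fun ga =>
  (allTo (fun w => force (w * w % l) fun E =>
      Nat.beq w 0 || !Nat.beq ((c4 + al * E * E * E) % l) (E * E * (be + E * (ga + 3 * E)) % l)) l) &&
  (!Nat.beq (4 * c % l) 0 || allTo (fun f => !Nat.beq ((f * f + 64) % l) ga) l)

lemma noSol_spec (l k c : ℕ) (hl : 0 < l) (h : noSol l k c = true) (K C : ℤ)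
    (hK : (K : ZMod l) = k) (hC : (C : ZMod l) = c) : ¬ Sol K C := by
  rintro ⟨e, f, g, h1, h2, h3⟩
  simp only [noSol, force_eq, Bool.and_eq_true, Bool.or_eq_true, Bool.not_eq_true'] at h
  obtain ⟨ha, hb⟩ := h
  have : NeZero l := ⟨hl.ne'⟩
  have h1' : (e : ZMod l) * f = g ^ 2 := by exact_mod_cast congrArg (Int.cast (R := ZMod l)) h1
  have h2' : 4 * (C : ZMod l) = e * g := by exact_mod_cast congrArg (Int.cast (R := ZMod l)) h2
  have h3' : (f : ZMod l) ^ 2 - 6 * g ^ 2 + 4 * K * e * g - 3 * e ^ 2 = 16 * (K ^ 2 - 4) := by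
    exact_mod_cast congrArg (Int.cast (R := ZMod l)) h3
  rw [hK] at h3'
  rw [hC] at h2'
  have hA := allTo_spec _ _ ha (e : ZMod l).val (ZMod.val_lt _)
  simp only [Bool.or_eq_true, Bool.not_eq_true'] at hA
  rcases hA with hA | hA
  · have he0 : (e : ZMod l) = 0 := (ZMod.val_eq_zero _).1 (Nat.eq_of_beq_eq_true hA)
    rcases hb with hb | hb
    · apply Nat.ne_of_beq_eq_false hb
      rw [← Nat.dvd_iff_mod_eq_zero, ← ZMod.natCast_eq_zero_iff]
      push_cast
      rw [h2', he0, zero_mul]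
    · have hB := allTo_spec _ _ hb (f : ZMod l).val (ZMod.val_lt _)
      simp only [Bool.not_eq_true'] at hB
      apply Nat.ne_of_beq_eq_false hB
      rw [← ZMod.natCast_eq_natCast_iff']
      push_cast [ZMod.natCast_val, ZMod.cast_id', id]
      rw [he0] at h1' h3'
      linear_combination h3' - 6 * h1'
  · apply Nat.ne_of_beq_eq_false hA
    rw [← ZMod.natCast_eq_natCast_iff']
    push_cast [ZMod.natCast_mod, ZMod.natCast_val, ZMod.cast_id', id]
    generalize (e : ZMod l) = E at *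
    generalize (g : ZMod l) = G at *
    generalize (f : ZMod l) = F at *
    generalize (c : ZMod l) = x at *
    linear_combination (64 * x ^ 3 + 16 * x ^ 2 * E * G + 4 * x * E ^ 2 * G ^ 2 + E ^ 3 * G ^ 3
      - 6 * E ^ 4 * (4 * x + E * G) + 4 * k * E ^ 6) * h2' - E ^ 4 * (E * F + G ^ 2) * h1' + E ^ 6 * h3'

noncomputable def run (l k mask : ℕ) (n : ℕ) : ℕ → ℕ → ℕ → Bool :=
  Nat.rec (motive := fun _ => ℕ → ℕ → ℕ → Bool)
    (fun _ x y => Nat.beq x 0 && (Nat.beq y 2 || Nat.beq (y + 2) l))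
    (fun _ ih j x y => (!Nat.testBit mask j || noSol l k (x * y % l)) &&
      force (j + 1) fun j' => force ((k * y + (l - 1) * x) % l) fun z => ih j' y z) n

lemma run_spec (l k mask : ℕ) (hl : 0 < l) (K : ℤ) (hK : (K : ZMod l) = k) (n : ℕ) :
    ∀ j x y : ℕ, (us K j : ZMod l) = x → (us K (j + 1) : ZMod l) = y → run l k mask n j x y = true →
      (∀ i, j ≤ i → i < j + n → Nat.testBit mask i = true →
        ∀ C : ℤ, (C : ZMod l) = us K i * us K (i + 1) → ¬ Sol K C) ∧
      (us K (j + n) : ZMod l) = 0 ∧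
        ((us K (j + n + 1) : ZMod l) = 2 ∨ (us K (j + n + 1) : ZMod l) = -2) := by
  induction n with
  | zero =>
    intro j x y hx hy h
    have h' : (Nat.beq x 0 && (Nat.beq y 2 || Nat.beq (y + 2) l)) = true := h
    simp only [Bool.and_eq_true, Bool.or_eq_true] at h'
    refine ⟨fun i h1 h2 => by omega, ?_, ?_⟩
    · rw [add_zero, hx, Nat.eq_of_beq_eq_true h'.1]; simp
    · rw [add_zero, hy]
      rcases h'.2 with h2 | h2
      · left; rw [Nat.eq_of_beq_eq_true h2]; simp
      · right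
        have h3 : ((y + 2 : ℕ) : ZMod l) = 0 := by rw [Nat.eq_of_beq_eq_true h2]; simp
        push_cast at h3
        linear_combination h3
  | succ n ih =>
    intro j x y hx hy h
    have h' : ((!Nat.testBit mask j || noSol l k (x * y % l)) &&
      force (j + 1) fun j' => force ((k * y + (l - 1) * x) % l) fun z => run l k mask n j' y z) = true := h
    simp only [force_eq, Bool.and_eq_true, Bool.or_eq_true, Bool.not_eq_true'] at h'
    have hz : (us K (j + 1 + 1) : ZMod l) = ((k * y + (l - 1) * x) % l : ℕ) := by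
      rw [us, ZMod.natCast_mod]
      push_cast [Nat.cast_sub hl]
      rw [hK, hx, hy, ZMod.natCast_self]; ring
    obtain ⟨i1, i2, i3⟩ := ih (j + 1) y _ hy hz h'.2
    refine ⟨?_, by rwa [show j + (n + 1) = j + 1 + n by ring],
      by rwa [show j + (n + 1) + 1 = j + 1 + n + 1 by ring]⟩
    intro i h1 h2 h3 C hC
    rcases Nat.eq_or_lt_of_le h1 with rfl | h4
    · rcases h'.1 with h5 | h5
      · rw [h3] at h5; cases h5
      · apply noSol_spec l k _ hl h5 K C hK
        rw [hC, hx, hy, ZMod.natCast_mod]; push_cast; rfl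
    · exact i1 i h4 (by omega) h3 C hC

lemma us_period (l : ℕ) (K : ℤ) (T : ℕ) (ε : ZMod l) (h0 : (us K T : ZMod l) = 0)
    (h1 : (us K (T + 1) : ZMod l) = 2 * ε) (i : ℕ) : (us K (T + i) : ZMod l) = ε * us K i := by
  induction i using Nat.twoStepInduction with
  | zero => simp [h0, us]
  | one => rw [h1]; simp [us]; ring
  | more i h2 h3 =>
    rw [show T + (i + 2) = (T + i) + 2 by ring, us, us]
    push_cast
    rw [h2, show T + i + 1 = T + (i + 1) by ring, h3]; ring

lemma us_mod (l : ℕ) (K : ℤ) (T : ℕ) (h0 : (us K T : ZMod l) = 0)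
    (h1 : (us K (T + 1) : ZMod l) = 2 ∨ (us K (T + 1) : ZMod l) = -2) (i n : ℕ) :
    (us K (i + T * n) : ZMod l) * us K (i + T * n + 1) = us K i * us K (i + 1) := by
  obtain ⟨ε, h2, h3⟩ : ∃ ε : ZMod l, (us K (T + 1) : ZMod l) = 2 * ε ∧ ε * ε = 1 := by
    rcases h1 with h | h
    · exact ⟨1, by rw [h]; ring, by ring⟩
    · exact ⟨-1, by rw [h]; ring, by ring⟩
  induction n with
  | zero => simp
  | succ n ih =>
    rw [show i + T * (n + 1) = T + (i + T * n) by ring,
      show T + (i + T * n) + 1 = T + (i + T * n + 1) by ring,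
      us_period l K T ε h0 h2, us_period l K T ε h0 h2, ← ih]
    linear_combination ((us K (i + T * n) : ZMod l) * us K (i + T * n + 1)) * h3

noncomputable def checkK (k M : ℕ) (cert : List (ℕ × ℕ × ℕ)) : Bool :=
  Nat.blt 0 M &&
  (cert.all fun t => Nat.blt 2 t.1 && Nat.beq (M % t.2.1) 0 && run t.1 (k % t.1) t.2.2 t.2.1 0 0 2) &&
  allTo (fun i => cert.any fun t => Nat.testBit t.2.2 (i % t.2.1)) M

lemma checkK_spec (k M : ℕ) (cert : List (ℕ × ℕ × ℕ)) (h : checkK k M cert = true) (i : ℕ) :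
    ¬ Sol k (us k i * us k (i + 1)) := by
  simp only [checkK, Bool.and_eq_true, List.all_eq_true, Nat.blt_eq] at h
  obtain ⟨⟨hM, hc⟩, hall⟩ := h
  have h1 := allTo_spec _ _ hall (i % M) (Nat.mod_lt _ hM)
  rw [List.any_eq_true] at h1
  obtain ⟨⟨l, T, mask⟩, ht, hb⟩ := h1
  obtain ⟨⟨hl, hT⟩, hr⟩ := hc _ ht
  dsimp only at hb hl hT hr
  have hTM : T ∣ M := Nat.dvd_of_mod_eq_zero (Nat.eq_of_beq_eq_true hT)
  have hT0 : 0 < T := Nat.pos_of_dvd_of_pos hTM hM
  rw [Nat.mod_mod_of_dvd _ hTM] at hb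
  obtain ⟨r1, r2, r3⟩ := run_spec l (k % l) mask (by omega) k (by simp) T 0 0 2 (by simp [us])
    (by simp [us]) hr
  rw [zero_add] at r2 r3
  apply r1 (i % T) (Nat.zero_le _) (by simpa using Nat.mod_lt _ hT0) hb
  have := us_mod l k T r2 r3 (i % T) (i / T)
  rw [Nat.mod_add_div] at this
  push_cast
  exact this

noncomputable def checkL : ℕ → List (ℕ × List (ℕ × ℕ × ℕ)) → Bool := fun k L =>
  List.rec (motive := fun _ => ℕ → Bool) (fun _ => true)
    (fun t _ ih k => checkK k t.1 t.2 && force (k + 1) ih) L k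

lemma checkL_spec (L : List (ℕ × List (ℕ × ℕ × ℕ))) : ∀ k0, checkL k0 L = true →
    ∀ k : ℕ, k0 ≤ k → k < k0 + L.length → ∀ i, ¬ Sol k (us k i * us k (i + 1)) := by
  induction L with
  | nil => intro k0 _ k h1 h2; simp at h2; omega
  | cons t L ih =>
    intro k0 h k h1 h2
    have h' : (checkK k0 t.1 t.2 && force (k0 + 1) fun k => checkL k L) = true := h
    rw [Bool.and_eq_true, force_eq] at h'
    rcases Nat.eq_or_lt_of_le h1 with rfl | h3
    · exact checkK_spec _ _ _ h'.1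
    · exact ih (k0 + 1) h'.2 k h3 (by simp at h2; omega)

end Pool.Agent.Lib.MP_b2ee0b_nt
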