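import Mathlib
import Pool.Agent.Lib.MP_b2ee0b_nt.Sieve

namespace Pool.Agent.Lib.MP_b2ee0b_nt

def dat0 : List (ℕ × List (ℕ × ℕ × ℕ)) := [
  (4, [(7, 4, 15)]),
  (4, [(7, 4, 15)]),
  (7, [(13, 7, 119), (7, 7, 8)]),
  (7, [(13, 7, 127)]),
  (2, [(7, 2, 3)]),
  (21, [(13, 7, 119), (41, 21, 132104)]),
  (36, [(13, 6, 30), (19, 9, 40), (37, 9, 68), (79, 4, 9), (73, 36, 393216)]),
  (4, [(7, 4, 15)]),
  (4, [(7, 4, 15)]),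
  (7, [(7, 7, 28), (223, 7, 99)]),
  (10, [(19, 10, 1023)]),
  (2, [(7, 2, 3)]),
  (20, [(19, 5, 21), (41, 20, 338250)]),
  (7, [(13, 7, 127)]),
  (4, [(7, 4, 15)]),
  (4, [(7, 4, 15)]),
  (2, [(19, 2, 3)]),
  (7, [(13, 7, 127)]),
  (2, [(7, 2, 3)]),
  (42, [(13, 6, 30), (29, 7, 34), (349, 7, 93)]),
  (7, [(13, 7, 127)]),
  (4, [(7, 4, 15)]),
  (4, [(7, 4, 15)]),
  (8, [(31, 8, 255)]),
  (120, [(7, 3, 2), (19, 10, 585), (151, 5, 4), (79, 40, 328883816754), (47, 24, 2097156), (241, 30, 264192)]),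
  (2, [(7, 2, 3)]),
  (7, [(13, 7, 127)]),
  (42, [(13, 6, 30), (7, 7, 28), (97, 7, 99)]),
  (4, [(7, 4, 15)]),
  (4, [(7, 4, 15)]),
  (7, [(13, 7, 127)]),
  (7, [(13, 7, 119), (113, 7, 8)]),
  (2, [(7, 2, 3)]),
  (7, [(13, 7, 127)]),
  (105, [(7, 7, 28), (9, 3, 2), (31, 15, 7020), (181, 7, 65), (463, 21, 37152)]),
  (4, [(7, 4, 15)]),
  (4, [(7, 4, 15)]),
  (84, [(17, 4, 6), (7, 7, 28), (13, 3, 2), (29, 7, 34), (307, 7, 65)]),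
  (84, [(23, 4, 6), (7, 3, 2), (97, 7, 119), (239, 7, 8)]),
  (2, [(7, 2, 3)]),
  (2, [(43, 2, 3)]),
  (10, [(19, 10, 1023)]),
  (4, [(7, 4, 15)]),
  (4, [(7, 4, 15)]),
  (7, [(13, 7, 119), (7, 7, 8)]),
  (546, [(13, 6, 30), (29, 14, 7998), (79, 13, 4094), (181, 91, 1238091155012832103545970689)]),
  (2, [(7, 2, 3)]),
  (15, [(7, 3, 2), (29, 15, 6476), (79, 5, 17)]),
  (10, [(19, 10, 1023)]),
  (4, [(7, 4, 15)]),
  (4, [(7, 4, 15)]),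
  (12, [(11, 3, 2), (31, 4, 9), (47, 4, 6)]),
  (7, [(13, 7, 127)]),
  (2, [(7, 2, 3)]),
  (2, [(19, 2, 3)]),
  (7, [(13, 7, 127)]),
  (4, [(7, 4, 15)]),
  (4, [(7, 4, 15)]),
  (70, [(19, 5, 21), (7, 7, 28), (127, 7, 34), (139, 35, 2105344), (281, 70, 9223374236146466880)]),
  (2, [(31, 2, 3)]),
  (2, [(7, 2, 3)]),
  (30, [(7, 3, 2), (29, 5, 4), (139, 5, 17), (41, 10, 72), (61, 15, 320), (179, 15, 2056)]),
  (4, [(103, 4, 15)]),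
  (4, [(7, 4, 15)]),
  (4, [(7, 4, 15)]),
  (7, [(13, 7, 127)]),
  (120, [(13, 6, 30), (31, 15, 7020), (79, 40, 551368001025)]),
  (2, [(7, 2, 3)]),
  (7, [(13, 7, 127)]),
  (7, [(13, 7, 127)]),
  (4, [(7, 4, 15)]),
  (4, [(7, 4, 15)]),
  (7, [(13, 7, 127)]),
  (2, [(19, 2, 3)]),
  (2, [(7, 2, 3)]),
  (105, [(7, 3, 2), (41, 7, 28), (29, 15, 6156), (151, 15, 864), (71, 35, 1622016), (139, 35, 17179869185), (211, 35, 536870944)]),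
  (2, [(79, 2, 3)]),
  (4, [(7, 4, 15)]),
  (4, [(7, 4, 15)]),
  (10, [(19, 10, 1023)]),
  (42, [(13, 7, 119), (7, 3, 2), (419, 42, 274894815240)]),
  (2, [(7, 2, 3)]),
  (7, [(13, 7, 127)]),
  (2, [(43, 2, 3)]),
  (4, [(7, 4, 15)]),
  (4, [(7, 4, 15)]),
  (10, [(19, 10, 1023)]),
  (15, [(19, 5, 21), (31, 15, 10570)]),
  (2, [(7, 2, 3)]),
  (210, [(7, 3, 2), (11, 5, 4), (61, 10, 330), (101, 10, 48), (41, 21, 400140), (223, 7, 99)]),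
  (2, [(31, 2, 3)]),
  (4, [(7, 4, 15)]),
  (4, [(7, 4, 15)]),
  (7, [(13, 7, 119), (7, 7, 8)]),
  (7, [(13, 7, 127)]),
  (2, [(7, 2, 3)]),
  (15, [(19, 5, 21), (31, 15, 10570)]),
  (30, [(13, 6, 30), (19, 5, 21), (31, 15, 2376)]),
  (4, [(7, 4, 15)]),
  (4, [(7, 4, 15)]),
  (2, [(103, 2, 3)]),
  (72, [(7, 3, 2), (19, 9, 40), (79, 8, 219), (73, 36, 9194308164)]),
  (2, [(7, 2, 3)]),
  (60, [(7, 3, 2), (41, 4, 6), (19, 10, 585), (11, 5, 4), (199, 20, 35088)]),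
  (7, [(13, 7, 127)]),
  (4, [(7, 4, 15)]),
  (4, [(7, 4, 15)]),
  (7, [(13, 7, 127)]),
  (7, [(13, 7, 127)]),
  (2, [(7, 2, 3)]),
  (420, [(13, 6, 30), (17, 4, 6), (11, 5, 4), (29, 7, 20), (41, 21, 135432), (223, 28, 135790977)]),
  (2, [(19, 2, 3)]),
  (4, [(7, 4, 15)]),
  (4, [(7, 4, 15)]),
  (156, [(29, 3, 2), (53, 13, 2482), (97, 12, 360), (79, 39, 107919475276), (181, 13, 4097)]),
  (15, [(19, 5, 21), (31, 15, 10570)]),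
  (2, [(7, 2, 3)]),
  (7, [(13, 7, 127)]),
  (156, [(13, 6, 30), (53, 13, 2794), (79, 39, 68795011076), (103, 52, 2260614263210241), (389, 39, 1073742080)]),
  (4, [(7, 4, 15)]),
  (4, [(7, 4, 15)]),
  (2, [(31, 2, 3)]),
  (14, [(13, 7, 119), (251, 14, 1032)]),
  (2, [(7, 2, 3)]),
  (7, [(13, 7, 127)]),
  (15, [(19, 5, 21), (43, 3, 2), (59, 15, 2056), (149, 15, 320)]),
  (4, [(7, 4, 15)]),
  (4, [(7, 4, 15)]),
  (7, [(7, 7, 28), (223, 7, 99)]),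
  (24, [(7, 3, 2), (31, 4, 9), (193, 8, 102)]),
  (2, [(7, 2, 3)]),
  (2, [(67, 2, 3)]),
  (7, [(13, 7, 119), (7, 7, 8)]),
  (4, [(7, 4, 15)]),
  (4, [(7, 4, 15)]),
  (7, [(13, 7, 119), (7, 7, 8)]),
  (10, [(19, 10, 1023)]),
  (2, [(7, 2, 3)]),
  (4, [(103, 4, 15)]),
  (28, [(17, 4, 6), (7, 7, 28), (223, 7, 99)]),
  (4, [(7, 4, 15)]),
  (4, [(7, 4, 15)]),
  (24, [(9, 3, 2), (23, 6, 12), (17, 8, 24), (79, 8, 165), (191, 24, 131136)]),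
  (7, [(13, 7, 127)]),
  (2, [(7, 2, 3)]),
  (7, [(13, 7, 119), (43, 7, 8)]),
  (7, [(13, 7, 127)]),
  (4, [(7, 4, 15)]),
  (4, [(7, 4, 15)]),
  (2, [(19, 2, 3)]),
  (7, [(13, 7, 127)]),
  (2, [(7, 2, 3)]),
  (2, [(31, 2, 3)]),
  (15, [(19, 5, 21), (31, 3, 2), (89, 15, 2376)]),
  (4, [(7, 4, 15)]),
  (4, [(7, 4, 15)]),
  (7, [(13, 7, 127)]),
  (8, [(31, 8, 255)]),
  (2, [(7, 2, 3)]),
  (7, [(13, 7, 127)]),
  (7, [(13, 7, 127)]),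
  (4, [(7, 4, 15)]),
  (4, [(7, 4, 15)]),
  (7, [(13, 7, 127)]),
  (10, [(19, 5, 21), (41, 10, 330)]),
  (2, [(7, 2, 3)]),
  (60, [(7, 3, 2), (11, 5, 4), (41, 20, 323442), (139, 10, 585)]),
  (120, [(9, 3, 2), (71, 6, 12), (47, 8, 102), (79, 40, 659706976665)]),
  (4, [(7, 4, 15)]),
  (4, [(7, 4, 15)]),
  (120, [(13, 6, 30), (47, 12, 96), (11, 5, 4), (41, 20, 32784), (79, 40, 550025824257), (241, 40, 70875414792)]),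
  (21, [(13, 7, 119), (7, 3, 2), (41, 21, 131080)]),
  (2, [(7, 2, 3)]),
  (7, [(13, 7, 127)]),
  (10, [(19, 10, 1023)]),
  (4, [(7, 4, 15)]),
  (4, [(7, 4, 15)]),
  (120, [(31, 15, 16382), (97, 4, 6), (79, 40, 584133935121)]),
  (8, [(31, 8, 255)]),
  (2, [(7, 2, 3)]),
  (78, [(7, 3, 2), (103, 13, 5621), (53, 26, 66048), (157, 78, 18972485287009545373704), (313, 39, 536871424), (1171, 39, 134219776)]),
  (10, [(19, 10, 1023)]),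
  (4, [(7, 4, 15)]),
  (4, [(7, 4, 15)]),
  (7, [(13, 7, 119), (7, 7, 8)]),
  (7, [(13, 7, 127)]),
  (2, [(7, 2, 3)]),
  (2, [(19, 2, 3)]),
  (8, [(31, 8, 255)]),
  (4, [(7, 4, 15)]),
  (4, [(7, 4, 15)]),
  (60, [(19, 5, 21), (13, 3, 2), (31, 4, 9), (29, 15, 2056), (241, 15, 320)]),
  (15, [(19, 5, 21), (7, 3, 2), (29, 15, 2376)]),
  (2, [(7, 2, 3)]),
  (16, [(31, 16, 65535)]),
  (7, [(13, 7, 127)]),
  (4, [(7, 4, 15)])]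

lemma chk0 : checkL 3 dat0 = true := by decide +kernel

lemma len0 : dat0.length = 197 := by decide +kernel

def dat1 : List (ℕ × List (ℕ × ℕ × ℕ)) := [
  (4, [(7, 4, 15)]),
  (7, [(13, 7, 127)]),
  (7, [(13, 7, 127)]),
  (2, [(7, 2, 3)]),
  (120, [(13, 6, 30), (19, 5, 21), (23, 12, 96), (79, 40, 71143852296)]),
  (7, [(13, 7, 127)]),
  (4, [(7, 4, 15)]),
  (4, [(7, 4, 15)]),
  (30, [(9, 3, 2), (79, 5, 21), (41, 10, 330)]),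
  (2, [(19, 2, 3)]),
  (2, [(7, 2, 3)]),
  (7, [(13, 7, 127)]),
  (8, [(31, 8, 255)]),
  (4, [(7, 4, 15)]),
  (4, [(7, 4, 15)]),
  (2, [(43, 2, 3)]),
  (7, [(13, 7, 119), (349, 7, 8)]),
  (2, [(7, 2, 3)]),
  (7, [(13, 7, 127)]),
  (4, [(199, 4, 15)]),
  (4, [(7, 4, 15)]),
  (4, [(7, 4, 15)]),
  (10, [(19, 10, 1023)]),
  (15, [(19, 5, 21), (31, 15, 10570)]),
  (2, [(7, 2, 3)]),
  (12, [(13, 6, 30), (23, 4, 6), (31, 4, 9)]),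
  (7, [(13, 7, 119), (7, 7, 8)]),
  (4, [(7, 4, 15)]),
  (4, [(7, 4, 15)]),
  (7, [(13, 7, 119), (7, 7, 8)]),
  (210, [(13, 6, 30), (31, 5, 4), (89, 15, 2920), (41, 21, 400140), (71, 35, 1622016), (139, 70, 590295810358705651713)]),
  (2, [(7, 2, 3)]),
  (180, [(19, 5, 21), (17, 4, 6), (7, 3, 2), (31, 15, 2056), (281, 20, 2304), (179, 90, 73795983562820812800), (359, 180, 79237833920821254626941599744)]),
  (15, [(19, 5, 21), (9, 3, 2), (151, 15, 2376)]),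
  (4, [(7, 4, 15)]),
  (4, [(7, 4, 15)]),
  (30, [(11, 6, 18), (61, 6, 12), (19, 10, 585), (29, 15, 2600), (31, 5, 4)]),
  (7, [(13, 7, 127)]),
  (2, [(7, 2, 3)]),
  (7, [(13, 7, 119), (43, 7, 8)]),
  (7, [(13, 7, 127)]),
  (4, [(7, 4, 15)]),
  (4, [(7, 4, 15)]),
  (8, [(31, 8, 255)]),
  (7, [(13, 7, 127)]),
  (2, [(7, 2, 3)]),
  (24, [(7, 3, 2), (23, 6, 12), (79, 4, 9), (97, 8, 102)]),
  (2, [(19, 2, 3)]),
  (4, [(7, 4, 15)]),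
  (4, [(7, 4, 15)]),
  (7, [(13, 7, 127)]),
  (30, [(13, 6, 30), (19, 5, 21), (31, 15, 2376)]),
  (2, [(7, 2, 3)]),
  (7, [(13, 7, 127)]),
  (7, [(13, 7, 127)]),
  (4, [(7, 4, 15)]),
  (4, [(7, 4, 15)]),
  (7, [(13, 7, 127)]),
  (2, [(43, 2, 3)]),
  (2, [(7, 2, 3)]),
  (10, [(19, 10, 1023)]),
  (20, [(19, 5, 21), (41, 20, 338250)]),
  (4, [(7, 4, 15)]),
  (4, [(7, 4, 15)]),
  (120, [(13, 6, 30), (71, 12, 96), (17, 8, 24), (79, 40, 556223529345)]),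
  (21, [(13, 7, 119), (7, 3, 2), (41, 21, 131080)]),
  (2, [(7, 2, 3)]),
  (7, [(13, 7, 127)]),
  (2, [(67, 2, 3)]),
  (4, [(7, 4, 15)]),
  (4, [(7, 4, 15)]),
  (4, [(23, 4, 6), (31, 4, 9)]),
  (10, [(19, 10, 1023)]),
  (2, [(7, 2, 3)]),
  (8, [(31, 8, 255)]),
  (140, [(7, 7, 28), (47, 4, 6), (61, 10, 462), (499, 5, 17)]),
  (4, [(7, 4, 15)]),
  (4, [(7, 4, 15)]),
  (2, [(139, 2, 3)]),
  (2, [(31, 2, 3)]),
  (2, [(7, 2, 3)]),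
  (14, [(13, 7, 119), (83, 14, 1032)]),
  (210, [(13, 6, 30), (7, 7, 28), (43, 7, 34), (29, 15, 6476), (139, 35, 17180934145)]),
  (4, [(7, 4, 15)]),
  (4, [(7, 4, 15)]),
  (2, [(19, 2, 3)]),
  (15, [(7, 3, 2), (31, 15, 7020), (79, 5, 17)]),
  (2, [(7, 2, 3)]),
  (12, [(7, 3, 2), (367, 4, 15)]),
  (7, [(13, 7, 127)]),
  (4, [(7, 4, 15)]),
  (4, [(7, 4, 15)]),
  (7, [(13, 7, 127)]),
  (7, [(13, 7, 127)]),
  (2, [(7, 2, 3)]),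
  (420, [(13, 6, 30), (17, 4, 6), (29, 5, 4), (31, 15, 2056), (41, 21, 137992), (223, 28, 144179601)]),
  (7, [(13, 7, 127)]),
  (4, [(7, 4, 15)]),
  (4, [(7, 4, 15)]),
  (210, [(19, 5, 21), (7, 7, 28), (25, 3, 2), (29, 15, 2056), (79, 10, 258), (71, 35, 8860475458), (83, 42, 536875008)]),
  (132, [(17, 4, 6), (7, 3, 2), (67, 11, 762), (241, 11, 1285)]),
  (2, [(7, 2, 3)]),
  (7, [(13, 7, 127)]),
  (24, [(13, 6, 30), (79, 8, 165), (113, 8, 90)]),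
  (4, [(7, 4, 15)]),
  (4, [(7, 4, 15)]),
  (7, [(13, 7, 127)]),
  (7, [(13, 7, 119), (139, 7, 8)]),
  (2, [(7, 2, 3)]),
  (7, [(13, 7, 127)]),
  (2, [(31, 2, 3)]),
  (4, [(7, 4, 15)]),
  (4, [(7, 4, 15)]),
  (210, [(7, 7, 28), (13, 3, 2), (61, 6, 12), (43, 21, 37152), (29, 5, 4), (139, 35, 17451475009)]),
  (16, [(31, 16, 40953), (127, 16, 24582)]),
  (2, [(7, 2, 3)]),
  (2, [(79, 2, 3)]),
  (10, [(19, 10, 1023)]),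
  (4, [(7, 4, 15)]),
  (4, [(7, 4, 15)]),
  (7, [(13, 7, 119), (7, 7, 8)]),
  (210, [(13, 6, 30), (41, 5, 4), (97, 7, 99), (71, 35, 1132793360), (211, 35, 2147483656)]),
  (2, [(7, 2, 3)]),
  (2, [(19, 2, 3)]),
  (60, [(13, 3, 2), (73, 4, 6), (29, 5, 4), (79, 20, 559377), (59, 30, 75497544)]),
  (4, [(7, 4, 15)]),
  (4, [(7, 4, 15)]),
  (15, [(19, 5, 21), (29, 15, 2376), (41, 3, 2)]),
  (7, [(13, 7, 127)]),
  (2, [(7, 2, 3)]),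
  (7, [(13, 7, 119), (29, 7, 8)]),
  (7, [(13, 7, 127)]),
  (4, [(7, 4, 15)]),
  (4, [(7, 4, 15)]),
  (30, [(13, 6, 30), (31, 15, 7020), (19, 10, 513)]),
  (7, [(13, 7, 127)]),
  (2, [(7, 2, 3)]),
  (105, [(19, 5, 21), (7, 3, 2), (29, 7, 62), (211, 35, 270540864)]),
  (15, [(19, 5, 21), (31, 15, 10570)]),
  (4, [(7, 4, 15)]),
  (4, [(7, 4, 15)]),
  (2, [(31, 2, 3)]),
  (2, [(19, 2, 3)]),
  (2, [(7, 2, 3)]),
  (2, [(43, 2, 3)]),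
  (7, [(13, 7, 127)]),
  (4, [(7, 4, 15)]),
  (4, [(7, 4, 15)]),
  (7, [(13, 7, 127)]),
  (240, [(7, 3, 2), (31, 4, 9), (47, 24, 2245188), (11, 5, 4), (97, 48, 4398046511136), (449, 16, 8196)]),
  (2, [(7, 2, 3)]),
  (33, [(7, 3, 2), (43, 11, 1787), (23, 11, 260)]),
  (30, [(9, 3, 2), (23, 6, 12), (29, 15, 2600), (79, 10, 513), (151, 15, 4420)]),
  (4, [(7, 4, 15)]),
  (4, [(7, 4, 15)]),
  (10, [(19, 10, 1023)]),
  (15, [(19, 5, 21), (7, 3, 2), (29, 15, 2376)]),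
  (2, [(7, 2, 3)]),
  (7, [(13, 7, 127)]),
  (7, [(13, 7, 119), (7, 7, 8)]),
  (4, [(7, 4, 15)]),
  (4, [(7, 4, 15)]),
  (210, [(7, 7, 28), (11, 3, 2), (29, 15, 2600), (41, 5, 4), (61, 30, 10486080), (83, 14, 4290), (71, 35, 1622016), (139, 35, 17179869185), (421, 10, 48)]),
  (84, [(17, 4, 6), (7, 3, 2), (43, 7, 62), (97, 7, 65)]),
  (2, [(7, 2, 3)]),
  (15, [(19, 5, 21), (31, 15, 10570)]),
  (10, [(19, 5, 21), (41, 10, 330)]),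
  (4, [(7, 4, 15)]),
  (4, [(7, 4, 15)]),
  (7, [(13, 7, 119), (7, 7, 8)]),
  (7, [(13, 7, 127)]),
  (2, [(7, 2, 3)]),
  (2, [(31, 2, 3)]),
  (360, [(13, 6, 30), (23, 4, 6), (19, 9, 40), (29, 15, 2600), (61, 15, 320), (79, 40, 549891608577), (181, 45, 4398180859908)]),
  (4, [(7, 4, 15)]),
  (4, [(7, 4, 15)]),
  (240, [(19, 5, 21), (13, 3, 2), (31, 16, 40953), (23, 12, 96), (193, 48, 35192962039812)]),
  (8, [(31, 8, 255)]),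
  (2, [(7, 2, 3)]),
  (2, [(379, 2, 3)]),
  (2, [(19, 2, 3)]),
  (4, [(7, 4, 15)]),
  (4, [(7, 4, 15)]),
  (7, [(13, 7, 127)]),
  (7, [(13, 7, 127)]),
  (2, [(7, 2, 3)]),
  (10, [(19, 10, 1023)]),
  (2, [(43, 2, 3)]),
  (4, [(7, 4, 15)]),
  (4, [(7, 4, 15)]),
  (30, [(17, 3, 2), (31, 5, 4), (199, 10, 891)]),
  (90, [(7, 3, 2), (19, 10, 585), (31, 5, 4), (29, 15, 2600), (37, 18, 49164), (71, 18, 768)]),
  (2, [(7, 2, 3)]),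
  (7, [(13, 7, 127)]),
  (420, [(13, 6, 30), (19, 5, 21), (7, 7, 28), (23, 12, 96), (29, 14, 4290), (83, 21, 32800), (139, 7, 65)]),
  (4, [(7, 4, 15)]),
  (4, [(7, 4, 15)]),
  (7, [(13, 7, 127)]),
  (8, [(31, 8, 255)]),
  (2, [(7, 2, 3)])]

lemma chk1 : checkL 200 dat1 = true := by decide +kernel

lemma len1 : dat1.length = 200 := by decide +kernel

def dat2 : List (ℕ × List (ℕ × ℕ × ℕ)) := [
  (7, [(13, 7, 127)]),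
  (24, [(25, 3, 2), (271, 8, 255)]),
  (4, [(7, 4, 15)]),
  (4, [(7, 4, 15)]),
  (33, [(9, 3, 2), (23, 11, 886), (109, 11, 1161)]),
  (10, [(19, 10, 1023)]),
  (2, [(7, 2, 3)]),
  (120, [(13, 6, 30), (19, 10, 585), (41, 10, 390), (79, 40, 51589988400)]),
  (7, [(13, 7, 119), (7, 7, 8)]),
  (4, [(7, 4, 15)]),
  (4, [(7, 4, 15)]),
  (7, [(13, 7, 119), (7, 7, 8)]),
  (2, [(103, 2, 3)]),
  (2, [(7, 2, 3)]),
  (15, [(19, 5, 21), (7, 3, 2), (29, 15, 2376)]),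
  (78, [(9, 3, 2), (53, 13, 3934), (181, 13, 4097), (79, 39, 8589934624), (313, 78, 720575940380590080)]),
  (4, [(7, 4, 15)]),
  (4, [(7, 4, 15)]),
  (2, [(19, 2, 3)]),
  (7, [(13, 7, 127)]),
  (2, [(7, 2, 3)]),
  (42, [(13, 7, 119), (7, 3, 2), (23, 6, 12), (83, 42, 16908288)]),
  (7, [(13, 7, 127)]),
  (4, [(7, 4, 15)]),
  (4, [(7, 4, 15)]),
  (60, [(13, 6, 30), (79, 5, 21), (41, 20, 338250)]),
  (7, [(13, 7, 127)]),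
  (2, [(7, 2, 3)]),
  (120, [(7, 3, 2), (31, 15, 7020), (83, 6, 12), (79, 40, 551366428161), (191, 24, 6144)]),
  (8, [(31, 8, 255)]),
  (4, [(7, 4, 15)]),
  (4, [(7, 4, 15)]),
  (7, [(13, 7, 127)]),
  (30, [(13, 6, 30), (19, 5, 21), (41, 10, 72), (269, 15, 2056)]),
  (2, [(7, 2, 3)]),
  (7, [(13, 7, 127)]),
  (7, [(13, 7, 127)]),
  (4, [(7, 4, 15)]),
  (4, [(7, 4, 15)]),
  (7, [(13, 7, 127)]),
  (105, [(7, 3, 2), (31, 15, 7020), (71, 7, 62), (139, 7, 65)]),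
  (2, [(7, 2, 3)]),
  (4, [(23, 4, 6), (31, 4, 9)]),
  (10, [(19, 10, 1023)]),
  (4, [(7, 4, 15)]),
  (4, [(7, 4, 15)]),
  (2, [(223, 2, 3)]),
  (7, [(13, 7, 119), (41, 7, 8)]),
  (2, [(7, 2, 3)]),
  (7, [(13, 7, 127)]),
  (10, [(19, 10, 1023)]),
  (4, [(7, 4, 15)]),
  (4, [(7, 4, 15)]),
  (2, [(151, 2, 3)]),
  (42, [(7, 3, 2), (43, 7, 62), (139, 14, 8385)]),
  (2, [(7, 2, 3)]),
  (2, [(19, 2, 3)]),
  (36, [(31, 4, 9), (19, 3, 2), (23, 12, 96), (89, 9, 108), (73, 36, 67109376)]),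
  (4, [(7, 4, 15)]),
  (4, [(7, 4, 15)]),
  (7, [(13, 7, 119), (7, 7, 8)]),
  (7, [(13, 7, 127)]),
  (2, [(7, 2, 3)]),
  (28, [(13, 7, 119), (167, 28, 16909320)]),
  (120, [(13, 6, 30), (19, 10, 585), (41, 20, 53424), (79, 40, 414735141126), (241, 20, 131076)]),
  (4, [(7, 4, 15)]),
  (4, [(7, 4, 15)]),
  (30, [(9, 3, 2), (23, 6, 12), (19, 10, 585), (89, 15, 6700)]),
  (420, [(7, 3, 2), (41, 4, 6), (29, 15, 2600), (31, 15, 320), (43, 21, 432940), (83, 14, 192), (139, 70, 590331843553905360897)]),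
  (2, [(7, 2, 3)]),
  (8, [(31, 8, 255)]),
  (7, [(13, 7, 127)]),
  (4, [(7, 4, 15)]),
  (4, [(7, 4, 15)]),
  (7, [(13, 7, 127)]),
  (2, [(19, 2, 3)]),
  (2, [(7, 2, 3)]),
  (4, [(103, 4, 15)]),
  (7, [(13, 7, 127)]),
  (4, [(7, 4, 15)]),
  (4, [(7, 4, 15)]),
  (10, [(19, 10, 1023)]),
  (84, [(17, 4, 6), (7, 3, 2), (29, 7, 62), (349, 7, 65)]),
  (2, [(7, 2, 3)]),
  (7, [(13, 7, 127)]),
  (420, [(13, 6, 30), (7, 7, 28), (47, 12, 96), (29, 15, 6476), (59, 15, 544), (43, 21, 37152), (139, 70, 590296373308660121601)]),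
  (4, [(7, 4, 15)]),
  (4, [(7, 4, 15)]),
  (7, [(13, 7, 127)]),
  (2, [(163, 2, 3)]),
  (2, [(7, 2, 3)]),
  (7, [(13, 7, 127)]),
  (4, [(127, 4, 15)]),
  (4, [(7, 4, 15)]),
  (4, [(7, 4, 15)]),
  (330, [(13, 3, 2), (41, 10, 462), (61, 15, 544), (97, 6, 12), (23, 11, 650), (43, 11, 1105), (263, 66, 1152923739080359968)]),
  (2, [(31, 2, 3)]),
  (2, [(7, 2, 3)]),
  (66, [(13, 6, 30), (67, 11, 854), (43, 22, 2424873), (199, 33, 536870920), (331, 33, 2099200)]),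
  (7, [(13, 7, 119), (7, 7, 8)]),
  (4, [(7, 4, 15)]),
  (4, [(7, 4, 15)]),
  (7, [(13, 7, 119), (7, 7, 8)]),
  (30, [(13, 6, 30), (31, 15, 7020), (79, 5, 17)]),
  (2, [(7, 2, 3)]),
  (16, [(31, 16, 65535)]),
  (21, [(7, 7, 28), (13, 3, 2), (83, 21, 53600), (181, 7, 65)]),
  (4, [(7, 4, 15)]),
  (4, [(7, 4, 15)]),
  (60, [(19, 5, 21), (17, 3, 2), (41, 4, 6), (59, 30, 10750272), (167, 12, 264)]),
  (7, [(13, 7, 127)]),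
  (2, [(7, 2, 3)]),
  (14, [(13, 7, 119), (29, 14, 1032)]),
  (2, [(19, 2, 3)]),
  (4, [(7, 4, 15)]),
  (4, [(7, 4, 15)]),
  (2, [(43, 2, 3)]),
  (7, [(13, 7, 127)]),
  (2, [(7, 2, 3)]),
  (10, [(19, 10, 1023)]),
  (120, [(31, 15, 16382), (41, 20, 50736), (79, 40, 549755813889), (433, 8, 24)]),
  (4, [(7, 4, 15)]),
  (4, [(7, 4, 15)]),
  (7, [(13, 7, 127)]),
  (4, [(127, 4, 15)]),
  (2, [(7, 2, 3)]),
  (7, [(13, 7, 127)]),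
  (2, [(31, 2, 3)]),
  (4, [(7, 4, 15)]),
  (4, [(7, 4, 15)]),
  (7, [(13, 7, 127)]),
  (16, [(31, 16, 40953), (223, 16, 24582)]),
  (2, [(7, 2, 3)]),
  (84, [(17, 4, 6), (7, 3, 2), (29, 7, 62), (139, 7, 65)]),
  (15, [(13, 3, 2), (31, 15, 7020), (109, 5, 17)]),
  (4, [(7, 4, 15)]),
  (4, [(7, 4, 15)]),
  (60, [(13, 6, 30), (19, 5, 21), (23, 12, 96), (29, 15, 2056), (79, 20, 65544)]),
  (10, [(19, 10, 1023)]),
  (2, [(7, 2, 3)]),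
  (7, [(13, 7, 127)]),
  (7, [(13, 7, 119), (7, 7, 8)]),
  (4, [(7, 4, 15)]),
  (4, [(7, 4, 15)]),
  (8, [(31, 8, 231), (79, 4, 9)]),
  (10, [(19, 10, 1023)]),
  (2, [(7, 2, 3)]),
  (15, [(19, 5, 21), (7, 3, 2), (29, 15, 2056), (179, 15, 320)]),
  (48, [(9, 3, 2), (31, 16, 56955), (257, 16, 8580)]),
  (4, [(7, 4, 15)]),
  (4, [(7, 4, 15)]),
  (2, [(19, 2, 3)]),
  (7, [(13, 7, 127)]),
  (2, [(7, 2, 3)]),
  (7, [(13, 7, 119), (71, 7, 8)]),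
  (30, [(13, 6, 30), (19, 5, 21), (31, 15, 2376)]),
  (4, [(7, 4, 15)]),
  (4, [(7, 4, 15)]),
  (2, [(31, 2, 3)]),
  (2, [(43, 2, 3)]),
  (2, [(7, 2, 3)]),
  (42, [(7, 3, 2), (29, 14, 7998), (139, 7, 65)]),
  (7, [(13, 7, 127)]),
  (4, [(7, 4, 15)]),
  (4, [(7, 4, 15)]),
  (7, [(13, 7, 127)]),
  (7, [(13, 7, 127)]),
  (2, [(7, 2, 3)]),
  (120, [(13, 6, 30), (11, 5, 4), (97, 4, 6), (59, 30, 8652864), (61, 30, 16777248), (79, 40, 549757386753)]),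
  (7, [(13, 7, 127)]),
  (4, [(7, 4, 15)]),
  (4, [(7, 4, 15)]),
  (24, [(17, 4, 6), (31, 8, 129), (47, 24, 1579032)]),
  (105, [(7, 3, 2), (29, 7, 34), (31, 15, 6156), (83, 21, 409676), (349, 35, 18290663953)]),
  (2, [(7, 2, 3)]),
  (7, [(13, 7, 127)]),
  (10, [(19, 10, 1023)]),
  (4, [(7, 4, 15)]),
  (4, [(7, 4, 15)]),
  (7, [(13, 7, 127)]),
  (4, [(103, 4, 15)]),
  (2, [(7, 2, 3)]),
  (7, [(13, 7, 127)]),
  (10, [(19, 10, 1023)]),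
  (4, [(7, 4, 15)]),
  (4, [(7, 4, 15)]),
  (30, [(9, 3, 2), (11, 5, 4), (31, 15, 2376), (139, 10, 561)]),
  (33, [(7, 3, 2), (23, 11, 650), (241, 11, 1397)]),
  (2, [(7, 2, 3)]),
  (2, [(19, 2, 3)]),
  (7, [(13, 7, 119), (7, 7, 8)]),
  (4, [(7, 4, 15)]),
  (4, [(7, 4, 15)]),
  (7, [(13, 7, 119), (7, 7, 8)]),
  (8, [(31, 8, 255)]),
  (2, [(7, 2, 3)]),
  (30, [(7, 3, 2), (31, 15, 7020), (71, 6, 12), (79, 10, 513)]),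
  (2, [(199, 2, 3)]),
  (4, [(7, 4, 15)]),
  (4, [(7, 4, 15)])]

lemma chk2 : checkL 400 dat2 = true := by decide +kernel

lemma len2 : dat2.length = 200 := by decide +kernel

def dat3 : List (ℕ × List (ℕ × ℕ × ℕ)) := [
  (60, [(11, 6, 18), (19, 10, 585), (29, 15, 6156), (41, 20, 313650)]),
  (7, [(13, 7, 127)]),
  (2, [(7, 2, 3)]),
  (2, [(67, 2, 3)]),
  (7, [(13, 7, 127)]),
  (4, [(7, 4, 15)]),
  (4, [(7, 4, 15)]),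
  (42, [(13, 6, 30), (7, 7, 28), (97, 7, 65), (43, 21, 37152)]),
  (2, [(19, 2, 3)]),
  (2, [(7, 2, 3)]),
  (120, [(7, 3, 2), (41, 20, 323442), (59, 15, 4100), (79, 40, 618485317641)]),
  (16, [(31, 16, 65535)]),
  (4, [(7, 4, 15)]),
  (4, [(7, 4, 15)]),
  (7, [(13, 7, 127)]),
  (8, [(31, 8, 255)]),
  (2, [(7, 2, 3)]),
  (7, [(13, 7, 127)]),
  (7, [(13, 7, 127)]),
  (4, [(7, 4, 15)]),
  (4, [(7, 4, 15)]),
  (7, [(13, 7, 127)]),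
  (120, [(19, 5, 21), (7, 3, 2), (211, 15, 320), (79, 40, 277363304706), (239, 24, 1098504)]),
  (2, [(7, 2, 3)]),
  (120, [(7, 3, 2), (11, 5, 4), (29, 15, 2600), (23, 12, 96), (79, 20, 837939), (239, 120, 79237833920821254695669465088)]),
  (8, [(31, 8, 255)]),
  (4, [(7, 4, 15)]),
  (4, [(7, 4, 15)]),
  (60, [(13, 6, 30), (31, 4, 9), (41, 20, 17952), (61, 5, 4), (149, 15, 2376)]),
  (210, [(13, 7, 119), (7, 3, 2), (71, 35, 16909312), (29, 15, 2056), (61, 30, 10486080)]),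
  (2, [(7, 2, 3)]),
  (7, [(13, 7, 127)]),
  (2, [(79, 2, 3)]),
  (4, [(7, 4, 15)]),
  (4, [(7, 4, 15)]),
  (2, [(127, 2, 3)]),
  (120, [(7, 3, 2), (31, 15, 6156), (59, 15, 864), (23, 12, 96), (47, 12, 264), (79, 40, 549757386753), (769, 4, 6)]),
  (2, [(7, 2, 3)]),
  (4, [(271, 4, 15)]),
  (180, [(23, 4, 6), (11, 3, 2), (17, 9, 40), (31, 5, 4), (59, 15, 2056), (139, 10, 561), (89, 45, 343597384000)]),
  (4, [(7, 4, 15)]),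
  (4, [(7, 4, 15)]),
  (7, [(13, 7, 119), (7, 7, 8)]),
  (7, [(13, 7, 127)]),
  (2, [(7, 2, 3)]),
  (2, [(43, 2, 3)]),
  (2, [(19, 2, 3)]),
  (4, [(7, 4, 15)]),
  (4, [(7, 4, 15)]),
  (28, [(23, 4, 6), (7, 7, 28), (97, 7, 99)]),
  (45, [(19, 5, 21), (7, 3, 2), (17, 9, 40), (53, 9, 68), (89, 45, 68786848000)]),
  (2, [(7, 2, 3)]),
  (10, [(19, 10, 1023)]),
  (7, [(13, 7, 127)]),
  (4, [(7, 4, 15)]),
  (4, [(7, 4, 15)]),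
  (7, [(13, 7, 127)]),
  (7, [(13, 7, 127)]),
  (2, [(7, 2, 3)]),
  (10, [(19, 10, 1023)]),
  (7, [(13, 7, 127)]),
  (4, [(7, 4, 15)]),
  (4, [(7, 4, 15)]),
  (42, [(7, 7, 28), (61, 6, 30), (643, 7, 99)]),
  (60, [(7, 3, 2), (11, 5, 4), (109, 5, 17), (59, 15, 320), (23, 12, 96), (199, 20, 76104)]),
  (2, [(7, 2, 3)]),
  (7, [(13, 7, 127)]),
  (210, [(13, 6, 30), (7, 7, 28), (41, 7, 34), (139, 35, 17585692865)]),
  (4, [(7, 4, 15)]),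
  (4, [(7, 4, 15)]),
  (7, [(13, 7, 127)]),
  (10, [(19, 10, 1023)]),
  (2, [(7, 2, 3)]),
  (7, [(13, 7, 127)]),
  (4, [(17, 4, 6), (31, 4, 9)]),
  (4, [(7, 4, 15)]),
  (4, [(7, 4, 15)]),
  (8, [(31, 8, 255)]),
  (10, [(19, 10, 1023)]),
  (2, [(7, 2, 3)]),
  (180, [(13, 6, 30), (19, 5, 21), (41, 4, 6), (37, 9, 68), (71, 9, 40), (181, 45, 68786848000)]),
  (7, [(13, 7, 119), (7, 7, 8)]),
  (4, [(7, 4, 15)]),
  (4, [(7, 4, 15)]),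
  (2, [(19, 2, 3)]),
  (16, [(23, 4, 6), (127, 16, 39321)]),
  (2, [(7, 2, 3)]),
  (8, [(31, 8, 255)]),
  (2, [(43, 2, 3)]),
  (4, [(7, 4, 15)]),
  (4, [(7, 4, 15)]),
  (16, [(31, 16, 65535)]),
  (7, [(13, 7, 127)]),
  (2, [(7, 2, 3)]),
  (90, [(7, 3, 2), (17, 9, 68), (19, 9, 40), (41, 10, 462), (79, 10, 513), (181, 90, 18067209427353600)]),
  (7, [(13, 7, 127)]),
  (4, [(7, 4, 15)]),
  (4, [(7, 4, 15)]),
  (120, [(13, 6, 30), (19, 5, 21), (23, 12, 96), (31, 15, 2056), (79, 8, 129), (239, 40, 68719476744)]),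
  (7, [(13, 7, 127)]),
  (2, [(7, 2, 3)]),
  (120, [(7, 3, 2), (11, 5, 4), (61, 10, 330), (79, 40, 585778120209), (241, 4, 6)]),
  (24, [(19, 3, 2), (79, 4, 9), (47, 8, 102)]),
  (4, [(7, 4, 15)]),
  (4, [(7, 4, 15)]),
  (7, [(13, 7, 127)]),
  (30, [(13, 6, 30), (31, 15, 7020), (199, 10, 513)]),
  (2, [(7, 2, 3)]),
  (7, [(13, 7, 127)]),
  (7, [(13, 7, 127)]),
  (4, [(7, 4, 15)]),
  (4, [(7, 4, 15)]),
  (7, [(13, 7, 127)]),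
  (2, [(31, 2, 3)]),
  (2, [(7, 2, 3)]),
  (180, [(7, 3, 2), (19, 9, 40), (41, 10, 204), (73, 36, 8675297796), (71, 36, 134217984), (199, 20, 837171), (241, 60, 281474976712704)]),
  (10, [(19, 10, 1023)]),
  (4, [(7, 4, 15)]),
  (4, [(7, 4, 15)]),
  (66, [(13, 6, 30), (23, 11, 806), (109, 11, 1105), (131, 22, 278664)]),
  (4, [(17, 4, 6), (79, 4, 9)]),
  (2, [(7, 2, 3)]),
  (2, [(19, 2, 3)]),
  (7, [(13, 7, 119), (7, 7, 8)]),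
  (4, [(7, 4, 15)]),
  (4, [(7, 4, 15)]),
  (15, [(19, 5, 21), (25, 3, 2), (179, 15, 320), (271, 15, 2056)]),
  (15, [(19, 5, 21), (7, 3, 2), (241, 15, 2376)]),
  (2, [(7, 2, 3)]),
  (60, [(7, 3, 2), (23, 6, 12), (11, 5, 4), (29, 15, 2600), (61, 15, 320), (199, 20, 525825)]),
  (24, [(9, 3, 2), (31, 8, 231), (97, 24, 1054728)]),
  (4, [(7, 4, 15)]),
  (4, [(7, 4, 15)]),
  (7, [(13, 7, 119), (7, 7, 8)]),
  (7, [(13, 7, 127)]),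
  (2, [(7, 2, 3)]),
  (7, [(13, 7, 119), (29, 7, 8)]),
  (2, [(67, 2, 3)]),
  (4, [(7, 4, 15)]),
  (4, [(7, 4, 15)]),
  (90, [(13, 3, 2), (61, 6, 12), (79, 5, 21), (29, 15, 2056), (109, 9, 108), (271, 45, 68719476992)]),
  (2, [(19, 2, 3)]),
  (2, [(7, 2, 3)]),
  (24, [(7, 3, 2), (23, 6, 12), (73, 12, 96), (97, 24, 6144), (367, 8, 129)]),
  (2, [(31, 2, 3)]),
  (4, [(7, 4, 15)]),
  (4, [(7, 4, 15)]),
  (7, [(13, 7, 127)]),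
  (7, [(13, 7, 127)]),
  (2, [(7, 2, 3)]),
  (210, [(13, 6, 30), (31, 15, 7020), (43, 7, 62), (223, 7, 65)]),
  (7, [(13, 7, 127)]),
  (4, [(7, 4, 15)]),
  (4, [(7, 4, 15)]),
  (10, [(19, 10, 1023)]),
  (2, [(151, 2, 3)]),
  (2, [(7, 2, 3)]),
  (7, [(13, 7, 127)]),
  (6, [(13, 6, 30), (379, 2, 3)]),
  (4, [(7, 4, 15)]),
  (4, [(7, 4, 15)]),
  (7, [(13, 7, 127)]),
  (2, [(127, 2, 3)]),
  (2, [(7, 2, 3)]),
  (7, [(13, 7, 127)]),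
  (180, [(19, 5, 21), (11, 6, 18), (71, 9, 68), (61, 30, 2097408), (181, 45, 2199101112328), (239, 60, 9007267982606400)]),
  (4, [(7, 4, 15)]),
  (4, [(7, 4, 15)]),
  (15, [(13, 3, 2), (31, 15, 7020), (229, 5, 17)]),
  (15, [(7, 3, 2), (31, 15, 7020), (229, 5, 17)]),
  (2, [(7, 2, 3)]),
  (180, [(13, 6, 30), (17, 4, 6), (19, 10, 585), (79, 20, 35088), (181, 45, 4398180859908), (179, 45, 4294971392)]),
  (7, [(13, 7, 119), (7, 7, 8)]),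
  (4, [(7, 4, 15)]),
  (4, [(7, 4, 15)]),
  (2, [(31, 2, 3)]),
  (12, [(13, 6, 30), (17, 4, 6), (199, 4, 9)]),
  (2, [(7, 2, 3)]),
  (4, [(127, 4, 15)]),
  (2, [(19, 2, 3)]),
  (4, [(7, 4, 15)]),
  (4, [(7, 4, 15)]),
  (120, [(9, 3, 2), (31, 15, 7020), (79, 20, 573489), (97, 24, 393312)]),
  (7, [(13, 7, 127)]),
  (2, [(7, 2, 3)]),
  (10, [(19, 10, 1023)]),
  (7, [(13, 7, 127)]),
  (4, [(7, 4, 15)]),
  (4, [(7, 4, 15)]),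
  (210, [(13, 6, 30), (7, 7, 28), (11, 5, 4), (61, 30, 25430112), (41, 21, 4352), (139, 35, 17181491201)]),
  (7, [(13, 7, 127)]),
  (2, [(7, 2, 3)]),
  (10, [(19, 10, 1023)]),
  (180, [(19, 5, 21), (17, 4, 6), (9, 3, 2), (37, 18, 55404), (89, 45, 68719476992), (179, 90, 2370406613471744753664)]),
  (4, [(7, 4, 15)]),
  (4, [(7, 4, 15)]),
  (7, [(13, 7, 127)]),
  (16, [(31, 16, 65535)]),
  (2, [(7, 2, 3)]),
  (7, [(13, 7, 127)])]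

lemma chk3 : checkL 600 dat3 = true := by decide +kernel

lemma len3 : dat3.length = 200 := by decide +kernel

theorem small_k (k : ℕ) (h1 : 3 ≤ k) (h2 : k < 800) (i : ℕ) : ¬ Sol k (us k i * us k (i + 1)) := by
  rcases lt_or_ge k 200 with a | a
  · exact checkL_spec _ _ chk0 k h1 (by rw [len0]; omega) i
  rcases lt_or_ge k 400 with b | b
  · exact checkL_spec _ _ chk1 k a (by rw [len1]; omega) i
  rcases lt_or_ge k 600 with c | c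
  · exact checkL_spec _ _ chk2 k b (by rw [len2]; omega) i
  · exact checkL_spec _ _ chk3 k c (by rw [len3]; omega) i

end Pool.Agent.Lib.MP_b2ee0b_nt
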