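import Mathlib
import Pool.Agent.Lib.MP_b2ee0b_nt.Approx

namespace Pool.Agent.Lib.MP_b2ee0b_nt

lemma exists_root (K : ℝ) (hK : 400 ≤ K) :
    ∃ ξ : ℝ, 0 ≤ ξ ∧ ξ ≤ 3.04 / K ∧ ξ ^ 4 - 6 * ξ ^ 2 + K * ξ - 3 = 0 := by
  have hK0 : 0 < K := by linarith
  have h1 : (0 : ℝ) ≤ 3.04 / K := by positivity
  have h2 : 3.04 / K ≤ 1 / 100 := by rw [div_le_iff₀ hK0]; linarith
  have hc : ContinuousOn (fun x : ℝ => x ^ 4 - 6 * x ^ 2 + K * x - 3) (Set.Icc 0 (3.04 / K)) := by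
    fun_prop
  have h3 : K * (3.04 / K) = 3.04 := by field_simp
  obtain ⟨ξ, ⟨a, b⟩, c⟩ := intermediate_value_Icc h1 hc (show (0 : ℝ) ∈ _ from by
    constructor
    · norm_num
    · simp only [h3]
      nlinarith [pow_nonneg h1 4])
  exact ⟨ξ, a, b, c⟩

lemma xsmall (K p q : ℝ) (hK : 400 ≤ K) (hp : 0 < p) (hq : 0 < q)
    (hsm : q ^ 4 - 6 * p ^ 2 * q ^ 2 + K * p ^ 3 * q - 3 * p ^ 4 ≤ K * p ^ 3 * q / 2) :
    K * q ≤ 7 * p := by
  obtain ⟨x, rfl⟩ : ∃ x, q = x * p := ⟨q / p, by field_simp⟩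
  have hx : 0 < x := pos_of_mul_pos_of_pos_right' hq hp
  have h1 : x ^ 4 - 6 * x ^ 2 + K * x / 2 - 3 ≤ 0 := by
    have : p ^ 4 * (x ^ 4 - 6 * x ^ 2 + K * x / 2 - 3) ≤ p ^ 4 * 0 := by nlinarith
    exact le_of_mul_le_mul_left this (by positivity)
  have h2 : K * x ≤ 24 := by nlinarith [sq_nonneg (x ^ 2 - 3)]
  have h3 : x ≤ 0.06 := by nlinarith
  have h4 : K * x ≤ 7 := by nlinarith [pow_pos hx 4]
  nlinarith
where
  pos_of_mul_pos_of_pos_right' {x p : ℝ} (h : 0 < x * p) (hp : 0 < p) : 0 < x := by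
    by_contra hx
    push Not at hx
    nlinarith

lemma key (K : ℚ) (L h : ℤ) (hh : 0 < h) (hL : K * h = L) (hK : 400 ≤ K) (p q : ℤ) (hp : 0 < p)
    (hq : 0 < q) (G : ℝ) (hG : G = q ^ 4 - 6 * p ^ 2 * q ^ 2 + K * p ^ 3 * q - 3 * p ^ 4)
    (hpos : 0 < G) (hx : (K : ℝ) * q ≤ 7 * p) (m : ℕ) :
    1 ≤ (27 * (L : ℝ) / 4) ^ m * (G / ((K - 1) * p ^ 3)) + p * (3.04 / K) * (110 * h / K) ^ m := by
  have hK' : (400 : ℝ) ≤ K := by exact_mod_cast hK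
  have hK0 : (0 : ℝ) < K := by linarith
  have hp' : (0 : ℝ) < p := by exact_mod_cast hp
  have hq' : (0 : ℝ) < q := by exact_mod_cast hq
  have hh' : (0 : ℝ) < h := by exact_mod_cast hh
  obtain ⟨ξ, h0, h1, hξ⟩ := exists_root K hK'
  have h2 : ξ ≤ 1 / 100 := h1.trans (by rw [div_le_iff₀ hK0]; linarith)
  obtain ⟨A, B, b0, b1, b2, b3⟩ := approx K L h hh hL hK ξ h0 h2 hξ m
  have hq2 : (q : ℝ) ≤ 7 / 400 * p := by nlinarith
  set Φ : ℝ := q ^ 3 + q ^ 2 * (ξ * p) + q * (ξ * p) ^ 2 + (ξ * p) ^ 3 - 6 * p ^ 2 * (q + ξ * p)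
    + K * p ^ 3 with hΦ
  have hGΦ : G = (q - ξ * p) * Φ := by
    rw [hG, hΦ]; linear_combination (p : ℝ) ^ 4 * hξ
  have hΦ1 : (K - 1) * p ^ 3 ≤ Φ := by
    have a1 : (0 : ℝ) ≤ q ^ 3 + q ^ 2 * (ξ * p) + q * (ξ * p) ^ 2 + (ξ * p) ^ 3 := by positivity
    have a2 : (q : ℝ) + ξ * p ≤ p / 6 := by nlinarith
    have a3 : 6 * (p : ℝ) ^ 2 * (q + ξ * p) ≤ 6 * p ^ 2 * (p / 6) := by gcongr
    rw [hΦ]; nlinarith
  have hK1 : (0 : ℝ) < (K - 1) * p ^ 3 := mul_pos (by linarith) (by positivity)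
  have hΦ0 : 0 < Φ := lt_of_lt_of_le hK1 hΦ1
  have hd0 : (0 : ℝ) < q - ξ * p := by
    rw [hGΦ] at hpos
    exact (pos_iff_pos_of_mul_pos hpos).2 hΦ0
  have hd1 : (q : ℝ) - ξ * p ≤ G / ((K - 1) * p ^ 3) := by
    rw [le_div_iff₀ hK1, hGΦ]; gcongr
  have b0' : (0 : ℝ) < B := by exact_mod_cast b0
  have hint : (1 : ℝ) ≤ B * (q - ξ * p) + p * (B * ξ - A) := by
    have e : (B : ℝ) * (q - ξ * p) + p * (B * ξ - A) = ((B * q - A * p : ℤ) : ℝ) := by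
      push_cast; ring
    have : (0 : ℝ) < B * (q - ξ * p) + p * (B * ξ - A) := by positivity
    rw [e] at this ⊢
    have h5 : 0 < B * q - A * p := by exact_mod_cast this
    exact_mod_cast h5
  have h3 : h * (36 * ξ * (2 / 9 * ξ ^ 2 + 1)) ≤ 110 * h / K := by
    have a1 : 2 / 9 * ξ ^ 2 + 1 ≤ 1.001 := by nlinarith
    calc h * (36 * ξ * (2 / 9 * ξ ^ 2 + 1)) ≤ h * (36 * (3.04 / K) * 1.001) := by gcongr
      _ = 109.54944 * h / K := by ring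
      _ ≤ _ := by gcongr; norm_num
  calc (1 : ℝ) ≤ B * (q - ξ * p) + p * (B * ξ - A) := hint
    _ ≤ (27 * (L : ℝ) / 4) ^ m * (G / ((K - 1) * p ^ 3)) + p * ((3.04 / K) * (110 * h / K) ^ m) := by
      have : (B : ℝ) * ξ - A ≤ (3.04 / K) * (110 * h / K) ^ m := b3.trans (by gcongr)
      gcongr
      exact b0'.le.trans b1
    _ = _ := by ring

theorem thue (K : ℚ) (L h : ℤ) (hh : 0 < h) (hL : K * h = L) (hK : 400 ≤ K) (p q : ℤ) (hp : 0 < p)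
    (hq : 0 < q) (G : ℝ) (hG : G = q ^ 4 - 6 * p ^ 2 * q ^ 2 + K * p ^ 3 * q - 3 * p ^ 4)
    (hpos : 0 < G) (hx : (K : ℝ) * q ≤ 7 * p) (e f : ℕ) (he : e ≠ 0) (Z : ℝ)
    (hw : (G / ((K - 1) * p ^ 3)) ^ e * p ^ f ≤ Z)
    (h1 : (27 * (L : ℝ) / 4) ^ e ≤ (K / (110 * h)) ^ f)
    (h2 : 4 ^ e * (27 * (L : ℝ) / 4) ^ e * Z ≤ (0.246 * K) ^ f)
    (h3 : 4 ^ e * Z ≤ (K / 7) ^ f) (hv : 110 * (h : ℝ) < K) : False := by
  have hK' : (400 : ℝ) ≤ K := by exact_mod_cast hK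
  have hK0 : (0 : ℝ) < K := by linarith
  have hp' : (0 : ℝ) < p := by exact_mod_cast hp
  have hq' : (1 : ℝ) ≤ q := by exact_mod_cast hq
  have hh' : (0 : ℝ) < h := by exact_mod_cast hh
  have hL' : (0 : ℝ) < L := by
    have : (L : ℝ) = K * h := by exact_mod_cast hL.symm
    rw [this]; positivity
  set w : ℝ := G / ((K - 1) * p ^ 3) with hwdef
  have hw0 : 0 ≤ w := div_nonneg hpos.le (mul_pos (by linarith) (by positivity)).le
  set u : ℝ := 27 * (L : ℝ) / 4 with hu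
  set v : ℝ := K / (110 * h) with hvdef
  have hu0 : 0 < u := by positivity
  have hv1 : 1 < v := by rw [hvdef, lt_div_iff₀ (by positivity)]; linarith
  have hv0 : 0 < v := by linarith
  have step : ∀ m : ℕ, u ^ m * w ≤ 1 / 4 → 0.246 * K * v ^ m ≤ p := by
    intro m hm
    have hk := key K L h hh hL hK p q hp hq G hG hpos hx m
    have e1 : (110 * (h : ℝ) / K) ^ m = 1 / v ^ m := by
      rw [hvdef, one_div, ← inv_pow, inv_div]
    rw [e1] at hk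
    have hvm : 0 < v ^ m := by positivity
    have h5 : 3 / 4 ≤ p * (3.04 / K) * (1 / v ^ m) := by linarith
    have h6 : 3 / 4 * (K * v ^ m) ≤ p * 3.04 := by
      have : p * (3.04 / K) * (1 / v ^ m) = p * 3.04 / (K * v ^ m) := by field_simp
      rwa [this, le_div_iff₀ (by positivity)] at h5
    nlinarith [mul_pos hK0 hvm]
  have root : ∀ y P : ℝ, 0 ≤ y → 0 < P → P ≤ p → 4 ^ e * y ^ e * Z ≤ P ^ f → y * w ≤ 1 / 4 := by
    intro y P hy hP hPp hh2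
    have a1 : (4 * (y * w)) ^ e * p ^ f ≤ 1 * p ^ f := by
      calc (4 * (y * w)) ^ e * p ^ f = 4 ^ e * y ^ e * (w ^ e * p ^ f) := by ring
        _ ≤ 4 ^ e * y ^ e * Z := by gcongr
        _ ≤ P ^ f := hh2
        _ ≤ p ^ f := by gcongr
        _ = _ := (one_mul _).symm
    have a2 := le_of_mul_le_mul_right a1 (by positivity)
    have a3 := (pow_le_one_iff_of_nonneg (by positivity) he).1 a2
    linarith
  have hZ : 0 ≤ Z := le_trans (by positivity) hw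
  have all : ∀ m : ℕ, 0.246 * K * v ^ m ≤ p := by
    intro m
    induction m with
    | zero =>
      apply step 0
      apply root _ (K / 7) (by positivity) (by positivity) (by nlinarith)
      simpa using h3
    | succ m ih =>
      apply step
      apply root _ _ (by positivity) (by positivity) ih
      have a1 : (u ^ e) ^ m ≤ (v ^ f) ^ m := by gcongr
      calc 4 ^ e * (u ^ (m + 1)) ^ e * Z = (4 ^ e * u ^ e * Z) * (u ^ e) ^ m := by ring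
        _ ≤ (0.246 * K) ^ f * (v ^ f) ^ m := by gcongr
        _ = _ := by ring
  obtain ⟨m, hm⟩ := pow_unbounded_of_one_lt (p : ℝ) hv1
  have := all m
  nlinarith [pow_pos hv0 m]

end Pool.Agent.Lib.MP_b2ee0b_nt
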