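import Mathlib

namespace Pool.Agent.Lib.MP_b2ee0b_nt

open WeierstrassCurve

/-- existence of a rational point of order three, in elementary terms -/
def T3 (a b c : ℤ) : Prop :=
  ∃ α β γ t : ℚ, α ^ 2 = t + a * b ∧ β ^ 2 = t + a * c ∧ γ ^ 2 = t + b * c ∧
    α * β + β * γ + γ * α = 0

lemma T3.swap12 {a b c : ℤ} (h : T3 a b c) : T3 b a c := by
  obtain ⟨α, β, γ, t, h1, h2, h3, h4⟩ := h
  exact ⟨α, γ, β, t, by linarith, h3, h2, by linarith⟩

lemma T3.swap23 {a b c : ℤ} (h : T3 a b c) : T3 a c b := by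
  obtain ⟨α, β, γ, t, h1, h2, h3, h4⟩ := h
  exact ⟨β, α, γ, t, h2, h1, by linarith, by linarith⟩

lemma T3.neg {a b c : ℤ} (h : T3 a b c) : T3 (-a) (-b) (-c) := by
  obtain ⟨α, β, γ, t, h1, h2, h3, h4⟩ := h
  refine ⟨α, β, γ, t, ?_, ?_, ?_, h4⟩ <;> push_cast <;> linarith

lemma flex (e1 e2 e3 x y m : ℚ) (h12 : e1 ≠ e2) (h13 : e1 ≠ e3) (h23 : e2 ≠ e3) (hy : y ≠ 0)
    (hE : y ^ 2 = (x + e1) * (x + e2) * (x + e3))
    (hm : 2 * y * m = 3 * x ^ 2 + 2 * (e1 + e2 + e3) * x + (e1 * e2 + e1 * e3 + e2 * e3))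
    (hx : m ^ 2 = e1 + e2 + e3 + 3 * x) :
    ∃ α β γ : ℚ, α ^ 2 = x + e1 ∧ β ^ 2 = x + e2 ∧ γ ^ 2 = x + e3 ∧ α * β + β * γ + γ * α = 0 := by
  have key : ∀ z : ℚ, z ≠ 0 → (y - m * z) ^ 2 = z ^ 3 →
      ∃ α : ℚ, α ^ 2 = z ∧ α ^ 3 + m * α ^ 2 = y := by
    intro z hz h
    have h1 : ((y - m * z) / z) ^ 2 = z := by field_simp; linarith
    refine ⟨(y - m * z) / z, h1, ?_⟩
    rw [pow_succ, h1]; field_simp; ring
  have hy2 : (x + e1) * (x + e2) * (x + e3) ≠ 0 := hE ▸ pow_ne_zero 2 hy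
  obtain ⟨α, a1, a2⟩ := key (x + e1) (fun h => hy2 (by simp [h]))
    (by linear_combination hE - (x + e1) * hm + (x + e1) ^ 2 * hx)
  obtain ⟨β, b1, b2⟩ := key (x + e2) (fun h => hy2 (by simp [h]))
    (by linear_combination hE - (x + e2) * hm + (x + e2) ^ 2 * hx)
  obtain ⟨γ, c1, c2⟩ := key (x + e3) (fun h => hy2 (by simp [h]))
    (by linear_combination hE - (x + e3) * hm + (x + e3) ^ 2 * hx)
  have hab : α - β ≠ 0 := fun h => h12 (by rw [sub_eq_zero.1 h] at a1; linarith)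
  have hac : α - γ ≠ 0 := fun h => h13 (by rw [sub_eq_zero.1 h] at a1; linarith)
  have hbc : β - γ ≠ 0 := fun h => h23 (by rw [sub_eq_zero.1 h] at b1; linarith)
  have q1 : α ^ 2 + α * β + β ^ 2 + m * (α + β) = 0 :=
    mul_left_cancel₀ hab (by linear_combination a2 - b2)
  have q2 : α ^ 2 + α * γ + γ ^ 2 + m * (α + γ) = 0 :=
    mul_left_cancel₀ hac (by linear_combination a2 - c2)
  have q3 : α + β + γ + m = 0 := mul_left_cancel₀ hbc (by linear_combination q1 - q2)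
  exact ⟨α, β, γ, a1, b1, c1, by linear_combination (α + β) * q3 - q1⟩

theorem T3_of_iso (a b c : ℤ) (ha : a ≠ 0) (hb : b ≠ 0) (hc : c ≠ 0) (hab : a ≠ b) (hac : a ≠ c)
    (hbc : b ≠ c)
    (h : Nonempty
        (↥(AddCommGroup.torsion
            (({ a₁ := 0,
                a₂ := (4 * (a * b + a * c + b * c) : ℚ),
                a₃ := 0,
                a₄ := (16 * (a * b * (a * c) + a * b * (b * c) + a * c * (b * c)) : ℚ),
                a₆ := (64 * (a * b) * (a * c) * (b * c) : ℚ) } :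
                WeierstrassCurve ℚ).toAffine.Point))
          ≃+ ZMod 2 × ZMod 6)) : T3 a b c := by
  obtain ⟨φ⟩ := h
  set Q := φ.symm (0, 2) with hQ
  have hQ0 : Q ≠ 0 := by
    intro h0
    have : φ Q = 0 := by rw [h0, map_zero]
    rw [hQ, AddEquiv.apply_symm_apply] at this
    revert this; decide
  have hQ3 : Q + Q + Q = 0 := by
    rw [hQ, ← map_add, ← map_add]
    have : ((0, 2) : ZMod 2 × ZMod 6) + (0, 2) + (0, 2) = 0 := by decide
    rw [this, map_zero]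
  obtain ⟨P, hP⟩ := Q
  have hP0 : P ≠ 0 := fun h0 => hQ0 (Subtype.ext h0)
  have hP3 : P + P + P = 0 := congrArg Subtype.val hQ3
  clear hQ hQ0 hQ3 hP φ
  rcases P with _ | ⟨x, y, hns⟩
  · exact absurd rfl hP0
  have hPP := eq_neg_of_add_eq_zero_left hP3
  have hy := fun hy => hP0 (by rwa [Affine.Point.add_self_of_Y_eq (h₁ := hns) hy, zero_add] at hP3)
  rw [Affine.Point.add_self_of_Y_ne hy, Affine.Point.neg_some, Affine.Point.some.injEq] at hPP
  have hx := hPP.1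
  have hE := (Affine.equation_iff _ _).1 hns.1
  rw [Affine.slope_of_Y_ne rfl hy] at hx
  simp only [Affine.addX, Affine.negY] at hx hE hy
  have hy0 : y ≠ 0 := fun h => hy (by simp [h])
  have ha' : (a : ℚ) ≠ 0 := by exact_mod_cast ha
  have hb' : (b : ℚ) ≠ 0 := by exact_mod_cast hb
  have hc' : (c : ℚ) ≠ 0 := by exact_mod_cast hc
  have hab' : (a : ℚ) ≠ b := by exact_mod_cast hab
  have hac' : (a : ℚ) ≠ c := by exact_mod_cast hac
  have hbc' : (b : ℚ) ≠ c := by exact_mod_cast hbc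
  obtain ⟨α, β, γ, h1, h2, h3, h4⟩ := flex (4 * (a * b)) (4 * (a * c)) (4 * (b * c)) x y
    ((3 * x ^ 2 + 2 * (4 * (a * b + a * c + b * c)) * x +
      16 * (a * b * (a * c) + a * b * (b * c) + a * c * (b * c)) - 0 * y) / (y - (-y - 0 * x - 0)))
    (fun h => hbc' (mul_left_cancel₀ ha' (by linarith)))
    (fun h => hac' (mul_left_cancel₀ hb' (by linarith)))
    (fun h => hab' (mul_left_cancel₀ hc' (by linarith))) hy0
    (by linear_combination hE)
    (by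
      have : y - (-y - 0 * x - 0) = 2 * y := by ring
      rw [this]; field_simp; ring)
    (by linear_combination hx)
  exact ⟨α / 2, β / 2, γ / 2, x / 4, by linarith, by linarith, by linarith, by linarith⟩

lemma int_of_sq {r : ℚ} {n : ℤ} (h : r ^ 2 = n) : ∃ z : ℤ, r = z := by
  have h1 : (r * r).den = 1 := by rw [← sq, h]; simp
  rw [Rat.mul_self_den] at h1
  have h2 : r.den = 1 := Nat.eq_one_of_mul_eq_one_left h1
  exact ⟨r.num, (Rat.coe_int_num_of_den_eq_one h2).symm⟩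

/-- parametrisation -/
theorem param {a b c : ℤ} {α β γ t : ℚ} (hc : c ≠ 0) (hab : a ≠ b)
    (h1 : α ^ 2 = t + a * b) (h2 : β ^ 2 = t + a * c) (h3 : γ ^ 2 = t + b * c)
    (h4 : α * β + β * γ + γ * α = 0) :
    ∃ d p q u v : ℤ, 0 < p ∧ IsCoprime p q ∧ d ^ 2 * (p ^ 3 * q) = c * (b - a) ∧
      d ^ 2 * ((q - p) ^ 3 * (q + 3 * p)) = 16 * (a * (b - c)) ∧
      d ^ 2 * ((q + p) ^ 3 * (q - 3 * p)) = 16 * (b * (a - c)) ∧
      3 * d ^ 2 = u * (c * (b - a)) + v * (16 * (a * (b - c))) ∧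
      4 * α = d * (q ^ 2 - p ^ 2) := by
  have hc' : (c : ℚ) ≠ 0 := by exact_mod_cast hc
  have hab' : (a : ℚ) ≠ b := by exact_mod_cast hab
  have hσ : β + γ ≠ 0 := by
    intro h
    have : (c : ℚ) * (a - b) = 0 := by linear_combination (β - γ) * h - h2 + h3
    rcases mul_eq_zero.1 this with h | h
    · exact hc' h
    · exact hab' (by linarith)
  set x : ℚ := (γ - β) / (β + γ) with hx
  obtain ⟨p, hp⟩ : ∃ p : ℤ, p = (x.den : ℤ) := ⟨_, rfl⟩
  obtain ⟨q, hq⟩ : ∃ q : ℤ, q = x.num := ⟨_, rfl⟩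
  have hp0 : 0 < p := by rw [hp]; exact_mod_cast x.den_pos
  have hp' : (p : ℚ) ≠ 0 := by exact_mod_cast hp0.ne'
  have hxq : x * p = q := by rw [hp, hq]; exact_mod_cast Rat.mul_den_eq_num x
  have hcop : IsCoprime p q := by
    rw [Int.isCoprime_iff_gcd_eq_one, Int.gcd_comm, hp, hq]
    exact x.reduced
  set δ : ℚ := (β + γ) / p ^ 2 with hδ
  have e1 : β + γ = δ * p ^ 2 := by rw [hδ]; field_simp
  have e2 : γ - β = δ * p * q := by rw [← hxq, hδ, hx]; field_simp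
  have eβ : β = δ * p * (p - q) / 2 := by linear_combination (e1 - e2) / 2
  have eγ : γ = δ * p * (p + q) / 2 := by linear_combination (e1 + e2) / 2
  have hδ0 : δ * p ^ 2 ≠ 0 := e1 ▸ hσ
  have eα : α = δ * (q ^ 2 - p ^ 2) / 4 := by
    apply mul_left_cancel₀ hδ0
    rw [eβ, eγ] at h4
    linear_combination h4
  have f1 : δ ^ 2 * (p ^ 3 * q) = c * (b - a) := by
    rw [eβ] at h2; rw [eγ] at h3; linear_combination h3 - h2
  have f2 : δ ^ 2 * ((q - p) ^ 3 * (q + 3 * p)) = 16 * (a * (b - c)) := by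
    rw [eβ] at h2; rw [eα] at h1; linear_combination 16 * h1 - 16 * h2
  have f3 : δ ^ 2 * ((q + p) ^ 3 * (q - 3 * p)) = 16 * (b * (a - c)) := by
    rw [eγ] at h3; rw [eα] at h1; linear_combination 16 * h1 - 16 * h3
  obtain ⟨u, v, huv⟩ : ∃ u v : ℤ, u * (p ^ 3 * q) + v * ((q - p) ^ 3 * (q + 3 * p)) = 3 := by
    have c1 : IsCoprime (p ^ 3) ((q - p) ^ 3 * (q + 3 * p)) := by
      apply IsCoprime.pow_left
      have : (q - p) ^ 3 * (q + 3 * p) = q ^ 4 + p * (-6 * p * q ^ 2 + 8 * p ^ 2 * q - 3 * p ^ 3) := by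
        ring
      rw [this]
      exact (IsCoprime.pow_right hcop).add_mul_left_right _
    obtain ⟨u1, v1, c1⟩ := c1
    obtain ⟨s, r, c2⟩ : IsCoprime q (p ^ 4) := IsCoprime.pow_right hcop.symm
    refine ⟨(3 * s + r * (q ^ 3 - 6 * p ^ 2 * q + 8 * p ^ 3)) * u1,
      (3 * s + r * (q ^ 3 - 6 * p ^ 2 * q + 8 * p ^ 3)) * q * v1 - r, ?_⟩
    linear_combination (3 * s + r * (q ^ 3 - 6 * p ^ 2 * q + 8 * p ^ 3)) * q * c1 + 3 * c2
  have huv' : (u : ℚ) * (p ^ 3 * q) + v * ((q - p) ^ 3 * (q + 3 * p)) = 3 := by exact_mod_cast huv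
  have f4 : 3 * δ ^ 2 = u * (c * (b - a)) + v * (16 * (a * (b - c))) := by
    linear_combination u * f1 + v * f2 - δ ^ 2 * huv'
  obtain ⟨z, hz⟩ : ∃ z : ℤ, 3 * δ = z :=
    int_of_sq (n := 3 * (u * (c * (b - a)) + v * (16 * (a * (b - c))))) (by
      push_cast; linear_combination 3 * f4)
  have hz2 : z ^ 2 = 3 * (u * (c * (b - a)) + v * (16 * (a * (b - c)))) := by
    have : (z : ℚ) ^ 2 = 3 * (u * (c * (b - a)) + v * (16 * (a * (b - c)))) := by
      rw [← hz]; linear_combination 3 * f4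
    exact_mod_cast this
  obtain ⟨d, hd⟩ : (3 : ℤ) ∣ z := Int.prime_three.dvd_of_dvd_pow ⟨_, hz2⟩
  have hδd : δ = d := by
    have : (z : ℚ) = 3 * d := by exact_mod_cast hd
    linarith
  rw [hδd] at f1 f2 f3 f4 eα
  exact ⟨d, p, q, u, v, hp0, hcop, by exact_mod_cast f1, by exact_mod_cast f2,
    by exact_mod_cast f3, by exact_mod_cast f4, by rw [eα]; ring⟩

end Pool.Agent.Lib.MP_b2ee0b_nt
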