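import Mathlib
import Pool.Agent.Lib.MP_b2ee0b_nt.Thue
import Pool.Agent.Lib.MP_b2ee0b_nt.Torsion
import Pool.Agent.Lib.MP_b2ee0b_nt.Data

namespace Pool.Agent.Lib.MP_b2ee0b_nt

lemma us_class (k : ℤ) (hk : 3 ≤ k) (n : ℕ) : ∀ X Y : ℤ, 0 ≤ Y → Y ≤ X → Y < n →
    X ^ 2 - k * X * Y + Y ^ 2 = 4 → ∃ i, Y = us k i ∧ X = us k (i + 1) := by
  induction n with
  | zero => intro X Y h0 _ h2; simp at h2; omega
  | succ n ih =>
    intro X Y h0 h1 h2 h
    rcases eq_or_lt_of_le h0 with rfl | hY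
    · refine ⟨0, rfl, ?_⟩
      have : X = 2 := by nlinarith
      simp [us, this]
    have hY2 : 2 ≤ Y := by
      by_contra h3
      have h4 : Y = 1 := by omega
      subst h4
      rcases le_or_gt X k with h5 | h5 <;> nlinarith
    have hX : 0 < X := by omega
    have e : (k * Y - X) * X = Y ^ 2 - 4 := by linarith
    have a1 : 0 ≤ k * Y - X := by
      by_contra h3
      push Not at h3
      nlinarith
    have a2 : k * Y - X < Y := by
      by_contra h3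
      push Not at h3
      nlinarith
    obtain ⟨i, i1, i2⟩ := ih Y (k * Y - X) a1 a2.le (by push_cast at h2; omega) (by linarith)
    exact ⟨i + 1, i2, by rw [us, ← i1, ← i2]; ring⟩

lemma sol_of_T3 {k c : ℤ} (hc : c ≠ 0) (h : T3 (k - 2) (k + 2) c) :
    ∃ d p q : ℤ, 0 < p ∧ d ^ 2 * (p ^ 3 * q) = 4 * c ∧
      d ^ 2 * (q ^ 4 - 6 * p ^ 2 * q ^ 2 + 4 * k * p ^ 3 * q - 3 * p ^ 4) = 16 * (k ^ 2 - 4) := by
  obtain ⟨α, β, γ, t, h1, h2, h3, h4⟩ := h
  obtain ⟨d, p, q, -, -, hp, -, f1, f2, f3, -, -⟩ := param hc (by omega) h1 h2 h3 h4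
  refine ⟨d, p, q, hp, by linarith, ?_⟩
  have : 4 * (d ^ 2 * (q ^ 4 - 6 * p ^ 2 * q ^ 2 + 4 * k * p ^ 3 * q - 3 * p ^ 4)) =
      4 * (16 * (k ^ 2 - 4)) := by linear_combination (k + 2) * f2 - (k - 2) * f3
  linarith

lemma large_k {k c d p q : ℤ} (hk : 800 ≤ k) (hc : 2 * k ≤ c) (hp : 0 < p)
    (f1 : d ^ 2 * (p ^ 3 * q) = 4 * c)
    (f2 : d ^ 2 * (q ^ 4 - 6 * p ^ 2 * q ^ 2 + 4 * k * p ^ 3 * q - 3 * p ^ 4) = 16 * (k ^ 2 - 4)) :
    False := by
  have hd : d ≠ 0 := by rintro rfl; omega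
  have hd2 : 1 ≤ d ^ 2 := by have := pow_pos (abs_pos.2 hd) 2; rw [sq_abs] at this; omega
  have hp3 : 0 < p ^ 3 := by positivity
  have hq : 0 < q := by
    by_contra h
    push Not at h
    have : d ^ 2 * (p ^ 3 * q) ≤ 0 := mul_nonpos_of_nonneg_of_nonpos (by omega) (by nlinarith)
    omega
  set G : ℤ := q ^ 4 - 6 * p ^ 2 * q ^ 2 + 4 * k * p ^ 3 * q - 3 * p ^ 4 with hG
  have hN : 0 < k ^ 2 - 4 := by nlinarith
  have hG0 : 0 < G := by
    by_contra h
    push Not at h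
    have : d ^ 2 * G ≤ 0 := mul_nonpos_of_nonneg_of_nonpos (by omega) h
    omega
  have hG1 : G ≤ 16 * k ^ 2 := by nlinarith
  have hG2 : G ≤ 2 * k * (p ^ 3 * q) := by
    have : d ^ 2 * G ≤ d ^ 2 * (2 * k * (p ^ 3 * q)) := by
      rw [f2, show d ^ 2 * (2 * k * (p ^ 3 * q)) = 2 * k * (d ^ 2 * (p ^ 3 * q)) by ring, f1]
      nlinarith
    exact le_of_mul_le_mul_left this (by omega)
  have hk' : (800 : ℝ) ≤ k := by exact_mod_cast hk
  have hp' : (0 : ℝ) < p := by exact_mod_cast hp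
  have hq' : (0 : ℝ) < q := by exact_mod_cast hq
  have hK : (((4 * k : ℤ) : ℚ) : ℝ) = 4 * k := by push_cast; ring
  have hGR : (G : ℝ) = q ^ 4 - 6 * p ^ 2 * q ^ 2 + 4 * k * p ^ 3 * q - 3 * p ^ 4 := by
    rw [hG]; push_cast; ring
  have hG2' : (G : ℝ) ≤ 2 * k * (p ^ 3 * q) := by exact_mod_cast hG2
  have hG1' : (G : ℝ) ≤ 16 * k ^ 2 := by exact_mod_cast hG1
  have hx := xsmall (4 * k) p q (by linarith) hp' hq' (by rw [← hGR]; linarith)
  refine thue ((4 * k : ℤ) : ℚ) (4 * k) 1 one_pos (by simp) (by exact_mod_cast (by omega : 400 ≤ 4 * k))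
    p q hp hq G (by rw [hK, hGR]) (by exact_mod_cast hG0) (by rw [hK]; exact hx) 1 3 one_ne_zero
    (4.01 * k) ?_ ?_ ?_ ?_ ?_
  · rw [hK, pow_one]
    have h1 : (0 : ℝ) < 4 * k - 1 := by linarith
    have : (G : ℝ) / ((4 * k - 1) * p ^ 3) * p ^ 3 = G / (4 * k - 1) := by field_simp
    rw [this, div_le_iff₀ h1]
    nlinarith
  · rw [hK]; push_cast
    have : (4 * (k : ℝ) / (110 * 1)) ^ 3 = k * (k * k) * (64 / 1331000) := by ring
    rw [this]
    have h2 : (640000 : ℝ) ≤ k * k := by nlinarith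
    nlinarith
  · rw [hK]; push_cast
    have : (0.246 * (4 * (k : ℝ))) ^ 3 = k * (k * k) * 0.952763904 := by ring
    rw [this]
    nlinarith [mul_pos (by linarith : (0 : ℝ) < k) (by linarith : (0 : ℝ) < k)]
  · rw [hK]
    have : (4 * (k : ℝ) / 7) ^ 3 = k * (k * k) * (64 / 343) := by ring
    rw [this]
    have h2 : (640000 : ℝ) ≤ k * k := by nlinarith
    nlinarith
  · rw [hK]; push_cast; linarith

lemma noSol14 : noSol 7 1 4 = true := by decide +kernel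

lemma diff4_aux {k c : ℤ} (hk0 : 0 ≤ k) (hk2 : k ≠ 2) (hc : c ≠ 0)
    (hs : IsSquare ((k - 2) * c + 4)) (ht : IsSquare ((k + 2) * c + 4)) :
    ¬ T3 (k - 2) (k + 2) c := by
  intro h
  obtain ⟨d, p, q, hp, f1, f2⟩ := sol_of_T3 hc h
  have hsol : Sol k c := ⟨d * p ^ 2, d * q ^ 2, d * p * q, by ring, by linarith, by linarith⟩
  obtain ⟨s, hs⟩ := hs
  obtain ⟨τ, ht⟩ := ht
  obtain ⟨X, Y, hXY, hq⟩ : ∃ X Y : ℤ, X * Y = c ∧ X ^ 2 - k * X * Y + Y ^ 2 = 4 := by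
    have h1 : Even ((τ - s) * (τ + s)) := ⟨2 * c, by linarith⟩
    have h2 : Even (τ - s) := by
      rcases Int.even_mul.1 h1 with h2 | ⟨w, h2⟩
      · exact h2
      · exact ⟨w - s, by linarith⟩
    obtain ⟨Y, hY⟩ := h2
    have h3 : τ = s + 2 * Y := by linarith
    subst h3
    have h4 : (s + Y) * Y = c := by nlinarith
    exact ⟨s + Y, Y, h4, by rw [← h4] at hs; linarith⟩
  have hX : X ≠ 0 := by rintro rfl; simp at hXY; omega
  have hY : Y ≠ 0 := by rintro rfl; simp at hXY; omega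
  have hX2 : 1 ≤ X ^ 2 := by have := pow_pos (abs_pos.2 hX) 2; rw [sq_abs] at this; omega
  have hY2 : 1 ≤ Y ^ 2 := by have := pow_pos (abs_pos.2 hY) 2; rw [sq_abs] at this; omega
  rcases lt_or_ge k 3 with hk3 | hk3
  · have hb : X ^ 2 + Y ^ 2 ≤ 8 := by
      have : k = 0 ∨ k = 1 := by omega
      rcases this with rfl | rfl <;> nlinarith [sq_nonneg (X - Y)]
    have x1 : X ≤ 2 := by nlinarith
    have x2 : -2 ≤ X := by nlinarith
    have y1 : Y ≤ 2 := by nlinarith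
    have y2 : -2 ≤ Y := by nlinarith
    have : k = 1 ∧ c = 4 := by
      have : k = 0 ∨ k = 1 := by omega
      rcases this with rfl | rfl <;> interval_cases X <;> interval_cases Y <;> omega
    obtain ⟨rfl, rfl⟩ := this
    exact noSol_spec 7 1 4 (by norm_num) noSol14 1 4 (by simp) (by simp) hsol
  have hc0 : 0 < c := by
    by_contra h0
    have : X * Y ≤ -1 := by omega
    nlinarith
  obtain ⟨X, Y, hY0, hYX, hXY, hq⟩ : ∃ X Y : ℤ, 0 < Y ∧ Y ≤ X ∧ X * Y = c ∧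
      X ^ 2 - k * X * Y + Y ^ 2 = 4 := by
    have e1 : |X| * |Y| = c := by rw [← abs_mul, hXY, abs_of_pos hc0]
    have e2 : |X| ^ 2 - k * |X| * |Y| + |Y| ^ 2 = 4 := by
      rw [mul_assoc, e1, sq_abs, sq_abs, ← hXY]; linarith
    rcases le_total |Y| |X| with h1 | h1
    · exact ⟨|X|, |Y|, abs_pos.2 hY, h1, e1, e2⟩
    · exact ⟨|Y|, |X|, abs_pos.2 hX, h1, by linarith, by linarith⟩
  rcases lt_or_ge k 800 with hk8 | hk8
  · obtain ⟨i, i1, i2⟩ := us_class k hk3 (Y.toNat + 1) X Y hY0.le hYX (by push_cast; omega) hq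
    obtain ⟨n, rfl⟩ := Int.eq_ofNat_of_zero_le hk0
    apply small_k n (by omega) (by omega) i
    rw [← i1, ← i2, mul_comm, hXY]
    exact hsol
  · have hY2 : 2 ≤ Y := by
      by_contra h3
      have h4 : Y = 1 := by omega
      subst h4
      rcases le_or_gt X k with h5 | h5 <;> nlinarith
    have h1 : k * Y ≤ 2 * X := by
      by_contra h3
      push Not at h3
      nlinarith
    exact large_k hk8 (by nlinarith) hp f1 f2

theorem diff4 {a c : ℤ} (ha : a ≠ 0) (hb : a + 4 ≠ 0) (hc : c ≠ 0)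
    (hs : IsSquare (a * c + 4)) (ht : IsSquare ((a + 4) * c + 4)) : ¬ T3 a (a + 4) c := by
  intro h
  rcases le_total 0 (a + 2) with hk | hk
  · apply diff4_aux (k := a + 2) (c := c) hk (by omega) hc
    · rwa [show a + 2 - 2 = a by ring]
    · rwa [show a + 2 + 2 = a + 4 by ring]
    · rwa [show a + 2 - 2 = a by ring, show a + 2 + 2 = a + 4 by ring]
  · apply diff4_aux (k := -(a + 2)) (c := -c) (by omega) (by omega) (by omega)
    · rwa [show (-(a + 2) - 2) * -c = (a + 4) * c by ring]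
    · rwa [show (-(a + 2) + 2) * -c = a * c by ring]
    · rw [show -(a + 2) - 2 = -(a + 4) by ring, show -(a + 2) + 2 = -a by ring]
      exact h.swap12.neg

end Pool.Agent.Lib.MP_b2ee0b_nt
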