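import Mathlib

/-! Finite search: residue tests and their meaning. -/

namespace Pool.Agent.Lib.MP_b2ee0b_nt.Fn

open Nat (add mul mod div shiftRight beq ble)

noncomputable def an (a b : Bool) : Bool := Bool.rec false b a

noncomputable def orr (a b : Bool) : Bool := Bool.rec b true a

noncomputable def bit (l T S P i : ℕ) : ℕ :=
  mod (shiftRight T (add (mul (mod (mul S i) l) l) (mod (mul (mul P i) i) l))) 2

noncomputable def inv (l I r : ℕ) : ℕ := mod (shiftRight I (mul 8 (mod r l))) 256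

noncomputable def sq (x : ℕ) : ℕ := mul x x

noncomputable def m2a (l T iA iB ex ey eb : ℕ) : ℕ :=
  add (bit l T (add ex eb) (mul ex eb) iB) (mul 2 (bit l T (add ey eb) (mul ey eb) iA))

noncomputable def m2 (l I T x y b A B C : ℕ) : ℕ :=
  m2a l T (inv l I A) (inv l I B) (sq (add (mul C B) (mul x A))) (sq (add (mul C A) (mul y B)))
    (sq (add (mul A B) (mul b C)))

noncomputable def m6 (l I T u v w A B C n nu nv nw : ℕ) : ℕ :=
  add (m2 l I T v w n nw nv A) (mul 4 (add (m2 l I T u w n nw nu B) (mul 4 (m2 l I T u v n nv nu C))))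

noncomputable def ext {X : Type} (hf : ℕ → ℕ) (u v w A B C : ℕ) (k : ℕ → ℕ → ℕ → ℕ → X) : X :=
  k (add (add (add u v) w) (hf (add (mul (mul u v) w) (mul (mul A B) C))))
    (hf (add (mul C B) (mul u A))) (hf (add (mul C A) (mul v B))) (hf (add (mul A B) (mul w C)))

noncomputable def hm (l m : ℕ) : ℕ := mod (mul m (div (add l 1) 2)) l

noncomputable def hx (m : ℕ) : ℕ := div m 2

noncomputable def m6e (l I T u v w A B C : ℕ) : ℕ := ext (hm l) u v w A B C (m6 l I T u v w A B C)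

noncomputable def mm0 (l I T x y r : ℕ) : ℕ :=
  m6e l I T x y (add (add x y) (mul 2 r)) (add r y) (add r x) r

noncomputable def m18 (l I T u v w A B C n nu nv nw : ℕ) : ℕ :=
  add (m6e l I T v w n nw nv A)
    (mul 64 (add (m6e l I T u w n nw nu B) (mul 64 (m6e l I T u v n nv nu C))))

noncomputable def m18e (l I T u v w A B C : ℕ) : ℕ := ext (hm l) u v w A B C (m18 l I T u v w A B C)

noncomputable def mm1 (l I T x y r : ℕ) : ℕ :=
  m18e l I T x y (add (add x y) (mul 2 r)) (add r y) (add r x) r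

noncomputable def allTo (P : ℕ → Bool) (n : ℕ) : Bool :=
  Nat.rec (motive := fun _ => Bool) true (fun i ih => an (P i) ih) n

noncomputable def lane (w m j : ℕ) : ℕ := mod (shiftRight m (mul w j)) (Nat.pow 2 w)

noncomputable def chkL (l w Tb x i : ℕ) (mm : ℕ → ℕ → ℕ → ℕ) (p : ℕ) : Bool :=
  beq (lane w Tb (add (mul x l) p))
    (mm x (mod (mul (add (sq (mul p x)) (mul 4 (Nat.sub l 1))) i) l) (mod (mul p x) l))

noncomputable def chkT (l w J Tb : ℕ) (mm : ℕ → ℕ → ℕ → ℕ) : Bool :=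
  an (allTo (fun p => beq (add (lane w Tb p) 1) (Nat.pow 2 w)) l)
    (allTo (fun x => orr (beq x 0) (an (beq (mod (mul x (inv l J x)) l) 1)
      (allTo (chkL l w Tb x (inv l J x) mm) l))) l)

noncomputable def chkE (l T g S G : ℕ) : Bool :=
  beq (mod (shiftRight T (add (mul (mod (add (mul 2 g) (mul S (add S (mul G (Nat.sub (mul 2 l) 2))))) l) l)
    (mod (add (mul g (add g (mul S (add S (mul G (Nat.sub (mul 2 l) 2)))))) (sq (mul G S))) l))) 2) 1

noncomputable def chkD (l I T : ℕ) : Bool :=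
  an (an (beq (mod T 2) 1) (beq (inv l I 0) 0))
    (an (allTo (fun x => orr (beq x 0) (beq (mod (mul (mul 4 (sq x)) (inv l I x)) l) 1)) l)
      (allTo (fun G => allTo (fun j => chkE l T (add 1 (mul (Nat.sub l 1) (sq G)))
        (add (mul j (sq (add (mul 2 j) (mul 3 G)))) (add (mul 4 G) (mul 3 j))) G) l) l))

noncomputable def stp (m a : ℕ) (k : ℕ → Bool) : Bool := orr (beq m 0) (k (Nat.land m a))

theorem an_iff {a b : Bool} : an a b = true ↔ a = true ∧ b = true := by cases a <;> simp [an]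

theorem orr_iff {a b : Bool} : orr a b = true ↔ a = true ∨ b = true := by cases a <;> simp [orr]

theorem mod_e (a b : ℕ) : mod a b = a % b := rfl
theorem div_e (a b : ℕ) : div a b = a / b := rfl
theorem shr_e (a b : ℕ) : shiftRight a b = a >>> b := rfl
theorem pow_e (a b : ℕ) : Nat.pow a b = a ^ b := rfl
theorem sub_e (a b : ℕ) : Nat.sub a b = a - b := rfl
theorem sq_e (a : ℕ) : sq a = a * a := rfl

theorem allTo_ok {P : ℕ → Bool} : ∀ n, allTo P n = true → ∀ i < n, P i = true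
  | 0, _, i, hi => by omega
  | n + 1, h, i, hi => by
    obtain ⟨h1, h2⟩ := an_iff.1 (show an (P n) (allTo P n) = true from h)
    rcases Nat.lt_succ_iff_lt_or_eq.1 hi with g | rfl
    · exact allTo_ok n h2 i g
    · exact h1

section
variable {R : Type} [CommSemiring R]

/-- the equations of a point of order three and of its lift; `s` and `t` are doubled roots -/
def Rel (r s t : R) : Prop := ∃ α β G j : R, α * β = G * (α + β) ∧
  r ^ 2 * (α + β) = j * (2 * j + 3 * G) ^ 2 + r ^ 2 * (4 * G + 3 * j) ∧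
  s ^ 2 + 4 * G ^ 2 = 4 * r ^ 2 + 4 * β ^ 2 ∧ t ^ 2 + 4 * G ^ 2 = 4 * r ^ 2 + 4 * α ^ 2

def P2 (x y b A B C : R) (i : ℕ) : Prop :=
  (i = 0 ∧ Rel B (C * B + x * A) (A * B + b * C)) ∨ (i = 1 ∧ Rel A (C * A + y * B) (A * B + b * C))

def Ext (u v w A B C n nu nv nw : R) : Prop :=
  2 * n = 2 * (u + v + w) + (u * v * w + A * B * C) ∧ 2 * nu = C * B + u * A ∧
    2 * nv = C * A + v * B ∧ 2 * nw = A * B + w * C

def Ch (k : ℕ) (P : R → R → R → R → R → R → ℕ → Prop) (u v w A B C n nu nv nw : R) (i : ℕ) : Prop :=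
  P v w n nw nv A i ∨ (∃ m, i = m + k ∧ P u w n nw nu B m) ∨ ∃ m, i = m + k + k ∧ P u v n nv nu C m

def Up (k : ℕ) (P : R → R → R → R → R → R → ℕ → Prop) (u v w A B C : R) (i : ℕ) : Prop :=
  ∃ n nu nv nw, Ext u v w A B C n nu nv nw ∧ Ch k P u v w A B C n nu nv nw i

end

theorem Rel.cast {l r s t : ℕ} (h : Rel r s t) : Rel (r : ZMod l) s t := by
  obtain ⟨α, β, G, j, h1, h2, h3, h4⟩ := h
  exact ⟨α, β, G, j, by exact_mod_cast congrArg (Nat.cast (R := ZMod l)) h1,
    by exact_mod_cast congrArg (Nat.cast (R := ZMod l)) h2,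
    by exact_mod_cast congrArg (Nat.cast (R := ZMod l)) h3,
    by exact_mod_cast congrArg (Nat.cast (R := ZMod l)) h4⟩

def Red (l : ℕ) (P : ℕ → ℕ → ℕ → ℕ → ℕ → ℕ → ℕ → Prop)
    (Q : ZMod l → ZMod l → ZMod l → ZMod l → ZMod l → ZMod l → ℕ → Prop) : Prop :=
  ∀ u v w A B C i, P u v w A B C i → Q u v w A B C i

theorem red2 (l : ℕ) : Red l P2 P2 := by
  rintro u v w A B C i (⟨h, g⟩ | ⟨h, g⟩)
  · exact Or.inl ⟨h, by exact_mod_cast g.cast (l := l)⟩
  · exact Or.inr ⟨h, by exact_mod_cast g.cast (l := l)⟩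

theorem Red.ch {l P Q} (h : Red l P Q) {k u v w A B C n nu nv nw i : ℕ}
    (g : Ch k P u v w A B C n nu nv nw i) : Ch k Q u v w A B C n nu nv nw i := by
  rcases g with g | ⟨m, e, g⟩ | ⟨m, e, g⟩
  · exact Or.inl (h _ _ _ _ _ _ _ g)
  · exact Or.inr (Or.inl ⟨m, e, h _ _ _ _ _ _ _ g⟩)
  · exact Or.inr (Or.inr ⟨m, e, h _ _ _ _ _ _ _ g⟩)

theorem Red.up {l P Q} (h : Red l P Q) (k : ℕ) : Red l (Up k P) (Up k Q) := by
  rintro u v w A B C i ⟨n, nu, nv, nw, ⟨h1, h2, h3, h4⟩, g⟩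
  exact ⟨n, nu, nv, nw, ⟨by exact_mod_cast congrArg (Nat.cast (R := ZMod l)) h1,
    by exact_mod_cast congrArg (Nat.cast (R := ZMod l)) h2,
    by exact_mod_cast congrArg (Nat.cast (R := ZMod l)) h3,
    by exact_mod_cast congrArg (Nat.cast (R := ZMod l)) h4⟩, h.ch g⟩

theorem cast_pred {l : ℕ} (h : 1 ≤ l) : ((l - 1 : ℕ) : ZMod l) = -1 := by
  rw [Nat.cast_sub h]; simp

theorem mod_congr {l a b : ℕ} (h : (a : ZMod l) = b) : a % l = b % l :=
  (ZMod.natCast_eq_natCast_iff' a b l).1 h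

theorem inv_one {l x a : ℕ} (h : a % l = 1) (g : x = a) : (x : ZMod l) = 1 := by
  rw [g, ← ZMod.natCast_mod, h, Nat.cast_one]

def Ok (l I T : ℕ) : Prop := chkD l I T = true ∧ l % 2 = 1

theorem bit_ok {l I T r s t : ℕ} (h : Ok l I T) (g : Rel (r : ZMod l) s t) :
    bit l T (s * s + t * t) (s * s * (t * t)) (inv l I r) = 1 := by
  obtain ⟨h, l1⟩ := h
  have l0 : 0 < l := by omega
  have : NeZero l := ⟨l0.ne'⟩
  simp only [chkD, an_iff, Nat.beq_eq] at h
  obtain ⟨⟨h1, h2⟩, h3, h4⟩ := h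
  have ei : inv l I r = inv l I (r % l) := by simp only [inv, mod_e, Nat.mod_mod]
  have h5 := allTo_ok _ h3 _ (Nat.mod_lt r l0)
  simp only [orr_iff, Nat.beq_eq] at h5
  rw [← ei] at h5
  rcases h5 with h5 | h5
  · rw [ei, h5, h2]
    simpa [bit, mod_e, shr_e] using h1
  · generalize inv l I r = i at h5
    have e1 := inv_one h5 rfl
    simp only [Nat.mul_eq, sq_e] at e1
    push_cast at e1
    rw [ZMod.natCast_mod] at e1
    obtain ⟨α, β, G, j, k1, k2, k3, k4⟩ := g
    obtain ⟨lam, hl⟩ : ∃ lam : ZMod l, lam = 4 * r * i := ⟨_, rfl⟩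
    have e2 : lam * r = 1 := by linear_combination e1 + r * hl
    have e3 : 4 * (i : ZMod l) = lam ^ 2 := by linear_combination -(4 * i) * e1 - (lam + 4 * r * i) * hl
    have h6 := allTo_ok _ (allTo_ok _ h4 _ (ZMod.val_lt (lam * G))) _ (ZMod.val_lt (lam * j))
    have cG := ZMod.natCast_zmod_val (lam * G)
    have cj := ZMod.natCast_zmod_val (lam * j)
    generalize (lam * G).val = G' at h6 cG
    generalize (lam * j).val = j' at h6 cj
    simp only [chkE, Nat.beq_eq] at h6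
    obtain ⟨S, hS⟩ : ∃ S, S = add (mul j' (sq (add (mul 2 j') (mul 3 G')))) (add (mul 4 G') (mul 3 j')) :=
      ⟨_, rfl⟩
    obtain ⟨γ, hγ⟩ : ∃ γ, γ = add 1 (mul (Nat.sub l 1) (sq G')) := ⟨_, rfl⟩
    obtain ⟨m, hm⟩ : ∃ m, m = mul S (add S (mul G' (Nat.sub (mul 2 l) 2))) := ⟨_, rfl⟩
    rw [← hS, ← hγ, ← hm] at h6
    have cS : (S : ZMod l) = lam * (α + β) := by
      rw [hS]
      simp only [Nat.mul_eq, Nat.add_eq, sq_e]
      push_cast
      rw [cG, cj]
      linear_combination -lam ^ 3 * k2 + lam * (lam * r + 1) * (α + β - 4 * G - 3 * j) * e2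
    have cγ : (γ : ZMod l) = 1 - (lam * G) ^ 2 := by
      rw [hγ]
      simp only [Nat.mul_eq, Nat.add_eq, sq_e, sub_e]
      push_cast
      rw [cast_pred l0, cG]
      ring
    have cm : (m : ZMod l) = (lam * α) ^ 2 + (lam * β) ^ 2 := by
      have : Nat.sub (mul 2 l) 2 = 2 * (l - 1) := by simp only [Nat.mul_eq, sub_e]; omega
      rw [hm, this]
      simp only [Nat.mul_eq, Nat.add_eq]
      push_cast
      rw [cast_pred l0, cG, cS]
      linear_combination 2 * lam ^ 2 * k1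
    have f1 : (s : ZMod l) * s * i = γ + (lam * β) ^ 2 := by
      rw [cγ]
      linear_combination i * k3 + e1 + (β ^ 2 - G ^ 2) * e3
    have f2 : (t : ZMod l) * t * i = γ + (lam * α) ^ 2 := by
      rw [cγ]
      linear_combination i * k4 + e1 + (α ^ 2 - G ^ 2) * e3
    have u1 : mod (mul (s * s + t * t) i) l = mod (add (mul 2 γ) m) l := by
      apply mod_congr
      simp only [Nat.mul_eq, Nat.add_eq]
      push_cast
      linear_combination f1 + f2 - cm
    have u2 : mod (mul (mul (s * s * (t * t)) i) i) l = mod (add (mul γ (add γ m)) (sq (mul G' S))) l := by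
      apply mod_congr
      simp only [Nat.mul_eq, Nat.add_eq, sq_e]
      push_cast
      rw [cG, cS, cm]
      linear_combination (t * t * i) * f1 + (γ + (lam * β) ^ 2) * f2 +
        lam ^ 4 * (α * β + G * (α + β)) * k1
    rw [bit, u1, u2]
    exact h6

def Snd (l k : ℕ) (P : ZMod l → ZMod l → ZMod l → ZMod l → ZMod l → ZMod l → ℕ → Prop)
    (m : ℕ → ℕ → ℕ → ℕ → ℕ → ℕ → ℕ) : Prop :=
  ∀ u v w A B C : ℕ, m u v w A B C < 2 ^ k ∧ ∀ i, P u v w A B C i → (m u v w A B C).testBit i = true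

theorem snd2 {l I T : ℕ} (h : Ok l I T) : Snd l 2 P2 (m2 l I T) := by
  intro x y b A B C
  have b2 : ∀ S P i, bit l T S P i < 2 := fun _ _ _ => Nat.mod_lt _ two_pos
  have k1 := bit_ok (r := B) (s := C * B + x * A) (t := A * B + b * C) h
  have k2 := bit_ok (r := A) (s := C * A + y * B) (t := A * B + b * C) h
  push_cast at k1 k2
  simp only [m2, m2a, Nat.mul_eq, Nat.add_eq, sq_e]
  generalize hp : bit l T _ _ (inv l I B) = p at *
  generalize hq : bit l T _ _ (inv l I A) = q at *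
  have p2 : p < 2 := hp ▸ b2 _ _ _
  have q2 : q < 2 := hq ▸ b2 _ _ _
  refine ⟨by omega, ?_⟩
  rintro i (⟨rfl, g⟩ | ⟨rfl, g⟩)
  · rw [k1 g]; interval_cases q <;> rfl
  · rw [k2 g]; interval_cases p <;> rfl

theorem bits3 {k a b c i : ℕ} (ha : a < 2 ^ k) (hb : b < 2 ^ k) (h : a.testBit i = true ∨
    (∃ m, i = m + k ∧ b.testBit m = true) ∨ ∃ m, i = m + k + k ∧ c.testBit m = true) :
    (a + 2 ^ k * (b + 2 ^ k * c)).testBit i = true := by
  have lt : ∀ {x j : ℕ}, x < 2 ^ k → x.testBit j = true → j < k := fun hx hj => by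
    by_contra g
    rw [Nat.testBit_lt_two_pow (hx.trans_le (Nat.pow_le_pow_right two_pos (not_lt.1 g)))] at hj
    exact absurd hj (by simp)
  rw [add_comm, Nat.testBit_two_pow_mul_add _ ha, add_comm b, Nat.testBit_two_pow_mul_add _ hb]
  rcases h with h | ⟨m, rfl, h⟩ | ⟨m, rfl, h⟩
  · rw [if_pos (lt ha h), h]
  · rw [if_neg (by omega), Nat.add_sub_cancel, if_pos (lt hb h), h]
  · rw [if_neg (by omega), Nat.add_sub_cancel, if_neg (by omega), Nat.add_sub_cancel, h]

theorem Snd.ch {l k P m} (h : Snd l k P m) {u v w A B C n nu nv nw i : ℕ}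
    (g : Ch k P u v w A B C n nu nv nw i) :
    (m v w n nw nv A + 2 ^ k * (m u w n nw nu B + 2 ^ k * m u v n nv nu C)).testBit i = true := by
  apply bits3 (h ..).1 (h ..).1
  rcases g with g | ⟨j, e, g⟩ | ⟨j, e, g⟩
  · exact Or.inl ((h ..).2 _ g)
  · exact Or.inr (Or.inl ⟨j, e, (h ..).2 _ g⟩)
  · exact Or.inr (Or.inr ⟨j, e, (h ..).2 _ g⟩)

theorem hm_ok {l : ℕ} (h : l % 2 = 1) {m : ℕ} {x : ZMod l} (g : 2 * x = m) : x = hm l m := by
  have e : 2 * ((l + 1) / 2) = l + 1 := by omega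
  have e1 : (2 : ZMod l) * ((l + 1) / 2 : ℕ) = 1 := by
    have := congrArg (Nat.cast (R := ZMod l)) e
    push_cast at this
    rw [this, ZMod.natCast_self, zero_add]
  simp only [hm, mod_e, div_e, Nat.mul_eq, Nat.add_eq, ZMod.natCast_mod, Nat.cast_mul]
  linear_combination -x * e1 + ((l + 1) / 2 : ℕ) * g

theorem Snd.up {l k P m} (h : Snd l k P m) (l1 : l % 2 = 1) : Snd l (k + k + k) (Up k P)
    fun u v w A B C => ext (hm l) u v w A B C fun n nu nv nw =>
      m v w n nw nv A + 2 ^ k * (m u w n nw nu B + 2 ^ k * m u v n nv nu C) := by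
  intro u v w A B C
  simp only [ext, Nat.mul_eq, Nat.add_eq]
  constructor
  · have : ∀ a b c : ℕ, a < 2 ^ k → b < 2 ^ k → c < 2 ^ k →
        a + 2 ^ k * (b + 2 ^ k * c) < 2 ^ (k + k + k) := fun a b c ha hb hc => by
      rw [pow_add, pow_add]
      generalize 2 ^ k = K at *
      have u1 : b + K * c + 1 ≤ K * K := by nlinarith
      nlinarith [Nat.mul_le_mul_left K u1]
    exact this _ _ _ (h ..).1 (h ..).1 (h ..).1
  · rintro i ⟨n, nu, nv, nw, ⟨h1, h2, h3, h4⟩, g⟩
    apply h.ch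
    have e1 := hm_ok l1 (x := n - (u + v + w)) (m := u * v * w + A * B * C)
      (by push_cast; linear_combination h1)
    have e2 := hm_ok l1 (x := nu) (m := C * B + u * A) (by push_cast; exact h2)
    have e3 := hm_ok l1 (x := nv) (m := C * A + v * B) (by push_cast; exact h3)
    have e4 := hm_ok l1 (x := nw) (m := A * B + w * C) (by push_cast; exact h4)
    push_cast
    rw [← e1, ← e2, ← e3, ← e4, add_sub_cancel]
    exact g

theorem snd6 {l I T : ℕ} (h : Ok l I T) : Snd l 6 (Up 2 P2) (m6e l I T) := (snd2 h).up h.2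

theorem snd18 {l I T : ℕ} (h : Ok l I T) : Snd l 18 (Up 6 (Up 2 P2)) (m18e l I T) := (snd6 h).up h.2

theorem lane_bit {w m j i : ℕ} (hi : i < w) : (lane w m j).testBit i = m.testBit (w * j + i) := by
  simp only [lane, mod_e, shr_e, pow_e, Nat.mul_eq, Nat.testBit_mod_two_pow, Nat.testBit_shiftRight,
    hi, decide_true, Bool.true_and]

theorem stp_ok {m a p : ℕ} {k : ℕ → Bool} (h : stp m a k = true) (h1 : m.testBit p = true)
    (h2 : a.testBit p = true) : ∃ m', m'.testBit p = true ∧ k m' = true := by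
  rcases orr_iff.1 h with g | g
  · rw [Nat.eq_of_beq_eq_true g] at h1
    simp at h1
  · exact ⟨_, by rw [Nat.land_eq, Nat.testBit_and, h1, h2]; rfl, g⟩

/-- the table holds all masks of the regular triples modulo `l` -/
theorem chkT_ok {l w J Tb : ℕ} {mm : ℕ → ℕ → ℕ → ℕ} (h : chkT l w J Tb mm = true) (l0 : 0 < l)
    {Q : ZMod l → ZMod l → ZMod l → Prop} {i : ℕ} (hi : i < w)
    (hQ : ∀ x y r : ℕ, Q x y r → (mm x y r).testBit i = true) {x y r j : ℕ}
    (e : (r + x * j) ^ 2 = x * y + 4) (g : Q x y (r + x * j : ℕ)) :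
    Tb.testBit (w * (x % l * l + (r * inv l J x % l + j) % l) + i) = true := by
  simp only [chkT, an_iff] at h
  obtain ⟨h1, h2⟩ := h
  have ei : inv l J x = inv l J (x % l) := by simp only [inv, mod_e, Nat.mod_mod]
  have h3 := allTo_ok _ h2 _ (Nat.mod_lt x l0)
  simp only [orr_iff, an_iff, Nat.beq_eq] at h3
  rw [← ei] at h3
  rw [← lane_bit hi]
  generalize hp : (r * inv l J x % l + j) % l = p
  have p1 : p < l := hp ▸ Nat.mod_lt _ l0
  rcases h3 with h3 | ⟨h3, h4⟩
  · have h5 := allTo_ok _ h1 _ p1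
    simp only [Nat.beq_eq, Nat.add_eq, pow_e] at h5
    rw [h3, zero_mul, zero_add, (by omega : lane w Tb p = 2 ^ w - 1), Nat.testBit_two_pow_sub_one]
    simpa using hi
  · have h5 := allTo_ok _ h4 _ p1
    simp only [chkL, Nat.beq_eq, Nat.add_eq, Nat.mul_eq, mod_e, sq_e, sub_e] at h5
    rw [h5]
    apply hQ
    have e1 := inv_one h3 rfl
    have e2 := congrArg (Nat.cast (R := ZMod l)) hp
    have e3 := congrArg (Nat.cast (R := ZMod l)) e
    simp only [Nat.mul_eq] at e1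
    push_cast [ZMod.natCast_mod] at e1 e2 e3 g ⊢
    rw [cast_pred l0]
    generalize ((inv l J x : ℕ) : ZMod l) = c at *
    have e4 : (p : ZMod l) * x = r + x * j := by linear_combination -x * e2 + r * e1
    rw [e4]
    convert g using 1
    linear_combination c * e3 + y * e1

end Pool.Agent.Lib.MP_b2ee0b_nt.Fn
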