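import Pool.Agent.Lib.MP_b2ee0b_nt.FinA
import Pool.Agent.Lib.MP_b2ee0b_nt.FinT

/-! Finite search: the traversals and their meaning. -/

namespace Pool.Agent.Lib.MP_b2ee0b_nt.Fn

open Nat (add mul mod div shiftRight beq ble)

noncomputable def dir (g : ℕ → ℕ → ℕ → ℕ) (m : ℕ) : Bool :=
  stp m (g 79 iv79 tb79) fun m => stp m (g 97 iv97 tb97) fun m => stp m (g 73 iv73 tb73) fun m =>
  stp m (g 67 iv67 tb67) fun m => stp m (g 61 iv61 tb61) fun m => stp m (g 103 iv103 tb103) fun m =>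
  stp m (g 109 iv109 tb109) fun m => stp m (g 43 iv43 tb43) fun m => stp m (g 37 iv37 tb37) fun m =>
  stp m (g 31 iv31 tb31) fun m => stp m (g 19 iv19 tb19) fun m => stp m (g 13 iv13 tb13) fun m =>
  stp m (g 127 iv127 tb127) fun m => stp m (g 139 iv139 tb139) fun m => beq m 0

noncomputable def d6 (u v w A B C n nu nv nw : ℕ) : Bool :=
  dir (fun l I T => m6 l I T u v w A B C n nu nv nw) 63

noncomputable def d6e (u v w A B C : ℕ) : Bool := ext hx u v w A B C (d6 u v w A B C)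

noncomputable def d18 (u v w A B C n nu nv nw : ℕ) : Bool :=
  an (d6e v w n nw nv A) (an (d6e u w n nw nu B) (d6e u v n nv nu C))

noncomputable def d18e (u v w A B C : ℕ) : Bool := ext hx u v w A B C (d18 u v w A B C)

noncomputable def reg (k : ℕ → ℕ → ℕ → ℕ → ℕ → ℕ → Bool) (x y r : ℕ) : Bool :=
  k x y (add (add x y) (mul 2 r)) (add r y) (add r x) r

noncomputable def regr (k : ℕ → ℕ → ℕ → ℕ → ℕ → ℕ → Bool) (x r : ℕ) : Bool :=
  reg k x (div (Nat.sub (sq r) 4) x) r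

noncomputable def tile (W L n : ℕ) : ℕ :=
  Nat.rec (motive := fun _ => ℕ) W (fun i t => Nat.lor t (Nat.shiftLeft t (mul L (Nat.pow 2 i)))) n

noncomputable def pat (w x r k l J Tb : ℕ) : ℕ :=
  shiftRight (tile (lane (mul w l) Tb (mod x l)) (mul w l) (add (Nat.sub k 3) 1))
    (mul w (mod (mul r (inv l J x)) l))

noncomputable def srvA (w : ℕ) (c : ℕ → ℕ → Bool) (m j h : ℕ) : Bool :=
  an (c (mod m (Nat.pow 2 (mul w h))) j) (c (shiftRight m (mul w h)) (add j h))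

noncomputable def srv (w : ℕ) (d : ℕ → Bool) (k : ℕ) : ℕ → ℕ → Bool :=
  Nat.rec (motive := fun _ => ℕ → ℕ → Bool) (fun m j => orr (beq m 0) (d j))
    (fun i ih m j => orr (beq m 0) (srvA w ih m j (Nat.pow 2 i))) k

noncomputable def cub (x : ℕ) : ℕ := mul x (mul x x)

noncomputable def prn (M x r : ℕ) : Bool := ble M (mul x (cub (Nat.sub (sq r) 4)))

noncomputable def ps0 (g : ℕ → ℕ → ℕ → ℕ) (m : ℕ) (k : ℕ → Bool) : Bool :=
  stp m (g 67 jv67 ta67) fun m => stp m (g 61 jv61 ta61) fun m => stp m (g 43 jv43 ta43) fun m =>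
  stp m (g 37 jv37 ta37) fun m => stp m (g 31 jv31 ta31) fun m => stp m (g 19 jv19 ta19) fun m =>
  stp m (g 13 jv13 ta13) k

noncomputable def ps1 (g : ℕ → ℕ → ℕ → ℕ) (m : ℕ) (k : ℕ → Bool) : Bool :=
  stp m (g 43 jv43 tc43) fun m =>
  stp m (g 37 jv37 tc37) fun m => stp m (g 31 jv31 tc31) fun m => stp m (g 19 jv19 tc19) fun m =>
  stp m (g 13 jv13 tc13) k

noncomputable def chnA (w : ℕ) (ps : (ℕ → ℕ → ℕ → ℕ) → ℕ → (ℕ → Bool) → Bool)
    (d : ℕ → ℕ → Bool) (x r k : ℕ) : Bool :=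
  ps (pat w x r k) (Nat.sub (Nat.pow 2 (mul w (Nat.pow 2 k))) 1)
    (fun m => srv w (fun j => d x (add r (mul x j))) k m 0)

noncomputable def fnd (M x r : ℕ) (c : ℕ → Bool) (f : ℕ) : ℕ → Bool :=
  Nat.rec (motive := fun _ => ℕ → Bool) (fun _ => false)
    (fun _ ih k => Bool.rec (ih (add k 1)) (c k) (prn M x (add r (mul x (Nat.pow 2 k))))) f

noncomputable def chn (M w : ℕ) (ps : (ℕ → ℕ → ℕ → ℕ) → ℕ → (ℕ → Bool) → Bool)
    (d : ℕ → ℕ → Bool) (x r : ℕ) : Bool :=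
  fnd M x r (chnA w ps d x r) 30 0

noncomputable def brA (M : ℕ) (c : ℕ → ℕ → Bool) (k : ℕ → ℕ → ℕ → Bool) (x y r z q : ℕ) : Bool :=
  orr (prn M y q) (an (c y q) (an (k y z q) (k x z (add r x))))

noncomputable def br (M : ℕ) (c : ℕ → ℕ → Bool) (f : ℕ) : ℕ → ℕ → ℕ → Bool :=
  Nat.rec (motive := fun _ => ℕ → ℕ → ℕ → Bool) (fun _ _ _ => false)
    (fun _ ih x y r => brA M c ih x y r (add (add x y) (mul 2 r)) (add r y)) f

noncomputable def top (M : ℕ) (c : ℕ → ℕ → Bool) (N : ℕ) : Bool :=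
  an (an (c 3 4) (br M c 10000 3 4 4))
    (allTo (fun x => an (c (add x 1) (add x 3)) (br M c 10000 (add x 1) (add x 5) (add x 3))) N)

noncomputable def deepA (M : ℕ) (k : ℕ → ℕ → ℕ → ℕ → ℕ → ℕ → Bool) (u v w A B C n nu nv nw : ℕ) : Bool :=
  an (d18 u v w A B C n nu nv nw) (an (k v w n nw nv A) (an (k u w n nw nu B) (k u v n nv nu C)))

noncomputable def deep (M f : ℕ) : ℕ → ℕ → ℕ → ℕ → ℕ → ℕ → Bool :=
  Nat.rec (motive := fun _ => ℕ → ℕ → ℕ → ℕ → ℕ → ℕ → Bool) (fun _ _ _ _ _ _ => false)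
    (fun _ ih u v w A B C => orr (ble M (mul (sq (mul (sq u) v)) w))
      (ext hx u v w A B C (deepA M ih u v w A B C))) f

noncomputable def dp3 (M u v w A B C n nu nv nw : ℕ) : Bool :=
  an (deep M 100 v w n nw nv A) (an (deep M 100 u w n nw nu B) (deep M 100 u v n nv nu C))

noncomputable def dp3e (M u v w A B C : ℕ) : Bool := ext hx u v w A B C (dp3 M u v w A B C)

noncomputable def lin (M x f : ℕ) : ℕ → Bool :=
  Nat.rec (motive := fun _ => ℕ → Bool) (fun _ => false)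
    (fun _ ih r => orr (ble M (mul x (sq (sq (Nat.sub (sq r) 4))))) (an (regr (dp3e M) x r) (ih (add r x)))) f

def AllD : Prop := Ok 79 iv79 tb79 ∧ Ok 97 iv97 tb97 ∧ Ok 73 iv73 tb73 ∧ Ok 67 iv67 tb67 ∧
  Ok 61 iv61 tb61 ∧ Ok 103 iv103 tb103 ∧ Ok 109 iv109 tb109 ∧ Ok 43 iv43 tb43 ∧ Ok 37 iv37 tb37 ∧
  Ok 31 iv31 tb31 ∧ Ok 19 iv19 tb19 ∧ Ok 13 iv13 tb13 ∧ Ok 127 iv127 tb127 ∧ Ok 139 iv139 tb139

theorem dir_ok (D : AllD) {g : ℕ → ℕ → ℕ → ℕ} {i m : ℕ}
    (H : ∀ l I T, Ok l I T → (g l I T).testBit i = true) (hm : m.testBit i = true)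
    (h : dir g m = true) : False := by
  obtain ⟨d1, d2, d3, d4, d5, d6, d7, d8, d9, d10, d11, d12, d13, d14⟩ := D
  obtain ⟨m, hm, h⟩ := stp_ok h hm (H _ _ _ d1)
  obtain ⟨m, hm, h⟩ := stp_ok h hm (H _ _ _ d2)
  obtain ⟨m, hm, h⟩ := stp_ok h hm (H _ _ _ d3)
  obtain ⟨m, hm, h⟩ := stp_ok h hm (H _ _ _ d4)
  obtain ⟨m, hm, h⟩ := stp_ok h hm (H _ _ _ d5)
  obtain ⟨m, hm, h⟩ := stp_ok h hm (H _ _ _ d6)
  obtain ⟨m, hm, h⟩ := stp_ok h hm (H _ _ _ d7)
  obtain ⟨m, hm, h⟩ := stp_ok h hm (H _ _ _ d8)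
  obtain ⟨m, hm, h⟩ := stp_ok h hm (H _ _ _ d9)
  obtain ⟨m, hm, h⟩ := stp_ok h hm (H _ _ _ d10)
  obtain ⟨m, hm, h⟩ := stp_ok h hm (H _ _ _ d11)
  obtain ⟨m, hm, h⟩ := stp_ok h hm (H _ _ _ d12)
  obtain ⟨m, hm, h⟩ := stp_ok h hm (H _ _ _ d13)
  obtain ⟨m, hm, h⟩ := stp_ok h hm (H _ _ _ d14)
  rw [Nat.eq_of_beq_eq_true h] at hm
  simp at hm

def Lt (k : ℕ) (P : ℕ → ℕ → ℕ → ℕ → ℕ → ℕ → ℕ → Prop) : Prop :=
  ∀ u v w A B C i, P u v w A B C i → i < k

theorem lt2 : Lt 2 P2 := by rintro u v w A B C i (⟨h, -⟩ | ⟨h, -⟩) <;> omega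

theorem Lt.up {k P} (h : Lt k P) : Lt (k + k + k) (Up k P) := by
  rintro u v w A B C i ⟨n, nu, nv, nw, -, g | ⟨m, e, g⟩ | ⟨m, e, g⟩⟩ <;>
    have := h _ _ _ _ _ _ _ g <;> omega

theorem ext_hx {X : Type} {u v w A B C n nu nv nw : ℕ} (h : Ext u v w A B C n nu nv nw)
    (k : ℕ → ℕ → ℕ → ℕ → X) : ext hx u v w A B C k = k n nu nv nw := by
  obtain ⟨h1, h2, h3, h4⟩ := h
  simp only [ext, hx, Nat.mul_eq, Nat.add_eq, div_e]
  congr 1 <;> omega

/-- no extension of the triple carries a point of order three -/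
def N6 (u v w A B C : ℕ) : Prop := ∀ i, ¬ Up 2 P2 u v w A B C i

theorem d6e_ok (D : AllD) {u v w A B C : ℕ} (h : d6e u v w A B C = true) : N6 u v w A B C := by
  intro i g
  have i6 := lt2.up _ _ _ _ _ _ _ g
  obtain ⟨n, nu, nv, nw, e, g⟩ := g
  rw [d6e, ext_hx e] at h
  refine dir_ok D (i := i) (fun l I T o => (snd2 o).ch ((red2 l).ch g)) ?_ h
  exact (Nat.testBit_two_pow_sub_one 6 i).trans (by simpa using i6)

theorem d18_ok (D : AllD) {u v w A B C n nu nv nw : ℕ} (h : d18 u v w A B C n nu nv nw = true) :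
    N6 v w n nw nv A ∧ N6 u w n nw nu B ∧ N6 u v n nv nu C := by
  simp only [d18, an_iff] at h
  exact ⟨d6e_ok D h.1, d6e_ok D h.2.1, d6e_ok D h.2.2⟩

theorem regr_eq {k : ℕ → ℕ → ℕ → ℕ → ℕ → ℕ → Bool} {x y r : ℕ} (x0 : 0 < x) (h : r ^ 2 = x * y + 4) :
    regr k x r = k x y (x + y + 2 * r) (r + y) (r + x) r := by
  have : div (Nat.sub (sq r) 4) x = y := by
    rw [sq_e, ← pow_two, h, sub_e, Nat.add_sub_cancel, div_e, Nat.mul_div_cancel_left _ x0]
  rw [regr, this]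
  rfl

theorem tile_bit {W L : ℕ} : ∀ n p, p < L * 2 ^ n → W.testBit (p % L) = true →
    (tile W L n).testBit p = true
  | 0, p, h, g => by
    rw [Nat.mod_eq_of_lt (by omega)] at g
    exact g
  | n + 1, p, h, g => by
    show (tile W L n ||| tile W L n <<< (L * 2 ^ n)).testBit p = true
    rw [Nat.testBit_or, Nat.testBit_shiftLeft, Bool.or_eq_true]
    by_cases c : p < L * 2 ^ n
    · exact Or.inl (tile_bit n p c g)
    · obtain ⟨q, rfl⟩ : ∃ q, p = q + L * 2 ^ n := ⟨p - L * 2 ^ n, by omega⟩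
      rw [Nat.add_mul_mod_self_left] at g
      rw [pow_succ, ← mul_assoc] at h
      rw [Nat.add_sub_cancel, tile_bit n q (by omega) g]
      simp

theorem pat_bit {w x r k l J Tb j i : ℕ} (l8 : 8 ≤ l) (hj : j < 2 ^ k) (hi : i < w)
    (h : Tb.testBit (w * (x % l * l + (r * inv l J x % l + j) % l) + i) = true) :
    (pat w x r k l J Tb).testBit (w * j + i) = true := by
  simp only [pat, shr_e, mod_e, Nat.mul_eq, Nat.add_eq, sub_e, Nat.testBit_shiftRight]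
  have p1 : r * inv l J x % l < l := Nat.mod_lt _ (by omega)
  generalize r * inv l J x % l = p at *
  have q1 : (p + j) % l < l := Nat.mod_lt _ (by omega)
  have u1 : w * ((p + j) % l) + i < w * l := by nlinarith
  apply tile_bit
  · have u2 : 2 ^ k ≤ 8 * 2 ^ (k - 3) := by
      rw [show 8 = 2 ^ 3 from rfl, ← pow_add]
      exact Nat.pow_le_pow_right two_pos (by omega)
    have u3 : 1 ≤ 2 ^ (k - 3) := Nat.one_le_two_pow
    rw [pow_succ]
    generalize 2 ^ (k - 3) = K at *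
    have u4 : p + j + 1 ≤ l * (K * 2) := by nlinarith
    nlinarith [Nat.mul_le_mul_left w u4]
  · have u2 : w * p + (w * j + i) = w * ((p + j) % l) + i + w * l * ((p + j) / l) := by
      have := Nat.mod_add_div (p + j) l
      calc _ = w * (p + j) + i := by ring
        _ = w * ((p + j) % l + l * ((p + j) / l)) + i := by rw [this]
        _ = _ := by ring
    rw [u2, Nat.add_mul_mod_self_left, Nat.mod_eq_of_lt u1, lane_bit u1, ← h]
    congr 1
    ring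

theorem srv_ok {w i : ℕ} {d : ℕ → Bool} (hi : i < w) : ∀ k m j0 j, srv w d k m j0 = true →
    j < 2 ^ k → m.testBit (w * j + i) = true → d (j0 + j) = true
  | 0, m, j0, j, h, hj, g => by
    obtain rfl : j = 0 := by omega
    rcases orr_iff.1 (show orr (beq m 0) (d j0) = true from h) with h | h
    · rw [Nat.eq_of_beq_eq_true h] at g
      simp at g
    · exact h
  | k + 1, m, j0, j, h, hj, g => by
    rcases orr_iff.1 (show orr (beq m 0) (srvA w (srv w d k) m j0 (2 ^ k)) = true from h) with h | h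
    · rw [Nat.eq_of_beq_eq_true h] at g
      simp at g
    obtain ⟨h1, h2⟩ := an_iff.1 h
    by_cases c : j < 2 ^ k
    · refine srv_ok hi k _ _ j h1 c ?_
      have : w * j + i < w * 2 ^ k := by nlinarith
      simp only [mod_e, pow_e, Nat.mul_eq, Nat.testBit_mod_two_pow, g, this, decide_true, Bool.true_and]
    · obtain ⟨q, rfl⟩ : ∃ q, j = 2 ^ k + q := ⟨j - 2 ^ k, by omega⟩
      rw [← add_assoc]
      refine srv_ok hi k _ _ q h2 (by omega) ?_
      rw [shr_e, Nat.testBit_shiftRight, ← g]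
      congr 1
      simp only [Nat.mul_eq]
      ring

theorem fnd_ok {M x r : ℕ} {c : ℕ → Bool} : ∀ f k, fnd M x r c f k = true →
    ∃ k, prn M x (r + x * 2 ^ k) = true ∧ c k = true
  | 0, _, h => by cases h
  | f + 1, k, h => by
    have h' : Bool.rec (motive := fun _ => Bool) (fnd M x r c f (k + 1)) (c k)
      (prn M x (r + x * 2 ^ k)) = true := h
    cases e : prn M x (r + x * 2 ^ k) <;> rw [e] at h'
    · exact fnd_ok f _ h'
    · exact ⟨k, e, h'⟩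

theorem prn_le {M x y q r : ℕ} (h : prn M x q = true) (g : q ≤ r) (e : r ^ 2 = x * y + 4) :
    M ≤ x ^ 4 * y ^ 3 := by
  simp only [prn, cub, Nat.ble_eq, Nat.mul_eq, sq_e, sub_e] at h
  have u1 : q * q - 4 ≤ x * y := by
    have := Nat.mul_le_mul g g
    rw [← pow_two r] at this
    omega
  calc M ≤ _ := h
    _ ≤ x * (x * y * (x * y * (x * y))) := by gcongr
    _ = _ := by ring

def TOk (w : ℕ) (mm : ℕ → ℕ → ℕ → ℕ → ℕ → ℕ → ℕ) (l J Tb : ℕ) : Prop :=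
  ∃ I T, Ok l I T ∧ 8 ≤ l ∧ chkT l w J Tb (mm l I T) = true

def PsOk (G : ℕ → ℕ → ℕ → Prop) (ps : (ℕ → ℕ → ℕ → ℕ) → ℕ → (ℕ → Bool) → Bool) : Prop :=
  ∀ g m k p, (∀ l J Tb, G l J Tb → (g l J Tb).testBit p = true) → m.testBit p = true →
    ps g m k = true → ∃ m', m'.testBit p = true ∧ k m' = true

theorem ps0_ok {G : ℕ → ℕ → ℕ → Prop} (d1 : G 67 jv67 ta67) (d2 : G 61 jv61 ta61)
    (d3 : G 43 jv43 ta43) (d4 : G 37 jv37 ta37) (d5 : G 31 jv31 ta31) (d6 : G 19 jv19 ta19)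
    (d7 : G 13 jv13 ta13) : PsOk G ps0 := by
  intro g m k p H hm h
  obtain ⟨m, hm, h⟩ := stp_ok h hm (H _ _ _ d1)
  obtain ⟨m, hm, h⟩ := stp_ok h hm (H _ _ _ d2)
  obtain ⟨m, hm, h⟩ := stp_ok h hm (H _ _ _ d3)
  obtain ⟨m, hm, h⟩ := stp_ok h hm (H _ _ _ d4)
  obtain ⟨m, hm, h⟩ := stp_ok h hm (H _ _ _ d5)
  obtain ⟨m, hm, h⟩ := stp_ok h hm (H _ _ _ d6)
  exact stp_ok h hm (H _ _ _ d7)

theorem ps1_ok {G : ℕ → ℕ → ℕ → Prop} (d3 : G 43 jv43 tc43) (d4 : G 37 jv37 tc37)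
    (d5 : G 31 jv31 tc31) (d6 : G 19 jv19 tc19) (d7 : G 13 jv13 tc13) : PsOk G ps1 := by
  intro g m k p H hm h
  obtain ⟨m, hm, h⟩ := stp_ok h hm (H _ _ _ d3)
  obtain ⟨m, hm, h⟩ := stp_ok h hm (H _ _ _ d4)
  obtain ⟨m, hm, h⟩ := stp_ok h hm (H _ _ _ d5)
  obtain ⟨m, hm, h⟩ := stp_ok h hm (H _ _ _ d6)
  exact stp_ok h hm (H _ _ _ d7)

theorem chn_ok {M w x y r j i : ℕ} {ps d P} {mf : ℕ → ℕ → ℕ → ℕ → ℕ → ℕ → ℕ → ℕ → ℕ → ℕ}
    {Q : ∀ l, ZMod l → ZMod l → ZMod l → ZMod l → ZMod l → ZMod l → ℕ → Prop}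
    (hp : PsOk (TOk w fun l I T x y r => mf l I T x y (x + y + 2 * r) (r + y) (r + x) r) ps)
    (hl : Lt w P) (hr : ∀ l, Red l P (Q l)) (hs : ∀ l I T, Ok l I T → Snd l w (Q l) (mf l I T))
    (h : chn M w ps d x r = true) (e : (r + x * j) ^ 2 = x * y + 4) (hM : x ^ 4 * y ^ 3 < M)
    (g : P x y (x + y + 2 * (r + x * j)) (r + x * j + y) (r + x * j + x) (r + x * j) i) :
    d x (r + x * j) = true := by
  obtain ⟨k, h1, h2⟩ := fnd_ok _ _ h
  have hi := hl _ _ _ _ _ _ _ g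
  have hj : j < 2 ^ k := by
    by_contra c
    exact absurd (prn_le h1 (by gcongr; omega) e) (not_le.2 hM)
  obtain ⟨m, h3, h4⟩ := hp _ _ _ (w * j + i) (by
    rintro l J Tb ⟨I, T, o, l8, c⟩
    refine pat_bit l8 hj hi (chkT_ok (Q := fun x y r => Q l x y (x + y + 2 * r) (r + y) (r + x) r i)
      c (by omega) hi (fun x y r q => (hs l I T o ..).2 i (by exact_mod_cast q)) e ?_)
    exact_mod_cast hr l _ _ _ _ _ _ _ g) (by
    have : w * j + i < w * 2 ^ k := by nlinarith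
    simp only [sub_e, pow_e, Nat.mul_eq, Nat.testBit_two_pow_sub_one, this, decide_true]) h2
  simpa using srv_ok hi k m 0 j h4 hj h3

theorem desc {x y r : ℕ} (x0 : 0 < x) (xy : x < y) (e : r ^ 2 = x * y + 4) :
    (x = 3 ∧ y = 4 ∧ r = 4) ∨ (y = x + 4 ∧ r = x + 2) ∨ ∃ y' r', 0 < y' ∧ y' ≠ x ∧
      r' ^ 2 = x * y' + 4 ∧ y = x + y' + 2 * r' ∧ r = r' + x := by
  have u1 : x < r := by
    by_contra c
    nlinarith
  obtain ⟨r', rfl⟩ : ∃ r', r = r' + x := ⟨r - x, by omega⟩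
  by_cases c : x + 2 * r' ≤ y
  · obtain ⟨y', rfl⟩ : ∃ y', y = x + y' + 2 * r' := ⟨y - (x + 2 * r'), by omega⟩
    have u2 : r' ^ 2 = x * y' + 4 := by linarith
    rcases Nat.eq_zero_or_pos y' with rfl | y0
    · have : r' = 2 := by nlinarith
      omega
    · refine Or.inr (Or.inr ⟨y', r', y0, ?_, u2, rfl, rfl⟩)
      rintro rfl
      have v1 : y' < r' := by nlinarith
      have v2 : y' = 1 := by nlinarith
      subst v2
      have v3 : r' < 3 := by nlinarith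
      interval_cases r'
      omega
  · obtain ⟨k, hk⟩ : ∃ k, y + k + 1 = x + 2 * r' := ⟨x + 2 * r' - y - 1, by omega⟩
    have u2 : r' ^ 2 + x * (k + 1) = 4 := by nlinarith
    have u3 : r' = 1 := by nlinarith
    subst u3
    have u4 : x ≤ 3 := by nlinarith
    interval_cases x <;> omega

theorem br_un {M f x y r : ℕ} {c : ℕ → ℕ → Bool} (h : br M c f x y r = true) (e : r ^ 2 = x * y + 4)
    (hM : y ^ 4 * (x + y + 2 * r) ^ 3 < M) : c y (r + y) = true ∧ ∃ f,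
      br M c f y (x + y + 2 * r) (r + y) = true ∧ br M c f x (x + y + 2 * r) (r + x) = true := by
  cases f with
  | zero => cases h
  | succ f =>
    rcases orr_iff.1 (show brA M c (br M c f) x y r (x + y + 2 * r) (r + y) = true from h) with g | g
    · exact absurd (prn_le g le_rfl (by linear_combination e)) (not_le.2 hM)
    · simp only [an_iff] at g
      exact ⟨g.1, f, g.2⟩

theorem top_root {M N x y : ℕ} {c : ℕ → ℕ → Bool} (h : top M c N = true) (hN : M ≤ (N + 1) ^ 7)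
    (x0 : 0 < x) (xy : x ≤ y) (hM : x ^ 4 * y ^ 3 < M) :
    c x (x + 2) = true ∧ br M c 10000 x (x + 4) (x + 2) = true := by
  have u1 : x < N + 1 := by
    apply lt_of_pow_lt_pow_left₀ 7 (Nat.zero_le _)
    calc x ^ 7 = x ^ 4 * x ^ 3 := by ring
      _ ≤ x ^ 4 * y ^ 3 := by gcongr
      _ < _ := by omega
  obtain ⟨x, rfl⟩ : ∃ k, x = k + 1 := ⟨x - 1, by omega⟩
  exact an_iff.1 (allTo_ok _ (an_iff.1 h).2 x (by omega))

theorem br_ex {M N : ℕ} {c : ℕ → ℕ → Bool} (h : top M c N = true) (hN : M ≤ (N + 1) ^ 7) (y : ℕ) :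
    ∀ x r, 0 < x → x < y → r ^ 2 = x * y + 4 → y ^ 4 * (x + y + 2 * r) ^ 3 < M →
      ∃ f, br M c f x y r = true := by
  induction y using Nat.strong_induction_on with
  | _ y ih =>
    intro x r x0 xy e hM
    have u1 : ∀ z, z ≤ y → z ^ 4 * y ^ 3 < M := fun z hz =>
      lt_of_le_of_lt (by gcongr; omega) hM
    rcases desc x0 xy e with ⟨rfl, rfl, rfl⟩ | ⟨rfl, rfl⟩ | ⟨y', r', y0, ne, e', hy, rfl⟩
    · exact ⟨_, (an_iff.1 (an_iff.1 h).1).2⟩
    · exact ⟨_, (top_root h hN x0 xy.le (u1 _ xy.le)).2⟩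
    rcases lt_or_gt_of_ne ne with c1 | c1
    · have hy' : y = y' + x + 2 * r' := by omega
      have e2 : r' ^ 2 = y' * x + 4 := by rw [e', mul_comm]
      obtain ⟨f, g⟩ := ih x xy y' r' y0 c1 e2 (hy' ▸ u1 x xy.le)
      obtain ⟨-, f, g, -⟩ := br_un g e2 (hy' ▸ u1 x xy.le)
      exact ⟨f, hy' ▸ g⟩
    · obtain ⟨f, g⟩ := ih y' (by omega) x r' x0 c1 e' (hy ▸ u1 y' (by omega))
      obtain ⟨-, f, -, g⟩ := br_un g e' (hy ▸ u1 y' (by omega))
      exact ⟨f, hy ▸ g⟩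

theorem top_ok {M N x : ℕ} {c : ℕ → ℕ → Bool} (h : top M c N = true) (hN : M ≤ (N + 1) ^ 7)
    (x0 : 0 < x) (y : ℕ) : ∀ r, x < y → r ^ 2 = x * y + 4 → x ^ 4 * y ^ 3 < M →
      ∃ r0 j, r = r0 + x * j ∧ c x r0 = true := by
  induction y using Nat.strong_induction_on with
  | _ y ih =>
    intro r xy e hM
    rcases desc x0 xy e with ⟨rfl, rfl, rfl⟩ | ⟨rfl, rfl⟩ | ⟨y', r', y0, ne, e', hy, rfl⟩
    · exact ⟨4, 0, rfl, (an_iff.1 (an_iff.1 h).1).1⟩
    · exact ⟨_, 0, rfl, (top_root h hN x0 xy.le hM).1⟩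
    rcases lt_or_gt_of_ne ne with c1 | c1
    · have hy' : y = y' + x + 2 * r' := by omega
      have e2 : r' ^ 2 = y' * x + 4 := by rw [e', mul_comm]
      obtain ⟨f, g⟩ := br_ex h hN x y' r' y0 c1 e2 (hy' ▸ hM)
      exact ⟨_, 0, rfl, (br_un g e2 (hy' ▸ hM)).1⟩
    · obtain ⟨r0, j, e1, g⟩ := ih y' (by omega) r' c1 e' (lt_of_le_of_lt (by gcongr; omega) hM)
      exact ⟨r0, j + 1, by rw [e1]; ring, g⟩

theorem deep_un {M f u v w A B C n nu nv nw : ℕ} (h : deep M f u v w A B C = true)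
    (hM : u ^ 4 * v ^ 2 * w < M) (e : Ext u v w A B C n nu nv nw) :
    d18 u v w A B C n nu nv nw = true ∧ ∃ f, deep M f v w n nw nv A = true ∧
      deep M f u w n nw nu B = true ∧ deep M f u v n nv nu C = true := by
  cases f with
  | zero => cases h
  | succ f =>
    rcases orr_iff.1 (show orr (ble M (u * u * v * (u * u * v) * w))
      (ext hx u v w A B C (deepA M (deep M f) u v w A B C)) = true from h) with g | g
    · rw [Nat.ble_eq] at g
      exact absurd (g.trans_eq (by ring)) (not_le.2 hM)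
    · rw [ext_hx e] at g
      simp only [deepA, an_iff] at g
      exact ⟨g.1, f, g.2⟩

theorem lin_ok {M x y : ℕ} (hM : x ^ 5 * y ^ 4 < M) : ∀ f r j, lin M x f r = true →
    (r + x * j) ^ 2 = x * y + 4 → regr (dp3e M) x (r + x * j) = true
  | 0, _, _, h, _ => by cases h
  | f + 1, r, j, h, e => by
    rcases orr_iff.1 (show orr (ble M (x * sq (sq (r * r - 4))))
      (an (regr (dp3e M) x r) (lin M x f (r + x))) = true from h) with g | g
    · have u1 : r * r - 4 ≤ x * y := by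
        have := Nat.mul_le_mul (Nat.le_add_right r (x * j)) (Nat.le_add_right r (x * j))
        rw [← pow_two (r + x * j)] at this
        omega
      rw [Nat.ble_eq, sq_e, sq_e] at g
      refine absurd (g.trans ?_) (not_le.2 hM)
      calc _ ≤ x * (x * y * (x * y) * (x * y * (x * y))) := by gcongr
        _ = _ := by ring
    · obtain ⟨g1, g2⟩ := an_iff.1 g
      cases j with
      | zero => exact g1
      | succ j =>
        have u : r + x * (j + 1) = r + x + x * j := by ring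
        rw [u] at e ⊢
        exact lin_ok hM f _ j g2 e

end Pool.Agent.Lib.MP_b2ee0b_nt.Fn
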