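import Pool.Agent.Lib.MP_b2ee0b_nt.FinA
import Pool.Agent.Lib.MP_b2ee0b_nt.FinT

/-! Check of the residue tables. -/

namespace Pool.Agent.Lib.MP_b2ee0b_nt.Fn

theorem d79 : Ok 79 iv79 tb79 := ⟨by decide +kernel, rfl⟩

theorem d97 : Ok 97 iv97 tb97 := ⟨by decide +kernel, rfl⟩

theorem d73 : Ok 73 iv73 tb73 := ⟨by decide +kernel, rfl⟩

theorem d67 : Ok 67 iv67 tb67 := ⟨by decide +kernel, rfl⟩

theorem d61 : Ok 61 iv61 tb61 := ⟨by decide +kernel, rfl⟩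

theorem d103 : Ok 103 iv103 tb103 := ⟨by decide +kernel, rfl⟩

theorem d109 : Ok 109 iv109 tb109 := ⟨by decide +kernel, rfl⟩

theorem d43 : Ok 43 iv43 tb43 := ⟨by decide +kernel, rfl⟩

theorem d37 : Ok 37 iv37 tb37 := ⟨by decide +kernel, rfl⟩

theorem d31 : Ok 31 iv31 tb31 := ⟨by decide +kernel, rfl⟩

theorem d19 : Ok 19 iv19 tb19 := ⟨by decide +kernel, rfl⟩

theorem d13 : Ok 13 iv13 tb13 := ⟨by decide +kernel, rfl⟩

theorem d127 : Ok 127 iv127 tb127 := ⟨by decide +kernel, rfl⟩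

theorem d139 : Ok 139 iv139 tb139 := ⟨by decide +kernel, rfl⟩

end Pool.Agent.Lib.MP_b2ee0b_nt.Fn
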