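import Pool.Agent.Lib.MP_b2ee0b_nt.FinA
import Pool.Agent.Lib.MP_b2ee0b_nt.FinT

/-! Check of the chain tables of width six. -/

namespace Pool.Agent.Lib.MP_b2ee0b_nt.Fn

theorem a67 : chkT 67 6 jv67 ta67 (mm0 67 iv67 tb67) = true := by decide +kernel

theorem a61 : chkT 61 6 jv61 ta61 (mm0 61 iv61 tb61) = true := by decide +kernel

theorem a43 : chkT 43 6 jv43 ta43 (mm0 43 iv43 tb43) = true := by decide +kernel

theorem a37 : chkT 37 6 jv37 ta37 (mm0 37 iv37 tb37) = true := by decide +kernel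

theorem a31 : chkT 31 6 jv31 ta31 (mm0 31 iv31 tb31) = true := by decide +kernel

theorem a19 : chkT 19 6 jv19 ta19 (mm0 19 iv19 tb19) = true := by decide +kernel

theorem a13 : chkT 13 6 jv13 ta13 (mm0 13 iv13 tb13) = true := by decide +kernel

end Pool.Agent.Lib.MP_b2ee0b_nt.Fn
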