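import Pool.Agent.Lib.MP_b2ee0b_nt.FinA
import Pool.Agent.Lib.MP_b2ee0b_nt.FinT

/-! Check of the chain tables of width eighteen. -/

namespace Pool.Agent.Lib.MP_b2ee0b_nt.Fn

theorem c43 : chkT 43 18 jv43 tc43 (mm1 43 iv43 tb43) = true := by decide +kernel

theorem c37 : chkT 37 18 jv37 tc37 (mm1 37 iv37 tb37) = true := by decide +kernel

theorem c31 : chkT 31 18 jv31 tc31 (mm1 31 iv31 tb31) = true := by decide +kernel

theorem c19 : chkT 19 18 jv19 tc19 (mm1 19 iv19 tb19) = true := by decide +kernel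

theorem c13 : chkT 13 18 jv13 tc13 (mm1 13 iv13 tb13) = true := by decide +kernel

end Pool.Agent.Lib.MP_b2ee0b_nt.Fn
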