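import Pool.Agent.Lib.MP_b2ee0b_nt.FinC

/-! Search over regular triples. -/

namespace Pool.Agent.Lib.MP_b2ee0b_nt.Fn

theorem v0 : top (2 ^ 81) (chn (2 ^ 81) 6 ps0 (regr d6e)) 3100 = true := by decide +kernel

end Pool.Agent.Lib.MP_b2ee0b_nt.Fn
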