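import Pool.Agent.Lib.MP_b2ee0b_nt.FinC

/-! Search over the deeper levels. -/

namespace Pool.Agent.Lib.MP_b2ee0b_nt.Fn

theorem v2 : top (2 ^ 51) (fun x => lin (2 ^ 65) x 10000) 160 = true := by decide +kernel

end Pool.Agent.Lib.MP_b2ee0b_nt.Fn
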