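import Mathlib
import Pool.Agent.Lib.MP_b2ee0b_nt.Torsion

/-! Integrality of the three-torsion data, the descent step for triples, coprimality of roots. -/

namespace Pool.Agent.Lib.MP_b2ee0b_nt

open Polynomial in
lemma iso_int_of_monic {x : ℚ} (A B C D : ℤ) (h : x ^ 4 + A * x ^ 3 + B * x ^ 2 + C * x + D = 0) :
    ∃ z : ℤ, x = z := by
  have hint : IsIntegral ℤ x := by
    refine ⟨X ^ 4 + (Polynomial.C A * X ^ 3 + Polynomial.C B * X ^ 2 + Polynomial.C C * X +
      Polynomial.C D), ?_, ?_⟩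
    · refine monic_X_pow_add ?_
      refine lt_of_le_of_lt (b := 3) ?_ (by norm_num)
      compute_degree
    · simp only [eval₂_add, eval₂_mul, eval₂_X_pow, eval₂_C, eval₂_X]
      simp only [algebraMap_int_eq, eq_intCast]
      linarith
  obtain ⟨z, hz⟩ := IsIntegrallyClosed.isIntegral_iff.1 hint
  exact ⟨z, by simpa using hz.symm⟩

lemma iso_int_third {x : ℚ} {n : ℤ} (h : 3 * x ^ 2 = n) : ∃ z : ℤ, x = z := by
  obtain ⟨w, hw⟩ := int_of_sq (r := 3 * x) (n := 3 * n) (by push_cast; linear_combination 3 * h)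
  have h2 : w ^ 2 = 3 * n := by
    have : (w : ℚ) ^ 2 = 3 * n := by rw [← hw]; linear_combination 3 * h
    exact_mod_cast this
  have h3 : (3 : ℤ) ∣ w := Int.prime_three.dvd_of_dvd_pow (n := 2) ⟨n, h2⟩
  obtain ⟨z, rfl⟩ := h3
  refine ⟨z, ?_⟩
  push_cast at hw
  linarith

/-- the data of a three-torsion point are integers -/
theorem T3.int {a b c : ℤ} (h : T3 a b c) : ∃ α β γ τ : ℤ, γ ^ 2 = a * b + τ ∧
    β ^ 2 = a * c + τ ∧ α ^ 2 = b * c + τ ∧ α * β + β * γ + γ * α = 0 := by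
  obtain ⟨γ, β, α, t, h1, h2, h3, h4⟩ := h
  have q : (α ^ 2 * β ^ 2 + β ^ 2 * γ ^ 2 + γ ^ 2 * α ^ 2) ^ 2 =
      4 * (α ^ 2 * β ^ 2 * γ ^ 2) * (α ^ 2 + β ^ 2 + γ ^ 2) := by
    have e1 : α ^ 2 * β ^ 2 + β ^ 2 * γ ^ 2 + γ ^ 2 * α ^ 2 = -2 * (α * β * γ) * (α + β + γ) := by
      linear_combination (γ * β + β * α + α * γ) * h4
    have e2 : α ^ 2 + β ^ 2 + γ ^ 2 = (α + β + γ) ^ 2 := by linear_combination -2 * h4
    rw [e1, e2]; ring
  rw [h1, h2, h3] at q
  obtain ⟨w, hw⟩ := iso_int_of_monic (x := 3 * t) (4 * (a * b + a * c + b * c))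
    (18 * (a * b * (a * c) + a * b * (b * c) + a * c * (b * c)))
    (108 * (a * b * (a * c) * (b * c)))
    (27 * (4 * (a * b + a * c + b * c) * (a * b * (a * c) * (b * c)) -
      (a * b * (a * c) + a * b * (b * c) + a * c * (b * c)) ^ 2))
    (by push_cast; linear_combination (-27) * q)
  obtain ⟨g, rfl⟩ := iso_int_third (x := γ) (n := w + 3 * (a * b))
    (by push_cast; linear_combination 3 * h1 + hw)
  obtain ⟨y, rfl⟩ := iso_int_third (x := β) (n := w + 3 * (a * c))
    (by push_cast; linear_combination 3 * h2 + hw)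
  obtain ⟨x, rfl⟩ := iso_int_third (x := α) (n := w + 3 * (b * c))
    (by push_cast; linear_combination 3 * h3 + hw)
  refine ⟨x, y, g, g ^ 2 - a * b, by ring, ?_, ?_, ?_⟩
  · have : (y : ℚ) ^ 2 = a * c + (g ^ 2 - a * b) := by linear_combination h2 - h1
    exact_mod_cast this
  · have : (x : ℚ) ^ 2 = b * c + (g ^ 2 - a * b) := by linear_combination h3 - h1
    exact_mod_cast this
  · have : (x : ℚ) * y + y * g + g * x = 0 := by linear_combination h4
    exact_mod_cast this

lemma iso_even_sub {m n k : ℤ} (h : m ^ 2 = n ^ 2 + 2 * k) : ∃ w, m - n = 2 * w := by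
  have : Even ((m - n) * (m + n)) := ⟨k, by linear_combination h⟩
  rcases Int.even_mul.1 this with ⟨w, g⟩ | ⟨w, g⟩
  · exact ⟨w, by linarith⟩
  · exact ⟨w - n, by linarith⟩

lemma iso_not_sq {a r : ℤ} (ha : 0 < a) (hr : 0 ≤ r) (h : r ^ 2 = a * a + 4) : False := by
  have h1 : a < r := by nlinarith
  have h2 : r < a + 2 := by nlinarith
  have : r = a + 1 := by omega
  subst this
  have : 2 * a = 3 := by linarith
  omega

lemma iso_two_le {n x : ℤ} (hn : 0 ≤ n) (hx : 0 ≤ x) (h : x ^ 2 = n + 4) : 2 ≤ x := by nlinarith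

lemma iso_five_le {n x : ℤ} (hn : 0 < n) (hx : 0 ≤ x) (h : x ^ 2 = n + 4) : 5 ≤ n := by
  have : 3 ≤ x := by nlinarith
  nlinarith

/-- replace the largest entry by the smaller regular extension of the triple -/
theorem iso_down {a b c r s t : ℤ} (ha : 0 < a) (hb : 0 < b) (hac : a < c) (hbc : b < c)
    (r0 : 0 ≤ r) (s0 : 0 ≤ s) (t0 : 0 ≤ t) (hr : r ^ 2 = a * b + 4) (hs : s ^ 2 = a * c + 4)
    (ht : t ^ 2 = b * c + 4) : ∃ d x y : ℤ, 0 ≤ d ∧ 0 ≤ x ∧ 0 ≤ y ∧ x ^ 2 = a * d + 4 ∧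
      y ^ 2 = b * d + 4 ∧ 2 * x = r * s - a * t ∧ 2 * y = r * t - b * s ∧
      a * b * d + a + b + d < c ∧ a + b + 2 * r ≤ c ∧ (d = 0 → c = a + b + 2 * r) := by
  have hP : (r * s * t) ^ 2 = (a * b + 4) * (a * c + 4) * (b * c + 4) := by
    rw [← hr, ← hs, ← ht]; ring
  obtain ⟨w, hw⟩ := iso_even_sub (m := r * s * t) (n := a * b * c)
    (k := 2 * (a * b * c * (a + b + c) + 4 * (a * b + a * c + b * c) + 16))
    (by linear_combination hP)
  obtain ⟨x, hx⟩ := iso_even_sub (m := r * s) (n := a * t)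
    (k := 2 * (a * b + a * c - a ^ 2 + 4))
    (by linear_combination s ^ 2 * hr + (a * b + 4) * hs - a ^ 2 * ht)
  obtain ⟨y, hy⟩ := iso_even_sub (m := r * t) (n := b * s)
    (k := 2 * (a * b + b * c - b ^ 2 + 4))
    (by linear_combination t ^ 2 * hr + (a * b + 4) * ht - b ^ 2 * hs)
  obtain ⟨z, hz⟩ := iso_even_sub (m := s * t) (n := c * r)
    (k := 2 * (a * c + b * c - c ^ 2 + 4))
    (by linear_combination t ^ 2 * hs + (a * c + 4) * ht - c ^ 2 * hr)
  have x0 : 0 ≤ x := by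
    have : a * t ≤ r * s := by
      apply le_of_pow_le_pow_left₀ two_ne_zero (by positivity)
      have : (r * s) ^ 2 = (a * t) ^ 2 + 4 * (a * b + a * (c - a) + 4) := by
        linear_combination s ^ 2 * hr + (a * b + 4) * hs - a ^ 2 * ht
      have h1 : 0 < a * b := by positivity
      have h2 : 0 < a * (c - a) := mul_pos ha (by omega)
      linarith
    linarith
  have y0 : 0 ≤ y := by
    have : b * s ≤ r * t := by
      apply le_of_pow_le_pow_left₀ two_ne_zero (by positivity)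
      have : (r * t) ^ 2 = (b * s) ^ 2 + 4 * (a * b + b * (c - b) + 4) := by
        linear_combination t ^ 2 * hr + (a * b + 4) * ht - b ^ 2 * hs
      have h1 : 0 < a * b := by positivity
      have h2 : 0 < b * (c - b) := mul_pos hb (by omega)
      linarith
    linarith
  have qx : x ^ 2 = a * (a + b + c - w) + 4 := by
    have : 4 * x ^ 2 = 4 * (a * (a + b + c - w) + 4) := by
      linear_combination -(2 * x + r * s - a * t) * hx + s ^ 2 * hr + (a * b + 4) * hs +
        a ^ 2 * ht - 2 * a * hw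
    linarith
  have qy : y ^ 2 = b * (a + b + c - w) + 4 := by
    have : 4 * y ^ 2 = 4 * (b * (a + b + c - w) + 4) := by
      linear_combination -(2 * y + r * t - b * s) * hy + t ^ 2 * hr + (a * b + 4) * ht +
        b ^ 2 * hs - 2 * b * hw
    linarith
  have qz : z ^ 2 = c * (a + b + c - w) + 4 := by
    have : 4 * z ^ 2 = 4 * (c * (a + b + c - w) + 4) := by
      linear_combination -(2 * z + s * t - c * r) * hz + t ^ 2 * hs + (a * c + 4) * ht +
        c ^ 2 * hr - 2 * c * hw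
    linarith
  have h5 := iso_five_le (mul_pos ha hb) r0 hr
  have d0 : 0 ≤ a + b + c - w := by
    by_contra g
    have g1 : c * (a + b + c - w) ≤ c * (-1) := by
      apply mul_le_mul_of_nonneg_left <;> omega
    have g2 : c ≤ 4 := by nlinarith [sq_nonneg z]
    have g3 : a ≤ 3 := by omega
    have g4 : b ≤ 3 := by omega
    have g5 : r ≤ 3 := by nlinarith
    interval_cases a <;> interval_cases b <;> interval_cases r <;> omega
  set d := a + b + c - w with hd
  have x2 := iso_two_le (mul_nonneg ha.le d0) x0 qx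
  have y2 := iso_two_le (mul_nonneg hb.le d0) y0 qy
  have es : 2 * s = r * x + a * y := by
    have : 2 * (2 * s) = 2 * (r * x + a * y) := by
      linear_combination r * hx + a * hy - s * hr
    linarith
  have ec : 2 * c = 2 * (a + b + d) + a * b * d + r * x * y := by
    apply mul_left_cancel₀ (a := 2 * a) (by omega)
    linear_combination (2 * s + r * x + a * y) * es - 4 * hs + x ^ 2 * hr + (a * b + 4) * qx +
      a ^ 2 * qy
  have hgt : a * b * d < r * x * y := by
    apply lt_of_pow_lt_pow_left₀ 2 (by positivity)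
    have e : (r * x * y) ^ 2 = (a * b + 4) * (a * d + 4) * (b * d + 4) := by
      rw [← hr, ← qx, ← qy]; ring
    rw [e]
    have h1 : 0 ≤ a * d := by positivity
    have h2 : 0 ≤ b * d := by positivity
    calc (a * b * d) ^ 2 = (a * b) * (a * d) * (b * d) := by ring
      _ ≤ (a * b + 4) * (a * d + 4) * (b * d) := by gcongr <;> linarith
      _ < _ := by gcongr; linarith
  refine ⟨d, x, y, d0, x0, y0, qx, qy, hx.symm, hy.symm, by linarith, ?_, fun e => ?_⟩
  · have h1 : r + a ≤ s := by nlinarith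
    have h2 : (r + a) ^ 2 ≤ s ^ 2 := by gcongr
    have h3 : a * (a + b + 2 * r) ≤ a * c := by nlinarith
    exact le_of_mul_le_mul_left h3 ha
  · rw [e] at qx qy ec
    have : x = 2 := by nlinarith
    have : y = 2 := by nlinarith
    subst x y
    linarith

/-- no odd prime divides two of the three roots -/
theorem iso_cop {l : ℤ} (hl : Prime l) (h2 : ¬ l ∣ 2) (n : ℕ) : ∀ a b c r s t : ℤ,
    a + b + c ≤ n → 0 ≤ a → 0 ≤ b → 0 ≤ c → 0 ≤ r → 0 ≤ s → 0 ≤ t → r ^ 2 = a * b + 4 →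
    s ^ 2 = a * c + 4 → t ^ 2 = b * c + 4 →
    ¬ (l ∣ r ∧ l ∣ s) ∧ ¬ (l ∣ r ∧ l ∣ t) ∧ ¬ (l ∣ s ∧ l ∣ t) := by
  have four : ∀ x : ℤ, x ^ 2 = 4 → ¬ l ∣ x := by
    intro x hx g
    have : l ∣ 2 ^ 2 := by rw [show (2 : ℤ) ^ 2 = x ^ 2 by rw [hx]; norm_num]; exact dvd_pow g two_ne_zero
    exact h2 (hl.dvd_of_dvd_pow this)
  have half : ∀ x : ℤ, l ∣ 2 * x → l ∣ x := fun x g => (hl.dvd_or_dvd g).resolve_left h2
  induction n with
  | zero =>
    intro a b c r s t hn ha hb hc r0 s0 t0 hr hs ht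
    have : a = 0 := by omega
    subst this
    have g1 := four r (by linarith)
    have g2 := four s (by linarith)
    tauto
  | succ n ih =>
    have step : ∀ a b c r s t : ℤ, a + b + c ≤ (n + 1 : ℕ) → 0 < a → 0 < b → a < c → b < c →
        0 ≤ r → 0 ≤ s → 0 ≤ t → r ^ 2 = a * b + 4 → s ^ 2 = a * c + 4 → t ^ 2 = b * c + 4 →
        ¬ (l ∣ r ∧ l ∣ s) ∧ ¬ (l ∣ r ∧ l ∣ t) ∧ ¬ (l ∣ s ∧ l ∣ t) := by
      intro a b c r s t hn ha hb hac hbc r0 s0 t0 hr hs ht
      obtain ⟨d, x, y, d0, x0, y0, qx, qy, hx, hy, hlt, -, -⟩ :=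
        iso_down ha hb hac hbc r0 s0 t0 hr hs ht
      have : 0 ≤ a * b * d := by positivity
      obtain ⟨g1, g2, g3⟩ := ih a b d r x y (by push_cast at hn; omega) ha.le hb.le d0 r0 x0 y0
        hr qx qy
      refine ⟨fun g => g2 ⟨g.1, half y ?_⟩, fun g => g1 ⟨g.1, half x ?_⟩,
        fun g => g3 ⟨half x ?_, half y ?_⟩⟩
      · rw [hy]; exact dvd_sub (g.1.mul_right _) (g.2.mul_left _)
      · rw [hx]; exact dvd_sub (g.1.mul_right _) (g.2.mul_left _)
      · rw [hx]; exact dvd_sub (g.1.mul_left _) (g.2.mul_left _)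
      · rw [hy]; exact dvd_sub (g.2.mul_left _) (g.1.mul_left _)
    intro a b c r s t hn ha hb hc r0 s0 t0 hr hs ht
    rcases eq_or_lt_of_le ha with rfl | ha
    · have g1 := four r (by linarith)
      have g2 := four s (by linarith)
      tauto
    rcases eq_or_lt_of_le hb with rfl | hb
    · have g1 := four r (by linarith)
      have g2 := four t (by linarith)
      tauto
    rcases eq_or_lt_of_le hc with rfl | hc
    · have g1 := four s (by linarith)
      have g2 := four t (by linarith)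
      tauto
    have n1 : a ≠ b := fun e => iso_not_sq ha r0 (by rw [hr, ← e])
    have n2 : a ≠ c := fun e => iso_not_sq ha s0 (by rw [hs, ← e])
    have n3 : b ≠ c := fun e => iso_not_sq hb t0 (by rw [ht, ← e])
    by_cases g : a < c ∧ b < c
    · exact step a b c r s t hn ha hb g.1 g.2 r0 s0 t0 hr hs ht
    by_cases g' : a < b ∧ c < b
    · have := step a c b s r t (by omega) ha hc g'.1 g'.2 s0 r0 t0 hs hr (by linarith)
      tauto
    · have := step b c a t r s (by omega) hb hc (by omega) (by omega) t0 r0 s0 ht (by linarith)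
        (by linarith)
      tauto

end Pool.Agent.Lib.MP_b2ee0b_nt
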