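import Pool.Agent.Lib.MP_b2ee0b_nt.FinC
import Pool.Agent.Lib.MP_b2ee0b_nt.IsoA

/-! Finite search: the tree of triples. -/

namespace Pool.Agent.Lib.MP_b2ee0b_nt

structure Reg (M u v w : ℤ) : Prop where
  uw : u < w
  vw : v < w
  w4 : w ≤ 4 * u ∨ w ≤ 4 * v
  m1 : M ≤ u ^ 4 * v ^ 2 * w
  m2 : M ≤ u ^ 2 * v ^ 4 * w
  m3 : M ≤ u ^ 4 * v ^ 3
  m4 : M ≤ u ^ 3 * v ^ 4
  ex : ∃ r, 0 ≤ r ∧ r ^ 2 = u * v + 4 ∧ w = u + v + 2 * r

structure Irr (M u v w : ℤ) : Prop where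
  uv : u * v < w
  m1 : M ≤ u ^ 3 * v * w
  m2 : M ≤ u * v ^ 3 * w
  m3 : M * v ≤ u ^ 2 * w ^ 2
  m4 : M * u ≤ v ^ 2 * w ^ 2
  m5 : M * (u ^ 2 * v ^ 3) ≤ w ^ 4
  m6 : M * (u ^ 3 * v ^ 2) ≤ w ^ 4

theorem Reg.symm {M u v w : ℤ} (h : Reg M u v w) : Reg M v u w := by
  obtain ⟨h1, h2, h3, h4, h5, h6, h7, r, h8, h9, h10⟩ := h
  exact ⟨h2, h1, h3.symm, by linarith, by linarith, by linarith, by linarith, r, h8, by linarith,
    by linarith⟩

theorem Irr.symm {M u v w : ℤ} (h : Irr M u v w) : Irr M v u w := by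
  obtain ⟨h1, h2, h3, h4, h5, h6, h7⟩ := h
  exact ⟨by linarith, by linarith, by linarith, h5, h4, by linarith, by linarith⟩

theorem irr_of {M u v f w : ℤ} (u0 : 0 < u) (v0 : 0 < v) (f0 : 0 < f) (h : u * v * f < w)
    (k1 : M ≤ u ^ 4 * v ^ 2 * f) (k2 : M ≤ v ^ 4 * u ^ 2 * f) (k3 : M ≤ u ^ 4 * f ^ 2 * v)
    (k4 : M ≤ v ^ 4 * f ^ 2 * u) (k5 : M ≤ f ^ 4 * u ^ 2 * v) (k6 : M ≤ f ^ 4 * v ^ 2 * u) :
    Irr M u v w := by
  have p0 : 0 < u * v * f := by positivity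
  have p2 : (u * v * f) ^ 2 ≤ w ^ 2 := by gcongr
  have p4 : (u * v * f) ^ 4 ≤ w ^ 4 := by gcongr
  refine ⟨lt_of_le_of_lt (le_mul_of_one_le_right (by positivity) f0) h, ?_, ?_, ?_, ?_, ?_, ?_⟩
  · calc M ≤ u ^ 3 * v * (u * v * f) := by linarith
      _ ≤ _ := by gcongr
  · calc M ≤ u * v ^ 3 * (u * v * f) := by linarith
      _ ≤ _ := by gcongr
  · calc M * v ≤ u ^ 4 * f ^ 2 * v * v := by gcongr
      _ = u ^ 2 * (u * v * f) ^ 2 := by ring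
      _ ≤ _ := by gcongr
  · calc M * u ≤ v ^ 4 * f ^ 2 * u * u := by gcongr
      _ = v ^ 2 * (u * v * f) ^ 2 := by ring
      _ ≤ _ := by gcongr
  · calc _ ≤ f ^ 4 * u ^ 2 * v * (u ^ 2 * v ^ 3) := by gcongr
      _ = (u * v * f) ^ 4 := by ring
      _ ≤ _ := p4
  · calc _ ≤ f ^ 4 * v ^ 2 * u * (u ^ 3 * v ^ 2) := by gcongr
      _ = (u * v * f) ^ 4 := by ring
      _ ≤ _ := p4

theorem irr3 {M x y z w : ℤ} (x0 : 0 < x) (xy : x ≤ y) (yz : y ≤ z) (h : x * y * z < w)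
    (k : M ≤ x ^ 4 * y ^ 2 * z) : Irr M y z w ∧ Irr M x z w ∧ Irr M x y w := by
  have y0 : 0 < y := by omega
  have z0 : 0 < z := by omega
  have xz : x ≤ z := by omega
  have g : ∀ m : ℤ, x ^ 3 * y ≤ m → M ≤ x * y * z * m := fun m hm =>
    calc M ≤ x * y * z * (x ^ 3 * y) := by linarith
      _ ≤ _ := by gcongr
  have k2 := g (x ^ 3 * z) (by gcongr)
  have k3 := g (y ^ 3 * x) (calc _ = x ^ 2 * (x * y) := by ring
    _ ≤ y ^ 2 * (x * y) := by gcongr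
    _ = _ := by ring)
  have k4 := g (y ^ 3 * z) (by gcongr)
  have k5 := g (z ^ 3 * x) (calc _ = x ^ 2 * y * x := by ring
    _ ≤ z ^ 2 * z * x := by gcongr
    _ = _ := by ring)
  have k6 := g (z ^ 3 * y) (by gcongr)
  refine ⟨irr_of y0 z0 x0 ?_ ?_ ?_ ?_ ?_ ?_ ?_, irr_of x0 z0 y0 ?_ ?_ ?_ ?_ ?_ ?_ ?_,
    irr_of x0 y0 z0 ?_ ?_ ?_ ?_ ?_ ?_ ?_⟩ <;> linarith

namespace Fn

def Val (u v w A B C : ℕ) : Prop := A ^ 2 = v * w + 4 ∧ B ^ 2 = u * w + 4 ∧ C ^ 2 = u * v + 4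

theorem Ext.s12 {u v w A B C n nu nv nw : ℕ} (h : Ext u v w A B C n nu nv nw) :
    Ext v u w B A C n nv nu nw := ⟨by linarith [h.1], h.2.2.1, h.2.1, by linarith [h.2.2.2]⟩

theorem Ext.s23 {u v w A B C n nu nv nw : ℕ} (h : Ext u v w A B C n nu nv nw) :
    Ext u w v A C B n nu nw nv :=
  ⟨by linarith [h.1], by linarith [h.2.1], by linarith [h.2.2.2], by linarith [h.2.2.1]⟩

theorem ne_of_sq {u r : ℕ} (u0 : 0 < u) (h : r ^ 2 = u * u + 4) : False :=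
  iso_not_sq (a := u) (r := r) (by omega) (by omega) (by exact_mod_cast h)

theorem dn {u v w A B C : ℕ} (u0 : 0 < u) (v0 : 0 < v) (uw : u < w) (vw : v < w)
    (h : Val u v w A B C) : ∃ f X Y Z, Val u v f Y X C ∧ Ext u v f Y X C w B A Z ∧
      u * v * f + u + v + f < w := by
  obtain ⟨hA, hB, hC⟩ := h
  have hC' := hC
  zify at hA hB hC
  obtain ⟨f, X, Y, f0, X0, Y0, qX, qY, eX, eY, lt, -, -⟩ := iso_down (a := u) (b := v) (c := w)
    (r := C) (s := B) (t := A) (by omega) (by omega) (by omega) (by omega) (by omega) (by omega)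
    (by omega) hC hB hA
  obtain ⟨k, hk⟩ := iso_even_sub (m := X * Y) (n := f * C) (k := 2 * (u * f + v * f - f ^ 2 + 4))
    (by linear_combination Y ^ 2 * qX + (u * f + 4) * qY - f ^ 2 * hC)
  obtain ⟨Z, hZ⟩ : ∃ Z : ℤ, 2 * Z = Y * X + f * C := ⟨k + f * C, by linarith⟩
  have Z0 : 0 ≤ Z := by
    have : 0 ≤ Y * X + f * C := by positivity
    omega
  have eB : 2 * (B : ℤ) = C * X + u * Y := by
    have : 2 * (2 * (B : ℤ)) = 2 * (C * X + u * Y) := by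
      linear_combination -C * eX - u * eY - B * hC
    linarith
  have eA : 2 * (A : ℤ) = C * Y + v * X := by
    have : 2 * (2 * (A : ℤ)) = 2 * (C * Y + v * X) := by
      linear_combination -C * eY - v * eX - A * hC
    linarith
  have ew : 2 * (w : ℤ) = 2 * (u + v + f) + (u * v * f + Y * X * C) := by
    apply mul_left_cancel₀ (a := 2 * (u : ℤ)) (by omega)
    linear_combination -4 * hB + (2 * B + C * X + u * Y) * eB + X ^ 2 * hC + (u * v + 4) * qX +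
      u ^ 2 * qY
  lift f to ℕ using f0
  lift X to ℕ using X0
  lift Y to ℕ using Y0
  lift Z to ℕ using Z0
  exact ⟨f, X, Y, Z, ⟨by exact_mod_cast qY, by exact_mod_cast qX, hC'⟩,
    ⟨by exact_mod_cast ew, by exact_mod_cast eB, by exact_mod_cast eA, by exact_mod_cast hZ⟩,
    by exact_mod_cast lt⟩

/-- a sorted triple is regular or a child of a smaller sorted triple -/
theorem parent {u v w A B C : ℕ} (u0 : 0 < u) (uv : u < v) (vw : v < w) (h : Val u v w A B C) :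
    (w = u + v + 2 * C ∧ A = C + v ∧ B = C + u) ∨ ∃ x y z A' B' C' nu nv nw, 0 < x ∧ x < y ∧ y < z ∧
      z < w ∧ x * y * z < w ∧ Val x y z A' B' C' ∧ Ext x y z A' B' C' w nu nv nw ∧
      ∀ K : ℕ → ℕ → ℕ → ℕ → ℕ → ℕ → Prop, K y z w nw nv A' → K x z w nw nu B' → K x y w nv nu C' →
        K u v w A B C := by
  obtain ⟨f, X, Y, Z, ⟨qY, qX, qC⟩, E, lt⟩ := dn u0 (by omega) (by omega) vw h
  rcases Nat.eq_zero_or_pos f with rfl | f0
  · obtain rfl : X = 2 := by nlinarith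
    obtain rfl : Y = 2 := by nlinarith
    obtain ⟨e1, e2, e3, -⟩ := E
    exact Or.inl ⟨by omega, by omega, by omega⟩
  right
  rcases lt_trichotomy f u with c | rfl | c
  · exact ⟨f, u, v, C, Y, X, Z, B, A, f0, c, uv, vw, by linarith, ⟨qC, by linarith, by linarith⟩,
      E.s23.s12, fun K k _ _ => k⟩
  · exact (ne_of_sq u0 qX).elim
  rcases lt_trichotomy f v with c' | rfl | c'
  · exact ⟨u, f, v, Y, C, X, B, Z, A, u0, c, c', vw, by linarith, ⟨by linarith, qC, qX⟩,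
      E.s23, fun K _ k _ => k⟩
  · exact (ne_of_sq f0 qY).elim
  · exact ⟨u, v, f, Y, X, C, B, A, Z, u0, uv, c', by omega, by omega, ⟨qY, qX, qC⟩, E,
      fun K _ _ k => k⟩

/-- what the three searches establish -/
structure Done (M1 M2 : ℕ) : Prop where
  D : AllD
  h0 : ∀ x y r, 0 < x → x < y → r ^ 2 = x * y + 4 → x ^ 4 * y ^ 3 < M1 →
    N6 x y (x + y + 2 * r) (r + y) (r + x) r
  h1 : ∀ x y r n nu nv nw, 0 < x → x < y → r ^ 2 = x * y + 4 → x ^ 4 * y ^ 3 < M2 →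
    Ext x y (x + y + 2 * r) (r + y) (r + x) r n nu nv nw → N6 y (x + y + 2 * r) n nw nv (r + y) ∧
      N6 x (x + y + 2 * r) n nw nu (r + x) ∧ N6 x y n nv nu r
  h2 : ∀ x y r n nu nv nw, 0 < x → x < y → r ^ 2 = x * y + 4 → x ^ 5 * y ^ 4 < M2 →
    Ext x y (x + y + 2 * r) (r + y) (r + x) r n nu nv nw → ∃ f,
      deep M2 f y (x + y + 2 * r) n nw nv (r + y) = true ∧
      deep M2 f x (x + y + 2 * r) n nw nu (r + x) = true ∧ deep M2 f x y n nv nu r = true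

theorem done_of {M1 M2 M3 N1 N2 N3 F : ℕ} (D : AllD) (p0 : PsOk (TOk 6 mm0) ps0)
    (p1 : PsOk (TOk 18 mm1) ps1) (t0 : top M1 (chn M1 6 ps0 (regr d6e)) N1 = true)
    (t1 : top M2 (chn M2 18 ps1 (regr d18e)) N2 = true)
    (t2 : top M3 (fun x => lin M2 x F) N3 = true) (n1 : M1 ≤ (N1 + 1) ^ 7) (n2 : M2 ≤ (N2 + 1) ^ 7)
    (n3 : M3 ≤ (N3 + 1) ^ 7) (n4 : M2 ^ 7 ≤ M3 ^ 9) : Done M1 M2 := by
  refine ⟨D, ?_, ?_, ?_⟩
  · intro x y r x0 xy e hM i g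
    obtain ⟨r0, j, rfl, c⟩ := top_ok t0 n1 x0 y r xy e hM
    have := chn_ok (mf := m6e) p0 lt2.up (fun l => (red2 l).up 2) (fun _ _ _ => snd6) c e hM g
    rw [regr_eq x0 e] at this
    exact d6e_ok D this i g
  · intro x y r n nu nv nw x0 xy e hM E
    by_cases g : ∃ i, Up 6 (Up 2 P2) x y (x + y + 2 * r) (r + y) (r + x) r i
    · obtain ⟨i, g⟩ := g
      obtain ⟨r0, j, rfl, c⟩ := top_ok t1 n2 x0 y r xy e hM
      have := chn_ok (mf := m18e) p1 lt2.up.up (fun l => ((red2 l).up 2).up 6) (fun _ _ _ => snd18)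
        c e hM g
      rw [regr_eq x0 e, d18e, ext_hx E] at this
      exact d18_ok D this
    · exact ⟨fun i k => g ⟨_, _, _, _, _, E, Or.inl k⟩,
        fun i k => g ⟨_, _, _, _, _, E, Or.inr (Or.inl ⟨i, rfl, k⟩)⟩,
        fun i k => g ⟨_, _, _, _, _, E, Or.inr (Or.inr ⟨i, rfl, k⟩)⟩⟩
  · intro x y r n nu nv nw x0 xy e hM E
    have u1 : x ^ 4 * y ^ 3 < M3 := by
      apply lt_of_pow_lt_pow_left₀ 9 (Nat.zero_le _)
      calc _ = x ^ 35 * y ^ 27 * x := by ring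
        _ ≤ x ^ 35 * y ^ 27 * y := by gcongr
        _ = (x ^ 5 * y ^ 4) ^ 7 := by ring
        _ < M2 ^ 7 := by gcongr
        _ ≤ _ := n4
    obtain ⟨r0, j, rfl, c⟩ := top_ok t2 n3 x0 y r xy e u1
    have := lin_ok hM _ _ j c e
    rw [regr_eq x0 e, dp3e, ext_hx E] at this
    simp only [dp3, an_iff] at this
    exact ⟨_, this⟩

namespace Done

variable {M1 M2 : ℕ} (H : Done M1 M2)
include H

theorem deepx (w : ℕ) : ∀ u v A B C, 0 < u → u < v → v < w → Val u v w A B C →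
    u ^ 4 * v ^ 2 * w < M2 →
    (w = u + v + 2 * C ∧ A = C + v ∧ B = C + u) ∨ ∃ f, deep M2 f u v w A B C = true := by
  induction w using Nat.strong_induction_on with
  | _ w ih =>
    intro u v A B C u0 uv vw h hM
    rcases parent u0 uv vw h with g | ⟨x, y, z, A', B', C', nu, nv, nw, x0, xy, yz, zw, lt, V, E, K⟩
    · exact Or.inl g
    right
    obtain ⟨k1, k2⟩ : x ≤ u ∧ y ≤ v :=
      K (fun u v _ _ _ _ => x ≤ u ∧ y ≤ v) (by omega) (by omega) (by omega)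
    have u1 : x ^ 4 * y ^ 2 * w < M2 := lt_of_le_of_lt (by gcongr) hM
    have u2 : x ^ 4 * y ^ 2 * z < M2 := lt_of_le_of_lt (by gcongr) u1
    rcases ih z zw x y A' B' C' x0 xy yz V u2 with ⟨rfl, rfl, rfl⟩ | ⟨f, g⟩
    · obtain ⟨f, g1, g2, g3⟩ := H.h2 _ _ _ _ _ _ _ x0 xy V.2.2 (lt_of_le_of_lt (
        calc x ^ 5 * y ^ 4 = x ^ 4 * y ^ 2 * (x * y * y) := by ring
          _ ≤ x ^ 4 * y ^ 2 * (x * y * (x + y + 2 * C')) := by gcongr
          _ ≤ _ := by gcongr) u1) E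
      exact ⟨f, K (fun u v w A B C => deep M2 f u v w A B C = true) g1 g2 g3⟩
    · obtain ⟨-, f, g1, g2, g3⟩ := deep_un g u2 E
      exact ⟨f, K (fun u v w A B C => deep M2 f u v w A B C = true) g1 g2 g3⟩

theorem key {u v w A B C : ℕ} (u0 : 0 < u) (uv : u < v) (vw : v < w) (h : Val u v w A B C)
    (hit : ¬ N6 u v w A B C) : Reg M1 u v w ∨ Irr M2 u v w := by
  rcases parent u0 uv vw h with ⟨rfl, rfl, rfl⟩ |
    ⟨x, y, z, A', B', C', nu, nv, nw, x0, xy, yz, zw, lt, V, E, K⟩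
  · left
    have e := h.2.2
    have u1 : M1 ≤ u ^ 4 * v ^ 3 := not_lt.1 fun c => hit (H.h0 _ _ _ u0 uv e c)
    have u2 : C ≤ v := by
      by_contra c
      nlinarith
    have u3 : u ^ 4 * v ^ 3 ≤ u ^ 3 * v ^ 4 :=
      calc _ = u ^ 3 * v ^ 3 * u := by ring
        _ ≤ u ^ 3 * v ^ 3 * v := by gcongr
        _ = _ := by ring
    have u4 : u ^ 4 * v ^ 3 ≤ u ^ 4 * v ^ 2 * (u + v + 2 * C) :=
      calc _ = u ^ 4 * v ^ 2 * v := by ring
        _ ≤ _ := by gcongr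
    have u5 : u ^ 4 * v ^ 2 * (u + v + 2 * C) ≤ u ^ 2 * v ^ 4 * (u + v + 2 * C) :=
      calc _ = u ^ 2 * v ^ 2 * u ^ 2 * (u + v + 2 * C) := by ring
        _ ≤ u ^ 2 * v ^ 2 * v ^ 2 * (u + v + 2 * C) := by gcongr
        _ = _ := by ring
    exact ⟨by omega, by omega, Or.inr (by omega), by exact_mod_cast u1.trans u4,
      by exact_mod_cast (u1.trans u4).trans u5, by exact_mod_cast u1, by exact_mod_cast u1.trans u3,
      C, by omega, by exact_mod_cast e, by omega⟩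
  right
  by_cases c : x ^ 4 * y ^ 2 * z < M2
  · refine (hit ?_).elim
    rcases H.deepx z x y A' B' C' x0 xy yz V c with ⟨rfl, rfl, rfl⟩ | ⟨f, g⟩
    · obtain ⟨g1, g2, g3⟩ := H.h1 _ _ _ _ _ _ _ x0 xy V.2.2 (lt_of_le_of_lt (
        calc x ^ 4 * y ^ 3 = x ^ 4 * y ^ 2 * y := by ring
          _ ≤ _ := by gcongr) c) E
      exact K N6 g1 g2 g3
    · obtain ⟨g1, g2, g3⟩ := d18_ok H.D (deep_un g c E).1
      exact K N6 g1 g2 g3
  · obtain ⟨g1, g2, g3⟩ := irr3 (M := M2) (x := x) (y := y) (z := z) (w := w) (by omega) (by omega)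
      (by omega) (by exact_mod_cast lt) (by exact_mod_cast not_lt.1 c)
    exact K (fun u v w _ _ _ => Irr M2 u v w) g1 g2 g3

end Done

theorem p2_swap {x y b A B C : ℕ} (h : ∀ i, ¬ P2 x y b A B C i) (i : ℕ) : ¬ P2 y x b B A C i := by
  rintro (⟨-, g⟩ | ⟨-, g⟩) <;> rw [mul_comm B A] at g
  · exact h 1 (Or.inr ⟨rfl, g⟩)
  · exact h 0 (Or.inl ⟨rfl, g⟩)

theorem n6_iff {u v w A B C : ℕ} : N6 u v w A B C ↔ ∀ n nu nv nw, Ext u v w A B C n nu nv nw →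
    (∀ i, ¬ P2 v w n nw nv A i) ∧ (∀ i, ¬ P2 u w n nw nu B i) ∧ ∀ i, ¬ P2 u v n nv nu C i := by
  constructor
  · exact fun g n nu nv nw E => ⟨fun i k => g _ ⟨_, _, _, _, E, Or.inl k⟩,
      fun i k => g _ ⟨_, _, _, _, E, Or.inr (Or.inl ⟨i, rfl, k⟩)⟩,
      fun i k => g _ ⟨_, _, _, _, E, Or.inr (Or.inr ⟨i, rfl, k⟩)⟩⟩
  · rintro g i ⟨n, nu, nv, nw, E, k | ⟨m, -, k⟩ | ⟨m, -, k⟩⟩
    · exact (g _ _ _ _ E).1 _ k
    · exact (g _ _ _ _ E).2.1 _ k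
    · exact (g _ _ _ _ E).2.2 _ k

theorem N6.s12 {u v w A B C : ℕ} (h : N6 u v w A B C) : N6 v u w B A C :=
  n6_iff.2 fun _ _ _ _ E => by
    obtain ⟨g1, g2, g3⟩ := n6_iff.1 h _ _ _ _ E.s12
    exact ⟨g2, g1, p2_swap g3⟩

theorem N6.s23 {u v w A B C : ℕ} (h : N6 u v w A B C) : N6 u w v A C B :=
  n6_iff.2 fun _ _ _ _ E => by
    obtain ⟨g1, g2, g3⟩ := n6_iff.1 h _ _ _ _ E.s23
    exact ⟨p2_swap g1, g3, g2⟩

theorem Val.s12 {u v w A B C : ℕ} (h : Val u v w A B C) : Val v u w B A C :=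
  ⟨h.2.1, h.1, by linarith [h.2.2]⟩

theorem Val.s23 {u v w A B C : ℕ} (h : Val u v w A B C) : Val u w v A C B :=
  ⟨by linarith [h.1], h.2.2, h.2.1⟩

theorem Done.all {M1 M2 : ℕ} (H : Done M1 M2) {u v w A B C : ℕ} (u0 : 0 < u) (v0 : 0 < v)
    (w0 : 0 < w) (h : Val u v w A B C) (hit : ¬ N6 u v w A B C) :
    Reg M1 u v w ∨ Reg M1 u w v ∨ Reg M1 v w u ∨ Irr M2 u v w ∨ Irr M2 u w v ∨ Irr M2 v w u := by
  have n1 : u ≠ v := fun e => ne_of_sq u0 (by simpa only [e] using h.2.2)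
  have n2 : u ≠ w := fun e => ne_of_sq u0 (by simpa only [e] using h.2.1)
  have n3 : v ≠ w := fun e => ne_of_sq v0 (by simpa only [e] using h.1)
  rcases lt_or_gt_of_ne n1 with x | x <;> rcases lt_or_gt_of_ne n2 with y | y <;>
    rcases lt_or_gt_of_ne n3 with z | z
  · have := H.key u0 x z h hit
    tauto
  · have := H.key u0 y z h.s23 fun g => hit g.s23
    tauto
  · omega
  · have := (H.key w0 y x h.s23.s12 fun g => hit g.s12.s23).imp Reg.symm Irr.symm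
    tauto
  · have := (H.key v0 x y h.s12 fun g => hit g.s12).imp Reg.symm Irr.symm
    tauto
  · omega
  · have := H.key v0 z y h.s12.s23 fun g => hit g.s23.s12
    tauto
  · have := (H.key w0 z x h.s12.s23.s12 fun g => hit g.s12.s23.s12).imp Reg.symm Irr.symm
    tauto

end Fn

end Pool.Agent.Lib.MP_b2ee0b_nt
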