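import Pool.Agent.Lib.MP_b2ee0b_nt.Asm
import Pool.Agent.Lib.MP_b2ee0b_nt.FinY
import Pool.Agent.Lib.MP_b2ee0b_nt.FinU1
import Pool.Agent.Lib.MP_b2ee0b_nt.FinU2
import Pool.Agent.Lib.MP_b2ee0b_nt.FinU3
import Pool.Agent.Lib.MP_b2ee0b_nt.FinV0
import Pool.Agent.Lib.MP_b2ee0b_nt.FinV1
import Pool.Agent.Lib.MP_b2ee0b_nt.FinV2

/-! Finite search: the result for the generic case. -/

namespace Pool.Agent.Lib.MP_b2ee0b_nt

theorem Gen.fin_of {a b c r s t α β G τ j d ρ y e : ℤ} (g : Gen a b c r s t α β G τ j d ρ y e)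
    {M1 M2 : ℕ} (H : Fn.Done M1 M2) :
    Reg M1 a d e ∨ Reg M1 a e d ∨ Reg M1 d e a ∨ Irr M2 a d e ∨ Irr M2 a e d ∨ Irr M2 d e a := by
  obtain ⟨D, -, hρ, hy, ρ0, y0, qρ, qy, he, db, e0⟩ := g
  have er := D.er
  have j0 := D.jpos.le
  obtain ⟨a0, ab, -, r0, -, -, hr, hs, ht, α0, β0, G0, h1, h2, h3, h4, -, -, -, -, d0, -⟩ := D
  have es : ρ * r + a * y = 2 * s := by
    have : 2 * (2 * s) = 2 * (r * ρ + a * y) := by linear_combination -r * hρ - a * hy - s * hr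
    linarith
  have et : y * r + b * ρ = 2 * t := by
    have : 2 * (2 * t) = 2 * (y * r + b * ρ) := by linear_combination -r * hy - b * hρ - t * hr
    linarith
  have k2 : r ^ 2 * (α + β) = j * (2 * j + 3 * G) ^ 2 + r ^ 2 * (4 * G + 3 * j) := by linarith
  have k3 : (ρ * r + a * y) ^ 2 + 4 * G ^ 2 = 4 * r ^ 2 + 4 * β ^ 2 := by rw [es]; linarith
  have k4 : (y * r + b * ρ) ^ 2 + 4 * G ^ 2 = 4 * r ^ 2 + 4 * α ^ 2 := by rw [et]; linarith
  have b0 : 0 ≤ b := by omega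
  clear es et hs ht h1 h2 h3 hρ hy er
  lift a to ℕ using a0.le
  lift b to ℕ using b0
  lift d to ℕ using d0.le
  lift r to ℕ using r0
  lift ρ to ℕ using ρ0
  lift y to ℕ using y0
  lift α to ℕ using α0.le
  lift β to ℕ using β0.le
  lift G to ℕ using G0.le
  lift j to ℕ using j0
  obtain ⟨f, X, Y, Z, V, E, -⟩ := Fn.dn (u := a) (v := d) (w := b) (A := y) (B := r) (C := ρ)
    (by omega) (by omega) (by omega) (by omega)
    ⟨by zify; linarith, by exact_mod_cast hr, by exact_mod_cast qρ⟩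
  have ef : e = f := by
    obtain ⟨-, qX, -⟩ := V
    obtain ⟨-, e1, e2, -⟩ := E
    zify at qX e1 e2
    have e3 : 2 * (X : ℤ) = ρ * r - a * y := by
      have : 2 * (2 * (X : ℤ)) = 2 * (ρ * r - a * y) := by
        linear_combination -ρ * e1 + a * e2 - X * qρ
      linarith
    apply mul_left_cancel₀ (a := 4 * (a : ℤ)) (by omega)
    linear_combination 4 * qX - (2 * X + ρ * r - a * y) * e3 - r ^ 2 * qρ - (a * d + 4) * hr -
      a ^ 2 * qy + 2 * a * he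
  subst ef
  refine H.all (by omega) (by omega) (by omega) V fun n => ?_
  exact (Fn.n6_iff.1 n _ _ _ _ E).2.2 0 (Or.inl ⟨rfl, α, β, G, j, by exact_mod_cast h4,
    by exact_mod_cast k2, by exact_mod_cast k3, by exact_mod_cast k4⟩)

namespace Fn

theorem done : Done (2 ^ 81) (2 ^ 65) :=
  done_of ⟨d79, d97, d73, d67, d61, d103, d109, d43, d37, d31, d19, d13, d127, d139⟩
    (ps0_ok ⟨_, _, d67, by norm_num, a67⟩ ⟨_, _, d61, by norm_num, a61⟩ ⟨_, _, d43, by norm_num, a43⟩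
      ⟨_, _, d37, by norm_num, a37⟩ ⟨_, _, d31, by norm_num, a31⟩ ⟨_, _, d19, by norm_num, a19⟩
      ⟨_, _, d13, by norm_num, a13⟩)
    (ps1_ok ⟨_, _, d43, by norm_num, c43⟩ ⟨_, _, d37, by norm_num, c37⟩ ⟨_, _, d31, by norm_num, c31⟩
      ⟨_, _, d19, by norm_num, c19⟩ ⟨_, _, d13, by norm_num, c13⟩)
    v0 v1 v2 (by norm_num) (by norm_num) (by norm_num) (by norm_num)

end Fn

/-- outside the six monomial regions there is no counterexample -/
theorem Gen.fin {a b c r s t α β G τ j d ρ y e : ℤ} (g : Gen a b c r s t α β G τ j d ρ y e) :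
    Reg (2 ^ 81) a d e ∨ Reg (2 ^ 81) a e d ∨ Reg (2 ^ 81) d e a ∨
      Irr (2 ^ 65) a d e ∨ Irr (2 ^ 65) a e d ∨ Irr (2 ^ 65) d e a := by
  exact_mod_cast g.fin_of Fn.done

end Pool.Agent.Lib.MP_b2ee0b_nt
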