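import Pool.Agent.Lib.MP_b2ee0b_nt.IsoA

/-! The point with abscissa four lies in the image of the three-isogeny. -/

namespace Pool.Agent.Lib.MP_b2ee0b_nt

lemma iso_par {α β γ : ℤ} (h : α * β + β * γ + γ * α = 0) :
    (Even α ∧ Even β) ∨ (Even α ∧ Even γ) ∨ (Even β ∧ Even γ) := by
  have : Even (α * β + β * γ + γ * α) := by rw [h]; exact Even.zero
  simp only [Int.even_add, Int.even_mul] at this
  tauto

lemma iso_m8 {a t k : ℤ} (h : a ^ 2 * (t ^ 2 - 4) = 1 + 8 * k) : False := by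
  have e : ∀ x y : ZMod 8, x ^ 2 * (y ^ 2 - 4) ≠ 1 := by decide
  apply e (a : ZMod 8) (t : ZMod 8)
  have := congrArg (Int.cast : ℤ → ZMod 8) h
  push_cast at this
  rw [this, show (8 : ZMod 8) = 0 from rfl]
  ring

lemma iso_m16 {a t k : ℤ} (h : a ^ 2 * (t ^ 2 - 1) = 4 + 16 * k) : False := by
  have e : ∀ x y : ZMod 16, x ^ 2 * (y ^ 2 - 1) ≠ 4 := by decide
  apply e (a : ZMod 16) (t : ZMod 16)
  have := congrArg (Int.cast : ℤ → ZMod 16) h
  push_cast at this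
  rw [this, show (16 : ZMod 16) = 0 from rfl]
  ring

lemma iso_odd_sq {r : ℤ} (h : Odd r) : ∃ k, r ^ 2 = 8 * k + 1 := by
  obtain ⟨i, rfl⟩ := h
  obtain ⟨k, hk⟩ := Int.even_mul_succ_self i
  exact ⟨k, by linear_combination 4 * hk⟩

lemma iso_two_odd {a r s t : ℤ} (h : a ^ 2 * (t ^ 2 - 4) = (r ^ 2 - 4) * (s ^ 2 - 4))
    (hr : Odd r) (hs : Odd s) : False := by
  obtain ⟨i, hi⟩ := iso_odd_sq hr
  obtain ⟨j, hj⟩ := iso_odd_sq hs
  rw [hi, hj] at h
  exact iso_m8 (a := a) (t := t) (k := 8 * i * j - 3 * i - 3 * j + 1) (by linear_combination h)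

lemma iso_two_four {a r s t : ℤ}
    (h : a ^ 2 * ((2 * t) ^ 2 - 4) = ((2 * r) ^ 2 - 4) * ((2 * s) ^ 2 - 4))
    (hr : Even r) (hs : Even s) : False := by
  obtain ⟨i, rfl⟩ := hr
  obtain ⟨j, rfl⟩ := hs
  refine iso_m16 (a := a) (t := t) (k := 4 * i ^ 2 * j ^ 2 - i ^ 2 - j ^ 2) ?_
  have : 4 * (a ^ 2 * (t ^ 2 - 1)) = 4 * (4 + 16 * (4 * i ^ 2 * j ^ 2 - i ^ 2 - j ^ 2)) := by
    linear_combination h
  linarith

lemma iso_par_sq {r x g : ℤ} (h : r ^ 2 = x + g ^ 2) : (Even r ↔ Even g) ↔ Even x := by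
  have : x = r ^ 2 - g ^ 2 := by linarith
  rw [this, Int.even_sub, Int.even_pow' two_ne_zero, Int.even_pow' two_ne_zero]

lemma iso_p1 {R S T A B G X : Prop} (p1 : (R ↔ G) ↔ X) (p2 : (S ↔ B) ↔ X) (p3 : (T ↔ A) ↔ X)
    (p4 : (A ∧ B) ∨ (A ∧ G) ∨ (B ∧ G)) (r : R) (s : S) (t : T) : A ∧ B ∧ G := by tauto

lemma iso_p2 {R S T A B G X : Prop} (p1 : (R ↔ G) ↔ X) (p2 : (S ↔ B) ↔ X) (p3 : (T ↔ A) ↔ X)
    (p4 : (A ∧ B) ∨ (A ∧ G) ∨ (B ∧ G)) (n1 : R → S → False) (n2 : R → T → False)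
    (n3 : S → T → False) : ¬ X := by tauto

lemma iso_p3 {R S T A B G X : Prop} (p1 : (R ↔ G) ↔ X) (p2 : (S ↔ B) ↔ X) (p3 : (T ↔ A) ↔ X)
    (p4 : (A ∧ B) ∨ (A ∧ G) ∨ (B ∧ G)) (r : ¬ R) (s : S) (t : T) : A ∧ B ∧ ¬ G := by tauto

lemma iso_p4 {R S T A B G : Prop} (k1 : R ↔ G) (k2 : S ↔ B) (k3 : T ↔ A) (m1 : G → A ∨ B)
    (m2 : B → A ∨ G) (m3 : A → B ∨ G) (n1 : ¬ (R ∧ S)) (n2 : ¬ (R ∧ T)) (n3 : ¬ (S ∧ T))
    (h : (R ∨ S) ∨ T) : False := by tauto

/-- the shape of the conclusion at the prime two -/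
def Two (Y L x : ℤ) : Prop :=
  ∃ U V z : ℤ, Y - L = 8 * U ∧ Y + L = 8 * V ∧ x = 4 * z ∧ ¬ (2 ∣ U ∧ 2 ∣ V)

lemma iso_caseI {a b c r s t α β γ x : ℤ}
    (ha : a ^ 2 * (t ^ 2 - 4) = (r ^ 2 - 4) * (s ^ 2 - 4))
    (hb : b ^ 2 * (s ^ 2 - 4) = (r ^ 2 - 4) * (t ^ 2 - 4))
    (hc : c ^ 2 * (r ^ 2 - 4) = (s ^ 2 - 4) * (t ^ 2 - 4))
    (h1 : r ^ 2 = x + γ ^ 2) (h2 : s ^ 2 = x + β ^ 2) (h3 : t ^ 2 = x + α ^ 2)
    (h4 : α * β + β * γ + γ * α = 0) (er : Even r) (es : Even s) (et : Even t) :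
    Two (r * s * t) ((α + β + γ) * x - α * β * γ) x := by
  obtain ⟨eα, eβ, eγ⟩ := iso_p1 (iso_par_sq h1) (iso_par_sq h2) (iso_par_sq h3) (iso_par h4)
    er es et
  obtain ⟨r, rfl⟩ := even_iff_two_dvd.1 er
  obtain ⟨s, rfl⟩ := even_iff_two_dvd.1 es
  obtain ⟨t, rfl⟩ := even_iff_two_dvd.1 et
  obtain ⟨α, rfl⟩ := even_iff_two_dvd.1 eα
  obtain ⟨β, rfl⟩ := even_iff_two_dvd.1 eβ
  obtain ⟨γ, rfl⟩ := even_iff_two_dvd.1 eγ
  obtain ⟨z, rfl⟩ : ∃ z, x = 4 * z := ⟨r ^ 2 - γ ^ 2, by linarith⟩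
  have g1 : r ^ 2 = z + γ ^ 2 := by linarith
  have g2 : s ^ 2 = z + β ^ 2 := by linarith
  have g3 : t ^ 2 = z + α ^ 2 := by linarith
  have g4 : α * β + β * γ + γ * α = 0 := by linarith
  have hz : ¬ Even z := iso_p2 (iso_par_sq g1) (iso_par_sq g2) (iso_par_sq g3) (iso_par g4)
    (iso_two_four ha) (iso_two_four hb) (iso_two_four hc)
  refine ⟨r * s * t - ((α + β + γ) * z - α * β * γ), r * s * t + ((α + β + γ) * z - α * β * γ), z,
    by ring, by ring, rfl, fun g => hz ?_⟩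
  have e : (r * s * t - ((α + β + γ) * z - α * β * γ)) *
      (r * s * t + ((α + β + γ) * z - α * β * γ)) = z ^ 3 := by
    have : (r * s * t) ^ 2 = (z + γ ^ 2) * (z + β ^ 2) * (z + α ^ 2) := by
      rw [← g1, ← g2, ← g3]; ring
    linear_combination this + (z * (α * β + β * γ + γ * α) - 2 * z ^ 2) * g4
  have : (2 : ℤ) ∣ z ^ 3 := by rw [← e]; exact g.1.mul_right _
  exact even_iff_two_dvd.2 (Int.prime_two.dvd_of_dvd_pow this)

lemma iso_caseII {a b c r s t α β γ x : ℤ}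
    (ha : a ^ 2 * (t ^ 2 - 4) = (r ^ 2 - 4) * (s ^ 2 - 4))
    (hb : b ^ 2 * (s ^ 2 - 4) = (r ^ 2 - 4) * (t ^ 2 - 4))
    (hc : c ^ 2 * (r ^ 2 - 4) = (s ^ 2 - 4) * (t ^ 2 - 4))
    (h1 : r ^ 2 = x + γ ^ 2) (h2 : s ^ 2 = x + β ^ 2) (h3 : t ^ 2 = x + α ^ 2)
    (h4 : α * β + β * γ + γ * α = 0) (or : Odd r) :
    Two (r * s * t) ((α + β + γ) * x - α * β * γ) x := by
  have es : Even s := Int.not_odd_iff_even.1 (iso_two_odd ha or)
  have et : Even t := Int.not_odd_iff_even.1 (iso_two_odd hb or)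
  have er : ¬ Even r := Int.not_even_iff_odd.2 or
  obtain ⟨eα, eβ, nγ⟩ := iso_p3 (iso_par_sq h1) (iso_par_sq h2) (iso_par_sq h3) (iso_par h4)
    er es et
  have oγ : Odd γ := Int.not_even_iff_odd.1 nγ
  obtain ⟨s, rfl⟩ := even_iff_two_dvd.1 es
  obtain ⟨t, rfl⟩ := even_iff_two_dvd.1 et
  obtain ⟨α, rfl⟩ := even_iff_two_dvd.1 eα
  obtain ⟨β, rfl⟩ := even_iff_two_dvd.1 eβ
  obtain ⟨i, hi⟩ := iso_odd_sq or
  obtain ⟨j, hj⟩ := iso_odd_sq oγ
  obtain ⟨z, rfl⟩ : ∃ z, x = 8 * z := ⟨i - j, by linarith⟩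
  have g2 : s ^ 2 = 2 * z + β ^ 2 := by linarith
  have g3 : t ^ 2 = 2 * z + α ^ 2 := by linarith
  have q2 := (iso_par_sq g2).2 (even_two_mul z)
  have q3 := (iso_par_sq g3).2 (even_two_mul z)
  have g4 : γ * (α + β) = 2 * -(α * β) := by linarith
  have q4 : Even α ↔ Even β := by
    have : Even (γ * (α + β)) := by rw [g4]; exact even_two_mul _
    rw [Int.even_mul, Int.even_add] at this
    exact this.resolve_left nγ
  by_cases eα : Even α
  · exfalso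
    obtain ⟨s, rfl⟩ := even_iff_two_dvd.1 (q2.2 (q4.1 eα))
    obtain ⟨t, rfl⟩ := even_iff_two_dvd.1 (q3.2 eα)
    obtain ⟨β, rfl⟩ := even_iff_two_dvd.1 (q4.1 eα)
    obtain ⟨α, rfl⟩ := even_iff_two_dvd.1 eα
    have g5 : γ * (α + β) = 2 * -(α * β * 2) := by linarith
    have q5 : Even (α + β) := by
      have : Even (γ * (α + β)) := by rw [g5]; exact even_two_mul _
      rw [Int.even_mul] at this
      exact this.resolve_left nγ
    obtain ⟨w, hw⟩ := q5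
    have g6 : t ^ 2 = s ^ 2 + 2 * (w * (α - β)) := by
      have : 4 * t ^ 2 = 4 * (s ^ 2 + 2 * (w * (α - β))) := by
        linear_combination g3 - g2 + 4 * (α - β) * hw
      linarith
    have hodd : ¬ Even (r ^ 2 - 4) := by
      rw [hi]; rintro ⟨k, hk⟩; omega
    have c1 : Even c := by
      have : Even (c ^ 2 * (r ^ 2 - 4)) :=
        ⟨8 * ((4 * s ^ 2 - 1) * (4 * t ^ 2 - 1)), by linear_combination hc⟩
      rw [Int.even_mul, Int.even_pow' two_ne_zero] at this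
      exact this.resolve_right hodd
    obtain ⟨c, rfl⟩ := even_iff_two_dvd.1 c1
    have hc1 : c ^ 2 * (r ^ 2 - 4) = 4 * ((4 * s ^ 2 - 1) * (4 * t ^ 2 - 1)) := by
      have : 4 * (c ^ 2 * (r ^ 2 - 4)) = 4 * (4 * ((4 * s ^ 2 - 1) * (4 * t ^ 2 - 1))) := by
        linear_combination hc
      linarith
    have c2 : Even c := by
      have : Even (c ^ 2 * (r ^ 2 - 4)) :=
        ⟨2 * ((4 * s ^ 2 - 1) * (4 * t ^ 2 - 1)), by linear_combination hc1⟩
      rw [Int.even_mul, Int.even_pow' two_ne_zero] at this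
      exact this.resolve_right hodd
    obtain ⟨c, rfl⟩ := even_iff_two_dvd.1 c2
    refine iso_m8 (a := c) (t := r) (k := 2 * s ^ 2 * t ^ 2 - s ^ 2 - w * (α - β)) ?_
    have : 4 * (c ^ 2 * (r ^ 2 - 4)) =
        4 * (1 + 8 * (2 * s ^ 2 * t ^ 2 - s ^ 2 - w * (α - β))) := by
      linear_combination hc1 - 16 * g6
    linarith
  · have o1 : ¬ Even (r * s * t) := by
      simp only [Int.even_mul]
      rintro ((g | g) | g)
      · exact er g
      · exact eα (q4.2 (q2.1 g))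
      · exact eα (q3.1 g)
    have o2 : ¬ Even (α * β * γ) := by
      simp only [Int.even_mul]
      rintro ((g | g) | g)
      · exact eα g
      · exact eα (q4.2 g)
      · exact nγ g
    have e1 : Even (r * s * t + α * β * γ) := by
      rw [Int.even_add]; exact iff_of_false o1 o2
    obtain ⟨w, hw⟩ := e1
    refine ⟨w - (2 * α + 2 * β + γ) * z, r * s * t - w + (2 * α + 2 * β + γ) * z, 2 * z,
      by linear_combination 4 * hw, by linear_combination -4 * hw, by ring, fun g => o1 ?_⟩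
    have := dvd_add g.1 g.2
    rw [even_iff_two_dvd]
    convert this using 1
    ring

/-- the two factors attached to the point with abscissa four are eight times cubes -/
theorem iso_cube {a b c r s t α β γ x : ℤ} (ha : 0 ≤ a) (hb : 0 ≤ b) (hc : 0 ≤ c) (r0 : 0 ≤ r)
    (s0 : 0 ≤ s) (t0 : 0 ≤ t) (hr : r ^ 2 = a * b + 4) (hs : s ^ 2 = a * c + 4)
    (ht : t ^ 2 = b * c + 4) (h1 : r ^ 2 = x + γ ^ 2) (h2 : s ^ 2 = x + β ^ 2)
    (h3 : t ^ 2 = x + α ^ 2) (h4 : α * β + β * γ + γ * α = 0) :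
    ∃ m : ℤ, (2 * m) ^ 3 + 3 * x * (2 * m) = 2 * ((α + β + γ) * x - α * β * γ) := by
  have ea : a ^ 2 * (t ^ 2 - 4) = (r ^ 2 - 4) * (s ^ 2 - 4) := by rw [hr, hs, ht]; ring
  have eb : b ^ 2 * (s ^ 2 - 4) = (r ^ 2 - 4) * (t ^ 2 - 4) := by rw [hr, hs, ht]; ring
  have ec : c ^ 2 * (r ^ 2 - 4) = (s ^ 2 - 4) * (t ^ 2 - 4) := by rw [hr, hs, ht]; ring
  have two : Two (r * s * t) ((α + β + γ) * x - α * β * γ) x := by
    rcases Int.even_or_odd r with er | or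
    · rcases Int.even_or_odd s with es | os
      · rcases Int.even_or_odd t with et | ot
        · exact iso_caseI ea eb ec h1 h2 h3 h4 er es et
        · have := iso_caseII (a := b) (b := c) (c := a) (r := t) (s := r) (t := s) (α := β)
            (β := γ) (γ := α) (x := x) (by linarith) (by linarith) (by linarith) h3 h1 h2
            (by linarith) ot
          rwa [show t * r * s = r * s * t by ring,
            show (β + γ + α) * x - β * γ * α = (α + β + γ) * x - α * β * γ by ring] at this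
      · have := iso_caseII (a := a) (b := c) (c := b) (r := s) (s := r) (t := t) (α := α)
          (β := γ) (γ := β) (x := x) (by linarith) (by linarith) (by linarith) h2 h1 h3
          (by linarith) os
        rwa [show s * r * t = r * s * t by ring,
          show (α + γ + β) * x - α * γ * β = (α + β + γ) * x - α * β * γ by ring] at this
    · exact iso_caseII ea eb ec h1 h2 h3 h4 or
  obtain ⟨U, V, z, hU, hV, rfl, h2UV⟩ := two
  have hP : (r * s * t) ^ 2 = (4 * z + γ ^ 2) * (4 * z + β ^ 2) * (4 * z + α ^ 2) := by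
    rw [← h1, ← h2, ← h3]; ring
  have hUV : U * V = z ^ 3 := by
    have : (8 * U) * (8 * V) = 64 * z ^ 3 := by
      rw [← hU, ← hV]
      linear_combination hP + (4 * z * (α * β + β * γ + γ * α) - 32 * z ^ 2) * h4
    linarith
  have hsum : 4 * (U + V) = r * s * t := by linarith
  have hcop : IsCoprime U V := by
    refine isCoprime_of_prime_dvd (fun g => h2UV (by simp [g.1, g.2])) (fun l hl g1 g2 => ?_)
    by_cases l2 : l ∣ 2
    · have : (2 : ℤ) ∣ l := (hl.dvd_prime_iff_associated Int.prime_two).1 l2 |>.symm.dvd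
      exact h2UV ⟨this.trans g1, this.trans g2⟩
    obtain ⟨n1, n2, n3⟩ := iso_cop hl l2 (a + b + c).toNat a b c r s t (by omega) ha hb hc r0 s0
      t0 hr hs ht
    have lz : l ∣ 4 * z := (hl.dvd_of_dvd_pow (hUV ▸ g1.mul_right V)).mul_left 4
    have key : ∀ p q : ℤ, p ^ 2 = 4 * z + q ^ 2 → (l ∣ p ↔ l ∣ q) := by
      intro p q e
      constructor
      · intro g
        have : l ∣ q ^ 2 := by
          rw [show q ^ 2 = p ^ 2 - 4 * z by linarith]
          exact dvd_sub (dvd_pow g two_ne_zero) lz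
        exact hl.dvd_of_dvd_pow this
      · intro g
        have : l ∣ p ^ 2 := by rw [e]; exact dvd_add lz (dvd_pow g two_ne_zero)
        exact hl.dvd_of_dvd_pow this
    have k1 := key _ _ h1
    have k2 := key _ _ h2
    have k3 := key _ _ h3
    have m1 : l ∣ γ → l ∣ α ∨ l ∣ β := fun g => hl.dvd_or_dvd (by
      rw [show α * β = γ * -(α + β) by linarith]; exact g.mul_right _)
    have m2 : l ∣ β → l ∣ α ∨ l ∣ γ := fun g => hl.dvd_or_dvd (by
      rw [show α * γ = β * -(α + γ) by linarith]; exact g.mul_right _)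
    have m3 : l ∣ α → l ∣ β ∨ l ∣ γ := fun g => hl.dvd_or_dvd (by
      rw [show β * γ = α * -(β + γ) by linarith]; exact g.mul_right _)
    have lr : l ∣ r * s * t := by rw [← hsum]; exact (dvd_add g1 g2).mul_left 4
    exact iso_p4 k1 k2 k3 m1 m2 m3 n1 n2 n3 ((hl.dvd_or_dvd lr).imp_left hl.dvd_or_dvd)
  obtain ⟨⟨u, rfl⟩, ⟨v, rfl⟩⟩ := Int.eq_pow_of_mul_eq_pow_odd hcop (by decide : Odd 3) hUV
  have huv : u * v = z := by
    have : (u * v) ^ 3 = z ^ 3 := by rw [← hUV]; ring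
    exact (Odd.pow_inj (by decide : Odd 3)).1 this
  subst huv
  exact ⟨v - u, by linear_combination hU - hV⟩

end Pool.Agent.Lib.MP_b2ee0b_nt
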