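import Pool.Agent.Lib.MP_b2ee0b_nt.IsoB

/-! Size consequences of the descent. -/

namespace Pool.Agent.Lib.MP_b2ee0b_nt

/-- normalised data: `α, β, G` positive with `1 / G = 1 / α + 1 / β` -/
theorem iso_norm {a b c : ℤ} (ha : 0 < a) (hab : a < b) (hbc : b < c) (h : T3 a b c) :
    ∃ α β G τ : ℤ, 0 < α ∧ 0 < β ∧ 0 < G ∧ G ^ 2 = a * b + τ ∧ β ^ 2 = a * c + τ ∧
      α ^ 2 = b * c + τ ∧ α * β = G * (α + β) := by
  have key : ∀ α β γ τ : ℤ, 0 ≤ α → γ ^ 2 = a * b + τ → β ^ 2 = a * c + τ → α ^ 2 = b * c + τ →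
      α * β + β * γ + γ * α = 0 → 0 < α ∧ 0 < β ∧ 0 < -γ := by
    intro α β γ τ h0 h1 h2 h3 h4
    have l1 : γ ^ 2 < β ^ 2 := by nlinarith
    have l2 : β ^ 2 < α ^ 2 := by nlinarith
    have l3 := abs_lt_of_sq_lt_sq' l2 h0
    have hα : 0 < α := by omega
    have hβ : 0 < β := by
      by_contra g
      have l4 := abs_lt_of_sq_lt_sq' (a := γ) (b := -β) (by linarith) (by omega)
      nlinarith
    refine ⟨hα, hβ, ?_⟩
    by_contra g
    have : 0 < α * β := by positivity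
    nlinarith
  obtain ⟨α, β, γ, τ, h1, h2, h3, h4⟩ := h.int
  rcases le_total 0 α with g | g
  · obtain ⟨g1, g2, g3⟩ := key α β γ τ g h1 h2 h3 h4
    exact ⟨α, β, -γ, τ, g1, g2, g3, by linarith, h2, h3, by linarith⟩
  · obtain ⟨g1, g2, g3⟩ := key (-α) (-β) (-γ) τ (by omega) (by linarith) (by linarith)
      (by linarith) (by linarith)
    exact ⟨-α, -β, γ, τ, g1, g2, by omega, h1, by linarith, by linarith, by linarith⟩

/-- the integer `k` attached to a point of the isogenous cubic -/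
theorem iso_k {α β G x ρ m : ℤ} (hα : 0 < α) (hβ : 0 < β) (hG : 0 < G) (hlt : β < α)
    (h : α * β = G * (α + β)) (hρ : ρ = x + G ^ 2) (h0 : 0 < ρ)
    (hm : m ^ 3 + 3 * x * m = 2 * ((α + β + -G) * x - α * β * -G)) :
    0 < m - 2 * G ∧ 0 < 2 * (α + β - 4 * G) - 3 * (m - 2 * G) ∧
      ρ * (2 * (α + β - 4 * G) - 3 * (m - 2 * G)) = (m - 2 * G) * (m - 2 * G + 3 * G) ^ 2 := by
  have e : ρ * (2 * (α + β - 4 * G) - 3 * (m - 2 * G)) =
      (m - 2 * G) * (m - 2 * G + 3 * G) ^ 2 := by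
    rw [hρ]; linear_combination -hm - 2 * G * h
  have hN : 0 < α + β - 4 * G := by
    have e2 : (α + β) * (α + β - 4 * G) = (α - β) ^ 2 := by linear_combination 4 * h
    have : 0 < (α - β) ^ 2 := pow_pos (by omega) 2
    by_contra g
    nlinarith
  set k := m - 2 * G
  have hk : 0 < k := by
    by_contra g
    have g1 : 0 < ρ * (2 * (α + β - 4 * G) - 3 * k) := mul_pos h0 (by omega)
    have g2 : k * (k + 3 * G) ^ 2 ≤ 0 := mul_nonpos_of_nonpos_of_nonneg (by omega) (sq_nonneg _)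
    linarith
  refine ⟨hk, ?_, e⟩
  have : 0 < k * (k + 3 * G) ^ 2 := by positivity
  rw [← e] at this
  exact (pos_iff_pos_of_mul_pos this).1 h0

theorem iso_tau_pos {a b c r α β G τ : ℤ} (ha : 0 < a) (hab : a < b) (hbc : b < c) (r0 : 0 ≤ r)
    (hr : r ^ 2 = a * b + 4) (hc : a + b + 2 * r ≤ c) (hα : 0 < α) (hβ : 0 < β) (hG : 0 < G)
    (h1 : G ^ 2 = a * b + τ) (h2 : β ^ 2 = a * c + τ) (h3 : α ^ 2 = b * c + τ)
    (h : α * β = G * (α + β)) : 0 < τ := by
  by_contra g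
  have g1 : c * G ^ 2 ≤ b * β ^ 2 := by rw [h1, h2]; nlinarith
  have g2 : c * G ^ 2 ≤ a * α ^ 2 := by rw [h1, h3]; nlinarith
  have c0 : 0 < c := by omega
  have g3 : c * G ^ 2 < r * (α * β) := by
    apply lt_of_pow_lt_pow_left₀ 2 (by positivity)
    have : 0 < (α * β) ^ 2 := by positivity
    calc (c * G ^ 2) ^ 2 = (c * G ^ 2) * (c * G ^ 2) := by ring
      _ ≤ (b * β ^ 2) * (a * α ^ 2) := by gcongr; exact mul_nonneg (by omega) (sq_nonneg _)
      _ = a * b * (α * β) ^ 2 := by ring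
      _ < (a * b + 4) * (α * β) ^ 2 := by nlinarith
      _ = (r * (α * β)) ^ 2 := by rw [← hr]; ring
  have e : c * (α * β) ^ 2 = c * G ^ 2 * α ^ 2 + c * G ^ 2 * β ^ 2 + 2 * (c * G ^ 2) * (α * β) := by
    linear_combination c * (α * β + G * (α + β)) * h
  have p1 : c * G ^ 2 * α ^ 2 ≤ b * β ^ 2 * α ^ 2 := by gcongr
  have p2 : c * G ^ 2 * β ^ 2 ≤ a * α ^ 2 * β ^ 2 := by gcongr
  have p3 : 2 * (c * G ^ 2) * (α * β) < 2 * (r * (α * β)) * (α * β) := by gcongr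
  have p4 : (a + b + 2 * r) * (α * β) ^ 2 ≤ c * (α * β) ^ 2 := by gcongr
  nlinarith

theorem iso_regular {a b c r α β G τ : ℤ} (ha : 0 < a) (hab : a < b) (r0 : 0 ≤ r)
    (hr : r ^ 2 = a * b + 4) (hc : c = a + b + 2 * r) (hα : 0 < α) (hβ : 0 < β) (hG : 0 < G)
    (h1 : G ^ 2 = a * b + τ) (h2 : β ^ 2 = a * c + τ) (h3 : α ^ 2 = b * c + τ)
    (h : α * β = G * (α + β)) (hτ : 0 < τ) : False := by
  have h5 := iso_five_le (mul_pos ha (by omega)) r0 hr
  have r3 : 3 ≤ r := by nlinarith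
  have g0 : r ≤ G := by
    by_contra g
    have : G ^ 2 ≤ (r - 1) ^ 2 := by gcongr; omega
    nlinarith
  have t4 : 4 ≤ τ := by nlinarith
  have g1 : r * β ≤ G * (a + r) := by
    apply le_of_pow_le_pow_left₀ two_ne_zero (by positivity)
    have e : (a + r) ^ 2 = a * c + 4 := by rw [hc]; linear_combination hr
    rw [mul_pow, mul_pow, e, hr, h1, h2]
    have : 0 ≤ (τ - 4) * (a * (c - b)) := by
      apply mul_nonneg (by omega) (mul_nonneg ha.le (by omega))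
    nlinarith
  have g2 : r * α ≤ G * (b + r) := by
    apply le_of_pow_le_pow_left₀ two_ne_zero (mul_nonneg hG.le (by omega))
    have e : (b + r) ^ 2 = b * c + 4 := by rw [hc]; linear_combination hr
    rw [mul_pow, mul_pow, e, hr, h1, h3]
    have : 0 ≤ (τ - 4) * (b * (c - a)) := by
      apply mul_nonneg (by omega) (mul_nonneg (by omega) (by omega))
    nlinarith
  have p1 : r * β * (α * (b + r)) ≤ G * (a + r) * (α * (b + r)) := by
    apply mul_le_mul_of_nonneg_right g1 (mul_nonneg hα.le (by omega))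
  have p2 : r * α * (β * (a + r)) ≤ G * (b + r) * (β * (a + r)) := by
    apply mul_le_mul_of_nonneg_right g2 (by positivity)
  have e : G * (a + r) * (α * (b + r)) + G * (b + r) * (β * (a + r)) =
      α * β * ((a + r) * (b + r)) := by rw [h]; ring
  have e2 : r * β * (α * (b + r)) + r * α * (β * (a + r)) =
      α * β * ((a + r) * (b + r)) + 4 * (α * β) := by linear_combination (α * β) * hr
  have : 0 < α * β := by positivity
  linarith

/-- everything that is known about a sorted positive counterexample -/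
structure Dat (a b c r s t α β G τ k d : ℤ) : Prop where
  ha : 0 < a
  hab : a < b
  hbc : b < c
  r0 : 0 ≤ r
  s0 : 0 ≤ s
  t0 : 0 ≤ t
  hr : r ^ 2 = a * b + 4
  hs : s ^ 2 = a * c + 4
  ht : t ^ 2 = b * c + 4
  hα : 0 < α
  hβ : 0 < β
  hG : 0 < G
  h1 : G ^ 2 = a * b + τ
  h2 : β ^ 2 = a * c + τ
  h3 : α ^ 2 = b * c + τ
  h4 : α * β = G * (α + β)
  hτ : 0 < τ
  hk : 2 ≤ k
  hL : 0 < 2 * (α + β - 4 * G) - 3 * k
  ek : r ^ 2 * (2 * (α + β - 4 * G) - 3 * k) = k * (k + 3 * G) ^ 2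
  hd : 0 < d
  qa : ∃ x, 0 ≤ x ∧ x ^ 2 = a * d + 4
  qb : ∃ y, 0 ≤ y ∧ y ^ 2 = b * d + 4
  hc : a * b * d + a + b + d < c

lemma iso_root {n : ℤ} (h : IsSquare n) : ∃ r : ℤ, 0 ≤ r ∧ r ^ 2 = n := by
  obtain ⟨r, hr⟩ := h
  exact ⟨|r|, abs_nonneg r, by rw [sq_abs, hr]; ring⟩

theorem iso_dat {a b c : ℤ} (ha : 0 < a) (hab : a < b) (hbc : b < c) (q1 : IsSquare (a * b + 4))
    (q2 : IsSquare (a * c + 4)) (q3 : IsSquare (b * c + 4)) (h : T3 a b c) :
    ∃ r s t α β G τ k d, Dat a b c r s t α β G τ k d := by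
  obtain ⟨r, r0, hr⟩ := iso_root q1
  obtain ⟨s, s0, hs⟩ := iso_root q2
  obtain ⟨t, t0, ht⟩ := iso_root q3
  obtain ⟨α, β, G, τ, hα, hβ, hG, h1, h2, h3, h4⟩ := iso_norm ha hab hbc h
  obtain ⟨d, x, y, d0, x0, y0, qx, qy, -, -, hlt, hc, hreg⟩ :=
    iso_down ha (by omega) (by omega) hbc r0 s0 t0 hr hs ht
  have hτ := iso_tau_pos ha hab hbc r0 hr hc hα hβ hG h1 h2 h3 h4
  have hd : 0 < d := by
    rcases eq_or_lt_of_le d0 with e | e
    · exact (iso_regular ha hab r0 hr (hreg e.symm) hα hβ hG h1 h2 h3 h4 hτ).elim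
    · exact e
  obtain ⟨m, hm⟩ := iso_cube (x := 4 - τ) (α := α) (β := β) (γ := -G) ha.le (by omega) (by omega)
    r0 s0 t0 hr hs ht (by linarith) (by linarith) (by linarith) (by linarith)
  have hlt' : β < α := by
    apply lt_of_pow_lt_pow_left₀ 2 hα.le
    nlinarith
  have hab0 : 0 < a * b := mul_pos ha (by omega)
  obtain ⟨k1, k2, k3⟩ := iso_k (ρ := r ^ 2) hα hβ hG hlt' h4 (by linarith) (by linarith) hm
  exact ⟨r, s, t, α, β, G, τ, 2 * m - 2 * G, d, ha, hab, hbc, r0, s0, t0, hr, hs, ht, hα, hβ, hG,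
    h1, h2, h3, h4, hτ, by omega, k2, k3, hd, ⟨x, x0, qx⟩, ⟨y, y0, qy⟩, hlt⟩

namespace Dat

variable {a b c r s t α β G τ k d : ℤ} (D : Dat a b c r s t α β G τ k d)
include D

theorem main : 9 * (α * β) ^ 2 * (α + β) < r ^ 2 * (c * (b - a)) ^ 2 := by
  have hα := D.hα
  have hβ := D.hβ
  have hG := D.hG
  have hk := D.hk
  have e1 : 9 * G ^ 2 < r ^ 2 * (α + β - 4 * G) := by
    have g1 : 2 * (3 * G) ^ 2 < k * (k + 3 * G) ^ 2 := by
      have : (3 * G) ^ 2 < (k + 3 * G) ^ 2 := by gcongr; omega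
      nlinarith
    have g2 : 0 ≤ r ^ 2 * k := by positivity
    nlinarith [D.ek]
  have e2 : (α + β) * (α + β - 4 * G) = (α - β) ^ 2 := by linear_combination 4 * D.h4
  have e3 : c * (b - a) = (α - β) * (α + β) := by linear_combination D.h2 - D.h3
  have e4 : 9 * G ^ 2 * (α + β) ^ 3 < r ^ 2 * (α + β - 4 * G) * (α + β) ^ 3 := by gcongr
  calc 9 * (α * β) ^ 2 * (α + β) = 9 * G ^ 2 * (α + β) ^ 3 := by rw [D.h4]; ring
    _ < _ := e4
    _ = r ^ 2 * ((α + β) * (α + β - 4 * G)) * (α + β) ^ 2 := by ring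
    _ = _ := by rw [e2, e3]; ring

theorem six : 6 * b < c := by
  obtain ⟨x, x0, hx⟩ := D.qa
  have := iso_five_le (mul_pos D.ha D.hd) x0 hx
  have h1 := D.ha
  have h2 := D.hab
  have h3 := D.hd
  nlinarith [D.hc]

theorem size : 16000 * a ^ 4 * b ^ 11 * c ^ 3 < (a * b + 4) ^ 6 * (b - a) ^ 12 := by
  have hα := D.hα
  have hβ := D.hβ
  have ha := D.ha
  have hb : 0 < b := by linarith [D.hab]
  have hc : 0 < c := by linarith [D.hbc]
  have h6 := D.six
  have e1 : 9 * α ^ 3 * β ^ 2 < r ^ 2 * (c * (b - a)) ^ 2 := by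
    have : 0 < (α * β) ^ 2 * β := by positivity
    nlinarith [D.main]
  have e2 : a * (c - b) * α ≤ 2 * β ^ 3 := by
    have g1 : a * (c - b) * (α + β) ^ 2 = β ^ 3 * (2 * α + β) := by
      linear_combination (α + β) ^ 2 * (D.h1 - D.h2) + (α * β + G * (α + β)) * D.h4
    have g2 : a * (c - b) * α * (α + β) ^ 2 ≤ 2 * β ^ 3 * (α + β) ^ 2 := by
      have : 0 ≤ β ^ 3 * (3 * α * β + 2 * β ^ 2) := by positivity
      nlinarith
    exact le_of_mul_le_mul_right g2 (by positivity)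
  have e3 : 5 * (a * c * α) ≤ 12 * β ^ 3 := by
    have : 0 ≤ a * (c - 6 * b) * α := by
      apply mul_nonneg (mul_nonneg ha.le (by omega)) hα.le
    nlinarith
  have e4 : b * c ≤ α ^ 2 := by linarith [D.h3, D.hτ]
  have e5 : (9 * α ^ 3 * β ^ 2) ^ 6 < (r ^ 2 * (c * (b - a)) ^ 2) ^ 6 := by gcongr
  have e6 : (5 * (a * c * α)) ^ 4 ≤ (12 * β ^ 3) ^ 4 := by gcongr
  have e7 : (b * c) ^ 11 ≤ (α ^ 2) ^ 11 := by gcongr
  have e8 : 16000 * a ^ 4 * b ^ 11 * c ^ 3 * c ^ 12 <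
      (a * b + 4) ^ 6 * (b - a) ^ 12 * c ^ 12 := by
    calc 16000 * a ^ 4 * b ^ 11 * c ^ 3 * c ^ 12 = 16000 * (a * c) ^ 4 * (b * c) ^ 11 := by ring
      _ ≤ 16000 * (a * c) ^ 4 * (α ^ 2) ^ 11 := by gcongr
      _ ≤ (9 * α ^ 3 * β ^ 2) ^ 6 := by
        have g1 : (5 * (a * c * α)) ^ 4 * α ^ 18 ≤ (12 * β ^ 3) ^ 4 * α ^ 18 := by gcongr
        have g2 : 0 ≤ β ^ 12 * α ^ 18 := by positivity
        nlinarith
      _ < _ := e5
      _ = _ := by rw [D.hr]; ring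
  exact lt_of_mul_lt_mul_right e8 (by positivity)

theorem ratio : 6 * a < b := by
  by_contra hle
  push Not at hle
  have hα := D.hα
  have hβ := D.hβ
  have ha := D.ha
  have hab := D.hab
  have hb : 0 < b := by omega
  have hc : 0 < c := by linarith [D.hbc]
  have hd := D.hd
  have hr := D.hr
  have r0 := D.r0
  obtain ⟨x, x0, hx⟩ := D.qa
  obtain ⟨y, y0, hy⟩ := D.qb
  have ar : a < r := by nlinarith
  have d0 : a + b - 2 * r ≤ d := by
    rcases lt_trichotomy d b with g | g | g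
    · obtain ⟨e, u, v, e0, u0, v0, hu, hv, -, -, hlt, -, hreg⟩ :=
        iso_down ha hd hab g x0 r0 y0 hx hr (by linarith)
      rcases eq_or_lt_of_le e0 with e1 | e1
      · have e2 := hreg e1.symm
        have e3 : r ^ 2 = (a + x) ^ 2 := by rw [hr, e2]; linear_combination -hx
        have e4 : r = a + x := (pow_left_inj₀ r0 (by omega) two_ne_zero).1 e3
        omega
      · have := iso_five_le (mul_pos hd e1) v0 hv
        nlinarith
    · omega
    · omega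
  have e1 : 9 * (a * b) * α < r ^ 2 * (b - a) ^ 2 := by
    have g1 : b * c ≤ α ^ 2 := by linarith [D.h3, D.hτ]
    have g2 : a * c ≤ β ^ 2 := by linarith [D.h2, D.hτ]
    have g3 : 9 * (a * b) * α * c ^ 2 < r ^ 2 * (b - a) ^ 2 * c ^ 2 := by
      calc 9 * (a * b) * α * c ^ 2 = 9 * ((b * c) * (a * c)) * α := by ring
        _ ≤ 9 * (α ^ 2 * β ^ 2) * (α + β) := by gcongr; omega
        _ = 9 * (α * β) ^ 2 * (α + β) := by ring
        _ < _ := D.main
        _ = _ := by ring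
    exact lt_of_mul_lt_mul_right g3 (by positivity)
  have e2 : 81 * (a * b) ^ 2 * (a * b ^ 2 * d) < (a * b + 4) ^ 2 * (b - a) ^ 4 := by
    have g1 : a * b ^ 2 * d ≤ α ^ 2 := by nlinarith [D.h3, D.hτ, D.hc]
    calc 81 * (a * b) ^ 2 * (a * b ^ 2 * d) ≤ 81 * (a * b) ^ 2 * α ^ 2 := by gcongr
      _ = (9 * (a * b) * α) ^ 2 := by ring
      _ < (r ^ 2 * (b - a) ^ 2) ^ 2 := by gcongr
      _ = _ := by rw [hr]; ring
  have h5 := iso_five_le (mul_pos ha hb) r0 hr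
  by_cases h12 : a * b < 12
  · have : r = 3 := by
      have : 3 ≤ r := by nlinarith
      have : r < 4 := by nlinarith
      omega
    subst this
    have : a ≤ 2 := by nlinarith
    interval_cases a
    · have : b = 5 := by omega
      subst this
      omega
    · omega
  push Not at h12
  have e3 : 45 * (a * b ^ 2 * d) < (b - a) ^ 4 := by
    have g1 : 9 * (a * b + 4) ^ 2 ≤ 16 * (a * b) ^ 2 := by nlinarith
    have g2 : 9 * (a * b + 4) ^ 2 * (b - a) ^ 4 ≤ 16 * (a * b) ^ 2 * (b - a) ^ 4 := by gcongr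
    have g3 : 0 < (a * b) ^ 2 * (a * b ^ 2 * d) := by positivity
    have g4 : (a * b) ^ 2 * (45 * (a * b ^ 2 * d)) < (a * b) ^ 2 * (b - a) ^ 4 := by nlinarith
    exact lt_of_mul_lt_mul_left g4 (by positivity)
  have h25 : 6 * (b - a) ^ 2 ≤ 25 * (a * b) := by nlinarith
  by_cases h6 : b - a < 6
  · have g1 : (b - a) ^ 4 ≤ 5 ^ 4 := by gcongr; omega
    have g2 : 4 ≤ b := by nlinarith
    have g3 : 12 * 4 * 1 ≤ a * b * b * d := by gcongr; omega
    nlinarith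
  · have g0 : 6 ^ 2 ≤ (b - a) ^ 2 := by gcongr; omega
    have g1 : 2 * r ≤ a + b := by
      apply le_of_pow_le_pow_left₀ two_ne_zero (by omega)
      nlinarith
    have g2 : (b - a) ^ 2 ≤ 8 * b * d := by
      have p1 : (a + b - 2 * r) * (a + b + 2 * r) ≤ d * (4 * b) := by gcongr; omega
      nlinarith
    have g3 : 45 * (a * b) * (b - a) ^ 2 ≤ 45 * (a * b) * (8 * b * d) := by gcongr
    have g4 : 6 * (b - a) ^ 2 * (b - a) ^ 2 ≤ 25 * (a * b) * (b - a) ^ 2 := by gcongr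
    have g5 : 0 < a * b * (b - a) ^ 2 := by positivity
    nlinarith

end Dat

end Pool.Agent.Lib.MP_b2ee0b_nt
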