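import Pool.Agent.Lib.MP_b2ee0b_nt.IsoC

/-! The point with abscissa zero: valuations and the gap argument. -/

namespace Pool.Agent.Lib.MP_b2ee0b_nt

theorem Dat.gap {a b c r s t α β G τ k d : ℤ} (D : Dat a b c r s t α β G τ k d) {m : ℤ}
    (hm : m ^ 3 + 3 * (-τ) * m = 2 * ((α + β + -G) * (-τ) - α * β * -G)) : False := by
  have hα := D.hα
  have hβ := D.hβ
  have hG := D.hG
  have ha := D.ha
  have hab := D.hab
  have hbc := D.hbc
  have hb : 0 < b := by omega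
  have hc : 0 < c := by omega
  have hlt : β < α := by
    apply lt_of_pow_lt_pow_left₀ 2 hα.le
    nlinarith [D.h2, D.h3]
  have hab0 : 0 < a * b := by positivity
  obtain ⟨k1, k2, k3⟩ := iso_k (ρ := a * b) hα hβ hG hlt D.h4 (by linarith [D.h1]) hab0 hm
  set j := m - 2 * G
  set N := α + β - 4 * G with hN
  have ek := D.ek
  have hL := D.hL
  have hk := D.hk
  rw [D.hr, ← hN] at ek
  rw [← hN] at hL
  have hjk : j < k := by
    by_contra g
    push Not at g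
    have g1 : k * (k + 3 * G) ^ 2 ≤ j * (j + 3 * G) ^ 2 := by gcongr
    have g2 : a * b * (2 * N - 3 * j) ≤ a * b * (2 * N - 3 * k) := by gcongr
    nlinarith
  have e1 : 9 * G ^ 2 < 8 * N := by
    have g1 : (j + 1) * (j + 3 * G) ^ 2 ≤ k * (k + 3 * G) ^ 2 := by gcongr; omega
    have g2 : (a * b + 4) * (2 * N - 3 * k) ≤ (a * b + 4) * (2 * N - 3 * j) := by gcongr
    have g3 : (3 * G) ^ 2 ≤ (j + 3 * G) ^ 2 := by gcongr; omega
    nlinarith
  have e2 : (α + β) * N = (α - β) ^ 2 := by rw [hN]; linear_combination 4 * D.h4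
  have e3 : 9 * β ^ 2 < 8 * α := by
    have g1 : 9 * G ^ 2 * (α + β) ^ 2 < 8 * N * (α + β) ^ 2 := by gcongr
    have g2 : 9 * β ^ 2 * α ^ 2 < 8 * α * α ^ 2 := by
      calc 9 * β ^ 2 * α ^ 2 = 9 * (α * β) ^ 2 := by ring
        _ = 9 * G ^ 2 * (α + β) ^ 2 := by rw [D.h4]; ring
        _ < _ := g1
        _ = 8 * ((α + β) * N) * (α + β) := by ring
        _ = 8 * ((α ^ 2 - β ^ 2) * (α - β)) := by rw [e2]; ring
        _ ≤ 8 * (α ^ 2 * α) := by
          have p1 : α ^ 2 - β ^ 2 ≤ α ^ 2 := by nlinarith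
          have p2 := mul_le_mul p1 (show α - β ≤ α by omega) (by omega) (by positivity)
          linarith
        _ = _ := by ring
    exact lt_of_mul_lt_mul_right g2 (by positivity)
  have e4 : (9 * β ^ 2) ^ 2 < (8 * α) ^ 2 := by gcongr
  have e5 : c < β ^ 2 := by nlinarith [D.h2, D.hτ]
  have e6 : α ^ 2 = β ^ 2 + c * (b - a) := by linear_combination D.h3 - D.h2
  have e7 : c * (b - a) ≤ β ^ 2 * β ^ 2 := by gcongr; omega
  have e8 : 4 ≤ β ^ 2 := by omega
  nlinarith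

lemma iso_cube_of_val {n : ℤ} (hn : n ≠ 0) (h : ∀ p : ℕ, p.Prime → 3 ∣ padicValInt p n) :
    ∃ u : ℤ, n = u ^ 3 := by
  have hN : n.natAbs ≠ 0 := Int.natAbs_ne_zero.2 hn
  have e : (∏ p ∈ n.natAbs.primeFactors, p ^ (n.natAbs.factorization p / 3)) ^ 3 = n.natAbs := by
    conv_rhs => rw [← Nat.prod_factorization_pow_eq_self hN]
    rw [← Finset.prod_pow, Finsupp.prod, Nat.support_factorization]
    refine Finset.prod_congr rfl (fun p hp => ?_)
    have hp' := Nat.prime_of_mem_primeFactors hp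
    rw [← pow_mul, Nat.div_mul_cancel]
    rw [Nat.factorization_def _ hp']
    exact h p hp'
  obtain ⟨u, hu⟩ : ∃ u : ℕ, u ^ 3 = n.natAbs := ⟨_, e⟩
  rcases Int.natAbs_eq n with g | g
  · exact ⟨u, by rw [g, ← hu]; push_cast; ring⟩
  · exact ⟨-u, by rw [g, ← hu]; push_cast; ring⟩

section val

variable {l : ℕ} [Fact l.Prime]

lemma iso_dvd {x : ℤ} (hx : x ≠ 0) (n : ℕ) : (l : ℤ) ^ n ∣ x ↔ n ≤ padicValInt l x := by
  rw [padicValInt_dvd_iff]; simp [hx]

lemma iso_min {x y z : ℤ} (hx : x ≠ 0) (hy : y ≠ 0) (hz : z ≠ 0) (h : z = x + y ∨ z = x - y) :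
    min (padicValInt l x) (padicValInt l y) ≤ padicValInt l z := by
  rw [← iso_dvd hz]
  have h1 := (iso_dvd (l := l) hx _).2 (min_le_left (padicValInt l x) (padicValInt l y))
  have h2 := (iso_dvd (l := l) hy _).2 (min_le_right (padicValInt l x) (padicValInt l y))
  rcases h with h | h <;> rw [h]
  · exact dvd_add h1 h2
  · exact dvd_sub h1 h2

/-- among three numbers the least is attained twice -/
def Tri (i j k : ℕ) : Prop := (i = j ∧ i ≤ k) ∨ (i = k ∧ i ≤ j) ∨ (j = k ∧ j ≤ i)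

lemma iso_tri {x y z : ℤ} (hx : x ≠ 0) (hy : y ≠ 0) (hz : z ≠ 0) (h : z = x + y) :
    Tri (padicValInt l x) (padicValInt l y) (padicValInt l z) := by
  have h1 := iso_min (l := l) hx hy hz (Or.inl h)
  have h2 := iso_min (l := l) hz hx hy (Or.inr (by linarith))
  have h3 := iso_min (l := l) hz hy hx (Or.inr (by linarith))
  unfold Tri
  omega

omit [Fact l.Prime] in
lemma iso_vneg (x : ℤ) : padicValInt l (-x) = padicValInt l x := by simp [padicValInt]

lemma iso_vsq {x : ℤ} (hx : x ≠ 0) : padicValInt l (x ^ 2) = 2 * padicValInt l x := by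
  rw [sq, padicValInt.mul hx hx]; ring

end val

lemma iso_oddpart {x : ℤ} (hx : x ≠ 0) : ∃ y, x = 2 ^ padicValInt 2 x * y ∧ Odd y := by
  obtain ⟨y, hy⟩ := (iso_dvd (l := 2) hx _).2 (le_refl (padicValInt 2 x))
  refine ⟨y, by exact_mod_cast hy, Int.not_even_iff_odd.1 ?_⟩
  rintro ⟨w, rfl⟩
  have : ((2 : ℕ) : ℤ) ^ (padicValInt 2 x + 1) ∣ x := ⟨w, by
    conv_lhs => rw [hy]
    push_cast; ring⟩
  have := (iso_dvd (l := 2) hx _).1 this
  omega

lemma iso_two_lt {x y z : ℤ} (hx : x ≠ 0) (hy : y ≠ 0) (hz : z ≠ 0) (h : z = x + y)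
    (e : padicValInt 2 x = padicValInt 2 y) : padicValInt 2 x < padicValInt 2 z := by
  obtain ⟨u, hu, ⟨i, rfl⟩⟩ := iso_oddpart hx
  obtain ⟨v, hv, ⟨j, rfl⟩⟩ := iso_oddpart hy
  rw [← e] at hv
  refine (iso_dvd (l := 2) hz (padicValInt 2 x + 1)).1 ⟨i + j + 1, ?_⟩
  rw [h]
  conv_lhs => rw [hu, hv]
  push_cast; ring

lemma iso_arith {va vb vc w x y z p q u e : ℕ} (s1 : vb ≤ va) (s2 : vc ≤ vb)
    (h1 : 2 * (e + va + vb + vc) < 3 * w) (h2 : ¬ 3 ∣ e + va + vb + vc)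
    (T1 : Tri (vb + vc) w (2 * x)) (T2 : Tri (va + vc) w (2 * y)) (T3 : Tri (va + vb) w (2 * z))
    (T4 : y + z = x + p) (T4' : Tri y z p) (T5 : Tri y z q) (T6 : Tri q (e + z) p)
    (T7 : va + u = p + q) (T8 : Tri vb vc u)
    (he : e = 0 ∨ ((y = z → y < p) ∧ (vb = vc → vb < u))) :
    vb = vc ∧ x = vc ∧ vc < va ∧ vc < u ∧ 2 * vc + 3 ≤ va + u := by
  unfold Tri at *
  have a1 : 2 * x = vb + vc := by omega
  have a2 : x ≤ y := by omega
  have a3 : x ≤ z := by omega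
  have a4 : y = z := by omega
  subst a4
  have a5 : vb = vc := by omega
  subst a5
  have a6 : x = vb := by omega
  subst a6
  omega

theorem iso_struct {l : ℕ} [Fact l.Prime] {a b c α β γ τ : ℤ} (ha : a ≠ 0) (hb : b ≠ 0)
    (hc : c ≠ 0) (hbc : b ≠ c) (hα : α ≠ 0) (hβ : β ≠ 0) (hγ : γ ≠ 0) (hτ : τ ≠ 0)
    (h1 : γ ^ 2 = a * b + τ) (h2 : β ^ 2 = a * c + τ) (h3 : α ^ 2 = b * c + τ)
    (h4 : α * β + β * γ + γ * α = 0) (s1 : padicValInt l b ≤ padicValInt l a)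
    (s2 : padicValInt l c ≤ padicValInt l b)
    (g1 : 2 * (padicValInt l 2 + padicValInt l a + padicValInt l b + padicValInt l c) <
      3 * padicValInt l τ)
    (g2 : ¬ 3 ∣ padicValInt l 2 + padicValInt l a + padicValInt l b + padicValInt l c) :
    padicValInt l b = padicValInt l c ∧ padicValInt l α = padicValInt l c ∧
      padicValInt l c < padicValInt l a ∧ padicValInt l c < padicValInt l (b - c) ∧
      2 * padicValInt l c + 3 ≤ padicValInt l a + padicValInt l (b - c) := by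
  have hu : b - c ≠ 0 := sub_ne_zero.2 hbc
  have e7 : a * (b - c) = -((β + γ) * (β - γ)) := by linear_combination h2 - h1
  have n0 : (β + γ) * (β - γ) ≠ 0 := fun g => mul_ne_zero ha hu (by rw [e7, g, neg_zero])
  have hp : β + γ ≠ 0 := left_ne_zero_of_mul n0
  have hq : β - γ ≠ 0 := right_ne_zero_of_mul n0
  have T1 := iso_tri (l := l) (mul_ne_zero hb hc) hτ (pow_ne_zero 2 hα) h3
  have T2 := iso_tri (l := l) (mul_ne_zero ha hc) hτ (pow_ne_zero 2 hβ) h2
  have T3 := iso_tri (l := l) (mul_ne_zero ha hb) hτ (pow_ne_zero 2 hγ) h1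
  rw [padicValInt.mul hb hc, iso_vsq hα] at T1
  rw [padicValInt.mul ha hc, iso_vsq hβ] at T2
  rw [padicValInt.mul ha hb, iso_vsq hγ] at T3
  have T4 : padicValInt l β + padicValInt l γ = padicValInt l α + padicValInt l (β + γ) := by
    rw [← padicValInt.mul hβ hγ, ← padicValInt.mul hα hp, ← iso_vneg (α * (β + γ))]
    congr 1
    linarith
  have T4' := iso_tri (l := l) hβ hγ hp rfl
  have T5 := iso_tri (l := l) hβ (neg_ne_zero.2 hγ) hq (by ring)
  rw [iso_vneg] at T5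
  have T6 := iso_tri (l := l) hq (mul_ne_zero two_ne_zero hγ) hp (by ring)
  rw [padicValInt.mul two_ne_zero hγ] at T6
  have T7 : padicValInt l a + padicValInt l (b - c) =
      padicValInt l (β + γ) + padicValInt l (β - γ) := by
    rw [← padicValInt.mul ha hu, ← padicValInt.mul hp hq, e7, iso_vneg]
  have T8 := iso_tri (l := l) hb (neg_ne_zero.2 hc) hu (by ring)
  rw [iso_vneg] at T8
  refine iso_arith s1 s2 g1 g2 T1 T2 T3 T4 T4' T5 T6 T7 T8 ?_
  by_cases e : l = 2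
  · subst e
    exact Or.inr ⟨iso_two_lt hβ hγ hp rfl, fun g =>
      iso_two_lt hb (neg_ne_zero.2 hc) hu (by ring) (by rw [iso_vneg, g])⟩
  · left
    apply padicValInt.eq_zero_of_not_dvd
    intro g
    have g' : l ∣ 2 := by exact_mod_cast g
    exact e ((Nat.prime_dvd_prime_iff_eq Fact.out Nat.prime_two).1 g')

/-- at the prime two the common valuation is at least three -/
theorem iso_three {a b c α τ : ℤ} (ha : a ≠ 0) (hb : b ≠ 0) (hc : c ≠ 0) (hα : α ≠ 0)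
    (hτ : τ ≠ 0) (q1 : IsSquare (a * b + 4)) (q3 : IsSquare (b * c + 4)) (h3 : α ^ 2 = b * c + τ)
    (g1 : 2 * (padicValInt 2 2 + padicValInt 2 a + padicValInt 2 b + padicValInt 2 c) <
      3 * padicValInt 2 τ)
    (e1 : padicValInt 2 b = padicValInt 2 c) (e2 : padicValInt 2 α = padicValInt 2 c)
    (e3 : padicValInt 2 c < padicValInt 2 a) : 3 ≤ padicValInt 2 c := by
  have e0 : padicValInt 2 2 = 1 := padicValInt.self (p := 2) (by norm_num)
  obtain ⟨r, -, hr⟩ := iso_root q1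
  obtain ⟨t, -, ht⟩ := iso_root q3
  obtain ⟨y, hy, ⟨y1, oy⟩⟩ := iso_oddpart hb
  obtain ⟨z, hz, ⟨z1, oz⟩⟩ := iso_oddpart hc
  obtain ⟨x, hx, ox⟩ := iso_oddpart hα
  obtain ⟨x1, ox⟩ := iso_odd_sq ox
  rw [e1] at hy
  rw [e2] at hx
  have ev : ∀ m n : ℤ, m ^ 2 = 2 * n → ∃ k, m = 2 * k := fun m n h =>
    Int.prime_two.dvd_of_dvd_pow (n := 2) ⟨n, h⟩
  by_contra g
  push Not at g
  generalize padicValInt 2 c = i at *
  interval_cases i
  · have ot : Odd t := by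
      rw [← Int.odd_pow' two_ne_zero, ht, hy, hz, oy, oz]
      exact ⟨2 * y1 * z1 + y1 + z1 + 2, by ring⟩
    obtain ⟨t1, ot⟩ := iso_odd_sq ot
    have w2 : padicValInt 2 τ < 3 := by
      by_contra g'
      obtain ⟨k, hk⟩ := (iso_dvd (l := 2) hτ 3).2 (by omega)
      push_cast at hk
      rw [hx] at h3
      have : 8 * x1 + 1 = 8 * t1 + 1 - 4 + 8 * k := by linear_combination h3 - ox + ot - ht + hk
      omega
    obtain ⟨a1, ha1⟩ := (iso_dvd (l := 2) ha 1).2 (by omega)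
    push_cast at ha1
    obtain ⟨r1, rfl⟩ := ev r (a1 * b + 2) (by rw [hr, ha1]; ring)
    have : ((2 : ℕ) : ℤ) ^ 2 ∣ a := by
      have e : a1 * (2 * y1 + 1) = 2 * (r1 ^ 2 - 1) := by
        have : 2 * (a1 * (2 * y1 + 1)) = 2 * (2 * (r1 ^ 2 - 1)) := by
          rw [ha1, hy, oy] at hr; linear_combination -hr
        linarith
      exact ⟨r1 ^ 2 - 1 - a1 * y1, by rw [ha1]; push_cast; linear_combination 2 * e⟩
    have := (iso_dvd (l := 2) ha 2).1 this
    omega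
  · obtain ⟨t1, rfl⟩ := ev t (2 * (y * z) + 2) (by rw [ht, hy, hz]; ring)
    have e : t1 ^ 2 = y * z + 1 := by
      have : 4 * t1 ^ 2 = 4 * (y * z + 1) := by rw [hy, hz] at ht; linear_combination ht
      linarith
    obtain ⟨t2, rfl⟩ := ev t1 (2 * y1 * z1 + y1 + z1 + 1) (by rw [e, oy, oz]; ring)
    have w3 : padicValInt 2 τ < 4 := by
      by_contra g'
      obtain ⟨k, hk⟩ := (iso_dvd (l := 2) hτ 4).2 (by omega)
      push_cast at hk
      rw [hx] at h3
      have : 4 * (8 * x1 + 1) = 16 * t2 ^ 2 - 4 + 16 * k := by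
        linear_combination h3 - 4 * ox - ht + hk
      omega
    omega
  · obtain ⟨t1, rfl⟩ := ev t (8 * (y * z) + 2) (by rw [ht, hy, hz]; ring)
    have e : t1 ^ 2 = 4 * (y * z) + 1 := by
      have : 4 * t1 ^ 2 = 4 * (4 * (y * z) + 1) := by rw [hy, hz] at ht; linear_combination ht
      linarith
    have ot : Odd t1 := by
      rw [← Int.odd_pow' two_ne_zero, e]
      exact ⟨2 * (y * z), by ring⟩
    obtain ⟨t2, ot⟩ := iso_odd_sq ot
    have : 8 * t2 + 1 = 4 * (2 * (2 * y1 * z1 + y1 + z1) + 1) + 1 := by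
      rw [← ot, e, oy, oz]; ring
    omega

/-- the prime `l` is bad for the ordering `x, y, z`; `g` is the common divisor -/
def Bad (g : ℤ) (l : ℕ) (x y z : ℤ) : Prop :=
  (l = 2 → 8 ∣ g) ∧ g * l ∣ x ∧ g * l ∣ y - z ∧ g ^ 2 * l ^ 3 ∣ x * (y - z)

theorem iso_bad {l : ℕ} [Fact l.Prime] {g a b c α β γ τ : ℤ} (ha : a ≠ 0) (hb : b ≠ 0)
    (hc : c ≠ 0) (hbc : b ≠ c) (hα : α ≠ 0) (hβ : β ≠ 0) (hγ : γ ≠ 0) (hτ : τ ≠ 0)
    (hg : ∀ n : ℤ, n ∣ g ↔ n ∣ a ∧ n ∣ b ∧ n ∣ c)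
    (q1 : IsSquare (a * b + 4)) (q3 : IsSquare (b * c + 4))
    (h1 : γ ^ 2 = a * b + τ) (h2 : β ^ 2 = a * c + τ) (h3 : α ^ 2 = b * c + τ)
    (h4 : α * β + β * γ + γ * α = 0) (s1 : padicValInt l b ≤ padicValInt l a)
    (s2 : padicValInt l c ≤ padicValInt l b)
    (g1 : 2 * (padicValInt l 2 + padicValInt l a + padicValInt l b + padicValInt l c) <
      3 * padicValInt l τ)
    (g2 : ¬ 3 ∣ padicValInt l 2 + padicValInt l a + padicValInt l b + padicValInt l c) :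
    Bad g l a b c := by
  obtain ⟨e1, e2, e3, e4, e5⟩ := iso_struct ha hb hc hbc hα hβ hγ hτ h1 h2 h3 h4 s1 s2 g1 g2
  obtain ⟨⟨a', ha'⟩, d2, d3⟩ := (hg g).1 dvd_rfl
  obtain ⟨u', hu'⟩ := dvd_sub d2 d3
  have hu : b - c ≠ 0 := sub_ne_zero.2 hbc
  have g0 : g ≠ 0 := left_ne_zero_of_mul (ha' ▸ ha)
  have a0 : a' ≠ 0 := right_ne_zero_of_mul (ha' ▸ ha)
  have u0 : u' ≠ 0 := right_ne_zero_of_mul (hu' ▸ hu)
  have v1 : padicValInt l g ≤ padicValInt l c :=
    (iso_dvd hc _).1 (((iso_dvd g0 _).2 le_rfl).trans d3)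
  have v2 : padicValInt l a = padicValInt l g + padicValInt l a' := by
    rw [← padicValInt.mul g0 a0, ← ha']
  have v3 : padicValInt l (b - c) = padicValInt l g + padicValInt l u' := by
    rw [← padicValInt.mul g0 u0, ← hu']
  refine ⟨fun e => ?_, ?_, ?_, ?_⟩
  · subst e
    have := iso_three ha hb hc hα hτ q1 q3 h3 g1 e1 e2 e3
    exact (hg 8).2 ⟨(iso_dvd (l := 2) ha 3).2 (by omega), (iso_dvd (l := 2) hb 3).2 (by omega),
      (iso_dvd (l := 2) hc 3).2 this⟩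
  · rw [ha']
    exact mul_dvd_mul_left g (by simpa using (iso_dvd (l := l) a0 1).2 (by omega))
  · rw [hu']
    exact mul_dvd_mul_left g (by simpa using (iso_dvd (l := l) u0 1).2 (by omega))
  · rw [hu', ha', show g * a' * (g * u') = g ^ 2 * (a' * u') by ring]
    refine mul_dvd_mul_left _ ((iso_dvd (mul_ne_zero a0 u0) 3).2 ?_)
    rw [padicValInt.mul a0 u0]
    omega

lemma Bad.swap {g : ℤ} {l : ℕ} {x y z : ℤ} (h : Bad g l x y z) : Bad g l x z y := by
  obtain ⟨h1, h2, h3, h4⟩ := h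
  refine ⟨h1, h2, ?_, ?_⟩
  · rw [← neg_sub]; exact h3.neg_right
  · rw [← neg_sub, mul_neg]; exact h4.neg_right

theorem Dat.bad {a b c r s t α β G τ k d g : ℤ} (D : Dat a b c r s t α β G τ k d)
    (hg : ∀ n : ℤ, n ∣ g ↔ n ∣ a ∧ n ∣ b ∧ n ∣ c) :
    ∃ l : ℕ, l.Prime ∧ (Bad g l a b c ∨ Bad g l b c a ∨ Bad g l c a b) := by
  have ha : a ≠ 0 := D.ha.ne'
  have hb : b ≠ 0 := by linarith [D.ha, D.hab] |> fun (h : 0 < b) => h.ne'
  have hc : c ≠ 0 := by linarith [D.ha, D.hab, D.hbc] |> fun (h : 0 < c) => h.ne'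
  have nab : a ≠ b := D.hab.ne
  have nbc : b ≠ c := D.hbc.ne
  have nac : a ≠ c := (D.hab.trans D.hbc).ne
  have hα := D.hα.ne'
  have hβ := D.hβ.ne'
  have hγ : -G ≠ 0 := neg_ne_zero.2 D.hG.ne'
  have hτ := D.hτ.ne'
  have h1 : (-G) ^ 2 = a * b + τ := by linarith [D.h1]
  have h2 := D.h2
  have h3 := D.h3
  have h4 : α * β + β * -G + -G * α = 0 := by linarith [D.h4]
  have q1 : IsSquare (a * b + 4) := ⟨r, by linarith [D.hr]⟩
  have q2 : IsSquare (a * c + 4) := ⟨s, by linarith [D.hs]⟩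
  have q3 : IsSquare (b * c + 4) := ⟨t, by linarith [D.ht]⟩
  have q1' : IsSquare (b * a + 4) := by rwa [mul_comm]
  have q2' : IsSquare (c * a + 4) := by rwa [mul_comm]
  have q3' : IsSquare (c * b + 4) := by rwa [mul_comm]
  obtain ⟨L, hL⟩ : ∃ L, L = (α + β + -G) * (-τ) - α * β * -G := ⟨_, rfl⟩
  have hUV : (a * b * c - L) * (a * b * c + L) = (-τ) ^ 3 := by
    have hP : (a * b * c) ^ 2 = (-τ + (-G) ^ 2) * (-τ + β ^ 2) * (-τ + α ^ 2) := by
      rw [h1, h2, h3]; ring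
    rw [hL]
    linear_combination hP + (-τ * (α * β + β * -G + -G * α) - 2 * τ ^ 2) * h4
  have n0 : (a * b * c - L) * (a * b * c + L) ≠ 0 := by
    rw [hUV]; exact pow_ne_zero 3 (neg_ne_zero.2 hτ)
  have hU := left_ne_zero_of_mul n0
  have hV := right_ne_zero_of_mul n0
  by_cases hall : ∀ p : ℕ, p.Prime → 3 ∣ padicValInt p (a * b * c - L)
  · exfalso
    obtain ⟨u, hu⟩ := iso_cube_of_val hU hall
    have u0 : u ≠ 0 := fun e => hU (by rw [hu, e]; ring)
    obtain ⟨v, hv⟩ : u ∣ -τ := (Int.pow_dvd_pow_iff (n := 3) (by norm_num)).1 ⟨_, by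
      rw [← hUV, hu]⟩
    have hv3 : a * b * c + L = v ^ 3 := by
      apply mul_left_cancel₀ (pow_ne_zero 3 u0)
      rw [← hu, hUV, hv, hu]; ring
    refine D.gap (m := v - u) ?_
    rw [← hL, hv]
    linear_combination hu - hv3
  push Not at hall
  obtain ⟨l, hl, hl3⟩ := hall
  have : Fact l.Prime := ⟨hl⟩
  have T := iso_tri (l := l) hU hV
    (mul_ne_zero (mul_ne_zero (mul_ne_zero two_ne_zero ha) hb) hc) (by ring)
  rw [padicValInt.mul (mul_ne_zero (mul_ne_zero two_ne_zero ha) hb) hc,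
    padicValInt.mul (mul_ne_zero two_ne_zero ha) hb, padicValInt.mul two_ne_zero ha] at T
  have S : padicValInt l (a * b * c - L) + padicValInt l (a * b * c + L) =
      3 * padicValInt l τ := by
    rw [← padicValInt.mul hU hV, hUV, pow_succ, padicValInt.mul (pow_ne_zero 2 (neg_ne_zero.2 hτ))
      (neg_ne_zero.2 hτ), iso_vsq (neg_ne_zero.2 hτ), iso_vneg]
    ring
  unfold Tri at T
  have g1 : 2 * (padicValInt l 2 + padicValInt l a + padicValInt l b + padicValInt l c) <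
      3 * padicValInt l τ := by omega
  have g2 : ¬ 3 ∣ padicValInt l 2 + padicValInt l a + padicValInt l b + padicValInt l c := by
    omega
  refine ⟨l, hl, ?_⟩
  rcases le_total (padicValInt l a) (padicValInt l b) with o1 | o1 <;>
    rcases le_total (padicValInt l b) (padicValInt l c) with o2 | o2 <;>
    rcases le_total (padicValInt l a) (padicValInt l c) with o3 | o3
  · exact Or.inr (Or.inr (iso_bad hc hb ha nab.symm hγ hβ hα hτ (fun n => by rw [hg]; tauto) q3'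
      q1' (by linarith) (by linarith) (by linarith) (by linarith) o2 o1 (by omega)
      (by omega)).swap)
  · exact Or.inr (Or.inr (iso_bad hc hb ha nab.symm hγ hβ hα hτ (fun n => by rw [hg]; tauto) q3'
      q1' (by linarith) (by linarith) (by linarith) (by linarith) o2 o1 (by omega)
      (by omega)).swap)
  · exact Or.inr (Or.inl (iso_bad hb hc ha nac.symm hβ hγ hα hτ (fun n => by rw [hg]; tauto) q3
      q2' (by linarith) (by linarith) (by linarith) (by linarith) o2 o3 (by omega) (by omega)))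
  · exact Or.inr (Or.inl (iso_bad hb ha hc nac hβ hα hγ hτ (fun n => by rw [hg]; tauto) q1'
      q2 (by linarith) (by linarith) (by linarith) (by linarith) o1 o3 (by omega)
      (by omega)).swap)
  · exact Or.inr (Or.inr (iso_bad hc ha hb nab hγ hα hβ hτ (fun n => by rw [hg]; tauto) q2'
      q1 (by linarith) (by linarith) (by linarith) (by linarith) o3 o1 (by omega) (by omega)))
  · exact Or.inl (iso_bad ha hc hb nbc.symm hα hγ hβ hτ (fun n => by rw [hg]; tauto) q2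
      q3' (by linarith) (by linarith) (by linarith) (by linarith) o3 o2 (by omega)
      (by omega)).swap
  · exact Or.inl (iso_bad ha hb hc nbc hα hβ hγ hτ hg q1 q3 h1 h2 h3 h4 o1 o2 g1 g2)
  · exact Or.inl (iso_bad ha hb hc nbc hα hβ hγ hτ hg q1 q3 h1 h2 h3 h4 o1 o2 g1 g2)

/-! ### reduction to sorted positive triples -/

lemma iso_mixed {x y z : ℤ} (hx : x < 0) (hy : 0 < y) (hz : 0 < z) (hyz : y ≠ z)
    (h1 : IsSquare (x * y + 4)) (h2 : IsSquare (x * z + 4)) : ¬ T3 x y z := by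
  have neg_sq : ∀ n : ℤ, n < 0 → IsSquare (n + 4) → n = -3 ∨ n = -4 := by
    intro n hn h
    obtain ⟨r, r0, hr⟩ := iso_root h
    have : r ≤ 1 := by nlinarith
    interval_cases r <;> omega
  have base : ¬ T3 (-1) 3 4 := by
    intro h
    obtain ⟨α, β, γ, τ, e1, e2, e3, e4⟩ := h.int
    have e5 : (γ - β) * (γ + β) = 1 := by linear_combination e1 - e2
    have hβ : β = 0 := by
      rcases Int.eq_one_or_neg_one_of_mul_eq_one' e5 with g | g <;> omega
    subst hβ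
    have e6 : γ * α = 0 := by linarith
    rcases mul_eq_zero.1 e6 with g | g <;> subst g <;> nlinarith
  have a1 := neg_sq _ (mul_neg_of_neg_of_pos hx hy) h1
  have a2 := neg_sq _ (mul_neg_of_neg_of_pos hx hz) h2
  have b1 : -4 ≤ x := by rcases a1 with a1 | a1 <;> nlinarith
  have : x = -1 ∧ ((y = 3 ∧ z = 4) ∨ (y = 4 ∧ z = 3)) := by
    interval_cases x <;> omega
  obtain ⟨rfl, ⟨rfl, rfl⟩ | ⟨rfl, rfl⟩⟩ := this
  · exact base
  · exact fun h => base h.swap23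

theorem iso_sign {a b c : ℤ} (ha : a ≠ 0) (hb : b ≠ 0) (hc : c ≠ 0) (hab : a ≠ b) (hac : a ≠ c)
    (hbc : b ≠ c) (h1 : IsSquare (a * b + 4)) (h2 : IsSquare (a * c + 4))
    (h3 : IsSquare (b * c + 4)) (h : T3 a b c) :
    (0 < a ∧ 0 < b ∧ 0 < c) ∨ (a < 0 ∧ b < 0 ∧ c < 0) := by
  have h1' : IsSquare (b * a + 4) := by rwa [mul_comm]
  have h2' : IsSquare (c * a + 4) := by rwa [mul_comm]
  have h3' : IsSquare (c * b + 4) := by rwa [mul_comm]
  have n : ∀ x y : ℤ, IsSquare (x * y + 4) → IsSquare (-x * -y + 4) := fun x y h => by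
    rwa [neg_mul_neg]
  rcases lt_or_gt_of_ne ha with x | x <;> rcases lt_or_gt_of_ne hb with y | y <;>
    rcases lt_or_gt_of_ne hc with z | z
  · exact Or.inr ⟨x, y, z⟩
  · exact (iso_mixed (x := -c) (y := -a) (z := -b) (by omega) (by omega) (by omega) (by omega)
      (n _ _ h2') (n _ _ h3') h.swap23.swap12.neg).elim
  · exact (iso_mixed (x := -b) (y := -a) (z := -c) (by omega) (by omega) (by omega) (by omega)
      (n _ _ h1') (n _ _ h3) h.swap12.neg).elim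
  · exact (iso_mixed x y z hbc h1 h2 h).elim
  · exact (iso_mixed (x := -a) (y := -b) (z := -c) (by omega) (by omega) (by omega) (by omega)
      (n _ _ h1) (n _ _ h2) h.neg).elim
  · exact (iso_mixed y x z hac h1' h3 h.swap12).elim
  · exact (iso_mixed z x y hab h2' h3' h.swap23.swap12).elim
  · exact Or.inl ⟨x, y, z⟩

theorem iso_size {a b c : ℤ} (ha : a ≠ 0) (hab : |a| < |b|) (hbc : |b| < |c|)
    (h1 : IsSquare (a * b + 4)) (h2 : IsSquare (a * c + 4)) (h3 : IsSquare (b * c + 4))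
    (h : T3 a b c) :
    6 * |a| < |b| ∧ 16000 * a ^ 4 * |b| ^ 11 * |c| ^ 3 < (a * b + 4) ^ 6 * (b - a) ^ 12 := by
  have h0 := abs_pos.2 ha
  rcases iso_sign ha (abs_pos.1 (by omega)) (abs_pos.1 (by omega))
    (fun e => by rw [e] at hab; omega) (fun e => by rw [e] at hab; omega)
    (fun e => by rw [e] at hbc; omega) h1 h2 h3 h with ⟨x, y, z⟩ | ⟨x, y, z⟩
  · rw [abs_of_pos x, abs_of_pos y] at hab
    rw [abs_of_pos y, abs_of_pos z] at hbc
    obtain ⟨r, s, t, α, β, G, τ, k, d, D⟩ := iso_dat x hab hbc h1 h2 h3 h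
    rw [abs_of_pos x, abs_of_pos y, abs_of_pos z]
    exact ⟨D.ratio, D.size⟩
  · rw [abs_of_neg x, abs_of_neg y] at hab
    rw [abs_of_neg y, abs_of_neg z] at hbc
    obtain ⟨r, s, t, α, β, G, τ, k, d, D⟩ := iso_dat (by omega) hab hbc (by rwa [neg_mul_neg])
      (by rwa [neg_mul_neg]) (by rwa [neg_mul_neg]) h.neg
    rw [abs_of_neg x, abs_of_neg y, abs_of_neg z]
    refine ⟨D.ratio, ?_⟩
    have := D.size
    rwa [show (-a) ^ 4 = a ^ 4 by ring, neg_mul_neg,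
      show (-b - -a) ^ 12 = (b - a) ^ 12 by ring] at this

lemma Bad.neg {g : ℤ} {l : ℕ} {x y z : ℤ} (h : Bad g l (-x) (-y) (-z)) : Bad g l x y z := by
  obtain ⟨h1, h2, h3, h4⟩ := h
  refine ⟨h1, (dvd_neg).1 h2, ?_, ?_⟩
  · rw [show y - z = -(-y - -z) by ring]; exact h3.neg_right
  · rwa [show x * (y - z) = -x * (-y - -z) by ring]

theorem iso_prime_pos {a b c g : ℤ} (ha : 0 < a) (hb : 0 < b) (hc : 0 < c) (hab : a ≠ b)
    (hac : a ≠ c) (hbc : b ≠ c) (h1 : IsSquare (a * b + 4)) (h2 : IsSquare (a * c + 4))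
    (h3 : IsSquare (b * c + 4)) (h : T3 a b c)
    (hg : ∀ n : ℤ, n ∣ g ↔ n ∣ a ∧ n ∣ b ∧ n ∣ c) :
    ∃ l : ℕ, l.Prime ∧ (Bad g l a b c ∨ Bad g l b c a ∨ Bad g l c a b) := by
  have key : ∀ x y z : ℤ, 0 < x → x < y → y < z → IsSquare (x * y + 4) → IsSquare (x * z + 4) →
      IsSquare (y * z + 4) → T3 x y z → (∀ n : ℤ, n ∣ g ↔ n ∣ x ∧ n ∣ y ∧ n ∣ z) →
      ∃ l : ℕ, l.Prime ∧ (Bad g l x y z ∨ Bad g l y z x ∨ Bad g l z x y) := by
    intro x y z g0 g1 g2 q1 q2 q3 q4 q5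
    obtain ⟨r, s, t, α, β, G, τ, k, d, D⟩ := iso_dat g0 g1 g2 q1 q2 q3 q4
    exact D.bad q5
  have h1' : IsSquare (b * a + 4) := by rwa [mul_comm]
  have h2' : IsSquare (c * a + 4) := by rwa [mul_comm]
  have h3' : IsSquare (c * b + 4) := by rwa [mul_comm]
  rcases lt_or_gt_of_ne hab with x | x <;> rcases lt_or_gt_of_ne hac with y | y <;>
    rcases lt_or_gt_of_ne hbc with z | z
  · exact key a b c ha x z h1 h2 h3 h hg
  · obtain ⟨l, hl, w⟩ := key a c b ha y z h2 h1 h3' h.swap23 (fun n => by rw [hg]; tauto)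
    exact ⟨l, hl, by
      rcases w with w | w | w
      exacts [Or.inl w.swap, Or.inr (Or.inr w.swap), Or.inr (Or.inl w.swap)]⟩
  · omega
  · obtain ⟨l, hl, w⟩ := key c a b hc y x h2' h3' h1 h.swap23.swap12
      (fun n => by rw [hg]; tauto)
    exact ⟨l, hl, by
      rcases w with w | w | w
      exacts [Or.inr (Or.inr w), Or.inl w, Or.inr (Or.inl w)]⟩
  · obtain ⟨l, hl, w⟩ := key b a c hb x y h1' h3 h2 h.swap12 (fun n => by rw [hg]; tauto)
    exact ⟨l, hl, by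
      rcases w with w | w | w
      exacts [Or.inr (Or.inl w.swap), Or.inl w.swap, Or.inr (Or.inr w.swap)]⟩
  · omega
  · obtain ⟨l, hl, w⟩ := key b c a hb z y h3 h1' h2' h.swap12.swap23
      (fun n => by rw [hg]; tauto)
    exact ⟨l, hl, by
      rcases w with w | w | w
      exacts [Or.inr (Or.inl w), Or.inr (Or.inr w), Or.inl w]⟩
  · obtain ⟨l, hl, w⟩ := key c b a hc z x h3' h2' h1' h.swap12.swap23.swap12
      (fun n => by rw [hg]; tauto)
    exact ⟨l, hl, by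
      rcases w with w | w | w
      exacts [Or.inr (Or.inr w.swap), Or.inr (Or.inl w.swap), Or.inl w.swap]⟩

theorem iso_prime {a b c g : ℤ} (ha : a ≠ 0) (hb : b ≠ 0) (hc : c ≠ 0) (hab : a ≠ b)
    (hac : a ≠ c) (hbc : b ≠ c) (h1 : IsSquare (a * b + 4)) (h2 : IsSquare (a * c + 4))
    (h3 : IsSquare (b * c + 4)) (h : T3 a b c)
    (hg : ∀ n : ℤ, n ∣ g ↔ n ∣ a ∧ n ∣ b ∧ n ∣ c) :
    ∃ l : ℕ, l.Prime ∧ (Bad g l a b c ∨ Bad g l b c a ∨ Bad g l c a b) := by
  rcases iso_sign ha hb hc hab hac hbc h1 h2 h3 h with ⟨x, y, z⟩ | ⟨x, y, z⟩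
  · exact iso_prime_pos x y z hab hac hbc h1 h2 h3 h hg
  · obtain ⟨l, hl, w⟩ := iso_prime_pos (a := -a) (b := -b) (c := -c) (g := g) (by omega)
      (by omega) (by omega) (by omega) (by omega) (by omega) (by rwa [neg_mul_neg])
      (by rwa [neg_mul_neg]) (by rwa [neg_mul_neg]) h.neg (fun n => by simp only [hg, dvd_neg])
    exact ⟨l, hl, w.imp Bad.neg (Or.imp Bad.neg Bad.neg)⟩

end Pool.Agent.Lib.MP_b2ee0b_nt
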