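import Pool.Agent.Lib.MP_b2ee0b_nt.IsoD

/-! Two entries of ratio at most six. -/

namespace Pool.Agent.Lib.MP_b2ee0b_nt

theorem iso_ratio_pos {a b c : ℤ} (ha : 0 < a) (hc : 0 < c) (hab : a < b) (hac : a ≠ c)
    (hbc : b ≠ c) (h1 : IsSquare (a * b + 4)) (h2 : IsSquare (a * c + 4))
    (h3 : IsSquare (b * c + 4)) (h : T3 a b c) : 6 * a < b := by
  have h2' : IsSquare (c * a + 4) := by rwa [mul_comm]
  have h3' : IsSquare (c * b + 4) := by rwa [mul_comm]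
  rcases lt_or_gt_of_ne hbc with x | x
  · obtain ⟨r, s, t, α, β, G, τ, k, d, D⟩ := iso_dat ha hab x h1 h2 h3 h
    exact D.ratio
  rcases lt_or_gt_of_ne hac with y | y
  · obtain ⟨r, s, t, α, β, G, τ, k, d, D⟩ := iso_dat ha y x h2 h1 h3' h.swap23
    have := D.ratio
    omega
  · obtain ⟨r, s, t, α, β, G, τ, k, d, D⟩ := iso_dat hc y hab h2' h3' h1 h.swap23.swap12
    exact D.six

theorem iso_ratio {a b c : ℤ} (ha : a ≠ 0) (hb : b ≠ 0) (hc : c ≠ 0) (hab : a ≠ b) (hac : a ≠ c)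
    (hbc : b ≠ c) (h1 : IsSquare (a * b + 4)) (h2 : IsSquare (a * c + 4))
    (h3 : IsSquare (b * c + 4)) (g1 : |a| ≤ |b|) (g2 : |b| ≤ 6 * |a|) : ¬ T3 a b c := by
  intro h
  rcases iso_sign ha hb hc hab hac hbc h1 h2 h3 h with ⟨x, y, z⟩ | ⟨x, y, z⟩
  · rw [abs_of_pos x, abs_of_pos y] at g1 g2
    have := iso_ratio_pos x z (by omega) hac hbc h1 h2 h3 h
    omega
  · rw [abs_of_neg x, abs_of_neg y] at g1 g2
    have := iso_ratio_pos (a := -a) (b := -b) (c := -c) (by omega) (by omega) (by omega)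
      (by omega) (by omega) (by rwa [neg_mul_neg]) (by rwa [neg_mul_neg])
      (by rwa [neg_mul_neg]) h.neg
    omega

end Pool.Agent.Lib.MP_b2ee0b_nt
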