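import Mathlib

/-! Reflection: polynomial normal form in Horner shape and interval bounds. -/

namespace Pool.Agent.Lib.MP_b2ee0b_nt.Iv

/-- `h a i b` stands for `a + x i * b` -/
inductive P where
  | c (n : ℤ) : P
  | h (a : P) (i : ℕ) (b : P) : P
  deriving DecidableEq

namespace P

def ev (ρ : ℕ → ℝ) : P → ℝ
  | c n => n
  | h a i b => a.ev ρ + ρ i * b.ev ρ

def mk (a : P) (i : ℕ) : P → P
  | c n => if n = 0 then a else h a i (c n)
  | h x j y => h a i (h x j y)

theorem ev_mk (ρ : ℕ → ℝ) (a : P) (i : ℕ) (b : P) : (mk a i b).ev ρ = a.ev ρ + ρ i * b.ev ρ := by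
  cases b with
  | c n =>
    simp only [mk]
    split_ifs with g
    · simp [ev, g]
    · rfl
  | h x j y => rfl

def addc (m : ℤ) : P → P
  | c n => c (m + n)
  | h a i b => h (addc m a) i b

theorem ev_addc (ρ : ℕ → ℝ) (m : ℤ) (q : P) : (addc m q).ev ρ = m + q.ev ρ := by
  induction q with
  | c n => simp [addc, ev]
  | h a i b ih _ => simp only [addc, ev, ih]; ring

def addAux (a : P) (i : ℕ) (b : P) (fa fb : P → P) : P → P
  | c n => h (fa (c n)) i b
  | h x j y =>
    if i < j then h (fa (h x j y)) i b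
    else if j < i then h (addAux a i b fa fb x) j y else mk (fa x) i (fb y)

def add : P → P → P
  | c m => addc m
  | h a i b => addAux a i b (add a) (add b)

theorem ev_add (ρ : ℕ → ℝ) (p q : P) : (add p q).ev ρ = p.ev ρ + q.ev ρ := by
  induction p generalizing q with
  | c m => exact ev_addc ρ m q
  | h a i b iha ihb =>
    induction q with
    | c n => simp only [add, addAux, ev, iha]; ring
    | h x j y ihx _ =>
      simp only [add, addAux] at ihx ⊢
      split_ifs with g1 g2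
      · simp only [ev, iha]; ring
      · simp only [ev, ihx]; ring
      · have : i = j := by omega
        subst this
        simp only [ev_mk, ev, iha, ihb]; ring

def smul (m : ℤ) : P → P
  | c n => c (m * n)
  | h a i b => h (smul m a) i (smul m b)

theorem ev_smul (ρ : ℕ → ℝ) (m : ℤ) (q : P) : (smul m q).ev ρ = m * q.ev ρ := by
  induction q with
  | c n => simp [smul, ev]
  | h a i b iha ihb => simp only [smul, ev, iha, ihb]; ring

def mulx (i : ℕ) : P → P
  | c n => if n = 0 then c 0 else h (c 0) i (c n)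
  | h a j b => if i ≤ j then h (c 0) i (h a j b) else h (mulx i a) j (mulx i b)

theorem ev_mulx (ρ : ℕ → ℝ) (i : ℕ) (q : P) : (mulx i q).ev ρ = ρ i * q.ev ρ := by
  induction q with
  | c n =>
    simp only [mulx]
    split_ifs with g
    · simp [ev, g]
    · simp [ev]
  | h a j b iha ihb =>
    simp only [mulx]
    split_ifs with g
    · simp [ev]
    · simp only [ev, iha, ihb]; ring

def mul : P → P → P
  | c m, q => if m = 0 then c 0 else smul m q
  | h a i b, q => add (mul a q) (mulx i (mul b q))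

theorem ev_mul (ρ : ℕ → ℝ) (p q : P) : (mul p q).ev ρ = p.ev ρ * q.ev ρ := by
  induction p with
  | c m =>
    simp only [mul]
    split_ifs with g
    · simp [ev, g]
    · exact ev_smul ρ m q
  | h a i b iha ihb => simp only [mul, ev_add, ev_mulx, ev, iha, ihb]; ring

def pow (p : P) : ℕ → P
  | 0 => c 1
  | n + 1 => mul p (pow p n)

theorem ev_pow (ρ : ℕ → ℝ) (p : P) (n : ℕ) : (pow p n).ev ρ = p.ev ρ ^ n := by
  induction n with
  | zero => simp [pow, ev]
  | succ n ih => simp only [pow, ev_mul, ih]; ring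

/-- untrusted division by a variable -/
def dv (i : ℕ) : P → P
  | c _ => c 0
  | h a j b => if j = i then b else mk (dv i a) j (dv i b)

def dvn (i : ℕ) : ℕ → P → P
  | 0, p => p
  | n + 1, p => dvn i n (dv i p)

def mulxn (i : ℕ) : ℕ → P → P
  | 0, p => p
  | n + 1, p => mulx i (mulxn i n p)

theorem ev_mulxn (ρ : ℕ → ℝ) (i n : ℕ) (q : P) : (mulxn i n q).ev ρ = ρ i ^ n * q.ev ρ := by
  induction n with
  | zero => simp [mulxn]
  | succ n ih => simp only [mulxn, ev_mulx, ih]; ring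

def imul (u v : ℚ × ℚ) : ℚ × ℚ :=
  (min (min (u.1 * v.1) (u.1 * v.2)) (min (u.2 * v.1) (u.2 * v.2)),
    max (max (u.1 * v.1) (u.1 * v.2)) (max (u.2 * v.1) (u.2 * v.2)))

def In (u : ℚ × ℚ) (x : ℝ) : Prop := (u.1 : ℝ) ≤ x ∧ x ≤ (u.2 : ℝ)

theorem in_imul {u v : ℚ × ℚ} {x y : ℝ} (hx : In u x) (hy : In v y) : In (imul u v) (x * y) := by
  obtain ⟨a, b⟩ := u
  obtain ⟨p, q⟩ := v
  obtain ⟨h1, h2⟩ := hx
  obtain ⟨h3, h4⟩ := hy
  simp only at h1 h2 h3 h4
  simp only [In, imul]
  push_cast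
  constructor
  · rcases le_total 0 y with g | g
    · have e1 : (a : ℝ) * y ≤ x * y := by gcongr
      rcases le_total 0 (a : ℝ) with k | k
      · have : (a : ℝ) * p ≤ a * y := by gcongr
        exact le_trans (le_trans (min_le_left _ _) (min_le_left _ _)) (by linarith)
      · have : (a : ℝ) * q ≤ a * y := by nlinarith
        exact le_trans (le_trans (min_le_left _ _) (min_le_right _ _)) (by linarith)
    · have e1 : (b : ℝ) * y ≤ x * y := by nlinarith
      rcases le_total 0 (b : ℝ) with k | k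
      · have : (b : ℝ) * p ≤ b * y := by gcongr
        exact le_trans (le_trans (min_le_right _ _) (min_le_left _ _)) (by linarith)
      · have : (b : ℝ) * q ≤ b * y := by nlinarith
        exact le_trans (le_trans (min_le_right _ _) (min_le_right _ _)) (by linarith)
  · rcases le_total 0 y with g | g
    · have e1 : x * y ≤ (b : ℝ) * y := by gcongr
      rcases le_total 0 (b : ℝ) with k | k
      · have : (b : ℝ) * y ≤ b * q := by gcongr
        exact le_trans (by linarith) (le_trans (le_max_right _ _) (le_max_right _ _))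
      · have : (b : ℝ) * y ≤ b * p := by nlinarith
        exact le_trans (by linarith) (le_trans (le_max_left _ _) (le_max_right _ _))
    · have e1 : x * y ≤ (a : ℝ) * y := by nlinarith
      rcases le_total 0 (a : ℝ) with k | k
      · have : (a : ℝ) * y ≤ a * q := by gcongr
        exact le_trans (by linarith) (le_trans (le_max_right _ _) (le_max_left _ _))
      · have : (a : ℝ) * y ≤ a * p := by nlinarith
        exact le_trans (by linarith) (le_trans (le_max_left _ _) (le_max_left _ _))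

def rng (B : List (ℚ × ℚ)) : P → ℚ × ℚ
  | c n => (n, n)
  | h a i b =>
    let u := rng B a
    let w := imul (B.getD i (0, 0)) (rng B b)
    (u.1 + w.1, u.2 + w.2)

theorem in_rng (B : List (ℚ × ℚ)) (ρ : ℕ → ℝ) (hB : ∀ i, In (B.getD i (0, 0)) (ρ i)) (p : P) :
    In (rng B p) (p.ev ρ) := by
  induction p with
  | c n => simp [rng, ev, In]
  | h a i b iha ihb =>
    have := in_imul (hB i) ihb
    simp only [rng, ev, In] at *
    push_cast
    constructor <;> linarith [this.1, this.2, iha.1, iha.2]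

end P

inductive Ex where
  | v (i : ℕ) : Ex
  | c (n : ℤ) : Ex
  | add (a b : Ex) : Ex
  | sub (a b : Ex) : Ex
  | mul (a b : Ex) : Ex
  | pow (a : Ex) (n : ℕ) : Ex

namespace Ex

instance : Add Ex := ⟨add⟩
instance : Sub Ex := ⟨sub⟩
instance : Mul Ex := ⟨mul⟩
instance : HPow Ex ℕ Ex := ⟨pow⟩
instance (n : ℕ) : OfNat Ex n := ⟨c n⟩

def ev (ρ : ℕ → ℝ) : Ex → ℝ
  | v i => ρ i
  | c n => n
  | add a b => a.ev ρ + b.ev ρ
  | sub a b => a.ev ρ - b.ev ρ
  | mul a b => a.ev ρ * b.ev ρ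
  | pow a n => a.ev ρ ^ n

def toP : Ex → P
  | v i => .h (.c 0) i (.c 1)
  | c n => .c n
  | add a b => a.toP.add b.toP
  | sub a b => a.toP.add (b.toP.smul (-1))
  | mul a b => a.toP.mul b.toP
  | pow a n => a.toP.pow n

theorem ev_toP (ρ : ℕ → ℝ) (e : Ex) : e.toP.ev ρ = e.ev ρ := by
  induction e with
  | v i => simp [toP, P.ev, ev]
  | c n => rfl
  | add a b iha ihb => simp only [toP, P.ev_add, ev, iha, ihb]
  | sub a b iha ihb => simp only [toP, P.ev_add, P.ev_smul, ev, iha, ihb]; push_cast; ring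
  | mul a b iha ihb => simp only [toP, P.ev_mul, ev, iha, ihb]
  | pow a n ih => simp only [toP, P.ev_pow, ev, ih]

theorem ev_v (ρ : ℕ → ℝ) (i : ℕ) : (v i).ev ρ = ρ i := rfl
theorem ev_add (ρ : ℕ → ℝ) (a b : Ex) : (a + b).ev ρ = a.ev ρ + b.ev ρ := rfl
theorem ev_sub (ρ : ℕ → ℝ) (a b : Ex) : (a - b).ev ρ = a.ev ρ - b.ev ρ := rfl
theorem ev_mul (ρ : ℕ → ℝ) (a b : Ex) : (a * b).ev ρ = a.ev ρ * b.ev ρ := rfl
theorem ev_pow (ρ : ℕ → ℝ) (a : Ex) (n : ℕ) : (a ^ n).ev ρ = a.ev ρ ^ n := rfl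
theorem ev_nat (ρ : ℕ → ℝ) (n : ℕ) : (no_index (OfNat.ofNat n : Ex)).ev ρ = (n : ℝ) := by
  show ((n : ℤ) : ℝ) = n
  simp

end Ex

def Box : List (ℚ × ℚ) → List ℝ → Prop
  | [], [] => True
  | u :: B, x :: l => ((u.1 : ℝ) ≤ x ∧ x ≤ (u.2 : ℝ)) ∧ Box B l
  | _, _ => False

theorem box_in : ∀ (B : List (ℚ × ℚ)) (l : List ℝ), Box B l →
    ∀ i, P.In (B.getD i (0, 0)) (l.getD i 0)
  | [], [], _, i => by simp [P.In]
  | [], _ :: _, h, _ => h.elim
  | _ :: _, [], h, _ => h.elim
  | u :: B, x :: l, h, 0 => h.1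
  | u :: B, x :: l, h, i + 1 => box_in B l h.2 i

/-- the test: `e = x i ^ n * p` and `p` has values in `[lo, hi]` on the box -/
def chk (B : List (ℚ × ℚ)) (e : Ex) (i n : ℕ) (lo hi : ℚ) : Bool :=
  let p := e.toP
  let w := P.dvn i n p
  let u := P.rng B w
  decide (p = P.mulxn i n w) && decide (lo ≤ u.1) && decide (u.2 ≤ hi)

theorem chk_ok {B : List (ℚ × ℚ)} {e : Ex} {i n : ℕ} {lo hi : ℚ} (h : chk B e i n lo hi = true)
    {l : List ℝ} (hl : Box B l) (h0 : 0 ≤ (l.getD i 0) ^ n) :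
    (lo : ℝ) * (l.getD i 0) ^ n ≤ e.ev (fun k => l.getD k 0) ∧
      e.ev (fun k => l.getD k 0) ≤ (hi : ℝ) * (l.getD i 0) ^ n := by
  simp only [chk, Bool.and_eq_true, decide_eq_true_eq] at h
  obtain ⟨⟨h1, h2⟩, h3⟩ := h
  have g := P.in_rng B (fun k => l.getD k 0) (box_in B l hl) (P.dvn i n e.toP)
  rw [← Ex.ev_toP, h1, P.ev_mulxn]
  have a2 : (lo : ℝ) ≤ ((P.rng B (P.dvn i n e.toP)).1 : ℝ) := by exact_mod_cast h2
  have a3 : ((P.rng B (P.dvn i n e.toP)).2 : ℝ) ≤ (hi : ℝ) := by exact_mod_cast h3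
  constructor
  · rw [mul_comm]; exact mul_le_mul_of_nonneg_left (le_trans a2 g.1) h0
  · rw [mul_comm (hi : ℝ)]; exact mul_le_mul_of_nonneg_left (le_trans g.2 a3) h0

def Ex.subst (f : List Ex) : Ex → Ex
  | .v i => f.getD i (.c 0)
  | .c n => .c n
  | .add a b => .add (a.subst f) (b.subst f)
  | .sub a b => .sub (a.subst f) (b.subst f)
  | .mul a b => .mul (a.subst f) (b.subst f)
  | .pow a n => .pow (a.subst f) n

/-- normal form after substitution of normal forms -/
def Ex.toS (f : List P) : Ex → P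
  | .v i => f.getD i (.c 0)
  | .c n => .c n
  | .add a b => (a.toS f).add (b.toS f)
  | .sub a b => (a.toS f).add ((b.toS f).smul (-1))
  | .mul a b => (a.toS f).mul (b.toS f)
  | .pow a n => (a.toS f).pow n

theorem Ex.ev_toS (ρ : ℕ → ℝ) (f : List Ex) (e : Ex) :
    (e.toS (f.map Ex.toP)).ev ρ = e.ev (fun k => (f.map (Ex.ev ρ)).getD k 0) := by
  induction e with
  | v i =>
    simp only [Ex.toS, Ex.ev, List.getD_eq_getElem?_getD, List.getElem?_map]
    cases f[i]? with
    | none => simp [P.ev]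
    | some a => simp [Ex.ev_toP]
  | c n => rfl
  | add a b iha ihb => simp only [Ex.toS, P.ev_add, Ex.ev, iha, ihb]
  | sub a b iha ihb => simp only [Ex.toS, P.ev_add, P.ev_smul, Ex.ev, iha, ihb]; push_cast; ring
  | mul a b iha ihb => simp only [Ex.toS, P.ev_mul, Ex.ev, iha, ihb]
  | pow a n ih => simp only [Ex.toS, P.ev_pow, Ex.ev, ih]

/-- lower bounds of the coefficients with respect to the first variable -/
def coefs (B : List (ℚ × ℚ)) : P → List ℚ
  | .c n => [n]
  | .h a i b => if i = 0 then (P.rng B a).1 :: coefs B b else [(P.rng B (.h a i b)).1]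

def low (u w : ℚ) : List ℚ → ℚ
  | [] => 0
  | a :: l => let y := low u w l; if 0 ≤ y then a + u * y else a + w * y

theorem low_ok {B : List (ℚ × ℚ)} {ρ : ℕ → ℝ} (hB : ∀ i, P.In (B.getD i (0, 0)) (ρ i)) {u w : ℚ}
    (h0 : 0 ≤ ρ 0) (h1 : (u : ℝ) ≤ ρ 0) (h2 : ρ 0 ≤ w) (p : P) :
    ((low u w (coefs B p) : ℚ) : ℝ) ≤ p.ev ρ := by
  induction p with
  | c n => simp [coefs, low, P.ev]
  | h a i b _ ihb =>
    simp only [coefs]
    split_ifs with g
    · subst g
      have ga := (P.in_rng B ρ hB a).1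
      have gb : ρ 0 * ((low u w (coefs B b) : ℚ) : ℝ) ≤ ρ 0 * b.ev ρ :=
        mul_le_mul_of_nonneg_left ihb h0
      simp only [low, P.ev]
      split_ifs with k
      · have k' : (0 : ℝ) ≤ ((low u w (coefs B b) : ℚ) : ℝ) := by exact_mod_cast k
        push_cast
        nlinarith
      · have k' : ((low u w (coefs B b) : ℚ) : ℝ) ≤ 0 := by exact_mod_cast (not_le.1 k).le
        push_cast
        nlinarith
    · have ga := (P.in_rng B ρ hB (.h a i b)).1
      simpa [low] using ga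

/-- lower bound on the slices `[u, u + w], [u + w, u + 2 w], ...` of the first variable -/
def cov (L : List ℚ) (lo w : ℚ) : ℕ → ℚ → Bool
  | 0, u => decide (lo ≤ low u u L)
  | n + 1, u => decide (lo ≤ low u (u + w) L) && cov L lo w n (u + w)

theorem cov_ok {B : List (ℚ × ℚ)} {ρ : ℕ → ℝ} (hB : ∀ i, P.In (B.getD i (0, 0)) (ρ i))
    (h0 : 0 ≤ ρ 0) {p : P} {lo w : ℚ} (n : ℕ) :
    ∀ u : ℚ, cov (coefs B p) lo w n u = true → (u : ℝ) ≤ ρ 0 → ρ 0 ≤ u + n * w →
      (lo : ℝ) ≤ p.ev ρ := by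
  induction n with
  | zero =>
    intro u h h1 h2
    simp only [cov, decide_eq_true_eq] at h
    exact le_trans (by exact_mod_cast h) (low_ok hB h0 h1 (by simpa using h2) p)
  | succ n ih =>
    intro u h h1 h2
    simp only [cov, Bool.and_eq_true, decide_eq_true_eq] at h
    rcases le_total (ρ 0) (u + w) with k | k
    · exact le_trans (by exact_mod_cast h.1) (low_ok hB h0 h1 (by simpa using k) p)
    · refine ih (u + w) h.2 (by simpa using k) ?_
      push_cast at h2 ⊢
      linarith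

/-- `e` after the substitution `f` is `x i ^ n * p` with `lo ≤ p`; first variable in slices -/
def chkS (B : List (ℚ × ℚ)) (f : List Ex) (e : Ex) (i n : ℕ) (lo w : ℚ) (N : ℕ) : Bool :=
  let p := e.toS (f.map Ex.toP)
  let y := P.dvn i n p
  decide (p = P.mulxn i n y) && cov (coefs ((0, N * w) :: B) y) lo w N 0

theorem chkS_ok {B : List (ℚ × ℚ)} {f : List Ex} {e : Ex} {i n : ℕ} {lo w : ℚ} {N : ℕ}
    (h : chkS B f e i n lo w N = true) {x : ℝ} {l : List ℝ} (hl : Box B l) (h1 : 0 ≤ x)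
    (h2 : x ≤ N * w) (h0 : 0 ≤ ((x :: l).getD i 0) ^ n) {m : List ℝ}
    (hm : f.map (Ex.ev (fun k => (x :: l).getD k 0)) = m) :
    (lo : ℝ) * ((x :: l).getD i 0) ^ n ≤ e.ev (fun k => m.getD k 0) := by
  simp only [chkS, Bool.and_eq_true, decide_eq_true_eq] at h
  have hb : Box ((0, N * w) :: B) (x :: l) := ⟨⟨by simpa using h1, by simpa using h2⟩, hl⟩
  have g := cov_ok (ρ := fun k => (x :: l).getD k 0) (box_in _ _ hb) h1 N 0 h.2
    (by simpa using h1) (by simpa using h2)
  rw [← hm, ← Ex.ev_toS, h.1, P.ev_mulxn, mul_comm]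
  exact mul_le_mul_of_nonneg_left g h0

end Pool.Agent.Lib.MP_b2ee0b_nt.Iv
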