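import Pool.Agent.Lib.MP_b2ee0b_nt.TMa

/-! Packed polynomials with a norm bound. -/

set_option autoImplicit false

namespace Pool.Agent.Lib.MP_b2ee0b_nt.TM

open Finset

structure Cfg where
  kb : ℕ
  W1 : ℕ
  W2 : ℕ
  s1 : ℕ
  s2 : ℕ
  E : ℕ
  E0 : ℕ
  g : ℕ
  gd : ℕ
  sg : Bool
  D : ℕ
  t1 : ℕ

def Cfg.b2 (c : Cfg) : ℕ := Nat.mul c.kb c.W1
def Cfg.b3 (c : Cfg) : ℕ := Nat.mul (Nat.mul c.kb c.W1) c.W2

lemma Cfg.b2_eq (c : Cfg) : c.b2 = c.kb * c.W1 := rfl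
lemma Cfg.b3_eq (c : Cfg) : c.b3 = c.kb * c.W1 * c.W2 := rfl

/-- N packs a polynomial with value v -/
def Core (c : Cfg) (x y z : ℝ) (N : ℤ) (M : ℝ) (d1 d2 J : ℕ) (v : ℝ) : Prop :=
  ∃ p : List Tm, (∀ t ∈ p, c.t1 * t.i ≤ d1 + c.s1 * t.j ∧ t.k ≤ d2 + c.s2 * t.j) ∧
    N ≡ ev (2 ^ c.kb) (2 ^ c.b2) (2 ^ c.b3) p [ZMOD (2 ^ c.b3) ^ J] ∧
    nm (1 / c.E) p ≤ M ∧ v = ev x y z p

variable {c : Cfg} {x y z : ℝ} {N N' : ℤ} {M M' : ℝ} {d1 d2 d1' d2' J J' : ℕ} {v v' : ℝ}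

lemma Core.weak (h : Core c x y z N M d1 d2 J v) (hN : N' ≡ N [ZMOD (2 ^ c.b3) ^ J'])
    (hM : M ≤ M') (h1 : d1 ≤ d1') (h2 : d2 ≤ d2') (hJ : J' ≤ J) :
    Core c x y z N' M' d1' d2' J' v := by
  obtain ⟨p, a, b, e, f⟩ := h
  refine ⟨p, fun t ht => ?_, hN.trans (b.of_dvd (pow_dvd_pow _ hJ)), e.trans hM, f⟩
  have := a t ht
  omega

lemma Core.add (h : Core c x y z N M d1 d2 J v) (h' : Core c x y z N' M' d1 d2 J v') :
    Core c x y z (N + N') (M + M') d1 d2 J (v + v') := by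
  obtain ⟨p, a, b, e, rfl⟩ := h
  obtain ⟨q, a', b', e', rfl⟩ := h'
  refine ⟨p ++ q, fun t ht => ?_, ?_, ?_, (ev_append _ _ _ _ _).symm⟩
  · rcases List.mem_append.1 ht with g | g
    exacts [a t g, a' t g]
  · rw [ev_append]; exact b.add b'
  · rw [nm_append]; linarith

lemma Core.mul (h : Core c x y z N M d1 d2 J v) (h' : Core c x y z N' M' d1' d2' J v') :
    Core c x y z (N * N') (M * M') (d1 + d1') (d2 + d2') J (v * v') := by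
  obtain ⟨p, a, b, e, rfl⟩ := h
  obtain ⟨q, a', b', e', rfl⟩ := h'
  have h0 : (0 : ℝ) ≤ 1 / c.E := by positivity
  refine ⟨pmul p q, fun w hw => ?_, ?_, ?_, (ev_pmul _ _ _ _ _).symm⟩
  · obtain ⟨t, ht, u, hu, rfl⟩ := mem_pmul _ _ _ hw
    have := a t ht
    have := a' u hu
    simp only [tmul, mul_add]
    omega
  · rw [ev_pmul]; exact b.mul b'
  · rw [nm_pmul]
    exact mul_le_mul e e' (nm_nonneg _ h0 _) ((nm_nonneg _ h0 _).trans e)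

lemma Core.one (a : ℤ) (i k : ℕ) : Core c x y z (a * 2 ^ (c.kb * i + c.b2 * k)) |(a : ℝ)| (c.t1 * i) k J
    (a * (x ^ i * y ^ k)) :=
  ⟨[⟨a, i, k, 0⟩], by simp, by simp [ev, pow_add, pow_mul], by simp [nm], by simp [ev]⟩

lemma Core.cst (a : ℤ) : Core c x y z a |(a : ℝ)| 0 0 J a := by
  simpa using Core.one (c := c) (x := x) (y := y) (z := z) (J := J) a 0 0

lemma Core.zero : Core c x y z 0 0 d1 d2 J 0 :=
  ⟨[], by simp, by simp [ev], by simp [nm], by simp [ev]⟩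

lemma Core.smul (h : Core c x y z N M d1 d2 J v) (a : ℤ) :
    Core c x y z (a * N) (|(a : ℝ)| * M) d1 d2 J (a * v) := by
  simpa using (Core.cst a).mul h

lemma Core.sub (h : Core c x y z N M d1 d2 J v) (h' : Core c x y z N' M' d1 d2 J v') :
    Core c x y z (N - N') (M + M') d1 d2 J (v - v') := by
  simpa [sub_eq_add_neg] using h.add (h'.smul (-1))

lemma Core.pow (h : Core c x y z N M d1 d2 J v) : ∀ n : ℕ,
    Core c x y z (N ^ n) (M ^ n) (d1 * n) (d2 * n) J (v ^ n)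
  | 0 => by simpa using Core.cst (c := c) (x := x) (y := y) (z := z) (J := J) 1
  | n + 1 => by simpa only [pow_succ, Nat.mul_succ] using (h.pow n).mul h

lemma Core.shz (h : Core c x y z N M d1 d2 J v) (j : ℕ) :
    Core c x y z (N * 2 ^ (c.b3 * j)) (M / c.E ^ j) (d1 - c.s1 * j) (d2 - c.s2 * j) (J + j)
      (z ^ j * v) := by
  obtain ⟨p, a, b, e, rfl⟩ := h
  refine ⟨p.map (tmul ⟨1, 0, 0, j⟩), fun w hw => ?_, ?_, ?_, by rw [ev_map]; simp⟩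
  · obtain ⟨t, ht, rfl⟩ := List.mem_map.1 hw
    have := a t ht
    simp only [tmul, mul_add]
    omega
  · rw [ev_map, pow_add, pow_mul]
    simpa [mul_comm] using b.mul_right' (c := (2 ^ c.b3) ^ j)
  · rw [nm_map, div_eq_mul_one_div M, ← one_div_pow, mul_comm M]
    simp only [Int.cast_one, abs_one, one_mul]
    exact mul_le_mul_of_nonneg_left e (by positivity)

lemma ev_le (hx : 0 ≤ x) (hx1 : x ≤ 1) (hy : 0 ≤ y) (hy1 : y ≤ 1) (hz : 0 ≤ z) {ε : ℝ}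
    (hz1 : z ≤ ε) : ∀ p, |ev x y z p| ≤ nm ε p
  | [] => by simp [ev, nm]
  | t :: p => by
    have := ev_le hx hx1 hy hy1 hz hz1 p
    simp only [ev, nm]
    refine (abs_add_le _ _).trans (add_le_add ?_ this)
    rw [abs_mul, abs_of_nonneg (by positivity : 0 ≤ x ^ t.i * y ^ t.k * z ^ t.j)]
    refine mul_le_mul_of_nonneg_left ?_ (abs_nonneg _)
    calc _ ≤ 1 * 1 * ε ^ t.j := by
          gcongr
          exacts [pow_le_one₀ hx hx1, pow_le_one₀ hy hy1]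
      _ = _ := by ring

lemma Core.abs_le (h : Core c x y z N M d1 d2 J v) (hx : 0 ≤ x) (hx1 : x ≤ 1) (hy : 0 ≤ y)
    (hy1 : y ≤ 1) (hz : 0 ≤ z) (hz1 : z ≤ 1 / c.E) : |v| ≤ M := by
  obtain ⟨p, -, -, e, rfl⟩ := h
  exact (ev_le hx hx1 hy hy1 hz hz1 p).trans e

/-- half the base -/
def Cfg.h (c : Cfg) : ℕ := Nat.shiftLeft 1 (Nat.pred c.kb)
def Cfg.H1 (c : Cfg) : ℕ := rp c.h c.kb c.W1
def Cfg.H2 (c : Cfg) : ℕ := rp c.H1 c.b2 c.W2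
def Cfg.H3 (c : Cfg) (J : ℕ) : ℕ := rp c.H2 c.b3 J

/-- the packing is faithful below order J -/
def Cfg.Fit (c : Cfg) (M : ℝ) (d1 d2 J : ℕ) : Prop :=
  1 ≤ c.kb ∧ 1 ≤ c.E ∧ M * c.E ^ J < c.h ∧ d1 + c.s1 * J < c.t1 * c.W1 ∧ d2 + c.s2 * J < c.W2

lemma Cfg.h_eq (hk : 1 ≤ c.kb) : 2 * (c.h : ℤ) = 2 ^ c.kb := by
  unfold Cfg.h
  rw [shl_eq, one_mul]
  push_cast
  rw [← pow_succ']
  congr 1
  exact Nat.succ_pred_eq_of_pos hk

lemma Cfg.H3_eq (hk : 1 ≤ c.kb) (h1 : 1 ≤ c.W1) (h2 : 1 ≤ c.W2) (J : ℕ) :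
    (c.H3 J : ℤ) = bx c.W1 c.W2 J (fun i k j => (c.h : ℤ) *
      ((2 ^ c.kb) ^ i * (2 ^ c.b2) ^ k * (2 ^ c.b3) ^ j)) := by
  have g2 : 1 ≤ c.b2 := Nat.mul_pos hk h1
  have g3 : 1 ≤ c.b3 := Nat.mul_pos g2 h2
  unfold Cfg.H3 Cfg.H2 Cfg.H1
  rw [rp_eq _ _ _ g3, rp_eq _ _ _ g2, rp_eq _ _ _ hk]
  push_cast
  simp only [bx, sum_mul, mul_assoc]

lemma dgt_H (hk : 1 ≤ c.kb) (J : ℕ) : ∀ i < c.W1, ∀ k < c.W2, ∀ j < J,
    dgt c.kb i (dgt c.b2 k (dgt c.b3 j (c.H3 J))) = c.h := by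
  intro i hi k hk' j hj
  have e := Cfg.h_eq hk
  have : (0 : ℤ) < 2 ^ c.kb := by positivity
  have := dgt_bx c.kb c.W1 c.W2 J (fun _ _ _ => c.h) (c.H3 J) (fun _ _ _ _ => by omega)
    (by rw [Cfg.H3_eq hk (by omega) (by omega)]; rfl) i hi k hk' j hj
  exact_mod_cast this

lemma dig_cf {p : List Tm} (a : ∀ t ∈ p, c.t1 * t.i ≤ d1 + c.s1 * t.j ∧ t.k ≤ d2 + c.s2 * t.j)
    (b : N ≡ ev (2 ^ c.kb) (2 ^ c.b2) (2 ^ c.b3) p [ZMOD (2 ^ c.b3) ^ J])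
    (e : nm (1 / c.E) p ≤ M) (hf : c.Fit M d1 d2 J) {X : ℕ}
    (hX : (X : ℤ) ≡ N + c.H3 J [ZMOD (2 ^ c.b3) ^ J]) :
    (∀ t ∈ p, t.j < J → t.i < c.W1 ∧ t.k < c.W2) ∧ ∀ i < c.W1, ∀ k < c.W2, ∀ j < J,
      (dgt c.kb i (dgt c.b2 k (dgt c.b3 j X)) : ℤ) = cf i k j p + c.h := by
  obtain ⟨hk, hE, hM, h1, h2⟩ := hf
  have a' : ∀ t ∈ p, t.j < J → t.i < c.W1 ∧ t.k < c.W2 := fun t ht hj => by
    have := a t ht
    have := Nat.mul_le_mul_left c.s1 hj.le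
    have := Nat.mul_le_mul_left c.s2 hj.le
    exact ⟨Nat.lt_of_mul_lt_mul_left (a := c.t1) (by omega), by omega⟩
  have hW : 1 ≤ c.W1 := Nat.pos_of_ne_zero fun g => by simp [g] at h1
  refine ⟨a', dgt_bx c.kb c.W1 c.W2 J (fun i k j => cf i k j p + c.h) X (fun i k j hj => ?_) ?_⟩
  · have hE' : (1 : ℝ) ≤ c.E := by exact_mod_cast hE
    have g1 := (cf_le _ (by positivity) i k j p).trans e
    have g2 : |(cf i k j p : ℝ)| ≤ M * c.E ^ j := by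
      rwa [one_div_pow, mul_one_div, div_le_iff₀ (by positivity)] at g1
    have g3 : M * (c.E : ℝ) ^ j ≤ M * c.E ^ J :=
      mul_le_mul_of_nonneg_left (pow_le_pow_right₀ hE' hj.le)
        ((nm_nonneg _ (by positivity) _).trans e)
    have g4 : |cf i k j p| < c.h := by exact_mod_cast (g2.trans g3).trans_lt hM
    have := Cfg.h_eq hk
    have := abs_lt.1 g4
    omega
  · refine hX.trans ?_
    rw [Cfg.H3_eq hk hW (by omega)]
    refine (b.add_right _).trans ?_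
    rw [ev_bx _ _ _ _ _ J p a']
    simp only [bx, add_mul, sum_add_distrib, Int.cast_id, Cfg.b2_eq, Cfg.b3_eq]
    exact Int.ModEq.add_right _ (Int.modEq_iff_dvd.2 ⟨_, by rw [sub_add_cancel_left, ← mul_neg]⟩)

lemma Core.nrm (h : Core c x y z N M d1 d2 J v) {j : ℕ} (hj : j ≤ J) (hf : c.Fit M d1 d2 j)
    (hN : N = (2 ^ c.b3) ^ j * N') :
    ∃ w, Core c x y z N' (M * c.E ^ j) (d1 + c.s1 * j) (d2 + c.s2 * j) (J - j) w ∧
      v = z ^ j * w := by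
  obtain ⟨p, a, b, e, rfl⟩ := h
  obtain ⟨a', g⟩ := dig_cf a (b.of_dvd (pow_dvd_pow _ hj)) e hf (X := c.H3 j)
    (Int.modEq_iff_dvd.2 ⟨N', by rw [hN]; ring⟩)
  have g0 : ∀ i < c.W1, ∀ k < c.W2, ∀ l < j, cf i k l p = 0 := fun i hi k hk l hl => by
    have := g i hi k hk l hl
    rw [dgt_H hf.1 j i hi k hk l hl] at this
    omega
  have g1 : ∀ {R : Type} [CommRing R] (x y z : R), ev x y z p = z ^ j * ev x y z (phi j p) := by
    intro R _ x y z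
    rw [ev_bx _ _ _ _ _ j p a', bx, sum_eq_zero, zero_add]
    intro l hl
    refine sum_eq_zero fun k hk => sum_eq_zero fun i hi => ?_
    rw [g0 i (mem_range.1 hi) k (mem_range.1 hk) l (mem_range.1 hl)]; simp
  refine ⟨_, ⟨phi j p, fun w hw => ?_, ?_, ?_, rfl⟩, g1 _ _ _⟩
  · obtain ⟨t, ht, e1, e2, e3⟩ := mem_phi _ _ _ hw
    have := a t ht
    rw [e1, e3, mul_add, mul_add] at this
    omega
  · refine Int.ModEq.mul_left_cancel' (c := (2 ^ c.b3) ^ j) (by positivity) ?_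
    rw [← hN, ← g1, ← pow_add, Nat.add_sub_cancel' hj]
    exact b
  · have hE' : (0 : ℝ) < c.E := by exact_mod_cast hf.2.1
    have := (nm_phi _ (by positivity) j p).trans e
    rwa [one_div_pow, mul_comm, mul_one_div, div_le_iff₀ (by positivity)] at this

lemma Core.cut (h : Core c x y z N M d1 d2 J v) (hf : c.Fit M d1 d2 J) {X : ℕ}
    (hX : (X : ℤ) ≡ N + c.H3 J [ZMOD (2 ^ c.b3) ^ J]) (hx : 0 ≤ x) (hy : 0 ≤ y) (hz : 0 ≤ z)
    {Λ : ℝ} (hΛ : 0 ≤ Λ) (keep : ℕ → ℕ → ℕ → Prop) [∀ i k j, Decidable (keep i k j)]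
    (hk : ∀ i k j, ¬ keep i k j ∨ J ≤ j → x ^ i * y ^ k * z ^ j ≤ Λ * (1 / c.E) ^ j) :
    |v - bx c.W1 c.W2 J (fun i k j => ((dgt c.kb i (dgt c.b2 k (dgt c.b3 j X)) : ℝ) - c.h) *
      if keep i k j then x ^ i * y ^ k * z ^ j else 0)| ≤ Λ * M := by
  obtain ⟨p, a, b, e, rfl⟩ := h
  obtain ⟨a', g⟩ := dig_cf a b e hf hX
  refine le_trans (le_of_eq ?_) ((ev_cut hx hy hz (by positivity) hΛ _ _ J keep hk p a').trans
    (mul_le_mul_of_nonneg_left e hΛ))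
  congr 2
  refine sum_congr rfl fun j hj => sum_congr rfl fun k hk => sum_congr rfl fun i hi => ?_
  have := g i (mem_range.1 hi) k (mem_range.1 hk) j (mem_range.1 hj)
  have e2 : (dgt c.kb i (dgt c.b2 k (dgt c.b3 j X)) : ℝ) = cf i k j p + c.h := by
    exact_mod_cast this
  simp only [e2, add_sub_cancel_right]

lemma Core.pos (h : Core c x y 0 N M d1 d2 1 v) (hf : c.Fit M d1 d2 1) {X : ℕ}
    (hX : (X : ℤ) ≡ N + c.H3 1 [ZMOD (2 ^ c.b3) ^ 1]) (hx : 0 ≤ x) (hy : 0 ≤ y)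
    (hp : Nat.land X (c.H3 1) = c.H3 1) : 0 ≤ v := by
  have := h.cut hf hX hx hy le_rfl le_rfl (fun _ _ _ => True) (fun i k j g => by
    have : j ≠ 0 := by simp at g; omega
    simp [this])
  rw [zero_mul, abs_nonpos_iff, sub_eq_zero] at this
  rw [this]
  refine sum_nonneg fun j hj => sum_nonneg fun k hk => sum_nonneg fun i hi => ?_
  refine mul_nonneg (sub_nonneg.2 (Nat.cast_le.2 ?_)) (by simp only [if_true]; positivity)
  rw [← dgt_H hf.1 1 i (mem_range.1 hi) k (mem_range.1 hk) j (mem_range.1 hj), ← hp, dgt_and,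
    dgt_and, dgt_and]
  exact Nat.and_le_left

end Pool.Agent.Lib.MP_b2ee0b_nt.TM
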