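import Pool.Agent.Lib.MP_b2ee0b_nt.Iv
import Pool.Agent.Lib.MP_b2ee0b_nt.TMb

/-! Positivity of a polynomial in two variables on a box, by packing into one integer. -/

namespace Pool.Agent.Lib.MP_b2ee0b_nt.Iv

open TM

structure K where
  N : ℤ
  M : ℕ
  d1 : ℕ
  d2 : ℕ

def K.up (A B : ℤ) (a b : ℕ) (s : K) (d1 d2 : ℕ) : ℤ × ℕ :=
  (s.N * (A ^ (d1 - s.d1) * B ^ (d2 - s.d2)), s.M * (a ^ (d1 - s.d1) * b ^ (d2 - s.d2)))

def frc (N : ℤ) (M d1 d2 : ℕ) : K :=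
  fZ N fun N => fN M fun M => fN d1 fun d1 => fN d2 fun d2 => ⟨N, M, d1, d2⟩

theorem frc_eq (N : ℤ) (M d1 d2 : ℕ) : frc N M d1 d2 = ⟨N, M, d1, d2⟩ := by
  simp [frc, fZ_eq, fN_eq]

def Ex.evK (A B : ℤ) (a b : ℕ) (L : List K) : Ex → K
  | .v i => L.getD i ⟨0, 0, 0, 0⟩
  | .c n => ⟨n, n.natAbs, 0, 0⟩
  | .add p q =>
    match p.evK A B a b L, q.evK A B a b L with
    | s, t => frc ((s.up A B a b (max s.d1 t.d1) (max s.d2 t.d2)).1 +
        (t.up A B a b (max s.d1 t.d1) (max s.d2 t.d2)).1)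
      ((s.up A B a b (max s.d1 t.d1) (max s.d2 t.d2)).2 +
        (t.up A B a b (max s.d1 t.d1) (max s.d2 t.d2)).2) (max s.d1 t.d1) (max s.d2 t.d2)
  | .sub p q =>
    match p.evK A B a b L, q.evK A B a b L with
    | s, t => frc ((s.up A B a b (max s.d1 t.d1) (max s.d2 t.d2)).1 -
        (t.up A B a b (max s.d1 t.d1) (max s.d2 t.d2)).1)
      ((s.up A B a b (max s.d1 t.d1) (max s.d2 t.d2)).2 +
        (t.up A B a b (max s.d1 t.d1) (max s.d2 t.d2)).2) (max s.d1 t.d1) (max s.d2 t.d2)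
  | .mul p q =>
    match p.evK A B a b L, q.evK A B a b L with
    | s, t => frc (s.N * t.N) (s.M * t.M) (s.d1 + t.d1) (s.d2 + t.d2)
  | .pow p n =>
    match p.evK A B a b L with
    | s => frc (s.N ^ n) (s.M ^ n) (s.d1 * n) (s.d2 * n)

variable {c : Cfg} {x y α β : ℝ} {A B : ℤ} {a b : ℕ}

def Sem (c : Cfg) (x y α β : ℝ) (s : K) (u : ℝ) : Prop :=
  Core c x y 0 s.N s.M s.d1 s.d2 1 (u * α ^ s.d1 * β ^ s.d2)

theorem Sem.up (hA : Core c x y 0 A a 1 0 1 α) (hB : Core c x y 0 B b 0 1 1 β) {s : K} {u : ℝ}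
    (h : Sem c x y α β s u) {d1 d2 : ℕ} (h1 : s.d1 ≤ d1) (h2 : s.d2 ≤ d2) :
    Core c x y 0 (s.up A B a b d1 d2).1 (s.up A B a b d1 d2).2 d1 d2 1 (u * α ^ d1 * β ^ d2) := by
  have g := Core.mul h ((hA.pow (d1 - s.d1)).mul (hB.pow (d2 - s.d2)))
  have e : u * α ^ d1 * β ^ d2 =
      u * α ^ s.d1 * β ^ s.d2 * (α ^ (d1 - s.d1) * β ^ (d2 - s.d2)) := by
    obtain ⟨i, rfl⟩ := Nat.exists_eq_add_of_le h1
    obtain ⟨k, rfl⟩ := Nat.exists_eq_add_of_le h2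
    simp only [Nat.add_sub_cancel_left, pow_add]
    ring
  rw [e]
  exact g.weak rfl (by simp [K.up]) (by omega) (by omega) le_rfl

theorem Ex.sem (hA : Core c x y 0 A a 1 0 1 α) (hB : Core c x y 0 B b 0 1 1 β) {L : List K}
    {ρ : ℕ → ℝ} (hL : ∀ i, Sem c x y α β (L.getD i ⟨0, 0, 0, 0⟩) (ρ i)) (e : Ex) :
    Sem c x y α β (e.evK A B a b L) (e.ev ρ) := by
  induction e with
  | v i => exact hL i
  | c n =>
    have := Core.cst (c := c) (x := x) (y := y) (z := 0) (J := 1) n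
    simpa [Sem, Ex.evK, Ex.ev] using this
  | add p q ihp ihq =>
    have g := (ihp.up hA hB (le_max_left _ (q.evK A B a b L).d1)
      (le_max_left _ (q.evK A B a b L).d2)).add (ihq.up hA hB (le_max_right _ _) (le_max_right _ _))
    simp only [Sem, Ex.evK, Ex.ev, frc_eq]
    push_cast
    convert g using 1
    ring
  | sub p q ihp ihq =>
    have g := (ihp.up hA hB (le_max_left _ (q.evK A B a b L).d1)
      (le_max_left _ (q.evK A B a b L).d2)).sub (ihq.up hA hB (le_max_right _ _) (le_max_right _ _))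
    simp only [Sem, Ex.evK, Ex.ev, frc_eq]
    push_cast
    convert g using 1
    ring
  | mul p q ihp ihq =>
    have g := Core.mul ihp ihq
    simp only [Sem, Ex.evK, Ex.ev, frc_eq]
    push_cast
    convert g using 1
    ring
  | pow p n ih =>
    have g := Core.pow ih n
    simp only [Sem, Ex.evK, Ex.ev, frc_eq]
    push_cast
    convert g using 1
    ring

def cfg (kb W : ℕ) : Cfg := ⟨kb, W, W, 0, 0, 1, 1, 1, 1, false, 0, 1⟩

/-- first variable in `[n1 / d, n2 / d]`, second variable in `[0, 1 / m]` -/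
def chkK (kb W n1 n2 d m : ℕ) (f : List Ex) (e : Ex) : Bool :=
  fN (2 ^ kb) fun X => fN (2 ^ (kb * W)) fun Y =>
  let ev := Ex.evK (d + d * X : ℕ) (m + m * Y : ℕ) (d + d) (m + m)
  match ev (f.map (ev [⟨(n1 + n2 * X : ℕ), n1 + n2, 1, 0⟩, ⟨Y, 1, 0, 1⟩])) e with
  | s => fN ((cfg kb W).H3 1) fun H => decide (1 ≤ kb) && decide (s.M < (cfg kb W).h) &&
    decide (s.d1 < W) && decide (s.d2 < W) && decide (0 ≤ s.N + H) &&
    Nat.beq (Nat.land (s.N + H).toNat H) H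

theorem lin1 (kb W p q : ℕ) :
    Core (cfg kb W) x y 0 (p + q * 2 ^ kb : ℕ) (p + q : ℕ) 1 0 1 (p + q * x) := by
  have g := ((Core.cst (c := cfg kb W) (x := x) (y := y) (z := 0) (J := 1) p).weak rfl le_rfl
    (Nat.zero_le 1) le_rfl le_rfl).add (Core.one (c := cfg kb W) q 1 0)
  simpa [cfg] using g

theorem lin2 (kb W p q : ℕ) :
    Core (cfg kb W) x y 0 (p + q * 2 ^ (kb * W) : ℕ) (p + q : ℕ) 0 1 1 (p + q * y) := by
  have g := ((Core.cst (c := cfg kb W) (x := x) (y := y) (z := 0) (J := 1) p).weak rfl le_rfl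
    le_rfl (Nat.zero_le 1) le_rfl).add (Core.one (c := cfg kb W) q 0 1)
  simpa [cfg, Cfg.b2_eq] using g

theorem chkK_ok {kb W n1 n2 d m : ℕ} {f : List Ex} {e : Ex} (h : chkK kb W n1 n2 d m f e = true)
    (hd : 0 < d) (hm : 0 < m) {z q : ℝ} (z1 : n1 ≤ d * z) (z2 : d * z < n2) (q0 : 0 ≤ q)
    (q1 : m * q < 1) {l : List ℝ} (hl : f.map (Ex.ev (fun k => [z, q].getD k 0)) = l) :
    0 ≤ e.ev (fun k => l.getD k 0) := by
  simp only [chkK, fN_eq, Bool.and_eq_true, decide_eq_true_eq, Nat.beq_eq] at h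
  obtain ⟨⟨⟨⟨⟨h1, h2⟩, h3⟩, h4⟩, h5⟩, h6⟩ := h
  have d0 : (0 : ℝ) < d := by exact_mod_cast hd
  have m0 : (0 : ℝ) < m := by exact_mod_cast hm
  have p1 : (0 : ℝ) < n2 - d * z := by linarith
  have p2 : (0 : ℝ) < 1 - m * q := by linarith
  obtain ⟨x, x0, hx⟩ : ∃ x : ℝ, 0 ≤ x ∧ z * (d + d * x) = n1 + n2 * x :=
    ⟨(d * z - n1) / (n2 - d * z), div_nonneg (by linarith) p1.le, by
      linear_combination -(div_mul_cancel₀ (d * z - n1) p1.ne')⟩
  obtain ⟨y, y0, hy⟩ : ∃ y : ℝ, 0 ≤ y ∧ q * (m + m * y) = y :=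
    ⟨m * q / (1 - m * q), div_nonneg (by positivity) p2.le, by
      linear_combination -(div_mul_cancel₀ (m * q) p2.ne')⟩
  have hA := lin1 (x := x) (y := y) kb W d d
  have hB := lin2 (x := x) (y := y) kb W m m
  have s0 : ∀ i, Sem (cfg kb W) x y (d + d * x) (m + m * y)
      (([⟨(n1 + n2 * 2 ^ kb : ℕ), n1 + n2, 1, 0⟩, ⟨(2 ^ (kb * W) : ℕ), 1, 0, 1⟩] : List K).getD i
        ⟨0, 0, 0, 0⟩) ([z, q].getD i 0) := by
    intro i
    match i with
    | 0 => simpa [Sem, hx] using lin1 (x := x) (y := y) kb W n1 n2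
    | 1 => simpa [Sem, hy] using lin2 (x := x) (y := y) kb W 0 1
    | i + 2 => simpa [Sem] using Core.zero
  have s2 := fun p => Ex.sem hA hB (ρ := fun k => [z, q].getD k 0) s0 p
  generalize Ex.evK _ _ _ _ [_, _] = F at s2 h2 h3 h4 h5 h6
  have s3 : ∀ i, Sem (cfg kb W) x y (d + d * x) (m + m * y) ((f.map F).getD i ⟨0, 0, 0, 0⟩)
      (l.getD i 0) := by
    intro i
    rw [← hl, List.getD_eq_getElem?_getD, List.getD_eq_getElem?_getD, List.getElem?_map,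
      List.getElem?_map]
    cases f[i]? with
    | none => simpa [Sem] using Core.zero
    | some p => exact s2 p
  have s1 := Ex.sem hA hB (ρ := fun k => l.getD k 0) s3 e
  generalize Ex.evK _ _ _ _ _ e = s at s1 h2 h3 h4 h5 h6
  have h2' : ((s.M : ℕ) : ℝ) < ((cfg kb W).h : ℕ) := by exact_mod_cast h2
  have ft : (cfg kb W).Fit s.M s.d1 s.d2 1 :=
    ⟨h1, le_rfl, by simpa [cfg] using h2', by simpa [cfg] using h3, by simpa [cfg] using h4⟩
  have g := Core.pos s1 ft (by rw [Int.toNat_of_nonneg h5]) x0 y0 h6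
  have pp : (0 : ℝ) < (d + d * x) ^ s.d1 * (m + m * y) ^ s.d2 := by positivity
  rw [mul_assoc] at g
  exact nonneg_of_mul_nonneg_left g pp

end Pool.Agent.Lib.MP_b2ee0b_nt.Iv
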