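import Mathlib
import Pool.Agent.Lib.MP_b2ee0b_nt.Diff4

namespace Pool.Agent.Lib.MP_b2ee0b_nt

lemma sq_nonneg_root {n : ℤ} (h : IsSquare n) : ∃ r : ℤ, 0 ≤ r ∧ r ^ 2 = n := by
  obtain ⟨r, hr⟩ := h
  exact ⟨|r|, abs_nonneg r, by rw [sq_abs, hr]; ring⟩

lemma regular_sorted {a b c : ℤ} (ha : 0 < a) (hab : a < b) (hbc : b < c)
    (hr : IsSquare (a * b + 4)) (hreg : (c - a - b) ^ 2 = 4 * (a * b + 4)) : ¬ T3 a b c := by
  rintro ⟨α, β, γ, t, h1, h2, h3, h4⟩
  obtain ⟨r, r0, hr⟩ := sq_nonneg_root hr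
  have har : a < r := by nlinarith
  have hc : c = a + b + 2 * r := by
    have : (c - a - b - 2 * r) * (c - a - b + 2 * r) = 0 := by linear_combination hreg - 4 * hr
    rcases mul_eq_zero.1 this with h | h <;> omega
  obtain ⟨d, p, q, -, -, -, -, -, f2, -, -, f5⟩ := param (by omega) hab.ne h1 h2 h3 h4
  obtain ⟨z, hz⟩ : (4 : ℤ) ∣ d * (q ^ 2 - p ^ 2) := by
    rcases Int.even_or_odd (q - p) with ⟨w, hw⟩ | hodd
    · exact ⟨d * (w * (w + p)), by rw [show q = p + w + w by linarith]; ring⟩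
    · have o1 : Odd ((q - p) ^ 3 * (q + 3 * p)) := by
        apply Odd.mul hodd.pow
        rw [show q + 3 * p = (q - p) + 2 * (2 * p) by ring]
        exact hodd.add_even (even_two_mul _)
      have c1 : IsCoprime (2 ^ 4 : ℤ) ((q - p) ^ 3 * (q + 3 * p)) := by
        apply IsCoprime.pow_left
        obtain ⟨w, hw⟩ := o1
        exact ⟨-w, 1, by rw [hw]; ring⟩
      have c2 : (4 : ℤ) ^ 2 ∣ d ^ 2 := c1.dvd_of_dvd_mul_right ⟨a * (b - c), by rw [f2]; ring⟩
      exact Dvd.dvd.mul_right ((Int.pow_dvd_pow_iff (by norm_num)).1 c2) _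
  have hα : α = z := by
    have : (d : ℚ) * (q ^ 2 - p ^ 2) = 4 * z := by exact_mod_cast hz
    linarith
  have ha' : (0 : ℚ) < a := by exact_mod_cast ha
  have hab' : (a : ℚ) < b := by exact_mod_cast hab
  have hbc' : (b : ℚ) < c := by exact_mod_cast hbc
  have har' : (a : ℚ) < r := by exact_mod_cast har
  have hr' : (r : ℚ) ^ 2 = a * b + 4 := by exact_mod_cast hr
  have hc' : (c : ℚ) = a + b + 2 * r := by exact_mod_cast hc
  have l1 : α ^ 2 < β ^ 2 := by rw [h1, h2]; nlinarith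
  have l2 : α ^ 2 < γ ^ 2 := by rw [h1, h3]; nlinarith
  have b0 : 0 < β ^ 2 := lt_of_le_of_lt (sq_nonneg _) l1
  have g0 : 0 < γ ^ 2 := lt_of_le_of_lt (sq_nonneg _) l2
  have b1 : β ≠ 0 := by rintro rfl; simp at b0
  have g1 : γ ≠ 0 := by rintro rfl; simp at g0
  obtain ⟨u, hu⟩ : ∃ u, α = -u * β := ⟨-α / β, by field_simp⟩
  obtain ⟨v, hv⟩ : ∃ v, α = -v * γ := ⟨-α / γ, by field_simp⟩
  have huv : u + v = 1 := by
    apply mul_right_cancel₀ (mul_ne_zero b1 g1)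
    linear_combination γ * hu + β * hv - h4
  have u2 : α ^ 2 = u ^ 2 * β ^ 2 := by rw [hu]; ring
  have v2 : α ^ 2 = v ^ 2 * γ ^ 2 := by rw [hv]; ring
  have u1 : u ^ 2 < 1 := by nlinarith
  have v1 : v ^ 2 < 1 := by nlinarith
  have u0 : 0 < u := by nlinarith
  have v0 : 0 < v := by nlinarith
  have c0 : (0 : ℚ) < c := by linarith
  rcases le_or_gt t 0 with ht | ht
  · have e1 : u ^ 2 * c ≤ b := by
      have : u ^ 2 * c * β ^ 2 ≤ b * β ^ 2 := by
        rw [show u ^ 2 * c * β ^ 2 = c * (u ^ 2 * β ^ 2) by ring, ← u2, h1, h2]; nlinarith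
      exact le_of_mul_le_mul_right this b0
    have e2 : v ^ 2 * c ≤ a := by
      have : v ^ 2 * c * γ ^ 2 ≤ a * γ ^ 2 := by
        rw [show v ^ 2 * c * γ ^ 2 = c * (v ^ 2 * γ ^ 2) by ring, ← v2, h1, h3]; nlinarith
      exact le_of_mul_le_mul_right this g0
    have e3 : (u * v * c) ^ 2 < r ^ 2 := by
      calc (u * v * c) ^ 2 = (u ^ 2 * c) * (v ^ 2 * c) := by ring
        _ ≤ (b : ℚ) * a := by gcongr; linarith
        _ < (r : ℚ) ^ 2 := by rw [hr']; linarith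
    have e4 : u * v * c < r := lt_of_pow_lt_pow_left₀ 2 (by linarith) e3
    have e5 : (c : ℚ) = u ^ 2 * c + v ^ 2 * c + 2 * (u * v * c) := by
      linear_combination (-c * (u + v + 1)) * huv
    linarith
  rcases le_or_gt 4 t with ht4 | ht4
  · have s2 : ((a : ℚ) + r) ^ 2 = a * c + 4 := by rw [hc']; linear_combination hr'
    have t2 : ((b : ℚ) + r) ^ 2 = b * c + 4 := by rw [hc']; linear_combination hr'
    have e1 : (r : ℚ) ≤ u * (a + r) := by
      apply le_of_pow_le_pow_left₀ two_ne_zero (by positivity)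
      have : (r : ℚ) ^ 2 * β ^ 2 ≤ (u * (a + r)) ^ 2 * β ^ 2 := by
        rw [show (u * (a + r)) ^ 2 * β ^ 2 = (a + r) ^ 2 * (u ^ 2 * β ^ 2) by ring, ← u2, h1, h2, s2,
          hr']
        have : (0 : ℚ) ≤ (t - 4) * (a * (c - b)) := by
          apply mul_nonneg (by linarith) (mul_nonneg ha'.le (by linarith))
        nlinarith
      exact le_of_mul_le_mul_right this b0
    have e2 : (r : ℚ) ≤ v * (b + r) := by
      apply le_of_pow_le_pow_left₀ two_ne_zero (mul_nonneg v0.le (by linarith))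
      have : (r : ℚ) ^ 2 * γ ^ 2 ≤ (v * (b + r)) ^ 2 * γ ^ 2 := by
        rw [show (v * (b + r)) ^ 2 * γ ^ 2 = (b + r) ^ 2 * (v ^ 2 * γ ^ 2) by ring, ← v2, h1, h3, t2,
          hr']
        have : (0 : ℚ) ≤ (t - 4) * (b * (c - a)) := by
          apply mul_nonneg (by linarith) (mul_nonneg (by linarith) (by linarith))
        nlinarith
      exact le_of_mul_le_mul_right this g0
    have p1 : (0 : ℚ) < a + r := by linarith
    have p2 : (0 : ℚ) < b + r := by linarith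
    have e3 : (r : ℚ) * (b + r) ≤ u * (a + r) * (b + r) := by gcongr
    have e4 : (r : ℚ) * (a + r) ≤ v * (b + r) * (a + r) := by gcongr
    have e5 : u * (a + r) * (b + r) + v * (b + r) * (a + r) = (a + r) * (b + r) := by
      linear_combination ((a + r) * (b + r)) * huv
    nlinarith
  · rw [hα] at h1
    have e1 : (r : ℚ) ^ 2 - 4 < (z : ℚ) ^ 2 := by linarith
    have e2 : (z : ℚ) ^ 2 < (r : ℚ) ^ 2 := by linarith
    have e1' : r ^ 2 - 4 < z ^ 2 := by exact_mod_cast e1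
    have e2' : z ^ 2 < r ^ 2 := by exact_mod_cast e2
    have e3 : |z| < r := abs_lt_of_sq_lt_sq e2' r0
    have e4 : 3 ≤ r := by nlinarith
    have e5 : z ^ 2 ≤ (r - 1) ^ 2 := by
      rw [← sq_abs z]
      exact pow_le_pow_left₀ (abs_nonneg z) (by omega) 2
    nlinarith

lemma regular_pos {a b c : ℤ} (ha : 0 < a) (hb : 0 < b) (hc : 0 < c) (hab : a ≠ b) (hac : a ≠ c)
    (hbc : b ≠ c) (h1 : IsSquare (a * b + 4)) (h2 : IsSquare (a * c + 4)) (h3 : IsSquare (b * c + 4))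
    (hreg : (c - a - b) ^ 2 = 4 * (a * b + 4)) : ¬ T3 a b c := by
  intro h
  have h1' : IsSquare (b * a + 4) := by rwa [mul_comm]
  have h2' : IsSquare (c * a + 4) := by rwa [mul_comm]
  have h3' : IsSquare (c * b + 4) := by rwa [mul_comm]
  rcases lt_or_gt_of_ne hab with x | x <;> rcases lt_or_gt_of_ne hac with y | y <;>
    rcases lt_or_gt_of_ne hbc with z | z
  · exact regular_sorted ha x z h1 hreg h
  · exact regular_sorted ha y z h2 (by linarith) h.swap23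
  · omega
  · exact regular_sorted hc y x h2' (by linarith) h.swap23.swap12
  · exact regular_sorted hb x y h1' (by linarith) h.swap12
  · omega
  · exact regular_sorted hb z y h3 (by linarith) h.swap12.swap23
  · exact regular_sorted hc z x h3' (by linarith) h.swap12.swap23.swap12

lemma dich {x y z : ℤ} (hx : 0 < x) (hy : 5 ≤ y) (hz : 0 < z) (h1 : IsSquare (x * y + 4))
    (h2 : IsSquare (x * z + 4)) (h3 : IsSquare (y * z + 4)) :
    (z - x - y) ^ 2 = 4 * (x * y + 4) ∨ ∃ e : ℤ, 1 ≤ e ∧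
      e * (x * y * z) < (z - x - y) ^ 2 - 4 * (x * y + 4) ∧ IsSquare (x * e + 4) ∧
        IsSquare (y * e + 4) := by
  obtain ⟨r, r0, hr⟩ := sq_nonneg_root h1
  obtain ⟨s, s0, hs⟩ := sq_nonneg_root h2
  obtain ⟨τ, t0, ht⟩ := sq_nonneg_root h3
  have hP : (r * s * τ) ^ 2 = (x * y + 4) * (x * z + 4) * (y * z + 4) := by
    rw [← hr, ← hs, ← ht]; ring
  have hev : Even (x * y * z - r * s * τ) := by
    have : Even ((x * y * z - r * s * τ) * (x * y * z + r * s * τ)) :=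
      ⟨-2 * (x * y * z * (x + y + z) + 4 * (x * y + x * z + y * z) + 16), by linear_combination -hP⟩
    rcases Int.even_mul.1 this with h | ⟨w, h⟩
    · exact h
    · exact ⟨w - r * s * τ, by linarith⟩
  obtain ⟨w, hw⟩ := hev
  have half : ∀ m n : ℤ, m ^ 2 = 4 * n → IsSquare n := by
    intro m n h
    have : Even (m ^ 2) := ⟨2 * n, by linarith⟩
    obtain ⟨j, rfl⟩ := (Int.even_pow.1 this).1
    exact ⟨j, by linarith⟩
  have q1 : IsSquare (x * (x + y + z + w) + 4) := half (x * τ - r * s) _ (by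
    linear_combination x ^ 2 * ht + s ^ 2 * hr + (x * y + 4) * hs + 2 * x * hw)
  have q2 : IsSquare (y * (x + y + z + w) + 4) := half (y * s - r * τ) _ (by
    linear_combination y ^ 2 * hs + τ ^ 2 * hr + (x * y + 4) * ht + 2 * y * hw)
  have hxyz : 0 < x * y * z := by positivity
  have hge : x * y * z ≤ r * s * τ := by
    apply le_of_pow_le_pow_left₀ two_ne_zero (by positivity)
    rw [hP]
    calc (x * y * z) ^ 2 = (x * y) * (x * z) * (y * z) := by ring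
      _ ≤ _ := by gcongr <;> linarith
  have hid : (x + y + z + w) * (2 * (x + y + z) + x * y * z + r * s * τ) =
      2 * ((z - x - y) ^ 2 - 4 * (x * y + 4)) := by
    have : 2 * ((x + y + z + w) * (2 * (x + y + z) + x * y * z + r * s * τ)) =
        2 * (2 * ((z - x - y) ^ 2 - 4 * (x * y + 4))) := by
      linear_combination -(2 * (x + y + z) + x * y * z + r * s * τ) * hw - hP
    linarith
  have he0 : 0 ≤ x + y + z + w := by
    have := q2.nonneg
    by_contra h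
    push Not at h
    nlinarith
  rcases eq_or_lt_of_le he0 with h | h
  · left
    rw [← h] at hid
    linarith
  · right
    refine ⟨x + y + z + w, h, ?_, q1, q2⟩
    nlinarith

lemma small_reg {a b e : ℤ} (ha : 0 < a) (hab : a < b) (hb2 : b < 2 * a) (hb : 5 ≤ b) (he : 0 < e)
    (heb : e ≤ b) (h1 : IsSquare (a * b + 4)) (h2 : IsSquare (a * e + 4))
    (h3 : IsSquare (b * e + 4)) : (e - a - b) ^ 2 = 4 * (a * b + 4) := by
  rcases dich ha hb he h1 h2 h3 with h | ⟨f, f1, f2, -, -⟩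
  · exact h
  · exfalso
    have a1 : (b - a - e) ^ 2 ≤ a ^ 2 := by
      apply sq_le_sq' <;> omega
    have a2 : a * b * 1 ≤ a * b * e := by gcongr; omega
    have a3 : 1 * (a * b * e) ≤ f * (a * b * e) := by gcongr
    nlinarith

lemma c_lower {a b c : ℤ} (ha : 0 < a) (hab : a < b) (hb2 : b < 2 * a) (hb : 16 ≤ b) (hc : 0 < c)
    (h1 : IsSquare (a * b + 4)) (h2 : IsSquare (a * c + 4)) (h3 : IsSquare (b * c + 4))
    (hreg : (c - a - b) ^ 2 ≠ 4 * (a * b + 4)) :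
    a * b ≤ c ∧ a * b * (b - a) ^ 2 ≤ 3 * (a + b) * c := by
  rcases dich ha (by omega) hc h1 h2 h3 with h | ⟨e, e1, e2, e3, e4⟩
  · exact absurd h hreg
  have hcb : b < c := by
    by_contra h
    exact hreg (small_reg ha hab hb2 (by omega) hc (by omega) h1 h2 h3)
  have hab0 : 0 < a * b := by positivity
  have a1 : (c - a - b) ^ 2 ≤ c ^ 2 := by
    apply sq_le_sq' <;> omega
  have a2 : e * (a * b) ≤ c := by
    have : e * (a * b) * c ≤ c * c := by nlinarith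
    exact le_of_mul_le_mul_right this hc
  have a3 : (b - a) ^ 2 ≤ 3 * (a + b) * e := by
    rcases le_or_gt e b with h | h
    · have := small_reg ha hab hb2 (by omega) (by omega) h h1 e3 e4
      nlinarith
    · nlinarith
  refine ⟨by nlinarith, ?_⟩
  calc a * b * (b - a) ^ 2 ≤ a * b * (3 * (a + b) * e) := by gcongr
    _ = 3 * (a + b) * (e * (a * b)) := by ring
    _ ≤ _ := by gcongr

lemma near_core {g n h c : ℤ} (hg : 0 < g) (hh : 0 < h) (hn : 0 < n)
    (hS : 10 ^ 7 * h ^ 6 ≤ 2 * n + h) (hc : g * n * (g * (n + h)) ≤ c)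
    (hc2 : g * n * (g * (n + h)) * (g * h) ^ 2 ≤ 3 * (g * (2 * n + h)) * c) :
    ¬ T3 (g * n) (g * (n + h)) c := by
  rintro ⟨α, β, γ, t, h1, h2, h3, h4⟩
  have hc0 : 0 < c := lt_of_lt_of_le (by positivity) hc
  obtain ⟨d, p, q, u, v, hp, -, f1, f2, f3, f4, -⟩ :=
    param hc0.ne' (by nlinarith) h1 h2 h3 h4
  have f1' : d ^ 2 * (p ^ 3 * q) = c * (g * h) := by linarith
  have hcg : 0 < c * (g * h) := by positivity
  have hd : d ≠ 0 := by rintro rfl; omega
  have hd2 : 0 < d ^ 2 := by positivity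
  have hp3 : 0 < p ^ 3 := by positivity
  have hq : 0 < q := by
    by_contra h
    push Not at h
    have : d ^ 2 * (p ^ 3 * q) ≤ 0 := mul_nonpos_of_nonneg_of_nonpos (by omega) (by nlinarith)
    omega
  have hgd : g ≤ 3 * d ^ 2 := Int.le_of_dvd (by omega)
    ⟨u * (c * h) + v * (16 * (n * (g * (n + h) - c))), by rw [f4]; ring⟩
  have f5 : d ^ 2 * (h * (q ^ 4 - 6 * p ^ 2 * q ^ 2 - 3 * p ^ 4) + 8 * (2 * n + h) * (p ^ 3 * q)) =
      16 * g ^ 2 * (n * (n + h)) * h := by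
    apply mul_left_cancel₀ hg.ne'
    linear_combination (g * (n + h)) * f2 - (g * n) * f3
  obtain ⟨D, hD⟩ : ∃ D : ℝ, D = (d : ℝ) ^ 2 := ⟨_, rfl⟩
  obtain ⟨S, hSdef⟩ : ∃ S : ℝ, S = 2 * n + h := ⟨_, rfl⟩
  obtain ⟨N, hN⟩ : ∃ N : ℝ, N = n * (n + h) := ⟨_, rfl⟩
  have hg' : (0 : ℝ) < g := by exact_mod_cast hg
  have hh' : (1 : ℝ) ≤ h := by exact_mod_cast hh
  have hh0 : (0 : ℝ) < h := by linarith
  have hn' : (1 : ℝ) ≤ n := by exact_mod_cast hn
  have hp' : (0 : ℝ) < p := by exact_mod_cast hp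
  have hq' : (0 : ℝ) < q := by exact_mod_cast hq
  have hc0' : (0 : ℝ) < c := by exact_mod_cast hc0
  have hD0 : 0 < D := by rw [hD]; exact_mod_cast hd2
  have hS' : 10 ^ 7 * (h : ℝ) ^ 6 ≤ S := by rw [hSdef]; exact_mod_cast hS
  have hN0 : 0 < N := by rw [hN]; positivity
  have hNS : 4 * N ≤ S ^ 2 := by rw [hN, hSdef]; nlinarith
  have r1 : D * (p ^ 3 * q) = c * (g * h) := by rw [hD]; exact_mod_cast f1'
  have r2 : (g : ℝ) ≤ 3 * D := by rw [hD]; exact_mod_cast hgd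
  have r3 : D * (h * (q ^ 4 - 6 * p ^ 2 * q ^ 2 - 3 * p ^ 4) + 8 * S * (p ^ 3 * q)) =
      16 * g ^ 2 * N * h := by rw [hD, hSdef, hN]; exact_mod_cast f5
  have r4 : (g : ℝ) ^ 2 * N ≤ c := by
    have : (g : ℝ) * n * (g * (n + h)) ≤ c := by exact_mod_cast hc
    rw [hN]; linarith
  have r5 : (g : ℝ) ^ 4 * N * h ^ 2 ≤ 3 * g * S * c := by
    have : (g : ℝ) * n * (g * (n + h)) * (g * h) ^ 2 ≤ 3 * (g * (2 * n + h)) * c := by
      exact_mod_cast hc2
    rw [hN, hSdef]; linarith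
  have hpow : ∀ i j : ℕ, i ≤ j → (h : ℝ) ^ i ≤ h ^ j := fun i j hij => pow_le_pow_right₀ hh' hij
  have hS2 : 10 ^ 7 * (h : ℝ) ^ 2 ≤ S := le_trans (by have := hpow 2 6 (by norm_num); linarith) hS'
  have hS1 : 10 ^ 7 * (h : ℝ) ≤ S := le_trans (by have := hpow 1 6 (by norm_num); rw [pow_one] at this; linarith) hS'
  have hS5 : 10 ^ 7 * (h : ℝ) ^ 5 ≤ S := le_trans (by have := hpow 5 6 (by norm_num); linarith) hS'
  have hS0 : 0 < S := by linarith
  obtain ⟨K, hKdef⟩ : ∃ K : ℚ, K = 8 * (2 * n + h) / h := ⟨_, rfl⟩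
  have hK : (K : ℝ) = 8 * S / h := by rw [hKdef, hSdef]; push_cast; ring
  have hL : (((8 * (2 * n + h) : ℤ)) : ℝ) = 8 * S := by rw [hSdef]; push_cast; ring
  have hKh : (K : ℝ) * h = 8 * S := by rw [hK]; field_simp
  have hK400 : (400 : ℝ) ≤ K := by rw [hK, le_div_iff₀ hh0]; linarith
  obtain ⟨G, hG⟩ : ∃ G : ℝ, G = q ^ 4 - 6 * p ^ 2 * q ^ 2 + K * p ^ 3 * q - 3 * p ^ 4 := ⟨_, rfl⟩
  have r6 : D * G = 16 * g ^ 2 * N := by
    apply mul_right_cancel₀ hh0.ne'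
    rw [hG]; linear_combination r3 + D * p ^ 3 * q * hKh
  have hG0 : 0 < G := by
    have : 0 < D * G := by rw [r6]; positivity
    exact (pos_iff_pos_of_mul_pos this).1 hD0
  have hsm : G ≤ K * p ^ 3 * q / 2 := by
    have e : D * (K * p ^ 3 * q / 2) = 4 * g * S * c := by
      linear_combination (K / 2) * r1 + (c * g / 2) * hKh
    have : D * G ≤ D * (K * p ^ 3 * q / 2) := by
      rw [e, r6]
      have g1 : (1 : ℝ) ≤ g := by exact_mod_cast hg
      have : (4 : ℝ) ≤ g * S := by nlinarith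
      nlinarith
    exact le_of_mul_le_mul_left this hD0
  have hx := xsmall K p q hK400 hp' hq' (by rw [← hG]; exact hsm)
  have r7 : 8 * (g : ℝ) ^ 4 * N * h ^ 2 ≤ 21 * (D * p ^ 4) := by
    have e : D * p ^ 3 * (K * q) = 8 * g * S * c := by linear_combination K * r1 + c * g * hKh
    have : D * p ^ 3 * (K * q) ≤ D * p ^ 3 * (7 * p) := by gcongr
    nlinarith
  refine thue K (8 * (2 * n + h)) h hh (by rw [hKdef]; push_cast; field_simp)
    (by exact_mod_cast hK400) p q hp hq G hG hG0 hx 3 5 (by norm_num) (13 * S * h) ?_ ?_ ?_ ?_ ?_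
  · have hK1 : 7.9 * S / h ≤ K - 1 := by
      rw [hK, div_le_iff₀ hh0, sub_mul, div_mul_cancel₀ _ hh0.ne']; linarith
    have hK2 : (0 : ℝ) < 7.9 * S / h := by positivity
    have w1 : G / ((K - 1) * p ^ 3) ≤ 16 * g ^ 2 * N * h / (7.9 * S * D * p ^ 3) := by
      calc G / ((K - 1) * p ^ 3) ≤ G / (7.9 * S / h * p ^ 3) := by gcongr
        _ = (D * G) * h / (7.9 * S * D * p ^ 3) := by field_simp
        _ = _ := by rw [r6]
    have w0 : 0 ≤ G / ((K - 1) * p ^ 3) := div_nonneg hG0.le (mul_pos (by linarith) (by positivity)).le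
    have w2 : 8 * (g : ℝ) ^ 6 * N * h ^ 2 / 189 ≤ D ^ 3 * p ^ 4 := by
      have a1 : ((g : ℝ) / 3) ^ 2 ≤ D ^ 2 := by gcongr; linarith
      calc 8 * (g : ℝ) ^ 6 * N * h ^ 2 / 189 = (g / 3) ^ 2 * (8 * (g : ℝ) ^ 4 * N * h ^ 2 / 21) := by ring
        _ ≤ D ^ 2 * (D * p ^ 4) := by gcongr; linarith
        _ = _ := by ring
    have w3 : N ^ 2 ≤ (S ^ 2 / 4) ^ 2 := by gcongr; linarith
    calc (G / ((K - 1) * p ^ 3)) ^ 3 * p ^ 5
        ≤ (16 * g ^ 2 * N * h / (7.9 * S * D * p ^ 3)) ^ 3 * p ^ 5 := by gcongr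
      _ = (16 * g ^ 2 * N * h / (7.9 * S)) ^ 3 / (D ^ 3 * p ^ 4) := by field_simp
      _ ≤ (16 * g ^ 2 * N * h / (7.9 * S)) ^ 3 / (8 * (g : ℝ) ^ 6 * N * h ^ 2 / 189) := by gcongr
      _ = (96768 / 493.039) * N ^ 2 * h / S ^ 3 := by field_simp; ring
      _ ≤ (96768 / 493.039) * (S ^ 2 / 4) ^ 2 * h / S ^ 3 := by gcongr
      _ = (6048 / 493.039) * (S * h) := by field_simp; ring
      _ ≤ 13 * (S * h) := by gcongr; norm_num
      _ = _ := by ring
  · rw [hL, hK]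
    have e : (8 * S / h / (110 * h)) ^ 5 = S ^ 3 * ((8 / 110) ^ 5 * (S / h ^ 5) ^ 2) := by
      field_simp
    have a1 : (10 : ℝ) ^ 7 ≤ S / h ^ 5 := by rw [le_div_iff₀ (by positivity)]; exact hS5
    rw [e, show (27 * (8 * S) / 4) ^ 3 = S ^ 3 * 157464 by ring]
    gcongr
    calc (157464 : ℝ) ≤ (8 / 110) ^ 5 * (10 ^ 7) ^ 2 := by norm_num
      _ ≤ _ := by gcongr
  · rw [hL, hK]
    have e : (0.246 * (8 * S / h)) ^ 5 = S ^ 4 * h * (1.968 ^ 5 * (S / h ^ 6)) := by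
      field_simp; ring
    have a1 : (10 : ℝ) ^ 7 ≤ S / h ^ 6 := by rw [le_div_iff₀ (by positivity)]; exact hS'
    rw [e, show 4 ^ 3 * (27 * (8 * S) / 4) ^ 3 * (13 * S * h) = S ^ 4 * h * 131010048 by ring]
    gcongr
    calc (131010048 : ℝ) ≤ 1.968 ^ 5 * 10 ^ 7 := by norm_num
      _ ≤ _ := by gcongr
  · rw [hK]
    have e : (8 * S / h / 7) ^ 5 = S * h * ((8 / 7) ^ 5 * (S / h ^ 6) * S ^ 3) := by
      field_simp
    have a1 : (10 : ℝ) ^ 7 ≤ S / h ^ 6 := by rw [le_div_iff₀ (by positivity)]; exact hS'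
    have a2 : (1 : ℝ) ≤ S := by linarith
    rw [e, show 4 ^ 3 * (13 * S * h) = S * h * 832 by ring]
    gcongr
    calc (832 : ℝ) ≤ (8 / 7) ^ 5 * 10 ^ 7 * 1 ^ 3 := by norm_num
      _ ≤ _ := by gcongr
  · rw [hK, lt_div_iff₀ hh0]; nlinarith

end Pool.Agent.Lib.MP_b2ee0b_nt
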