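import Mathlib
import Pool.Agent.Lib.MP_b2ee0b_nt.Near

namespace Pool.Agent.Lib.MP_b2ee0b_nt

lemma neg_sq {n : ℤ} (hn : n < 0) (h : IsSquare (n + 4)) : n = -3 ∨ n = -4 := by
  obtain ⟨r, r0, hr⟩ := sq_nonneg_root h
  have : r ≤ 1 := by nlinarith
  interval_cases r <;> omega

lemma mixed {x y z : ℤ} (hx : x < 0) (hy : 0 < y) (hz : 0 < z) (hyz : y ≠ z)
    (h1 : IsSquare (x * y + 4)) (h2 : IsSquare (x * z + 4)) : ¬ T3 x y z := by
  have base : ¬ T3 (-1) 3 4 :=
    diff4 (a := -1) (c := 4) (by norm_num) (by norm_num) (by norm_num) ⟨0, by norm_num⟩ ⟨4, by norm_num⟩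
  have a1 := neg_sq (mul_neg_of_neg_of_pos hx hy) h1
  have a2 := neg_sq (mul_neg_of_neg_of_pos hx hz) h2
  have b1 : -4 ≤ x := by rcases a1 with a1 | a1 <;> nlinarith
  have : x = -1 ∧ ((y = 3 ∧ z = 4) ∨ (y = 4 ∧ z = 3)) := by
    interval_cases x <;> omega
  obtain ⟨rfl, ⟨rfl, rfl⟩ | ⟨rfl, rfl⟩⟩ := this
  · exact base
  · exact fun h => base h.swap23

theorem regular {a b c : ℤ} (ha : a ≠ 0) (hb : b ≠ 0) (hc : c ≠ 0) (hab : a ≠ b) (hac : a ≠ c)
    (hbc : b ≠ c) (h1 : IsSquare (a * b + 4)) (h2 : IsSquare (a * c + 4)) (h3 : IsSquare (b * c + 4))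
    (hreg : (c - a - b) ^ 2 = 4 * (a * b + 4)) : ¬ T3 a b c := by
  intro h
  have h1' : IsSquare (b * a + 4) := by rwa [mul_comm]
  have h2' : IsSquare (c * a + 4) := by rwa [mul_comm]
  have h3' : IsSquare (c * b + 4) := by rwa [mul_comm]
  have n : ∀ x y : ℤ, IsSquare (x * y + 4) → IsSquare (-x * -y + 4) := fun x y h => by
    rwa [neg_mul_neg]
  rcases lt_or_gt_of_ne ha with x | x <;> rcases lt_or_gt_of_ne hb with y | y <;>
    rcases lt_or_gt_of_ne hc with z | z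
  · exact regular_pos (a := -a) (b := -b) (c := -c) (by omega) (by omega) (by omega) (by omega)
      (by omega) (by omega) (n _ _ h1) (n _ _ h2) (n _ _ h3) (by linarith) h.neg
  · exact mixed (x := -c) (y := -a) (z := -b) (by omega) (by omega) (by omega) (by omega)
      (n _ _ h2') (n _ _ h3') h.swap23.swap12.neg
  · exact mixed (x := -b) (y := -a) (z := -c) (by omega) (by omega) (by omega) (by omega)
      (n _ _ h1') (n _ _ h3) h.swap12.neg
  · exact mixed x y z hbc h1 h2 h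
  · exact mixed (x := -a) (y := -b) (z := -c) (by omega) (by omega) (by omega) (by omega)
      (n _ _ h1) (n _ _ h2) h.neg
  · exact mixed y x z hac h1' h3 h.swap12
  · exact mixed z x y hab h2' h3' h.swap23.swap12
  · exact regular_pos x y z hab hac hbc h1 h2 h3 hreg h

lemma near_pos {g n m c : ℤ} (hg : 0 < g) (hnm : n < m) (hS : 10 ^ 7 * (m - n) ^ 6 ≤ n + m)
    (hc : c ≠ 0) (hac : g * n ≠ c) (hbc : g * m ≠ c) (h1 : IsSquare (g * n * (g * m) + 4))
    (h2 : IsSquare (g * n * c + 4)) (h3 : IsSquare (g * m * c + 4)) : ¬ T3 (g * n) (g * m) c := by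
  obtain ⟨h, rfl⟩ : ∃ h, m = n + h := ⟨m - n, by ring⟩
  have hh : 0 < h := by omega
  rw [add_sub_cancel_left] at hS
  have h6 : h ≤ h ^ 6 := le_self_pow₀ (by omega) (by norm_num)
  have hn : 100 * h ≤ n := by omega
  have hn0 : 0 < n := by omega
  have a0 : n ≤ g * n := by nlinarith
  have a1 : g * n < g * (n + h) := by nlinarith
  have a2 : g * (n + h) < 2 * (g * n) := by nlinarith
  have hc0 : 0 < c := by
    have := h2.nonneg
    by_contra h0
    have : c ≤ -1 := by omega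
    nlinarith
  by_cases hreg : (c - g * n - g * (n + h)) ^ 2 = 4 * (g * n * (g * (n + h)) + 4)
  · exact regular_pos (by omega) (by omega) hc0 a1.ne hac hbc h1 h2 h3 hreg
  · obtain ⟨l1, l2⟩ := c_lower (by omega) a1 a2 (by omega) hc0 h1 h2 h3 hreg
    exact near_core hg hh hn0 (by linarith) l1 (by linarith)

theorem near {a b c : ℤ} (ha : a ≠ 0) (hc : c ≠ 0) (hab : a ≠ b) (hac : a ≠ c)
    (hbc : b ≠ c) (h1 : IsSquare (a * b + 4)) (h2 : IsSquare (a * c + 4)) (h3 : IsSquare (b * c + 4))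
    (hS : 10 ^ 7 * (b - a) ^ 6 ≤ |a + b| * (Int.gcd a b : ℤ) ^ 5) : ¬ T3 a b c := by
  have hg : (0 : ℤ) < Int.gcd a b := by exact_mod_cast Int.gcd_pos_of_ne_zero_left b ha
  obtain ⟨n, hn⟩ := Int.gcd_dvd_left a b
  obtain ⟨m, hm⟩ := Int.gcd_dvd_right a b
  generalize (Int.gcd a b : ℤ) = g at *
  subst hn hm
  have hS' : 10 ^ 7 * (m - n) ^ 6 ≤ |n + m| := by
    rw [← mul_add, abs_mul, abs_of_pos hg] at hS
    have : g ^ 6 * (10 ^ 7 * (m - n) ^ 6) ≤ g ^ 6 * |n + m| := by linarith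
    exact le_of_mul_le_mul_left this (by positivity)
  have hS'' : 10 ^ 7 * (n - m) ^ 6 ≤ |n + m| := by rw [show (n - m) ^ 6 = (m - n) ^ 6 by ring]; exact hS'
  have hnm : n ≠ m := fun h => hab (by rw [h])
  intro h
  have h1' : IsSquare (g * m * (g * n) + 4) := by rwa [mul_comm]
  have e : ∀ x : ℤ, g * -x = -(g * x) := fun x => by ring
  rcases le_total 0 (n + m) with s | s <;> rcases lt_or_gt_of_ne hnm with o | o
  · exact near_pos hg o (by rwa [abs_of_nonneg s] at hS') hc hac hbc h1 h2 h3 h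
  · exact near_pos hg o (by rwa [abs_of_nonneg s, add_comm] at hS'') hc hbc hac h1' h3 h2 h.swap12
  · refine near_pos (n := -m) (m := -n) (c := -c) hg (by omega) ?_ (by omega) ?_ ?_ ?_ ?_ ?_ ?_
    · rw [abs_of_nonpos s] at hS'; linarith
    · rw [e]; omega
    · rw [e]; omega
    · rwa [e, e, neg_mul_neg]
    · rwa [e, neg_mul_neg]
    · rwa [e, neg_mul_neg]
    · rw [e, e]; exact h.swap12.neg
  · refine near_pos (n := -n) (m := -m) (c := -c) hg (by omega) ?_ (by omega) ?_ ?_ ?_ ?_ ?_ ?_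
    · rw [abs_of_nonpos s] at hS''; linarith
    · rw [e]; omega
    · rw [e]; omega
    · rwa [e, e, neg_mul_neg]
    · rwa [e, neg_mul_neg]
    · rwa [e, neg_mul_neg]
    · rw [e, e]; exact h.neg

theorem main {a b c : ℤ} (ha : a ≠ 0) (hb : b ≠ 0) (hc : c ≠ 0) (hab : a ≠ b) (hac : a ≠ c)
    (hbc : b ≠ c) (h1 : IsSquare (a * b + 4)) (h2 : IsSquare (a * c + 4)) (h3 : IsSquare (b * c + 4))
    (h : b - a = 4 ∨ 10 ^ 7 * (b - a) ^ 6 ≤ |a + b| * (Int.gcd a b : ℤ) ^ 5 ∨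
      (c - a - b) ^ 2 = 4 * (a * b + 4)) : ¬ T3 a b c := by
  rcases h with h | h | h
  · obtain rfl : b = a + 4 := by omega
    exact diff4 ha hb hc h2 h3
  · exact near ha hc hab hac hbc h1 h2 h3 h
  · exact regular ha hb hc hab hac hbc h1 h2 h3 h

end Pool.Agent.Lib.MP_b2ee0b_nt
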