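import Pool.Agent.Lib.MP_b2ee0b_nt.R3

/-! The case where the lower extension exceeds the product of the two small entries. -/

namespace Pool.Agent.Lib.MP_b2ee0b_nt

open Iv Iv.Ex

namespace R2

def fz : List Ex :=
  let z : Ex := v 0
  let q : Ex := v 1
  let p1 : Ex := 1 + q * (1 + z)
  let p3 : Ex := 1 - z * q
  let D1 : Ex := (4 + 6 * z + q * (1 + z)) * p1 ^ 2
  let D3 : Ex := (2 + 6 * z + z * q) * p3 ^ 2
  [z, q, q * (3 + q) ^ 2 * (1 + z) ^ 3 * D3, z ^ 3 * q * (3 + q) ^ 2 * D1,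
    (3 + q) * (1 + z) * ((4 + 6 * z + q * (1 + z)) * p1 * D3), z ^ 2 * (3 + q) ^ 2 * p3 * D1, D1 * D3,
    p3]

theorem c1 : chkK 200 16 0 1 12 300 fz ((2 - 4 * v 0 + 9 * v 0 ^ 2 - 18 * v 0 ^ 3) ^ 2 *
    ((1 + v 0) * (2 + 6 * v 0 + v 0 * v 1)) - 4 * (2 - 3 * v 1 * (v 0 * (1 + v 0)))) = true := by
  decide +kernel
theorem c2 : chkK 200 16 0 1 12 300 fz (4 * (2 - 3 * v 1 * (v 0 * (1 + v 0))) -
    (2 - 4 * v 0 + 9 * v 0 ^ 2 - 22 * v 0 ^ 3 - 4 * v 1 * v 0) ^ 2 *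
    ((1 + v 0) * (2 + 6 * v 0 + v 0 * v 1))) = true := by
  decide +kernel
theorem c3 : chkK 250 20 0 1 12 300 fz (3 * v 4 - 6 * v 6 - 6 * v 2 + 6 * v 3) = true := by
  decide +kernel
theorem c4 : chkK 250 20 0 1 12 300 fz (2 * v 4 - 2 * v 5 - (2 - 4 * v 0 + 9 * v 0 ^ 2 - 18 * v 0 ^ 3) *
    (3 * v 4 - 6 * v 6 - 6 * v 2 + 6 * v 3)) = true := by
  decide +kernel
theorem c5 : chkK 250 20 0 1 12 300 fz ((24 * v 0 ^ 3 + 40 * v 1) * v 6 - (2 * v 4 - 2 * v 5 -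
    (2 - 4 * v 0 + 9 * v 0 ^ 2 - 22 * v 0 ^ 3 - 4 * v 1 * v 0) *
    (3 * v 4 - 6 * v 6 - 6 * v 2 + 6 * v 3))) = true := by
  decide +kernel
theorem c6 : chkK 250 20 0 1 12 300 fz (12 * v 7 ^ 2 - v 6) = true := by decide +kernel
theorem c7 : chkK 250 20 0 1 12 300 fz (v 6 - 20 * v 5) = true := by decide +kernel
theorem c8 : chkK 250 20 0 1 12 300 fz (v 6 - 1000 * v 3) = true := by decide +kernel

theorem delta {x σ η ζ : ℝ} (x0 : 0 < x) (x1 : x ≤ 1 / 2000) (η0 : 0 ≤ η) (η1 : η ≤ 1 / 1000)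
    (ζ0 : 0 ≤ ζ) (ζ1 : ζ ≤ 1 / 1000)
    (h : (σ - x * σ ^ 2) * (1 - 4 * x * ζ) = 1 + η - ζ - 4 * x * η) (h2 : x * σ < 1 / 2) :
    0 < σ ∧ σ ≤ 51 / 50 ∧ 1 + η - ζ < σ ∧ σ ≤ 1 + η - ζ + 11 / 10 * x := by
  have a0 : 0 ≤ x * ζ := mul_nonneg x0.le ζ0
  have a1 : x * ζ ≤ x * (1 / 1000) := by gcongr
  have b0 : 0 ≤ x * η := mul_nonneg x0.le η0
  have b1 : x * η ≤ x * (1 / 1000) := by gcongr
  obtain ⟨m, hm⟩ : ∃ m, σ - x * σ ^ 2 = m := ⟨_, rfl⟩
  rw [hm] at h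
  have m0 : 1 + η - ζ - x / 100 ≤ m := by
    by_contra g
    nlinarith
  have m1 : m ≤ 1 + η - ζ + x / 100 := by
    by_contra g
    nlinarith
  obtain ⟨s0, s1⟩ := CA.quad_root x0 hm h2 (by linarith) (by linarith)
  have t0 : 9 / 10 ≤ σ ^ 2 := by nlinarith
  have t1 : σ ^ 2 ≤ 21 / 20 := by nlinarith
  have t2 : x * (9 / 10) ≤ x * σ ^ 2 := by gcongr
  have t3 : x * σ ^ 2 ≤ x * (21 / 20) := by gcongr
  refine ⟨?_, ?_, ?_, ?_⟩ <;> linarith

theorem small {a b r x z : ℝ} (a1 : 1 ≤ a) (ab : 2847 * a ^ 4 ≤ b) (hr : r ^ 2 = a * b + 4)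
    (xr : x * r ^ 2 = 1) (x0 : 0 < x) (z0 : 0 < z) (z1 : 5 * a ≤ 12 * z ^ 3 * b)
    (z2 : 5 * (z ^ 3 * b) ≤ 4 * a) : 280 * (r ^ 2 * z ^ 5) ≤ 1 ∧ 140 * x ≤ z := by
  have a0 : 0 < a := by linarith
  have a4 : 1 ≤ a ^ 4 := one_le_pow₀ a1
  have b1 : 2847 ≤ b := by linarith
  have b0 : 0 < b := by linarith
  have ab1 : 1 * b ≤ a * b := by gcongr
  constructor
  · apply le_of_pow_le_pow_left₀ three_ne_zero zero_le_one
    have u1 : (500 * r ^ 2) ^ 3 ≤ (501 * (a * b)) ^ 3 :=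
      pow_le_pow_left₀ (by positivity) (by linarith) 3
    have u2 : (5 * (z ^ 3 * b)) ^ 5 ≤ (4 * a) ^ 5 := pow_le_pow_left₀ (by positivity) z2 5
    have u3 : (2847 * a ^ 4) ^ 2 ≤ b ^ 2 := pow_le_pow_left₀ (by positivity) ab 2
    have u4 : (500 * r ^ 2) ^ 3 * (5 * (z ^ 3 * b)) ^ 5 ≤ (501 * (a * b)) ^ 3 * (4 * a) ^ 5 := by
      gcongr
    have u5 : b ^ 3 * (2847 * a ^ 4) ^ 2 ≤ b ^ 3 * b ^ 2 := by gcongr
    have u6 : 0 < b ^ 5 := by positivity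
    apply le_of_mul_le_mul_right _ u6
    linarith
  · apply le_of_pow_le_pow_left₀ three_ne_zero z0.le
    have u1 : x * b ≤ 1 := by nlinarith
    have u2 : (x * b) ^ 3 ≤ 1 := pow_le_one₀ (by positivity) u1
    have u3 : 2847 ^ 2 ≤ b ^ 2 := pow_le_pow_left₀ (by norm_num) b1 2
    have u4 : 5 * b ^ 2 ≤ 12 * z ^ 3 * b * b ^ 2 := by gcongr; linarith
    apply le_of_mul_le_mul_right (a := b ^ 3) _ (by positivity)
    linarith

theorem fin {r x z q B H : ℝ} (x0 : 0 < x) (z0 : 0 < z) (xr : x * r ^ 2 = 1)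
    (k1 : 280 * (r ^ 2 * z ^ 5) ≤ 1) (k2 : 140 * x ≤ z) (qx : 50 * q ≤ 23 * x) (B0 : 0 < B)
    (B1 : B ≤ 12 * z ^ 3 + 20 * q + 7 * x) (hH : 81 * z * H ^ 2 ≤ 12 * r ^ 2 * B ^ 2) : H < 1 := by
  have u1 : B ^ 2 ≤ (12 * z ^ 3 + 81 / 5 * x) ^ 2 := pow_le_pow_left₀ B0.le (by linarith) 2
  have u2 : B ^ 2 ≤ 288 * z ^ 6 + 525 * x ^ 2 := by
    nlinarith [sq_nonneg (12 * z ^ 3 - 81 / 5 * x), sq_nonneg x]
  have u3 : r ^ 2 * B ^ 2 ≤ r ^ 2 * (288 * z ^ 6 + 525 * x ^ 2) := by gcongr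
  have u4 : 280 * (r ^ 2 * z ^ 5) * z ≤ 1 * z := by gcongr
  have u5 : r ^ 2 * x ^ 2 = x := by linear_combination x * xr
  have u6 : z * H ^ 2 < z * 1 := by linarith
  have u7 : H ^ 2 < 1 := lt_of_mul_lt_mul_left u6 z0.le
  nlinarith

theorem real {a b c r s t G j z q κ1 κ2 p1 p3 D1 D3 ρ : ℝ}
    (C : Chart a b c r s t G j z q κ1 κ2 p1 p3 D1 D3) (a1 : 1 ≤ a) (ab : 2847 * a ^ 4 ≤ b)
    (bc : 6 * b ≤ c) (r0 : 0 < r) (s0 : 0 < s) (t0 : 0 < t) (j0 : 0 < j) (hr : r ^ 2 = a * b + 4)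
    (hs : s ^ 2 = a * c + 4) (ht : t ^ 2 = b * c + 4) (hρ : 2 * ρ = r * s - a * t)
    (hc : (a * b) ^ 2 ≤ c) :
    0 < 12 * j * ρ - 6 * (j * (κ2 * s / r)) + q * κ1 * κ2 / (3 + q) * (s * t / r) - a ∧
      12 * j * ρ - 6 * (j * (κ2 * s / r)) + q * κ1 * κ2 / (3 + q) * (s * t / r) - a < 1 := by
  have z0 := C.z0
  have q0 := C.q0
  have p30 := C.p30
  have p10 := C.p10
  have D10 := C.D10
  have D30 := C.D30
  have a0 : 0 < a := by linarith
  have aa : a ≤ a ^ 4 := le_self_pow₀ a1 (by norm_num)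
  have b1 : 2847 * a ≤ b := by linarith
  have b0 : 0 < b := by linarith
  have c0 : 0 < c := by linarith
  have zb := C.z_ge a0 b0 bc
  have hz : z ^ 3 * (2 + 3 * z) * b ≤ (1 + z) ^ 3 * (1 + 3 * z) * a := by
    have u1 : (1 + z) ^ 3 * (1 + 3 * z) * (a * (c - b)) ≤ (1 + z) ^ 3 * (1 + 3 * z) * (a * (c - a)) := by
      gcongr; linarith
    apply le_of_mul_le_mul_right (a := c - a) _ (by linarith)
    linarith [C.hz]
  have z1 : 12 * z < 1 := by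
    by_contra g
    have u1 : (1 + z) ^ 3 * (1 + 3 * z) * a ≤ (13 * z) ^ 3 * (2 + 3 * z) * a := by gcongr <;> linarith
    have u2 : z ^ 3 * (2 + 3 * z) * (2847 * a) ≤ z ^ 3 * (2 + 3 * z) * b := by gcongr
    have u3 : 0 < z ^ 3 * (2 + 3 * z) * a := by positivity
    linarith
  have z2 : 5 * (z ^ 3 * b) ≤ 4 * a := by
    have u1 : (1 + z) ^ 3 * (1 + 3 * z) * a ≤ (13 / 12) ^ 3 * (5 / 4) * a := by gcongr <;> linarith
    have u2 : 0 < z ^ 4 * b := by positivity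
    linarith
  obtain ⟨x, hx⟩ : ∃ x, x = 1 / r ^ 2 := ⟨_, rfl⟩
  have x0 : 0 < x := by rw [hx]; positivity
  have xr : x * r ^ 2 = 1 := by rw [hx]; field_simp
  obtain ⟨k1, k2⟩ := small a1 ab hr xr x0 z0 zb z2
  have ab1 : 1 * b ≤ a * b := by gcongr
  have x1 : x ≤ 1 / 2847 := by
    apply le_of_mul_le_mul_right (a := r ^ 2) _ (by positivity)
    linarith
  have ηx : r ^ 2 / s ^ 2 ≤ 251 / 250 * x := by
    rw [hx, div_le_iff₀ (by positivity)]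
    have u1 : (r ^ 2) ^ 2 ≤ (10015 / 10000 * (a * b)) ^ 2 :=
      pow_le_pow_left₀ (by positivity) (by linarith) 2
    have u2 : 1 * c ≤ a * c := by gcongr
    have u3 : 251 / 250 * (1 / r ^ 2) * s ^ 2 = 251 / 250 * s ^ 2 / r ^ 2 := by ring
    rw [u3, le_div_iff₀ (by positivity)]
    have u4 : 0 ≤ (a * b) ^ 2 := by positivity
    linarith
  have ra := CA.rel s0.ne' t0.ne' (by rw [hr, hs, ht]; ring) hρ
  obtain ⟨σ, hσ⟩ : ∃ σ, σ = ρ * r / s := ⟨_, rfl⟩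
  have r1 : (σ - x * σ ^ 2) * (1 - 4 * x * (r ^ 2 / t ^ 2)) =
      1 + r ^ 2 / s ^ 2 - r ^ 2 / t ^ 2 - 4 * x * (r ^ 2 / s ^ 2) := by
    have u1 : (σ - x * σ ^ 2) * (1 - 4 * x * (r ^ 2 / t ^ 2)) =
      ρ * (r * s - ρ) * (t ^ 2 - 4) / (s ^ 2 * t ^ 2) := by rw [hσ, hx]; field_simp
    have u2 : 4 * x * (r ^ 2 / s ^ 2) = 4 / s ^ 2 := by rw [hx]; field_simp
    rw [u1, u2, ra]
  have r2 : x * σ < 1 / 2 := by
    have u1 : x * σ = ρ / (r * s) := by rw [hσ, hx]; field_simp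
    have : 0 < a * t := by positivity
    rw [u1, div_lt_iff₀ (by positivity)]
    linarith
  obtain ⟨Θ, hΘ⟩ : ∃ Θ, Θ = 2 * p3 * j / (t * q * z) := ⟨_, rfl⟩
  have Θ0 : 0 < Θ := by rw [hΘ]; positivity
  obtain ⟨y, hy⟩ : ∃ y, y * D3 = z ^ 2 * (3 + q) ^ 2 * p3 := ⟨_, div_mul_cancel₀ _ D30.ne'⟩
  have y0 : 0 < y := (pos_iff_pos_of_mul_pos (by rw [hy]; positivity)).2 D30
  have hη := C.hη
  have hζ := C.hζ
  have eΘ : Θ ^ 2 * ((1 + z) * (2 + 6 * z + z * q)) = 2 - 3 * q * (z * (1 + z)) := by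
    have u1 : Θ ^ 2 * (t * q * z) ^ 2 = 4 * p3 ^ 2 * j ^ 2 := by rw [hΘ]; field_simp; ring
    have u2 : r ^ 2 * ((2 + 6 * z + z * q) * p3 ^ 2) = z ^ 3 * q * (3 + q) ^ 2 * t ^ 2 := by
      rw [← C.hD3, ← hζ]; field_simp
    apply mul_right_cancel₀ (b := t ^ 2 * q ^ 2 * z ^ 3 * (3 + q) ^ 2) (by positivity)
    linear_combination z * (3 + q) ^ 2 * (1 + z) * (2 + 6 * z + z * q) * u1 +
      p3 ^ 2 * (2 + 6 * z + z * q) * C.hj + q * (2 - 3 * q * (z * (1 + z))) * u2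
  obtain ⟨H, hH⟩ : ∃ H, H = 12 * j * ρ - 6 * (j * (κ2 * s / r)) +
    q * κ1 * κ2 / (3 + q) * (s * t / r) - a := ⟨_, rfl⟩
  rw [← hH]
  have eH : H * p3 = s * t / r * (q * z) * (Θ * (6 * σ - 3 * κ2) + κ2 - (1 - 2 * x * σ) * y) := by
    have u1 : κ1 = z * (3 + q) / p3 := by rw [← C.h1]; field_simp
    have u2 : y = r ^ 2 / t ^ 2 * p3 / (q * z) := by
      apply mul_right_cancel₀ D30.ne'
      rw [hy, div_mul_eq_mul_div, eq_div_iff (by positivity)]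
      linear_combination -p3 * hζ
    have u3 : a = (r * s - 2 * ρ) / t := by field_simp; linarith
    rw [hH, u1, u2, u3, hΘ, hσ, hx]
    field_simp
    ring
  have eS : (s * t / r) ^ 2 * (r ^ 2 / s ^ 2 * (r ^ 2 / t ^ 2)) = r ^ 2 := by field_simp
  have S0 : 0 < s * t / r := by positivity
  have η0 : 0 < r ^ 2 / s ^ 2 := by positivity
  have ζ0 : 0 < r ^ 2 / t ^ 2 := by positivity
  have ql := C.q_le
  have h2 := C.h2
  have hD1 := C.hD1
  generalize r ^ 2 / s ^ 2 = η at *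
  generalize r ^ 2 / t ^ 2 = ζ at *
  generalize s * t / r = S at *
  have q1 : 300 * q < 1 := by nlinarith only [ql, ηx, x1, q0]
  have hm3 : R3.fz.map (Ex.ev (fun k => [z, q].getD k 0)) =
      [z, q, p1, p3, 4 + 6 * z + q * (1 + z)] := by
    simp only [R3.fz, List.map_cons, List.map_nil, ev_add, ev_sub, ev_mul, ev_v, ev_nat,
      List.getD_cons_zero, List.getD_cons_succ]
    push_cast
    rw [← C.hp1, ← C.hp3]
  have g0 := chkK_ok R3.c1 (by norm_num) (by norm_num) (by push_cast; linarith)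
    (by push_cast; linarith) q0.le (by push_cast; linarith) hm3
  have hm : fz.map (Ex.ev (fun k => [z, q].getD k 0)) =
      [z, q, η * (D1 * D3), ζ * (D1 * D3), κ2 * (D1 * D3), y * (D1 * D3), D1 * D3, p3] := by
    simp only [fz, List.map_cons, List.map_nil, ev_add, ev_sub, ev_mul, ev_pow, ev_v, ev_nat,
      List.getD_cons_zero, List.getD_cons_succ]
    push_cast
    rw [← C.hp1, ← C.hp3, ← hD1, ← C.hD3]
    simp only [List.cons.injEq, and_true, true_and]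
    refine ⟨by linear_combination -D3 * hη, by linear_combination -D1 * hζ, ?_,
      by linear_combination -D1 * hy⟩
    rw [hD1, ← h2]; ring
  have a1' : ((0 : ℕ) : ℝ) ≤ ((12 : ℕ) : ℝ) * z := by push_cast; linarith
  have a2 : ((12 : ℕ) : ℝ) * z < ((1 : ℕ) : ℝ) := by push_cast; linarith
  have a3 : ((300 : ℕ) : ℝ) * q < 1 := by push_cast; linarith
  have g1 := chkK_ok c1 (by norm_num) (by norm_num) a1' a2 q0.le a3 hm
  have g2 := chkK_ok c2 (by norm_num) (by norm_num) a1' a2 q0.le a3 hm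
  have g3 := chkK_ok c3 (by norm_num) (by norm_num) a1' a2 q0.le a3 hm
  have g4 := chkK_ok c4 (by norm_num) (by norm_num) a1' a2 q0.le a3 hm
  have g5 := chkK_ok c5 (by norm_num) (by norm_num) a1' a2 q0.le a3 hm
  have g6 := chkK_ok c6 (by norm_num) (by norm_num) a1' a2 q0.le a3 hm
  have g7 := chkK_ok c7 (by norm_num) (by norm_num) a1' a2 q0.le a3 hm
  have g8 := chkK_ok c8 (by norm_num) (by norm_num) a1' a2 q0.le a3 hm
  simp only [ev_add, ev_sub, ev_mul, ev_pow, ev_v, ev_nat, List.getD_cons_zero,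
    List.getD_cons_succ] at g0 g1 g2 g3 g4 g5 g6 g7 g8
  push_cast at g0 g1 g2 g3 g4 g5 g6 g7 g8
  rw [← hD1] at g0
  have qη : 90 * q ≤ 41 * η := by
    apply le_of_mul_le_mul_right (a := (3 + q) ^ 2 * (1 + z) ^ 3) _ (by positivity)
    nlinarith only [mul_nonneg η0.le g0, hη]
  have eD : η * ζ * (D1 * D3) = z ^ 3 * q ^ 2 * (3 + q) ^ 4 * (1 + z) ^ 3 := by
    calc _ = (η * D1) * (ζ * D3) := by ring
      _ = _ := by rw [hη, hζ]; ring
  have Dn0 : 0 < D1 * D3 := mul_pos D10 D30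
  generalize D1 * D3 = Dn at *
  have w0 : 0 < (1 + z) * (2 + 6 * z + z * q) := by positivity
  have zz : z ^ 2 * (12 * z) ≤ z ^ 2 * 1 := by gcongr
  have zz2 : z * (12 * z) ≤ z * 1 := by gcongr
  have Θ1 : 2 * Θ ≤ 2 - 4 * z + 9 * z ^ 2 - 18 * z ^ 3 := by
    apply le_of_pow_le_pow_left₀ two_ne_zero (by linarith only [zz, z1, sq_nonneg z])
    exact le_of_mul_le_mul_right (by linarith only [g1, eΘ]) w0
  have Θ2 : 2 - 4 * z + 9 * z ^ 2 - 22 * z ^ 3 - 4 * q * z ≤ 2 * Θ := by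
    apply le_of_pow_le_pow_left₀ two_ne_zero (by positivity)
    exact le_of_mul_le_mul_right (by linarith only [g2, eΘ]) w0
  have Θ3 : Θ ≤ 1 := by
    have : 0 < z ^ 3 := by positivity
    linarith only [Θ1, zz2, z0, this]
  have m3 : 0 ≤ 3 * κ2 - 6 - 6 * η + 6 * ζ := le_of_mul_le_mul_right (by linarith only [g3]) Dn0
  have m4 : (2 - 4 * z + 9 * z ^ 2 - 18 * z ^ 3) * (3 * κ2 - 6 - 6 * η + 6 * ζ) ≤ 2 * κ2 - 2 * y :=
    le_of_mul_le_mul_right (by linarith only [g4]) Dn0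
  have m5 : 2 * κ2 - 2 * y - (2 - 4 * z + 9 * z ^ 2 - 22 * z ^ 3 - 4 * q * z) *
      (3 * κ2 - 6 - 6 * η + 6 * ζ) ≤ 24 * z ^ 3 + 40 * q :=
    le_of_mul_le_mul_right (by linarith only [g5]) Dn0
  have m7 : 20 * y ≤ 1 := le_of_mul_le_mul_right (by linarith only [g7]) Dn0
  have m8 : 1000 * ζ ≤ 1 := le_of_mul_le_mul_right (by linarith only [g8]) Dn0
  obtain ⟨σ0, σ1, σ2, σ3⟩ := delta x0 (by linarith only [x1]) η0.le (by linarith only [ηx, x1]) ζ0.le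
    (by linarith only [m8]) r1 r2
  have n1 := mul_le_mul_of_nonneg_right Θ1 m3
  have n2 := mul_le_mul_of_nonneg_right Θ2 m3
  have n3 : 0 < Θ * (σ - (1 + η - ζ)) := mul_pos Θ0 (by linarith only [σ2])
  have n4 : Θ * (σ - (1 + η - ζ)) ≤ 1 * (11 / 10 * x) :=
    mul_le_mul Θ3 (by linarith only [σ3]) (by linarith only [σ2]) zero_le_one
  have n5 : 0 < x * σ * y := by positivity
  have n6 : x * σ * y ≤ x * (51 / 50) * (1 / 20) := by gcongr; linarith only [m7]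
  obtain ⟨B, hB⟩ : ∃ B, B = Θ * (6 * σ - 3 * κ2) + κ2 - (1 - 2 * x * σ) * y := ⟨_, rfl⟩
  have B0 : 0 < B := by linarith only [hB, n1, m4, n3, n5]
  have B1 : B ≤ 12 * z ^ 3 + 20 * q + 7 * x := by linarith only [hB, n2, m5, n4, n6, x0]
  rw [← hB] at eH
  refine ⟨(pos_iff_pos_of_mul_pos (by rw [eH]; positivity)).2 p30,
    fin x0 z0 xr k1 k2 (by linarith only [qη, ηx, x0]) B0 B1 ?_⟩
  have f1 : z * (3 + q) ^ 4 * (1 + z) ^ 3 * (H * p3) ^ 2 = r ^ 2 * B ^ 2 * Dn := by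
    rw [eH, ← eS]
    linear_combination -(S ^ 2 * B ^ 2) * eD
  have f2 : z * 3 ^ 4 * 1 ^ 3 * (H * p3) ^ 2 ≤ z * (3 + q) ^ 4 * (1 + z) ^ 3 * (H * p3) ^ 2 := by
    gcongr <;> linarith only [q0, z0]
  have f3 : r ^ 2 * B ^ 2 * Dn ≤ r ^ 2 * B ^ 2 * (12 * p3 ^ 2) := by gcongr; linarith only [g6]
  apply le_of_mul_le_mul_right (a := p3 ^ 2) _ (by positivity)
  linarith only [f1, f2, f3]

end R2

theorem noR2 {a b c r s t α β G τ j d ρ : ℤ} (D : Dat a b c r s t α β G τ (2 * j) d)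
    (hρ : 2 * ρ = r * s - a * t) (hd : a * b ≤ d) : False := by
  have ha := D.ha
  have hb : 0 < b := by linarith [D.hab]
  have d0 := D.hd
  have s1 : 2847 * a ^ 4 ≤ b := by
    have u1 : a * (a * b) ^ 3 ≤ a * d ^ 3 := by gcongr
    apply le_of_mul_le_mul_right (a := b ^ 3) _ (by positivity)
    linarith [D.size2]
  have s2 : (a * b) ^ 2 ≤ c := by
    have u1 : a * b * (a * b) ≤ a * b * d := by gcongr
    linarith [D.hc]
  obtain ⟨z, q, κ1, κ2, p1, p3, D1, D3, C⟩ := D.chart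
  obtain ⟨k1, k2⟩ := R2.real (ρ := ρ) C (by exact_mod_cast ha) (by exact_mod_cast s1)
    (by exact_mod_cast D.six.le) (by exact_mod_cast D.rpos) (by exact_mod_cast D.spos)
    (by exact_mod_cast D.tpos) (by exact_mod_cast D.jpos) (by exact_mod_cast D.hr)
    (by exact_mod_cast D.hs) (by exact_mod_cast D.ht) (by exact_mod_cast hρ) (by exact_mod_cast s2)
  obtain ⟨n2, e2⟩ := C.i2
  obtain ⟨n3, e3⟩ := C.i3
  rw [e2, e3] at k1 k2
  have u1 : 0 < 12 * j * ρ - 6 * n2 + 2 * n3 - a := by exact_mod_cast k1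
  have u2 : 12 * j * ρ - 6 * n2 + 2 * n3 - a < 1 := by exact_mod_cast k2
  omega

/-- the lower extension is smaller than the middle entry and the next extension is positive -/
theorem lowcase {a b c r s t α β G τ j d ρ y e : ℤ} (D : Dat a b c r s t α β G τ (2 * j) d)
    (hρ : 2 * ρ = r * s - a * t) (hy : 2 * y = r * t - b * s) (ρ0 : 0 ≤ ρ) (y0 : 0 ≤ y)
    (qρ : ρ ^ 2 = a * d + 4) (qy : y ^ 2 = b * d + 4)
    (he : 2 * e = 2 * (a + b + d) + a * b * d - r * ρ * y) : d < b ∧ 0 < e := by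
  have ha := D.ha
  have hab := D.hab
  have hb : 0 < b := by omega
  have d0 := D.hd
  have hr := D.hr
  have r0 := D.r0
  have es : 2 * s = r * ρ + a * y := by
    have : 2 * (2 * s) = 2 * (r * ρ + a * y) := by linear_combination -r * hρ - a * hy - s * hr
    linarith
  rcases lt_trichotomy d b with g | g | g
  · refine ⟨g, ?_⟩
    obtain ⟨e', u, v, e0, u0, v0, hu, hv, eu, -, -, -, hreg⟩ :=
      iso_down ha d0 hab g ρ0 r0 y0 qρ hr (by linarith)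
    have ee : e' = e := by
      apply mul_left_cancel₀ (a := 4 * a) (by omega)
      linear_combination -4 * hu + (2 * u + ρ * r - a * y) * eu + r ^ 2 * qρ + (a * d + 4) * hr +
        a ^ 2 * qy - 2 * a * he
    subst ee
    rcases eq_or_lt_of_le e0 with e1 | e1
    · exfalso
      have e2 := hreg e1.symm
      have e3 : r = a + ρ := (pow_left_inj₀ r0 (by omega) two_ne_zero).1
        (by rw [hr, e2]; linear_combination -qρ)
      have e4 : y = d + ρ := (pow_left_inj₀ y0 (by omega) two_ne_zero).1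
        (by rw [qy, e2]; linear_combination -qρ)
      refine noR3 D hρ ?_ (by rw [e3]; ring) (by omega)
      have : 2 * s = 2 * (r * ρ - 2) := by rw [es, e3, e4]; linear_combination -qρ
      linarith
    · exact e1
  · subst g
    exact (iso_not_sq hb y0 qy).elim
  · exfalso
    obtain ⟨e', u, v, e0, -, -, -, -, -, -, hlt, -, hreg⟩ :=
      iso_down ha hb (by omega) g r0 ρ0 y0 hr qρ qy
    rcases eq_or_lt_of_le e0 with e1 | e1
    · have e2 := hreg e1.symm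
      have e3 : ρ = a + r := (pow_left_inj₀ ρ0 (by omega) two_ne_zero).1
        (by rw [qρ, e2]; linear_combination -hr)
      have e4 : y = b + r := (pow_left_inj₀ y0 (by omega) two_ne_zero).1
        (by rw [qy, e2]; linear_combination -hr)
      refine noR3 D hρ ?_ (by rw [e3]; ring) (by omega)
      have : 2 * s = 2 * (r * ρ - 2) := by rw [es, e3, e4]; linear_combination -hr
      linarith
    · have : a * b * 1 ≤ a * b * e' := by gcongr; omega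
      exact noR2 D hρ (by linarith)

end Pool.Agent.Lib.MP_b2ee0b_nt
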