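import Pool.Agent.Lib.MP_b2ee0b_nt.CH

/-! The case where the two small entries and the lower extension form a regular triple. -/

namespace Pool.Agent.Lib.MP_b2ee0b_nt

open Iv Iv.Ex

namespace R3

/-- `z, q, p1, p3, u1` -/
def fz : List Ex := [v 0, v 1, 1 + v 1 * (1 + v 0), 1 - v 0 * v 1, 4 + 6 * v 0 + v 1 * (1 + v 0)]

theorem c1 : chkK 200 16 0 13 12 140 fz
    (41 * ((3 + v 1) ^ 2 * (1 + v 0) ^ 3) - 90 * (v 4 * v 2 ^ 2)) = true := by decide +kernel
theorem c2 : chkK 200 16 0 1 36 140 fz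
    ((16 + 25 * v 0 + 60 * v 1) * (v 1 * (3 + v 1) ^ 2 * (1 + v 0) ^ 3) * v 3 +
      18 * ((3 + v 1) * (1 + v 0) * v 3 - v 0 * (3 + v 1) * v 2 - 3 * v 2 * v 3) * (v 4 * v 2))
    = true := by decide +kernel
theorem c3 : chkK 200 16 0 1 36 140 fz
    (0 - (16 + 23 * v 0 - 60 * v 1) * (v 1 * (3 + v 1) ^ 2 * (1 + v 0) ^ 3) * v 3 -
      18 * ((3 + v 1) * (1 + v 0) * v 3 - v 0 * (3 + v 1) * v 2 - 3 * v 2 * v 3) * (v 4 * v 2))
    = true := by decide +kernel

theorem fin {z q x g κ A H : ℝ} (z0 : 0 < z) (z1 : 36 * z < 1) (q0 : 0 < q) (x0 : 0 < x)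
    (qx : 2 * q ≤ x) (xz : 15 * x ≤ z ^ 2) (gz : 15 * g ^ 2 ≤ z ^ 2) (hκ : κ * (1 - z * q) = z * (3 + q))
    (A0 : 16 + 23 * z - 60 * q ≤ 2 * A) (A1 : 2 * A ≤ 16 + 25 * z + 60 * q)
    (hH : (1 + g - 2 * x) * H = A - 18 * κ * ((1 + g - 2 * x) * (1 + g)) - 8 * (1 + g - 2 * x)) :
    -47 * z ≤ H ∧ H < 0 := by
  have g1 : -(13 / 50 * z) ≤ g ∧ g ≤ 13 / 50 * z := abs_le_of_sq_le_sq' (by nlinarith) (by positivity)
  have x1 : 540 * x ≤ z := by nlinarith
  have zq0 : 0 < z * q := by positivity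
  have zq1 : z * q ≤ 1 / 10000 := by nlinarith
  have k0 : 3 * z ≤ κ := by
    by_contra h
    nlinarith
  have k1 : κ ≤ 301 / 100 * z := by
    by_contra h
    nlinarith
  obtain ⟨w, hw⟩ : ∃ w, w = 1 + g - 2 * x := ⟨_, rfl⟩
  have w0 : 99 / 100 ≤ w := by linarith [g1.1]
  have w1 : w ≤ 101 / 100 := by linarith [g1.2]
  have y0 : 98 / 100 ≤ w * (1 + g) := by nlinarith [g1.1, g1.2]
  have y1 : w * (1 + g) ≤ 102 / 100 := by nlinarith [g1.1, g1.2]
  have m0 : 3 * z * (98 / 100) ≤ κ * (w * (1 + g)) := by gcongr; linarith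
  have m1 : κ * (w * (1 + g)) ≤ 301 / 100 * z * (102 / 100) := by gcongr
  rw [← hw] at hH
  have n0 : -46 * z ≤ w * H := by linarith [g1.2]
  have n1 : w * H < 0 := by linarith [g1.1]
  have H0 : H < 0 := by
    by_contra h
    have : 0 ≤ w * H := mul_nonneg (by linarith) (not_lt.1 h)
    linarith
  exact ⟨by nlinarith, H0⟩

theorem real {a b c r s t G j z q κ1 κ2 p1 p3 D1 D3 ρ : ℝ}
    (C : Chart a b c r s t G j z q κ1 κ2 p1 p3 D1 D3) (a1 : 1 ≤ a) (ab : 976 * a ≤ b)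
    (bc : 6 * b ≤ c) (r0 : 0 < r) (j1 : 1 ≤ j) (hr : r ^ 2 = a * b + 4) (hρ : 2 * ρ = r * s - a * t)
    (hs : s = r * ρ - 2) (h : (ρ - r) ^ 2 = a ^ 2) :
    36 * (j ^ 2 * z) < 1 ∧ -47 * z ≤ 9 * a * (κ1 * t / r) - 9 * r * (κ2 * s / r) + 27 * s - 8 ∧
      9 * a * (κ1 * t / r) - 9 * r * (κ2 * s / r) + 27 * s - 8 < 0 := by
  have z0 := C.z0
  have q0 := C.q0
  have a0 : 0 < a := by linarith
  have b0 : 0 < b := by linarith
  have zb := C.z_ge a0 b0 bc
  obtain ⟨x, hx⟩ : ∃ x, x = 1 / r ^ 2 := ⟨_, rfl⟩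
  obtain ⟨g, hg⟩ : ∃ g, g = (ρ - r) / r := ⟨_, rfl⟩
  have x0 : 0 < x := by rw [hx]; positivity
  have xr : x * r ^ 2 = 1 := by rw [hx]; field_simp
  have gr : g ^ 2 * r ^ 2 = a ^ 2 := by rw [hg, ← h]; field_simp
  have gb : g ^ 2 * b ≤ a := by
    apply le_of_mul_le_mul_left _ a0
    nlinarith only [gr, hr, sq_nonneg g]
  have xg : x ≤ g ^ 2 := by
    apply le_of_mul_le_mul_right (a := r ^ 2) _ (by positivity)
    nlinarith only [xr, gr, a1]
  have g0 : 976 * g ^ 2 ≤ 1 := by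
    apply le_of_mul_le_mul_right _ a0
    nlinarith only [gb, ab, sq_nonneg g]
  have g1 : -(1 / 31) ≤ g ∧ g ≤ 1 / 31 := abs_le_of_sq_le_sq' (by linarith) (by norm_num)
  obtain ⟨w, hw⟩ : ∃ w, w = 1 + g - 2 * x := ⟨_, rfl⟩
  have w0 : 9656 / 10000 ≤ w := by linarith [g1.1]
  have w2 : 9323 / 10000 ≤ w ^ 2 := by nlinarith only [w0]
  have es : s = w * r ^ 2 := by rw [hw, hg, hx, hs]; field_simp; ring
  have s0 : 0 < s := by rw [es]; exact mul_pos (by linarith) (by positivity)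
  have eη : r ^ 2 / s ^ 2 * w ^ 2 = x := by
    have : w ≠ 0 := by linarith
    rw [es, hx]; field_simp
  have η0 : 0 < r ^ 2 / s ^ 2 := by positivity
  have ql := C.q_le
  have hη := C.hη
  generalize r ^ 2 / s ^ 2 = η at *
  have η1 : η ≤ 11 / 10000 := by nlinarith only [eη, w2, xg, g0, η0]
  have q1 : 140 * q < 1 := by nlinarith only [ql, η1, q0]
  have hm : fz.map (Ex.ev (fun k => [z, q].getD k 0)) = [z, q, p1, p3, 4 + 6 * z + q * (1 + z)] := by
    simp only [fz, List.map_cons, List.map_nil, ev_add, ev_sub, ev_mul, ev_v, ev_nat,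
      List.getD_cons_zero, List.getD_cons_succ]
    push_cast
    rw [← C.hp1, ← C.hp3]
  have k1 := chkK_ok c1 (by norm_num) (by norm_num) (by push_cast; linarith)
    (by push_cast; exact C.z1) q0.le (by push_cast; exact q1) hm
  simp only [ev_add, ev_sub, ev_mul, ev_pow, ev_v, ev_nat, List.getD_cons_zero,
    List.getD_cons_succ] at k1
  push_cast at k1
  rw [← C.hD1] at k1
  have qη : 90 * q ≤ 41 * η := by
    apply le_of_mul_le_mul_right (a := (3 + q) ^ 2 * (1 + z) ^ 3) _ (by positivity)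
    nlinarith only [mul_nonneg η0.le k1, hη]
  have qx : 1000 * q ≤ 489 * x := by nlinarith only [qη, eη, w2, η0]
  have jz : 36 * (j ^ 2 * z) < 1 := by
    have u1 := C.j_le
    have u2 : r ^ 2 * (1000 * q) ≤ r ^ 2 * (489 * x) := by gcongr
    linarith
  have z1 : 36 * z < 1 := by
    have : 1 * z ≤ j ^ 2 * z := by gcongr; exact one_le_pow₀ j1
    linarith
  have gz : 15 * g ^ 2 ≤ z ^ 2 := by
    apply le_of_mul_le_mul_right _ b0
    have : z ^ 2 * b * (36 * z) ≤ z ^ 2 * b * 1 := by gcongr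
    linarith
  have k2 := chkK_ok c2 (by norm_num) (by norm_num) (by push_cast; linarith)
    (by push_cast; exact z1) q0.le (by push_cast; exact q1) hm
  have k3 := chkK_ok c3 (by norm_num) (by norm_num) (by push_cast; linarith)
    (by push_cast; exact z1) q0.le (by push_cast; exact q1) hm
  simp only [ev_add, ev_sub, ev_mul, ev_pow, ev_v, ev_nat, List.getD_cons_zero,
    List.getD_cons_succ] at k2 k3
  push_cast at k2 k3
  obtain ⟨A, hA⟩ : ∃ A, A * η = -9 * (κ2 - κ1 - 3) := ⟨_, div_mul_cancel₀ _ η0.ne'⟩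
  have pp : 0 < q * (3 + q) ^ 2 * (1 + z) ^ 3 * p3 := by have := C.p30; positivity
  have eA : A * (q * (3 + q) ^ 2 * (1 + z) ^ 3 * p3) =
      -9 * ((3 + q) * (1 + z) * p3 - z * (3 + q) * p1 - 3 * p1 * p3) *
        ((4 + 6 * z + q * (1 + z)) * p1) := by
    rw [← hη, ← C.h1, ← C.h2, C.hD1]
    linear_combination (4 + 6 * z + q * (1 + z)) * p1 ^ 2 * p3 * hA
  refine ⟨jz, fin (κ := κ1) (A := A) (g := g) z0 z1 q0 x0 (by linarith) (by linarith) gz
    (by rw [← C.hp3]; exact C.h1) (le_of_mul_le_mul_right (by linarith) pp)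
    (le_of_mul_le_mul_right (by linarith) pp) ?_⟩
  rw [← hw]
  have e1 : a * (κ1 * t / r) = κ1 * (s - 2 * (1 + g)) := by
    rw [hg]; field_simp; linear_combination κ1 * hρ
  have e2 : r * (κ2 * s / r) = κ2 * s := by field_simp
  have e3 : η * (w * s) = 1 := by linear_combination η * w * es + r ^ 2 * eη + xr
  linear_combination 9 * w * e1 - 9 * w * e2 - w * s * hA + A * e3

end R3

theorem noR3 {a b c r s t α β G τ j d ρ : ℤ} (D : Dat a b c r s t α β G τ (2 * j) d)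
    (hρ : 2 * ρ = r * s - a * t) (hs : s = r * ρ - 2) (h : (ρ - r) ^ 2 = a ^ 2)
    (hd : a + b - 2 * r ≤ d) : False := by
  have ha := D.ha
  have h6 := D.ratio
  have hb : 0 < b := by omega
  have d0 := D.hd
  have hr := D.hr
  have r0 := D.r0
  have sz := D.size2
  have b11 : 11 ≤ b := by
    obtain ⟨x, x0, hx⟩ := D.qa
    have u1 := iso_five_le (mul_pos ha d0) x0 hx
    have u2 : a * d * 1 ≤ a * d * d ^ 2 := by gcongr; exact one_le_pow₀ d0
    by_contra g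
    have : b ^ 4 ≤ 10 ^ 4 := by gcongr; omega
    linarith
  have s1 : b ≤ 4 * d := by
    have : 8 * r ≤ 4 * a + 3 * b := by
      apply le_of_pow_le_pow_left₀ two_ne_zero (by positivity)
      nlinarith
    omega
  have s2 : 44 * a < b := by
    have u1 : a * b ^ 3 ≤ a * (4 * d) ^ 3 := by gcongr
    have u2 : 0 < a * b ^ 3 := by positivity
    apply lt_of_mul_lt_mul_right (a := b ^ 3) _ (by positivity)
    linarith
  have s3 : 7 * b ≤ 10 * d := by
    have : 20 * r ≤ 10 * a + 3 * b := by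
      apply le_of_pow_le_pow_left₀ two_ne_zero (by positivity)
      have : 45 ≤ b := by omega
      nlinarith
    omega
  have s4 : 976 * a ≤ b := by
    have u1 : a * (7 * b) ^ 3 ≤ a * (10 * d) ^ 3 := by gcongr
    have u2 : 0 < a * b ^ 3 := by positivity
    apply le_of_mul_le_mul_right (a := b ^ 3) _ (by positivity)
    linarith
  obtain ⟨z, q, κ1, κ2, p1, p3, D1, D3, C⟩ := D.chart
  have j1 : (1 : ℝ) ≤ j := by exact_mod_cast D.jpos
  obtain ⟨k1, k2, k3⟩ := R3.real (ρ := ρ) C (by exact_mod_cast ha) (by exact_mod_cast s4)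
    (by exact_mod_cast D.six.le) (by exact_mod_cast D.rpos) j1 (by exact_mod_cast hr)
    (by exact_mod_cast hρ) (by exact_mod_cast hs) (by exact_mod_cast h)
  obtain ⟨n1, e1⟩ := C.i1
  obtain ⟨n2, e2⟩ := C.i2
  obtain ⟨H, hH⟩ : ∃ H : ℝ, H = 9 * a * (κ1 * t / r) - 9 * r * (κ2 * s / r) + 27 * s - 8 := ⟨_, rfl⟩
  rw [← hH] at k2 k3
  have e : ((8 * j - 9 * (a * n1 - r * n2 + 3 * s * j) : ℤ) : ℝ) = -(j * H) := by
    push_cast
    rw [hH, ← e1, ← e2]; ring
  have n0 : 0 < 8 * j - 9 * (a * n1 - r * n2 + 3 * s * j) := by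
    have : (0 : ℝ) < -(j * H) := by nlinarith
    rw [← e] at this
    exact_mod_cast this
  have n3 : j * (8 * j - 9 * (a * n1 - r * n2 + 3 * s * j)) < 2 := by
    have u1 : (j : ℝ) ^ 2 * (-47 * z) ≤ j ^ 2 * H := by gcongr
    have : (j : ℝ) * -(j * H) < 2 := by linarith
    rw [← e] at this
    exact_mod_cast this
  have j0 := D.jpos
  generalize a * n1 - r * n2 + 3 * s * j = m at n0 n3
  have : j = 1 := by nlinarith
  subst this
  omega

end Pool.Agent.Lib.MP_b2ee0b_nt
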