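import Pool.Agent.Lib.MP_b2ee0b_nt.Torsion

/-! A nonzero rational point killed by three gives the elementary datum `T3`. -/

namespace Pool.Agent.Lib.MP_b2ee0b_nt

open WeierstrassCurve

theorem T3_of_three (a b c : ℤ) (ha : a ≠ 0) (hb : b ≠ 0) (hc : c ≠ 0) (hab : a ≠ b) (hac : a ≠ c)
    (hbc : b ≠ c)
    (P : (({ a₁ := 0,
              a₂ := (4 * (a * b + a * c + b * c) : ℚ),
              a₃ := 0,
              a₄ := (16 * (a * b * (a * c) + a * b * (b * c) + a * c * (b * c)) : ℚ),
              a₆ := (64 * (a * b) * (a * c) * (b * c) : ℚ) } :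
              WeierstrassCurve ℚ).toAffine.Point))
    (hP3 : P + P + P = 0) (hP0 : P ≠ 0) : T3 a b c := by
  rcases P with _ | ⟨x, y, hns⟩
  · exact absurd rfl hP0
  have hPP := eq_neg_of_add_eq_zero_left hP3
  have hy := fun hy => hP0 (by rwa [Affine.Point.add_self_of_Y_eq (h₁ := hns) hy, zero_add] at hP3)
  rw [Affine.Point.add_self_of_Y_ne hy, Affine.Point.neg_some, Affine.Point.some.injEq] at hPP
  have hx := hPP.1
  have hE := (Affine.equation_iff _ _).1 hns.1
  rw [Affine.slope_of_Y_ne rfl hy] at hx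
  simp only [Affine.addX, Affine.negY] at hx hE hy
  have hy0 : y ≠ 0 := fun h => hy (by simp [h])
  have ha' : (a : ℚ) ≠ 0 := by exact_mod_cast ha
  have hb' : (b : ℚ) ≠ 0 := by exact_mod_cast hb
  have hc' : (c : ℚ) ≠ 0 := by exact_mod_cast hc
  have hab' : (a : ℚ) ≠ b := by exact_mod_cast hab
  have hac' : (a : ℚ) ≠ c := by exact_mod_cast hac
  have hbc' : (b : ℚ) ≠ c := by exact_mod_cast hbc
  obtain ⟨α, β, γ, h1, h2, h3, h4⟩ := flex (4 * (a * b)) (4 * (a * c)) (4 * (b * c)) x y
    ((3 * x ^ 2 + 2 * (4 * (a * b + a * c + b * c)) * x +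
      16 * (a * b * (a * c) + a * b * (b * c) + a * c * (b * c)) - 0 * y) / (y - (-y - 0 * x - 0)))
    (fun h => hbc' (mul_left_cancel₀ ha' (by linarith)))
    (fun h => hac' (mul_left_cancel₀ hb' (by linarith)))
    (fun h => hab' (mul_left_cancel₀ hc' (by linarith))) hy0
    (by linear_combination hE)
    (by
      have : y - (-y - 0 * x - 0) = 2 * y := by ring
      rw [this]; field_simp; ring)
    (by linear_combination hx)
  exact ⟨α / 2, β / 2, γ / 2, x / 4, by linarith, by linarith, by linarith, by linarith⟩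

end Pool.Agent.Lib.MP_b2ee0b_nt
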