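import Mathlib

/-! Polynomials in three variables packed into integers. -/

set_option autoImplicit false

namespace Pool.Agent.Lib.MP_b2ee0b_nt.TM

open Finset

def fN {α : Type} (n : ℕ) (k : ℕ → α) : α :=
  match n with
  | 0 => k 0
  | m + 1 => k (Nat.succ m)

def fZ {α : Type} (a : ℤ) (k : ℤ → α) : α :=
  match a with
  | .ofNat n => fN n fun n => k (.ofNat n)
  | .negSucc n => fN n fun n => k (.negSucc n)

def fB {α : Type} (b : Bool) (k : Bool → α) : α :=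
  match b with
  | true => k true
  | false => k false

lemma fN_eq {α : Type} (n : ℕ) (k : ℕ → α) : fN n k = k n := by cases n <;> rfl
lemma fZ_eq {α : Type} (a : ℤ) (k : ℤ → α) : fZ a k = k a := by cases a <;> simp [fZ, fN_eq]
lemma fB_eq {α : Type} (b : Bool) (k : Bool → α) : fB b k = k b := by cases b <;> rfl

structure Tm where
  c : ℤ
  i : ℕ
  k : ℕ
  j : ℕ

def ev {R : Type} [CommRing R] (x y z : R) : List Tm → R
  | [] => 0
  | t :: p => t.c * (x ^ t.i * y ^ t.k * z ^ t.j) + ev x y z p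

noncomputable def nm (ε : ℝ) : List Tm → ℝ
  | [] => 0
  | t :: p => |(t.c : ℝ)| * ε ^ t.j + nm ε p

def tmul (t u : Tm) : Tm := ⟨t.c * u.c, t.i + u.i, t.k + u.k, t.j + u.j⟩

def pmul : List Tm → List Tm → List Tm
  | [], _ => []
  | t :: p, q => q.map (tmul t) ++ pmul p q

def phi (J : ℕ) : List Tm → List Tm
  | [] => []
  | t :: p => if t.j < J then phi J p else ⟨t.c, t.i, t.k, t.j - J⟩ :: phi J p

def cf (i k j : ℕ) : List Tm → ℤ
  | [] => 0
  | t :: p => (if t.i = i ∧ t.k = k ∧ t.j = j then t.c else 0) + cf i k j p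

section
variable {R : Type} [CommRing R] (x y z : R) (ε : ℝ)

lemma ev_append : ∀ p q, ev x y z (p ++ q) = ev x y z p + ev x y z q
  | [], q => by simp [ev]
  | t :: p, q => by simp only [List.cons_append, ev, ev_append p q]; ring

lemma nm_append : ∀ p q, nm ε (p ++ q) = nm ε p + nm ε q
  | [], q => by simp [nm]
  | t :: p, q => by simp only [List.cons_append, nm, nm_append p q]; ring

lemma ev_map (t : Tm) : ∀ q, ev x y z (q.map (tmul t)) =
    t.c * (x ^ t.i * y ^ t.k * z ^ t.j) * ev x y z q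
  | [] => by simp [ev]
  | u :: q => by simp only [List.map, ev, ev_map t q, tmul]; push_cast; ring

lemma nm_map (t : Tm) : ∀ q, nm ε (q.map (tmul t)) = |(t.c : ℝ)| * ε ^ t.j * nm ε q
  | [] => by simp [nm]
  | u :: q => by simp only [List.map, nm, nm_map t q, tmul]; push_cast; rw [abs_mul]; ring

lemma ev_pmul : ∀ p q, ev x y z (pmul p q) = ev x y z p * ev x y z q
  | [], q => by simp [pmul, ev]
  | t :: p, q => by simp only [pmul, ev_append, ev_map, ev, ev_pmul p q]; ring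

lemma nm_pmul : ∀ p q, nm ε (pmul p q) = nm ε p * nm ε q
  | [], q => by simp [pmul, nm]
  | t :: p, q => by simp only [pmul, nm_append, nm_map, nm, nm_pmul p q]; ring

lemma mem_pmul : ∀ p q w, w ∈ pmul p q → ∃ t ∈ p, ∃ u ∈ q, w = tmul t u
  | [], q, w, h => by simp [pmul] at h
  | t :: p, q, w, h => by
    simp only [pmul, List.mem_append, List.mem_map] at h
    rcases h with ⟨u, hu, rfl⟩ | h
    · exact ⟨t, by simp, u, hu, rfl⟩
    · obtain ⟨t', ht, u, hu, e⟩ := mem_pmul p q w h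
      exact ⟨t', by simp [ht], u, hu, e⟩

lemma nm_nonneg (h : 0 ≤ ε) : ∀ p, 0 ≤ nm ε p
  | [] => le_rfl
  | t :: p => by have := nm_nonneg h p; simp only [nm]; positivity

lemma mem_phi (J : ℕ) : ∀ p w, w ∈ phi J p → ∃ t ∈ p, t.i = w.i ∧ t.k = w.k ∧ t.j = w.j + J
  | [], w, h => by simp [phi] at h
  | t :: p, w, h => by
    simp only [phi] at h
    split_ifs at h with h1
    · obtain ⟨u, hu, e⟩ := mem_phi J p w h
      exact ⟨u, by simp [hu], e⟩
    · rcases List.mem_cons.1 h with rfl | h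
      · exact ⟨t, by simp, rfl, rfl, by simp only; omega⟩
      · obtain ⟨u, hu, e⟩ := mem_phi J p w h
        exact ⟨u, by simp [hu], e⟩

lemma nm_phi (h : 0 ≤ ε) (J : ℕ) : ∀ p, ε ^ J * nm ε (phi J p) ≤ nm ε p
  | [] => by simp [phi, nm]
  | t :: p => by
    have := nm_phi h J p
    simp only [phi, nm]
    split_ifs with h1
    · have : 0 ≤ |(t.c : ℝ)| * ε ^ t.j := by positivity
      linarith
    · simp only [nm]
      have e : ε ^ t.j = ε ^ J * ε ^ (t.j - J) := by rw [← pow_add]; congr 1; omega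
      rw [e]; linarith

lemma cf_le (h : 0 ≤ ε) (i k j : ℕ) : ∀ p, |(cf i k j p : ℝ)| * ε ^ j ≤ nm ε p
  | [] => by simp [cf, nm]
  | t :: p => by
    have h1 := cf_le h i k j p
    simp only [cf, nm]
    split_ifs with h2
    · push_cast
      have h3 := mul_le_mul_of_nonneg_right (abs_add_le (t.c : ℝ) (cf i k j p)) (pow_nonneg h j)
      rw [h2.2.2]; linarith
    · have : 0 ≤ |(t.c : ℝ)| * ε ^ t.j := by positivity
      simp only [zero_add]; linarith

/-- the sum over a box of exponents -/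
def bx (W1 W2 J : ℕ) (f : ℕ → ℕ → ℕ → R) : R :=
  ∑ j ∈ range J, ∑ k ∈ range W2, ∑ i ∈ range W1, f i k j

lemma bx_cons (W1 W2 J : ℕ) (g : ℕ → ℕ → ℕ → R) (t : Tm) (p : List Tm)
    (h : t.j < J → t.i < W1 ∧ t.k < W2) :
    bx W1 W2 J (fun i k j => (cf i k j (t :: p) : R) * g i k j) =
      (if t.j < J then t.c * g t.i t.k t.j else 0) +
        bx W1 W2 J (fun i k j => (cf i k j p : R) * g i k j) := by
  simp only [bx, cf, Int.cast_add, add_mul, sum_add_distrib]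
  congr 1
  split_ifs with h1
  · rw [sum_eq_single_of_mem t.j (mem_range.2 h1), sum_eq_single_of_mem t.k (mem_range.2 (h h1).2),
      sum_eq_single_of_mem t.i (mem_range.2 (h h1).1)]
    · simp
    · intro b _ hb; simp [hb.symm]
    · intro b _ hb; simp [hb.symm]
    · intro b _ hb; simp [hb.symm]
  · refine sum_eq_zero fun j hj => ?_
    have : t.j ≠ j := by have := mem_range.1 hj; omega
    simp [this]

lemma ev_bx (W1 W2 J : ℕ) : ∀ p : List Tm, (∀ t ∈ p, t.j < J → t.i < W1 ∧ t.k < W2) →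
    ev x y z p = bx W1 W2 J (fun i k j => (cf i k j p : R) * (x ^ i * y ^ k * z ^ j)) +
      z ^ J * ev x y z (phi J p)
  | [], _ => by simp [ev, bx, cf, phi]
  | t :: p, h => by
    rw [bx_cons _ _ _ _ _ _ (h t (by simp))]
    simp only [ev, phi]
    rw [ev_bx W1 W2 J p fun u hu => h u (by simp [hu])]
    split_ifs with h1
    · ring
    · simp only [ev]
      have e : z ^ t.j = z ^ J * z ^ (t.j - J) := by rw [← pow_add]; congr 1; omega
      rw [e]; ring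

end

lemma ev_cut {x y z ε Λ : ℝ} (hx : 0 ≤ x) (hy : 0 ≤ y) (hz : 0 ≤ z) (hε : 0 ≤ ε) (hΛ : 0 ≤ Λ)
    (W1 W2 J : ℕ) (keep : ℕ → ℕ → ℕ → Prop) [∀ i k j, Decidable (keep i k j)]
    (hk : ∀ i k j, ¬ keep i k j ∨ J ≤ j → x ^ i * y ^ k * z ^ j ≤ Λ * ε ^ j) :
    ∀ p : List Tm, (∀ t ∈ p, t.j < J → t.i < W1 ∧ t.k < W2) →
    |ev x y z p - bx W1 W2 J (fun i k j => (cf i k j p : ℝ) *
      if keep i k j then x ^ i * y ^ k * z ^ j else 0)| ≤ Λ * nm ε p
  | [], _ => by simp [ev, bx, cf, nm]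
  | t :: p, h => by
    rw [bx_cons _ _ _ _ _ _ (h t (by simp))]
    have ih := ev_cut hx hy hz hε hΛ W1 W2 J keep hk p fun u hu => h u (by simp [hu])
    simp only [ev, nm]
    have h0 : 0 ≤ Λ * (|(t.c : ℝ)| * ε ^ t.j) := by positivity
    have h2 : ¬ keep t.i t.k t.j ∨ J ≤ t.j →
        |(t.c : ℝ) * (x ^ t.i * y ^ t.k * z ^ t.j)| ≤ Λ * (|(t.c : ℝ)| * ε ^ t.j) := fun g => by
      rw [abs_mul, abs_of_nonneg (by positivity : 0 ≤ x ^ t.i * y ^ t.k * z ^ t.j)]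
      have := mul_le_mul_of_nonneg_left (hk _ _ _ g) (abs_nonneg (t.c : ℝ))
      linarith
    rw [abs_le] at ih ⊢
    split_ifs with h1 h3
    · constructor <;> linarith
    · have := abs_le.1 (h2 (Or.inl h3)); constructor <;> linarith
    · have := abs_le.1 (h2 (Or.inr (not_lt.1 h1))); constructor <;> linarith

/-- low bits -/
def msk (b N : ℕ) : ℕ := Nat.land N (Nat.sub (Nat.shiftLeft 1 b) 1)
/-- a digit -/
def dgt (b n N : ℕ) : ℕ := msk b (Nat.shiftRight N (Nat.mul b n))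
/-- a repeated digit -/
def rp (h b n : ℕ) : ℕ :=
  Nat.mul h (Nat.div (Nat.sub (Nat.shiftLeft 1 (Nat.mul b n)) 1) (Nat.sub (Nat.shiftLeft 1 b) 1))

lemma shl_eq (a b : ℕ) : Nat.shiftLeft a b = a * 2 ^ b := Nat.shiftLeft_eq a b
lemma shr_eq (a b : ℕ) : Nat.shiftRight a b = a / 2 ^ b := Nat.shiftRight_eq_div_pow a b

lemma msk_eq (b N : ℕ) : msk b N = N % 2 ^ b := by
  unfold msk
  rw [shl_eq, one_mul]
  exact Nat.and_two_pow_sub_one_eq_mod N b

lemma dgt_eq (b n N : ℕ) : dgt b n N = N / (2 ^ b) ^ n % 2 ^ b := by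
  unfold dgt
  rw [msk_eq, shr_eq, ← pow_mul]; rfl

lemma rp_eq (h b n : ℕ) (hb : 1 ≤ b) : rp h b n = ∑ i ∈ range n, h * (2 ^ b) ^ i := by
  have : 2 ≤ 2 ^ b := le_trans (by norm_num) (Nat.pow_le_pow_right (by norm_num) hb)
  rw [← mul_sum, Nat.geomSum_eq this, ← pow_mul]
  unfold rp
  rw [shl_eq, shl_eq, one_mul, one_mul]; rfl

lemma dgt_and (b n x y : ℕ) : dgt b n (Nat.land x y) = Nat.land (dgt b n x) (dgt b n y) := by
  rw [dgt_eq, dgt_eq, dgt_eq, ← pow_mul]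
  change (x &&& y) / _ % _ = (_ &&& _)
  rw [Nat.and_div_two_pow, Nat.and_mod_two_pow]

lemma dig_lt {P : ℤ} (f : ℕ → ℤ) : ∀ n, (∀ i < n, 0 ≤ f i ∧ f i < P) →
    0 ≤ ∑ i ∈ range n, f i * P ^ i ∧ ∑ i ∈ range n, f i * P ^ i < P ^ n
  | 0, _ => by simp
  | n + 1, h => by
    obtain ⟨h1, h2⟩ := dig_lt f n fun i hi => h i (by omega)
    obtain ⟨h3, h4⟩ := h n (by omega)
    have h5 : 0 < P ^ n := by omega
    rw [sum_range_succ, pow_succ]
    constructor
    · positivity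
    · nlinarith

lemma dig_eq (P : ℕ) : ∀ (n : ℕ) (f : ℕ → ℤ) (X : ℕ), (∀ i < n, 0 ≤ f i ∧ f i < P) →
    (X : ℤ) ≡ ∑ i ∈ range n, f i * (P : ℤ) ^ i [ZMOD (P : ℤ) ^ n] →
    ∀ i < n, ((X / P ^ i % P : ℕ) : ℤ) = f i
  | 0, _, _, _, _ => by simp
  | n + 1, f, X, h, e => by
    obtain ⟨h1, h2⟩ := h 0 (by omega)
    have hP : (0 : ℤ) < P := by omega
    have e1 : ∑ i ∈ range (n + 1), f i * (P : ℤ) ^ i =
        f 0 + P * ∑ i ∈ range n, f (i + 1) * (P : ℤ) ^ i := by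
      rw [sum_range_succ', mul_sum]
      simp only [pow_zero, mul_one]
      rw [add_comm]
      congr 1
      exact sum_congr rfl fun i _ => by ring
    rw [e1] at e
    have e2 : (X : ℤ) % P = f 0 := by
      have := e.of_dvd (dvd_pow_self (P : ℤ) (Nat.succ_ne_zero n))
      rw [this.eq, Int.add_mul_emod_self_left, Int.emod_eq_of_lt h1 h2]
    have e3 : ((X / P : ℕ) : ℤ) ≡ ∑ i ∈ range n, f (i + 1) * (P : ℤ) ^ i [ZMOD (P : ℤ) ^ n] := by
      refine Int.ModEq.mul_left_cancel' hP.ne' ?_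
      have e4 : (X : ℤ) = f 0 + P * ((X / P : ℕ) : ℤ) := by
        rw [← e2]; push_cast; exact (Int.emod_add_mul_ediv _ _).symm
      rw [e4, pow_succ'] at e
      exact Int.ModEq.add_left_cancel' _ e
    intro i hi
    cases i with
    | zero => simpa using e2
    | succ i =>
      rw [← dig_eq P n (fun i => f (i + 1)) (X / P) (fun i hi => h _ (by omega)) e3 i (by omega),
        Nat.div_div_eq_div_mul, pow_succ']

lemma dgt_sum (b n : ℕ) (f : ℕ → ℤ) (X : ℕ) (h : ∀ i < n, 0 ≤ f i ∧ f i < 2 ^ b)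
    (e : (X : ℤ) ≡ ∑ i ∈ range n, f i * (2 ^ b) ^ i [ZMOD (2 ^ b) ^ n]) :
    ∀ i < n, (dgt b i X : ℤ) = f i := fun i hi => by
  rw [dgt_eq]
  exact dig_eq (2 ^ b) n f X (by exact_mod_cast h) (by exact_mod_cast e) i hi

/-- the digits of a packed box -/
lemma dgt_bx (b W1 W2 J : ℕ) (f : ℕ → ℕ → ℕ → ℤ) (X : ℕ)
    (h : ∀ i k j, j < J → 0 ≤ f i k j ∧ f i k j < 2 ^ b)
    (e : (X : ℤ) ≡ bx W1 W2 J (fun i k j => f i k j *
      ((2 ^ b) ^ i * (2 ^ (b * W1)) ^ k * (2 ^ (b * W1 * W2)) ^ j)) [ZMOD (2 ^ (b * W1 * W2)) ^ J]) :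
    ∀ i < W1, ∀ k < W2, ∀ j < J,
      (dgt b i (dgt (b * W1) k (dgt (b * W1 * W2) j X)) : ℤ) = f i k j := by
  intro i hi k hk j hj
  have h1 : ∀ k j, j < J → 0 ≤ ∑ i ∈ range W1, f i k j * (2 ^ b) ^ i ∧
      ∑ i ∈ range W1, f i k j * (2 ^ b) ^ i < 2 ^ (b * W1) := fun k j hj => by
    rw [pow_mul]; exact dig_lt _ _ fun i _ => h i k j hj
  have h2 : ∀ j, j < J → 0 ≤ ∑ k ∈ range W2, (∑ i ∈ range W1, f i k j * (2 ^ b) ^ i) * (2 ^ (b * W1)) ^ k ∧
      ∑ k ∈ range W2, (∑ i ∈ range W1, f i k j * (2 ^ b) ^ i) * (2 ^ (b * W1)) ^ k <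
        2 ^ (b * W1 * W2) := fun j hj => by
    rw [pow_mul _ (b * W1)]; exact dig_lt _ _ fun k _ => h1 k j hj
  have e3 := dgt_sum (b * W1 * W2) J _ X h2 (by
    refine e.trans ?_
    simp only [bx, sum_mul, mul_assoc]
    rfl) j hj
  have e2 := dgt_sum (b * W1) W2 _ _ (fun k _ => h1 k j hj) (by rw [e3]) k hk
  exact dgt_sum b W1 _ _ (fun i _ => h i k j hj) (by rw [e2]) i hi

end Pool.Agent.Lib.MP_b2ee0b_nt.TM
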