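import Pool.Agent.Lib.MP_b2ee0b_nt.TMb

/-! Truncated series with a remainder. -/

set_option autoImplicit false

namespace Pool.Agent.Lib.MP_b2ee0b_nt.TM

structure Env (c : Cfg) where
  zh : ℝ
  xh : ℝ
  yh : ℝ
  δ : ℝ
  z0 : 0 < zh
  x0 : 0 < xh
  y0 : 0 < yh
  z1 : zh ≤ 1
  x1 : xh ≤ 1
  y1 : yh ≤ 1
  zE : c.E0 * zh ^ c.g ≤ 1
  E1 : 1 ≤ c.E
  E2 : c.E ≤ c.E0
  δe : δ = if c.sg then 1 + (xh ^ c.g) ^ c.gd else 1 - (xh ^ c.g) ^ c.gd
  δ1 : 1 / 2 ≤ δ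
  δ2 : δ ≤ 2

structure T where
  ok : Bool
  n : ℤ
  m1 : ℤ
  m2 : ℤ
  l : ℤ
  dn : ℕ
  N : ℕ
  M : ℕ
  d1 : ℕ
  d2 : ℕ
  K : ℕ
  J : ℕ

def mkT (ok : Bool) (n m1 m2 l : ℤ) (dn N M d1 d2 K J : ℕ) : T :=
  fB ok fun ok => fZ n fun n => fZ m1 fun m1 => fZ m2 fun m2 => fZ l fun l => fN dn fun dn =>
  fN N fun N => fN M fun M => fN d1 fun d1 => fN d2 fun d2 => fN K fun K => fN J fun J =>
  ⟨ok, n, m1, m2, l, dn, N, M, d1, d2, K, J⟩

lemma mkT_eq (ok : Bool) (n m1 m2 l : ℤ) (dn N M d1 d2 K J : ℕ) :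
    mkT ok n m1 m2 l dn N M d1 d2 K J = ⟨ok, n, m1, m2, l, dn, N, M, d1, d2, K, J⟩ := by
  simp only [mkT, fB_eq, fZ_eq, fN_eq]

def frc {α : Type} (t : T) (k : T → α) : α :=
  match t with
  | ⟨ok, n, m1, m2, l, dn, N, M, d1, d2, K, J⟩ => k ⟨ok, n, m1, m2, l, dn, N, M, d1, d2, K, J⟩

lemma frc_eq {α : Type} (t : T) (k : T → α) : frc t k = k t := rfl

variable {c : Cfg} (e : Env c)

def Env.x : ℝ := e.xh ^ c.g
def Env.y : ℝ := e.yh ^ c.g
def Env.z : ℝ := e.zh ^ c.g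
noncomputable def Env.ld (n m1 m2 l : ℤ) : ℝ := e.zh ^ n * e.xh ^ m1 * e.yh ^ m2 * e.δ ^ l

def Mem (t : T) (v : ℝ) : Prop :=
  t.ok = true → 0 < t.dn ∧ ∃ w θ, Core c e.x e.y e.z t.N t.M t.d1 t.d2 t.J w ∧
    |θ| ≤ t.K * e.z ^ t.J ∧ v * t.dn = e.ld t.n t.m1 t.m2 t.l * (w + θ)

lemma Env.xp : 0 < e.x := pow_pos e.x0 _
lemma Env.yp : 0 < e.y := pow_pos e.y0 _
lemma Env.zp : 0 < e.z := pow_pos e.z0 _
lemma Env.δp : 0 < e.δ := by have := e.δ1; linarith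
lemma Env.xl : e.x ≤ 1 := pow_le_one₀ e.x0.le e.x1
lemma Env.yl : e.y ≤ 1 := pow_le_one₀ e.y0.le e.y1
lemma Env.zl : e.z ≤ 1 := pow_le_one₀ e.z0.le e.z1
lemma Env.zle : e.z ≤ 1 / c.E := by
  have h1 : (1 : ℝ) ≤ c.E := by exact_mod_cast e.E1
  have h2 : (c.E : ℝ) ≤ c.E0 := by exact_mod_cast e.E2
  have h3 := mul_le_mul_of_nonneg_right h2 e.zp.le
  have h4 : c.E0 * e.z ≤ 1 := e.zE
  rw [le_div_iff₀ (by linarith)]; linarith
lemma Env.ldp (n m1 m2 l : ℤ) : 0 < e.ld n m1 m2 l := by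
  have := e.z0; have := e.x0; have := e.y0; have := e.δp
  unfold Env.ld; positivity
lemma Env.ld_add (n m1 m2 l n' m1' m2' l' : ℤ) :
    e.ld (n + n') (m1 + m1') (m2 + m2') (l + l') = e.ld n m1 m2 l * e.ld n' m1' m2' l' := by
  unfold Env.ld
  rw [zpow_add₀ e.z0.ne', zpow_add₀ e.x0.ne', zpow_add₀ e.y0.ne', zpow_add₀ e.δp.ne']; ring
lemma Env.ld_nat (j i k l : ℕ) :
    e.ld (c.g * j) (c.g * i) (c.g * k) l = e.z ^ j * e.x ^ i * e.y ^ k * e.δ ^ l := by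
  unfold Env.ld Env.x Env.y Env.z
  rw [← pow_mul, ← pow_mul, ← pow_mul]; norm_cast
lemma Env.ld_le {n m1 m2 : ℤ} (l : ℤ) {j : ℕ} (h : c.g * j ≤ n) (h1 : 0 ≤ m1) (h2 : 0 ≤ m2) :
    e.ld n m1 m2 l ≤ e.z ^ j * 2 ^ l.natAbs := by
  have g0 : e.zh ^ n ≤ e.z ^ j := by
    unfold Env.z
    rw [← pow_mul, ← zpow_natCast]
    exact zpow_le_zpow_right_of_le_one₀ e.z0 e.z1 (by exact_mod_cast h)
  have g1 : e.xh ^ m1 ≤ 1 := zpow_le_one₀ e.x0 e.x1 h1
  have g2 : e.yh ^ m2 ≤ 1 := zpow_le_one₀ e.y0 e.y1 h2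
  have g3 : e.δ ^ l ≤ 2 ^ l.natAbs := by
    rcases l with l | l
    · simpa using pow_le_pow_left₀ e.δp.le e.δ2 l
    · rw [zpow_negSucc, ← inv_pow]
      refine pow_le_pow_left₀ (inv_pos.2 e.δp).le ?_ _
      rw [inv_le_comm₀ e.δp (by norm_num)]
      simpa using e.δ1
  have := e.z0; have := e.x0; have := e.y0; have := e.δp; have := e.zp
  calc e.ld n m1 m2 l ≤ e.z ^ j * 1 * 1 * 2 ^ l.natAbs := by unfold Env.ld; gcongr
    _ = _ := by ring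

def cdv (a b : ℕ) : ℕ := (a + b - 1) / b
def sc (c : Cfg) (K j : ℕ) : ℕ := cdv K (c.E0 ^ j)

lemma cdv_le (a : ℕ) {b : ℕ} (hb : 0 < b) : (a : ℝ) / b ≤ cdv a b := by
  rw [div_le_iff₀ (by exact_mod_cast hb)]
  have h1 := Nat.div_add_mod (a + b - 1) b
  have h2 := Nat.mod_lt (a + b - 1) hb
  have : a ≤ cdv a b * b := by unfold cdv; rw [mul_comm]; omega
  exact_mod_cast this

lemma sc_le (K j : ℕ) : K * e.z ^ j ≤ sc c K j := by
  have h0 : 0 < c.E0 := lt_of_lt_of_le e.E1 e.E2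
  have h1 : (0 : ℝ) < c.E0 := by exact_mod_cast h0
  refine le_trans ?_ (cdv_le K (pow_pos h0 j))
  push_cast
  rw [div_eq_mul_one_div, ← one_div_pow]
  refine mul_le_mul_of_nonneg_left (pow_le_pow_left₀ e.zp.le ?_ j) (by positivity)
  rw [le_div_iff₀ h1, mul_comm]; exact e.zE

lemma sc_le' (K : ℕ) {J J' : ℕ} (h : J' ≤ J) : K * e.z ^ J ≤ sc c K (J - J') * e.z ^ J' := by
  have := mul_le_mul_of_nonneg_right (sc_le e K (J - J')) (pow_pos e.zp J').le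
  rwa [mul_assoc, ← pow_add, Nat.sub_add_cancel h] at this

/-- the residue of a product -/
def smN (b : ℕ) (a : ℤ) (N : ℕ) : ℕ :=
  match a with
  | .ofNat n => msk b (n * N)
  | .negSucc n => Nat.shiftLeft 1 b - msk b ((n + 1) * N)

lemma msk_mod (b J N : ℕ) : (msk (b * J) N : ℤ) ≡ N [ZMOD (2 ^ b) ^ J] := by
  rw [msk_eq, ← pow_mul]; push_cast; exact Int.mod_modEq _ _

lemma smN_mod (b J : ℕ) (a : ℤ) (N : ℕ) : (smN (b * J) a N : ℤ) ≡ a * N [ZMOD (2 ^ b) ^ J] := by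
  rcases a with n | n
  · simpa [smN] using msk_mod b J (n * N)
  · have h1 := msk_mod b J ((n + 1) * N)
    have h2 : msk (b * J) ((n + 1) * N) ≤ Nat.shiftLeft 1 (b * J) := by
      rw [msk_eq, shl_eq, one_mul]; exact (Nat.mod_lt _ (by positivity)).le
    simp only [smN]
    rw [Nat.cast_sub h2, shl_eq, one_mul, Int.negSucc_eq, neg_mul, ← zero_sub]
    push_cast at h1 ⊢
    exact Int.ModEq.sub (by rw [pow_mul]; exact Int.modulus_modEq_zero) h1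

def bad : T := ⟨false, 0, 0, 0, 0, 0, 0, 0, 0, 0, 0, 0⟩
def mon (c : Cfg) (n m1 m2 l : ℤ) : T := mkT true n m1 m2 l 1 1 1 0 0 0 c.D
def smul (c : Cfg) (a : ℤ) (t : T) : T :=
  mkT t.ok t.n t.m1 t.m2 t.l t.dn (smN (c.b3 * t.J) a t.N) (a.natAbs * t.M) t.d1 t.d2
    (a.natAbs * t.K) t.J
def cst (c : Cfg) (a : ℤ) : T := frc (mon c 0 0 0 0) fun t => smul c a t
def dv (a : ℕ) (t : T) : T :=
  mkT (t.ok && decide (0 < a)) t.n t.m1 t.m2 t.l (a * t.dn) t.N t.M t.d1 t.d2 t.K t.J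
def ex (t : T) : T := mkT t.ok t.n t.m1 t.m2 t.l t.dn t.N t.M t.d1 t.d2 0 t.J
def mul (c : Cfg) (s t : T) : T :=
  fN (min s.J t.J) fun J => fN (sc c s.K (s.J - J)) fun K => fN (sc c t.K (t.J - J)) fun K' =>
  mkT (s.ok && t.ok) (s.n + t.n) (s.m1 + t.m1) (s.m2 + t.m2) (s.l + t.l) (s.dn * t.dn)
    (msk (c.b3 * J) (s.N * t.N)) (s.M * t.M) (s.d1 + t.d1) (s.d2 + t.d2)
    (s.M * K' + t.M * K + sc c (K * K') J) J
def Cfg.dN (c : Cfg) : ℤ :=
  if c.sg then 1 + (Nat.shiftLeft 1 (c.kb * c.gd) : ℕ) else 1 - (Nat.shiftLeft 1 (c.kb * c.gd) : ℕ)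
def al (c : Cfg) (n m1 m2 l : ℤ) (dn J : ℕ) (t : T) : T :=
  fN ((t.n - n) / c.g).toNat fun j => fN ((t.m1 - m1) / c.g).toNat fun i =>
  fN ((t.m2 - m2) / c.g).toNat fun k => fN (t.l - l).toNat fun a => fN (dn / t.dn) fun q =>
  mkT (t.ok && decide (t.n = n + c.g * j) && decide (t.m1 = m1 + c.g * i) &&
      decide (t.m2 = m2 + c.g * k) && decide (t.l = l + a) && decide (dn = q * t.dn) &&
      decide (0 < q) && decide (J ≤ t.J + j)) n m1 m2 l dn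
    (smN (c.b3 * J) (q * c.dN ^ a) (Nat.shiftLeft t.N (c.kb * i + c.b2 * k + c.b3 * j)))
    (cdv (q * 2 ^ a * t.M) (c.E ^ j)) (t.d1 + c.t1 * i + c.t1 * c.gd * a - c.s1 * j) (t.d2 + k - c.s2 * j)
    (sc c (q * 2 ^ a * t.K) (t.J + j - J)) J
def add (c : Cfg) (s t : T) : T :=
  fZ (min s.n t.n) fun n => fZ (min s.m1 t.m1) fun m1 => fZ (min s.m2 t.m2) fun m2 =>
  fZ (min s.l t.l) fun l => fN (Nat.lcm s.dn t.dn) fun dn =>
  fN (min (s.J + ((s.n - n) / c.g).toNat) (t.J + ((t.n - n) / c.g).toNat)) fun J =>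
  frc (al c n m1 m2 l dn J s) fun s => frc (al c n m1 m2 l dn J t) fun t =>
  mkT (s.ok && t.ok) n m1 m2 l dn (s.N + t.N) (s.M + t.M) (max s.d1 t.d1) (max s.d2 t.d2)
    (s.K + t.K) J
def Cfg.fit (c : Cfg) (M d1 d2 J : ℕ) : Bool :=
  decide (1 ≤ c.kb) && decide (1 ≤ c.E) && decide (M * c.E ^ J < c.h) &&
    decide (d1 + c.s1 * J < c.t1 * c.W1) && decide (d2 + c.s2 * J < c.W2)
def nrm (c : Cfg) (j : ℕ) (t : T) : T :=
  mkT (t.ok && decide (j ≤ t.J) && c.fit t.M t.d1 t.d2 j && Nat.beq (msk (c.b3 * j) t.N) 0)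
    (t.n + c.g * j) t.m1 t.m2 t.l t.dn (Nat.shiftRight t.N (c.b3 * j)) (t.M * c.E ^ j)
    (t.d1 + c.s1 * j) (t.d2 + c.s2 * j) t.K (t.J - j)
def res (c : Cfg) (p r : T) (n m1 m2 l : ℤ) (a b : ℕ) : T :=
  frc (nrm c r.J r) fun r => fN (min p.J ((r.n - n - p.n).toNat / c.g)) fun J =>
  mkT (p.ok && r.ok && decide (c.g * J + n + p.n ≤ r.n) && decide (m1 + p.m1 ≤ r.m1) &&
      decide (m2 + p.m2 ≤ r.m2) && decide (0 < a)) p.n p.m1 p.m2 p.l p.dn p.N p.M p.d1 p.d2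
    (sc c p.K (p.J - J) +
      cdv ((r.M + sc c r.K r.J) * b * p.dn * 2 ^ (r.l - l - p.l).natAbs) (a * r.dn)) J
def sml (c : Cfg) (a : ℕ) (t : T) : Bool :=
  t.ok && decide (c.g * (t.n.toNat / c.g : ℕ) ≤ t.n) && decide (0 ≤ t.m1) && decide (0 ≤ t.m2) &&
    decide (a * (t.M + sc c t.K t.J) * 2 ^ t.l.natAbs ≤ t.dn * c.E0 ^ (t.n.toNat / c.g))

lemma Cfg.fit_ok {M d1 d2 J : ℕ} (h : c.fit M d1 d2 J = true) : c.Fit M d1 d2 J := by
  simp only [Cfg.fit, Bool.and_eq_true, decide_eq_true_eq] at h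
  exact ⟨h.1.1.1.1, h.1.1.1.2, by exact_mod_cast h.1.1.2, h.1.2, h.2⟩

variable {e} {s t : T} {u v : ℝ}

lemma Mem.bad (v : ℝ) : Mem e bad v := fun h => by simp [TM.bad] at h

lemma Mem.mon (n m1 m2 l : ℤ) : Mem e (mon c n m1 m2 l) (e.ld n m1 m2 l) := fun _ => by
  simp only [TM.mon, mkT_eq]
  exact ⟨one_pos, 1, 0, by simpa using Core.cst 1, by simp, by simp⟩

lemma Mem.smul (h : Mem e t v) (a : ℤ) : Mem e (smul c a t) (a * v) := by
  simp only [TM.smul, mkT_eq]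
  intro g
  obtain ⟨h0, w, θ, h1, h2, h3⟩ := h g
  refine ⟨h0, a * w, a * θ, (h1.smul a).weak (smN_mod _ _ _ _) (by simp) le_rfl le_rfl le_rfl,
    ?_, by simp only; rw [mul_assoc, h3]; ring⟩
  simp only [Nat.cast_mul, Nat.cast_natAbs, Int.cast_abs, abs_mul, mul_assoc]
  exact mul_le_mul_of_nonneg_left h2 (abs_nonneg _)

lemma Mem.cst (a : ℤ) : Mem e (cst c a) a := by
  simpa [Env.ld, TM.cst, frc_eq] using (Mem.mon (e := e) 0 0 0 0).smul a

lemma Mem.dv (h : Mem e t v) (a : ℕ) : Mem e (dv a t) (v / a) := by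
  simp only [TM.dv, mkT_eq]
  intro g
  simp only [Bool.and_eq_true, decide_eq_true_eq] at g
  obtain ⟨h0, w, θ, h1, h2, h3⟩ := h g.1
  have : (a : ℝ) ≠ 0 := by exact_mod_cast g.2.ne'
  exact ⟨Nat.mul_pos g.2 h0, w, θ, h1, h2, by simp only; rw [← h3]; push_cast; field_simp⟩

lemma Mem.ex (h : Mem e t v) : ∃ w, Mem e (ex t) w := by
  simp only [TM.ex, mkT_eq]
  by_cases g : t.ok = true
  · obtain ⟨h0, w, θ, h1, -, -⟩ := h g
    have : (t.dn : ℝ) ≠ 0 := by exact_mod_cast h0.ne'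
    exact ⟨e.ld t.n t.m1 t.m2 t.l * w / t.dn, fun _ => ⟨h0, w, 0, h1, by simp,
      by simp only; field_simp; ring⟩⟩
  · exact ⟨0, fun g' => absurd g' g⟩

lemma Mem.mul (h : Mem e s u) (h' : Mem e t v) : Mem e (mul c s t) (u * v) := by
  simp only [TM.mul, mkT_eq, fN_eq]
  intro g
  simp only [Bool.and_eq_true] at g
  obtain ⟨h0, w, θ, h1, h2, h3⟩ := h g.1
  obtain ⟨h0', w', θ', h1', h2', h3'⟩ := h' g.2
  have b1 := h1.abs_le e.xp.le e.xl e.yp.le e.yl e.zp.le e.zle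
  have b2 := h1'.abs_le e.xp.le e.xl e.yp.le e.yl e.zp.le e.zle
  have b3 := h2.trans (sc_le' e _ (min_le_left s.J t.J))
  have b4 := h2'.trans (sc_le' e _ (min_le_right s.J t.J))
  generalize sc c s.K (s.J - min s.J t.J) = K at *
  generalize sc c t.K (t.J - min s.J t.J) = K' at *
  refine ⟨Nat.mul_pos h0 h0', w * w', w * θ' + w' * θ + θ * θ', ?_, ?_, ?_⟩
  · exact ((h1.weak (Int.ModEq.refl _) le_rfl le_rfl le_rfl (min_le_left _ _)).mul
      (h1'.weak (Int.ModEq.refl _) le_rfl le_rfl le_rfl (min_le_right _ _))).weak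
      (by simpa using msk_mod _ _ (s.N * t.N)) (by simp) le_rfl le_rfl le_rfl
  · have b5 := mul_le_mul_of_nonneg_right (sc_le e (K * K') (min s.J t.J))
      (pow_pos e.zp (min s.J t.J)).le
    have b6 : |w * θ'| ≤ s.M * (K' * e.z ^ min s.J t.J) := by
      rw [abs_mul]; exact mul_le_mul b1 b4 (abs_nonneg _) (by positivity)
    have b7 : |w' * θ| ≤ t.M * (K * e.z ^ min s.J t.J) := by
      rw [abs_mul]; exact mul_le_mul b2 b3 (abs_nonneg _) (by positivity)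
    have b8 : |θ * θ'| ≤ K * e.z ^ min s.J t.J * (K' * e.z ^ min s.J t.J) := by
      rw [abs_mul]; exact mul_le_mul b3 b4 (abs_nonneg _) ((abs_nonneg _).trans b3)
    have b9 := abs_add_three (w * θ') (w' * θ) (θ * θ')
    simp only
    push_cast at b5 ⊢
    linarith
  · simp only
    rw [e.ld_add]
    push_cast
    linear_combination (v * t.dn) * h3 + e.ld s.n s.m1 s.m2 s.l * (w + θ) * h3'

lemma Core.dN (J : ℕ) : Core c e.x e.y e.z c.dN 2 (c.t1 * c.gd) 0 J e.δ := by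
  have h1 := (Core.cst (c := c) (x := e.x) (y := e.y) (z := e.z) (J := J) 1).weak
    (Int.ModEq.refl _) le_rfl (Nat.zero_le (c.t1 * c.gd)) le_rfl le_rfl
  have h2 := Core.one (c := c) (x := e.x) (y := e.y) (z := e.z) (J := J) 1 c.gd 0
  rw [e.δe, Cfg.dN, shl_eq]
  split_ifs
  · simpa [Env.x, one_add_one_eq_two] using h1.add h2
  · simpa [Env.x, one_add_one_eq_two] using h1.sub h2

lemma Mem.al (h : Mem e t v) (n m1 m2 l : ℤ) (dn J : ℕ) : Mem e (al c n m1 m2 l dn J t) v := by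
  simp only [TM.al, mkT_eq, fN_eq]
  generalize ((t.n - n) / c.g).toNat = j
  generalize ((t.m1 - m1) / c.g).toNat = i
  generalize ((t.m2 - m2) / c.g).toNat = k
  generalize (t.l - l).toNat = a
  generalize dn / t.dn = q
  intro g
  simp only [Bool.and_eq_true, decide_eq_true_eq] at g
  obtain ⟨⟨⟨⟨⟨⟨⟨g0, g1⟩, g2⟩, g3⟩, g4⟩, g5⟩, g6⟩, g7⟩ := g
  obtain ⟨h0, w, θ, h1, h2, h3⟩ := h g0
  have hx := e.xp; have hy := e.yp; have hz := e.zp; have hδ := e.δp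
  refine ⟨g5 ▸ Nat.mul_pos g6 h0, q * (e.z ^ j * (e.δ ^ a * ((1 : ℤ) * (e.x ^ i * e.y ^ k) * w))),
    q * e.δ ^ a * (e.x ^ i * e.y ^ k) * (e.z ^ j * θ), ?_, ?_, ?_⟩
  · refine (((((Core.dN t.J).pow a).mul ((Core.one 1 i k).mul h1)).shz j).smul q).weak
      ((smN_mod _ _ _ _).trans ?_) ?_ (by simp only; omega) (by simp only; omega) g7
    · rw [shl_eq]; push_cast
      rw [pow_add _ _ (c.b3 * j)]
      exact (Int.ModEq.refl _).trans (by congr 1; ring)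
    · refine le_trans (le_of_eq ?_) (cdv_le _ (pow_pos e.E1 j))
      simp; ring
  · refine le_trans ?_ (sc_le' e _ g7)
    have b1 : e.δ ^ a ≤ 2 ^ a := pow_le_pow_left₀ hδ.le e.δ2 a
    have b2 : e.x ^ i * e.y ^ k ≤ 1 :=
      mul_le_one₀ (pow_le_one₀ hx.le e.xl) (by positivity) (pow_le_one₀ hy.le e.yl)
    rw [abs_mul, abs_mul _ θ, abs_of_nonneg (by positivity : 0 ≤ q * e.δ ^ a * (e.x ^ i * e.y ^ k)),
      abs_of_pos (pow_pos hz j)]
    calc _ ≤ q * 2 ^ a * 1 * (e.z ^ j * (t.K * e.z ^ t.J)) := by gcongr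
      _ = _ := by push_cast; ring
  · simp only
    rw [g1, g2, g3, g4, e.ld_add, e.ld_nat] at h3
    rw [g5]; push_cast
    linear_combination q * h3

lemma Mem.add (h : Mem e s u) (h' : Mem e t v) : Mem e (add c s t) (u + v) := by
  simp only [TM.add, mkT_eq, fN_eq, fZ_eq, frc_eq]
  generalize min s.n t.n = n
  generalize min s.m1 t.m1 = m1
  generalize min s.m2 t.m2 = m2
  generalize min s.l t.l = l
  generalize Nat.lcm s.dn t.dn = dn
  generalize min (s.J + ((s.n - n) / c.g).toNat) (t.J + ((t.n - n) / c.g).toNat) = J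
  intro g
  simp only [Bool.and_eq_true] at g
  obtain ⟨h0, w, θ, h1, h2, h3⟩ := h.al n m1 m2 l dn J g.1
  obtain ⟨-, w', θ', h1', h2', h3'⟩ := h'.al n m1 m2 l dn J g.2
  have e1 : ∀ t, (TM.al c n m1 m2 l dn J t).J = J ∧ (TM.al c n m1 m2 l dn J t).dn = dn ∧
      (TM.al c n m1 m2 l dn J t).n = n ∧ (TM.al c n m1 m2 l dn J t).m1 = m1 ∧
      (TM.al c n m1 m2 l dn J t).m2 = m2 ∧ (TM.al c n m1 m2 l dn J t).l = l := fun t => by
    simp only [TM.al, mkT_eq, fN_eq, and_self]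
  simp only [e1] at h0 h1 h2 h3 h1' h2' h3'
  refine ⟨h0, w + w', θ + θ', ?_, ?_, by simp only; linear_combination h3 + h3'⟩
  · simpa using (h1.weak (Int.ModEq.refl _) le_rfl (le_max_left _ _) (le_max_left _ _) le_rfl).add
      (h1'.weak (Int.ModEq.refl _) le_rfl (le_max_right _ _) (le_max_right _ _) le_rfl)
  · have := abs_add_le θ θ'
    simp only; push_cast; linarith

lemma Mem.nrm (h : Mem e t v) (j : ℕ) : Mem e (nrm c j t) v := by
  simp only [TM.nrm, mkT_eq]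
  intro g
  simp only [Bool.and_eq_true, decide_eq_true_eq, Nat.beq_eq] at g
  obtain ⟨⟨⟨g0, g1⟩, g2⟩, g3⟩ := g
  obtain ⟨h0, w, θ, h1, h2, h3⟩ := h g0
  obtain ⟨w', h4, rfl⟩ := h1.nrm (N' := (Nat.shiftRight t.N (c.b3 * j) : ℕ)) g1 (Cfg.fit_ok g2) (by
    rw [msk_eq] at g3
    rw [shr_eq, ← pow_mul]
    exact_mod_cast (Nat.mul_div_cancel' (Nat.dvd_of_mod_eq_zero g3)).symm)
  have hz := pow_pos e.zp j
  refine ⟨h0, w', θ / e.z ^ j, by simpa using h4, ?_, ?_⟩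
  · rw [abs_div, abs_of_pos hz, div_le_iff₀ hz, mul_assoc, ← pow_add, Nat.sub_add_cancel g1]
    exact h2
  · have := e.ld_add t.n t.m1 t.m2 t.l (c.g * j) (c.g * (0 : ℕ)) (c.g * (0 : ℕ)) (0 : ℕ)
    rw [e.ld_nat] at this
    simp only [Nat.cast_zero, mul_zero, add_zero, pow_zero, mul_one] at this
    simp only
    rw [this, h3]; field_simp

lemma Mem.bnd (h : Mem e t v) (g : t.ok = true) :
    0 < t.dn ∧ |v| * t.dn ≤ e.ld t.n t.m1 t.m2 t.l * (t.M + sc c t.K t.J) := by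
  obtain ⟨h0, w, θ, h1, h2, h3⟩ := h g
  have b1 := h1.abs_le e.xp.le e.xl e.yp.le e.yl e.zp.le e.zle
  have b2 := h2.trans (sc_le e _ _)
  have b3 := abs_add_le w θ
  refine ⟨h0, ?_⟩
  rw [← abs_of_nonneg (Nat.cast_nonneg t.dn : (0 : ℝ) ≤ _), ← abs_mul, h3, abs_mul,
    abs_of_pos (e.ldp _ _ _ _)]
  exact mul_le_mul_of_nonneg_left (by linarith) (e.ldp _ _ _ _).le

lemma Mem.res {w : ℝ} (h : Mem e s u) (h' : Mem e t v) {n m1 m2 l : ℤ} {a b : ℕ}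
    (hw : |w - u| * (a * e.ld n m1 m2 l) ≤ b * |v|) : Mem e (res c s t n m1 m2 l a b) w := by
  simp only [TM.res, mkT_eq, fN_eq, frc_eq]
  have h'' := h'.nrm t.J
  generalize TM.nrm c t.J t = r at *
  have hJ := min_le_left s.J ((r.n - n - s.n).toNat / c.g)
  generalize min s.J ((r.n - n - s.n).toNat / c.g) = J at *
  intro g
  simp only [Bool.and_eq_true, decide_eq_true_eq] at g
  obtain ⟨⟨⟨⟨⟨g0, g1⟩, g2⟩, g3⟩, g4⟩, g5⟩ := g
  obtain ⟨h0, w', θ, h1, h2, h3⟩ := h g0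
  obtain ⟨r0, r1⟩ := h''.bnd g1
  have p1 := e.ldp s.n s.m1 s.m2 s.l
  have p2 := e.ldp n m1 m2 l
  have p3 : (0 : ℝ) < s.dn := by exact_mod_cast h0
  have p4 : (0 : ℝ) < r.dn := by exact_mod_cast r0
  have p5 : (0 : ℝ) < a := by exact_mod_cast g5
  refine ⟨h0, w', θ + (w - u) * s.dn / e.ld s.n s.m1 s.m2 s.l,
    h1.weak (Int.ModEq.refl _) le_rfl le_rfl le_rfl hJ, ?_,
    by simp only; field_simp; linear_combination h3⟩
  have b1 := h2.trans (sc_le' e _ hJ)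
  have b2 := e.ld_le (n := r.n - n - s.n) (m1 := r.m1 - m1 - s.m1) (m2 := r.m2 - m2 - s.m2)
    (r.l - l - s.l) (j := J) (by omega) (by omega) (by omega)
  have b3 : e.ld r.n r.m1 r.m2 r.l = e.ld (r.n - n - s.n) (r.m1 - m1 - s.m1) (r.m2 - m2 - s.m2)
      (r.l - l - s.l) * e.ld n m1 m2 l * e.ld s.n s.m1 s.m2 s.l := by
    rw [← e.ld_add, ← e.ld_add]; congr 1 <;> ring
  have b4 := mul_le_mul_of_nonneg_right (cdv_le ((r.M + sc c r.K r.J) * b * s.dn *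
    2 ^ (r.l - l - s.l).natAbs) (Nat.mul_pos g5 r0)) (pow_pos e.zp J).le
  have b5 : |(w - u) * s.dn / e.ld s.n s.m1 s.m2 s.l| ≤ ((r.M + sc c r.K r.J) * b * s.dn *
      2 ^ (r.l - l - s.l).natAbs : ℕ) / (a * r.dn : ℕ) * e.z ^ J := by
    rw [abs_div, abs_mul, abs_of_pos p1, abs_of_pos p3]
    push_cast
    rw [div_mul_eq_mul_div, div_le_div_iff₀ p1 (by positivity)]
    refine le_of_mul_le_mul_right ?_ p2
    rw [b3] at r1
    calc _ = |w - u| * (a * e.ld n m1 m2 l) * (s.dn * r.dn) := by ring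
      _ ≤ b * |v| * (s.dn * r.dn) := by gcongr
      _ = b * s.dn * (|v| * r.dn) := by ring
      _ ≤ b * s.dn * (e.z ^ J * 2 ^ (r.l - l - s.l).natAbs * e.ld n m1 m2 l *
          e.ld s.n s.m1 s.m2 s.l * (r.M + sc c r.K r.J)) := by
        refine mul_le_mul_of_nonneg_left (r1.trans ?_) (by positivity)
        gcongr
      _ = _ := by ring
  have b6 := abs_add_le θ ((w - u) * s.dn / e.ld s.n s.m1 s.m2 s.l)
  simp only
  rw [Nat.cast_add, add_mul]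
  linarith

lemma Mem.sml (h : Mem e t v) {a : ℕ} (g : sml c a t = true) : a * |v| ≤ 1 := by
  simp only [TM.sml, Bool.and_eq_true, decide_eq_true_eq] at g
  generalize t.n.toNat / c.g = j at g
  obtain ⟨⟨⟨⟨g0, g1⟩, g2⟩, g3⟩, g4⟩ := g
  obtain ⟨h0, h1⟩ := h.bnd g0
  have b1 := e.ld_le t.l g1 g2 g3
  have p3 : (0 : ℝ) < t.dn := by exact_mod_cast h0
  have b2 : (a * (t.M + sc c t.K t.J) * 2 ^ t.l.natAbs : ℝ) ≤ t.dn * c.E0 ^ j := by
    exact_mod_cast g4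
  have b3 : (c.E0 : ℝ) ^ j * e.z ^ j ≤ 1 := by
    rw [← mul_pow]; exact pow_le_one₀ (mul_nonneg (Nat.cast_nonneg _) e.zp.le) e.zE
  have hz := e.zp
  refine le_of_mul_le_mul_right ?_ p3
  calc _ = a * (|v| * t.dn) := by ring
    _ ≤ a * (e.z ^ j * 2 ^ t.l.natAbs * (t.M + sc c t.K t.J)) :=
        mul_le_mul_of_nonneg_left (h1.trans (by gcongr)) (by positivity)
    _ = a * (t.M + sc c t.K t.J) * 2 ^ t.l.natAbs * e.z ^ j := by ring
    _ ≤ t.dn * c.E0 ^ j * e.z ^ j := by gcongr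
    _ = t.dn * (c.E0 ^ j * e.z ^ j) := by ring
    _ ≤ t.dn * 1 := by gcongr
    _ = _ := by ring

inductive Ins
  | A (i j : ℕ)
  | M (i j : ℕ)
  | C (a : ℤ) (i : ℕ)
  | K (a : ℤ)
  | N (j i : ℕ)

def gt (L : List T) : ℕ → T :=
  List.rec (fun _ => bad) (fun t _ ih n => Nat.rec t (fun m _ => ih m) n) L

lemma gt_eq : ∀ (L : List T) (n : ℕ), gt L n = L.getD n bad
  | [], _ => rfl
  | _ :: _, 0 => rfl
  | _ :: L, n + 1 => gt_eq L n

def stepT (c : Cfg) (r : List T) : Ins → T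
  | .A i j => frc (gt r i) fun s => frc (gt r j) fun t => add c s t
  | .M i j => frc (gt r i) fun s => frc (gt r j) fun t => mul c s t
  | .C a i => frc (gt r i) fun s => smul c a s
  | .K a => cst c a
  | .N j i => frc (gt r i) fun s => nrm c j s

def stepZ (r : List ℤ) : Ins → ℤ
  | .A i j => r.getD i 0 + r.getD j 0
  | .M i j => r.getD i 0 * r.getD j 0
  | .C a i => a * r.getD i 0
  | .K a => a
  | .N _ i => r.getD i 0

def runT {α : Type} (c : Cfg) (k : List T → α) : List Ins → List T → α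
  | [], r => k r
  | a :: p, r => frc (stepT c r a) fun t => runT c k p (t :: r)

def runZ : List Ins → List ℤ → List ℤ
  | [], r => r
  | a :: p, r => runZ p (stepZ r a :: r)

lemma runT_eq {α : Type} (k : List T → α) : ∀ p r, runT c k p r = k (runT c id p r)
  | [], _ => rfl
  | a :: p, r => by simp only [runT, frc_eq]; exact runT_eq k p _

def Mems (e : Env c) (r : List T) (z : List ℤ) : Prop :=
  ∀ i, Mem e (r.getD i bad) (z.getD i 0 : ℤ)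

lemma Mems.nil : Mems e [] [] := fun _ => by simpa using Mem.bad _

lemma Mems.cons {r : List T} {z : List ℤ} {a : ℤ} (h : Mem e t a) (h' : Mems e r z) :
    Mems e (t :: r) (a :: z)
  | 0 => by simpa using h
  | i + 1 => by simpa using h' i

lemma Mems.run : ∀ (p : List Ins) {r : List T} {z : List ℤ}, Mems e r z →
    Mems e (runT c id p r) (runZ p z)
  | [], _, _, h => h
  | a :: p, r, z, h => by
    simp only [runT, runZ, frc_eq]
    refine Mems.run p (Mems.cons ?_ h)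
    cases a <;> simp only [stepT, stepZ, frc_eq, gt_eq]
    · push_cast; exact (h _).add (h _)
    · push_cast; exact (h _).mul (h _)
    · push_cast; exact (h _).smul _
    · exact Mem.cst _
    · exact (h _).nrm _

end Pool.Agent.Lib.MP_b2ee0b_nt.TM
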