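import Pool.Agent.Lib.MP_b2ee0b_nt.TMc

/-! Substitution of rational functions into one block of a packed series. -/

set_option autoImplicit false

namespace Pool.Agent.Lib.MP_b2ee0b_nt.TM

open Finset

def fL {α : Type} : List ℕ → (List ℕ → α) → α
  | [], k => k []
  | a :: l, k => fN a fun a => fL l fun l => k (a :: l)

lemma fL_eq {α : Type} : ∀ (l : List ℕ) (k : List ℕ → α), fL l k = k l
  | [], _ => rfl
  | a :: l, k => by simp only [fL, fN_eq, fL_eq l]

def pw (b d : ℕ) : ℕ → List ℕ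
  | 0 => [1]
  | f + 1 =>
    match pw b d f with
    | [] => []
    | p :: ps => fN (msk b (d * p)) fun q => q :: p :: ps

def tb (b n : ℕ) : List ℕ → ℕ → List ℕ
  | [], _ => []
  | p :: ps, a => fN (msk b (a * p)) fun t => fN (msk b (a * n)) fun a' => t :: tb b n ps a'

def tab (b n d I : ℕ) : List ℕ := tb b n (pw b d I) 1

def rowS (sg : Bool) (kb mask h w D : ℕ) (L : List ℕ) : ℕ → ℕ → ℕ :=
  List.rec (fun _ _ => 0) (fun t _ ih X wt =>
    cond (Nat.blt wt D)
      (fN (cond sg (Nat.sub (Nat.land X mask) h) (Nat.sub h (Nat.land X mask))) fun a =>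
        fN (Nat.shiftRight X kb) fun X' => fN (Nat.add wt w) fun wt' =>
        cond (Nat.beq a 0) (ih X' wt') (Nat.add (Nat.mul a t) (ih X' wt'))) 0) L

structure B3 where
  N : ℕ
  M : ℕ
  ok : Bool

def blk (b kb b2 mask h H1 H1r H2r sh n1 w1 w2 D : ℕ) (L1 O1 L2 : List ℕ) : ℕ → ℕ → B3 :=
  List.rec (fun X wt => ⟨0, 0, Nat.ble D wt || Nat.beq X H2r⟩) (fun t _ ih X wt =>
    cond (Nat.blt wt D)
      (fN (msk b2 X) fun xr => fN (Nat.shiftRight X b2) fun X' => fN (Nat.add wt w2) fun wt' =>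
        cond (Nat.beq xr H1) (ih X' wt')
          (match ih X' wt' with
          | ⟨N, M, o⟩ =>
            fN (smN b (Int.subNatNat (rowS true kb mask h w1 D L1 xr wt)
              (rowS false kb mask h w1 D L1 xr wt)) t + N) fun N =>
            fN (rowS true kb mask h w1 D O1 xr wt + rowS false kb mask h w1 D O1 xr wt + M) fun M =>
            fB (o && (Nat.ble D (wt + w1 * n1) || Nat.beq (Nat.shiftRight xr sh) H1r)) fun o =>
            ⟨N, M, o⟩)) ⟨0, 0, true⟩) L2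

def salt (X : ℕ) : ℕ := Nat.add (Nat.shiftLeft X 64) (Nat.mod X 18446744073709551557)

def rowP (sg : Bool) (kb mask h w D Y : ℕ) (L : List ℕ) : ℕ → ℕ → ℕ :=
  List.rec (fun _ _ => 0) (fun t _ ih p wt =>
    cond (Nat.blt wt D)
      (fN (cond sg (Nat.sub (Nat.land (Nat.shiftRight Y p) mask) h)
        (Nat.sub h (Nat.land (Nat.shiftRight Y p) mask))) fun a =>
        fN (Nat.add p kb) fun p' => fN (Nat.add wt w) fun wt' =>
        cond (Nat.beq a 0) (ih p' wt') (Nat.add (Nat.mul a t) (ih p' wt'))) 0) L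

def blkP (b kb b2 mask h H1 H1r H2r sh n1 w1 w2 D X : ℕ) (L1 O1 L2 : List ℕ) : ℕ → ℕ → B3 :=
  List.rec (fun p wt => ⟨0, 0, Nat.ble D wt || Nat.beq (Nat.shiftRight X p) H2r⟩) (fun t _ ih p wt =>
    cond (Nat.blt wt D)
      (fN (salt (msk b2 (Nat.shiftRight X p))) fun Y => fN (Nat.add p b2) fun p' =>
        fN (Nat.add wt w2) fun wt' => cond (Nat.beq (Nat.shiftRight Y 64) H1) (ih p' wt')
          (match ih p' wt' with
          | ⟨N, M, o⟩ =>
            fN (smN b (Int.subNatNat (rowP true kb mask h w1 D Y L1 64 wt)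
              (rowP false kb mask h w1 D Y L1 64 wt)) t + N) fun N =>
            fN (rowP true kb mask h w1 D Y O1 64 wt + rowP false kb mask h w1 D Y O1 64 wt + M)
            fun M => fB (o && (Nat.ble D (wt + w1 * n1) ||
              Nat.beq (Nat.shiftRight (Nat.shiftRight Y 64) sh) H1r)) fun o =>
            ⟨N, M, o⟩)) ⟨0, 0, true⟩) L2

lemma salt_shr (X : ℕ) : Nat.shiftRight (salt X) 64 = X := by
  have := Nat.mod_lt X (show 0 < 18446744073709551557 by norm_num)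
  change Nat.shiftRight (Nat.shiftLeft X 64 + X % 18446744073709551557) 64 = X
  rw [shr_eq, shl_eq]
  omega

lemma shr_add (Y p k : ℕ) : Nat.shiftRight Y (Nat.add p k) = Nat.shiftRight (Nat.shiftRight Y p) k :=
  Nat.shiftRight_add Y p k

lemma rowP_eq (sg : Bool) (kb mask h w D Y : ℕ) : ∀ (L : List ℕ) (p wt : ℕ),
    rowP sg kb mask h w D Y L p wt = rowS sg kb mask h w D L (Nat.shiftRight Y p) wt
  | [], _, _ => rfl
  | t :: L, p, wt => by
    have ih := rowP_eq sg kb mask h w D Y L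
    unfold rowP rowS at *
    simp only [fN_eq] at ih ⊢
    rw [ih, shr_add]

lemma blkP_eq (b kb b2 mask h H1 H1r H2r sh n1 w1 w2 D X : ℕ) (L1 O1 : List ℕ) :
    ∀ (L2 : List ℕ) (p wt : ℕ), blkP b kb b2 mask h H1 H1r H2r sh n1 w1 w2 D X L1 O1 L2 p wt =
      blk b kb b2 mask h H1 H1r H2r sh n1 w1 w2 D L1 O1 L2 (Nat.shiftRight X p) wt
  | [], _, _ => rfl
  | t :: L, p, wt => by
    have ih := blkP_eq b kb b2 mask h H1 H1r H2r sh n1 w1 w2 D X L1 O1 L
    unfold blkP blk at *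
    simp only [fN_eq, rowP_eq, salt_shr] at ih ⊢
    rw [ih, shr_add]

/-- one block of `X`, evaluated on the two tables -/
def hom (c : Cfg) (b w0 w1 w2 D : ℕ) (L1 O1 L2 : List ℕ) (j X : ℕ) : B3 :=
  fN c.kb fun kb => fN c.b2 fun b2 => fN (Nat.shiftLeft 1 kb - 1) fun mask => fN c.h fun h =>
  fN c.H1 fun H1 => fN L1.length fun n1 => fN (kb * n1) fun sh =>
  fN (Nat.shiftRight H1 sh) fun H1r => fN (Nat.shiftRight c.H2 (b2 * L2.length)) fun H2r =>
  fN (salt (dgt c.b3 j X)) fun Y => fN (w0 * j) fun wt =>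
  match blkP b kb b2 mask h H1 H1r H2r sh n1 w1 w2 D Y L1 O1 L2 64 wt with
  | ⟨N, M, o⟩ => ⟨N, M, o && decide (n1 ≤ c.W1) && decide (L2.length ≤ c.W2) && decide (1 ≤ kb)⟩

noncomputable def rS (c : Cfg) (w1 D : ℕ) (x : ℝ) (X wt : ℕ) : ℝ :=
  ∑ i ∈ range c.W1, ((dgt c.kb i X : ℝ) - c.h) * if wt + w1 * i < D then x ^ i else 0

noncomputable def bS (c : Cfg) (w1 w2 D : ℕ) (x y : ℝ) (X wt : ℕ) : ℝ :=
  ∑ k ∈ range c.W2, rS c w1 D x (dgt c.b2 k X) (wt + w2 * k) * y ^ k

variable {c c' : Cfg} {x y z : ℝ} {J : ℕ}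

lemma Core.msk {N : ℕ} {M v : ℝ} {d1 d2 : ℕ} (h : Core c x y z N M d1 d2 J v) :
    Core c x y z (msk (c.b3 * J) N : ℕ) M d1 d2 J v :=
  h.weak (msk_mod _ _ _) le_rfl le_rfl le_rfl le_rfl

lemma pw_core {d e1 e2 : ℕ} {M dv : ℝ} (h : Core c x y z d M e1 e2 J dv) : ∀ f,
    (pw (c.b3 * J) d f).length = f + 1 ∧ ∀ m ≤ f, Core c x y z ((pw (c.b3 * J) d f).getD m 0 : ℕ)
      (M ^ (f - m)) (e1 * (f - m)) (e2 * (f - m)) J (dv ^ (f - m))
  | 0 => ⟨rfl, fun m hm => by
      obtain rfl : m = 0 := by omega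
      simpa [pw] using Core.cst (c := c) (x := x) (y := y) (z := z) (J := J) 1⟩
  | f + 1 => by
    obtain ⟨h1, h2⟩ := pw_core h f
    unfold pw
    cases hp : pw (c.b3 * J) d f with
    | nil => simp [hp] at h1
    | cons p ps =>
      rw [hp] at h1 h2
      simp only [fN_eq]
      refine ⟨by simpa using h1, fun m hm => ?_⟩
      cases m with
      | zero =>
        have := h.mul (h2 0 (by omega))
        simp only [List.getD_cons_zero, Nat.sub_zero] at this ⊢
        rw [pow_succ', pow_succ', Nat.mul_succ, Nat.mul_succ, add_comm _ e1, add_comm _ e2]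
        exact Core.msk (by simpa using this)
      | succ m => simpa using h2 m (by omega)

lemma tb_core {n e1 e2 : ℕ} {M nv dv : ℝ} (h : Core c x y z n M e1 e2 J nv) :
    ∀ (ps : List ℕ) (f a i : ℕ), ps.length = f + 1 →
    (∀ m ≤ f, Core c x y z (ps.getD m 0 : ℕ) (M ^ (f - m)) (e1 * (f - m)) (e2 * (f - m)) J
      (dv ^ (f - m))) → Core c x y z a (M ^ i) (e1 * i) (e2 * i) J (nv ^ i) →
    (tb (c.b3 * J) n ps a).length = f + 1 ∧ ∀ m ≤ f, Core c x y z
      ((tb (c.b3 * J) n ps a).getD m 0 : ℕ) (M ^ (i + f)) (e1 * (i + f)) (e2 * (i + f)) J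
      (nv ^ (i + m) * dv ^ (f - m))
  | [], f, a, i, h1, _, _ => by simp at h1
  | p :: ps, f, a, i, h1, h2, h3 => by
    simp only [tb, fN_eq]
    have g0 : Core c x y z (msk (c.b3 * J) (a * p) : ℕ) (M ^ (i + f)) (e1 * (i + f)) (e2 * (i + f))
        J (nv ^ (i + 0) * dv ^ (f - 0)) := by
      have := h3.mul (h2 0 (by omega))
      rw [pow_add, mul_add, mul_add]
      exact Core.msk (by simpa using this)
    cases f with
    | zero =>
      obtain rfl : ps = [] := by simpa using h1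
      refine ⟨rfl, fun m hm => ?_⟩
      obtain rfl : m = 0 := by omega
      exact g0
    | succ f =>
      obtain ⟨g1, g2⟩ := tb_core h ps f (msk (c.b3 * J) (a * n)) (i + 1) (by simpa using h1)
        (fun m hm => by simpa using h2 (m + 1) (by omega))
        (by rw [pow_succ, pow_succ, Nat.mul_succ, Nat.mul_succ]
            exact Core.msk (by simpa using h3.mul h))
      refine ⟨by simpa using g1, fun m hm => ?_⟩
      cases m with
      | zero => exact g0
      | succ m =>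
        have := g2 m (by omega)
        rw [show i + 1 + f = i + (f + 1) by ring, show i + 1 + m = i + (m + 1) by ring] at this
        simpa using this

lemma tab_core {n d e1 e2 : ℕ} {M nv dv : ℝ} (h : Core c x y z n M e1 e2 J nv)
    (h' : Core c x y z d M e1 e2 J dv) (I : ℕ) :
    (tab (c.b3 * J) n d I).length = I + 1 ∧ ∀ m < I + 1, Core c x y z
      ((tab (c.b3 * J) n d I).getD m 0 : ℕ) (M ^ I) (e1 * I) (e2 * I) J (nv ^ m * dv ^ (I - m)) := by
  obtain ⟨g1, g2⟩ := pw_core h' I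
  obtain ⟨g3, g4⟩ := tb_core h _ I 1 0 g1 g2
    (by simpa using Core.cst (c := c) (x := x) (y := y) (z := z) (J := J) 1)
  exact ⟨g3, fun m hm => by simpa [tab] using g4 m (by omega)⟩

lemma dgt_zero (b X : ℕ) : dgt b 0 X = msk b X := by simp [dgt_eq, msk_eq]
lemma dgt_succ (b i X : ℕ) : dgt b (i + 1) X = dgt b i (Nat.shiftRight X b) := by
  rw [dgt_eq, dgt_eq, shr_eq, Nat.div_div_eq_div_mul, pow_succ']
lemma dgt_tail {b n X Y : ℕ} (h : Nat.shiftRight X (b * n) = Nat.shiftRight Y (b * n)) {k : ℕ}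
    (hk : n ≤ k) : dgt b k X = dgt b k Y := by
  obtain ⟨m, rfl⟩ := Nat.exists_eq_add_of_le hk
  rw [shr_eq, shr_eq, pow_mul] at h
  rw [dgt_eq, dgt_eq, pow_add, ← Nat.div_div_eq_div_mul, ← Nat.div_div_eq_div_mul, h]

lemma blt_t {a b : ℕ} (h : a < b) : Nat.blt a b = true := by simpa using h
lemma blt_f {a b : ℕ} (h : ¬ a < b) : Nat.blt a b = false := by
  rw [Bool.eq_false_iff]; simpa using h

def prt (sg : Bool) (h d : ℕ) : ℕ := cond sg (d - h) (h - d)

lemma rowS_cons (sg : Bool) (kb h w D t : ℕ) (L : List ℕ) (X wt : ℕ) :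
    rowS sg kb (Nat.shiftLeft 1 kb - 1) h w D (t :: L) X wt = if wt < D then
      prt sg h (dgt kb 0 X) * t +
        rowS sg kb (Nat.shiftLeft 1 kb - 1) h w D L (Nat.shiftRight X kb) (wt + w) else 0 := by
  rw [dgt_zero]
  change cond (Nat.blt wt D) (fN (prt sg h (msk kb X)) _) 0 = _
  by_cases g : wt < D
  · rw [if_pos g, blt_t g, cond_true, fN_eq, fN_eq, fN_eq]
    cases g2 : Nat.beq (prt sg h (msk kb X)) 0
    · rfl
    · rw [Nat.eq_of_beq_eq_true g2, zero_mul, zero_add]; rfl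
  · rw [if_neg g, blt_f g, cond_false]

lemma row_core (sg : Bool) (kb h w D : ℕ) {M : ℝ} {e1 e2 : ℕ} : ∀ (L : List ℕ) (v : ℕ → ℝ)
    (X wt : ℕ), (∀ m < L.length, Core c x y z (L.getD m 0 : ℕ) M e1 e2 J (v m)) →
    Core c x y z (rowS sg kb (Nat.shiftLeft 1 kb - 1) h w D L X wt : ℕ)
      ((rowS sg kb (Nat.shiftLeft 1 kb - 1) h w D (L.map fun _ => 1) X wt : ℕ) * M) e1 e2 J
      (∑ m ∈ range L.length, (prt sg h (dgt kb m X) : ℝ) * if wt + w * m < D then v m else 0)
  | [], v, X, wt, _ => by simpa [rowS] using Core.zero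
  | t :: L, v, X, wt, hL => by
    rw [List.map_cons, rowS_cons, rowS_cons]
    split_ifs with g
    · have g1 := (hL 0 (by simp)).smul (prt sg h (dgt kb 0 X) : ℕ)
      have g2 := row_core sg kb h w D L (fun m => v (m + 1)) (Nat.shiftRight X kb) (wt + w)
        fun m hm => by simpa using hL (m + 1) (by simpa using hm)
      have g3 := g1.add g2
      rw [List.length_cons, sum_range_succ', add_comm _ (_ * ite _ _ _)]
      simp only [dgt_succ, mul_zero, add_zero, if_pos g, mul_add, mul_one, ← add_assoc,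
        add_right_comm wt _ w]
      simpa [add_mul] using g3
    · rw [sum_eq_zero fun m _ => by rw [if_neg (by omega), mul_zero]]
      simpa using Core.zero

lemma dgt_H1 (hk : 1 ≤ c.kb) {i : ℕ} (hi : i < c.W1) : dgt c.kb i c.H1 = c.h := by
  have e := Cfg.h_eq hk
  have : (0 : ℤ) < 2 ^ c.kb := by positivity
  have := dgt_sum c.kb c.W1 (fun _ => c.h) c.H1 (fun _ _ => by omega)
    (by unfold Cfg.H1; rw [rp_eq _ _ _ hk]; push_cast; rfl) i hi
  exact_mod_cast this

lemma dgt_H2 (hk : 1 ≤ c.kb) (h1 : 1 ≤ c.W1) {k : ℕ} (hi : k < c.W2) :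
    dgt c.b2 k c.H2 = c.H1 := by
  have e := Cfg.h_eq hk
  have : (0 : ℤ) < 2 ^ c.kb := by positivity
  have g := dig_lt (P := 2 ^ c.kb) (fun _ => c.h) c.W1 fun _ _ => by omega
  have g1 : (c.H1 : ℤ) = ∑ i ∈ range c.W1, (c.h : ℤ) * (2 ^ c.kb) ^ i := by
    unfold Cfg.H1; rw [rp_eq _ _ _ hk]; push_cast; rfl
  rw [← g1, ← pow_mul] at g
  have := dgt_sum c.b2 c.W2 (fun _ => c.H1) c.H2 (fun _ _ => g)
    (by unfold Cfg.H2; rw [rp_eq _ c.b2 _ (Nat.mul_pos hk h1)]; push_cast; rfl) k hi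
  exact_mod_cast this

lemma rS_H1 (hk : 1 ≤ c.kb) (w1 D : ℕ) (x : ℝ) (wt : ℕ) : rS c w1 D x c.H1 wt = 0 :=
  sum_eq_zero fun i hi => by rw [dgt_H1 hk (mem_range.1 hi), sub_self, zero_mul]

lemma rS_big {w1 D wt : ℕ} (h : D ≤ wt) (x : ℝ) (X : ℕ) : rS c w1 D x X wt = 0 :=
  sum_eq_zero fun i _ => by rw [if_neg (by omega), mul_zero]

lemma row_val (hk : 1 ≤ c.kb) {w1 D : ℕ} {M u A : ℝ} {e1 e2 : ℕ} {L : List ℕ}
    (hL : ∀ m < L.length, Core c' x y z (L.getD m 0 : ℕ) M e1 e2 J (u ^ m * A))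
    (hW : L.length ≤ c.W1) (X wt : ℕ) (ho : D ≤ wt + w1 * L.length ∨
      Nat.shiftRight X (c.kb * L.length) = Nat.shiftRight c.H1 (c.kb * L.length)) :
    Core c' x y z (Int.subNatNat (rowS true c.kb (Nat.shiftLeft 1 c.kb - 1) c.h w1 D L X wt)
      (rowS false c.kb (Nat.shiftLeft 1 c.kb - 1) c.h w1 D L X wt))
      ((rowS true c.kb (Nat.shiftLeft 1 c.kb - 1) c.h w1 D (L.map fun _ => 1) X wt +
      rowS false c.kb (Nat.shiftLeft 1 c.kb - 1) c.h w1 D (L.map fun _ => 1) X wt : ℕ) * M)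
      e1 e2 J (rS c w1 D u X wt * A) := by
  have := (row_core true c.kb c.h w1 D L _ X wt hL).sub (row_core false c.kb c.h w1 D L _ X wt hL)
  rw [Int.subNatNat_eq_coe, Nat.cast_add, add_mul]
  convert this using 1
  rw [rS, ← sum_sub_distrib, sum_mul]
  symm
  refine (sum_congr rfl fun m _ => ?_).trans (sum_subset (range_subset_range.2 hW) fun m h1 h2 => ?_)
  · have : (prt true c.h (dgt c.kb m X) : ℝ) - prt false c.h (dgt c.kb m X) =
        (dgt c.kb m X : ℝ) - c.h := by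
      have : (prt true c.h (dgt c.kb m X) : ℤ) - prt false c.h (dgt c.kb m X) =
        (dgt c.kb m X : ℤ) - c.h := by simp only [prt, cond_true, cond_false]; omega
      exact_mod_cast this
    rw [← sub_mul, this]
    split_ifs <;> ring
  · have h3 : L.length ≤ m := by simpa using h2
    rcases ho with g | g
    · have := Nat.mul_le_mul_left w1 h3
      rw [if_neg (by omega)]; ring
    · rw [dgt_tail g h3, dgt_H1 hk (mem_range.1 h1)]; ring

lemma blk_cons (b kb b2 mask h H1 H1r H2r sh n1 w1 w2 D : ℕ) (L1 O1 : List ℕ) (t : ℕ) (L2 : List ℕ)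
    (X wt : ℕ) (r : B3) (hr : r = blk b kb b2 mask h H1 H1r H2r sh n1 w1 w2 D L1 O1 L2
      (Nat.shiftRight X b2) (wt + w2)) :
    blk b kb b2 mask h H1 H1r H2r sh n1 w1 w2 D L1 O1 (t :: L2) X wt =
    cond (Nat.blt wt D) (cond (Nat.beq (msk b2 X) H1) r
      ⟨smN b (Int.subNatNat (rowS true kb mask h w1 D L1 (msk b2 X) wt)
        (rowS false kb mask h w1 D L1 (msk b2 X) wt)) t + r.N,
      rowS true kb mask h w1 D O1 (msk b2 X) wt + rowS false kb mask h w1 D O1 (msk b2 X) wt + r.M,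
      r.ok && (Nat.ble D (wt + w1 * n1) || Nat.beq (Nat.shiftRight (msk b2 X) sh) H1r)⟩)
      ⟨0, 0, true⟩ := by
  subst hr
  change cond (Nat.blt wt D) (fN _ _) _ = _
  rw [fN_eq, fN_eq, fN_eq]
  congr 2
  change fN _ _ = _
  rw [fN_eq, fN_eq, fB_eq]
  rfl

lemma blk_core (hk : 1 ≤ c.kb) {w1 w2 D H2r : ℕ} {M M' u A : ℝ} {e1 e2 e1' e2' : ℕ} {L : List ℕ}
    (hL : ∀ m < L.length, Core c' x y z (L.getD m 0 : ℕ) M e1 e2 J (u ^ m * A))
    (hW : L.length ≤ c.W1) : ∀ (L2 : List ℕ) (v : ℕ → ℝ) (X wt : ℕ) (r : B3),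
    (∀ m < L2.length, Core c' x y z (L2.getD m 0 : ℕ) M' e1' e2' J (v m)) →
    r = blk (c'.b3 * J) c.kb c.b2 (Nat.shiftLeft 1 c.kb - 1) c.h c.H1
      (Nat.shiftRight c.H1 (c.kb * L.length)) H2r (c.kb * L.length) L.length w1 w2 D L
      (L.map fun _ => 1) L2 X wt → r.ok = true →
    Core c' x y z r.N (r.M * M * M') (e1 + e1') (e2 + e2') J
      (∑ k ∈ range L2.length, rS c w1 D u (dgt c.b2 k X) (wt + w2 * k) * A * v k) ∧
      (D ≤ wt + w2 * L2.length ∨ Nat.shiftRight X (c.b2 * L2.length) = H2r)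
  | [], v, X, wt, r, _, hr, ho => by
    subst hr
    refine ⟨by simpa [blk] using Core.zero, ?_⟩
    simpa [blk, shr_eq] using ho
  | t :: L2, v, X, wt, r, h2, hr, ho => by
    by_cases g : wt < D
    · have ih := blk_core (w1 := w1) (w2 := w2) (D := D) (H2r := H2r) hk hL hW L2
        (fun m => v (m + 1)) (Nat.shiftRight X c.b2) (wt + w2) _
        (fun m hm => by simpa using h2 (m + 1) (by simpa using hm)) rfl
      have e : ∀ n, Nat.shiftRight (Nat.shiftRight X c.b2) (c.b2 * n) =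
          Nat.shiftRight X (c.b2 * (n + 1)) := fun n => by
        rw [shr_eq, shr_eq, shr_eq, Nat.div_div_eq_div_mul, ← pow_add]; congr 2; ring
      rw [List.length_cons, sum_range_succ', ← e]
      simp only [dgt_succ, dgt_zero, mul_zero, add_zero, mul_add, mul_one, ← add_assoc,
        add_right_comm wt _ w2]
      rw [blk_cons (hr := rfl), blt_t g, cond_true] at hr
      generalize blk (c'.b3 * J) c.kb c.b2 (Nat.shiftLeft 1 c.kb - 1) c.h c.H1
        (Nat.shiftRight c.H1 (c.kb * L.length)) H2r (c.kb * L.length) L.length w1 w2 D L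
        (L.map fun _ => 1) L2 (Nat.shiftRight X c.b2) (wt + w2) = r' at hr ih
      cases g2 : Nat.beq (msk c.b2 X) c.H1
      · rw [g2, cond_false] at hr
        subst hr
        simp only [Bool.and_eq_true, Bool.or_eq_true, Nat.ble_eq, Nat.beq_eq] at ho
        obtain ⟨i1, i2⟩ := ih ho.1
        refine ⟨?_, i2⟩
        have := ((row_val hk hL hW _ wt ho.2).mul (h2 0 (by simp))).add i1
        rw [add_comm _ (_ * A * v 0)]
        refine this.weak ?_ (le_of_eq ?_) le_rfl le_rfl le_rfl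
        · push_cast
          exact (smN_mod _ _ _ _).add_right _
        · push_cast; ring
      · rw [g2, cond_true] at hr
        subst hr
        rw [Nat.eq_of_beq_eq_true g2, rS_H1 hk]
        simpa using ih ho
    · rw [blk_cons (hr := rfl), blt_f g, cond_false] at hr
      subst hr
      refine ⟨?_, Or.inl (by omega)⟩
      rw [sum_eq_zero fun k _ => by rw [rS_big (by omega), zero_mul, zero_mul]]
      simpa using Core.zero

theorem hom_core {w0 w1 w2 D n1 d1 n2 d2 e1 e2 e1' e2' I K j X : ℕ} {M M' u v dv dv' : ℝ}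
    (h1 : Core c' x y z n1 M e1 e2 J (u * dv)) (h2 : Core c' x y z d1 M e1 e2 J dv)
    (h3 : Core c' x y z n2 M' e1' e2' J (v * dv')) (h4 : Core c' x y z d2 M' e1' e2' J dv')
    {r : B3} (hr : r = hom c (c'.b3 * J) w0 w1 w2 D (tab (c'.b3 * J) n1 d1 I)
      ((tab (c'.b3 * J) n1 d1 I).map fun _ => 1) (tab (c'.b3 * J) n2 d2 K) j X) (ho : r.ok = true) :
    Core c' x y z r.N (r.M * M ^ I * M' ^ K) (e1 * I + e1' * K) (e2 * I + e2' * K) J
      (dv ^ I * dv' ^ K * bS c w1 w2 D u v (dgt c.b3 j X) (w0 * j)) := by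
  obtain ⟨a1, a2⟩ := tab_core h1 h2 I
  obtain ⟨a3, a4⟩ := tab_core h3 h4 K
  simp only [hom, fN_eq, blkP_eq, salt_shr] at hr
  subst hr
  simp only [Bool.and_eq_true, decide_eq_true_eq] at ho
  obtain ⟨⟨⟨o1, o2⟩, o3⟩, o4⟩ := ho
  obtain ⟨b1, b2⟩ := blk_core (u := u) (A := dv ^ I) o4 (fun m hm => by
    have := a2 m (a1 ▸ hm)
    rwa [mul_pow, mul_assoc, ← pow_add, Nat.add_sub_cancel' (by omega)] at this) o2 _ _ _ _ _
    (fun m hm => a4 m (a3 ▸ hm)) rfl o1
  convert b1 using 1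
  rw [bS, mul_sum]
  symm
  refine (sum_congr rfl fun m hm => ?_).trans (sum_subset (range_subset_range.2 o3) fun m h1 h2 => ?_)
  · have : m ≤ K := by have := mem_range.1 hm; omega
    rw [mul_pow, mul_assoc (v ^ m), ← pow_add, Nat.add_sub_cancel' this]; ring
  · have h3 : (tab (c'.b3 * J) n2 d2 K).length ≤ m := by simpa using h2
    rcases b2 with g | g
    · have := Nat.mul_le_mul_left w2 h3
      rw [rS_big (by omega)]; ring
    · rw [dgt_tail g h3, dgt_H2 o4 (by omega) (mem_range.1 h1), rS_H1 o4]; ring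

end Pool.Agent.Lib.MP_b2ee0b_nt.TM
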