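import Pool.Agent.Lib.MP_b2ee0b_nt.TMd

/-! Two sided bounds for the blocks of a series. -/

set_option autoImplicit false

namespace Pool.Agent.Lib.MP_b2ee0b_nt.TM

open Finset

abbrev PL := List (ℕ × ℕ × ℕ)
abbrev ML := List (ℤ × ℕ × ℕ)

def pk (c : Cfg) : PL → ℕ
  | [] => 0
  | t :: l => Nat.shiftLeft t.1 (c.kb * t.2.1 + c.b2 * t.2.2) + pk c l
def pv (x y : ℝ) : PL → ℝ
  | [] => 0
  | t :: l => t.1 * (x ^ t.2.1 * y ^ t.2.2) + pv x y l
def pn : PL → ℕ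
  | [] => 0
  | t :: l => t.1 + pn l
def pb (r M d1 d2 : ℕ) (l : PL) : Bool :=
  decide (pn l ≤ M) && l.all fun t => decide (r * t.2.1 ≤ d1) && decide (t.2.2 ≤ d2)
def ml (x y : ℝ) : ML → ℝ
  | [] => 0
  | t :: l => t.1 * (x ^ t.2.1 * y ^ t.2.2) + ml x y l
def mn : ML → ℕ
  | [] => 0
  | t :: l => t.1.natAbs + mn l
def mz (b A B p1 q1 p2 q2 : ℕ) : ML → ℕ
  | [] => 0
  | t :: l => smN b t.1 (Nat.pow p1 t.2.1 * Nat.pow q1 (A - t.2.1) *
      (Nat.pow p2 t.2.2 * Nat.pow q2 (B - t.2.2))) + mz b A B p1 q1 p2 q2 l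
def mo (A B : ℕ) (l : ML) : Bool := l.all fun t => decide (t.2.1 ≤ A) && decide (t.2.2 ≤ B)

structure PA where
  n1 : PL
  d1 : PL
  n2 : PL
  d2 : PL
  p1 : PL
  q1 : PL
  p2 : PL
  q2 : PL
  kd : PL
  kn : List PL
  os : List (PL × ℕ × ℕ × ℕ)
  M1 : ℕ
  u1 : ℕ
  v1 : ℕ
  M2 : ℕ
  u2 : ℕ
  v2 : ℕ
  M3 : ℕ
  u3 : ℕ
  v3 : ℕ
  M4 : ℕ
  u4 : ℕ
  v4 : ℕ
  M5 : ℕ
  u5 : ℕ
  v5 : ℕ

structure Bk where
  I : ℕ
  K : ℕ
  A : ℕ
  B : ℕ
  lo : ML
  hi : ML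

def osN (c : Cfg) : List (PL × ℕ × ℕ × ℕ) → ℕ
  | [] => 1
  | t :: l => Nat.pow (pk c t.1) t.2.2.2 * osN c l
def osV (x y : ℝ) : List (PL × ℕ × ℕ × ℕ) → ℝ
  | [] => 1
  | t :: l => pv x y t.1 ^ t.2.2.2 * osV x y l
def osG : List (PL × ℕ × ℕ × ℕ) → ℕ
  | [] => 0
  | t :: l => t.2.1 * t.2.2.2 + osG l
def osH : List (PL × ℕ × ℕ × ℕ) → ℕ
  | [] => 0
  | t :: l => t.2.2.1 * t.2.2.2 + osH l

def PA.ok (a : PA) (r : ℕ) : Bool :=
  pb r a.M1 a.u1 a.v1 a.n1 && pb r a.M1 a.u1 a.v1 a.d1 && pb r a.M2 a.u2 a.v2 a.n2 &&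
  pb r a.M2 a.u2 a.v2 a.d2 && pb r a.M3 a.u3 a.v3 a.p1 && pb r a.M3 a.u3 a.v3 a.q1 &&
  pb r a.M4 a.u4 a.v4 a.p2 && pb r a.M4 a.u4 a.v4 a.q2 && pb r a.M5 a.u5 a.v5 a.kd &&
  a.kn.all (pb r a.M5 a.u5 a.v5) && a.os.all fun t => pb r (a.M1 ^ t.2.1 * a.M2 ^ t.2.2.1)
    (a.u1 * t.2.1 + a.u2 * t.2.2.1) (a.v1 * t.2.1 + a.v2 * t.2.2.1) t.1

def numS (c' : Cfg) (b : ℕ) (f : ℕ → B3) : List PL → List ℕ → B3
  | k :: ks, X :: Xs =>
    match f X, numS c' b f ks Xs with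
    | ⟨N, M, o⟩, ⟨N', M', o'⟩ =>
      fN (msk b (pk c' k * N) + N') fun N => fN (M + M') fun M => fB (o && o') fun o => ⟨N, M, o⟩
  | _, _ => ⟨0, 0, true⟩

def sK : List ℝ → List ℕ → (ℕ → ℝ) → ℝ
  | k :: ks, X :: Xs, f => k * f X + sK ks Xs f
  | _, _, _ => 0

def posb (H N : ℕ) : Bool := Nat.beq (Nat.land (N + H) H) H

def blkA (c c' : Cfg) (a : PA) (w0 w1 w2 D cd : ℕ) (Xs : List ℕ) (j : ℕ) (k : Bk) : Bool :=
  fN (c'.b3 * 1) fun b => fN (pk c' a.d1) fun d1 => fN (pk c' a.d2) fun d2 =>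
  fL (tab b (pk c' a.n1) d1 k.I) fun L1 => fL (L1.map fun _ => 1) fun O1 =>
  fL (tab b (pk c' a.n2) d2 k.K) fun L2 =>
  match numS c' b (hom c b w0 w1 w2 D L1 O1 L2 j) a.kn Xs with
  | ⟨N, M, o⟩ =>
    fN (pk c' a.p1) fun p1 => fN (pk c' a.q1) fun q1 => fN (pk c' a.p2) fun p2 =>
    fN (pk c' a.q2) fun q2 =>
    fN (osN c' a.os * Nat.pow d1 (k.I - osG a.os) * Nat.pow d2 (k.K - osH a.os) * pk c' a.kd) fun Dn =>
    fN (msk b (N * (Nat.pow q1 k.A * Nat.pow q2 k.B))) fun P => fN (c'.H3 1) fun H =>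
    o && decide (osG a.os ≤ k.I) && decide (osH a.os ≤ k.K) && mo k.A k.B k.lo && mo k.A k.B k.hi &&
    c'.fit ((mn k.lo + mn k.hi + cd * M) * (a.M1 ^ k.I * a.M2 ^ k.K * a.M5 * (a.M3 ^ k.A * a.M4 ^ k.B)))
      (a.u1 * k.I + a.u2 * k.K + a.u5 + (a.u3 * k.A + a.u4 * k.B))
      (a.v1 * k.I + a.v2 * k.K + a.v5 + (a.v3 * k.A + a.v4 * k.B)) 1 &&
    posb H (mz b k.A k.B p1 q1 p2 q2 k.hi * Dn + smN b (-cd) P) &&
    posb H (cd * P + smN b (-1) (mz b k.A k.B p1 q1 p2 q2 k.lo * Dn))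

structure PA.Sem (a : PA) (x' y' x y b1 b2 Ω : ℝ) (κ : List ℝ) : Prop where
  x0 : 0 ≤ x'
  y0 : 0 ≤ y'
  d1 : 0 < pv x' y' a.d1
  d2 : 0 < pv x' y' a.d2
  q1 : 0 < pv x' y' a.q1
  q2 : 0 < pv x' y' a.q2
  kd : 0 < pv x' y' a.kd
  n1 : pv x' y' a.n1 = x * pv x' y' a.d1
  n2 : pv x' y' a.n2 = y * pv x' y' a.d2
  p1 : pv x' y' a.p1 = b1 * pv x' y' a.q1
  p2 : pv x' y' a.p2 = b2 * pv x' y' a.q2
  kn : List.Forall₂ (fun l k => pv x' y' l = k * pv x' y' a.kd) a.kn κ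
  os : osV x' y' a.os = Ω * (pv x' y' a.d1 ^ osG a.os * pv x' y' a.d2 ^ osH a.os)

variable {c c' : Cfg} {x y z : ℝ} {J : ℕ}

lemma pk_core {M d1 d2 : ℕ} {l : PL} (h : pb c.t1 M d1 d2 l = true) :
    Core c x y z (pk c l : ℕ) M d1 d2 J (pv x y l) := by
  simp only [pb, Bool.and_eq_true, decide_eq_true_eq, List.all_eq_true] at h
  refine Core.weak (M := pn l) ?_ (Int.ModEq.refl _) (by exact_mod_cast h.1) le_rfl le_rfl le_rfl
  have h2 := h.2
  clear h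
  induction l with
  | nil => simpa [pk, pn, pv] using Core.zero
  | cons t l ih =>
    have := ((Core.one (c := c) (x := x) (y := y) (z := z) (J := J) t.1 t.2.1 t.2.2).weak
      (Int.ModEq.refl _) le_rfl (h2 t (by simp)).1 (h2 t (by simp)).2 le_rfl).add
      (ih fun u hu => h2 u (by simp [hu]))
    simp only [pk, pn, pv, shl_eq]
    simpa using this

lemma mz_core {A B p1 q1 p2 q2 e1 e2 e1' e2' : ℕ} {M M' b1 b2 v v' : ℝ}
    (h1 : Core c x y z p1 M e1 e2 J (b1 * v)) (h2 : Core c x y z q1 M e1 e2 J v)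
    (h3 : Core c x y z p2 M' e1' e2' J (b2 * v')) (h4 : Core c x y z q2 M' e1' e2' J v') :
    ∀ l : ML, mo A B l = true → Core c x y z (mz (c.b3 * J) A B p1 q1 p2 q2 l : ℕ)
      (mn l * (M ^ A * M' ^ B)) (e1 * A + e1' * B) (e2 * A + e2' * B) J (ml b1 b2 l * (v ^ A * v' ^ B))
  | [], _ => by simpa [mz, mn, ml] using Core.zero
  | t :: l, h => by
    simp only [mo, List.all_cons, Bool.and_eq_true, decide_eq_true_eq] at h
    obtain ⟨i, rfl⟩ := Nat.exists_eq_add_of_le h.1.1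
    obtain ⟨k, rfl⟩ := Nat.exists_eq_add_of_le h.1.2
    have g := (((h1.pow t.2.1).mul (h2.pow i)).mul ((h3.pow t.2.2).mul (h4.pow k))).smul t.1
    have g2 := (g.weak (Int.ModEq.refl _) le_rfl (le_of_eq (by ring)) (le_of_eq (by ring))
      le_rfl).add (mz_core h1 h2 h3 h4 l h.2)
    simp only [mz, mn, ml, Nat.add_sub_cancel_left]
    convert g2.weak _ (le_of_eq _) le_rfl le_rfl le_rfl using 1
    · ring
    · push_cast
      exact ((smN_mod _ _ _ _).trans (by simp)).add_right _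
    · simp; ring

lemma os_core {a : PA} {v v' : ℝ} : ∀ l : List (PL × ℕ × ℕ × ℕ),
    (l.all fun t => pb c.t1 (a.M1 ^ t.2.1 * a.M2 ^ t.2.2.1)
    (a.u1 * t.2.1 + a.u2 * t.2.2.1) (a.v1 * t.2.1 + a.v2 * t.2.2.1) t.1) = true →
    Core c x y z (osN c l : ℕ) (a.M1 ^ osG l * a.M2 ^ osH l) (a.u1 * osG l + a.u2 * osH l)
      (a.v1 * osG l + a.v2 * osH l) J (osV x y l)
  | [], _ => by
    simpa [osN, osG, osH, osV] using Core.cst (c := c) (x := x) (y := y) (z := z) (J := J) 1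
  | t :: l, h => by
    simp only [List.all_cons, Bool.and_eq_true] at h
    have := ((pk_core (c := c) (x := x) (y := y) (z := z) (J := J) h.1).pow t.2.2.2).mul
      (os_core (v := v) (v' := v') l h.2)
    simp only [osN, osG, osH, osV]
    refine this.weak (by simp) (le_of_eq ?_) (le_of_eq (by ring)) (le_of_eq (by ring)) le_rfl
    push_cast; ring

lemma num_core {M5 u5 v5 e1 e2 : ℕ} {M kd : ℝ} {f : ℕ → B3} {g : ℕ → ℝ}
    (hf : ∀ X, (f X).ok = true → Core c x y z (f X).N ((f X).M * M) e1 e2 J (g X)) :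
    ∀ (ks : List PL) (κ : List ℝ) (Xs : List ℕ), ks.all (pb c.t1 M5 u5 v5) = true →
    List.Forall₂ (fun l k => pv x y l = k * kd) ks κ →
    (numS c (c.b3 * J) f ks Xs).ok = true → Core c x y z (numS c (c.b3 * J) f ks Xs).N
      ((numS c (c.b3 * J) f ks Xs).M * (M * M5)) (e1 + u5) (e2 + v5) J (sK κ Xs g * kd)
  | [], κ, Xs, _, h, _ => by cases h; simpa [numS, sK] using Core.zero
  | _ :: _, κ, [], _, h, _ => by cases h; simpa [numS, sK] using Core.zero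
  | k :: ks, κ, X :: Xs, h1, h2, h3 => by
    cases h2 with
    | cons a b =>
    simp only [numS, fN_eq, fB_eq, List.all_cons, Bool.and_eq_true] at h1 h3 ⊢
    have g1 := (hf X h3.1).mul (pk_core h1.1)
    have g2 := g1.add (num_core hf ks _ Xs h1.2 b h3.2)
    simp only [sK]
    convert g2.weak _ (le_of_eq _) le_rfl le_rfl le_rfl using 1
    · rw [a]; ring
    · push_cast
      exact ((msk_mod _ _ _).trans (by push_cast; rw [mul_comm])).add_right _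
    · push_cast; ring

lemma sK_mul (A : ℝ) (g : ℕ → ℝ) : ∀ κ Xs, sK κ Xs (fun X => A * g X) = A * sK κ Xs g
  | [], _ => by simp [sK]
  | _ :: _, [] => by simp [sK]
  | k :: ks, X :: Xs => by simp only [sK, sK_mul A g ks Xs]; ring

theorem blkA_ok {a : PA} {w0 w1 w2 D cd j : ℕ} {Xs : List ℕ} {k : Bk} {x' y' b1 b2 Ω : ℝ}
    {κ : List ℝ} (ha : a.ok c'.t1 = true) (s : a.Sem x' y' x y b1 b2 Ω κ)
    (h : blkA c c' a w0 w1 w2 D cd Xs j k = true) :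
    Ω * ml b1 b2 k.lo ≤ cd * sK κ Xs (fun X => bS c w1 w2 D x y (dgt c.b3 j X) (w0 * j)) ∧
    cd * sK κ Xs (fun X => bS c w1 w2 D x y (dgt c.b3 j X) (w0 * j)) ≤ Ω * ml b1 b2 k.hi := by
  simp only [PA.ok, Bool.and_eq_true] at ha
  obtain ⟨⟨⟨⟨⟨⟨⟨⟨⟨⟨a1, a2⟩, a3⟩, a4⟩, a5⟩, a6⟩, a7⟩, a8⟩, a9⟩, a10⟩, a11⟩ := ha
  simp only [blkA, fN_eq, fL_eq, Bool.and_eq_true, decide_eq_true_eq, posb, Nat.beq_eq] at h
  obtain ⟨⟨⟨⟨⟨⟨⟨h1, h2⟩, h3⟩, h4⟩, h5⟩, h6⟩, h7⟩, h8⟩ := h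
  have c1 := fun {M d1 d2 l} => pk_core (c := c') (x := x') (y := y') (z := 0) (J := 1)
    (M := M) (d1 := d1) (d2 := d2) (l := l)
  have g1 := num_core (fun X hX => by
    simpa only [mul_assoc] using hom_core (s.n1 ▸ c1 a1) (c1 a2) (s.n2 ▸ c1 a3) (c1 a4) rfl hX)
    _ _ Xs a10 s.kn h1
  generalize numS c' (c'.b3 * 1) _ a.kn Xs = r at *
  simp only [← mul_assoc, sK_mul] at g1
  generalize sK κ Xs _ = φ at *
  have g2 := (g1.mul (((c1 a6).pow k.A).mul ((c1 a8).pow k.B))).smul cd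
  obtain ⟨i, hi⟩ := Nat.exists_eq_add_of_le h2
  obtain ⟨l, hl⟩ := Nat.exists_eq_add_of_le h3
  have g3 := (((os_core (v := 0) (v' := 0) _ a11).mul ((c1 a2).pow i)).mul ((c1 a4).pow l)).mul (c1 a9)
  have g4 := fun l hl => (mz_core (A := k.A) (B := k.B) (s.p1 ▸ c1 a5) (c1 a6) (s.p2 ▸ c1 a7)
    (c1 a8) l hl).mul g3
  have hf := Cfg.fit_ok h6
  have e1 : k.I - osG a.os = i := by omega
  have e2 : k.K - osH a.os = l := by omega
  rw [e1, e2] at h7 h8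
  have p0 : 0 < pv x' y' a.d1 ^ k.I * pv x' y' a.d2 ^ k.K * pv x' y' a.kd *
      (pv x' y' a.q1 ^ k.A * pv x' y' a.q2 ^ k.B) := by
    have := s.d1; have := s.d2; have := s.q1; have := s.q2; have := s.kd; positivity
  have m := msk_mod c'.b3 1 (r.N * (Nat.pow (pk c' a.q1) k.A * Nat.pow (pk c' a.q2) k.B))
  have n1 : (0 : ℝ) ≤ mn k.hi * (a.M1 ^ k.I * a.M2 ^ k.K * a.M5 * (a.M3 ^ k.A * a.M4 ^ k.B)) := by
    positivity
  have n2 : (0 : ℝ) ≤ mn k.lo * (a.M1 ^ k.I * a.M2 ^ k.K * a.M5 * (a.M3 ^ k.A * a.M4 ^ k.B)) := by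
    positivity
  constructor
  · have g5 := g2.sub ((g4 _ h4).weak (Int.ModEq.refl _) le_rfl (le_of_eq (by rw [hi, hl]; ring))
      (le_of_eq (by rw [hi, hl]; ring)) le_rfl)
    have g6 := (g5.weak (Int.ModEq.refl _) (by
      rw [hi, hl] at n1 n2 ⊢
      simp only [Int.cast_natCast, Nat.abs_cast]
      push_cast
      simp only [pow_add] at n1 n2 ⊢
      linarith) le_rfl le_rfl le_rfl).pos hf (by
        push_cast at m ⊢
        refine Int.ModEq.add_right _ ?_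
        rw [sub_eq_add_neg]
        exact (m.mul_left _).add ((smN_mod _ _ _ _).trans (by simp))) s.x0 s.y0 h8
    refine le_of_mul_le_mul_right ?_ p0
    rw [s.os] at g6
    rw [hi, hl] at g6 ⊢
    push_cast at g6
    simp only [pow_add] at g6 ⊢
    linarith
  · have g5 := ((g4 _ h5).weak (Int.ModEq.refl _) le_rfl (le_of_eq (by rw [hi, hl]; ring))
      (le_of_eq (by rw [hi, hl]; ring)) le_rfl).sub g2
    have g6 := (g5.weak (Int.ModEq.refl _) (by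
      rw [hi, hl] at n1 n2 ⊢
      simp only [Int.cast_natCast, Nat.abs_cast]
      push_cast
      simp only [pow_add] at n1 n2 ⊢
      linarith) le_rfl le_rfl le_rfl).pos hf (by
        push_cast at m ⊢
        refine Int.ModEq.add_right _ ?_
        rw [sub_eq_add_neg, ← neg_mul]
        exact Int.ModEq.add (by simp) ((smN_mod _ _ _ _).trans (m.mul_left _))) s.x0 s.y0 h7
    refine le_of_mul_le_mul_right ?_ p0
    rw [s.os] at g6
    rw [hi, hl] at g6 ⊢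
    push_cast at g6
    simp only [pow_add] at g6 ⊢
    linarith

def prps {α : Type} (c : Cfg) (n m1 m2 l : ℤ) (dn J H : ℕ) :
    List T → (List ℕ → ℕ → Bool → α) → α
  | [], k => k [] 0 true
  | t :: ts, k => frc t fun t => frc (al c n m1 m2 l dn J t) fun s => fN (s.N + H) fun X =>
    prps c n m1 m2 l dn J H ts fun Xs K o => fN (s.M * c.E ^ J + s.K + K) fun K =>
    fB (s.ok && c.fit s.M s.d1 s.d2 J && o) fun o => k (X :: Xs) K o

lemma prps_eq {α : Type} {n m1 m2 l : ℤ} {dn H : ℕ} : ∀ (ts : List T) (k : List ℕ → ℕ → Bool → α),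
    prps c n m1 m2 l dn J H ts k = k (prps c n m1 m2 l dn J H ts fun X _ _ => X)
      (prps c n m1 m2 l dn J H ts fun _ K _ => K) (prps c n m1 m2 l dn J H ts fun _ _ o => o)
  | [], _ => rfl
  | t :: ts, k => by
    simp only [prps, frc_eq, fN_eq, fB_eq]
    rw [prps_eq ts, prps_eq ts fun Xs _ _ => _ :: Xs, prps_eq ts fun _ K _ => _ + K,
      prps_eq ts fun _ _ o => _ && o]

def dot : List ℝ → List ℝ → ℝ
  | k :: ks, v :: vs => k * v + dot ks vs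
  | _, _ => 0

structure Scale {c : Cfg} (e : Env c) (w0 w1 w2 : ℕ) (σ : ℝ) : Prop where
  s0 : 0 ≤ σ
  s1 : σ ≤ 1
  z : e.z ≤ σ ^ w0
  x : e.x ≤ σ ^ w1
  y : e.y ≤ σ ^ w2

lemma prp_ok {e : Env c} {w0 w1 w2 D : ℕ} {σ v : ℝ} (sc : Scale e w0 w1 w2 σ) {s : T}
    (hD : D ≤ w0 * s.J) (h : Mem e s v) (o : s.ok = true) (hf : c.fit s.M s.d1 s.d2 s.J = true) :
    |v * s.dn - e.ld s.n s.m1 s.m2 s.l * ∑ j ∈ range s.J, e.z ^ j *
      bS c w1 w2 D e.x e.y (dgt c.b3 j (s.N + c.H3 s.J)) (w0 * j)| ≤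
      e.ld s.n s.m1 s.m2 s.l * ((s.M * c.E ^ s.J + s.K : ℕ) * σ ^ D) := by
  obtain ⟨-, w, θ, h1, h2, h3⟩ := h o
  have hx := e.xp; have hy := e.yp; have hz := e.zp; have s0 := sc.s0
  have hE : (1 : ℝ) ≤ c.E := by exact_mod_cast e.E1
  have g0 : e.z ^ s.J ≤ σ ^ D := (pow_le_pow_left₀ hz.le sc.z _).trans
    (by rw [← pow_mul]; exact pow_le_pow_of_le_one s0 sc.s1 hD)
  have g := h1.cut (Cfg.fit_ok hf) (X := s.N + c.H3 s.J) (by push_cast; rfl) hx.le hy.le hz.le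
    (Λ := c.E ^ s.J * σ ^ D) (by positivity) (fun i k j => w0 * j + w2 * k + w1 * i < D)
    (fun i k j g => by
      rw [one_div_pow, mul_one_div, le_div_iff₀ (by positivity)]
      by_cases hj : s.J ≤ j
      · obtain ⟨m, rfl⟩ := Nat.exists_eq_add_of_le hj
        have g1 : e.z ^ m * c.E ^ m ≤ 1 := by
          rw [← mul_pow]
          exact pow_le_one₀ (by positivity) ((le_div_iff₀ (by positivity)).1 e.zle)
        have g2 := pow_le_one₀ hx.le e.xl (n := i)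
        have g3 := pow_le_one₀ hy.le e.yl (n := k)
        calc _ = e.x ^ i * e.y ^ k * (e.z ^ m * c.E ^ m) * (c.E ^ s.J * e.z ^ s.J) := by ring
          _ ≤ 1 * 1 * 1 * (c.E ^ s.J * σ ^ D) := by gcongr
          _ = _ := by ring
      · have g1 : D ≤ w1 * i + w2 * k + w0 * j := by omega
        calc _ ≤ (σ ^ w1) ^ i * (σ ^ w2) ^ k * (σ ^ w0) ^ j * c.E ^ s.J := by
              gcongr
              exacts [sc.x, sc.y, sc.z, (not_le.1 hj).le]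
          _ = c.E ^ s.J * σ ^ (w1 * i + w2 * k + w0 * j) := by ring
          _ ≤ _ := by gcongr _ * ?_; exact pow_le_pow_of_le_one s0 sc.s1 g1)
  have e1 : ∑ j ∈ range s.J, e.z ^ j * bS c w1 w2 D e.x e.y (dgt c.b3 j (s.N + c.H3 s.J)) (w0 * j) =
      bx c.W1 c.W2 s.J (fun i k j => ((dgt c.kb i (dgt c.b2 k (dgt c.b3 j (s.N + c.H3 s.J))) : ℝ) - c.h) *
      if w0 * j + w2 * k + w1 * i < D then e.x ^ i * e.y ^ k * e.z ^ j else 0) := by
    simp only [bx, bS, rS, mul_sum, sum_mul]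
    refine sum_congr rfl fun j _ => sum_congr rfl fun k _ => sum_congr rfl fun i _ => ?_
    split_ifs <;> ring
  rw [e1, h3, ← mul_sub, abs_mul, abs_of_pos (e.ldp _ _ _ _)]
  refine mul_le_mul_of_nonneg_left ?_ (e.ldp _ _ _ _).le
  have g4 := mul_le_mul_of_nonneg_left g0 (Nat.cast_nonneg s.K : (0 : ℝ) ≤ _)
  rw [add_sub_right_comm]
  refine (abs_add_le _ _).trans ?_
  push_cast
  linarith

lemma prps_ok {e : Env c} {w0 w1 w2 D dn : ℕ} {σ km : ℝ} (sc : Scale e w0 w1 w2 σ) (hD : D ≤ w0 * J)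
    (k0 : 0 ≤ km) {n m1 m2 l : ℤ} : ∀ (ts : List T) (vs κ : List ℝ), List.Forall₂ (Mem e) ts vs →
    (∀ k ∈ κ, |k| ≤ km) → (prps c n m1 m2 l dn J (c.H3 J) ts fun _ _ o => o) = true →
    |dot κ vs * dn - e.ld n m1 m2 l * ∑ j ∈ range J, e.z ^ j *
      sK κ (prps c n m1 m2 l dn J (c.H3 J) ts fun X _ _ => X)
        fun X => bS c w1 w2 D e.x e.y (dgt c.b3 j X) (w0 * j)| ≤
      e.ld n m1 m2 l * (km * (prps c n m1 m2 l dn J (c.H3 J) ts fun _ K _ => K : ℕ) * σ ^ D)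
  | [], _, κ, h, _, _ => by cases h; cases κ <;> simp [dot, sK, prps]
  | _ :: _, _, [], _, _, _ => by
    have := sc.s0; have := e.ldp n m1 m2 l
    simp only [dot, sK, zero_mul, mul_zero, sum_const_zero, sub_zero, abs_zero]; positivity
  | t :: ts, _, k :: κ, h, hk, o => by
    cases h with
    | @cons _ v _ vs a b =>
    simp only [prps, frc_eq, fN_eq, fB_eq] at o ⊢
    rw [prps_eq ts] at o
    rw [prps_eq ts fun Xs _ _ => _ :: Xs, prps_eq ts fun _ K _ => _ + K]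
    simp only [Bool.and_eq_true] at o
    have ih := prps_ok (D := D) sc hD k0 ts vs κ b (fun k h => hk k (by simp [h])) o.2
    have e1 : (al c n m1 m2 l dn J t).J = J ∧ (al c n m1 m2 l dn J t).dn = dn ∧
      (al c n m1 m2 l dn J t).n = n ∧ (al c n m1 m2 l dn J t).m1 = m1 ∧
      (al c n m1 m2 l dn J t).m2 = m2 ∧ (al c n m1 m2 l dn J t).l = l := by
      simp only [al, mkT_eq, fN_eq, and_self]
    have g := prp_ok (D := D) sc (by rw [e1.1]; exact hD) (a.al n m1 m2 l dn J) o.1.1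
      (by rw [e1.1]; exact o.1.2)
    simp only [e1] at g
    simp only [dot, sK, mul_add, sum_add_distrib, mul_left_comm _ k, ← mul_sum]
    have g2 := mul_le_mul (hk k (by simp)) g (abs_nonneg _) k0
    rw [← abs_mul] at g2
    rw [abs_le] at g2 ih ⊢
    push_cast at g2 ih ⊢
    constructor <;> linarith [g2.1, g2.2, ih.1, ih.2]

abbrev QL := List (ℤ × ℕ × ℕ × ℕ)

def ql (x y z : ℝ) : QL → ℝ
  | [] => 0
  | t :: l => t.1 * (x ^ t.2.1 * y ^ t.2.2.1 * z ^ t.2.2.2) + ql x y z l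

def tms (f : Bk → ML) : List Bk → ℕ → QL
  | [], _ => []
  | k :: ks, j => (f k).map (fun t => (t.1, j, t.2.1, t.2.2)) ++ tms f ks (j + 1)

def bk0 : Bk := ⟨0, 0, 0, 0, [], []⟩

lemma ql_append : ∀ p q, ql x y z (p ++ q) = ql x y z p + ql x y z q
  | [], q => by simp [ql]
  | t :: p, q => by simp only [List.cons_append, ql, ql_append p q]; ring

lemma ql_map (j : ℕ) : ∀ l : ML, ql x y z (l.map fun t => (t.1, j, t.2.1, t.2.2)) = x ^ j * ml y z l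
  | [] => by simp [ql, ml]
  | t :: l => by simp only [List.map, ql, ml, ql_map j l]; ring

lemma ql_tms (f : Bk → ML) : ∀ ks j, ql x y z (tms f ks j) =
    ∑ i ∈ range ks.length, x ^ (j + i) * ml y z (f (ks.getD i bk0))
  | [], _ => by simp [ql, tms]
  | k :: ks, j => by
    rw [tms, ql_append, ql_map, ql_tms f ks, List.length_cons, sum_range_succ', add_comm]
    simp [add_assoc, add_comm 1]

def chkA (c c' : Cfg) (a : PA) (ts : List T) (n m1 m2 l : ℤ) (dn w0 w1 w2 D cd Kt : ℕ)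
    (ks : List Bk) (js : List ℕ) : Bool :=
  fN ks.length fun J => fN (c.H3 J) fun H => prps c n m1 m2 l dn J H ts fun Xs K o =>
    o && a.ok c'.t1 && decide (0 < dn) && decide (K ≤ Kt) && decide (D ≤ w0 * J) &&
      js.all fun j => blkA c c' a w0 w1 w2 D cd Xs j (ks.getD j bk0)

theorem chkA_ok {e : Env c} {a : PA} {ts : List T} {n m1 m2 l : ℤ} {dn w0 w1 w2 D cd Kt : ℕ}
    {ks : List Bk} {x' y' b1 b2 Ω σ km oi : ℝ} {vs κ : List ℝ} (s : a.Sem x' y' e.x e.y b1 b2 Ω κ)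
    (sc : Scale e w0 w1 w2 σ) (hv : List.Forall₂ (Mem e) ts vs) (k0 : 0 ≤ km)
    (hk : ∀ k ∈ κ, |k| ≤ km) (ho : 1 ≤ oi * Ω) (hJ : 0 < ks.length)
    (h : ∀ j < ks.length, ∃ js, j ∈ js ∧ chkA c c' a ts n m1 m2 l dn w0 w1 w2 D cd Kt ks js = true) :
    0 < dn ∧ e.ld n m1 m2 l * Ω * (ql e.z b1 b2 (tms Bk.lo ks 0) - cd * oi * km * Kt * σ ^ D) ≤
      dot κ vs * dn * cd ∧ dot κ vs * dn * cd ≤
      e.ld n m1 m2 l * Ω * (ql e.z b1 b2 (tms Bk.hi ks 0) + cd * oi * km * Kt * σ ^ D) := by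
  simp only [chkA, fN_eq] at h
  simp only [fun js => prps_eq (c := c) (J := ks.length) (n := n) (m1 := m1) (m2 := m2) (l := l)
    (dn := dn) (H := c.H3 ks.length) ts fun Xs K o => o && a.ok c'.t1 && decide (0 < dn) &&
    decide (K ≤ Kt) && decide (D ≤ w0 * ks.length) && List.all js
    fun j => blkA c c' a w0 w1 w2 D cd Xs j (ks.getD j bk0), Bool.and_eq_true, decide_eq_true_eq,
    List.all_eq_true] at h
  obtain ⟨_, -, ⟨⟨⟨⟨o1, o2⟩, o3⟩, o4⟩, o5⟩, -⟩ := h 0 hJ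
  have g := prps_ok (D := D) sc o5 k0 ts vs κ hv hk o1
  have gb := fun j (hj : j ∈ range ks.length) => blkA_ok o2 s
    ((h j (mem_range.1 hj)).choose_spec.2.2 j (h j (mem_range.1 hj)).choose_spec.1)
  have g1 := sum_le_sum fun j hj => mul_le_mul_of_nonneg_left (gb j hj).1 (pow_pos e.zp j).le
  have g2 := sum_le_sum fun j hj => mul_le_mul_of_nonneg_left (gb j hj).2 (pow_pos e.zp j).le
  simp only [mul_left_comm _ Ω, mul_left_comm _ (cd : ℝ), ← mul_sum] at g1 g2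
  simp only [ql_tms, zero_add]
  have p := e.ldp n m1 m2 l
  have s0 := sc.s0
  have g3 : e.ld n m1 m2 l * (km * (prps c n m1 m2 l dn ks.length (c.H3 ks.length) ts
      fun _ K _ => K : ℕ) * σ ^ D) ≤ e.ld n m1 m2 l * (km * Kt * σ ^ D) * (oi * Ω) :=
    le_trans (by gcongr) (le_mul_of_one_le_right (by positivity) ho)
  have g4 := abs_le.1 (g.trans g3)
  have g5 := mul_le_mul_of_nonneg_left g4.1 (Nat.cast_nonneg cd : (0 : ℝ) ≤ _)
  have g6 := mul_le_mul_of_nonneg_left g4.2 (Nat.cast_nonneg cd : (0 : ℝ) ≤ _)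
  have g7 := mul_le_mul_of_nonneg_left g1 p.le
  have g8 := mul_le_mul_of_nonneg_left g2 p.le
  exact ⟨o3, by linarith, by linarith⟩

end Pool.Agent.Lib.MP_b2ee0b_nt.TM
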