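import Pool.Agent.Lib.MP_b2ee0b_nt.TMe

/-! Bounds for sums of monomials on polyhedral regions, and decision trees. -/

set_option autoImplicit false

namespace Pool.Agent.Lib.MP_b2ee0b_nt.TM

noncomputable def E2 (x : ℝ) : ℝ := (2 : ℝ) ^ (x / 256)

lemma E2_pos (x : ℝ) : 0 < E2 x := Real.rpow_pos_of_pos two_pos _
lemma E2_add (x y : ℝ) : E2 (x + y) = E2 x * E2 y := by
  unfold E2; rw [add_div, Real.rpow_add two_pos]
lemma E2_le {x y : ℝ} (h : x ≤ y) : E2 x ≤ E2 y :=
  Real.rpow_le_rpow_of_exponent_le one_le_two (by linarith)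
lemma E2_le_iff {x y : ℝ} : E2 x ≤ E2 y ↔ x ≤ y := by
  unfold E2; rw [Real.rpow_le_rpow_left_iff one_lt_two]; constructor <;> intro h <;> linarith
lemma E2_zero : E2 0 = 1 := by simp [E2]
lemma E2_pow (x : ℝ) (n : ℕ) : E2 x ^ n = E2 (n * x) := by
  unfold E2; rw [← Real.rpow_mul_natCast two_pos.le]; congr 1; ring
lemma E2_zpow (x : ℝ) (n : ℤ) : E2 x ^ n = E2 (n * x) := by
  unfold E2; rw [← Real.rpow_mul_intCast two_pos.le]; congr 1; ring
lemma E2_nat (n : ℕ) : E2 (256 * n) = 2 ^ n := by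
  unfold E2; rw [← Real.rpow_natCast]; congr 1; ring
lemma E2_surj {x : ℝ} (h : 0 < x) : ∃ l, x = E2 (12 * l) :=
  ⟨256 * Real.logb 2 x / 12, by
    unfold E2
    rw [show 12 * (256 * Real.logb 2 x / 12) / 256 = Real.logb 2 x by ring,
      Real.rpow_logb two_pos (by norm_num) h]⟩

def SC : ℝ := 2 ^ 2038
lemma SC_pos : 0 < SC := pow_pos two_pos _
lemma SC_cast (a : ℕ) : (Nat.shiftLeft a 2038 : ℕ) = a * SC := by
  rw [shl_eq, Nat.cast_mul, Nat.cast_pow, Nat.cast_ofNat, SC]

def TAB : ℕ := 0x7fa765aca97f4f08ae3e7ef6e8da4c7e9f06067b7e476008917deff6b6737d98c9e6227d41d96dba7ceb2523767c94acddaf7c3e7072da7be86fb9867b92aa88637b3d20b63a7ae7d219f47a92be8a937a3de5df3779e947ef1e7994e4919e7940bb9e2d78ecccec5c78991853d778459dac6677f25ccdef779f559071774c87cc0776f9f358eb76a7980f6d765575c7fe76038c5b2775b1dba18c75606373ef750f23ab2b74be1c2037746d4cac24741cb5281f73cc556d6f737c2d5578732c3cb9b572dc8373bf728d015d48723db6501c71eea22624719fc4b96071511de3ec7102ad800070b4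7367ea70666f76167018a185076fcb096f5d6f7da70fcf6f307a41306ee382de6a6e96c0c2856e4a33c89e6dfddbcbee6db1b8a7c86d65ca37966d1a1056de6cce8ae13d6c8339b26b6c381ca6376bed33988c6ba27e656c6b57fce8f16b0daeff506ac39484d66a79ad55e86a2ff94f0569e6784cc3699d2a2bd269540ec8f9690b26011968c26fb1296879ebb63b683199ed7867e97a342067a18c678d6759d0652f6712460a9066caed35506683c5c329663ccf91e965f60a7f7a65af7669da6569132f226522e0ad7f64dcdec33864970d4ea964516c2e48640bfb40a163c6ba64566381a97822633cc85ad662f816eb5962b39508ab626f4291e2622b1f662a61e72b64c761a3666d13615fd05e7e611c69189060d9307ae6609626653460534ab74560109d50f95fce1e12485f8bccdb3e5f49a98bff5f07b404c45ec5ec25dc5e8451cfad5e42e4e2b15e01a53f7a5dc092c6ae5d7fad590a5d3ef4d7605cfe6922975cbe0a1bac5c7dd7a3b25c3dd19bd15bfdf7e5475bbe4a61655b7ec8f1955b3f7377525b0049d4305ac14be9d55a827999fd5a43d2c67b5a0557513359c7071c215988e20955594ae7faf3590d18d33458cf7474655891fac0ea5854ab9b38581786e5dc57da8c8374579dbc56b5576116426757249a296656e8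47eea256ac1f75225670209ffd56344b526055f89f6f8c55bd1cdad55581c377a55546932977550b8bd3db54d0ad5a765495f7a0fe545b6a8b3e542105fd1553e6c9da7553acb607635372ca67f8533906e06052ff6b54d952c5f7a9b7528cabc360525387864b521a8ad70551e1b59a2d51a907b4755170810aa0513821818750ffe8fe1350c7d76543508fec9c2650582887dd50208b0d9f4fe91412b34fb1c37c724f7a9930494f439513b84f0cb70c4f4ed5feffb24e9f6cd3974e69006dc64e32b9b4184dfc988c7a4dc69cdceb4d90c68b7b4d5b157e4b4d25899b904cf022c9914cbae0eea44c85c3f1344c50cbb7bb4c1bf828c74be7492af74bb2bea4f94b7e587d914b4a169b914b15f8e5dd4ae1ff436c4aae299b454a7a77d4804a46e9d6474a137f87d649e038d07849ad15978a497a15c47c4947393ecb49147fee0948e1e9b9d648af7689e5487d2645f8484af8d5e34818ee218b47e70610e447b5408bf447839d7ad247521cc5a34720be54a146ef82101246be67e04f468d6fadc0465c9960de462be4e23345fb521a5745cae0f1f6459a9151c8456a632297453a564d3d450a6abaa544daa053c944aaf701b1447b6ead79444c07404a441cc0a35d43ed9abffc43be957f7f438fb0cb504360ec8ce6433248adca4303c5179242d561b3e742a71e6c7d4278fb2b1c424af7d999421d1461d741ef50adcb41c1aca77841942838f14166c34c5741397dcbda410c57a1ba40df50b84740b268f9df4085a050ed4058f6a7ed402c6be96b4000000000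

/-- upper value of `2 ^ (n / 256 + 2038)`, zero on failure -/
def up2 (n : ℤ) : ℕ :=
  fN (n + 512000).toNat fun m => fN (m % 256) fun r => fN (dgt 40 r TAB) fun t =>
  cond (Nat.ble (Nat.shiftLeft 1 (r + 9728)) (Nat.pow t 256)) (Nat.shiftLeft t (m / 256)) 0

/-- lower value -/
def lo2 (n : ℤ) : ℕ :=
  match n + 512000 with
  | .negSucc _ => 0
  | .ofNat m => fN m fun m => fN (m % 256) fun r => fN (dgt 40 r TAB - 1) fun t =>
    cond (Nat.ble (Nat.pow t 256) (Nat.shiftLeft 1 (r + 9728))) (Nat.shiftLeft t (m / 256)) 0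

lemma E2_split (m : ℕ) : E2 (m - 512000) * SC = E2 ((m % 256 + 9728 : ℕ)) * 2 ^ (m / 256) := by
  rw [SC, ← E2_nat, ← E2_nat, ← E2_add, ← E2_add]
  congr 1
  have : (m : ℝ) = 256 * (m / 256 : ℕ) + (m % 256 : ℕ) := by exact_mod_cast (Nat.div_add_mod m 256).symm
  push_cast
  linarith

lemma up2_le {n : ℤ} (h : up2 n ≠ 0) : E2 n * SC ≤ up2 n := by
  simp only [up2, fN_eq] at h ⊢
  have h1 : (n : ℝ) ≤ ((n + 512000).toNat : ℕ) - 512000 := by
    have : n ≤ ((n + 512000).toNat : ℕ) - 512000 := by omega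
    exact_mod_cast this
  generalize (n + 512000).toNat = m at *
  generalize dgt 40 (m % 256) TAB = t at *
  cases g : Nat.ble (Nat.shiftLeft 1 (m % 256 + 9728)) (Nat.pow t 256)
  · rw [g] at h; exact absurd rfl h
  · rw [cond_true, shl_eq]
    rw [Nat.ble_eq, shl_eq, one_mul] at g
    refine (mul_le_mul_of_nonneg_right (E2_le h1) SC_pos.le).trans ?_
    rw [E2_split, Nat.cast_mul, Nat.cast_pow, Nat.cast_ofNat]
    refine mul_le_mul_of_nonneg_right ?_ (by positivity)
    refine le_of_pow_le_pow_left₀ (n := 256) (by norm_num) (Nat.cast_nonneg _) ?_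
    rw [E2_pow, Nat.cast_ofNat, E2_nat]
    exact_mod_cast g

lemma lo2_le (n : ℤ) : lo2 n ≤ E2 n * SC := by
  have := E2_pos n
  have := SC_pos
  unfold lo2
  split
  · simp only [Nat.cast_zero]; positivity
  · rename_i m hm
    simp only [fN_eq]
    generalize dgt 40 (m % 256) TAB - 1 = t at *
    cases g : Nat.ble (Nat.pow t 256) (Nat.shiftLeft 1 (m % 256 + 9728))
    · simp only [cond_false, Nat.cast_zero]; positivity
    · rw [cond_true, shl_eq]
      rw [Nat.ble_eq, shl_eq, one_mul] at g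
      have h1 : (n : ℝ) = m - 512000 := by
        have : n = (m : ℤ) - 512000 := by simp only [Int.ofNat_eq_natCast] at hm; omega
        exact_mod_cast this
      rw [h1, E2_split, Nat.cast_mul, Nat.cast_pow, Nat.cast_ofNat]
      refine mul_le_mul_of_nonneg_right ?_ (by positivity)
      refine le_of_pow_le_pow_left₀ (n := 256) (by norm_num) (E2_pos _).le ?_
      rw [E2_pow, Nat.cast_ofNat, E2_nat]
      exact_mod_cast g

structure Gn where
  a : ℤ
  b : ℤ
  c : ℤ
  n : ℤ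

structure Bas where
  a1 : ℤ
  b1 : ℤ
  c1 : ℤ
  a2 : ℤ
  b2 : ℤ
  c2 : ℤ
  a3 : ℤ
  b3 : ℤ
  c3 : ℤ
  d : ℤ
  n1 : ℤ
  n2 : ℤ
  n3 : ℤ

def mkB {α : Type} (f g h : Gn) (k : Bas → α) : α :=
  match f, g, h with
  | ⟨a, b, c, n⟩, ⟨a', b', c', n'⟩, ⟨a'', b'', c'', n''⟩ =>
    fZ (b' * c'' - c' * b'') fun a1 => fZ (c' * a'' - a' * c'') fun b1 =>
    fZ (a' * b'' - b' * a'') fun c1 => fZ (b'' * c - c'' * b) fun a2 =>
    fZ (c'' * a - a'' * c) fun b2 => fZ (a'' * b - b'' * a) fun c2 =>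
    fZ (b * c' - c * b') fun a3 => fZ (c * a' - a * c') fun b3 => fZ (a * b' - b * a') fun c3 =>
    fZ (a * a1 + b * b1 + c * c1) fun d => k ⟨a1, b1, c1, a2, b2, c2, a3, b3, c3, d, n, n', n''⟩

def g0 : Gn := ⟨0, 0, 0, 0⟩

def mkBs {α : Type} (G : List Gn) : List (ℕ × ℕ × ℕ) → (List Bas → α) → α
  | [], k => k []
  | t :: l, k => mkB (G.getD t.1 g0) (G.getD t.2.1 g0) (G.getD t.2.2 g0) fun b =>
    mkBs G l fun bs => k (b :: bs)

def nn (a : ℤ) : Bool :=
  match a with
  | .ofNat _ => true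
  | .negSucc _ => false

def omin (n : ℤ) : Option ℤ → Option ℤ
  | none => some n
  | some m => cond (nn (Int.sub m n)) (some n) (some m)

/-- the best bound given by the bases -/
def ubd (bs : List Bas) (a b c : ℤ) : Option ℤ :=
  List.rec none (fun B _ ih =>
    match B with
    | ⟨a1, b1, c1, a2, b2, c2, a3, b3, c3, d, n1, n2, n3⟩ =>
      fZ (Int.add (Int.add (Int.mul a1 a) (Int.mul b1 b)) (Int.mul c1 c)) fun l1 => cond (nn l1)
      (fZ (Int.add (Int.add (Int.mul a2 a) (Int.mul b2 b)) (Int.mul c2 c)) fun l2 => cond (nn l2)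
      (fZ (Int.add (Int.add (Int.mul a3 a) (Int.mul b3 b)) (Int.mul c3 c)) fun l3 =>
        cond (nn l3 && nn (d - 1)) (fZ (-(-(l1 * n1 + l2 * n2 + l3 * n3) / d)) fun n => omin n ih)
        ih) ih) ih) bs

lemma ubd_cons (a1 b1 c1 a2 b2 c2 a3 b3 c3 d n1 n2 n3 : ℤ) (bs : List Bas) (a b c : ℤ) :
    ubd (⟨a1, b1, c1, a2, b2, c2, a3, b3, c3, d, n1, n2, n3⟩ :: bs) a b c =
      fZ (Int.add (Int.add (Int.mul a1 a) (Int.mul b1 b)) (Int.mul c1 c)) fun l1 => cond (nn l1)
      (fZ (Int.add (Int.add (Int.mul a2 a) (Int.mul b2 b)) (Int.mul c2 c)) fun l2 => cond (nn l2)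
      (fZ (Int.add (Int.add (Int.mul a3 a) (Int.mul b3 b)) (Int.mul c3 c)) fun l3 =>
        cond (nn l3 && nn (d - 1)) (fZ (-(-(l1 * n1 + l2 * n2 + l3 * n3) / d)) fun n =>
          omin n (ubd bs a b c)) (ubd bs a b c)) (ubd bs a b c)) (ubd bs a b c) := rfl

variable {l1 l2 l3 : ℝ}

def Sat (l1 l2 l3 : ℝ) (G : List Gn) : Prop := ∀ g ∈ G, g.a * l1 + g.b * l2 + g.c * l3 ≤ g.n

def Val (l1 l2 l3 : ℝ) (bs : List Bas) : Prop :=
  ∀ a b c n, ubd bs a b c = some n → a * l1 + b * l2 + c * l3 ≤ n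

lemma nn_iff {a : ℤ} : nn a = true ↔ 0 ≤ a := by cases a <;> simp [nn]

lemma mkBs_eq {α : Type} (G : List Gn) : ∀ l (k : List Bas → α), mkBs G l k = k (mkBs G l id)
  | [], _ => rfl
  | t :: l, k => by
    simp only [mkBs, mkB, fZ_eq]
    rw [mkBs_eq G l, mkBs_eq G l fun bs => id (_ :: bs)]
    rfl

lemma Sat.get {G : List Gn} (h : Sat l1 l2 l3 G) (i : ℕ) :
    (G.getD i g0).a * l1 + (G.getD i g0).b * l2 + (G.getD i g0).c * l3 ≤ (G.getD i g0).n := by
  rw [List.getD_eq_getElem?_getD]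
  cases e : G[i]? with
  | none => simp [g0]
  | some g => exact h g (List.mem_of_getElem? e)

lemma Sat.val {G : List Gn} (h : Sat l1 l2 l3 G) : ∀ l, Val l1 l2 l3 (mkBs G l id)
  | [] => fun _ _ _ _ e => by simp [mkBs, ubd] at e
  | t :: l => fun a b c n e => by
    have ih := h.val l a b c
    have h1 := h.get t.1
    have h2 := h.get t.2.1
    have h3 := h.get t.2.2
    simp only [mkBs, mkB, fZ_eq] at e
    rw [mkBs_eq] at e
    generalize G.getD t.1 g0 = f at *
    generalize G.getD t.2.1 g0 = g at *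
    generalize G.getD t.2.2 g0 = k at *
    rw [id, ubd_cons] at e
    simp only [fZ_eq, Int.add_def, Int.mul_def, Bool.cond_eq_ite, Bool.and_eq_true, nn_iff] at e
    split_ifs at e with p1 p2 p3
    · have key : a * l1 + b * l2 + c * l3 ≤ (-(-(((g.b * k.c - g.c * k.b) * a + (g.c * k.a - g.a * k.c) * b +
          (g.a * k.b - g.b * k.a) * c) * f.n + ((k.b * f.c - k.c * f.b) * a + (k.c * f.a - k.a * f.c) * b +
          (k.a * f.b - k.b * f.a) * c) * g.n + ((f.b * g.c - f.c * g.b) * a + (f.c * g.a - f.a * g.c) * b +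
          (f.a * g.b - f.b * g.a) * c) * k.n) / (f.a * (g.b * k.c - g.c * k.b) +
          f.b * (g.c * k.a - g.a * k.c) + f.c * (g.a * k.b - g.b * k.a))) : ℤ) := by
        have q0 : 0 < f.a * (g.b * k.c - g.c * k.b) + f.b * (g.c * k.a - g.a * k.c) +
          f.c * (g.a * k.b - g.b * k.a) := by omega
        have q1 := mul_le_mul_of_nonneg_left h1 (Int.cast_nonneg (R := ℝ) p1)
        have q2 := mul_le_mul_of_nonneg_left h2 (Int.cast_nonneg (R := ℝ) p2)
        have q3 := mul_le_mul_of_nonneg_left h3 (Int.cast_nonneg (R := ℝ) p3.1)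
        have q4 := (Int.cast_le (R := ℝ)).2 (Int.ediv_mul_le (-(((g.b * k.c - g.c * k.b) * a +
          (g.c * k.a - g.a * k.c) * b + (g.a * k.b - g.b * k.a) * c) * f.n +
          ((k.b * f.c - k.c * f.b) * a + (k.c * f.a - k.a * f.c) * b + (k.a * f.b - k.b * f.a) * c) * g.n +
          ((f.b * g.c - f.c * g.b) * a + (f.c * g.a - f.a * g.c) * b + (f.a * g.b - f.b * g.a) * c) * k.n))
          q0.ne')
        rw [Int.cast_neg]
        generalize (_ / _ : ℤ) = w at q4 ⊢
        refine le_of_mul_le_mul_right ?_ ((Int.cast_pos (R := ℝ)).2 q0)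
        push_cast at q1 q2 q3 q4 ⊢
        linarith
      generalize (-(_ / _) : ℤ) = w at e key
      cases e2 : ubd (mkBs G l id) a b c with
      | none => rw [e2] at e; cases e; exact key
      | some m =>
        rw [e2, omin, Bool.cond_eq_ite] at e
        split_ifs at e <;> cases e
        exacts [key, ih _ e2]
    all_goals exact ih n e

/-- `a * l1 + b * l2 + c * l3 ≤ n` follows from the bases -/
def lpb (bs : List Bas) (a b c n : ℤ) : Bool :=
  match ubd bs a b c with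
  | none => false
  | some m => nn (n - m)

lemma Val.lpb {bs : List Bas} (h : Val l1 l2 l3 bs) {a b c n : ℤ} (g : lpb bs a b c n = true) :
    a * l1 + b * l2 + c * l3 ≤ n := by
  unfold TM.lpb at g
  split at g
  · cases g
  · rename_i m e
    rw [nn_iff] at g
    exact (h _ _ _ _ e).trans (by exact_mod_cast (by omega))

/-- upper value of one term -/
def ub1 (bs : List Bas) (C a b c o : ℤ) : Option ℤ :=
  match C with
  | .ofNat m =>
    match ubd bs a b c with
    | none => none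
    | some n => fN (up2 (n + o)) fun t => cond (Nat.beq t 0) none (some (.ofNat (m * t)))
  | .negSucc m =>
    match ubd bs (-a) (-b) (-c) with
    | none => some 0
    | some n => some (.negSucc m * .ofNat (lo2 (o - n)))

lemma Val.ub1 {bs : List Bas} (h : Val l1 l2 l3 bs) {C a b c o r : ℤ}
    (g : ub1 bs C a b c o = some r) : C * E2 (a * l1 + b * l2 + c * l3 + o) * SC ≤ r := by
  have p := E2_pos (a * l1 + b * l2 + c * l3 + o)
  have p' := SC_pos
  unfold TM.ub1 at g
  split at g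
  · rename_i m
    split at g
    · cases g
    · rename_i n e
      rw [fN_eq] at g
      cases e2 : Nat.beq (up2 (n + o)) 0
      · rw [e2, cond_false] at g
        cases g
        have h1 := up2_le (Nat.ne_of_beq_eq_false e2)
        have h2 := E2_le (x := a * l1 + b * l2 + c * l3 + o) (y := (n + o : ℤ))
          (by have := h _ _ _ _ e; push_cast; linarith)
        simp only [Int.ofNat_eq_natCast, Int.cast_natCast, Nat.cast_mul, Int.cast_mul, mul_assoc]
        exact mul_le_mul_of_nonneg_left ((mul_le_mul_of_nonneg_right h2 p'.le).trans h1)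
          (Nat.cast_nonneg m)
      · rw [e2, cond_true] at g; cases g
  · rename_i m
    have hm : ((Int.negSucc m : ℤ) : ℝ) ≤ 0 := by exact_mod_cast (Int.negSucc_lt_zero m).le
    split at g
    · cases g
      rw [mul_assoc, Int.cast_zero]
      exact mul_nonpos_of_nonpos_of_nonneg hm (by positivity)
    · rename_i n e
      cases g
      have h2 := E2_le (y := a * l1 + b * l2 + c * l3 + o) (x := (o - n : ℤ))
        (by have := h _ _ _ _ e; push_cast at this ⊢; linarith)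
      rw [Int.cast_mul, mul_assoc]
      refine mul_le_mul_of_nonpos_left ?_ hm
      simp only [Int.ofNat_eq_natCast, Int.cast_natCast]
      exact (lo2_le _).trans (mul_le_mul_of_nonneg_right h2 p'.le)

/-- upper value of a sum of terms, times a monomial -/
def ubq (bs : List Bas) (s a b c : ℤ) (L : QL) : Option ℤ :=
  List.rec (some 0) (fun t _ ih =>
    match t with
    | ⟨C, i, j, k⟩ =>
      fZ (s * C) fun C => fZ (a + 12 * i) fun a => fZ (b + 12 * j) fun b => fZ (c + 12 * k) fun c =>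
      match ub1 bs C a b c 0, ih with
      | some x, some y => fZ (x + y) some
      | _, _ => none) L

lemma ubq_cons (bs : List Bas) (s a b c C : ℤ) (i j k : ℕ) (L : QL) :
    ubq bs s a b c (⟨C, i, j, k⟩ :: L) =
      fZ (s * C) fun C => fZ (a + 12 * i) fun a' => fZ (b + 12 * j) fun b' => fZ (c + 12 * k) fun c' =>
      match ub1 bs C a' b' c' 0, ubq bs s a b c L with
      | some x, some y => fZ (x + y) some
      | _, _ => none := rfl

lemma Val.ubq {bs : List Bas} (h : Val l1 l2 l3 bs) {s a b c : ℤ} : ∀ (L : QL) (r : ℤ),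
    ubq bs s a b c L = some r → s * ql (E2 (12 * l1)) (E2 (12 * l2)) (E2 (12 * l3)) L *
      E2 (a * l1 + b * l2 + c * l3) * SC ≤ r
  | [], r, g => by cases g; simp [ql]
  | ⟨C, i, j, k⟩ :: L, r, g => by
    simp only [ubq_cons, fZ_eq] at g
    split at g
    · rename_i x y e1 e2
      cases g
      have h1 := h.ub1 e1
      have h2 := h.ubq L y e2
      have e : E2 (((a + 12 * i : ℤ) : ℝ) * l1 + (b + 12 * j : ℤ) * l2 + (c + 12 * k : ℤ) * l3 + (0 : ℤ)) =
          E2 (12 * l1) ^ i * E2 (12 * l2) ^ j * E2 (12 * l3) ^ k * E2 (a * l1 + b * l2 + c * l3) := by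
        simp only [E2_pow, ← E2_add]; congr 1; push_cast; ring
      rw [e] at h1
      simp only [ql]
      push_cast at h1 ⊢
      linarith
    · cases g

inductive Tr
  | lf (i : ℕ) (d : List ℤ) (b : List (ℕ × ℕ × ℕ))
  | sp (g : Gn) (l r : Tr)
  | dr (d : List ℤ) (b : List (ℕ × ℕ × ℕ)) (t : Tr)

def chkT (leaf : ℕ → List ℤ → List Bas → Bool) (rule : List ℤ → List Bas → List Gn) :
    Tr → List Gn → Bool
  | .lf i d b, G => mkBs G b (leaf i d)
  | .sp g l r, G => chkT leaf rule l (g :: G) && chkT leaf rule r (⟨-g.a, -g.b, -g.c, -g.n⟩ :: G)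
  | .dr d b t, G => mkBs G b fun bs => chkT leaf rule t (rule d bs ++ G)

theorem chkT_ok {P : Prop} {leaf : ℕ → List ℤ → List Bas → Bool} {rule : List ℤ → List Bas → List Gn}
    (h1 : ∀ i d bs, Val l1 l2 l3 bs → leaf i d bs = true → P)
    (h2 : ∀ d bs, Val l1 l2 l3 bs → Sat l1 l2 l3 (rule d bs)) :
    ∀ t G, chkT leaf rule t G = true → Sat l1 l2 l3 G → P
  | .lf i d b, G, h, s => h1 i d _ (s.val b) (by rwa [chkT, mkBs_eq] at h)
  | .sp g l r, G, h, s => by
    rw [chkT, Bool.and_eq_true] at h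
    rcases le_total (g.a * l1 + g.b * l2 + g.c * l3) g.n with e | e
    · exact chkT_ok h1 h2 l _ h.1 (List.forall_mem_cons.2 ⟨e, s⟩)
    · exact chkT_ok h1 h2 r _ h.2 (List.forall_mem_cons.2 ⟨by push_cast; linarith, s⟩)
  | .dr d b t, G, h, s => by
    rw [chkT, mkBs_eq] at h
    exact chkT_ok h1 h2 t _ h (List.forall_mem_append.2 ⟨h2 d _ (s.val b), s⟩)

end Pool.Agent.Lib.MP_b2ee0b_nt.TM
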