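import Pool.Agent.Lib.MP_b2ee0b_nt.TMf

/-! Substitution of truncated series into the blocks, and the final size estimate. -/

set_option autoImplicit false

namespace Pool.Agent.Lib.MP_b2ee0b_nt.TM

open Finset

structure B4 where
  N : ℕ
  M : ℕ
  K : ℕ
  ok : Bool

def numB (c : Cfg) (b J : ℕ) (f : ℕ → B3) : List T → List ℕ → B4
  | k :: ks, X :: Xs =>
    match f X, numB c b J f ks Xs with
    | ⟨N, M, o⟩, ⟨N', M', K', o'⟩ =>
      fN (msk b (msk b k.N * N) + N') fun N => fN (sc c k.K (k.J - J) * M + K') fun K =>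
      fN (k.M * M + M') fun M => fB (o && o') fun o => ⟨N, M, K, o⟩
  | _, _ => ⟨0, 0, 0, true⟩

/-- the series has trivial leading monomial -/
def kok (dn u J km : ℕ) (c : Cfg) (k : T) : Bool :=
  k.ok && decide (k.n = 0) && decide (k.m1 = 0) && decide (k.m2 = 0) && decide (k.l = 0) &&
    decide (k.dn = dn) && decide (J ≤ k.J) && decide (k.d1 ≤ u) && decide (k.d2 = 0) &&
    decide (k.M + sc c k.K k.J ≤ km)

structure PB where
  X : ℕ
  K : ℕ
  J : ℕ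
  I : ℕ
  L : ℕ

/-- block `j`, substituted; `d = (I, L, J)` -/
def blkB {α : Type} (c c' : Cfg) (w0 w1 w2 D n1 d1 n2 d2 M1 u1 M2 u2 u5 dn km : ℕ) (ks : List T)
    (Xs : List ℕ) (j : ℕ) (d : ℕ × ℕ × ℕ) (k : PB → Bool → α) : α :=
  fN d.1 fun I => fN d.2.1 fun L => fN d.2.2 fun J => fN (c'.b3 * J) fun b =>
  fL (tab b n1 d1 I) fun L1 => fL (L1.map fun _ => 1) fun O1 => fL (tab b n2 d2 L) fun L2 =>
  match numB c' b J (hom c b w0 w1 w2 D L1 O1 L2 j) ks Xs with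
  | ⟨N, M, K, o⟩ => fN (M1 ^ I * M2 ^ L) fun Mt => fN (N + c'.H3 J) fun X =>
    fN (M * Mt * c'.E ^ J + K * Mt) fun K =>
    fB (o && ks.all (kok dn u5 J km c') && c'.fit (M * Mt) (u5 + (u1 * I + u2 * L)) 0 J &&
      decide (J ≤ c'.D)) fun o => k ⟨X, K, J, I, L⟩ o

def blkBs {α : Type} (c c' : Cfg) (w0 w1 w2 D n1 d1 n2 d2 M1 u1 M2 u2 u5 dn km : ℕ) (ks : List T)
    (Xs : List ℕ) : List (ℕ × ℕ × ℕ) → ℕ → (List PB → Bool → α) → α
  | [], _, k => k [] true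
  | d :: ds, j, k => fN j fun j =>
    blkB c c' w0 w1 w2 D n1 d1 n2 d2 M1 u1 M2 u2 u5 dn km ks Xs j d fun p o =>
    blkBs c c' w0 w1 w2 D n1 d1 n2 d2 M1 u1 M2 u2 u5 dn km ks Xs ds (j + 1) fun ps o' =>
    fB (o && o') fun o => k (p :: ps) o

def ptb (β : ℕ) : ℕ → ℕ → List ℕ
  | 0, _ => []
  | f + 1, a => fN a fun a => a :: ptb β f (Nat.shiftRight (a * β) 64 + 1)

def oadd : Option ℕ → Option ℕ → Option ℕ
  | some a, some b => fN (a + b) some
  | _, _ => none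

/-- upper value of a monomial -/
def ubm (bs : List Bas) (a b c o : ℤ) : Option ℕ :=
  match ubd bs a b c with
  | none => none
  | some n => fN (up2 (n + o)) fun t => cond (Nat.beq t 0) none (some t)

def omul (m : ℕ) : Option ℕ → Option ℕ
  | some a => some (m * a)
  | none => none

def rowC (kb mask h W1 thr : ℕ) (Lx : List ℕ) (bs : List Bas) (xa xb xc xo a b c o : ℤ) (n : ℕ) :
    ℕ → ℕ → Option ℕ :=
  Nat.rec (fun _ _ => some 0) (fun _ ih X i => fN (Nat.land X mask) fun d =>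
    fN (Nat.shiftRight X kb) fun X' => fN (Nat.succ i) fun i' => cond (Nat.beq d h) (ih X' i')
    (fZ (a + i * xa) fun a => fZ (b + i * xb) fun b => fZ (c + i * xc) fun c =>
      match ubm bs a b c (o + i * xo) with
      | none => none
      | some u => fN ((rowS true kb mask h 1 W1 Lx X i + rowS false kb mask h 1 W1 Lx X i) * u)
        fun s => cond (Nat.ble s thr) (some s)
          (oadd (some (Nat.shiftLeft (d - h + (h - d)) 64 * u)) (ih X' i')))) n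

def rowD (kb mask h W1 thr Y : ℕ) (Lx : List ℕ) (bs : List Bas) (xa xb xc xo a b c o : ℤ) (n : ℕ) :
    ℕ → ℕ → Option ℕ :=
  Nat.rec (fun _ _ => some 0) (fun _ ih p i => fN (Nat.land (Nat.shiftRight Y p) mask) fun d =>
    fN (Nat.add p kb) fun p' => fN (Nat.succ i) fun i' => cond (Nat.beq d h) (ih p' i')
    (fZ (a + i * xa) fun a => fZ (b + i * xb) fun b => fZ (c + i * xc) fun c =>
      match ubm bs a b c (o + i * xo) with
      | none => none
      | some u => fN ((rowP true kb mask h 1 W1 Y Lx p i + rowP false kb mask h 1 W1 Y Lx p i) * u)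
        fun s => cond (Nat.ble s thr) (some s)
          (oadd (some (Nat.shiftLeft (d - h + (h - d)) 64 * u)) (ih p' i')))) n

lemma rowD_eq (kb mask h W1 thr Y : ℕ) (Lx : List ℕ) (bs : List Bas) (xa xb xc xo a b c o : ℤ) :
    ∀ n p i, rowD kb mask h W1 thr Y Lx bs xa xb xc xo a b c o n p i =
      rowC kb mask h W1 thr Lx bs xa xb xc xo a b c o n (Nat.shiftRight Y p) i
  | 0, _, _ => rfl
  | n + 1, p, i => by
    have ih := rowD_eq kb mask h W1 thr Y Lx bs xa xb xc xo a b c o n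
    unfold rowD rowC at *
    simp only [fN_eq, rowP_eq] at ih ⊢
    simp only [ih, shr_add]

def rowB (kb mask h H1 W1 thr : ℕ) (Lx : List ℕ) (bs : List Bas) (xa xb xc xo a b c o : ℤ) (X : ℕ) :
    Option ℕ :=
  cond (Nat.beq X H1) (some 0)
    (fN (salt X) fun Y => rowD kb mask h W1 thr Y Lx bs xa xb xc xo a b c o W1 64 0)

def rowsB (f : ℤ → ℤ → ℤ → ℤ → ℕ → Option ℕ) (b2 b3 : ℕ) (za zb zc zo : ℤ) (X : ℕ) (n : ℕ) :
    ℕ → ℤ → ℤ → ℤ → ℤ → Option ℕ :=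
  Nat.rec (fun _ _ _ _ _ => some 0) (fun _ ih j a b c o => fN j fun j => fZ a fun a => fZ b fun b =>
    fZ c fun c => fZ o fun o => fN (dgt b2 0 (dgt b3 j X)) fun Y =>
    oadd (f a b c o Y) (ih (j + 1) (a + za) (b + zb) (c + zc) (o + zo))) n

def sumB (f : ℤ → ℤ → ℤ → ℤ → ℕ → Option ℕ) (bs : List Bas) (b2 b3 : ℕ)
    (za zb zc zo n1 n2 b c o : ℤ) : List PB → ℤ → Option ℕ
  | [], _ => some 0
  | p :: ps, a => fZ a fun a => fZ (o - p.I * n1 - p.L * n2) fun o' =>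
    oadd (oadd (rowsB f b2 b3 za zb zc zo p.X p.J 0 a b c o')
      (omul (Nat.shiftLeft p.K 64)
        (ubm bs (a + p.J * za) (b + p.J * zb) (c + p.J * zc) (o' + p.J * zo))))
      (sumB f bs b2 b3 za zb zc zo n1 n2 b c o ps (a + 12))

/-- upper value of the whole series, times the monomial `(a, b, c, o)` -/
def totB (c' : Cfg) (thr : ℕ) (bs : List Bas) (ps : List PB) (xa xb xc xo za zb zc zo n1 n2 a b c o : ℤ) :
    Option ℕ :=
  match ubm bs xa xb xc xo with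
  | none => none
  | some β => fL (ptb (Nat.shiftRight β 1974 + 1) c'.W1 (2 ^ 64)) fun Lx =>
    fN c'.kb fun kb => fN (Nat.shiftLeft 1 kb - 1) fun mask => fN c'.h fun h => fN c'.H1 fun H1 =>
    fN c'.W1 fun W1 => fN thr fun thr => fN c'.b2 fun b2 => fN c'.b3 fun b3 =>
    sumB (rowB kb mask h H1 W1 thr Lx bs xa xb xc xo) bs b2 b3 za zb zc zo n1 n2 b c o ps a

variable {c c' : Cfg} {l1 l2 l3 : ℝ}

lemma kok_ok {e : Env c} {dn u J km : ℕ} {k : T} {v : ℝ} (h : Mem e k v)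
    (g : kok dn u J km c k = true) : 0 < dn ∧ |v| * dn ≤ km ∧ ∃ w θ,
      Core c e.x e.y e.z k.N k.M u 0 J w ∧ |θ| ≤ sc c k.K (k.J - J) * e.z ^ J ∧ v * dn = w + θ := by
  simp only [kok, Bool.and_eq_true, decide_eq_true_eq] at g
  obtain ⟨⟨⟨⟨⟨⟨⟨⟨⟨g0, g1⟩, g2⟩, g3⟩, g4⟩, g5⟩, g6⟩, g7⟩, g8⟩, g9⟩ := g
  obtain ⟨h0, w, θ, h1, h2, h3⟩ := h g0
  have h4 := (h.bnd g0).2
  simp only [g1, g2, g3, g4, g5, Env.ld, zpow_zero, one_mul] at h0 h3 h4
  exact ⟨h0, h4.trans (by exact_mod_cast g9), w, θ,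
    h1.weak (Int.ModEq.refl _) le_rfl g7 g8.le g6, h2.trans (sc_le' e _ g6), h3⟩

lemma numB_core {e : Env c} {dn u J km e1 : ℕ} {M : ℝ} {f : ℕ → B3} {g : ℕ → ℝ}
    (hf : ∀ X, (f X).ok = true → Core c e.x e.y e.z (f X).N ((f X).M * M) e1 0 J (g X)) :
    ∀ (ks : List T) (κ : List ℝ) (Xs : List ℕ), ks.all (kok dn u J km c) = true →
    List.Forall₂ (Mem e) ks κ → (numB c (c.b3 * J) J f ks Xs).ok = true →
    ∃ w θ, Core c e.x e.y e.z (numB c (c.b3 * J) J f ks Xs).N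
      ((numB c (c.b3 * J) J f ks Xs).M * M) (u + e1) 0 J w ∧
      |θ| ≤ (numB c (c.b3 * J) J f ks Xs).K * M * e.z ^ J ∧ sK κ Xs g * dn = w + θ
  | [], κ, Xs, _, h, _ => by
    cases h; exact ⟨0, 0, by simpa [numB] using Core.zero, by simp [numB], by simp [sK]⟩
  | _ :: _, κ, [], _, h, _ => by
    cases h; exact ⟨0, 0, by simpa [numB] using Core.zero, by simp [numB], by simp [sK]⟩
  | k :: ks, κ, X :: Xs, h1, h2, h3 => by
    cases h2 with
    | cons a b =>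
    simp only [numB, fN_eq, fB_eq, List.all_cons, Bool.and_eq_true] at h1 h3 ⊢
    obtain ⟨-, -, w, θ, g1, g2, g3⟩ := kok_ok a h1.1
    obtain ⟨w', θ', g4, g5, g6⟩ := numB_core hf ks _ Xs h1.2 b h3.2
    have g7 := hf X h3.1
    have g8 := g7.abs_le e.xp.le e.xl e.yp.le e.yl e.zp.le e.zle
    refine ⟨w * g X + w', θ * g X + θ', ((g1.msk.mul g7).add g4).weak ?_ (le_of_eq ?_) le_rfl
      le_rfl le_rfl, ?_, by simp only [sK]; linear_combination g X * g3 + g6⟩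
    · push_cast
      exact ((msk_mod _ _ _).trans (by push_cast; rfl)).add_right _
    · push_cast; ring
    · have := mul_le_mul g2 g8 (abs_nonneg _) ((abs_nonneg _).trans g2)
      rw [← abs_mul] at this
      have := abs_add_le (θ * g X) θ'
      push_cast
      linarith

/-- the meaning of a prepared block -/
def PB.Ok (e : Env c) (p : PB) (v : ℝ) : Prop :=
  |v - ∑ j ∈ range p.J, e.z ^ j * rS c 0 p.J e.x (dgt c.b2 0 (dgt c.b3 j p.X)) j| ≤ p.K * e.z ^ p.J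

lemma blkB_eq {α : Type} {w0 w1 w2 D n1 d1 n2 d2 M1 u1 M2 u2 u5 dn km : ℕ} {ks : List T}
    {Xs : List ℕ} {j : ℕ} {d : ℕ × ℕ × ℕ} (k : PB → Bool → α) :
    blkB c c' w0 w1 w2 D n1 d1 n2 d2 M1 u1 M2 u2 u5 dn km ks Xs j d k =
    k (blkB c c' w0 w1 w2 D n1 d1 n2 d2 M1 u1 M2 u2 u5 dn km ks Xs j d fun p _ => p)
      (blkB c c' w0 w1 w2 D n1 d1 n2 d2 M1 u1 M2 u2 u5 dn km ks Xs j d fun _ o => o) := by
  simp only [blkB, fN_eq, fL_eq, fB_eq]

lemma blkB_ok {e : Env c'} {w0 w1 w2 D n1 d1 n2 d2 M1 u1 M2 u2 u5 dn km : ℕ} {ks : List T}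
    {Xs : List ℕ} {j : ℕ} {d : ℕ × ℕ × ℕ} {κ : List ℝ} {x y v v' : ℝ} (hW : c'.W2 = 1)
    (h1 : Core c' e.x e.y e.z n1 M1 u1 0 c'.D (x * v)) (h2 : Core c' e.x e.y e.z d1 M1 u1 0 c'.D v)
    (h3 : Core c' e.x e.y e.z n2 M2 u2 0 c'.D (y * v')) (h4 : Core c' e.x e.y e.z d2 M2 u2 0 c'.D v')
    (hk : List.Forall₂ (Mem e) ks κ) {p : PB}
    (hp : p = blkB c c' w0 w1 w2 D n1 d1 n2 d2 M1 u1 M2 u2 u5 dn km ks Xs j d fun p _ => p)
    (o : (blkB c c' w0 w1 w2 D n1 d1 n2 d2 M1 u1 M2 u2 u5 dn km ks Xs j d fun _ o => o) = true) :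
    ks.all (kok dn u5 p.J km c') = true ∧ 1 ≤ c'.kb ∧ p.Ok e (v ^ p.I * v' ^ p.L *
      sK κ Xs (fun X => bS c w1 w2 D x y (dgt c.b3 j X) (w0 * j)) * dn) := by
  simp only [blkB, fN_eq, fL_eq, fB_eq, Bool.and_eq_true, decide_eq_true_eq] at hp o
  obtain ⟨⟨⟨o1, o2⟩, o3⟩, o4⟩ := o
  have wk : ∀ {N : ℤ} {M v : ℝ} {u : ℕ}, Core c' e.x e.y e.z N M u 0 c'.D v →
      Core c' e.x e.y e.z N M u 0 d.2.2 v := fun h =>
    h.weak (Int.ModEq.refl _) le_rfl le_rfl le_rfl o4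
  obtain ⟨w, θ, g1, g2, g3⟩ := numB_core (fun X hX => by
    simpa only [mul_assoc, zero_mul, add_zero] using
      hom_core (wk h1) (wk h2) (wk h3) (wk h4) rfl hX) ks κ Xs o2 hk o1
  generalize numB c' (c'.b3 * d.2.2) d.2.2 _ ks Xs = r at *
  simp only [← mul_assoc, sK_mul] at g3
  have := prp_ok (e := e) (w0 := 1) (w1 := 0) (w2 := 0) (D := d.2.2) (σ := e.z)
    ⟨e.zp.le, e.zl, by simp, by simpa using e.xl, by simpa using e.yl⟩
    (s := ⟨true, 0, 0, 0, 0, 1, r.N, r.M * (M1 ^ d.1 * M2 ^ d.2.1), u5 + (u1 * d.1 + u2 * d.2.1), 0,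
      r.K * (M1 ^ d.1 * M2 ^ d.2.1), d.2.2⟩) (v := w + θ) (by simp)
    (fun _ => ⟨one_pos, w, θ, by simpa using g1, by simpa using g2, by simp [Env.ld]⟩) rfl o3
  subst hp
  refine ⟨o2, (Cfg.fit_ok o3).1, ?_⟩
  simp only [PB.Ok]
  rw [g3]
  simpa [Env.ld, bS, hW] using this

lemma blkBs_eq {α : Type} {w0 w1 w2 D n1 d1 n2 d2 M1 u1 M2 u2 u5 dn km : ℕ} {ks : List T}
    {Xs : List ℕ} : ∀ (ds : List (ℕ × ℕ × ℕ)) (j : ℕ) (k : List PB → Bool → α),
    blkBs c c' w0 w1 w2 D n1 d1 n2 d2 M1 u1 M2 u2 u5 dn km ks Xs ds j k =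
    k (blkBs c c' w0 w1 w2 D n1 d1 n2 d2 M1 u1 M2 u2 u5 dn km ks Xs ds j fun p _ => p)
      (blkBs c c' w0 w1 w2 D n1 d1 n2 d2 M1 u1 M2 u2 u5 dn km ks Xs ds j fun _ o => o)
  | [], _, _ => rfl
  | d :: ds, j, k => by
    simp only [blkBs, fN_eq, fB_eq]
    rw [blkB_eq, blkBs_eq ds, blkB_eq fun p o => blkBs _ _ _ _ _ _ _ _ _ _ _ _ _ _ _ _ _ _ _ _ _
      fun ps _ => p :: ps, blkBs_eq ds _ fun ps _ => _ :: ps,
      blkB_eq fun p o => blkBs _ _ _ _ _ _ _ _ _ _ _ _ _ _ _ _ _ _ _ _ _ fun _ o' => o && o',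
      blkBs_eq ds _ fun _ o' => _ && o']

/-- all blocks from `j` on -/
def Oks (e : Env c) (v v' : ℝ) (φ : ℕ → ℝ) : List PB → ℕ → Prop
  | [], _ => True
  | p :: ps, j => p.Ok e (v ^ p.I * v' ^ p.L * φ j) ∧ Oks e v v' φ ps (j + 1)

lemma blkBs_ok {e : Env c'} {w0 w1 w2 D n1 d1 n2 d2 M1 u1 M2 u2 u5 dn km : ℕ} {ks : List T}
    {Xs : List ℕ} {κ : List ℝ} {x y v v' : ℝ} (hW : c'.W2 = 1)
    (h1 : Core c' e.x e.y e.z n1 M1 u1 0 c'.D (x * v)) (h2 : Core c' e.x e.y e.z d1 M1 u1 0 c'.D v)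
    (h3 : Core c' e.x e.y e.z n2 M2 u2 0 c'.D (y * v')) (h4 : Core c' e.x e.y e.z d2 M2 u2 0 c'.D v')
    (hk : List.Forall₂ (Mem e) ks κ) : ∀ (ds : List (ℕ × ℕ × ℕ)) (j : ℕ),
    (blkBs c c' w0 w1 w2 D n1 d1 n2 d2 M1 u1 M2 u2 u5 dn km ks Xs ds j fun _ o => o) = true →
    (blkBs c c' w0 w1 w2 D n1 d1 n2 d2 M1 u1 M2 u2 u5 dn km ks Xs ds j fun p _ => p).length =
      ds.length ∧
    Oks e v v' (fun j => sK κ Xs (fun X => bS c w1 w2 D x y (dgt c.b3 j X) (w0 * j)) * dn)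
      (blkBs c c' w0 w1 w2 D n1 d1 n2 d2 M1 u1 M2 u2 u5 dn km ks Xs ds j fun p _ => p) j
  | [], _, _ => ⟨rfl, trivial⟩
  | d :: ds, j, o => by
    simp only [blkBs, fN_eq, fB_eq] at o ⊢
    rw [blkB_eq, blkBs_eq ds, Bool.and_eq_true] at o
    rw [blkB_eq, blkBs_eq ds]
    obtain ⟨i1, i2⟩ := blkBs_ok hW h1 h2 h3 h4 hk ds (j + 1) o.2
    exact ⟨by simp [i1], by simpa only [mul_assoc] using (blkB_ok hW h1 h2 h3 h4 hk rfl o.1).2.2, i2⟩

lemma ptb_ok {x : ℝ} {β : ℕ} (hx : 0 ≤ x) (h : x * 2 ^ 64 ≤ β) : ∀ (f a : ℕ) (y : ℝ), 0 ≤ y → y ≤ a →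
    ∀ m < (ptb β f a).length, y * x ^ m ≤ ((ptb β f a).getD m 0 : ℕ)
  | 0, _, _, _, _, m, hm => by simp [ptb] at hm
  | f + 1, a, y, h0, h1, m, hm => by
    simp only [ptb, fN_eq] at hm ⊢
    cases m with
    | zero => simpa using h1
    | succ m =>
      have := ptb_ok hx h f (Nat.shiftRight (a * β) 64 + 1) (y * x) (by positivity) (by
        have g1 : a * β < (a * β / 2 ^ 64 + 1) * 2 ^ 64 := by
          have := Nat.div_add_mod (a * β) (2 ^ 64)
          have := Nat.mod_lt (a * β) (show 0 < 2 ^ 64 by positivity)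
          omega
        have g2 : (a * β : ℝ) < (a * β / 2 ^ 64 + 1 : ℕ) * 2 ^ 64 := by exact_mod_cast g1
        have g3 := mul_le_mul h1 h (by positivity) (Nat.cast_nonneg a)
        rw [shr_eq]
        refine le_of_mul_le_mul_right (a := 2 ^ 64) ?_ (by positivity)
        linarith) m (by simpa using hm)
      simpa [pow_succ', mul_assoc] using this

lemma oadd_eq {x y : Option ℕ} {r : ℕ} (h : oadd x y = some r) :
    ∃ a b, x = some a ∧ y = some b ∧ r = a + b := by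
  cases x <;> cases y <;> simp [oadd, fN_eq] at h ⊢
  exact h.symm

lemma omul_eq {m : ℕ} {x : Option ℕ} {r : ℕ} (h : omul m x = some r) :
    ∃ a, x = some a ∧ r = m * a := by
  cases x <;> simp [omul] at h ⊢
  exact h.symm

lemma Val.ubm {bs : List Bas} (h : Val l1 l2 l3 bs) {a b c o : ℤ} {r : ℕ}
    (g : ubm bs a b c o = some r) : E2 (a * l1 + b * l2 + c * l3 + o) * SC ≤ r := by
  unfold TM.ubm at g
  split at g
  · cases g
  · rename_i n e
    rw [fN_eq] at g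
    cases e2 : Nat.beq (up2 (n + o)) 0
    · rw [e2, cond_false] at g
      cases g
      refine le_trans (mul_le_mul_of_nonneg_right (E2_le ?_) SC_pos.le)
        (up2_le (Nat.ne_of_beq_eq_false e2))
      have := h _ _ _ _ e; push_cast; linarith
    · rw [e2, cond_true] at g; cases g

lemma rowS_sum (sg : Bool) (kb h w D : ℕ) : ∀ (L : List ℕ) (X wt : ℕ),
    rowS sg kb (Nat.shiftLeft 1 kb - 1) h w D L X wt =
      ∑ m ∈ range L.length, prt sg h (dgt kb m X) * if wt + w * m < D then L.getD m 0 else 0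
  | [], X, wt => by simp [rowS]
  | t :: L, X, wt => by
    rw [rowS_cons]
    split_ifs with g
    · rw [rowS_sum sg kb h w D L, List.length_cons, sum_range_succ', add_comm]
      simp only [dgt_succ, mul_zero, add_zero, if_pos g, mul_add, mul_one, ← add_assoc,
        add_right_comm wt _ w, List.getD_cons_succ, List.getD_cons_zero]
    · rw [sum_eq_zero fun m _ => by rw [if_neg (by omega), mul_zero]]

lemma ptb_len (β : ℕ) : ∀ f a, (ptb β f a).length = f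
  | 0, _ => rfl
  | f + 1, a => by simp only [ptb, fN_eq, List.length_cons, ptb_len β f]

lemma prt_abs (h d : ℕ) : ((d - h + (h - d) : ℕ) : ℝ) = |(d : ℝ) - h| := by
  have : ((d - h + (h - d) : ℕ) : ℤ) = |(d : ℤ) - h| := by
    rcases abs_cases ((d : ℤ) - h) with g | g <;> omega
  exact_mod_cast this

lemma rowC_succ (kb h W1 thr : ℕ) (Lx : List ℕ) (bs : List Bas) (xa xb xc xo a b c o : ℤ)
    (n X i : ℕ) : rowC kb (Nat.shiftLeft 1 kb - 1) h W1 thr Lx bs xa xb xc xo a b c o (n + 1) X i =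
    fN (msk kb X) fun d =>
    fN (Nat.shiftRight X kb) fun X' => fN (i + 1) fun i' => cond (Nat.beq d h)
    (rowC kb (Nat.shiftLeft 1 kb - 1) h W1 thr Lx bs xa xb xc xo a b c o n X' i')
    (fZ (a + i * xa) fun a' => fZ (b + i * xb) fun b' => fZ (c + i * xc) fun c' =>
      match ubm bs a' b' c' (o + i * xo) with
      | none => none
      | some u => fN ((rowS true kb (Nat.shiftLeft 1 kb - 1) h 1 W1 Lx X i +
        rowS false kb (Nat.shiftLeft 1 kb - 1) h 1 W1 Lx X i) * u)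
        fun s => cond (Nat.ble s thr) (some s)
          (oadd (some (Nat.shiftLeft (d - h + (h - d)) 64 * u))
            (rowC kb (Nat.shiftLeft 1 kb - 1) h W1 thr Lx bs xa xb xc xo a b c o n X' i'))) := rfl

lemma Val.rowC {bs : List Bas} (h : Val l1 l2 l3 bs) {Lx : List ℕ} {x : ℝ} {kb k W thr : ℕ}
    {xa xb xc xo a b d o : ℤ} (hx : x = E2 (xa * l1 + xb * l2 + xc * l3 + xo)) (hW : Lx.length = W)
    (hL : ∀ m < Lx.length, 2 ^ 64 * x ^ m ≤ (Lx.getD m 0 : ℕ)) : ∀ n X i r, i + n = W →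
    rowC kb (Nat.shiftLeft 1 kb - 1) k W thr Lx bs xa xb xc xo a b d o n X i = some r →
    (∑ m ∈ range n, |(dgt kb m X : ℝ) - k| * x ^ m) * x ^ i *
      E2 (a * l1 + b * l2 + d * l3 + o) * (2 ^ 64 * SC) ≤ r
  | 0, _, _, r, _, _ => by simp
  | n + 1, X, i, r, e, g => by
    have ih := fun r => h.rowC (kb := kb) (k := k) (thr := thr) (a := a) (b := b) (d := d) (o := o)
      hx hW hL n (Nat.shiftRight X kb) (i + 1) r (by omega)
    rw [rowC_succ] at g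
    simp only [fN_eq, fZ_eq, Bool.cond_eq_ite, Nat.beq_eq, Nat.ble_eq] at g
    have x0 : 0 < x := hx ▸ E2_pos _
    have p1 := E2_pos (a * l1 + b * l2 + d * l3 + o)
    have p2 := SC_pos
    have e0 : ∑ m ∈ range (n + 1), |(dgt kb m X : ℝ) - k| * x ^ m = |(msk kb X : ℝ) - k| +
        (∑ m ∈ range n, |(dgt kb m (Nat.shiftRight X kb) : ℝ) - k| * x ^ m) * x := by
      rw [sum_range_succ', add_comm, sum_mul]
      simp only [dgt_succ, dgt_zero, pow_zero, mul_one, pow_succ, mul_assoc]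
    split_ifs at g with g1
    · have := ih _ g
      rw [e0, g1, sub_self, abs_zero, zero_add]
      rw [pow_succ] at this
      linarith
    split at g
    · cases g
    rename_i u g7
    have g8 := h.ubm g7
    have e1 : E2 (((a + i * xa : ℤ) : ℝ) * l1 + (b + i * xb : ℤ) * l2 + (d + i * xc : ℤ) * l3 +
        (o + i * xo : ℤ)) = x ^ i * E2 (a * l1 + b * l2 + d * l3 + o) := by
      rw [hx, E2_pow, ← E2_add]; congr 1; push_cast; ring
    rw [e1] at g8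
    split_ifs at g with g2
    · cases g
      have key : (∑ m ∈ range (n + 1), |(dgt kb m X : ℝ) - k| * x ^ m) * 2 ^ 64 ≤
          (rowS true kb (Nat.shiftLeft 1 kb - 1) k 1 W Lx X i +
            rowS false kb (Nat.shiftLeft 1 kb - 1) k 1 W Lx X i : ℕ) := by
        rw [rowS_sum, rowS_sum, ← sum_add_distrib, Nat.cast_sum, sum_mul]
        refine le_trans (sum_le_sum fun m hm => ?_) (sum_le_sum_of_subset_of_nonneg
          (range_subset_range.2 (show n + 1 ≤ Lx.length by omega)) fun _ _ _ => by positivity)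
        have hm' := mem_range.1 hm
        rw [if_pos (by omega), ← add_mul, Nat.cast_mul]
        simp only [prt, cond_true, cond_false, prt_abs]
        have := mul_le_mul_of_nonneg_left (hL m (by omega)) (abs_nonneg ((dgt kb m X : ℝ) - k))
        linarith
      have := mul_le_mul key g8 (by positivity) (Nat.cast_nonneg _)
      rw [Nat.cast_mul]
      linarith
    · obtain ⟨_, r2, ⟨⟩, g3, rfl⟩ := oadd_eq g
      have := ih _ g3
      have g4 := mul_le_mul_of_nonneg_left g8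
        (by positivity : 0 ≤ |(msk kb X : ℝ) - k| * 2 ^ 64)
      rw [e0, shl_eq, Nat.cast_add, Nat.cast_mul, Nat.cast_mul, prt_abs]
      rw [pow_succ] at this
      push_cast
      linarith

lemma Val.rowB {bs : List Bas} (h : Val l1 l2 l3 bs) (hk : 1 ≤ c.kb) {Lx : List ℕ} {x : ℝ}
    {xa xb xc xo a b d o : ℤ} {X r j J thr : ℕ} (hx : x = E2 (xa * l1 + xb * l2 + xc * l3 + xo))
    (hW : Lx.length = c.W1) (hL : ∀ m < Lx.length, 2 ^ 64 * x ^ m ≤ (Lx.getD m 0 : ℕ))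
    (g : rowB c.kb (Nat.shiftLeft 1 c.kb - 1) c.h c.H1 c.W1 thr Lx bs xa xb xc xo a b d o X = some r) :
    |rS c 0 J x X j| * E2 (a * l1 + b * l2 + d * l3 + o) * (2 ^ 64 * SC) ≤ r := by
  simp only [TM.rowB, Bool.cond_eq_ite, Nat.beq_eq, fN_eq, rowD_eq, salt_shr] at g
  split_ifs at g with g1
  · rw [g1, rS_H1 hk]; simp
  have x0 : 0 < x := hx ▸ E2_pos _
  have p1 := E2_pos (a * l1 + b * l2 + d * l3 + o)
  have p2 := SC_pos
  refine le_trans ?_ (h.rowC hx hW hL _ _ _ _ (zero_add _) g)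
  rw [pow_zero, mul_one]
  gcongr
  refine (abs_sum_le_sum_abs _ _).trans (sum_le_sum fun m _ => ?_)
  rw [abs_mul]
  refine mul_le_mul_of_nonneg_left ?_ (abs_nonneg _)
  split_ifs
  · rw [abs_of_pos (pow_pos x0 m)]
  · simp only [abs_zero]; positivity

lemma rowsB_ok {f : ℤ → ℤ → ℤ → ℤ → ℕ → Option ℕ} {R : ℕ → ℕ → ℝ} {S z : ℝ} {b2 b3 X : ℕ}
    {za zb zc zo : ℤ} (hz : z = E2 (za * l1 + zb * l2 + zc * l3 + zo))
    (hf : ∀ (a b c o : ℤ) X r j, f a b c o X = some r →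
      |R X j| * E2 (a * l1 + b * l2 + c * l3 + o) * S ≤ r) :
    ∀ (n j : ℕ) (a b c o : ℤ) (r : ℕ), rowsB f b2 b3 za zb zc zo X n j a b c o = some r →
      (∑ i ∈ range n, z ^ i * |R (dgt b2 0 (dgt b3 (j + i) X)) (j + i)|) *
        E2 (a * l1 + b * l2 + c * l3 + o) * S ≤ r
  | 0, _, _, _, _, _, r, _ => by simp
  | n + 1, j, a, b, c, o, r, g => by
    have g' : oadd (f a b c o (dgt b2 0 (dgt b3 j X)))
        (rowsB f b2 b3 za zb zc zo X n (j + 1) (a + za) (b + zb) (c + zc) (o + zo)) = some r := by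
      simpa only [rowsB, fN_eq, fZ_eq] using g
    obtain ⟨r1, r2, g1, g2, rfl⟩ := oadd_eq g'
    have h1 := hf _ _ _ _ _ _ j g1
    have h2 := rowsB_ok hz hf n _ _ _ _ _ _ g2
    have e1 : E2 (((a + za : ℤ) : ℝ) * l1 + (b + zb : ℤ) * l2 + (c + zc : ℤ) * l3 + (o + zo : ℤ)) =
        z * E2 (a * l1 + b * l2 + c * l3 + o) := by
      rw [hz, ← E2_add]; congr 1; push_cast; ring
    rw [e1] at h2
    generalize E2 (a * l1 + b * l2 + c * l3 + o) = A at h1 h2 ⊢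
    rw [sum_range_succ']
    simp only [pow_succ, mul_right_comm _ z, ← sum_mul, add_assoc, add_comm 1] at h2 ⊢
    simp only [pow_zero, one_mul, add_zero]
    push_cast
    linarith

lemma sumB_ok {e : Env c} {f : ℤ → ℤ → ℤ → ℤ → ℕ → Option ℕ} {bs : List Bas} (h : Val l1 l2 l3 bs)
    {za zb zc zo n1 n2 b d o : ℤ} {v v' : ℝ} {φ : ℕ → ℝ}
    (hz : e.z = E2 (za * l1 + zb * l2 + zc * l3 + zo)) (h1 : E2 n1 ≤ v) (h2 : E2 n2 ≤ v')
    (hf : ∀ (a b d o : ℤ) X r j J, f a b d o X = some r →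
      |rS c 0 J e.x X j| * E2 (a * l1 + b * l2 + d * l3 + o) * (2 ^ 64 * SC) ≤ r) :
    ∀ (ps : List PB) (j : ℕ) (a : ℤ) (r : ℕ), Oks e v v' φ ps j →
      sumB f bs c.b2 c.b3 za zb zc zo n1 n2 b d o ps a = some r →
      (∑ i ∈ range ps.length, E2 (12 * l1) ^ i * |φ (j + i)|) *
        E2 (a * l1 + b * l2 + d * l3 + o) * (2 ^ 64 * SC) ≤ r
  | [], _, _, r, _, _ => by simp
  | p :: ps, j, a, r, s, g => by
    simp only [sumB, fZ_eq] at g
    obtain ⟨r12, r3, ga, g3, rfl⟩ := oadd_eq g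
    obtain ⟨r1, r2', g1, gb, rfl⟩ := oadd_eq ga
    obtain ⟨r2, g2, rfl⟩ := omul_eq gb
    have i1 := rowsB_ok (R := fun X j => rS c 0 p.J e.x X j) hz (fun a b d o X r j => hf a b d o X r j _)
      _ _ _ _ _ _ _ g1
    have i2 := h.ubm g2
    have i3 := sumB_ok h hz h1 h2 hf ps (j + 1) _ _ s.2 g3
    have e1 : E2 (((a + 12 : ℤ) : ℝ) * l1 + b * l2 + d * l3 + o) =
        E2 (12 * l1) * E2 (a * l1 + b * l2 + d * l3 + o) := by
      rw [← E2_add]; congr 1; push_cast; ring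
    have e2 : E2 (((a + p.J * za : ℤ) : ℝ) * l1 + (b + p.J * zb : ℤ) * l2 + (d + p.J * zc : ℤ) * l3 +
        (o - p.I * n1 - p.L * n2 + p.J * zo : ℤ)) = e.z ^ p.J *
        E2 (a * l1 + b * l2 + d * l3 + (o - p.I * n1 - p.L * n2 : ℤ)) := by
      rw [hz, E2_pow, ← E2_add]; congr 1; push_cast; ring
    have e3 : E2 (a * l1 + b * l2 + d * l3 + o) = E2 n1 ^ p.I * E2 n2 ^ p.L *
        E2 (a * l1 + b * l2 + d * l3 + (o - p.I * n1 - p.L * n2 : ℤ)) := by
      rw [E2_pow, E2_pow, ← E2_add, ← E2_add]; congr 1; push_cast; ring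
    rw [e1, e3] at i3
    rw [e2] at i2
    rw [e3]
    clear e1 e2 e3 ga gb g1 g2 g3 g
    generalize hA : E2 (a * l1 + b * l2 + d * l3 + (o - p.I * n1 - p.L * n2 : ℤ)) = A at *
    have pA : 0 < A := hA ▸ E2_pos _
    have p1 := E2_pos n1
    have p2 := E2_pos n2
    have p3 := SC_pos
    have i4 : E2 n1 ^ p.I * E2 n2 ^ p.L * |φ j| ≤
        ∑ i ∈ range p.J, e.z ^ i * |rS c 0 p.J e.x (dgt c.b2 0 (dgt c.b3 i p.X)) i| +
        p.K * e.z ^ p.J := by
      have b1 : |∑ i ∈ range p.J, e.z ^ i * rS c 0 p.J e.x (dgt c.b2 0 (dgt c.b3 i p.X)) i| ≤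
          ∑ i ∈ range p.J, e.z ^ i * |rS c 0 p.J e.x (dgt c.b2 0 (dgt c.b3 i p.X)) i| := by
        refine (abs_sum_le_sum_abs _ _).trans (le_of_eq (sum_congr rfl fun i _ => ?_))
        rw [abs_mul, abs_of_pos (pow_pos e.zp i)]
      have b2 := abs_sub_abs_le_abs_sub (v ^ p.I * v' ^ p.L * φ j)
        (∑ i ∈ range p.J, e.z ^ i * rS c 0 p.J e.x (dgt c.b2 0 (dgt c.b3 i p.X)) i)
      have b3 : E2 n1 ^ p.I * E2 n2 ^ p.L * |φ j| ≤ |v ^ p.I * v' ^ p.L * φ j| := by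
        have := p1.trans_le h1
        have := p2.trans_le h2
        rw [abs_mul, abs_of_pos (by positivity : 0 < v ^ p.I * v' ^ p.L)]
        gcongr
      have b4 : _ ≤ _ := s.1
      linarith
    have i5 := mul_le_mul_of_nonneg_right i4 (by positivity : 0 ≤ A * (2 ^ 64 * SC))
    have i6 := mul_le_mul_of_nonneg_left i2 (by positivity : (0 : ℝ) ≤ p.K * 2 ^ 64)
    rw [List.length_cons, sum_range_succ']
    simp only [pow_succ, mul_right_comm _ (E2 (12 * l1)), ← sum_mul, add_assoc, add_comm 1,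
      zero_add] at i1 i3 ⊢
    simp only [pow_zero, one_mul, add_zero, shl_eq]
    push_cast
    linarith

theorem totB_ok {e : Env c} {bs : List Bas} (h : Val l1 l2 l3 bs) (hk : 1 ≤ c.kb) {ps : List PB}
    {xa xb xc xo za zb zc zo n1 n2 a b d o : ℤ} {v v' : ℝ} {φ : ℕ → ℝ} {r thr : ℕ}
    (hx : e.x = E2 (xa * l1 + xb * l2 + xc * l3 + xo))
    (hz : e.z = E2 (za * l1 + zb * l2 + zc * l3 + zo)) (h1 : E2 n1 ≤ v) (h2 : E2 n2 ≤ v')
    (s : Oks e v v' φ ps 0) (g : totB c thr bs ps xa xb xc xo za zb zc zo n1 n2 a b d o = some r) :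
    (∑ i ∈ range ps.length, E2 (12 * l1) ^ i * |φ i|) * E2 (a * l1 + b * l2 + d * l3 + o) *
      (2 ^ 64 * SC) ≤ r := by
  unfold totB at g
  split at g
  · cases g
  · rename_i β hβ
    simp only [fN_eq, fL_eq] at g
    have b1 := h.ubm hβ
    rw [← hx] at b1
    have b2 : e.x * 2 ^ 64 ≤ (Nat.shiftRight β 1974 + 1 : ℕ) := by
      have g1 : β < (β / 2 ^ 1974 + 1) * 2 ^ 1974 := by
        have h1 := Nat.div_add_mod β (2 ^ 1974)
        have h2 := Nat.mod_lt β (show 0 < 2 ^ 1974 from pow_pos two_pos _)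
        generalize 2 ^ 1974 = P at *
        rw [add_mul, mul_comm]; omega
      have g2 := (Nat.cast_lt (α := ℝ)).2 g1
      rw [Nat.cast_mul, Nat.cast_pow, Nat.cast_ofNat] at g2
      rw [shr_eq]
      refine le_of_mul_le_mul_right (a := 2 ^ 1974) ?_ (pow_pos two_pos _)
      rw [mul_assoc, ← pow_add]
      exact b1.trans g2.le
    simpa using sumB_ok h hz h1 h2 (fun a b d o X r j J g => h.rowB hk hx (ptb_len _ _ _)
      (ptb_ok e.xp.le b2 _ _ _ (by positivity) (by norm_num)) g) ps 0 a r s g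

end Pool.Agent.Lib.MP_b2ee0b_nt.TM
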