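import Pool.Agent.Lib.MP_b2ee0b_nt.TMg

/-! Series for the entries of a triple and for the torsion quantities. -/

set_option autoImplicit false

namespace Pool.Agent.Lib.MP_b2ee0b_nt.TM

open Finset

def rsl (c : Cfg) (b J X d1 d2 : ℕ) : ℕ → ℕ → B3
  | 0, _ => ⟨0, 0, true⟩
  | n + 1, j => fN j fun j => fL (tab b (Nat.shiftLeft 1 c.kb) 1 ((d1 + c.s1 * j) / c.t1)) fun L1 =>
    fL (L1.map fun _ => 1) fun O1 => fL (tab b (Nat.shiftLeft 1 c.b2) 1 (d2 + c.s2 * j)) fun L2 =>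
    match hom c b 1 0 0 J L1 O1 L2 j X, rsl c b J X d1 d2 n (j + 1) with
    | ⟨N, M, o⟩, ⟨N', M', o'⟩ => fN (msk b (N + Nat.shiftLeft N' c.b3)) fun N =>
      fN (M + cdv M' c.E) fun M => fB (o && o') fun o => ⟨N, M, o⟩

/-- the norm, read off from the digits -/
def rsc (c : Cfg) (t : T) : T :=
  fN t.J fun J => fN (t.N + c.H3 J) fun X => fN (c.b3 * J) fun b =>
  match rsl c b J X t.d1 t.d2 J 0 with
  | ⟨N, M, o⟩ => mkT (t.ok && o && c.fit t.M t.d1 t.d2 J) t.n t.m1 t.m2 t.l t.dn N M t.d1 t.d2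
    (t.M * c.E ^ J + t.K) J

def gd (b : Bool) (t : T) : T := mkT (b && t.ok) t.n t.m1 t.m2 t.l t.dn t.N t.M t.d1 t.d2 t.K t.J

inductive Ex
  | v (i : ℕ)
  | k (a : ℤ)
  | m (n m1 m2 : ℤ)
  | a (x y : Ex)
  | p (x y : Ex)
  | s (a : ℤ) (x : Ex)
  | h (x : Ex)
  | n (j : ℕ) (x : Ex)
  | q (x : Ex)

def Ex.t (c : Cfg) (r : List T) : Ex → T
  | .v i => r.getD i bad
  | .k b => cst c b
  | .m i m1 m2 => mon c i m1 m2 0
  | .a x y => frc (x.t c r) fun u => frc (y.t c r) fun w => add c u w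
  | .p x y => frc (x.t c r) fun u => frc (y.t c r) fun w => mul c u w
  | .s b x => frc (x.t c r) fun u => smul c b u
  | .h x => frc (x.t c r) fun u => dv 2 u
  | .n j x => frc (x.t c r) fun u => nrm c j u
  | .q x => frc (x.t c r) fun u => rsc c u

noncomputable def Ex.r {c : Cfg} (e : Env c) (r : List ℝ) : Ex → ℝ
  | .v i => r.getD i 0
  | .k b => b
  | .m i m1 m2 => e.ld i m1 m2 0
  | .a x y => x.r e r + y.r e r
  | .p x y => x.r e r * y.r e r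
  | .s b x => b * x.r e r
  | .h x => x.r e r / (2 : ℕ)
  | .n _ x => x.r e r
  | .q x => x.r e r

def stg {α : Type} (c : Cfg) (r : List T) : List Ex → (List T → α) → α
  | [], k => k []
  | x :: xs, k => frc (x.t c r) fun t => stg c r xs fun ts => k (t :: ts)

def hor (c : Cfg) (x : T) : List ℕ → T
  | [] => cst c 0
  | a :: l => frc (hor c x l) fun t => frc (mul c x t) fun t => frc (cst c a) fun s => add c s t

def horV (x : ℝ) : List ℕ → ℝ
  | [] => 0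
  | a :: l => a + x * horV x l

def cbs : ℕ → ℕ → ℕ → List ℕ
  | 0, _, _ => []
  | f + 1, n, a => fN (a * (4 * n + 2) / (n + 1)) fun b => a :: cbs f (n + 1) b

def isq (c : Cfg) (j : ℕ) (p f : T) : T :=
  frc (rsc c p) fun p => frc (ex p) fun p =>
  frc (mul c p p) fun s => frc (mul c s f) fun s => frc (cst c (-1)) fun o =>
  frc (add c s o) fun s => frc (add c p o) fun u => frc (nrm c j u) fun u =>
  frc (res c p s 0 0 0 0 1 2) fun w => gd (sml c 1 u) w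

def xs0 : List Ex := [.m 2 0 0, .m 2 2 0, .m 2 0 2, .a (.k 1) (.s (-4) (.m 2 0 0)),
  .a (.k 1) (.s (-4) (.m 2 2 0)), .a (.k 1) (.s (-4) (.m 2 0 2))]
def xs1 : List Ex := [.q (.p (.m (-1) (-1) 1) (.p (.p (.v 0) (.v 4)) (.v 5))),
  .q (.p (.m (-1) 1 (-1)) (.p (.p (.v 0) (.v 4)) (.v 6))),
  .q (.p (.m (-1) (-1) (-1)) (.p (.p (.v 0) (.v 5)) (.v 6))), .m (-1) 0 0, .m (-1) (-1) 0, .m (-1) 0 (-1),
  .p (.m (-3) (-1) (-1)) (.h (.a (.p (.p (.p (.v 0) (.v 4)) (.v 5)) (.v 6)) (.k (-1))))]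
def xs2 : List Ex := [.v 0, .v 1, .v 2, .v 3, .v 4, .v 5,
  .q (.n 2 (.a (.a (.a (.v 0) (.v 1)) (.v 2)) (.v 6))),
  .q (.n 1 (.h (.a (.p (.v 3) (.v 4)) (.s (-1) (.p (.v 0) (.v 5)))))),
  .q (.n 1 (.h (.a (.p (.v 3) (.v 5)) (.s (-1) (.p (.v 1) (.v 4))))))]
def xs3 : List Ex := [.v 0, .v 1, .v 2, .v 3, .v 4, .v 5, .v 6, .v 7, .v 8,
  .q (.h (.a (.p (.v 7) (.v 8)) (.s (-1) (.p (.v 6) (.v 3))))),
  .a (.p (.v 7) (.v 3)) (.s (-1) (.v 4)), .a (.v 5) (.s (-1) (.p (.v 3) (.v 8))),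
  .q (.a (.a (.s 2 (.a (.a (.v 0) (.v 1)) (.v 6))) (.p (.p (.v 0) (.v 1)) (.v 6))) (.s (-1) (.v 2)))]

/-- series for `a b c r s t d ρ y θ` and three more -/
def atoms {α : Type} (c : Cfg) (k : List T → α) : α :=
  stg c [] xs0 fun r => fL (cbs c.D 0 1) fun l =>
  frc (hor c (r.getD 0 bad) l) fun h1 => frc (hor c (r.getD 1 bad) l) fun h2 =>
  frc (hor c (r.getD 2 bad) l) fun h3 => frc (mul c h1 h2) fun p => frc (mul c p h3) fun p =>
  frc (Ex.t c r (.p (.p (.v 3) (.v 4)) (.v 5))) fun f => frc (isq c 1 p f) fun w =>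
  stg c (w :: r) xs1 fun r => stg c r xs2 fun r => stg c r xs3 k

def ys0 (h g pe pq : ℕ) : List Ex := [.s (2 ^ pe) (.m h 0 0), .s (2 ^ pq) (.m g 1 0)]
def ys1 : List Ex := [.s 2 (.v 0), .s 2 (.v 1), .s 4 (.p (.v 0) (.v 1)),
  .p (.v 0) (.a (.p (.v 0) (.a (.a (.k 3) (.s (-4) (.v 0))) (.s 3 (.p (.v 1) (.v 1)))))
    (.p (.v 1) (.a (.a (.k 1) (.s 8 (.v 0))) (.s (-2) (.p (.v 0) (.v 0))))))]
def ys2 : List Ex := [.v 0, .v 1, .v 3, .a (.k 1) (.s (-4) (.v 3)),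
  .a (.a (.k 1) (.s (-1) (.v 0))) (.s (-1) (.v 2)), .a (.a (.k 1) (.s (-1) (.v 0))) (.v 1),
  .a (.k 3) (.v 1), .a (.a (.k 2) (.s 4 (.v 0))) (.v 2), .v 2,
  .a (.a (.a (.k 2) (.s (-4) (.v 0))) (.s 2 (.p (.v 0) (.v 0)))) (.s (-3) (.v 2)),
  .p (.v 0) (.v 0), .p (.v 1) (.v 1)]
def ys3 : List Ex := [.v 1, .v 2, .q (.s 2 (.p (.v 0) (.v 4))), .v 10, .v 8, .v 7,
  .p (.v 5) (.v 8), .p (.v 6) (.v 7), .v 11, .p (.v 7) (.v 7), .v 6,
  .a (.k 4) (.a (.a (.s (-6) (.v 1)) (.s 9 (.v 2))) (.a (.a (.s (-6) (.v 9)) (.s 6 (.v 12)))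
    (.a (.p (.v 11) (.a (.s 2 (.v 1)) (.s (-3) (.v 2)))) (.p (.v 2) (.v 12))))),
  .a (.k 2) (.a (.a (.s (-3) (.v 9)) (.s (-6) (.v 11)))
    (.a (.p (.v 1) (.a (.s (-6) (.v 9)) (.s 4 (.v 11)))) (.p (.v 9) (.a (.s 9 (.v 11))
      (.p (.v 9) (.a (.s 6 (.v 1)) (.v 9)))))))]
def ys4 : List Ex := [.p (.v 1) (.v 9), .v 11, .p (.p (.v 0) (.v 8)) (.p (.v 1) (.v 9)), .v 12,
  .s 2 (.p (.v 0) (.p (.v 6) (.v 7))), .s 2 (.p (.p (.v 0) (.v 7)) (.v 2)),
  .s 2 (.p (.p (.v 8) (.v 7)) (.v 2)), .s 2 (.p (.p (.p (.v 0) (.v 8)) (.v 7)) (.v 2)),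
  .p (.p (.p (.v 8) (.v 1)) (.v 7)) (.v 2), .p (.p (.v 6) (.v 5)) (.v 2),
  .p (.p (.v 6) (.v 10)) (.v 2), .p (.p (.p (.v 8) (.v 1)) (.v 9)) (.v 2),
  .p (.p (.p (.v 0) (.v 3)) (.v 4)) (.v 7), .p (.p (.v 3) (.v 6)) (.v 5),
  .p (.p (.v 3) (.v 6)) (.v 10), .p (.p (.p (.v 8) (.v 1)) (.v 4)) (.v 9)]

/-- series for the two quotients and the twelve numerators -/
def kaps {α : Type} (c : Cfg) (h g pe pq nh : ℕ) (k : List T → α) : α :=
  stg c [] (ys0 h g pe pq) fun r => stg c r ys1 fun r => stg c r ys2 fun r =>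
  fL (cbs nh 0 1) fun l => frc (hor c (r.getD 2 bad) l) fun p =>
  frc (isq c 2 p (r.getD 3 bad)) fun w => stg c (w :: r) ys3 fun r => stg c r ys4 k

def D1 (e q : ℝ) : ℝ := 1 - e - e * q
def D2 (e q : ℝ) : ℝ := 1 - e + q
def D3 (q : ℝ) : ℝ := 3 + q
def A0 (e q : ℝ) : ℝ := 2 + 4 * e + e * q
def A1 (e q : ℝ) : ℝ := 4 + 2 * e + q
def N0 (e q : ℝ) : ℝ := 2 - 4 * e + 2 * e ^ 2 - 3 * (e * q)
def Dk (e q : ℝ) : ℝ := 2 * e * D1 e q * A0 e q * D2 e q * D3 q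

def kap (e q Θ : ℝ) : List ℝ := [Dk e q, 2 * e * Θ * D2 e q * D3 q, 2 * e ^ 2 * Θ * D2 e q * D3 q,
  2 * e ^ 3 * Θ * D2 e q * D3 q, e ^ 2 * q * Θ * D2 e q * D3 q, Θ * D1 e q * A0 e q * D3 q,
  Θ * D1 e q * A0 e q * D2 e q, e ^ 2 * q * Θ * D3 q ^ 2, e * N0 e q * A0 e q * D2 e q * D3 q,
  N0 e q * D1 e q * A0 e q * D3 q, N0 e q * D1 e q * A0 e q * D2 e q, e ^ 2 * q * A0 e q * D3 q ^ 2]

variable {c : Cfg} {e : Env c}

lemma rsl_core {J X d1 d2 : ℕ} : ∀ n j, (rsl c (c.b3 * J) J X d1 d2 n j).ok = true →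
    Core c e.x e.y e.z (rsl c (c.b3 * J) J X d1 d2 n j).N (rsl c (c.b3 * J) J X d1 d2 n j).M
      (d1 + c.s1 * j) (d2 + c.s2 * j) J
      (∑ i ∈ range n, e.z ^ i * bS c 0 0 J e.x e.y (dgt c.b3 (j + i) X) (1 * (j + i)))
  | 0, j, _ => by simpa [rsl] using Core.zero
  | n + 1, j, o => by
    simp only [rsl, fN_eq, fL_eq, fB_eq, Bool.and_eq_true] at o ⊢
    have c0 : ∀ u w, Core c e.x e.y e.z (1 : ℕ) 1 u w J 1 := fun u w => by
      simpa using (Core.cst 1).weak (Int.ModEq.refl _) le_rfl (Nat.zero_le u) (Nat.zero_le w) le_rfl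
    have g1 := hom_core (x := e.x) (y := e.y) (z := e.z) (u := e.x) (v := e.y) (M := 1) (M' := 1)
      (e1 := c.t1) (e2 := 0) (e1' := 0) (e2' := 1)
      (by rw [shl_eq]
          simpa using Core.one (c := c) (x := e.x) (y := e.y) (z := e.z) (J := J) 1 1 0)
      (c0 _ _)
      (by rw [shl_eq]
          simpa using Core.one (c := c) (x := e.x) (y := e.y) (z := e.z) (J := J) 1 0 1)
      (c0 _ _) rfl o.1
    have g2 := (rsl_core n (j + 1) o.2).shz 1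
    generalize hom c _ _ _ _ _ _ _ _ _ _ = r at g1
    generalize rsl c _ _ _ _ _ _ _ = r' at g2
    have g3 := (g1.weak (d1' := d1 + c.s1 * j) (d2' := d2 + c.s2 * j) (Int.ModEq.refl _) le_rfl
      (by simpa using Nat.mul_div_le (d1 + c.s1 * j) c.t1) (by simp) le_rfl).add
      (g2.weak (Int.ModEq.refl _) le_rfl (by rw [mul_add]; omega) (by rw [mul_add]; omega)
        (Nat.le_succ J))
    have g4 := g3.weak (N' := (msk (c.b3 * J) (r.N + Nat.shiftLeft r'.N c.b3) : ℕ))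
      (M' := (r.M + cdv r'.M c.E : ℕ)) ((msk_mod _ _ _).trans (by rw [shl_eq]; simp))
      (by simpa using cdv_le _ e.E1) le_rfl le_rfl le_rfl
    convert g4 using 1
    rw [sum_range_succ', add_comm, mul_sum]
    simp only [one_pow, one_mul, pow_zero, add_zero, pow_succ, add_assoc, add_comm 1,
      mul_comm e.z, mul_right_comm _ e.z]

lemma Mem.rsc {t : T} {v : ℝ} (h : Mem e t v) : Mem e (rsc c t) v := by
  simp only [TM.rsc, fN_eq, mkT_eq]
  intro g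
  simp only [Bool.and_eq_true] at g
  have g1 := rsl_core (e := e) _ _ g.1.2
  have g2 := prp_ok (w0 := 1) (w1 := 0) (w2 := 0) (D := t.J) (σ := e.z)
    ⟨e.zp.le, e.zl, by simp, by simpa using e.xl, by simpa using e.yl⟩ (by simp) h g.1.1 g.2
  simp only [mul_zero, add_zero, zero_add] at g1
  generalize (∑ i ∈ range t.J, _ : ℝ) = w at g1 g2
  have p := e.ldp t.n t.m1 t.m2 t.l
  refine ⟨(h g.1.1).1, w, v * t.dn / e.ld t.n t.m1 t.m2 t.l - w, g1, ?_, by simp only; field_simp; ring⟩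
  refine le_of_mul_le_mul_left ?_ p
  rw [← abs_of_pos p, ← abs_mul, abs_of_pos p, mul_sub, mul_div_cancel₀ _ p.ne']
  exact g2

lemma Mem.gd {t : T} {v : ℝ} {b : Bool} (h : b = true → Mem e t v) : Mem e (gd b t) v := by
  simp only [TM.gd, mkT_eq]
  intro g
  simp only [Bool.and_eq_true] at g
  exact h g.1 g.2

def MemL (e : Env c) (r : List T) (z : List ℝ) : Prop := ∀ i, Mem e (r.getD i bad) (z.getD i 0)

lemma MemL.nil : MemL e [] [] := fun _ => by simpa using Mem.bad _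

lemma MemL.cons {r : List T} {z : List ℝ} {t : T} {a : ℝ} (h : Mem e t a) (h' : MemL e r z) :
    MemL e (t :: r) (a :: z)
  | 0 => by simpa using h
  | i + 1 => by simpa using h' i

lemma MemL.ex {r : List T} {z : List ℝ} (h : MemL e r z) : ∀ x : Ex, Mem e (x.t c r) (x.r e z)
  | .v i => h i
  | .k a => Mem.cst a
  | .m i j k => Mem.mon i j k 0
  | .a x y => (h.ex x).add (h.ex y)
  | .p x y => (h.ex x).mul (h.ex y)
  | .s a x => (h.ex x).smul a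
  | .h x => (h.ex x).dv 2
  | .n j x => (h.ex x).nrm j
  | .q x => (h.ex x).rsc

lemma stg_eq {α : Type} (r : List T) : ∀ xs (k : List T → α), stg c r xs k = k (xs.map (Ex.t c r))
  | [], _ => rfl
  | x :: xs, k => by simp only [stg, frc_eq, stg_eq r xs, List.map]

lemma MemL.stg {r : List T} {z : List ℝ} (h : MemL e r z) : ∀ (xs : List Ex) {w : List ℝ},
    xs.map (Ex.r e z) = w → MemL e (xs.map (Ex.t c r)) w
  | [], _, rfl => MemL.nil
  | x :: xs, _, rfl => MemL.cons (h.ex x) (h.stg xs rfl)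

lemma Mem.hor {x : T} {v : ℝ} (h : Mem e x v) : ∀ l, Mem e (hor c x l) (horV v l)
  | [] => by simpa [TM.hor, horV] using Mem.cst (e := e) 0
  | a :: l => by simpa [TM.hor, horV, frc_eq] using (Mem.cst (a : ℤ)).add (h.mul (h.hor l))

lemma Mem.isq {p f : T} {P F w : ℝ} (hp : Mem e p P) (hf : Mem e f F) (j : ℕ) (h1 : 0 < w)
    (h2 : w ≤ 2) (h3 : F * w ^ 2 = 1) : Mem e (isq c j p f) w := by
  simp only [TM.isq, frc_eq]
  obtain ⟨P, hp⟩ := hp.rsc.ex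
  refine Mem.gd fun g => ?_
  have h0 : 0 ≤ P := by
    have := abs_le.1 ((one_mul _).symm.trans_le (by simpa using ((hp.add (Mem.cst (-1))).nrm j).sml g))
    linarith [this.1]
  refine hp.res (((hp.mul hp).mul hf).add (Mem.cst (-1))) ?_
  have hF : 0 < F := by by_contra g; nlinarith [sq_nonneg w]
  have e1 : P * P * F + ((-1 : ℤ) : ℝ) = -((w - P) * (F * (P + w))) := by
    push_cast; linear_combination h3
  have e2 : 1 ≤ 2 * (F * (P + w)) := by nlinarith [mul_nonneg hF.le h0, mul_pos hF h1]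
  rw [e1, abs_neg, abs_mul, abs_of_pos (by positivity : 0 < F * (P + w))]
  simp only [Env.ld, zpow_zero, mul_one, Nat.cast_one, Nat.cast_ofNat]
  nlinarith [abs_nonneg (w - P)]

theorem atoms_ok {a b d r s t f ρ y θ : ℤ} (ha : 0 < a) (hb : 0 < b) (hd : 0 < d) (r0 : 0 < r)
    (s0 : 0 < s) (t0 : 0 < t) (hr : r ^ 2 = a * b + 4) (hs : s ^ 2 = a * d + 4)
    (ht : t ^ 2 = b * d + 4) (hf : 2 * f = 2 * (a + b + d) + a * b * d - r * s * t)
    (hρ : 2 * ρ = r * s - a * t) (hy : 2 * y = r * t - b * s) (hθ : 2 * θ = ρ * y - f * r)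
    (hw : r * s * t ≤ 2 * (a * b * d)) (ez : e.zh = 1 / r) (ex : e.xh = r / s) (ey : e.yh = r / t) :
    Mems e (atoms c id) [a, b, d, r, s, t, f, ρ, y, θ, ρ * r - s, t - r * y,
      2 * (a + b + f) + a * b * f - d] := by
  have ha : (0 : ℝ) < a := by exact_mod_cast ha
  have hb : (0 : ℝ) < b := by exact_mod_cast hb
  have hd : (0 : ℝ) < d := by exact_mod_cast hd
  have r0 : (0 : ℝ) < r := by exact_mod_cast r0
  have s0 : (0 : ℝ) < s := by exact_mod_cast s0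
  have t0 : (0 : ℝ) < t := by exact_mod_cast t0
  have hr : (r : ℝ) ^ 2 = a * b + 4 := by exact_mod_cast hr
  have hs : (s : ℝ) ^ 2 = a * d + 4 := by exact_mod_cast hs
  have ht : (t : ℝ) ^ 2 = b * d + 4 := by exact_mod_cast ht
  have hf : (2 : ℝ) * f = 2 * (a + b + d) + a * b * d - r * s * t := by exact_mod_cast hf
  have hρ : (2 : ℝ) * ρ = r * s - a * t := by exact_mod_cast hρ
  have hy : (2 : ℝ) * y = r * t - b * s := by exact_mod_cast hy
  have hθ : (2 : ℝ) * θ = ρ * y - f * r := by exact_mod_cast hθ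
  have hw : (r : ℝ) * s * t ≤ 2 * (a * b * d) := by exact_mod_cast hw
  simp only [atoms, stg_eq, frc_eq, fL_eq, id]
  have m0 := (MemL.nil (e := e)).stg xs0
    (w := [1 / r ^ 2, 1 / s ^ 2, 1 / t ^ 2, a * b / r ^ 2, a * d / s ^ 2, b * d / t ^ 2]) (by
      simp only [xs0, List.map, Ex.r, Env.ld, ez, ex, ey, List.cons.injEq, and_true]
      refine ⟨?_, ?_, ?_, ?_, ?_, ?_⟩ <;> push_cast <;> field_simp <;> linarith)
  generalize List.map (Ex.t c []) xs0 = r0 at m0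
  have m1 := (((m0 0).hor (cbs c.D 0 1)).mul ((m0 1).hor (cbs c.D 0 1))).mul
    ((m0 2).hor (cbs c.D 0 1)) |>.isq (m0.ex (.p (.p (.v 3) (.v 4)) (.v 5)))
    (w := r * s * t / (a * b * d)) 1
    (by positivity) (by rwa [div_le_iff₀ (by positivity)]) (by simp [Ex.r]; field_simp)
  have m2 := (MemL.cons m1 m0).stg xs1 (w := [a, b, d, r, s, t, (a * b * d - r * s * t) / 2]) (by
      simp only [xs1, List.map, Ex.r, Env.ld, ez, ex, ey, List.cons.injEq, and_true,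
        List.getD_cons_succ, List.getD_cons_zero]
      refine ⟨?_, ?_, ?_, ?_, ?_, ?_, ?_⟩ <;> push_cast <;> field_simp
      ring)
  have m3 := m2.stg xs2 (w := [a, b, d, r, s, t, f, ρ, y]) (by
      simp only [xs2, List.map, Ex.r, List.cons.injEq, and_true, true_and,
        List.getD_cons_succ, List.getD_cons_zero]
      refine ⟨?_, ?_, ?_⟩ <;> push_cast <;> linarith)
  have m4 := m3.stg xs3 (w := List.map (fun z : ℤ => (z : ℝ)) [a, b, d, r, s, t, f, ρ, y, θ,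
      ρ * r - s, t - r * y, 2 * (a + b + f) + a * b * f - d]) (by
      simp only [xs3, List.map, Ex.r, List.cons.injEq, and_true, true_and,
        List.getD_cons_succ, List.getD_cons_zero]
      refine ⟨?_, ?_, ?_, ?_⟩ <;> push_cast <;> linarith)
  intro i
  have := m4 i
  rwa [← Int.cast_zero, List.getD_map] at this

theorem kaps_ok {h g pe pq nh : ℕ} {u q Θ : ℝ} (eu : u = 2 * (2 ^ pe * e.zh ^ h))
    (eq : q = 2 * (2 ^ pq * (e.zh ^ g * e.xh))) (u1 : u ≤ 1 / 4) (q1 : q ≤ 1 / 4) (h0 : 0 ≤ Θ)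
    (hΘ : Θ ^ 2 = N0 u q * A0 u q) : MemL e (kaps c h g pe pq nh id)
      (q * D3 q ^ 2 :: A1 u q * D2 u q ^ 2 :: u ^ 3 * q * D3 q ^ 2 :: A0 u q * D1 u q ^ 2 ::
        kap u q Θ) := by
  have u0 : 0 < u := by have := e.z0; rw [eu]; positivity
  have q0 : 0 < q := by have := e.z0; have := e.x0; rw [eq]; positivity
  simp only [kaps, stg_eq, frc_eq, fL_eq, id]
  have m0 := (MemL.nil (e := e)).stg (ys0 h g pe pq) (w := [u / 2, q / 2]) (by
      simp [ys0, Ex.r, Env.ld, eu, eq])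
  have m1 := m0.stg ys1 (w := [u, q, u * q, (4 - N0 u q * A0 u q) / 16]) (by
      simp only [ys1, List.map, Ex.r, List.cons.injEq, and_true, N0, A0,
        List.getD_cons_succ, List.getD_cons_zero]
      refine ⟨?_, ?_, ?_, ?_⟩ <;> push_cast <;> ring)
  have m2 := m1.stg ys2 (w := [u, q, (4 - N0 u q * A0 u q) / 16, N0 u q * A0 u q / 4, D1 u q,
      D2 u q, D3 q, A0 u q, u * q, N0 u q, u * u, q * q]) (by
      simp only [ys2, List.map, Ex.r, List.cons.injEq, and_true, true_and, N0, A0, D1, D2, D3,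
        List.getD_cons_succ, List.getD_cons_zero]
      refine ⟨?_, ?_, ?_, ?_, ?_, ?_⟩ <;> push_cast <;> ring)
  generalize List.map (Ex.t c _) ys2 = r0 at m2
  have m := mul_pos u0 q0
  have b0 : u * q ≤ 1 / 16 := by nlinarith
  have b2 : 1 ≤ N0 u q * A0 u q := by
    simp only [N0, A0]
    nlinarith [mul_pos u0 u0]
  have b3 : 1 ≤ Θ := by nlinarith
  have m3 := ((m2 2).hor (cbs nh 0 1)).isq (m2 3) (w := 2 / Θ) 2
    (by positivity) (by rw [div_le_iff₀ (by positivity)]; linarith)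
    (by simp only [List.getD_cons_succ, List.getD_cons_zero]; rw [← hΘ]; field_simp; norm_num)
  have m4 := (MemL.cons m3 m2).stg ys3 (w := [u, q, Θ, N0 u q, A0 u q, D3 q, D1 u q * A0 u q,
      D2 u q * D3 q, u * u, D3 q * D3 q, D2 u q, A1 u q * D2 u q ^ 2, A0 u q * D1 u q ^ 2]) (by
      simp only [ys3, List.map, Ex.r, List.cons.injEq, and_true, true_and,
        List.getD_cons_succ, List.getD_cons_zero]
      refine ⟨?_, ?_, ?_⟩
      · rw [← hΘ]; push_cast; field_simp; norm_num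
      · simp only [A1, D2]; push_cast; ring
      · simp only [A0, D1]; push_cast; ring)
  refine m4.stg ys4 ?_
  simp only [ys4, kap, Dk, List.map, Ex.r, List.cons.injEq, and_true, true_and,
    List.getD_cons_succ, List.getD_cons_zero]
  refine ⟨?_, ?_, ?_, ?_, ?_, ?_, ?_, ?_, ?_, ?_, ?_, ?_, ?_, ?_⟩ <;> push_cast <;> ring

end Pool.Agent.Lib.MP_b2ee0b_nt.TM
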