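import Pool.Agent.Lib.MP_b2ee0b_nt.TMi

/-! Soundness of the check of one form. -/

set_option autoImplicit false

namespace Pool.Agent.Lib.MP_b2ee0b_nt.TM

open Finset

variable {l1 l2 l3 : ℝ} {c : Cfg}

lemma Val.smq {bs : List Bas} (h : Val l1 l2 l3 bs) {a b d o : ℤ} {x y : ℕ}
    (g : smq bs a b d o x y = true) : E2 (a * l1 + b * l2 + d * l3 + o) * y ≤ x := by
  unfold TM.smq at g
  split at g
  · rename_i r e
    have h1 := mul_le_mul_of_nonneg_right (h.ubm e) (Nat.cast_nonneg y : (0 : ℝ) ≤ _)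
    have h2 := (Nat.cast_le (α := ℝ)).2 (Nat.le_of_ble_eq_true g)
    rw [SC_cast, Nat.cast_mul] at h2
    refine le_of_mul_le_mul_right ?_ SC_pos
    linarith
  · cases g

lemma E2_rat {n a b : ℕ} (h : 2 ^ n * b ^ 256 ≤ a ^ 256) : E2 n * b ≤ a := by
  refine le_of_pow_le_pow_left₀ (n := 256) (by norm_num) (Nat.cast_nonneg _) ?_
  rw [mul_pow, E2_pow, Nat.cast_ofNat, E2_nat]
  exact_mod_cast h

structure Om (e q n1 n2 n3 o1 : ℝ) : Prop where
  d1 : E2 n1 ≤ A1 e q * D2 e q ^ 2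
  d2 : E2 n2 ≤ A0 e q * D1 e q ^ 2
  d3 : D3 q ^ 2 ≤ E2 n3
  d4 : E2 o1 * (A1 e q * D2 e q ^ 2) ≤ 9
  d5 : A0 e q * D1 e q ^ 2 ≤ 2
  d6 : 0 < D1 e q

lemma Val.om {bs : List Bas} (h : Val l1 l2 l3 bs) {me mq : ℕ} {n1 n2 n3 o1 : ℤ}
    (g : om bs me mq n1 n2 n3 o1 = true) : E2 (12 * l2) * 1024 ≤ me ∧ E2 (12 * l3) ≤ 1 / 4 ∧
      Om (E2 (12 * l2)) (E2 (12 * l3)) n1 n2 n3 o1 := by
  simp only [TM.om, Bool.and_eq_true, Nat.ble_eq] at g
  obtain ⟨⟨⟨⟨⟨⟨⟨g1, g2⟩, g3⟩, g4⟩, g5⟩, g6⟩, g7⟩, g8⟩ := g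
  have h1 := h.smq g1
  have h2 := h.smq g2
  have h5 := h.smq g5
  have h6 := h.smq g6
  have h7 := h.smq g7
  have h8 := h.smq g8
  have b0 : me * (1024 + mq) ≤ 600 * (1024 + 256) := Nat.mul_le_mul g3 (by omega)
  rw [Nat.cast_mul, Nat.cast_pow _ 2, Nat.cast_sub (by omega)] at h5 h6
  simp only [Int.cast_zero, zero_mul, zero_add, add_zero, Int.cast_ofNat] at h1 h2 h5 h6 h7 h8
  have e0 := E2_pos (12 * l2)
  have q0 := E2_pos (12 * l3)
  have p3 : E2 ((-n3 : ℤ) : ℝ) * E2 n3 = 1 := by rw [← E2_add]; simp [E2_zero]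
  have p4 := E2_pos n3
  have p5 := E2_pos o1
  generalize E2 (12 * l2) = e at *
  generalize E2 (12 * l3) = q at *
  have g3 : (me : ℝ) ≤ 600 := by exact_mod_cast g3
  have g4 : (mq : ℝ) ≤ 256 := by exact_mod_cast g4
  obtain ⟨x, hx⟩ : ∃ x : ℝ, (me : ℝ) = 1024 * x := ⟨me / 1024, by ring⟩
  obtain ⟨y, hy⟩ : ∃ y : ℝ, (mq : ℝ) = 1024 * y := ⟨mq / 1024, by ring⟩
  push_cast at h1 h2 h5 h6 h7 h8 p3
  rw [hx] at h1 h5 h6 g3
  rw [hy] at h2 h6 h7 h8 g4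
  have ex : e ≤ x := by linarith
  have qy : q ≤ y := by linarith
  have x1 : x ≤ 3 / 5 := by linarith
  have y1 : y ≤ 1 / 4 := by linarith
  have m0 := mul_pos e0 q0
  have m1 : e * q ≤ e * y := mul_le_mul_of_nonneg_left qy e0.le
  have m2 : e * y ≤ x * y := mul_le_mul_of_nonneg_right ex (by linarith)
  have m3 : x * y ≤ x * (1 / 4) := mul_le_mul_of_nonneg_left y1 (by linarith)
  have d0 : 0 < 1 - e - e * q := by linarith
  refine ⟨by rw [hx]; linarith, by linarith, ?_, ?_, ?_, ?_, ?_, d0⟩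
  · have a1 : (4 + 2 * e) * (1 - e) ^ 2 ≤ (4 + 2 * e + q) * (1 - e + q) ^ 2 :=
      mul_le_mul (by linarith) (pow_le_pow_left₀ (by linarith) (by linarith) 2) (sq_nonneg _)
        (by linarith)
    have a2 : (4 + 2 * x) * (1 - x) ^ 2 ≤ (4 + 2 * e) * (1 - e) ^ 2 := by
      have : 0 ≤ (x - e) * (6 - 2 * (e ^ 2 + e * x + x ^ 2)) :=
        mul_nonneg (by linarith) (by nlinarith)
      linarith
    simp only [A1, D2]
    linarith
  · have a1 : (2 + 4 * e) * (1 - e - e * y) ^ 2 ≤ (2 + 4 * e + e * q) * (1 - e - e * q) ^ 2 :=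
      mul_le_mul (by linarith) (pow_le_pow_left₀ (by linarith) (by linarith) 2) (sq_nonneg _)
        (by linarith)
    have a2 : (2 + 4 * x) * (1 - x - x * y) ^ 2 ≤ (2 + 4 * e) * (1 - e - e * y) ^ 2 := by
      have y0 : 0 < y := by linarith
      have k1 : (1 + y) * x ≤ 3 / 4 := by linarith
      have k2 : (1 + y) * x * e ≤ 3 / 4 * e := mul_le_mul_of_nonneg_right k1 e0.le
      have k3 : (1 + y) * x * x ≤ 3 / 4 * x := mul_le_mul_of_nonneg_right k1 (by linarith)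
      have k4 : (1 + y) * e * e ≤ 3 / 4 * e := mul_le_mul_of_nonneg_right (by linarith) e0.le
      have k5 : 0 ≤ (8 - 2 * (1 + y)) * (e + x) - 4 * (1 + y) * (e ^ 2 + e * x + x ^ 2) := by
        linarith
      have : 0 ≤ (x - e) * (4 * y + (1 + y) *
          ((8 - 2 * (1 + y)) * (e + x) - 4 * (1 + y) * (e ^ 2 + e * x + x ^ 2))) :=
        mul_nonneg (by linarith) (by positivity)
      linarith
    simp only [A0, D1]
    linarith
  · have a1 : (3 + q) ^ 2 ≤ (3 + y) ^ 2 := by gcongr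
    have a2 := mul_le_mul_of_nonneg_left h7 p4.le
    simp only [D3]
    nlinarith
  · have a1 : (4 + 2 * e + q) * (1 - e + q) ^ 2 ≤ (4 + q) * (1 + q) ^ 2 := by
      nlinarith [mul_pos e0 m0, mul_pos e0 e0]
    have a2 : (4 + q) * (1 + q) ^ 2 ≤ (4 + y) * (1 + y) ^ 2 := by gcongr; linarith
    have a3 := mul_le_mul_of_nonneg_left (a1.trans a2) p5.le
    simp only [A1, D2]
    linarith
  · have a1 : (2 + 4 * e + e * q) * (1 - e - e * q) ≤ (2 + 4 * e) * (1 - e) := by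
      nlinarith [mul_pos e0 m0, mul_pos m0 m0]
    have a2 := mul_le_mul a1 (show 1 - e - e * q ≤ 1 - e by linarith) d0.le
      (mul_nonneg (by linarith) (by linarith))
    simp only [A0, D1]
    nlinarith [mul_pos e0 e0]

structure Sz (x y e q n1 n2 n3 o1 : ℝ) : Prop where
  x0 : q * E2 o1 ≤ x
  x1 : x ≤ q * E2 (n3 - n1)
  y0 : e ^ 3 * q * E2 555 ≤ y
  y1 : y ≤ e ^ 3 * q * E2 (n3 - n2)

lemma Om.sz {e q n1 n2 n3 o1 x y : ℝ} (h : Om e q n1 n2 n3 o1) (e0 : 0 < e) (q0 : 0 < q)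
    (hx : x * (A1 e q * D2 e q ^ 2) = q * D3 q ^ 2)
    (hy : y * (A0 e q * D1 e q ^ 2) = e ^ 3 * q * D3 q ^ 2) : Sz x y e q n1 n2 n3 o1 := by
  obtain ⟨h1, h2, h3, h4, h5, -⟩ := h
  have p1 := E2_pos n1
  have p2 := E2_pos n2
  have b9 : 9 ≤ D3 q ^ 2 := by simp only [D3]; nlinarith
  have b5 : E2 555 * 2 ≤ 9 := by exact_mod_cast E2_rat (n := 555) (a := 9) (b := 2) (by decide +kernel)
  have p5 := E2_pos 555
  have p6 := mul_pos (pow_pos e0 3) q0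
  generalize A1 e q * D2 e q ^ 2 = v at *
  generalize A0 e q * D1 e q ^ 2 = w at *
  have v0 := p1.trans_le h1
  have w0 := p2.trans_le h2
  have key : ∀ {n v p x : ℝ}, 0 < p → E2 n ≤ v → x * v = p * D3 q ^ 2 → x ≤ p * E2 (n3 - n) := by
    intro n v p x p0 g1 g2
    have v0 := (E2_pos n).trans_le g1
    refine le_of_mul_le_mul_right ?_ v0
    have := mul_le_mul_of_nonneg_left g1 (E2_pos (n3 - n)).le
    rw [← E2_add, sub_add_cancel] at this
    rw [g2, mul_assoc]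
    exact mul_le_mul_of_nonneg_left (h3.trans this) p0.le
  refine ⟨le_of_mul_le_mul_right ?_ v0, key q0 h1 hx, le_of_mul_le_mul_right ?_ w0, key p6 h2 hy⟩
  · rw [hx, mul_assoc]
    exact mul_le_mul_of_nonneg_left (h4.trans b9) q0.le
  · rw [hy, mul_assoc]
    exact mul_le_mul_of_nonneg_left (by nlinarith) p6.le

lemma Om.dk {e q n1 n2 n3 o1 : ℝ} (h : Om e q n1 n2 n3 o1) (e0 : 0 < e) (q0 : 0 < q) :
    e * E2 (n2 + 661) ≤ Dk e q := by
  have b6 : E2 661 ≤ 6 := by simpa using E2_rat (n := 661) (a := 6) (b := 1) (by decide +kernel)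
  have h1 := h.d6
  have h2 : 0 < A0 e q := by simp only [A0]; positivity
  have h3 : D1 e q ≤ D2 e q := by simp only [D1, D2]; nlinarith
  have h4 : 3 ≤ D3 q := by simp only [D3]; linarith
  have p := E2_pos n2
  rw [E2_add]
  calc _ ≤ e * (A0 e q * D1 e q ^ 2 * 6) := by gcongr; exacts [(E2_pos _).le, h.d2]
    _ = 2 * e * D1 e q * A0 e q * D1 e q * 3 := by ring
    _ ≤ _ := by have := h1.trans_le h3; unfold Dk; gcongr

variable {e : Env c}

lemma al0_core {t : T} {v : ℝ} (h : Mem e t v) (g : xok (al0 c t) = true) {M u : ℕ}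
    (hM : (al0 c t).M ≤ M) (hu : (al0 c t).d1 ≤ u) : Core c e.x e.y e.z (al0 c t).N M u 0 c.D v := by
  simp only [xok, Bool.and_eq_true, Nat.beq_eq] at g
  obtain ⟨-, w, θ, h1, h2, h3⟩ := h.al 0 0 0 0 1 c.D g.1.1
  have e1 : al0 c t = al c 0 0 0 0 1 c.D t := rfl
  rw [← e1] at h1 h2 h3
  have e2 : (al0 c t).J = c.D ∧ (al0 c t).dn = 1 ∧ (al0 c t).n = 0 ∧ (al0 c t).m1 = 0 ∧
      (al0 c t).m2 = 0 ∧ (al0 c t).l = 0 := by simp only [e1, al, mkT_eq, fN_eq, and_self]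
  simp only [e2, g.1.2, Nat.cast_zero, zero_mul, abs_nonpos_iff, Env.ld, zpow_zero, Nat.cast_one,
    mul_one, one_mul] at h1 h2 h3
  rw [h3, h2, add_zero]
  exact h1.weak (Int.ModEq.refl _) (by exact_mod_cast hM) hu g.2.le le_rfl

lemma mkK_eq {α : Type} (r : List T) : ∀ l (k : List T → α), mkK c r l k =
    k (l.map fun t => al0 c (mul c (r.getD (t.1 + 4) bad) (r.getD (t.2.1 + 4) bad)))
  | [], _ => rfl
  | t :: l, k => by simp only [mkK, frc_eq, mkK_eq r l, List.map]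

lemma fa_map {α : Type} (f : α → T) (g : α → ℝ) (h : ∀ t, Mem e (f t) (g t)) :
    ∀ l : List α, List.Forall₂ (Mem e) (l.map f) (l.map g)
  | [] => .nil
  | t :: l => .cons (h t) (fa_map f g h l)

lemma kok_all {u km : ℕ} : ∀ {ks : List T} {κ : List ℝ}, List.Forall₂ (Mem e) ks κ →
    ks.all (kok 1 u 0 km c) = true → ∀ k ∈ κ, |k| ≤ km
  | _, _, .nil, _ => by simp
  | _, _, .cons a b, h => by
    rw [List.all_cons, Bool.and_eq_true] at h
    exact List.forall_mem_cons.2 ⟨by simpa using (kok_ok a h.1).2.1, kok_all b h.2⟩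

lemma dot_int {D : ℝ} {τ z : ℕ → ℤ} {κ μ : ℕ → ℝ} (h : ∀ i, τ i * D = μ i * κ i) :
    ∀ l : List (ℕ × ℕ × ℕ), ∃ F : ℤ, dot (l.map fun t => κ t.1 * κ t.2.1)
      (l.map fun t => μ t.1 * μ t.2.1 * z t.2.2) = F * D ^ 2
  | [] => ⟨0, by simp [dot]⟩
  | t :: l => by
    obtain ⟨F, hF⟩ := dot_int (z := z) h l
    refine ⟨τ t.1 * τ t.2.1 * z t.2.2 + F, ?_⟩
    simp only [List.map, dot, hF]
    push_cast
    linear_combination -(z t.2.2 * τ t.2.1 * D) * h t.1 - (z t.2.2 * μ t.1 * κ t.1) * h t.2.1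

lemma far {F a : ℤ} {b n : ℕ} (h0 : 0 < b) (h1 : n ≤ a % b) (h2 : n ≤ b - a % b) :
    (n : ℝ) ≤ |(F : ℝ) * b - a| := by
  have : (n : ℤ) ≤ |F * b - a| := by
    have e := Int.emod_add_mul_ediv a b
    have p : (0 : ℤ) < b := by exact_mod_cast h0
    rw [le_abs]
    rcases le_or_gt F (a / b) with g | g
    · right; nlinarith
    · left; nlinarith [Int.add_one_le_of_lt g]
  exact_mod_cast this

end Pool.Agent.Lib.MP_b2ee0b_nt.TM
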