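import Pool.Agent.Lib.MP_b2ee0b_nt.TMj

/-! Soundness of the check of one form, main statement. -/

set_option autoImplicit false

namespace Pool.Agent.Lib.MP_b2ee0b_nt.TM

open Finset

variable {l1 l2 l3 : ℝ}

noncomputable def mkE (c : Cfg) (z x y : ℝ) (z0 : 0 < z) (x0 : 0 < x) (y0 : 0 < y) (x1 : x ≤ 1)
    (y1 : y ≤ 1) (zE : z ^ c.g * c.E0 ≤ 1) (hg : 0 < c.g) (E1 : 1 ≤ c.E) (E2 : c.E ≤ c.E0)
    (sg : c.sg = true) : Env c where
  zh := z
  xh := x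
  yh := y
  δ := 1 + (x ^ c.g) ^ c.gd
  z0 := z0
  x0 := x0
  y0 := y0
  z1 := by
    have : (1 : ℝ) ≤ c.E0 := by exact_mod_cast E1.trans E2
    exact (pow_le_one_iff_of_nonneg z0.le hg.ne').1 (by nlinarith [pow_pos z0 c.g])
  x1 := x1
  y1 := y1
  zE := by rwa [mul_comm]
  E1 := E1
  E2 := E2
  δe := by rw [if_pos sg]
  δ1 := by have := pow_pos (pow_pos x0 c.g) c.gd; linarith
  δ2 := by have := pow_le_one₀ (pow_pos x0 c.g).le (pow_le_one₀ x0.le x1) (n := c.gd); linarith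

lemma atoms_eq {α : Type} (c : Cfg) (k : List T → α) : atoms c k = k (atoms c id) := by
  simp only [atoms, stg_eq, frc_eq, fL_eq, id]

lemma kaps_eq {α : Type} (c : Cfg) (h g pe pq nh : ℕ) (k : List T → α) :
    kaps c h g pe pq nh k = k (kaps c h g pe pq nh id) := by
  simp only [kaps, stg_eq, frc_eq, fL_eq, id]

lemma fin_ineq {n dn b S R D A W r1 r2 v ld : ℝ} (h0 : 0 < D) (hb : 0 ≤ b) (hdn : 0 ≤ dn)
    (hW : 0 < W) (hS : 0 ≤ S) (hR : 0 ≤ R)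
    (h1 : n ≤ |v| * b) (h2 : |v| * D * dn ≤ ld * (S + R)) (h3 : ld ≤ D * A) (h4 : S * A * W ≤ r1)
    (h5 : R * A * W ≤ r2) : n * dn * W ≤ b * (r1 + r2) := by
  have g1 : |v| * dn ≤ A * (S + R) := by
    refine le_of_mul_le_mul_left ?_ h0
    have := mul_le_mul_of_nonneg_right h3 (add_nonneg hS hR)
    linarith
  have g2 := mul_le_mul_of_nonneg_right h1 (mul_nonneg hdn hW.le)
  have g3 := mul_le_mul_of_nonneg_right g1 (mul_nonneg hb hW.le)
  have g4 := mul_le_mul_of_nonneg_left (add_le_add h4 h5) hb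
  linarith

theorem chkF_ok (X : Cx (E2 (12 * l2)) (E2 (12 * l3))) (hu : E2 (12 * l1) * X.r ^ 2 = 1) {F : Fm}
    {t : Tr} {G : List Gn} (h : chkF F t G = true) (s : Sat l1 l2 l3 G) : False := by
  simp only [chkF, hvy, fN_eq, frc_eq, fB_eq] at h
  rw [atoms_eq, runT_eq, prps_eq, kaps_eq, mkK_eq, blkBs_eq] at h
  simp only [Bool.and_eq_true, Fm.ok, decide_eq_true_eq] at h
  obtain ⟨⟨⟨⟨⟨⟨⟨⟨o1, o2⟩, o3⟩, o4⟩, o5⟩, o6⟩, o7⟩, ⟨⟨⟨⟨⟨⟨⟨⟨⟨⟨⟨⟨⟨⟨⟨⟨f1, f2⟩, f3⟩, f4⟩, f5⟩, f6⟩,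
    f7⟩, f8⟩, f9⟩, f10⟩, f11⟩, f12⟩, f13⟩, f14⟩, f15⟩, f16⟩, f17⟩⟩, h⟩ := h
  refine chkT_ok (fun i d bs hv hl => ?_) (fun _ _ _ _ h => by cases h) t G h s
  clear h s
  unfold leafF at hl
  split at hl
  swap
  · cases hl
  rename_i me mq n1 n2 n3 o1' B
  simp only [fZ_eq, Bool.and_eq_true, Nat.ble_eq] at hl
  obtain ⟨⟨⟨⟨⟨⟨⟨⟨⟨c1, c2⟩, c3⟩, c4⟩, c5⟩, c6⟩, c7⟩, c8⟩, c9⟩, hl⟩ := hl
  split at hl
  swap
  · cases hl
  rename_i r1 r2 t1 t2
  obtain ⟨m1, m2, m3⟩ := hv.om c1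
  have c3 := hv.smq c3
  have c4 := hv.smq c4
  have c5 := hv.lpb c5
  have c6 := hv.lpb c6
  have c7 := hv.lpb c7
  have c8 := hv.lpb c8
  have c9 := hv.lpb c9
  have t2 := hv.ubm t2
  have r0 : (0 : ℝ) < X.r := by exact_mod_cast X.r0
  have s0 : (0 : ℝ) < X.s := by exact_mod_cast X.s0
  have t0 : (0 : ℝ) < X.t := by exact_mod_cast X.t0
  have eu : (1 / X.r : ℝ) ^ 2 = E2 (12 * l1) := by field_simp; linarith
  obtain ⟨e, ez, ex, ey⟩ : ∃ e : Env F.c, e.zh = 1 / X.r ∧ e.xh = X.r / X.s ∧ e.yh = X.r / X.t :=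
    ⟨mkE F.c (1 / X.r) (X.r / X.s) (X.r / X.t) (by positivity) (by positivity) (by positivity)
      ((div_le_one s0).2 (by exact_mod_cast X.rs)) ((div_le_one t0).2 (by exact_mod_cast X.rt))
      (by rw [f1, eu]; simpa using c3) (by omega) f3 f4 f2, rfl, rfl, rfl⟩
  obtain ⟨e', ez', ex'⟩ : ∃ e' : Env F.c', e'.zh = E2 ((0 : ℤ) * l1 + F.zb * l2 + (0 : ℤ) * l3 + F.zo) ∧
      e'.xh = E2 ((0 : ℤ) * l1 + (-(F.g * F.zb) : ℤ) * l2 + (12 : ℤ) * l3 +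
        (-256 * (F.pq + 1) - F.g * F.zo : ℤ)) :=
    ⟨mkE F.c' _ _ 1 (E2_pos _) (E2_pos _) one_pos
      (E2_zero ▸ E2_le (by push_cast at c5 ⊢; linarith)) le_rfl
      (by rw [f5, pow_one]; simpa using c4) (by omega) f7 f8 f6, rfl, rfl⟩
  have f11 : (F.h : ℝ) * F.zb = 12 := by exact_mod_cast f11
  have f12 : (F.h : ℝ) * F.zo = -256 * (F.pe + 1) := by exact_mod_cast f12
  have k0 := kaps_ok (e := e') (h := F.h) (g := F.g) (pe := F.pe) (pq := F.pq) (nh := F.nh)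
    (u := E2 (12 * l2)) (q := E2 (12 * l3)) (by
      rw [ez', E2_pow, ← mul_assoc, ← pow_succ', ← E2_nat, ← E2_add]
      refine congrArg E2 ?_; push_cast; linear_combination -l2 * f11 - f12) (by
      rw [ez', ex', E2_pow, ← mul_assoc, ← pow_succ', ← E2_nat, ← E2_add, ← E2_add]
      refine congrArg E2 ?_; push_cast; ring)
    (by have : (me.toNat : ℝ) ≤ 256 := by exact_mod_cast c2
        linarith) m2 X.T0 X.T2
  have a0 := (atoms_ok X.ha X.hb X.hc X.r0 X.s0 X.t0 X.hr X.hs X.ht X.hd X.hρ X.hy X.hθ X.hw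
    ez ex ey).run F.pr
  generalize runZ _ _ = z at a0
  generalize runT F.c id _ _ = r at *
  generalize kaps F.c' _ _ _ _ _ id = r' at *
  have zz : e.z = E2 (12 * l1) := by rw [Env.z, f1, ez, eu]
  have hx : e.x * (A1 (E2 (12 * l2)) (E2 (12 * l3)) * D2 (E2 (12 * l2)) (E2 (12 * l3)) ^ 2) =
      E2 (12 * l3) * D3 (E2 (12 * l3)) ^ 2 := by
    rw [Env.x, f1, ex, div_pow, div_mul_eq_mul_div, X.y1]; field_simp
  have hy : e.y * (A0 (E2 (12 * l2)) (E2 (12 * l3)) * D1 (E2 (12 * l2)) (E2 (12 * l3)) ^ 2) =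
      E2 (12 * l2) ^ 3 * E2 (12 * l3) * D3 (E2 (12 * l3)) ^ 2 := by
    rw [Env.y, f1, ey, div_pow, div_mul_eq_mul_div, X.y2]; field_simp
  obtain ⟨z1, z2, z3, z4⟩ := m3.sz X.e0 X.q0 hx hy
  have z5 := m3.dk X.e0 X.q0
  simp only [E2_pow, ← E2_add] at z1 z2 z3 z4 z5
  have hk := fa_map (e := e') _ (fun t : ℕ × ℕ × ℕ => (kap (E2 (12 * l2)) (E2 (12 * l3)) X.Θ).getD t.1 0 *
    (kap (E2 (12 * l2)) (E2 (12 * l3)) X.Θ).getD t.2.1 0)
    (fun t => ((k0 (t.1 + 4)).mul (k0 (t.2.1 + 4))).al 0 0 0 0 1 F.c'.D) ((0, 0, 0) :: F.tr)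
  obtain ⟨b1, b2⟩ := blkBs_ok f9 (hx ▸ al0_core (k0 0) o3 (le_max_left _ _) (le_max_left _ _))
    (al0_core (k0 1) o4 (le_max_right _ _) (le_max_right _ _))
    (hy ▸ al0_core (k0 2) o5 (le_max_left _ _) (le_max_left _ _))
    (al0_core (k0 3) o6 (le_max_right _ _) (le_max_right _ _)) hk _ _ o2
  have b3 := totB_ok hv f10 (by rw [Env.x, f5, pow_one, ex']) (by rw [Env.z, f5, pow_one, ez'])
    m3.d1 m3.d2 b2 t1
  rw [b1] at b3
  have hv1 := fa_map (e := e) (vT F.c r) (fun t => mv X.r X.s X.t (mos.getD t.1 0) *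
      mv X.r X.s X.t (mos.getD t.2.1 0) * (z.getD t.2.2 0 : ℤ)) (fun t => by
    have := (Mem.mon (e := e) ((mos.getD t.1 0).1 + (mos.getD t.2.1 0).1)
      ((mos.getD t.1 0).2.1 + (mos.getD t.2.1 0).2.1)
      ((mos.getD t.1 0).2.2 + (mos.getD t.2.1 0).2.2) (0 + 0)).mul (a0 t.2.2)
    rw [e.ld_add] at this
    simp only [Env.ld, ez, ex, ey, zpow_zero, mul_one, ← gt_eq] at this
    exact this) F.tr
  obtain ⟨N, hN⟩ := dot_int (z := fun i => z.getD i 0) X.tau F.tr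
  generalize hL : ((-12 * F.n : ℤ) : ℝ) * l1 + (-36 * F.m2 - 24 : ℤ) * l2 +
    (-12 * (F.m1 + F.m2) : ℤ) * l3 + (-(F.m1 * o1') - F.m2 * 555 - 2 * (n2 + 661) : ℤ) = L at b3
  push_cast at hL c6 c7 c8 c9
  have D0 : (0 : ℝ) < F.D := by exact_mod_cast f17
  have sc : Scale e F.w0 F.w1 F.w2 (E2 ((-L - B) / F.D)) := by
    refine ⟨(E2_pos _).le, E2_zero ▸ E2_le (div_nonpos_of_nonpos_of_nonneg (by linarith) D0.le),
      zz ▸ ?_, z2.trans ?_, z4.trans ?_⟩ <;>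
    · rw [E2_pow]
      refine E2_le ?_
      rw [← mul_div_assoc, le_div_iff₀ D0, ← hL]
      push_cast
      linarith
  have p0 := prps_ok (D := F.D) sc f16 (Nat.cast_nonneg F.km) _ _ _
    (.cons ((Mem.cst (-F.c1)).dv F.c2) hv1) (kok_all hk o7) o1
  generalize prps F.c _ _ _ _ _ _ _ _ (fun _ K _ => K) = Kt at *
  generalize prps F.c _ _ _ _ _ _ _ _ (fun X _ _ => X) = Xs at *
  rw [List.map_cons] at b3
  rw [List.map_cons, dot, hN] at p0
  generalize (_ :: List.map _ F.tr : List ℝ) = κ at p0 b3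
  simp only [Nat.cast_one, mul_one, ← zz] at b3
  have c0 : (0 : ℝ) < F.c2 := by exact_mod_cast f13
  have dk := (E2_pos _).trans_le z5
  have lp := e.ldp (-(2 * F.n)) (-(2 * F.m1)) (-(2 * F.m2)) 0
  have key := fin_ineq (n := F.bn) (dn := F.dn) (b := F.c2) (v := N - F.c1 / F.c2) (A := E2 L)
    (R := F.km * Kt * E2 ((-L - B) / F.D) ^ F.D) (r2 := F.km * Kt * r2 * 2 ^ 64)
    (ld := e.ld (-(2 * F.n)) (-(2 * F.m1)) (-(2 * F.m2)) 0)
    (pow_pos dk 2) c0.le (Nat.cast_nonneg _) (mul_pos (by positivity) SC_pos)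
    (sum_nonneg fun i _ => mul_nonneg (pow_pos e.zp i).le (abs_nonneg _))
    (by have := E2_pos ((-L - B) / F.D); positivity)
    (by rw [← abs_of_pos c0, ← abs_mul, abs_of_pos c0, sub_mul, div_mul_cancel₀ _ c0.ne']
        exact far f13 f14 f15) (by
      have g1 := mul_le_mul_of_nonneg_left ((abs_sum_le_sum_abs _ _).trans (le_of_eq
        (sum_congr rfl fun i _ => (abs_mul _ _).trans (by rw [abs_of_pos (pow_pos e.zp i)]))) :
        |∑ j ∈ range F.ds.length, e.z ^ j * sK κ Xs fun X =>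
          bS F.c F.w1 F.w2 F.D e.x e.y (dgt F.c.b3 j X) (F.w0 * j)| ≤ _) lp.le
      have g2 := (abs_sub_abs_le_abs_sub _ _).trans p0
      rw [abs_mul (e.ld _ _ _ _), abs_of_pos lp, abs_mul _ (F.dn : ℝ), Nat.abs_cast] at g2
      rw [← abs_of_pos (pow_pos dk 2), ← abs_mul, mul_add]
      refine le_trans (le_of_eq ?_) ((sub_le_iff_le_add'.1 g2).trans (add_le_add_left g1 _))
      refine congrArg (· * _) (congrArg abs ?_)
      simp only [kap, List.getD_cons_zero]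
      push_cast; ring) (by
      have g1 : e.ld (-(2 * F.n)) (-(2 * F.m1)) (-(2 * F.m2)) 0 *
          (e.z ^ F.n * e.x ^ F.m1 * e.y ^ F.m2) = 1 := by
        have := e.ld_nat F.n F.m1 F.m2 0
        rw [pow_zero, mul_one, f1] at this
        rw [← this, ← e.ld_add]
        simp [Env.ld]
      have g2 : 1 ≤ Dk (E2 (12 * l2)) (E2 (12 * l3)) ^ 2 * E2 L *
          (e.z ^ F.n * e.x ^ F.m1 * e.y ^ F.m2) := by
        have := E2_pos L
        have := e.zp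
        have := e.xp
        have := E2_pos (12 * l2 + (n2 + 661))
        have := E2_pos (12 * l3 + o1')
        have := E2_pos ((3 : ℕ) * (12 * l2) + 12 * l3 + 555)
        calc (1 : ℝ) = E2 (12 * l2 + (n2 + 661)) ^ 2 * E2 L * (e.z ^ F.n *
              E2 (12 * l3 + o1') ^ F.m1 * E2 ((3 : ℕ) * (12 * l2) + 12 * l3 + 555) ^ F.m2) := by
              simp only [zz, E2_pow, ← E2_add, ← E2_zero, ← hL]
              refine congrArg E2 ?_; push_cast; ring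
          _ ≤ _ := by gcongr
      refine le_of_mul_le_mul_right (g1 ▸ g2) ?_
      have := e.zp; have := e.xp; have := e.yp; positivity) b3 (by
      rw [E2_pow, mul_div_cancel₀ _ D0.ne', mul_assoc _ _ (E2 L), ← E2_add]
      have := mul_le_mul_of_nonneg_left t2 (by positivity : (0 : ℝ) ≤ F.km * Kt * 2 ^ 64)
      simp only [Int.cast_zero, zero_mul, zero_add, Int.cast_neg] at this
      rw [show -L - B + L = -B by ring]
      linarith)
  have hl := (Nat.cast_lt (α := ℝ)).2 (Nat.blt_eq.mp hl)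
  rw [SC_cast, shl_eq, shl_eq] at hl
  push_cast at hl
  linarith

end Pool.Agent.Lib.MP_b2ee0b_nt.TM
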