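import Pool.Agent.Lib.MP_b2ee0b_nt.TMk

/-! The covering of the region of sizes by cells and corners. -/

set_option autoImplicit false

namespace Pool.Agent.Lib.MP_b2ee0b_nt.TM

def pick (a lo hi : ℤ) : ℤ := if 0 ≤ a then a * hi else a * lo

def rowG (a0 a1 p0 p1 q0 q1 : ℤ) (m : ℤ × ℤ × ℤ × ℤ) : Gn :=
  ⟨12 * (m.1 - m.2.1 + m.2.2.1), 72 * m.2.2.1 - 36 * (m.1 - m.2.1 + m.2.2.1),
    24 * (m.2.1 - m.2.2.1), pick (m.1 - m.2.1 + m.2.2.1) a0 a1 +
    pick (2 * (m.2.1 - m.2.2.1)) p0 p1 + pick (2 * m.2.2.1) q0 q1 - 512 * m.2.2.2⟩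

def ruleT (cs : List (ℤ × ℤ × ℤ × ℤ)) (d : List ℤ) (bs : List Bas) : List Gn :=
  match d with
  | [me, mq, n1, n2, n3, o1, mu, nu, my, np] =>
    cond (om bs me.toNat mq.toNat n1 n2 n3 o1 && smq bs 12 0 0 0 1 (mu.toNat + 8) &&
      smq bs 0 0 0 (-nu) mu.toNat (mu.toNat + 8) && (smq bs 0 0 0 (-np) 5 9 ||
      smq bs 0 0 12 (n3 - n1) 1 (my.toNat + 4) && smq bs 0 0 0 (-np) my.toNat (my.toNat + 4)))
    (((1, 0, 0, 0) :: (0, 1, 0, 0) :: (0, 0, 1, 0) :: (1, 1, 0, 2) :: cs).map (rowG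
      (555 - (n3 - n1) - nu) (n3 - n2 - o1) (-(n3 - n1) - np) (-o1) (o1 - (n3 - n2) - 196)
      (n3 - n1 - 555))) []
  | _ => []

def leafT (cells : List (List Gn)) (i : ℕ) (d : List ℤ) (bs : List Bas) : Bool :=
  match i, d with
  | 0, [a, b, c, n] => lpb bs a b c n && lpb bs (-a) (-b) (-c) (-n - 1)
  | 1, _ => match ubm bs (-3) (-39) 15 0, ubm bs 9 (-39) (-9) 0 with
    | some u, some v => Nat.ble (43000 * u + 500000 * v) (Nat.shiftLeft 1668 2038)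
    | _, _ => false
  | 2, _ => smq bs 0 12 0 0 1 4 && smq bs (-12) 60 (-12) 0 2 1
  | k + 3, _ => match cells[k]? with
    | some G => G.all fun g => lpb bs g.a g.b g.c g.n
    | none => false
  | _, _ => false

def G0 : List Gn := [⟨12, 0, 0, -1536⟩, ⟨0, 12, 0, -241⟩, ⟨0, 0, 12, -512⟩]

def chkC (cells : List (List Gn)) (cs : List (ℤ × ℤ × ℤ × ℤ)) (t : Tr) : Bool :=
  chkT (leafT cells) (ruleT cs) t G0

variable {l1 l2 l3 : ℝ}

lemma pick_le (a lo hi : ℤ) {x : ℝ} (h0 : lo ≤ x) (h1 : x ≤ hi) : a * x ≤ pick a lo hi := by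
  unfold pick
  split_ifs with h <;> push_cast
  · exact mul_le_mul_of_nonneg_left h1 (by exact_mod_cast h)
  · exact mul_le_mul_of_nonpos_left h0 (by exact_mod_cast (not_le.1 h).le)

lemma rowG_ok {a0 a1 p0 p1 q0 q1 : ℤ} {α P Q : ℝ} (h1 : a0 ≤ 2 * α + 12 * l1 - 36 * l2)
    (h2 : 2 * α + 12 * l1 - 36 * l2 ≤ a1) (h3 : p0 ≤ P + 12 * l3) (h4 : P + 12 * l3 ≤ p1)
    (h5 : q0 ≤ Q + 36 * l2) (h6 : Q + 36 * l2 ≤ q1) {m : ℤ × ℤ × ℤ × ℤ}
    (h : (2 : ℝ) ^ m.2.2.2 ≤ E2 α ^ m.1 * E2 (P - α) ^ m.2.1 * E2 (Q - P + α) ^ m.2.2.1) :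
    (rowG a0 a1 p0 p1 q0 q1 m).a * l1 + (rowG a0 a1 p0 p1 q0 q1 m).b * l2 +
      (rowG a0 a1 p0 p1 q0 q1 m).c * l3 ≤ (rowG a0 a1 p0 p1 q0 q1 m).n := by
  have e : (2 : ℝ) = E2 256 := by simpa using (E2_nat 1).symm
  rw [e] at h
  simp only [E2_zpow, ← E2_add, E2_le_iff] at h
  have g1 := pick_le (m.1 - m.2.1 + m.2.2.1) _ _ h1 h2
  have g2 := pick_le (2 * (m.2.1 - m.2.2.1)) _ _ h3 h4
  have g3 := pick_le (2 * m.2.2.1) _ _ h5 h6
  simp only [rowG]
  push_cast at g1 g2 g3 ⊢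
  linarith

lemma ruleT_ok (X : Cx (E2 (12 * l2)) (E2 (12 * l3))) (hu : E2 (12 * l1) * X.r ^ 2 = 1)
    {cs : List (ℤ × ℤ × ℤ × ℤ)} (hc : ∀ m ∈ cs, (2 : ℝ) ^ m.2.2.2 ≤
      (X.a : ℝ) ^ m.1 * (X.d : ℝ) ^ m.2.1 * (X.f : ℝ) ^ m.2.2.1) (d : List ℤ) (bs : List Bas)
    (hv : Val l1 l2 l3 bs) : Sat l1 l2 l3 (ruleT cs d bs) := by
  unfold ruleT
  split
  swap
  · exact fun _ h => by cases h
  rename_i me mq n1 n2 n3 o1 mu nu my np
  rw [Bool.cond_eq_ite]
  split_ifs with g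
  swap
  · exact fun _ h => by cases h
  simp only [Bool.and_eq_true, Bool.or_eq_true] at g
  obtain ⟨⟨⟨c1, c2⟩, c3⟩, c4⟩ := g
  obtain ⟨-, -, m3⟩ := hv.om c1
  have c2 := hv.smq c2
  have c3 := hv.smq c3
  have r0 : (0 : ℝ) < X.r := by exact_mod_cast X.r0
  have s0 : (0 : ℝ) < X.s := by exact_mod_cast X.s0
  have t0 : (0 : ℝ) < X.t := by exact_mod_cast X.t0
  have a1 : (1 : ℝ) ≤ X.a := by exact_mod_cast X.ha
  have d1 : (1 : ℝ) ≤ X.d := by exact_mod_cast X.d0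
  have f1 : (1 : ℝ) ≤ X.f := by exact_mod_cast X.f0
  have k1 := (Int.cast_le (R := ℝ)).2 X.k1
  have k2 := (Int.cast_le (R := ℝ)).2 X.k2
  have k3 := (Int.cast_le (R := ℝ)).2 X.k3
  have k4 := (Int.cast_le (R := ℝ)).2 X.k4
  have k5 := (Int.cast_le (R := ℝ)).2 X.k5
  have k6 := (Int.cast_le (R := ℝ)).2 X.k6
  have k7 := (Int.cast_le (R := ℝ)).2 X.k7
  obtain ⟨z1, z2, z3, z4⟩ := m3.sz (x := X.r ^ 2 / X.s ^ 2) (y := X.r ^ 2 / X.t ^ 2) X.e0 X.q0
    (by rw [div_mul_eq_mul_div, X.y1]; field_simp) (by rw [div_mul_eq_mul_div, X.y2]; field_simp)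
  obtain ⟨x, hx⟩ := E2_surj (x := X.r ^ 2 / X.s ^ 2) (by positivity)
  obtain ⟨y, hy⟩ := E2_surj (x := X.r ^ 2 / X.t ^ 2) (by positivity)
  obtain ⟨α, hα⟩ := E2_surj (one_pos.trans_le a1)
  obtain ⟨β, hβ⟩ := E2_surj (one_pos.trans_le d1)
  obtain ⟨γ, hγ⟩ := E2_surj (one_pos.trans_le f1)
  simp only [Int.cast_zero, zero_mul, zero_add, add_zero, Int.cast_ofNat] at c2 c3
  push_cast at k1 k2 k3 k4 k5 k6 k7 c2 c3
  have j1 : X.a ^ 2 * E2 (12 * l1) * (X.r ^ 2 / X.s ^ 2) ≤ X.r ^ 2 / X.t ^ 2 := by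
    rw [mul_assoc, ← mul_div_assoc, hu, mul_one_div, div_le_div_iff₀ (by positivity) (by positivity)]
    exact k1
  have j2 : E2 (-nu) * (X.r ^ 2 / X.t ^ 2) ≤ X.a ^ 2 * E2 (12 * l1) * (X.r ^ 2 / X.s ^ 2) := by
    have p := E2_pos (12 * l1)
    have m0 : (0 : ℝ) ≤ mu.toNat := Nat.cast_nonneg _
    have b1 : E2 (-nu) ≤ (1 - 4 * E2 (12 * l1)) ^ 2 := by
      refine le_of_mul_le_mul_right ?_ (by positivity : (0 : ℝ) < mu.toNat + 8)
      nlinarith [mul_pos (mul_pos p p) (by positivity : (0 : ℝ) < mu.toNat + 8)]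
    have b2 : (1 - 4 * E2 (12 * l1)) * X.r ^ 2 = X.r ^ 2 - 4 := by linear_combination -4 * hu
    refine (mul_le_mul_of_nonneg_right b1 (by positivity)).trans ?_
    rw [mul_assoc, ← mul_div_assoc (E2 _), hu, mul_one_div, ← mul_div_assoc,
      div_le_div_iff₀ (by positivity) (by positivity)]
    refine le_of_mul_le_mul_right ?_ (pow_pos r0 2)
    rw [← b2] at k2
    linarith
  have j3 : X.a * X.d * (X.r ^ 2 / X.s ^ 2 : ℝ) ≤ 1 := by
    rwa [← mul_div_assoc, div_le_one (by positivity)]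
  have j4 : E2 (-np) ≤ X.a * X.d * (X.r ^ 2 / X.s ^ 2 : ℝ) := by
    have b1 : 1 ≤ (X.a * X.d + 4) * (X.r ^ 2 / X.s ^ 2 : ℝ) := by
      rwa [← mul_div_assoc, one_le_div (by positivity)]
    have b2 : (0 : ℝ) < X.r ^ 2 / X.s ^ 2 := by positivity
    rcases c4 with c4 | ⟨c4, c5⟩
    · have := hv.smq c4
      simp only [Int.cast_zero, zero_mul, zero_add] at this
      push_cast at this
      nlinarith
    · have c4 := hv.smq c4
      have c5 := hv.smq c5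
      simp only [Int.cast_zero, zero_mul, zero_add, Int.cast_ofNat] at c4 c5
      push_cast at c4 c5
      rw [E2_add] at c4
      have m0 : (0 : ℝ) < my.toNat + 4 := by positivity
      have := mul_le_mul_of_nonneg_right z2 m0.le
      have := mul_le_mul_of_nonneg_right b1 m0.le
      refine le_of_mul_le_mul_right ?_ m0
      linarith
  have j5 : X.d * X.f * (X.r ^ 2 / X.t ^ 2 : ℝ) ≤ X.r ^ 2 / X.s ^ 2 := by
    rw [← mul_div_assoc, div_le_div_iff₀ (by positivity) (by positivity)]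
    nlinarith [pow_pos r0 2]
  have j6 : X.r ^ 2 / X.s ^ 2 ≤ E2 196 * (X.d * X.f * (X.r ^ 2 / X.t ^ 2 : ℝ)) := by
    have b : (17 / 10 : ℝ) ≤ E2 196 := by
      refine le_of_pow_le_pow_left₀ (n := 256) (by norm_num) (E2_pos _).le ?_
      rw [E2_pow, div_pow, div_le_iff₀ (by positivity)]
      have := E2_nat 196
      push_cast at this ⊢
      rw [this]
      exact_mod_cast (by decide +kernel : 17 ^ 256 ≤ 2 ^ 196 * 10 ^ 256)
    refine le_trans ?_ (mul_le_mul_of_nonneg_right b (by positivity))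
    rw [← mul_div_assoc, ← mul_div_assoc, div_le_div_iff₀ (by positivity) (by positivity)]
    nlinarith [pow_pos r0 2]
  rw [hx] at z1 z2 j1 j2 j3 j4 j5 j6
  rw [hy] at z3 z4 j1 j2 j5 j6
  rw [hα] at j1 j2 j3 j4
  rw [hβ] at j3 j4 j5 j6
  rw [hγ] at j5 j6
  rw [← E2_zero] at j3
  simp only [E2_pow, ← E2_add, E2_le_iff] at z1 z2 z3 z4 j1 j2 j3 j4 j5 j6
  intro g hg
  obtain ⟨m, hm, rfl⟩ := List.mem_map.1 hg
  refine rowG_ok (α := 12 * α) (P := 12 * α + 12 * β) (Q := 12 * β + 12 * γ) ?_ ?_ ?_ ?_ ?_ ?_ ?_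
  iterate 6 push_cast at *; linarith
  rw [add_sub_cancel_left, show 12 * β + 12 * γ - (12 * α + 12 * β) + 12 * α = 12 * γ by ring,
    ← hα, ← hβ, ← hγ]
  simp only [List.mem_cons] at hm
  rcases hm with rfl | rfl | rfl | rfl | hm
  iterate 3 simpa
  · simp only [zpow_ofNat]; linarith
  · exact hc m hm

theorem cover_of {cells : List (List Gn)} (hc : ∀ G ∈ cells, ∀ {l1 l2 l3 : ℝ}
    (X : Cx (E2 (12 * l2)) (E2 (12 * l3))), E2 (12 * l1) * X.r ^ 2 = 1 → Sat l1 l2 l3 G → False)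
    (ht : ∀ cs ∈ cases, ∃ t, chkC cells cs t = true) {e q : ℝ} (X : Cx e q) : False := by
  obtain ⟨l2, rfl⟩ := E2_surj X.e0
  obtain ⟨l3, rfl⟩ := E2_surj X.q0
  have r8 : (8 : ℝ) ≤ X.r := by exact_mod_cast X.r8
  obtain ⟨l1, h1⟩ := E2_surj (x := 1 / X.r ^ 2) (by positivity)
  have hu : E2 (12 * l1) * X.r ^ 2 = 1 := by rw [← h1]; field_simp
  obtain ⟨cs, h2, h3⟩ := X.fin
  obtain ⟨t, h4⟩ := ht cs h2
  refine chkT_ok (l1 := l1) (l2 := l2) (l3 := l3) (fun i d bs hv hl => ?_) (ruleT_ok X hu h3) t _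
    h4 ?_
  · unfold leafT at hl
    split at hl
    · rw [Bool.and_eq_true] at hl
      have g1 := hv.lpb hl.1
      have g2 := hv.lpb hl.2
      push_cast at g2
      linarith
    · split at hl
      swap
      · cases hl
      rename_i u v g1 g2
      have g1 := hv.ubm g1
      have g2 := hv.ubm g2
      have g3 := (Nat.cast_le (α := ℝ)).2 (Nat.le_of_ble_eq_true hl)
      rw [SC_cast] at g3
      push_cast at g1 g2 g3
      have g4 : 43000 * E2 (-3 * l1 + -39 * l2 + 15 * l3 + 0) +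
          500000 * E2 (9 * l1 + -39 * l2 + -9 * l3 + 0) ≤ 1668 :=
        le_of_mul_le_mul_right (by linarith) SC_pos
      have g5 := mul_le_mul_of_nonneg_right g4 (E2_pos (3 * l1 + 39 * l2 + 21 * l3)).le
      rw [add_mul, mul_assoc, mul_assoc, ← E2_add, ← E2_add] at g5
      refine X.cA (le_of_mul_le_mul_left ?_ (E2_pos (12 * l1)))
      rw [← mul_assoc, hu, one_mul, h1, E2_pow, mul_assoc, ← E2_add]
      have p1 := E2_pos ((3 : ℕ) * (12 * l3))
      have p2 := E2_pos (12 * l3 + 12 * l1)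
      refine (pow_le_pow_left₀ (by positivity) (b := 1668 / 10 * E2 (3 * l1 + 39 * l2 + 21 * l3))
        ?_ 4).trans ?_
      · rw [show -3 * l1 + -39 * l2 + 15 * l3 + 0 + (3 * l1 + 39 * l2 + 21 * l3) =
          (3 : ℕ) * (12 * l3) by push_cast; ring, show 9 * l1 + -39 * l2 + -9 * l3 + 0 +
          (3 * l1 + 39 * l2 + 21 * l3) = 12 * l3 + 12 * l1 by ring] at g5
        simp only [Nat.cast_ofNat] at g5 ⊢
        linarith
      · rw [mul_pow, E2_pow, E2_pow, E2_pow, mul_assoc, ← E2_add, mul_left_comm, ← E2_add]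
        exact mul_le_mul (by norm_num) (E2_le (by push_cast; linarith)) (E2_pos _).le (by norm_num)
    · rw [Bool.and_eq_true] at hl
      have g1 := hv.smq hl.1
      have g2 := hv.smq hl.2
      simp only [Int.cast_zero, zero_mul, zero_add, add_zero, Int.cast_ofNat] at g1
      push_cast at g1 g2
      refine X.cD (by linarith) (le_of_mul_le_mul_left ?_ (E2_pos (12 * l1)))
      have g5 := mul_le_mul_of_nonneg_right g2 (E2_pos (12 * l1 + 12 * l3)).le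
      rw [mul_one, ← E2_add] at g5
      rw [← mul_assoc, hu, one_mul, E2_pow, mul_left_comm (E2 _) 2, ← E2_add]
      exact (E2_le (by push_cast; linarith)).trans g5
    · split at hl
      swap
      · cases hl
      rename_i G g
      exact hc G (List.mem_of_getElem? g) X hu fun k hk => hv.lpb (List.all_eq_true.1 hl k hk)
    · cases hl
  · have b1 : E2 (12 * l1) ≤ E2 (-1536) := by
      have := E2_nat 6
      refine le_of_mul_le_mul_right ?_ (E2_pos (256 * (6 : ℕ)))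
      rw [← E2_add (-1536), show -1536 + 256 * ((6 : ℕ) : ℝ) = 0 by norm_num, E2_zero, this]
      have := mul_le_mul_of_nonneg_left (show (64 : ℝ) ≤ X.r ^ 2 by nlinarith) (E2_pos (12 * l1)).le
      linarith
    have b2 : E2 (12 * l2) ≤ E2 (-241) := by
      have := E2_rat (n := 241) (a := 25) (b := 13) (by decide +kernel)
      refine le_of_mul_le_mul_right ?_ (E2_pos 241)
      rw [← E2_add (-241), neg_add_cancel, E2_zero]
      push_cast at this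
      nlinarith [E2_pos 241, X.e1]
    have b3 : E2 (12 * l3) ≤ E2 (-512) := by
      have := E2_nat 2
      refine le_of_mul_le_mul_right ?_ (E2_pos (256 * (2 : ℕ)))
      rw [← E2_add (-512), show -512 + 256 * ((2 : ℕ) : ℝ) = 0 by norm_num, E2_zero, this]
      linarith [X.q1]
    rw [E2_le_iff] at b1 b2 b3
    simp only [Sat, G0, List.forall_mem_cons]
    norm_num
    exact ⟨b1, b2, b3⟩

end Pool.Agent.Lib.MP_b2ee0b_nt.TM
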